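import Pool.Agent.Lib.MP_e54d61_gt.TC.SpecE

/-!
# MP_e54d61_gt, torus case, module Adj5: curves avoiding related essential cycles
-/

set_option autoImplicit false

namespace Pool.Agent.MPe54d61.TC

open SimpleGraph Filter Topology

namespace Adj5Aux

private lemma geo_mono {N : ℕ} {C C' : Set (Sym2 (VN N))} (h : C ⊆ C') : geo N C ⊆ geo N C' := by
  rintro z ⟨p, q, h1, h2, h3⟩
  exact ⟨p, q, h1, h h2, h3⟩

private lemma nr_mono {m n : ℕ} (h : m ≤ n) {x y : X} (hx : NR m x y) : NR n x y := by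
  obtain ⟨w, hw⟩ := hx
  exact ⟨w, hw.trans h⟩

private lemma nr_trans {m n : ℕ} {x y z : X} (hx : NR m x y) (hy : NR n y z) : NR (m + n) x z := by
  obtain ⟨w, hw⟩ := hx
  obtain ⟨w', hw'⟩ := hy
  refine ⟨w.append w', ?_⟩
  rw [Walk.length_append]
  omega

private lemma nr_adj {x y : X} (h : Gr.Adj x y) : NR 1 x y := ⟨Walk.cons h Walk.nil, by simp⟩

private lemma jm_ne : Jm ≠ 1 := by
  intro h
  have h1 := congrArg (fun A : Matrix.SpecialLinearGroup (Fin 2) ℤ => A 0 0) h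
  simp [Jm] at h1

private lemma adj_jm (g : GT) (A : Matrix.SpecialLinearGroup (Fin 2) ℤ) :
    Gr.Adj ((g, A) : X) ((g, A * Jm) : X) := by
  refine ⟨fun h => ?_, Or.inr ⟨rfl, Or.inl rfl⟩⟩
  have h1 : A = A * Jm := congrArg Prod.snd h
  exact jm_ne (left_eq_mul.mp h1)

end Adj5Aux

open Adj5Aux in
/-- curves which avoid related essential cycles are close -/
theorem tAdj5 (hGrid : S_Grid) (hSame : S_Same) (hAdjSS : S_AdjSS) (hKReal : S_KReal) (hKS : S_KS)
    (hKD : S_KD) (hKI : S_KI) : S_Adj5 := by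
  obtain ⟨N1, h3, hS⟩ := hSame
  obtain ⟨N2, hR⟩ := hKReal
  obtain ⟨N3, hI⟩ := hKI
  refine ⟨max N1 (max N2 N3), h3.trans (le_max_left _ _), fun N hN => ?_⟩
  have hN1 : N1 ≤ N := (le_max_left _ _).trans hN
  have hN2 : N2 ≤ N := ((le_max_left _ _).trans (le_max_right _ _)).trans hN
  have hN3 : N3 ≤ N := ((le_max_right _ _).trans (le_max_right _ _)).trans hN
  have hN0 : 3 ≤ N := h3.trans hN1
  have hne : NeZero N := ⟨by omega⟩
  have key : ∀ C C' : Set (Sym2 (VN N)), UK N (C ∪ C') → ∃ x : X, Av N x C ∧ Av N x C' := by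
    intro C C' hU
    obtain ⟨x, hx, -, -⟩ := hR N hne hN2 (C ∪ C') hU
    exact ⟨x, Disjoint.mono_right (geo_mono Set.subset_union_left) hx,
      Disjoint.mono_right (geo_mono Set.subset_union_right) hx⟩
  have key2 : ∀ C C' : Set (Sym2 (VN N)), EC (GN N) (kN N) C → EC (GN N) (kN N) C' →
      UK N (C ∪ C') → ∀ z z' : X, Av N z C → Av N z' C' → NR 5 z z' := by
    intro C C' hC hC' hU z z' hz hz'
    obtain ⟨x, hx, hx'⟩ := key C C' hU
    exact nr_mono (by norm_num)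
      (nr_trans (hS N hN1 C hC z x hz hx) (hS N hN1 C' hC' x z' hx' hz'))
  refine ⟨fun C hC => ?_, fun C C' hC hC' hRR z z' hz hz' => ?_⟩
  · have h1 : AdjS (kN N) C C := hAdjSS (VN N) (ℤ × ℤ) inferInstance (GN N) (kN N) (hGrid N hN0).1 C hC
    obtain ⟨x, hx, -⟩ := key C C (hKS N hne hN0 C C hC hC h1)
    exact ⟨x, hx⟩
  · rcases hRR with h | h | h | h
    · subst h
      exact nr_mono (by norm_num) (hS N hN1 C hC z z' hz hz')
    · exact key2 C C' hC hC' (hKD N hne hN0 C C' hC hC' h) z z' hz hz'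
    · rcases hI N hne hN3 C C' hC hC' h with h1 | ⟨g, A, h1, h2⟩
      · exact key2 C C' hC hC' h1 z z' hz hz'
      · have e1 : NR 2 z ((g, A) : X) := hS N hN1 C hC z (g, A) hz h1
        have e2 : NR 2 ((g, A * Jm) : X) z' := hS N hN1 C' hC' (g, A * Jm) z' h2 hz'
        exact nr_trans (nr_trans e1 (nr_adj (adj_jm g A))) e2
    · exact key2 C C' hC hC' (hKS N hne hN0 C C' hC hC' h) z z' hz hz'

end Pool.Agent.MPe54d61.TC
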