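import Pool.Agent.Lib.MP_e54d61_gt.TC.SpecE

/-!
# MP_e54d61_gt, torus case: an essential cycle is parallel to itself
-/

set_option autoImplicit false

namespace Pool.Agent.MPe54d61.TC

open SimpleGraph

theorem tAdjSS (hPot : S_Pot) (hPotCls : S_PotCls) : S_AdjSS := by
  intro V M _ Γ κ hκ C hC
  obtain ⟨x, c, hE, rfl⟩ := hC
  cases c with
  | nil => exact absurd rfl hE.2
  | @cons _ v _ h p =>
    have hp : p.IsPath := by
      have h1 := hE.1
      rw [Walk.support_cons, List.tail_cons] at h1
      exact (Walk.isPath_def p).2 h1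
    obtain ⟨φ, hφ⟩ := hPot V M _ Γ κ hκ v x p hp
    have hcls : cls κ p = φ x - φ v := hPotCls V M _ Γ κ (eds p) φ hφ v x p (fun _ he => he)
    have hl : cls κ (Walk.cons h p) = κ x v - (φ v - φ x) := by
      rw [cls_cons, hcls]; abel
    refine ⟨φ, cls κ (Walk.cons h p), fun a b hab => ?_⟩
    have hab' : s(a, b) ∈ (Walk.cons h p).edges := by
      rcases hab with hab | hab <;> exact hab
    rw [Walk.edges_cons, List.mem_cons] at hab'
    rcases hab' with hab' | hab'
    · rw [Sym2.eq_iff] at hab'
      rcases hab' with ⟨rfl, rfl⟩ | ⟨rfl, rfl⟩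
      · rw [← hl]
        exact AddSubgroup.mem_zmultiples _
      · have h2 : κ a b - (φ b - φ a) = -cls κ (Walk.cons h p) := by
          rw [hl, hκ b a]; abel
        rw [h2]
        exact neg_mem (AddSubgroup.mem_zmultiples _)
    · have h2 : κ a b - (φ b - φ a) = 0 := by
        rw [hφ a b hab', sub_self]
      rw [h2]
      exact zero_mem _

end Pool.Agent.MPe54d61.TC
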