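import Pool.Agent.Lib.MP_e54d61_gt.TC.SpecB

/-!
# MP_e54d61_gt, torus case, part B: arcs of an essential cycle
-/

set_option autoImplicit false

namespace Pool.Agent.MPe54d61.TC

open SimpleGraph

theorem tArc (hEssAt : S_EssAt) : S_Arc := by
  intro V M _ Γ κ D hD
  refine ⟨?_, ?_, ?_⟩
  · intro v hv
    obtain ⟨x, c, hc, hcD⟩ := hD
    have hvc : v ∈ c.support := by
      rw [← hcD] at hv
      obtain ⟨e, he, hve⟩ := hv
      exact Walk.mem_support_of_mem_edges he hve
    obtain ⟨c', hc', hce, -⟩ := hEssAt V M _ Γ κ x c hc v hvc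
    refine ⟨c', ⟨Walk.nil, ?_, ?_⟩, hc'⟩
    · rw [Walk.append_nil]
      exact hc'
    · rw [Walk.append_nil, hce, hcD]
  · rintro u w w' v δ1 δ2 δ3 ⟨δ', hE, hd⟩
    refine ⟨δ3.append (δ'.append δ1), ?_, ?_⟩
    · rw [← Walk.append_assoc] at hE
      have h1 := ess_comm hE
      rw [← Walk.append_assoc, ← Walk.append_assoc] at h1
      exact h1
    · rw [← hd]
      simp only [eds_append]
      ext e
      simp only [Set.mem_union]
      tauto
  · rintro u v δ ⟨δ', hE, hd⟩
    refine ⟨((ess_append_iff δ δ').1 hE).1, ?_⟩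
    rw [← hd, eds_append]
    exact Set.subset_union_left

end Pool.Agent.MPe54d61.TC
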