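import Pool.Agent.Lib.MP_e54d61_gt.TC.SpecH

/-!
# MP_e54d61_gt, torus case, module Area: the sum of the signed areas
-/

set_option autoImplicit false

namespace Pool.Agent.MPe54d61.TC

open Topology MatrixGroups

namespace AreaAux

variable {N : ℕ}

/-- reindexing -/
private theorem sum_shift [NeZero N] (F : VN N → ℝ) (e : VN N) : ∑ p, F (p + e) = ∑ p, F p :=
  Equiv.sum_comp (Equiv.addRight e) F

/-- the two areas at one vertex -/
private theorem area_eq (f : VN N → P) (p : VN N) : low f p + upp f p =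
    2 * dt (EE N 0) (EE N 1) +
      (dt (EE N 0 - EE N 1) (f (p + ed N 2)) - dt (EE N 0 - EE N 1) (f p)) +
      (dt (f (p + ed N 0)) (EE N 2) - dt (f (p + ed N 1)) (EE N 2)) +
      (dt (f (p + ed N 0)) (f (p + ed N 2)) - dt (f p) (f (p + ed N 1))) +
      (dt (f p) (f (p + ed N 0)) - dt (f (p + ed N 1)) (f (p + ed N 2))) := by
  simp only [low, upp, XX, EE_two, dt, Prod.fst_add, Prod.snd_add, Prod.fst_sub, Prod.snd_sub]
  ring

private theorem const_eq [NeZero N] : ∑ _p : VN N, 2 * dt (EE N 0) (EE N 1) = 2 := by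
  have hN : (N : ℝ) ≠ 0 := Nat.cast_ne_zero.2 (NeZero.ne N)
  have h1 : dt (EE N 0) (EE N 1) = 1 / N * (1 / N) := by
    simp [EE, ei, dt]
  rw [Finset.sum_const, Finset.card_univ, Fintype.card_prod, ZMod.card, h1, nsmul_eq_mul]
  push_cast
  field_simp

end AreaAux

open AreaAux in
/-- the sum of the areas is that of the torus (twice) -/
theorem tArea : S_Area := by
  intro N _ f
  have h1 : ∑ p, dt (EE N 0 - EE N 1) (f (p + ed N 2)) = ∑ p, dt (EE N 0 - EE N 1) (f p) :=
    sum_shift (fun p => dt (EE N 0 - EE N 1) (f p)) _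
  have h2 : ∑ p, dt (f (p + ed N 0)) (EE N 2) = ∑ p, dt (f p) (EE N 2) :=
    sum_shift (fun p => dt (f p) (EE N 2)) _
  have h3 : ∑ p, dt (f (p + ed N 1)) (EE N 2) = ∑ p, dt (f p) (EE N 2) :=
    sum_shift (fun p => dt (f p) (EE N 2)) _
  have h4 : ∑ p, dt (f (p + ed N 0)) (f (p + ed N 2)) = ∑ p, dt (f p) (f (p + ed N 1)) := by
    rw [← sum_shift (fun p => dt (f p) (f (p + ed N 1))) (ed N 0)]
    refine Finset.sum_congr rfl fun p _ => ?_
    rw [ed_two, add_assoc]
  have h5 : ∑ p, dt (f (p + ed N 1)) (f (p + ed N 2)) = ∑ p, dt (f p) (f (p + ed N 0)) := by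
    rw [← sum_shift (fun p => dt (f p) (f (p + ed N 0))) (ed N 1)]
    refine Finset.sum_congr rfl fun p _ => ?_
    rw [ed_two, add_assoc, add_comm (ed N 1) (ed N 0)]
  rw [Finset.sum_congr rfl fun p _ => area_eq f p, Finset.sum_add_distrib, Finset.sum_add_distrib,
    Finset.sum_add_distrib, Finset.sum_add_distrib, Finset.sum_sub_distrib,
    Finset.sum_sub_distrib, Finset.sum_sub_distrib, Finset.sum_sub_distrib, h1, h2, h3, h4, h5,
    const_eq]
  ring

end Pool.Agent.MPe54d61.TC
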