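import Pool.Agent.Lib.MP_e54d61_gt.TC.SpecF

/-!
# MP_e54d61_gt, torus case: averages along a flow
-/

set_option autoImplicit false

namespace Pool.Agent.MPe54d61.TC

open Topology MeasureTheory

/-- the average along a flow: continuity and Lipschitz bound along the flow -/
theorem tAv : S_Av := by
  intro X _ φ σ δ hσ h01 hδ
  have hc : ∀ x, Continuous fun t : ℝ => σ (φ t x) := fun x =>
    hσ.comp (φ.continuous continuous_id continuous_const)
  have hi : ∀ (x : X) (a b : ℝ), IntervalIntegrable (fun t => σ (φ t x)) volume a b := fun x a b =>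
    (hc x).intervalIntegrable a b
  refine ⟨?_, fun s x => ?_⟩
  · refine Continuous.div_const ?_ δ
    refine intervalIntegral.continuous_parametric_intervalIntegral_of_continuous'
      (f := fun x t => σ (φ t x)) ?_ 0 δ
    exact hσ.comp (φ.continuous continuous_snd continuous_fst)
  · have h1 : (∫ t in (0 : ℝ)..δ, σ (φ t (φ s x))) = ∫ t in (0 + s)..(δ + s), σ (φ t x) := by
      rw [← intervalIntegral.integral_comp_add_right (fun t => σ (φ t x)) s]
      refine intervalIntegral.integral_congr fun t _ => ?_
      show σ (φ t (φ s x)) = σ (φ (t + s) x)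
      rw [φ.map_add]
    have h2 : (∫ t in (0 : ℝ)..δ, σ (φ t (φ s x))) - (∫ t in (0 : ℝ)..δ, σ (φ t x)) =
        (∫ t in δ..(δ + s), σ (φ t x)) - ∫ t in (0 : ℝ)..s, σ (φ t x) := by
      rw [h1, zero_add]
      have e1 := intervalIntegral.integral_add_adjacent_intervals (hi x 0 s) (hi x s (δ + s))
      have e2 := intervalIntegral.integral_add_adjacent_intervals (hi x 0 δ) (hi x δ (δ + s))
      linarith
    have key : ∀ a : ℝ, (0 ≤ s → 0 ≤ (∫ t in a..(a + s), σ (φ t x)) ∧
        (∫ t in a..(a + s), σ (φ t x)) ≤ s) ∧
        (s ≤ 0 → s ≤ (∫ t in a..(a + s), σ (φ t x)) ∧ (∫ t in a..(a + s), σ (φ t x)) ≤ 0) := by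
      intro a
      constructor
      · intro hs
        have hle : a ≤ a + s := by linarith
        refine ⟨intervalIntegral.integral_nonneg hle fun t _ => (h01 _).1, ?_⟩
        have h3 := intervalIntegral.integral_mono_on hle (hi x a (a + s))
          ((continuous_const (y := (1 : ℝ))).intervalIntegrable _ _) (fun t _ => (h01 (φ t x)).2)
        simpa using h3
      · intro hs
        have hle : a + s ≤ a := by linarith
        rw [intervalIntegral.integral_symm]
        have h3 := intervalIntegral.integral_mono_on hle (hi x (a + s) a)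
          ((continuous_const (y := (1 : ℝ))).intervalIntegrable _ _) (fun t _ => (h01 (φ t x)).2)
        have h4 : (0 : ℝ) ≤ ∫ t in (a + s)..a, σ (φ t x) :=
          intervalIntegral.integral_nonneg hle fun t _ => (h01 _).1
        have h5 : (∫ _ in (a + s)..a, (1 : ℝ)) = -s := by simp
        rw [h5] at h3
        constructor <;> linarith
    rw [← sub_div, abs_div, abs_of_pos hδ, h2]
    refine div_le_div_of_nonneg_right ?_ hδ.le
    have k1 := key δ
    have k2 := key 0
    rw [zero_add] at k2
    rcases le_total 0 s with hs | hs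
    · rw [abs_of_nonneg hs, abs_le]
      have a1 := k1.1 hs
      have a2 := k2.1 hs
      constructor <;> linarith [a1.1, a1.2, a2.1, a2.2]
    · rw [abs_of_nonpos hs, abs_le]
      have a1 := k1.2 hs
      have a2 := k2.2 hs
      constructor <;> linarith [a1.1, a1.2, a2.1, a2.2]

end Pool.Agent.MPe54d61.TC
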