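import Pool.Agent.Lib.MP_e54d61_gt.TC.SpecE

/-!
# MP_e54d61_gt, torus case, part E: existence of essential cycles avoiding a curve
-/

set_option autoImplicit false

namespace Pool.Agent.MPe54d61.TC

theorem tAvEx (hPixX : S_PixX) : S_AvEx := by
  intro x
  have hcl : IsClosed (cur x) := by
    have h1 : cur x = Set.range fun y : Ci => (x.1 : T ≃ₜ T) (mat x.2 ((0 : Ci), y)) := by
      ext z
      exact ⟨fun ⟨y, hy⟩ => ⟨y, hy.symm⟩, fun ⟨y, hy⟩ => ⟨y, hy.symm⟩⟩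
    rw [h1]
    refine (isCompact_range ?_).isClosed
    exact (x.1 : T ≃ₜ T).continuous.comp ((mat x.2).continuous.comp
      (continuous_const.prodMk continuous_id))
  obtain ⟨N0, h⟩ := hPixX x (1 / 2) (cur x)ᶜ hcl.isOpen_compl (by
    rintro t ⟨y, hy⟩
    have h1 : (x.1 : T ≃ₜ T) (mat x.2 (pr (1 / 2, t))) =
        (x.1 : T ≃ₜ T) (mat x.2 ((0 : Ci), y)) := hy
    have h2 := (mat x.2).injective ((x.1 : T ≃ₜ T).injective h1)
    have h3 : ((1 / 2 : ℝ) : Ci) = 0 := congrArg Prod.fst h2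
    obtain ⟨n, hn⟩ := AddCircle.coe_eq_zero_iff (1 : ℝ) |>.1 h3
    rw [zsmul_eq_mul, mul_one] at hn
    have h4 : ((2 * n : ℤ) : ℝ) = 1 := by
      push_cast
      rw [hn]
      norm_num
    have h5 : 2 * n = 1 := by exact_mod_cast h4
    omega)
  refine ⟨N0, fun N hN => ?_⟩
  obtain ⟨C, hC, hg⟩ := h N hN
  exact ⟨C, hC, Set.disjoint_left.2 fun z hz hz' => hg hz' hz⟩

end Pool.Agent.MPe54d61.TC
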