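import Pool.Agent.Lib.MP_e54d61_gt.TC.SpecH

/-!
# MP_e54d61_gt, torus case, part H: levels avoid edges and triangles (`S_Avoid`)
-/

set_option autoImplicit false

namespace Pool.Agent.MPe54d61.TC

namespace AvoidAux

theorem exists_int_of_coe_eq {x y : ℝ} (h : (x : Ci) = (y : Ci)) : ∃ n : ℤ, x = y + n := by
  have h1 : ((x - y : ℝ) : Ci) = 0 := by
    rw [AddCircle.coe_sub, h, sub_self]
  obtain ⟨n, hn⟩ := (AddCircle.coe_eq_zero_iff (1 : ℝ)).1 h1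
  refine ⟨n, ?_⟩
  rw [zsmul_eq_mul, mul_one] at hn
  linarith

/-- points with the same image in the torus -/
theorem exists_iv {z w : P} (h : pr z = pr w) : ∃ v : ℤ × ℤ, z = w + iv v := by
  have h1 := congrArg Prod.fst h
  have h2 := congrArg Prod.snd h
  obtain ⟨m, hm⟩ := exists_int_of_coe_eq h1
  obtain ⟨n, hn⟩ := exists_int_of_coe_eq h2
  exact ⟨(m, n), Prod.ext hm hn⟩

theorem pt_add_iv (N : ℕ) [NeZero N] (a v : ℤ × ℤ) (s t : ℝ) :
    pt N a s t + iv v = pt N (a + (N : ℤ) • v) s t := by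
  have hN : (N : ℝ) ≠ 0 := Nat.cast_ne_zero.2 (NeZero.ne N)
  refine Prod.ext ?_ ?_
  · show (a.1 + s) / N + (v.1 : ℝ) = (((a + (N : ℤ) • v).1 : ℤ) + s) / N
    rw [Prod.fst_add, Prod.smul_fst, smul_eq_mul]
    push_cast
    field_simp
    ring
  · show (a.2 + t) / N + (v.2 : ℝ) = (((a + (N : ℤ) • v).2 : ℤ) + t) / N
    rw [Prod.snd_add, Prod.smul_snd, smul_eq_mul]
    push_cast
    field_simp
    ring

theorem zc_add_smul (N : ℕ) (a v : ℤ × ℤ) : zc N (a + (N : ℤ) • v) = zc N a := by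
  refine Prod.ext ?_ ?_
  · show (((a + (N : ℤ) • v).1 : ℤ) : ZMod N) = (a.1 : ZMod N)
    rw [Prod.fst_add, Prod.smul_fst, smul_eq_mul]
    push_cast
    simp
  · show (((a + (N : ℤ) • v).2 : ℤ) : ZMod N) = (a.2 : ZMod N)
    rw [Prod.snd_add, Prod.smul_snd, smul_eq_mul]
    push_cast
    simp

/-- the value at the vertices -/
noncomputable def U (N : ℕ) (f : VN N → P) (l a : ℤ × ℤ) : ℝ := dt (iv l) (pt N a 0 0 + f (zc N a))

theorem U_add (N : ℕ) [NeZero N] (f : VN N → P) (l a v : ℤ × ℤ) :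
    ∃ n : ℤ, U N f l (a + (N : ℤ) • v) = U N f l a + n := by
  refine ⟨l.1 * v.2 - l.2 * v.1, ?_⟩
  rw [U, zc_add_smul, ← pt_add_iv, U]
  simp only [dt, iv, Prod.fst_add, Prod.snd_add]
  push_cast
  ring

theorem dt_lin (w A x y : P) (c d : ℝ) :
    dt w (A + (c • x + d • y)) = dt w A + (c * dt w x + d * dt w y) := by
  rw [dt_add_right, dt_add_right, dt_smul_right, dt_smul_right]

theorem key (N : ℕ) (U0 r θ : ℝ) (h : ∀ n : ℤ, 1 / (2 * ((N : ℝ) ^ 2 + 1)) ≤ |U0 - (θ + n)|)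
    (hr : |r| ≤ 1 / (4 * ((N : ℝ) ^ 2 + 1))) : ¬ ∃ n : ℤ, U0 + r = θ + n := by
  rintro ⟨n, hn⟩
  have h1 := h n
  have h2 : U0 - (θ + n) = -r := by rw [← hn]; ring
  rw [h2, abs_neg] at h1
  have hpos : (0 : ℝ) < (N : ℝ) ^ 2 + 1 := by positivity
  have h3 : 1 / (2 * ((N : ℝ) ^ 2 + 1)) = 2 * (1 / (4 * ((N : ℝ) ^ 2 + 1))) := by
    field_simp
    norm_num
  have h4 : 0 < 1 / (4 * ((N : ℝ) ^ 2 + 1)) := by positivity
  linarith

theorem comb {x y ε s t : ℝ} (hx : |x| ≤ ε) (hy : |y| ≤ ε) (ht : 0 ≤ t) (hts : t ≤ s) (hs : s ≤ 1) :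
    |(s - t) * x + t * y| ≤ ε := by
  have hε : 0 ≤ ε := le_trans (abs_nonneg x) hx
  calc |(s - t) * x + t * y| ≤ |(s - t) * x| + |t * y| := abs_add_le _ _
    _ = (s - t) * |x| + t * |y| := by
        rw [abs_mul, abs_mul, abs_of_nonneg (sub_nonneg.2 hts), abs_of_nonneg ht]
    _ ≤ (s - t) * ε + t * ε := by
        have h1 : (s - t) * |x| ≤ (s - t) * ε := mul_le_mul_of_nonneg_left hx (sub_nonneg.2 hts)
        have h2 : t * |y| ≤ t * ε := mul_le_mul_of_nonneg_left hy ht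
        linarith
    _ = s * ε := by ring
    _ ≤ 1 * ε := mul_le_mul_of_nonneg_right hs hε
    _ = ε := one_mul ε

end AvoidAux

open AvoidAux in
theorem tAvoid (hTri : S_Tri) (hTheta : S_Theta) : S_Avoid := by
  intro N hN0 f l K hK
  have := hN0
  obtain ⟨θ, hθ⟩ := hTheta N hN0 (U N f l) (fun a v => U_add N f l a v)
  set ε : ℝ := 1 / (4 * ((N : ℝ) ^ 2 + 1)) with hε
  have hε0 : 0 ≤ ε := by rw [hε]; positivity
  -- lower triangles
  have low' : ∀ (a : ℤ × ℤ) (s t : ℝ), 0 ≤ t → t ≤ s → s ≤ 1 →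
      |(s - t) * dt (iv l) (XX f 0 (zc N a)) + t * dt (iv l) (XX f 2 (zc N a))| ≤ ε →
      ∀ z, pr z = pr (pt N a s t) → ¬ ∃ n : ℤ, dt (iv l) (PLm f z) = θ + n := by
    intro a s t ht hts hs hb z hz
    obtain ⟨v, hv⟩ := exists_iv hz
    rw [pt_add_iv] at hv
    have h1 := (hTri N hN0 f (a + (N : ℤ) • v) s t).1 ht hts hs
    rw [hv, h1, dt_lin]
    refine key N (U N f l (a + (N : ℤ) • v)) _ θ (fun n => hθ _ n) ?_
    rw [zc_add_smul]
    exact hb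
  have upp' : ∀ (a : ℤ × ℤ) (s t : ℝ), 0 ≤ s → s ≤ t → t ≤ 1 →
      |(t - s) * dt (iv l) (XX f 1 (zc N a)) + s * dt (iv l) (XX f 2 (zc N a))| ≤ ε →
      ∀ z, pr z = pr (pt N a s t) → ¬ ∃ n : ℤ, dt (iv l) (PLm f z) = θ + n := by
    intro a s t ht hts hs hb z hz
    obtain ⟨v, hv⟩ := exists_iv hz
    rw [pt_add_iv] at hv
    have h1 := (hTri N hN0 f (a + (N : ℤ) • v) s t).2 ht hts hs
    rw [hv, h1, dt_lin]
    refine key N (U N f l (a + (N : ℤ) • v)) _ θ (fun n => hθ _ n) ?_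
    rw [zc_add_smul]
    exact hb
  refine ⟨θ, ?_, ?_, ?_⟩
  · rintro k p hk z ⟨a, s, rfl, hs0, hs1, hz⟩
    have hb := hK k _ hk
    have hsb : |s * dt (iv l) (XX f k (zc N a))| ≤ ε := by
      rw [abs_mul, abs_of_nonneg hs0]
      calc s * |dt (iv l) (XX f k (zc N a))| ≤ 1 * ε :=
            mul_le_mul hs1 hb (abs_nonneg _) zero_le_one
        _ = ε := one_mul ε
    fin_cases k
    · refine low' a s 0 le_rfl hs0 hs1 ?_ z ?_
      · simpa using hsb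
      · simpa [ei] using hz
    · refine upp' a 0 s le_rfl hs0 hs1 ?_ z ?_
      · simpa using hsb
      · simpa [ei] using hz
    · refine low' a s s hs0 le_rfl hs1 ?_ z ?_
      · simpa using hsb
      · simpa [ei] using hz
  · rintro p h0 h2 z ⟨a, s, t, rfl, ht, hts, hs, hz⟩
    exact low' a s t ht hts hs (comb (hK 0 _ h0) (hK 2 _ h2) ht hts hs) z hz
  · rintro p h1 h2 z ⟨a, s, t, rfl, ht, hts, hs, hz⟩
    exact upp' a s t ht hts hs (comb (hK 1 _ h1) (hK 2 _ h2) ht hts hs) z hz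

end Pool.Agent.MPe54d61.TC
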