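import Pool.Agent.Lib.MP_e54d61_gt.TC.SpecH

/-! Continuous bijections of the plane with bounded displacement are homeomorphisms. -/

set_option autoImplicit false

namespace Pool.Agent.MPe54d61.TC

theorem tBdd : S_Bdd := by
  intro Ψ hc hb hd
  obtain ⟨C, hC⟩ := hd
  have hp : IsProperMap Ψ := by
    rw [isProperMap_iff_isCompact_preimage]
    refine ⟨hc, fun K hK => ?_⟩
    refine Metric.isCompact_of_isClosed_isBounded (hK.isClosed.preimage hc) ?_
    obtain ⟨R, hR⟩ := hK.isBounded.subset_closedBall 0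
    refine (Metric.isBounded_closedBall (x := (0 : P)) (r := R + C)).subset ?_
    intro z hz
    have h1 : dist (Ψ z) 0 ≤ R := Metric.mem_closedBall.1 (hR hz)
    have h2 : dist z 0 ≤ dist z (Ψ z) + dist (Ψ z) 0 := dist_triangle _ _ _
    have h3 : dist z (Ψ z) ≤ C := by rw [dist_comm]; exact hC z
    exact Metric.mem_closedBall.2 (by linarith)
  exact ⟨(Equiv.ofBijective Ψ hb).toHomeomorphOfContinuousClosed hc hp.isClosedMap, rfl⟩

end Pool.Agent.MPe54d61.TC
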