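import Pool.Agent.Lib.MP_e54d61_gt.TC.SpecA

/-!
# MP_e54d61_gt, torus case, part A: the elements of `HY` are products of six time-one maps
-/

set_option autoImplicit false

namespace Pool.Agent.MPe54d61.TC

open Topology

private theorem Bip_bsMul {h h' : Y ≃ₜ Y} (hh : BS h) (hh' : BS h') : BS (h * h') := by
  obtain ⟨M, hM⟩ := hh
  obtain ⟨M', hM'⟩ := hh'
  refine ⟨max M M', fun z hz => ?_⟩
  show h (h' z) = z
  rw [hM' z (le_trans (le_max_right _ _) hz), hM z (le_trans (le_max_left _ _) hz)]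

private theorem Bip_bsInv {h : Y ≃ₜ Y} (hh : BS h) : BS h⁻¹ := by
  obtain ⟨M, hM⟩ := hh
  refine ⟨M, fun z hz => ?_⟩
  show h.symm z = z
  rw [Homeomorph.symm_apply_eq, hM z hz]

/-- the maps supported in `K` -/
private def Bip_S (K : Set Y) : Subgroup (Y ≃ₜ Y) where
  carrier := {h | SuppIn K h}
  mul_mem' h h' := SuppIn.mul h h'
  one_mem' := suppIn_one
  inv_mem' h := SuppIn.inv h

/-- the maps with bounded support contained in `K` -/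
private def Bip_SB (K : Set Y) : Subgroup (Y ≃ₜ Y) where
  carrier := {h | SuppIn K h ∧ BS h}
  mul_mem' h h' := ⟨h.1.mul h'.1, Bip_bsMul h.2 h'.2⟩
  one_mem' := ⟨suppIn_one, 0, fun _ _ => rfl⟩
  inv_mem' h := ⟨h.1.inv, Bip_bsInv h.2⟩

private theorem Bip_supp {h h' : Y ≃ₜ Y} (hh : BS h) (hh' : BS h') :
    ∃ M : ℝ, SuppIn {z : Y | |z.1| ≤ M} h ∧ SuppIn {z : Y | |z.1| ≤ M} h' := by
  obtain ⟨M, hM⟩ := hh
  obtain ⟨M', hM'⟩ := hh'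
  refine ⟨max M M', fun z hz => hM z ?_, fun z hz => hM' z ?_⟩
  · have h1 : ¬ |z.1| ≤ max M M' := hz
    exact le_trans (le_max_left _ _) (not_le.1 h1).le
  · have h1 : ¬ |z.1| ≤ max M M' := hz
    exact le_trans (le_max_right _ _) (not_le.1 h1).le

/-- the commutator of `A` and `B` as a product of four conjugates of `s` and `s⁻¹` -/
private theorem Bip_four {N : Type} [Group N] (A B s : N) (hc : Commute B (s * A⁻¹ * s⁻¹)) :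
    cm A B = (A * s * A⁻¹) * s⁻¹ * (B * s * B⁻¹) * ((B * A) * s⁻¹ * (B * A)⁻¹) := by
  have h1 : B * (s * A⁻¹ * s⁻¹) = (s * A⁻¹ * s⁻¹) * B := hc
  have h2 : cm A B = A * (B * (s * A⁻¹ * s⁻¹)) * (s * A⁻¹ * s⁻¹)⁻¹ * A⁻¹ * B⁻¹ := by
    simp only [cm]
    group
  rw [h2, h1]
  group

private theorem Bip_two {N : Type} [Group N] (Φ t : N) : cm Φ t = (Φ * t * Φ⁻¹) * t⁻¹ := rfl

theorem tBip (hBipG : S_BipG) (hDsp : S_Dsp) (hCmt : S_Cmt) (hCFc : S_CFc) : S_Bip := by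
  intro h hh
  obtain ⟨M, l, hl, hlp⟩ := hCmt h hh
  obtain ⟨φ, hφ1, hφ2⟩ := hDsp M
  have ht : CFlow (φ.toHomeomorph 1) := ⟨φ, hφ1, rfl⟩
  have hK'0 : {z : Y | |z.1| ≤ M} ⊆ ⋃ n : ℕ, (φ (n : ℝ)) '' {z : Y | |z.1| ≤ M} := by
    intro z hz
    refine Set.mem_iUnion.2 ⟨0, z, hz, ?_⟩
    rw [Nat.cast_zero, φ.map_zero]
    rfl
  have hstep : ∀ (n : ℕ) (z : Y), φ.toHomeomorph 1 (φ (n : ℝ) z) = φ ((n + 1 : ℕ) : ℝ) z := by
    intro n z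
    show φ 1 (φ (n : ℝ) z) = _
    rw [← φ.map_add, Nat.cast_add, Nat.cast_one, add_comm]
  have hconj : ∀ x : Y ≃ₜ Y, SuppIn (⋃ n : ℕ, (φ (n : ℝ)) '' {z : Y | |z.1| ≤ M}) x →
      SuppIn (⋃ n : ℕ, (φ ((n + 1 : ℕ) : ℝ)) '' {z : Y | |z.1| ≤ M})
        (φ.toHomeomorph 1 * x * (φ.toHomeomorph 1)⁻¹) := by
    intro x hx
    refine (hx.conj (φ.toHomeomorph 1)).mono ?_
    rintro _ ⟨w, hw, rfl⟩
    obtain ⟨n, v, hv, rfl⟩ := Set.mem_iUnion.1 hw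
    exact Set.mem_iUnion.2 ⟨n, v, hv, (hstep n v).symm⟩
  have hsub : (⋃ n : ℕ, (φ ((n + 1 : ℕ) : ℝ)) '' {z : Y | |z.1| ≤ M}) ⊆
      ⋃ n : ℕ, (φ (n : ℝ)) '' {z : Y | |z.1| ≤ M} := by
    intro z hz
    obtain ⟨n, hn⟩ := Set.mem_iUnion.1 hz
    exact Set.mem_iUnion.2 ⟨n + 1, hn⟩
  obtain ⟨A, hA, B, hB, Φ, -, hprod⟩ := hBipG (Y ≃ₜ Y) inferInstance (φ.toHomeomorph 1)
    (Bip_S {z : Y | |z.1| ≤ M}) (Bip_SB (⋃ n : ℕ, (φ (n : ℝ)) '' {z : Y | |z.1| ≤ M}))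
    (fun x hx => ⟨SuppIn.mono hK'0 hx, M + 1, fun z hz => hx z fun h1 => by
      have h2 : |z.1| ≤ M := h1
      linarith⟩)
    (fun x hx => ⟨(hconj x hx.1).mono hsub, (hCFc _ x).2.2 hx.2⟩)
    (fun x hx y hy => SuppIn.commute hx (hconj y hy.1) (Set.disjoint_left.2 fun z hz hz' => by
      obtain ⟨n, v, hv, rfl⟩ := Set.mem_iUnion.1 hz'
      have h2 := hφ2 (n + 1) v (Nat.le_add_left 1 n) hv
      have h3 : |(φ ((n + 1 : ℕ) : ℝ) v).1| ≤ M := hz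
      exact absurd (lt_of_lt_of_le h2 (le_abs_self _)) (not_lt.2 h3)))
    l hl
  obtain ⟨M2, hA2, hB2⟩ := Bip_supp hA.2 hB.2
  obtain ⟨ψ, hψ1, hψ2⟩ := hDsp M2
  have hs : CFlow (ψ.toHomeomorph 1) := ⟨ψ, hψ1, rfl⟩
  have hcomm : Commute B (ψ.toHomeomorph 1 * A⁻¹ * (ψ.toHomeomorph 1)⁻¹) := by
    refine SuppIn.commute hB2 (hA2.inv.conj (ψ.toHomeomorph 1)) (Set.disjoint_left.2 ?_)
    rintro _ hz ⟨w, hw, rfl⟩
    have h2 := hψ2 1 w le_rfl hw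
    rw [Nat.cast_one] at h2
    have h3 : |(ψ 1 w).1| ≤ M2 := hz
    exact absurd (lt_of_lt_of_le h2 (le_abs_self _)) (not_lt.2 h3)
  refine ⟨[A * ψ.toHomeomorph 1 * A⁻¹, (ψ.toHomeomorph 1)⁻¹, B * ψ.toHomeomorph 1 * B⁻¹,
    (B * A) * (ψ.toHomeomorph 1)⁻¹ * (B * A)⁻¹, Φ * φ.toHomeomorph 1 * Φ⁻¹,
    (φ.toHomeomorph 1)⁻¹], rfl, ?_, ?_⟩
  · intro s hs'
    simp only [List.mem_cons, List.not_mem_nil, or_false] at hs'
    rcases hs' with rfl | rfl | rfl | rfl | rfl | rfl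
    · exact (hCFc _ _).1 hs
    · exact (hCFc 1 _).2.1 hs
    · exact (hCFc _ _).1 hs
    · exact (hCFc _ _).1 ((hCFc 1 _).2.1 hs)
    · exact (hCFc _ _).1 ht
    · exact (hCFc 1 _).2.1 ht
  · rw [← hlp, hprod, Bip_four A B _ hcomm, Bip_two Φ]
    simp only [List.prod_cons, List.prod_nil, mul_one, mul_assoc]

end Pool.Agent.MPe54d61.TC
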