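import Pool.Agent.Lib.MP_e54d61_gt.TC.SpecA

/-! # MP_e54d61_gt, torus case: BipG -/

set_option autoImplicit false

namespace Pool.Agent.MPe54d61.TC

private theorem BipG_comm {N : Type} [Group N] {a b x y : N} (hb : x * b = b * x)
    (ha : a⁻¹ * y⁻¹ = y⁻¹ * a⁻¹) (hc : cm x y * (a⁻¹ * b⁻¹) = (a⁻¹ * b⁻¹) * cm x y) :
    cm (a * x) (b * y) = cm a b * cm x y := by
  have e1 : cm (a * x) (b * y) = a * (x * b) * y * x⁻¹ * (a⁻¹ * y⁻¹) * b⁻¹ := by
    unfold cm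
    group
  have e2 : a * (b * x) * y * x⁻¹ * (y⁻¹ * a⁻¹) * b⁻¹ = a * b * (cm x y * (a⁻¹ * b⁻¹)) := by
    unfold cm
    group
  rw [e1, hb, ha, e2, hc]
  unfold cm
  group

theorem tBipG : S_BipG := by
  intro N _ t S S' hSS ht hc l
  induction l with
  | nil =>
    intro _
    exact ⟨1, S'.one_mem, 1, S'.one_mem, 1, S'.one_mem, by simp [cm]⟩
  | cons p l ih =>
    intro hl
    obtain ⟨A', hA', B', hB', Φ', hΦ', e⟩ := ih fun q hq => hl q (List.mem_cons_of_mem _ hq)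
    obtain ⟨hp1, hp2⟩ := hl p List.mem_cons_self
    have hw : (l.map fun p => cm p.1 p.2).prod ∈ S := by
      refine Subgroup.list_prod_mem _ fun x hx => ?_
      obtain ⟨q, hq, rfl⟩ := List.mem_map.1 hx
      obtain ⟨h1, h2⟩ := hl q (List.mem_cons_of_mem _ hq)
      exact S.mul_mem (S.mul_mem (S.mul_mem h1 h2) (S.inv_mem h1)) (S.inv_mem h2)
    rw [List.map_cons, List.prod_cons]
    generalize (l.map fun p => cm p.1 p.2).prod = w at hw e
    have hcm : cm A' B' ∈ S' :=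
      S'.mul_mem (S'.mul_mem (S'.mul_mem hA' hB') (S'.inv_mem hA')) (S'.inv_mem hB')
    refine ⟨p.1 * (t * A' * t⁻¹), S'.mul_mem (hSS hp1) (ht _ hA'), p.2 * (t * B' * t⁻¹),
      S'.mul_mem (hSS hp2) (ht _ hB'), w * (t * Φ' * t⁻¹), S'.mul_mem (hSS hw) (ht _ hΦ'), ?_⟩
    have h0 : cm (t * A' * t⁻¹) (t * B' * t⁻¹) = t * cm A' B' * t⁻¹ := by
      unfold cm
      group
    have h1 : cm (w * (t * Φ' * t⁻¹)) t = w * (t * (cm A' B')⁻¹ * t⁻¹) := by
      have h2 : cm Φ' t = (cm A' B')⁻¹ * w := by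
        rw [e]
        group
      have h3 : cm (w * (t * Φ' * t⁻¹)) t = w * (t * (cm Φ' t * w⁻¹) * t⁻¹) := by
        unfold cm
        group
      rw [h3, h2]
      group
    have h4 : w * (t * (cm A' B')⁻¹ * t⁻¹) = t * (cm A' B')⁻¹ * t⁻¹ * w :=
      (hc w hw _ (S'.inv_mem hcm)).eq
    have h5 : cm (p.1 * (t * A' * t⁻¹)) (p.2 * (t * B' * t⁻¹)) =
        cm p.1 p.2 * (t * cm A' B' * t⁻¹) := by
      rw [← h0]
      refine BipG_comm (hc _ hp2 _ hA').eq.symm ?_ ?_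
      · exact ((hc _ (S.inv_mem hp1) _ hB').inv_right).eq
      · rw [h0]
        exact (hc _ (S.mul_mem (S.inv_mem hp1) (S.inv_mem hp2)) _ hcm).eq.symm
    rw [h5, h1, h4]
    group

end Pool.Agent.MPe54d61.TC
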