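import Pool.Agent.Lib.MP_e54d61_gt.TC.SpecA

/-!
# MP_e54d61_gt, torus case, part A: the swindle in the annulus (`S_SwY`)
-/

set_option autoImplicit false

namespace Pool.Agent.MPe54d61.TC

open Topology MatrixGroups

/-- the swindle transported by an open embedding of the plane -/
theorem SwY_gen (hTrEx : S_TrEx) (hTrFl : S_TrFl) (hTrPu : S_TrPu) (hSwn : S_Swn)
    {X : Type} [iX : TopologicalSpace X] [iT : T2Space X] {j : P → X} (hj : IsOpenEmbedding j)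
    (d : X ≃ₜ X) (hd : SuppIn (j '' B0) d) :
    ∃ (g : X ≃ₜ X) (Φ : Flow ℝ X), SuppIn (j '' {z | ‖z‖ ≤ 8}) g ∧
      (∀ (s : ℝ) (x : X), x ∉ j '' {z | ‖z‖ ≤ 8} → Φ s x = x) ∧ d = cm g (Φ.toHomeomorph 1) := by
  obtain ⟨d', hd', hTd⟩ := hTrPu P X inferInstance iX j hj B0 d hd
  obtain ⟨g', φ, hg', hφ, he⟩ := hSwn d' hd'
  have hK : IsCompact {z : P | ‖z‖ ≤ 8} := by
    have h1 : {z : P | ‖z‖ ≤ 8} = Metric.closedBall (0 : P) 8 := by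
      ext z
      simp
    rw [h1]
    exact isCompact_closedBall 0 8
  obtain ⟨g, hg⟩ := hTrEx P X inferInstance iX iT j hj {z : P | ‖z‖ ≤ 8} hK g' hg'
  obtain ⟨Φ, hΦ1, hΦ2⟩ := hTrFl P X inferInstance iX iT j hj {z : P | ‖z‖ ≤ 8} hK φ
    (fun s z hz => hφ s z (le_of_lt (not_le.1 hz)))
  refine ⟨g, Φ, hg.suppIn hg', hΦ2, ?_⟩
  have hT : Tr j (φ.toHomeomorph 1) (Φ.toHomeomorph 1) := by
    refine ⟨fun u => hΦ1 1 u, fun x hx => hΦ2 1 x fun h => hx ?_⟩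
    exact Set.image_subset_range j _ h
  have hC : Tr j (cm g' (φ.toHomeomorph 1)) (cm g (Φ.toHomeomorph 1)) :=
    ((hg.mul hT).mul hg.inv).mul hT.inv
  rw [← he] at hC
  exact hTd.unique hC

theorem tSwY (hTrEx : S_TrEx) (hTrFl : S_TrFl) (hTrPu : S_TrPu) (hSwn : S_Swn) (hjE : S_jE) :
    S_SwY := by
  intro d hd
  rw [← hjE.2] at hd
  obtain ⟨g, Φ, hg, hΦ, he⟩ := SwY_gen hTrEx hTrFl hTrPu hSwn hjE.1 d hd
  have hb : ∀ z : Y, 9 ≤ |z.1| → z ∉ jE '' {z : P | ‖z‖ ≤ 8} := by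
    rintro z hz ⟨u, hu, rfl⟩
    have h1 : |u.1| ≤ ‖u‖ := norm_fst_le u
    have h2 : ‖u‖ ≤ 8 := hu
    have h3 : (jE u).1 = u.1 := rfl
    rw [h3] at hz
    linarith
  refine ⟨g, Φ.toHomeomorph 1, ⟨9, fun z hz => hg z (hb z hz)⟩, ⟨Φ, ⟨9, fun s z hz => hΦ s z (hb z hz)⟩, rfl⟩, he⟩

end Pool.Agent.MPe54d61.TC
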