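import Pool.Agent.Lib.MP_e54d61_gt.TC.SpecA

/-!
# MP_e54d61_gt, torus case: `S_jq`, the open embedding of the annulus into the torus
-/

set_option autoImplicit false

namespace Pool.Agent.MPe54d61.TC

open Topology MatrixGroups

/-- a continuous strictly increasing function of the line is an open map -/
theorem jq_isOpenMap (q : ℝ → ℝ) (hc : Continuous q) (hm : StrictMono q) : IsOpenMap q := by
  rw [isOpenMap_iff_nhds_le]
  intro x s hs
  rw [Filter.mem_map] at hs
  obtain ⟨ε, hε, hb⟩ := Metric.mem_nhds_iff.1 hs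
  have h1 : q (x - ε / 2) < q x := hm (by linarith)
  have h2 : q x < q (x + ε / 2) := hm (by linarith)
  refine Filter.mem_of_superset (Icc_mem_nhds h1 h2) ?_
  intro y hy
  have h3 := intermediate_value_Icc (show x - ε / 2 ≤ x + ε / 2 by linarith) hc.continuousOn
  obtain ⟨z, hz, rfl⟩ := h3 hy
  refine hb ?_
  rw [Metric.mem_ball, Real.dist_eq, abs_lt]
  constructor
  · linarith [hz.1]
  · linarith [hz.2]

/-- the first coordinate of `jq` is an open embedding -/
theorem jq_fst (α : ℝ) (q : ℝ → ℝ) (hc : Continuous q) (hm : StrictMono q)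
    (hq : ∀ x, α < q x ∧ q x < α + 1) : IsOpenEmbedding (fun x : ℝ => ((q x : ℝ) : Ci)) := by
  have : Fact ((0 : ℝ) < 1) := ⟨one_pos⟩
  refine IsOpenEmbedding.of_continuous_injective_isOpenMap ?_ ?_ ?_
  · exact (AddCircle.continuous_mk' (1 : ℝ)).comp hc
  · intro x x' h
    have h1 : ((q x : ℝ) : Ci) = ((q x' : ℝ) : Ci) := h
    rw [AddCircle.coe_eq_coe_iff_of_mem_Ico (a := α) ⟨(hq x).1.le, (hq x).2⟩
      ⟨(hq x').1.le, (hq x').2⟩] at h1
    exact hm.injective h1
  · have h1 : IsOpenMap (fun x : ℝ => (x : Ci)) := QuotientAddGroup.isOpenMap_coe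
    exact h1.comp (jq_isOpenMap q hc hm)

theorem tjq : S_jq := by
  intro α q hc hm hq
  exact (jq_fst α q hc hm hq).prodMap IsOpenEmbedding.id

end Pool.Agent.MPe54d61.TC
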