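import Pool.Agent.Lib.MP_e54d61_gt.TC.SpecA
import Pool.Agent.Lib.MP_e54d61_gt.TC.jq
import Pool.Agent.Lib.MP_e54d61_gt.TC.SwY

/-!
# MP_e54d61_gt, torus case, part A: maps supported in a box are products of two flows (`S_BxF`)
-/

set_option autoImplicit false

namespace Pool.Agent.MPe54d61.TC

open Topology MatrixGroups

/-- the homeomorphism of the line onto `(-1/2, 1/2)` -/
private noncomputable def bxf_th (y : ℝ) : ℝ := y / (2 * (1 + |y|))

private theorem bxf_th_cont : Continuous bxf_th := by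
  unfold bxf_th
  refine continuous_id.div (by fun_prop) fun y => ?_
  have := abs_nonneg y
  positivity

private theorem bxf_th_abs (y : ℝ) : |bxf_th y| = |y| / (2 * (1 + |y|)) := by
  unfold bxf_th
  rw [abs_div, abs_of_pos (show (0 : ℝ) < 2 * (1 + |y|) by positivity)]

private theorem bxf_th_bound (y : ℝ) : -(1 / 2) < bxf_th y ∧ bxf_th y < -(1 / 2) + 1 := by
  have h1 : |bxf_th y| < 1 / 2 := by
    rw [bxf_th_abs, div_lt_iff₀ (by positivity)]
    linarith
  have h2 := abs_lt.1 h1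
  constructor
  · linarith [h2.1]
  · linarith [h2.2]

private theorem bxf_th_mono : StrictMono bxf_th := by
  intro x y hxy
  unfold bxf_th
  rw [div_lt_div_iff₀ (by positivity) (by positivity)]
  rcases le_total 0 x with hx | hx
  · have hy : 0 ≤ y := hx.trans hxy.le
    rw [abs_of_nonneg hx, abs_of_nonneg hy]
    nlinarith
  · rcases le_total 0 y with hy | hy
    · rw [abs_of_nonpos hx, abs_of_nonneg hy]
      rcases eq_or_lt_of_le hx with h | h
      · subst h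
        nlinarith
      · nlinarith [mul_nonneg hy (neg_nonneg.2 hx)]
    · rw [abs_of_nonpos hx, abs_of_nonpos hy]
      nlinarith

private theorem bxf_th_inv {u : ℝ} (hu : |u| ≤ 3 / 8) :
    ∃ y : ℝ, |y| ≤ 3 ∧ bxf_th y = u := by
  have h1 : 0 < 1 - 2 * |u| := by linarith
  refine ⟨2 * u / (1 - 2 * |u|), ?_, ?_⟩
  · rw [abs_div, abs_of_pos h1, div_le_iff₀ h1, abs_mul, abs_of_pos (show (0 : ℝ) < 2 by norm_num)]
    linarith
  · unfold bxf_th
    rw [abs_div, abs_of_pos h1, abs_mul, abs_of_pos (show (0 : ℝ) < 2 by norm_num)]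
    have h2 : 1 + 2 * |u| / (1 - 2 * |u|) = 1 / (1 - 2 * |u|) := by
      field_simp
      ring
    rw [h2]
    field_simp

/-- the embedding of the plane into the torus with `B0` going to the box -/
private noncomputable def bxf_j (a b : Ci) (z : P) : T :=
  (a + ((bxf_th (3 * (z.1 - 3)) : ℝ) : Ci), b + ((bxf_th z.2 : ℝ) : Ci))

private theorem bxf_j_emb (a b : Ci) : IsOpenEmbedding (bxf_j a b) := by
  have h1 : IsOpenEmbedding (fun x : ℝ => ((bxf_th (3 * (x - 3)) : ℝ) : Ci)) := by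
    refine jq_fst (-(1 / 2)) (fun x => bxf_th (3 * (x - 3))) ?_ ?_ fun x => bxf_th_bound _
    · exact bxf_th_cont.comp (by fun_prop)
    · intro x y hxy
      exact bxf_th_mono (by linarith)
  have h2 : IsOpenEmbedding (fun x : ℝ => ((bxf_th x : ℝ) : Ci)) :=
    jq_fst (-(1 / 2)) bxf_th bxf_th_cont bxf_th_mono bxf_th_bound
  have h3 := (Homeomorph.addLeft a).isOpenEmbedding.comp h1
  have h4 := (Homeomorph.addLeft b).isOpenEmbedding.comp h2
  exact h3.prodMap h4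

private theorem bxf_lift {c : Ci} (hc : ‖c‖ ≤ 3 / 8) : ∃ u : ℝ, (u : Ci) = c ∧ |u| ≤ 3 / 8 := by
  obtain ⟨x, rfl⟩ := QuotientAddGroup.mk_surjective c
  have h1 : ‖((x : ℝ) : Ci)‖ = |x - round x| := by
    rw [AddCircle.norm_eq]
    simp
  refine ⟨x - round x, ?_, ?_⟩
  · have h2 : ((round x : ℝ) : Ci) = 0 := by
      rw [AddCircle.coe_eq_zero_iff]
      exact ⟨round x, by simp⟩
    rw [AddCircle.coe_sub, h2, sub_zero]
  · have h3 : ‖((x : ℝ) : Ci)‖ ≤ 3 / 8 := hc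
    rwa [h1] at h3

private theorem bxf_sub (a b : Ci) : Bx a b ⊆ bxf_j a b '' B0 := by
  rintro ⟨z1, z2⟩ ⟨h1, h2⟩
  obtain ⟨u, hu, hu'⟩ := bxf_lift h1
  obtain ⟨v, hv, hv'⟩ := bxf_lift h2
  obtain ⟨x, hx, hx'⟩ := bxf_th_inv hu'
  obtain ⟨y, hy, hy'⟩ := bxf_th_inv hv'
  refine ⟨(3 + x / 3, y), ⟨?_, hy⟩, ?_⟩
  · show |3 + x / 3 - 3| ≤ 1
    rw [show 3 + x / 3 - 3 = x / 3 by ring, abs_div, abs_of_pos (show (0 : ℝ) < 3 by norm_num)]
    linarith
  · unfold bxf_j
    show ((a + ((bxf_th (3 * ((3 + x / 3) - 3)) : ℝ) : Ci), b + ((bxf_th y : ℝ) : Ci)) : T) = (z1, z2)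
    rw [show 3 * ((3 + x / 3) - 3) = x by ring, hx', hy', hu, hv]
    show ((a + (z1 - a), b + (z2 - b)) : T) = (z1, z2)
    rw [add_sub_cancel, add_sub_cancel]

theorem tBxF (hTrEx : S_TrEx) (hTrFl : S_TrFl) (hTrPu : S_TrPu) (hSwn : S_Swn) : S_BxF := by
  intro a b s hs
  obtain ⟨g, Φ, -, -, he⟩ := SwY_gen hTrEx hTrFl hTrPu hSwn (bxf_j_emb a b) s
    (hs.mono (bxf_sub a b))
  have hT : Φ.toHomeomorph 1 ∈ timeOneMaps T := ⟨Φ, rfl⟩
  rw [he]
  exact fl_mul (fl_tom (tom_conj hT g)) (fl_tom (tom_inv hT))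

end Pool.Agent.MPe54d61.TC
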