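import Pool.Agent.Lib.MP_e54d61_gt.TC.SpecA

/-!
# MP_e54d61_gt, torus case: CFc
-/

set_option autoImplicit false

namespace Pool.Agent.MPe54d61.TC

open Topology MatrixGroups

private theorem CFc_bd (k : Y ≃ₜ Y) (M : ℝ) :
    ∃ M' : ℝ, ∀ z : Y, M' ≤ |z.1| → M ≤ |(k.symm z).1| := by
  have hK : IsCompact ((Set.Icc (-M) M) ×ˢ (Set.univ : Set Ci)) := isCompact_Icc.prod isCompact_univ
  have hc : ContinuousOn (fun w : Y => |(k w).1|) ((Set.Icc (-M) M) ×ˢ (Set.univ : Set Ci)) :=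
    (continuous_abs.comp (continuous_fst.comp k.continuous)).continuousOn
  obtain ⟨C, hC⟩ := hK.bddAbove_image hc
  refine ⟨C + 1, fun z hz => ?_⟩
  by_contra hn
  rw [not_le] at hn
  have h1 : k.symm z ∈ (Set.Icc (-M) M) ×ˢ (Set.univ : Set Ci) := ⟨abs_le.1 hn.le, trivial⟩
  have h2 : |(k (k.symm z)).1| ≤ C := hC ⟨_, h1, rfl⟩
  rw [k.apply_symm_apply] at h2
  linarith

theorem tCFc : S_CFc := by
  intro k t
  refine ⟨?_, ?_, ?_⟩
  · rintro ⟨φ, ⟨M, hM⟩, rfl⟩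
    obtain ⟨M', hM'⟩ := CFc_bd k M
    refine ⟨cjFlow k φ, ⟨M', fun s z hz => ?_⟩, ?_⟩
    · show k (φ s (k.symm z)) = z
      rw [hM s _ (hM' z hz), k.apply_symm_apply]
    · ext x : 1
      rfl
  · rintro ⟨φ, ⟨M, hM⟩, rfl⟩
    refine ⟨rvFlow φ, ⟨M, fun s z hz => hM (-s) z hz⟩, ?_⟩
    ext x : 1
    rfl
  · rintro ⟨M, hM⟩
    obtain ⟨M', hM'⟩ := CFc_bd k M
    refine ⟨M', fun z hz => ?_⟩
    show k (t (k.symm z)) = z
    rw [hM _ (hM' z hz), k.apply_symm_apply]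

end Pool.Agent.MPe54d61.TC
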