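import Pool.Agent.Lib.MP_e54d61_gt.TC.SpecE

/-!
# MP_e54d61_gt, torus case, part E: chains for bicorns of the ends of a chain
-/

set_option autoImplicit false

namespace Pool.Agent.MPe54d61.TC

open SimpleGraph Filter Topology

namespace ChBAux

variable {V M : Type} [AddCommGroup M] {Γ : SimpleGraph V} {κ : V → V → M}

/-- prolong a chain by one step -/
theorem lk_snoc {n : ℕ} {A B C : Set (Sym2 V)} (h : Lk Γ κ n A B) (hR : RR Γ κ B C)
    (hC : EC Γ κ C) : Lk Γ κ (n + 1) A C := by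
  obtain ⟨c, h0, hn, hE, hS⟩ := h
  refine ⟨fun i => if i ≤ n then c i else C, ?_, ?_, ?_, ?_⟩
  · simpa using h0
  · simp
  · intro i hi
    by_cases h1 : i ≤ n
    · simp only [h1, if_true]
      exact hE i h1
    · simp only [h1, if_false]
      exact hC
  · intro i hi
    have h1 : i ≤ n := by omega
    by_cases h2 : i + 1 ≤ n
    · simp only [h1, h2, if_true]
      exact hS i (by omega)
    · have h3 : i = n := by omega
      subst h3
      simp only [h1, h2, if_true, if_false]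
      rw [hn]
      exact hR

/-- the part of a chain before the last element -/
theorem lk_init {n : ℕ} {A B : Set (Sym2 V)} (h : Lk Γ κ (n + 1) A B) :
    ∃ D, Lk Γ κ n A D ∧ EC Γ κ D ∧ RR Γ κ D B := by
  obtain ⟨c, h0, hn, hE, hS⟩ := h
  refine ⟨c n, ⟨c, h0, rfl, fun i hi => hE i (by omega), fun i hi => hS i (by omega)⟩,
    hE n (by omega), ?_⟩
  have h := hS n (by omega)
  rwa [hn] at h

theorem lk_left {n : ℕ} {A B : Set (Sym2 V)} (h : Lk Γ κ n A B) : EC Γ κ A := by
  obtain ⟨c, h0, hn, hE, hS⟩ := h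
  rw [← h0]
  exact hE 0 (Nat.zero_le n)

theorem lk_right {n : ℕ} {A B : Set (Sym2 V)} (h : Lk Γ κ n A B) : EC Γ κ B := by
  obtain ⟨c, h0, hn, hE, hS⟩ := h
  rw [← hn]
  exact hE n le_rfl

end ChBAux

open ChBAux in
theorem tChB (hEcSub : S_EcSub) (hThin : S_Thin) (hNear : S_Near) (hRRs : S_RRs) : S_ChB := by
  intro V M iM Γ κ hκ n
  induction n with
  | zero =>
    intro A B C hL hC hB
    have hA := lk_left hL
    obtain ⟨c, h0, hn, hE, hS⟩ := hL
    have hAB : A = B := h0.symm.trans hn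
    subst hAB
    obtain ⟨x, y, p, q, _, hp, hq, hpq⟩ := hB
    have hsub : C ⊆ A := by
      rw [← hpq, eds_append]
      exact Set.union_subset hp hq
    have hCA : C = A := hEcSub V M iM Γ κ hκ C A hC hA hsub
    subst hCA
    exact ⟨0, Nat.zero_le _, fun _ => C, rfl, rfl, fun _ _ => hC, fun i hi => absurd hi (by omega)⟩
  | succ n ih =>
    intro A B C hL hC hB
    have hA := lk_left hL
    have hBe := lk_right hL
    obtain ⟨D, hLD, hD, hDB⟩ := lk_init hL
    obtain ⟨C3, Cs, C1, hC3, hCs, hC1, r1, r2, r3, h⟩ :=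
      hThin V M iM Γ κ hκ A B D C hA hBe hD hB
    have hsym := (hRRs V M iM Γ κ).1
    rcases h with h | h
    · obtain ⟨m, hm, hLm⟩ := ih A D C1 hLD hC1 h
      exact ⟨m + 1 + 1 + 1, by omega,
        lk_snoc (lk_snoc (lk_snoc hLm (hsym _ _ r3) hCs) (hsym _ _ r2) hC3) (hsym _ _ r1) hC⟩
    · have hR : RR Γ κ D C1 := hNear V M iM Γ κ hκ D B C1 hD hBe hDB h hC1
      exact ⟨n + 1 + 1 + 1 + 1, by omega,
        lk_snoc (lk_snoc (lk_snoc (lk_snoc hLD hR hC1) (hsym _ _ r3) hCs) (hsym _ _ r2) hC3)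
          (hsym _ _ r1) hC⟩

end Pool.Agent.MPe54d61.TC
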