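import Pool.Agent.Lib.MP_e54d61_gt.TC.SpecS

/-!
# MP_e54d61_gt, torus case: the chain of a closed walk is a cycle
-/

set_option autoImplicit false

namespace Pool.Agent.MPe54d61.TC

open SimpleGraph

/-- the boundary at one vertex -/
private theorem cyc_bd (h3 : S_ChSum) (N : ℕ) (hN0 : NeZero N) (hN : 3 ≤ N) (x : VN N)
    (w : (GN N).Walk x x) (q : VN N) : ∑ k, (ch w k q - ch w k (q - ed N k)) = 0 := by
  have h := h3 N hN0 hN ℤ inferInstance
    (fun a b => (if a = q then 1 else 0) - (if b = q then 1 else 0)) (by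
      intro u v
      simp only
      ring) x x w
  have h0 : cls (fun a b : VN N => ((if a = q then 1 else 0) - (if b = q then 1 else 0) : ℤ)) w = 0 := by
    have h1 := cls_pot (fun a : VN N => (-(if a = q then 1 else 0) : ℤ)) w
    rw [sub_self] at h1
    have h2 : (fun a b : VN N => ((if a = q then 1 else 0) - (if b = q then 1 else 0) : ℤ)) =
        fun a b => (-(if b = q then 1 else 0) : ℤ) - (-(if a = q then 1 else 0) : ℤ) := by
      funext a b
      ring
    rw [h2]
    exact h1
  rw [h0] at h
  rw [h]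
  refine Finset.sum_congr rfl fun k _ => ?_
  have e1 : ∀ p : VN N, ch w k p • (((if p = q then 1 else 0) - (if p + ed N k = q then 1 else 0)) : ℤ) =
      (if p = q then ch w k p else 0) - (if p = q - ed N k then ch w k p else 0) := by
    intro p
    rw [smul_eq_mul, mul_sub]
    congr 1
    · split_ifs <;> simp
    · have : p + ed N k = q ↔ p = q - ed N k := eq_sub_iff_add_eq.symm
      by_cases hp : p = q - ed N k
      · rw [if_pos (this.2 hp), if_pos hp, mul_one]
      · rw [if_neg (fun h' => hp (this.1 h')), if_neg hp, mul_zero]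
  rw [Finset.sum_congr rfl fun p _ => e1 p, Finset.sum_sub_distrib]
  simp

theorem tChCyc (h1 : S_Grid) (h2 : S_Rep) (h3 : S_ChSum) : S_ChCyc := by
  intro N hN0 hN x w
  refine ⟨fun q => cyc_bd h3 N hN0 hN x w q, ?_⟩
  have hA : Anti (kN N) := (h1 N hN).1
  have h := h3 N hN0 hN (ℤ × ℤ) inferInstance
    (fun a b => (N : ℤ) • kN N a b + (rep b - rep a)) (by
      intro u v
      simp only
      rw [hA u v, smul_neg]
      abel) x x w
  have h4 : cls (fun a b : VN N => (N : ℤ) • kN N a b + (rep b - rep a)) w = (N : ℤ) • cls (kN N) w := by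
    rw [cls_add (fun a b => (N : ℤ) • kN N a b) (fun a b => rep b - rep a) w, cls_pot rep w, sub_self,
      add_zero]
    exact cls_map (DistribSMul.toAddMonoidHom (ℤ × ℤ) (N : ℤ)) (kN N) w
  rw [h4] at h
  rw [h]
  refine Finset.sum_congr rfl fun k _ => Finset.sum_congr rfl fun p _ => ?_
  have h5 := (h2 N hN).2.2.2 p k
  rw [← add_sub_assoc, ← h5]

end Pool.Agent.MPe54d61.TC
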