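import Pool.Agent.Lib.MP_e54d61_gt.TC.SpecS

/-!
# MP_e54d61_gt, torus case: the class of a walk as a sum over its chain
-/

set_option autoImplicit false

namespace Pool.Agent.MPe54d61.TC

open SimpleGraph

private theorem chSum_single {N : ℕ} [NeZero N] {M : Type} [AddCommGroup M]
    (r : VN N → VN N → M) (k0 : Fin 3) (u : VN N) :
    ∑ k : Fin 3, ∑ p : VN N, (if k = k0 ∧ p = u then (1 : ℤ) else 0) • r p (p + ed N k) =
      r u (u + ed N k0) := by
  rw [Finset.sum_eq_single k0, Finset.sum_eq_single u]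
  · simp
  · intro p _ hp
    simp [hp]
  · intro h
    exact absurd (Finset.mem_univ _) h
  · intro k _ hk
    exact Finset.sum_eq_zero fun p _ => by simp [hk]
  · intro h
    exact absurd (Finset.mem_univ _) h

private theorem chSum_step (h1 : S_Ed) (N : ℕ) [NeZero N] (hN : 3 ≤ N) (M : Type) [AddCommGroup M]
    (r : VN N → VN N → M) (hr : Anti r) (u v : VN N) (huv : (GN N).Adj u v) :
    r u v = ∑ k : Fin 3, ∑ p : VN N, chi p (p + ed N k) u v • r p (p + ed N k) := by
  obtain ⟨e1, e2, _, e4⟩ := h1 N hN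
  obtain ⟨k0, h | h⟩ := e4 u v huv
  · subst h
    have hchi : ∀ (k : Fin 3) (p : VN N), chi p (p + ed N k) u (u + ed N k0) =
        if k = k0 ∧ p = u then (1 : ℤ) else 0 := by
      intro k p
      have h2 : ¬ (u = p + ed N k ∧ u + ed N k0 = p) := by
        rintro ⟨ha, hb⟩
        apply e2 k k0
        have h3 : p + (ed N k + ed N k0) = p := by rw [← add_assoc, ← ha, hb]
        simpa using h3
      have h3 : (u = p ∧ u + ed N k0 = p + ed N k) ↔ (k = k0 ∧ p = u) := by
        constructor
        · rintro ⟨rfl, hb⟩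
          exact ⟨(e1 k0 k (add_left_cancel hb)).symm, rfl⟩
        · rintro ⟨rfl, rfl⟩
          exact ⟨rfl, rfl⟩
      simp only [chi, if_neg h2, h3, sub_zero]
    simp only [hchi]
    exact (chSum_single r k0 u).symm
  · subst h
    have hchi : ∀ (k : Fin 3) (p : VN N), chi p (p + ed N k) (v + ed N k0) v =
        -(if k = k0 ∧ p = v then (1 : ℤ) else 0) := by
      intro k p
      have h2 : ¬ (v + ed N k0 = p ∧ v = p + ed N k) := by
        rintro ⟨ha, hb⟩
        apply e2 k k0
        have h3 : p + (ed N k + ed N k0) = p := by rw [← add_assoc, ← hb, ha]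
        simpa using h3
      have h3 : (v + ed N k0 = p + ed N k ∧ v = p) ↔ (k = k0 ∧ p = v) := by
        constructor
        · rintro ⟨ha, rfl⟩
          exact ⟨(e1 k0 k (add_left_cancel ha)).symm, rfl⟩
        · rintro ⟨rfl, rfl⟩
          exact ⟨rfl, rfl⟩
      simp only [chi, if_neg h2, h3, zero_sub]
    simp only [hchi, neg_smul, Finset.sum_neg_distrib]
    rw [chSum_single r k0 v]
    exact hr v (v + ed N k0)

theorem tChSum (h1 : S_Ed) : S_ChSum := by
  intro N _ hN M _ r hr u v w
  induction w with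
  | nil => simp [ch]
  | cons h p ih =>
    simp only [ch, cc_cons, add_smul, Finset.sum_add_distrib] at ih ⊢
    rw [cls_cons, ih, ← chSum_step h1 N hN M r hr _ _ h]

end Pool.Agent.MPe54d61.TC
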