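import Pool.Agent.Lib.MP_e54d61_gt.TC.SpecB

/-!
# MP_e54d61_gt, torus case, part B: chains of bicorns
-/

set_option autoImplicit false

namespace Pool.Agent.MPe54d61.TC

open SimpleGraph

namespace ChainAux

variable {V M : Type} [AddCommGroup M] {Γ : SimpleGraph V} {κ : V → V → M}

/-- a chain from `C` to `B` -/
def Ch (Γ : SimpleGraph V) (κ : V → V → M) (A B C : Set (Sym2 V)) : Prop :=
  ∃ (n : ℕ) (c : ℕ → Set (Sym2 V)), c 0 = C ∧ c n = B ∧ (∀ i ≤ n, EC Γ κ (c i) ∧ Bic Γ κ A B (c i)) ∧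
    ∀ i < n, RR Γ κ (c i) (c (i + 1))

theorem ch_refl {A B : Set (Sym2 V)} (hB : EC Γ κ B) (hb : Bic Γ κ A B B) : Ch Γ κ A B B :=
  ⟨0, fun _ => B, rfl, rfl, fun _ _ => ⟨hB, hb⟩, fun i hi => absurd hi (Nat.not_lt_zero i)⟩

theorem ch_cons {A B C C' : Set (Sym2 V)} (hC : EC Γ κ C) (hb : Bic Γ κ A B C) (hr : RR Γ κ C C')
    (h : Ch Γ κ A B C') : Ch Γ κ A B C := by
  obtain ⟨n, c, h0, hn, h1, h2⟩ := h
  refine ⟨n + 1, fun i => match i with | 0 => C | j + 1 => c j, rfl, hn, ?_, ?_⟩
  · intro i hi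
    cases i with
    | zero => exact ⟨hC, hb⟩
    | succ j => exact h1 j (by omega)
  · intro i hi
    cases i with
    | zero =>
      change RR Γ κ C (c 0)
      rw [h0]
      exact hr
    | succ j => exact h2 j (by omega)

theorem bic_left {A B : Set (Sym2 V)} (hA : EC Γ κ A) : Bic Γ κ A B A := by
  obtain ⟨x, a, ha, haA⟩ := hA
  refine ⟨x, x, a, Walk.nil, by rw [Walk.append_nil]; exact ha, haA.le, by simp, ?_⟩
  rw [Walk.append_nil]
  exact haA

theorem bic_right {A B : Set (Sym2 V)} (hB : EC Γ κ B) : Bic Γ κ A B B := by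
  obtain ⟨x, b, hb, hbB⟩ := hB
  exact ⟨x, x, Walk.nil, b, hb, by simp, hbB.le, hbB⟩

theorem ec_closed {x y : V} {p : Γ.Walk x y} {q : Γ.Walk y x} (h : Ess κ (p.append q)) :
    EC Γ κ (eds (p.append q)) := ⟨x, p.append q, h, rfl⟩

theorem ess_not_nil {x : V} {c : Γ.Walk x x} (h : Ess κ c) : ¬ c.Nil := by
  intro hn
  cases c with
  | nil => exact h.2 rfl
  | cons h1 h2 => exact Walk.not_nil_cons hn

end ChainAux

open ChainAux in
/-- **Chain.** -/
theorem tChain (hEssAt : S_EssAt) (hEcSub : S_EcSub) (hStep : S_Step) : S_Chain := by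
  intro V M _ Γ κ hκ A B hA hB
  by_cases hAB : ∃ x, x ∈ vts A ∧ x ∈ vts B
  · obtain ⟨x, hxA, hxB⟩ := hAB
    have key : ∀ n : ℕ, ∀ (x y : V) (p : Γ.Walk x y) (q : Γ.Walk y x), Ess κ (p.append q) →
        eds p ⊆ A → eds q ⊆ B → p.length ≤ n → x ∈ vts B → Ch Γ κ A B (eds (p.append q)) := by
      intro n
      induction n with
      | zero =>
        intro x y p q hess hp hq hlen hx
        have hpn : p.length = 0 := by omega
        cases p with
        | cons h1 h2 => simp at hpn
        | nil =>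
          have h1 : eds (Walk.nil.append q : Γ.Walk x x) = B := by
            apply hEcSub V M _ Γ κ hκ _ _ (ec_closed hess) hB
            rw [Walk.nil_append]
            exact hq
          rw [h1]
          exact ch_refl hB (bic_right hB)
      | succ n ih =>
        intro x y p q hess hp hq hlen hx
        by_cases hl : p.length ≤ n
        · exact ih x y p q hess hp hq hl hx
        · have hl' : p.length = n + 1 := by omega
          rcases hStep V M _ Γ κ hκ A B hA hB n x y p q hess hp hq hl' hx with h | h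
          · exact ch_cons (ec_closed hess) ⟨x, y, p, q, hess, hp, hq, rfl⟩ h
              (ch_refl hB (bic_right hB))
          · obtain ⟨x', y', p', q', h1, h2, h3, h4, h5, h6⟩ := h
            exact ch_cons (ec_closed hess) ⟨x, y, p, q, hess, hp, hq, rfl⟩ h6
              (ih x' y' p' q' h1 h2 h3 h4 h5)
    obtain ⟨x0, a0, ha0, ha0A⟩ := hA
    have hx : x ∈ a0.support := by
      rw [← ha0A, vts_eds_of_ne (ess_not_nil ha0)] at hxA
      exact hxA
    obtain ⟨a, ha, haA, -⟩ := hEssAt V M _ Γ κ x0 a0 ha0 x hx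
    rw [ha0A] at haA
    have h1 := key a.length x x a Walk.nil (by rw [Walk.append_nil]; exact ha) haA.le (by simp)
      le_rfl hxB
    rw [Walk.append_nil, haA] at h1
    exact h1
  · have hD : RR Γ κ A B := by
      refine Or.inr (Or.inl ?_)
      intro v hv hv'
      exact hAB ⟨v, hv, hv'⟩
    exact ch_cons hA (bic_left hA) hD (ch_refl hB (bic_right hB))

end Pool.Agent.MPe54d61.TC
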