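import Pool.Agent.Lib.MP_e54d61_gt.TC.SpecB

/-!
# MP_e54d61_gt, torus case, part B: the circle seen from four vertices
-/

set_option autoImplicit false

namespace Pool.Agent.MPe54d61.TC

open SimpleGraph

namespace CircAux

variable {V M : Type} [AddCommGroup M] {Γ : SimpleGraph V}

/-- the conclusion for one order -/
def Out (κ : V → V → M) {x y : V} (p : Γ.Walk x y) (q : Γ.Walk y x) (v u w w' : V) : Prop :=
  ∃ (a1 : Γ.Walk v u) (a2 : Γ.Walk u w) (a3 : Γ.Walk w w') (a4 : Γ.Walk w' v),
    Ess κ (a1.append (a2.append (a3.append a4))) ∧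
    eds (a1.append (a2.append (a3.append a4))) = eds (p.append q) ∧
    eds a1 ⊆ eds p ∧ a1.support ⊆ p.support ∧ eds a3 ⊆ eds q ∧ a3.support ⊆ q.support ∧
    (∀ z ∈ a3.support, z ∉ p.support)

theorem split3 {x y : V} (p : Γ.Walk x y) {u v : V} (hu : u ∈ p.support) (hv : v ∈ p.support) :
    (∃ (p1 : Γ.Walk x v) (p2 : Γ.Walk v u) (p3 : Γ.Walk u y), p = p1.append (p2.append p3)) ∨
    (∃ (p1 : Γ.Walk x u) (p2 : Γ.Walk u v) (p3 : Γ.Walk v y), p = p1.append (p2.append p3)) := by
  obtain ⟨p1, r, rfl⟩ := Walk.mem_support_iff_exists_append.1 hv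
  rcases (Walk.mem_support_append_iff _ _).1 hu with h | h
  · obtain ⟨s1, s2, rfl⟩ := Walk.mem_support_iff_exists_append.1 h
    exact Or.inr ⟨s1, s2, r, (Walk.append_assoc _ _ _).symm⟩
  · obtain ⟨s1, s2, rfl⟩ := Walk.mem_support_iff_exists_append.1 h
    exact Or.inl ⟨p1, s1, s2, rfl⟩

theorem sc {x y : V} (p : Γ.Walk x y) : p.support = x :: p.support.tail :=
  (Walk.cons_tail_support p).symm

theorem end_mem_tail {x y : V} (p : Γ.Walk x y) (h : x ≠ y) : y ∈ p.support.tail := by
  have h1 := p.end_mem_support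
  rw [sc, List.mem_cons] at h1
  rcases h1 with h1 | h1
  · exact absurd h1.symm h
  · exact h1

theorem core (κ : V → V → M) {x y v u w w' : V}
    (p1 : Γ.Walk x v) (p2 : Γ.Walk v u) (p3 : Γ.Walk u y)
    (q1 : Γ.Walk y w) (q2 : Γ.Walk w w') (q3 : Γ.Walk w' x)
    (hE : Ess κ ((p1.append (p2.append p3)).append (q1.append (q2.append q3))))
    (hw : w ∉ (p1.append (p2.append p3)).support)
    (hw' : w' ∉ (p1.append (p2.append p3)).support) :
    Out κ (p1.append (p2.append p3)) (q1.append (q2.append q3)) v u w w' := by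
  set p := p1.append (p2.append p3) with hp
  set q := q1.append (q2.append q3) with hq
  obtain ⟨hp0, hq0, hpq, -⟩ := (ess_append_iff p q).1 hE
  have hwy : y ≠ w := fun h => hw (h ▸ p.end_mem_support)
  have hwx : w ≠ x := fun h => hw (h ▸ p.start_mem_support)
  have hwx' : w' ≠ x := fun h => hw' (h ▸ p.start_mem_support)
  have hqt : q.support.tail = q1.support.tail ++ (q2.support.tail ++ q3.support.tail) := by
    rw [hq, Walk.tail_support_append, Walk.tail_support_append]
  refine ⟨p2, p3.append q1, q2, q3.append p1, ?_, ?_, ?_, ?_, ?_, ?_, ?_⟩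
  · have h1 : Ess κ (p1.append (p2.append (p3.append (q1.append (q2.append q3))))) := by
      rw [hp, hq] at hE
      simpa only [Walk.append_assoc] using hE
    have h2 := ess_comm h1
    simpa only [Walk.append_assoc] using h2
  · simp only [hp, hq, eds_append]
    ext e
    simp only [Set.mem_union]
    tauto
  · rw [hp]
    simp only [eds_append]
    exact fun e he => Or.inr (Or.inl he)
  · intro z hz
    rw [hp]
    simp only [Walk.mem_support_append_iff]
    exact Or.inr (Or.inl hz)
  · rw [hq]
    simp only [eds_append]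
    exact fun e he => Or.inr (Or.inl he)
  · intro z hz
    rw [hq]
    simp only [Walk.mem_support_append_iff]
    exact Or.inr (Or.inl hz)
  · intro z hz hzp
    have hwq1 : w ∈ q1.support.tail := end_mem_tail q1 hwy
    have hzq : z ∈ q.support.tail := by
      rw [hqt]
      rw [sc, List.mem_cons] at hz
      rcases hz with hz | hz
      · rw [hz]
        exact List.mem_append_left _ hwq1
      · exact List.mem_append_right _ (List.mem_append_left _ hz)
    rw [sc, List.mem_cons] at hzp
    rcases hzp with hzp | hzp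
    · have hzt : z ∈ q2.support.tail := by
        rw [sc, List.mem_cons] at hz
        rcases hz with hz | hz
        · exact absurd (hz.symm.trans hzp) hwx
        · exact hz
      have hz3 : z ∈ q3.support.tail := by
        rw [hzp]
        exact end_mem_tail q3 hwx'
      rw [hqt] at hq0
      have h3 := (List.nodup_append'.1 hq0).2.1
      exact (List.nodup_append'.1 h3).2.2 hzt hz3
    · exact hpq hzp hzq

theorem both (κ : V → V → M) {x y v u w w' : V}
    (p1 : Γ.Walk x v) (p2 : Γ.Walk v u) (p3 : Γ.Walk u y) (q : Γ.Walk y x)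
    (hE : Ess κ ((p1.append (p2.append p3)).append q))
    (hwq : w ∈ q.support) (hwq' : w' ∈ q.support)
    (hw : w ∉ (p1.append (p2.append p3)).support)
    (hw' : w' ∉ (p1.append (p2.append p3)).support) :
    Out κ (p1.append (p2.append p3)) q v u w w' ∨ Out κ (p1.append (p2.append p3)) q v u w' w := by
  rcases split3 q hwq' hwq with ⟨q1, q2, q3, rfl⟩ | ⟨q1, q2, q3, rfl⟩
  · exact Or.inl (core κ p1 p2 p3 q1 q2 q3 hE hw hw')
  · exact Or.inr (core κ p1 p2 p3 q1 q2 q3 hE hw' hw)

theorem out_rev (κ : V → V → M) {x y v u w w' : V} (p : Γ.Walk x y) (q : Γ.Walk y x)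
    (h : Out κ p.reverse q.reverse v u w w') : Out κ p q v u w w' := by
  obtain ⟨a1, a2, a3, a4, h1, h2, h3, h4, h5, h6, h7⟩ := h
  refine ⟨a1, a2, a3, a4, h1, ?_, ?_, ?_, ?_, ?_, ?_⟩
  · rw [h2]; simp only [eds_append, eds_reverse]
  · simpa only [eds_reverse] using h3
  · intro z hz
    have := h4 hz
    simpa using this
  · simpa only [eds_reverse] using h5
  · intro z hz
    have := h6 hz
    simpa using this
  · intro z hz hzp
    exact h7 z hz (by simpa using hzp)

end CircAux

theorem tCirc (hEssRev : S_EssRev) : S_Circ := by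
  intro V M _ Γ κ hκ x y p q hxy hE u hu v hv w hw w' hw' hwp hwp'
  change CircAux.Out κ p q v u w w' ∨ CircAux.Out κ p q v u w' w
  rcases CircAux.split3 p hu hv with ⟨p1, p2, p3, rfl⟩ | ⟨p1, p2, p3, hp⟩
  · exact CircAux.both κ p1 p2 p3 q hE hw hw' hwp hwp'
  · have hr : Ess κ (p.append q).reverse := hEssRev V M _ Γ κ hκ x _ hE
    rw [Walk.reverse_append] at hr
    have hr2 := ess_comm hr
    have hpr : p.reverse = p3.reverse.append (p2.reverse.append p1.reverse) := by
      rw [hp, Walk.reverse_append, Walk.reverse_append, ← Walk.append_assoc]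
    have hm : ∀ z, z ∈ p.reverse.support ↔ z ∈ p.support := fun z => by simp
    have h := CircAux.both (w := w) (w' := w') κ p3.reverse p2.reverse p1.reverse
      q.reverse (by rw [← hpr]; exact hr2) (by simpa using hw) (by simpa using hw')
      (by rw [← hpr, hm]; exact hwp) (by rw [← hpr, hm]; exact hwp')
    rw [← hpr] at h
    exact h.imp (CircAux.out_rev κ p q) (CircAux.out_rev κ p q)

end Pool.Agent.MPe54d61.TC
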