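import Pool.Agent.Lib.MP_e54d61_gt.TC.SpecA

/-!
# MP_e54d61_gt, torus case, part A: the elements of `HY` are products of commutators
-/

set_option autoImplicit false

namespace Pool.Agent.MPe54d61.TC

open Topology

private theorem Cmt_supp {h : Y ≃ₜ Y} (hh : BS h) :
    ∃ M : ℝ, ∀ M' : ℝ, M ≤ M' → SuppIn {z : Y | |z.1| ≤ M'} h := by
  obtain ⟨M, hM⟩ := hh
  refine ⟨M, fun M' hM' z hz => hM z ?_⟩
  have h1 : ¬ |z.1| ≤ M' := hz
  linarith [not_le.1 h1]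

private theorem Cmt_mono {M M' : ℝ} (h : M ≤ M') : {z : Y | |z.1| ≤ M} ⊆ {z : Y | |z.1| ≤ M'} :=
  fun _ hz => le_trans hz h

private theorem Cmt_cfBS {t : Y ≃ₜ Y} (ht : CFlow t) : BS t := by
  obtain ⟨φ, ⟨M, hM⟩, rfl⟩ := ht
  exact ⟨M, fun z hz => hM 1 z hz⟩

private theorem Cmt_conj {N : Type} [Group N] (k a b : N) :
    k * cm a b * k⁻¹ = cm (k * a * k⁻¹) (k * b * k⁻¹) := by
  simp only [cm]
  group

private theorem Cmt_inv {N : Type} [Group N] (a b : N) : (cm a b)⁻¹ = cm b a := by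
  simp only [cm]
  group

private theorem Cmt_listInv {N : Type} [Group N] (l : List (N × N)) :
    ((l.reverse.map fun p => (p.2, p.1)).map fun p => cm p.1 p.2).prod =
      ((l.map fun p => cm p.1 p.2).prod)⁻¹ := by
  induction l with
  | nil => simp
  | cons a l ih =>
    rw [List.reverse_cons, List.map_append, List.map_append, List.prod_append, ih]
    simp [Cmt_inv]

theorem tCmt (hSwY : S_SwY) (hCFc : S_CFc) : S_Cmt := by
  intro h hh
  refine Subgroup.closure_induction (p := fun h _ => ∃ (M : ℝ) (l : List ((Y ≃ₜ Y) × (Y ≃ₜ Y))),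
    (∀ p ∈ l, SuppIn {z : Y | |z.1| ≤ M} p.1 ∧ SuppIn {z : Y | |z.1| ≤ M} p.2) ∧
    (l.map fun p => cm p.1 p.2).prod = h) ?_ ?_ ?_ ?_ hh
  · intro x hx
    obtain ⟨d, hd, hx⟩ := Group.mem_conjugatesOfSet_iff.1 hx
    obtain ⟨k, rfl⟩ := isConj_iff.1 hx
    obtain ⟨g, t, hg, ht, rfl⟩ := hSwY d hd
    obtain ⟨M1, h1⟩ := Cmt_supp ((hCFc k g).2.2 hg)
    obtain ⟨M2, h2⟩ := Cmt_supp (Cmt_cfBS ((hCFc k t).1 ht))
    refine ⟨max M1 M2, [(k * g * k⁻¹, k * t * k⁻¹)], ?_, ?_⟩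
    · intro p hp
      rw [List.mem_singleton] at hp
      subst hp
      exact ⟨h1 _ (le_max_left _ _), h2 _ (le_max_right _ _)⟩
    · simp [Cmt_conj]
  · exact ⟨0, [], by simp, by simp⟩
  · rintro x y - - ⟨M, l, hl, rfl⟩ ⟨M', l', hl', rfl⟩
    refine ⟨max M M', l ++ l', fun p hp => ?_, by rw [List.map_append, List.prod_append]⟩
    rcases List.mem_append.1 hp with hp | hp
    · exact ⟨(hl p hp).1.mono (Cmt_mono (le_max_left _ _)),
        (hl p hp).2.mono (Cmt_mono (le_max_left _ _))⟩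
    · exact ⟨(hl' p hp).1.mono (Cmt_mono (le_max_right _ _)),
        (hl' p hp).2.mono (Cmt_mono (le_max_right _ _))⟩
  · rintro x - ⟨M, l, hl, rfl⟩
    refine ⟨M, l.reverse.map fun p => (p.2, p.1), fun p hp => ?_, Cmt_listInv l⟩
    obtain ⟨q, hq, rfl⟩ := List.mem_map.1 hp
    rw [List.mem_reverse] at hq
    exact ⟨(hl q hq).2, (hl q hq).1⟩

end Pool.Agent.MPe54d61.TC
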