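import Pool.Agent.Lib.MP_e54d61_gt.TC.SpecB

/-!
# MP_e54d61_gt, torus case, part B: completing a path in an essential cycle
-/

set_option autoImplicit false

namespace Pool.Agent.MPe54d61.TC

open SimpleGraph

namespace CompAux

/-- A path whose edges are edges of a path with the same first vertex is an initial part of it. -/
theorem pre {V : Type} {Γ : SimpleGraph V} {v x : V} (Q : Γ.Walk v x) :
    ∀ {w : V} (P : Γ.Walk v w), P.IsPath → Q.IsPath → eds Q ⊆ eds P →
      ∃ R : Γ.Walk x w, P = Q.append R := by
  induction Q with
  | nil =>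
    intro w P _ _ _
    exact ⟨P, rfl⟩
  | @cons a b c h' Q' ih =>
    intro w P hP hQ h
    cases P with
    | nil =>
      have := h ((mem_eds_cons h' Q' s(a, b)).2 (Or.inl rfl))
      simp at this
    | @cons _ d _ h2 P' =>
      rw [Walk.cons_isPath_iff] at hP hQ
      have h3 := h ((mem_eds_cons h' Q' s(a, b)).2 (Or.inl rfl))
      rw [mem_eds_cons] at h3
      have hbd : b = d := by
        rcases h3 with h3 | h3
        · exact Sym2.congr_right.1 h3
        · exact absurd (Walk.fst_mem_support_of_mem_edges _ h3) hP.2
      subst hbd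
      obtain ⟨R, hR⟩ := ih P' hP.1 hQ.1 (by
        intro e he
        have h4 := h ((mem_eds_cons h' Q' e).2 (Or.inr he))
        rw [mem_eds_cons] at h4
        rcases h4 with h4 | h4
        · exfalso
          subst h4
          exact hQ.2 (Walk.fst_mem_support_of_mem_edges _ he)
        · exact h4)
      exact ⟨R, by rw [hR]; rfl⟩

/-- the same for a closed walk `cons h c` whose second vertex is the second vertex of the path -/
theorem pre_cycle {V : Type} {Γ : SimpleGraph V} {y v x : V} (h : Γ.Adj y v) (c : Γ.Walk v y)
    (hc : c.IsPath) (h' : Γ.Adj y v) (q : Γ.Walk v x) (hq : (Walk.cons h' q).IsPath)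
    (he : eds (Walk.cons h' q) ⊆ eds (Walk.cons h c)) :
    ∃ R : Γ.Walk x y, Walk.cons h c = (Walk.cons h' q).append R := by
  rw [Walk.cons_isPath_iff] at hq
  obtain ⟨R, hR⟩ := pre q c hc hq.1 (by
    intro e he1
    have h4 := he ((mem_eds_cons h' q e).2 (Or.inr he1))
    rw [mem_eds_cons] at h4
    rcases h4 with h4 | h4
    · exfalso
      subst h4
      exact hq.2 (Walk.fst_mem_support_of_mem_edges _ he1)
    · exact h4)
  exact ⟨R, by rw [hR]; rfl⟩

end CompAux

open CompAux in
/-- **Comp.** -/
theorem tComp (hEssAt : S_EssAt) (hEssRev : S_EssRev) : S_Comp := by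
  intro V M _ Γ κ hκ B hB x y q hxy hq hqB
  obtain ⟨x0, c0, hc0, hc0B⟩ := hB
  cases q with
  | nil => exact absurd rfl hxy
  | @cons _ b _ h' q' =>
    have hyb : s(y, b) ∈ eds (Walk.cons h' q') := (mem_eds_cons h' q' s(y, b)).2 (Or.inl rfl)
    have hyc : y ∈ c0.support := by
      have h1 : s(y, b) ∈ eds c0 := by rw [hc0B]; exact hqB hyb
      exact Walk.fst_mem_support_of_mem_edges _ h1
    obtain ⟨c, hc, hcB, -⟩ := hEssAt V M _ Γ κ x0 c0 hc0 y hyc
    rw [hc0B] at hcB
    cases c with
    | nil => exact absurd rfl hc.2
    | @cons _ v _ h c' =>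
      have hc'n : c'.support.Nodup := by
        have := hc.1
        simpa using this
      have hc'p : c'.IsPath := (Walk.isPath_def _).2 hc'n
      have h3 : s(y, b) ∈ eds (Walk.cons h c') := by rw [hcB]; exact hqB hyb
      rw [mem_eds_cons] at h3
      rcases h3 with h3 | h3
      · have hbv : b = v := Sym2.congr_right.1 h3
        subst hbv
        obtain ⟨R, hR⟩ := pre_cycle h c' hc'p h' q' hq (by rw [hcB]; exact hqB)
        refine ⟨R, ?_, ?_⟩
        · rw [← hR]; exact hc
        · rw [← hR]; exact hcB
      · -- the other direction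
        have hrev := hEssRev V M _ Γ κ hκ y _ hc
        have hrevp : c'.reverse.IsPath := (Walk.isPath_reverse_iff c').2 hc'p
        have h4 : s(y, b) ∈ eds c'.reverse := by rw [eds_reverse]; exact h3
        have h5 : (Walk.cons h c').reverse = c'.reverse.append (Walk.cons h.symm Walk.nil) :=
          Walk.reverse_cons h c'
        rw [h5] at hrev
        have h6 : eds (c'.reverse.append (Walk.cons h.symm Walk.nil)) = B := by
          rw [← h5, eds_reverse]; exact hcB
        generalize c'.reverse = d at hrevp h4 hrev h6
        cases d with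
        | nil => simp at h4
        | @cons _ u _ h'' d' =>
          have h7 := hrevp
          rw [Walk.cons_isPath_iff] at h7
          rw [mem_eds_cons] at h4
          have hbu : b = u := by
            rcases h4 with h4 | h4
            · exact Sym2.congr_right.1 h4
            · exact absurd (Walk.fst_mem_support_of_mem_edges _ h4) h7.2
          subst hbu
          rw [Walk.cons_append] at hrev h6
          have hdn : (d'.append (Walk.cons h.symm Walk.nil)).support.Nodup := by
            have := hrev.1
            simpa using this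
          obtain ⟨R, hR⟩ := pre_cycle h'' (d'.append (Walk.cons h.symm Walk.nil))
            ((Walk.isPath_def _).2 hdn) h' q' hq (by rw [h6]; exact hqB)
          refine ⟨R, ?_, ?_⟩
          · rw [← hR]; exact hrev
          · rw [← hR]; exact h6

end Pool.Agent.MPe54d61.TC
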