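import Pool.Agent.Lib.MP_e54d61_gt.TC.SpecH

/-!
# MP_e54d61_gt, torus case: sign changes around the vertices (`S_Count`)
-/

set_option autoImplicit false

namespace Pool.Agent.MPe54d61.TC

open Topology MatrixGroups

namespace CountAux

/-- indicator of a negative number -/
noncomputable def chi (x : ℝ) : ℕ := if x < 0 then 1 else 0

theorem chi_neg {x : ℝ} (h : x < 0) : chi x = 1 := if_pos h

theorem chi_pos {x : ℝ} (h : 0 < x) : chi x = 0 := if_neg (not_lt.2 h.le)

/-- exactly one sign change at the corners of a triangle -/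
theorem key {x y : ℝ} (hx : x ≠ 0) (hy : y ≠ 0) (hxy : x + y ≠ 0) :
    chi (x * (x + y)) + chi (y * -x) + chi (-(x + y) * -y) = 1 := by
  rcases lt_or_gt_of_ne hx with h1 | h1 <;> rcases lt_or_gt_of_ne hy with h2 | h2
  · have h3 : x + y < 0 := by linarith
    rw [chi_pos (by nlinarith [mul_pos_of_neg_of_neg h1 h3]),
      chi_neg (by nlinarith [mul_pos_of_neg_of_neg h1 h2]),
      chi_pos (by nlinarith [mul_pos_of_neg_of_neg h3 h2])]
  · rcases lt_or_gt_of_ne hxy with h3 | h3
    · rw [chi_pos (mul_pos_of_neg_of_neg h1 h3), chi_pos (mul_pos h2 (by linarith)),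
        chi_neg (mul_neg_of_pos_of_neg (by linarith) (by linarith))]
    · rw [chi_neg (mul_neg_of_neg_of_pos h1 h3), chi_pos (mul_pos h2 (by linarith)),
        chi_pos (mul_pos_of_neg_of_neg (by linarith) (by linarith))]
  · rcases lt_or_gt_of_ne hxy with h3 | h3
    · rw [chi_neg (mul_neg_of_pos_of_neg h1 h3), chi_pos (mul_pos_of_neg_of_neg h2 (by linarith)),
        chi_pos (mul_pos (by linarith) (by linarith))]
    · rw [chi_pos (mul_pos h1 h3), chi_pos (mul_pos_of_neg_of_neg h2 (by linarith)),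
        chi_neg (mul_neg_of_neg_of_pos (by linarith) (by linarith))]
  · have h3 : 0 < x + y := by linarith
    rw [chi_pos (mul_pos h1 h3), chi_neg (mul_neg_of_pos_of_neg h2 (by linarith)),
      chi_pos (mul_pos_of_neg_of_neg (by linarith) (by linarith))]

theorem shift {N : ℕ} [NeZero N] (F : VN N → ℕ) (e : VN N) : ∑ p, F (p + e) = ∑ p, F p :=
  Equiv.sum_comp (Equiv.addRight e) F

end CountAux

open CountAux

theorem tCount : S_Count := by
  intro N _ f l hl
  have ha : ∀ p, l (XX f 0 p) ≠ 0 := hl 0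
  have hb : ∀ p, l (XX f 1 p) ≠ 0 := hl 1
  have hc : ∀ p, l (XX f 2 p) ≠ 0 := hl 2
  have hlow : ∀ p, l (XX f 2 p) = l (XX f 0 p) + l (XX f 1 (p + ed N 0)) := by
    intro p; rw [XX_low, map_add]
  have hupp : ∀ p, l (XX f 2 p) = l (XX f 0 (p + ed N 1)) + l (XX f 1 p) := by
    intro p; rw [XX_upp, map_add, add_comm]
  obtain ⟨a, hadef⟩ : ∃ a : VN N → ℝ, a = fun p => l (XX f 0 p) := ⟨_, rfl⟩
  obtain ⟨b, hbdef⟩ : ∃ b : VN N → ℝ, b = fun p => l (XX f 1 p) := ⟨_, rfl⟩
  obtain ⟨c, hcdef⟩ : ∃ c : VN N → ℝ, c = fun p => l (XX f 2 p) := ⟨_, rfl⟩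
  have ha' : ∀ p, l (XX f 0 p) = a p := fun p => by rw [hadef]
  have hb' : ∀ p, l (XX f 1 p) = b p := fun p => by rw [hbdef]
  have hc' : ∀ p, l (XX f 2 p) = c p := fun p => by rw [hcdef]
  simp only [ha'] at ha hlow hupp
  simp only [hb'] at hb hlow hupp
  simp only [hc'] at hc hlow hupp
  have hcard : ∀ p, (Finset.univ.filter
      fun i : Fin 6 => l (out f p i) * l (out f p (i + 1)) < 0).card =
      chi (a p * c p) + chi (c p * b p) + chi (b p * -a (p - ed N 0)) +
      chi (-a (p - ed N 0) * -c (p - ed N 2)) + chi (-c (p - ed N 2) * -b (p - ed N 1)) +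
      chi (-b (p - ed N 1) * a p) := by
    intro p
    rw [Finset.card_filter, Fin.sum_univ_six]
    have h0 : l (out f p 0) = a p := ha' p
    have h1 : l (out f p 1) = c p := hc' p
    have h2 : l (out f p 2) = b p := hb' p
    have h3 : l (out f p 3) = -a (p - ed N 0) := by
      rw [← ha', ← map_neg]; rfl
    have h4 : l (out f p 4) = -c (p - ed N 2) := by
      rw [← hc', ← map_neg]; rfl
    have h5 : l (out f p 5) = -b (p - ed N 1) := by
      rw [← hb', ← map_neg]; rfl
    have e0 : ((0 : Fin 6) + 1) = 1 := rfl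
    have e1 : ((1 : Fin 6) + 1) = 2 := rfl
    have e2 : ((2 : Fin 6) + 1) = 3 := rfl
    have e3 : ((3 : Fin 6) + 1) = 4 := rfl
    have e4 : ((4 : Fin 6) + 1) = 5 := rfl
    have e5 : ((5 : Fin 6) + 1) = 0 := rfl
    rw [e0, e1, e2, e3, e4, e5, h0, h1, h2, h3, h4, h5]
    rfl
  rw [Finset.sum_congr rfl fun p _ => hcard p]
  simp only [Finset.sum_add_distrib]
  rw [← shift (fun p => chi (b p * -a (p - ed N 0))) (ed N 0),
    ← shift (fun p => chi (-a (p - ed N 0) * -c (p - ed N 2))) (ed N 2),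
    ← shift (fun p => chi (-c (p - ed N 2) * -b (p - ed N 1))) (ed N 2),
    ← shift (fun p => chi (-b (p - ed N 1) * a p)) (ed N 1)]
  have s20 : ∀ p : VN N, p + ed N 2 - ed N 0 = p + ed N 1 := by
    intro p; rw [ed_two]; abel
  have s21 : ∀ p : VN N, p + ed N 2 - ed N 1 = p + ed N 0 := by
    intro p; rw [ed_two]; abel
  simp only [add_sub_cancel_right, s20, s21]
  have k1 : ∀ p, chi (a p * c p) + chi (b (p + ed N 0) * -a p) +
      chi (-c p * -b (p + ed N 0)) = 1 := by
    intro p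
    have := key (ha p) (hb (p + ed N 0)) (by rw [← hlow]; exact hc p)
    rwa [← hlow] at this
  have k2 : ∀ p, chi (c p * b p) + chi (-a (p + ed N 1) * -c p) +
      chi (-b p * a (p + ed N 1)) = 1 := by
    intro p
    have := key (ha (p + ed N 1)) (hb p) (by rw [← hupp]; exact hc p)
    rw [← hupp] at this
    have e1 : a (p + ed N 1) * c p = -a (p + ed N 1) * -c p := by ring
    have e2 : b p * -a (p + ed N 1) = -b p * a (p + ed N 1) := by ring
    have e3 : -c p * -b p = c p * b p := by ring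
    rw [e1, e2, e3] at this
    omega
  have t1 := Finset.sum_congr rfl fun (p : VN N) (_ : p ∈ Finset.univ) => k1 p
  have t2 := Finset.sum_congr rfl fun (p : VN N) (_ : p ∈ Finset.univ) => k2 p
  simp only [Finset.sum_add_distrib] at t1 t2
  have t3 : ∑ _p : VN N, 2 = ∑ _p : VN N, 1 + ∑ _p : VN N, 1 := by
    rw [← Finset.sum_add_distrib]
  rw [t3]
  omega

end Pool.Agent.MPe54d61.TC
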