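import Pool.Agent.Lib.MP_e54d61_gt.TC.SpecP

/-!
# MP_e54d61_gt, torus case, part P: the essential cycle in two boxes
-/

set_option autoImplicit false

namespace Pool.Agent.MPe54d61.TC

open SimpleGraph MatrixGroups

namespace CrBAux

private theorem e1_ne_zero (A : SL(2, ℤ)) : e1 A ≠ 0 := by
  intro h
  have h1 := det_SL A
  have h2 : A 0 0 = 0 := congrArg Prod.fst h
  have h3 : A 1 0 = 0 := congrArg Prod.snd h
  rw [h2, h3] at h1
  simp at h1

private theorem geo_mono {N : ℕ} {C C' : Set (Sym2 (VN N))} (h : C ⊆ C') : geo N C ⊆ geo N C' := by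
  rintro z ⟨p, q, hpq, hC, w, hw, hz⟩
  exact ⟨p, q, hpq, h hC, w, hw, hz⟩

private theorem bx_mono {a b w h w' h' : ℝ} (hw : w ≤ w') (hh : h ≤ h') :
    bx a b w h ⊆ bx a b w' h' := by
  rintro z ⟨s, t, hs, ht, hz⟩
  exact ⟨s, t, hs.trans_le hw, ht.trans_le hh, hz⟩

/-- a potential on the edges of a walk in a box -/
private theorem pot (hPotX : S_PotX) (x : X) (a b w h : ℝ) (hw : w ≤ 1 / 2) (hh : h ≤ 1 / 2)
    (N : ℕ) (hN : 3 ≤ N) {u v : VN N} (p : (GN N).Walk u v)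
    (hp : geo N (eds p) ⊆ mm x '' bx a b w h) :
    ∃ φ : VN N → ℤ × ℤ, ∀ s t, s(s, t) ∈ eds p → kN N s t = φ t - φ s := by
  obtain ⟨φ, hφ⟩ := hPotX x a b N hN
  refine ⟨φ, fun s t hst => hφ s t ?_ ?_⟩
  · exact p.adj_of_mem_edges hst
  · exact (geo_mono (Set.singleton_subset_iff.2 hst)).trans
      (hp.trans (Set.image_mono (bx_mono hw hh)))

end CrBAux

open CrBAux in
theorem tCrB (hGrid : S_Grid) (hCrA : S_CrA) (hPotX : S_PotX) (hPotCls : S_PotCls)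
    (hSurg : S_Surg) : S_CrB := by
  classical
  intro x
  obtain ⟨N0, hN0⟩ := hCrA x
  refine ⟨max N0 3, fun N hN => ?_⟩
  have hN3 : 3 ≤ N := (le_max_right _ _).trans hN
  obtain ⟨u, v, π0, τ, h1, h2, h3⟩ := hN0 N ((le_max_left _ _).trans hN)
  obtain ⟨φ, hφ⟩ := pot hPotX x (1 / 2) (1 / 2) (3 / 8) (1 / 4) (by norm_num) (by norm_num) N hN3
    π0 h1
  obtain ⟨ψ, hψ⟩ := pot hPotX x 1 (1 / 2) (3 / 8) (1 / 4) (by norm_num) (by norm_num) N hN3 τ h2
  have hb : eds π0.bypass ⊆ eds π0 := fun e he => π0.edges_bypass_subset_edges he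
  have hc : cls (kN N) π0.bypass = cls (kN N) π0 :=
    (hPotCls _ _ _ (GN N) (kN N) (eds π0) φ hφ u v π0.bypass hb).trans
      (hPotCls _ _ _ (GN N) (kN N) (eds π0) φ hφ u v π0 subset_rfl).symm
  obtain ⟨y, z, p, q, hyz, hess, hp, hq⟩ := hSurg _ _ _ (GN N) (kN N) (hGrid N hN3).1 u v
    π0.bypass τ φ ψ π0.bypass_isPath (fun s t hst => hφ s t (hb hst)) hψ
    (by rw [hc, h3]; exact e1_ne_zero x.2)
  exact ⟨y, z, p, q, hyz, hess, (geo_mono (hp.trans hb)).trans h1, (geo_mono hq).trans h2⟩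

end Pool.Agent.MPe54d61.TC
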