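import Pool.Agent.Lib.MP_e54d61_gt.TC.SpecP

set_option autoImplicit false

namespace Pool.Agent.MPe54d61.TC

open SimpleGraph MatrixGroups

namespace CrossAux

theorem coe_eq_iff (a b : ℝ) : (a : Ci) = (b : Ci) ↔ ∃ k : ℤ, b - a = k := by
  rw [QuotientAddGroup.eq, AddSubgroup.mem_zmultiples_iff]
  constructor
  · rintro ⟨k, hk⟩
    refine ⟨k, ?_⟩
    rw [zsmul_eq_mul, mul_one] at hk
    linarith
  · rintro ⟨k, hk⟩
    refine ⟨k, ?_⟩
    rw [zsmul_eq_mul, mul_one]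
    linarith

theorem isOpenMap_pr : IsOpenMap pr := by
  have h : IsOpenMap (fun x : ℝ => (x : Ci)) := QuotientAddGroup.isOpenMap_coe
  exact h.prodMap h

theorem isOpen_an (a w : ℝ) : IsOpen (an a w) := by
  have h : an a w = pr '' {z : P | |z.1 - a| < w} := by
    ext z
    constructor
    · rintro ⟨s, t, h1, h2⟩
      exact ⟨(s, t), h1, h2.symm⟩
    · rintro ⟨⟨s, t⟩, h1, h2⟩
      exact ⟨s, t, h1, h2.symm⟩
  rw [h]
  apply isOpenMap_pr
  exact isOpen_lt (by fun_prop) (by fun_prop)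

theorem an_mono {a w w' : ℝ} (h : w ≤ w') : an a w ⊆ an a w' := by
  rintro z ⟨s, t, h1, h2⟩
  exact ⟨s, t, lt_of_lt_of_le h1 h, h2⟩

theorem bn_mono {a w w' : ℝ} (h : w ≤ w') : bn a w ⊆ bn a w' := by
  rintro z ⟨s, t, h1, h2⟩
  exact ⟨s, t, lt_of_lt_of_le h1 h, h2⟩

theorem bx_bn (a b w h : ℝ) : bx a b w h ⊆ bn b h := by
  rintro z ⟨s, t, h1, h2, h3⟩
  exact ⟨s, t, h2, h3⟩

theorem bx_an (a b w h : ℝ) : bx a b w h ⊆ an a w := by
  rintro z ⟨s, t, h1, h2, h3⟩
  exact ⟨s, t, h1, h3⟩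

theorem disj : Disjoint (an (1 / 2) (1 / 8)) (bx 1 (1 / 2) (3 / 8) (1 / 4)) := by
  rw [Set.disjoint_left]
  rintro z ⟨s, t, h1, h2⟩ ⟨s', t', h3, -, h4⟩
  rw [h2] at h4
  have h5 : (s : Ci) = (s' : Ci) := congrArg Prod.fst h4
  obtain ⟨k, hk⟩ := (coe_eq_iff s s').1 h5
  rw [abs_lt] at h1 h3
  have h6 : (0 : ℝ) < k := by rw [← hk]; linarith
  have h7 : (k : ℝ) < 1 := by rw [← hk]; linarith
  have h8 : (0 : ℤ) < k := by exact_mod_cast h6
  have h9 : k < (1 : ℤ) := by exact_mod_cast h7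
  omega

theorem geo_mono {N : ℕ} {C C' : Set (Sym2 (VN N))} (h : C ⊆ C') : geo N C ⊆ geo N C' := by
  rintro z ⟨p, q, h1, h2, h3⟩
  exact ⟨p, q, h1, h h2, h3⟩

theorem geo_union {N : ℕ} (C C' : Set (Sym2 (VN N))) : geo N (C ∪ C') ⊆ geo N C ∪ geo N C' := by
  rintro z ⟨p, q, h1, h2 | h2, h3⟩
  · exact Or.inl ⟨p, q, h1, h2, h3⟩
  · exact Or.inr ⟨p, q, h1, h2, h3⟩

theorem pr_gp_red {N : ℕ} (hN : 1 ≤ N) {p p' : ℤ × ℤ} (h : red N p = red N p') :
    pr (gp N p) = pr (gp N p') := by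
  have hN0 : (N : ℝ) ≠ 0 := by exact_mod_cast (by omega : N ≠ 0)
  have key : ∀ a b : ℤ, (a : ZMod N) = (b : ZMod N) →
      (((a : ℝ) / N : ℝ) : Ci) = (((b : ℝ) / N : ℝ) : Ci) := by
    intro a b hab
    obtain ⟨m, hm⟩ := (ZMod.intCast_eq_intCast_iff_dvd_sub a b N).1 hab
    rw [coe_eq_iff]
    refine ⟨m, ?_⟩
    have : (b : ℝ) - a = N * m := by exact_mod_cast hm
    rw [← sub_div, this, mul_comm, mul_div_assoc, div_self hN0, mul_one]
  exact Prod.ext (key _ _ (congrArg Prod.fst h)) (key _ _ (congrArg Prod.snd h))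

theorem vts_geo {N : ℕ} {u v : VN N} (w : (GN N).Walk u v) {z : VN N} (hz : z ∈ vts (eds w)) :
    ∃ p, red N p = z ∧ pr (gp N p) ∈ geo N (eds w) := by
  obtain ⟨e, he, hze⟩ := hz
  induction e using Sym2.ind with
  | _ a b =>
    have hadj : (GN N).Adj a b := w.adj_of_mem_edges he
    obtain ⟨-, p, q, h1, h2, h3⟩ := hadj
    have hmem : s(red N p, red N q) ∈ eds w := by rw [h2, h3]; exact he
    rcases Sym2.mem_iff.1 hze with h | h
    · exact ⟨p, by rw [h2, h], p, q, h1, hmem, gp N p, left_mem_segment ℝ _ _, rfl⟩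
    · exact ⟨q, by rw [h3, h], p, q, h1, hmem, gp N q, right_mem_segment ℝ _ _, rfl⟩

theorem dz_aux (A : SL(2, ℤ)) (n n' : ℤ) : dz (n • e2 A) (n' • e1 A) = -(n * n') := by
  have h := det_SL A
  have e : dz (n • e2 A) (n' • e1 A) = -(n * n') * (A 0 0 * A 1 1 - A 0 1 * A 1 0) := by
    simp only [dz, e1, e2, Prod.smul_fst, Prod.smul_snd, smul_eq_mul]
    ring
  rw [e, h, mul_one]

theorem not_nil_of_cls {V M : Type} [AddCommGroup M] {Γ : SimpleGraph V} {κ : V → V → M} {u : V}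
    {c : Γ.Walk u u} (h : cls κ c ≠ 0) : ¬ c.Nil := by
  intro hn
  cases c with
  | nil => exact h cls_nil
  | cons h' p => simp at hn

end CrossAux

open CrossAux

theorem tCross (hGrid : S_Grid) (hGeoV : S_GeoV) (hPixX : S_PixX) (hPotA : S_PotA)
    (hPotB : S_PotB) (hPotZ : S_PotZ) (hDet : S_Det) (hCrB : S_CrB) (hHit : S_Hit) : S_Cross := by
  intro x
  have _ := hGeoV
  obtain ⟨N1, hN1⟩ := hPixX x (1 / 2) (mm x '' an (1 / 2) (1 / 8))
    ((mm x).isOpenMap _ (isOpen_an _ _)) (fun t => ⟨_, ⟨1 / 2, t, by norm_num, rfl⟩, rfl⟩)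
  obtain ⟨N2, hN2⟩ := hCrB x
  refine ⟨max (max N1 N2) 3, fun N hN => ?_⟩
  have hN1' : N1 ≤ N := le_trans (le_trans (le_max_left _ _) (le_max_left _ _)) hN
  have hN2' : N2 ≤ N := le_trans (le_trans (le_max_right _ _) (le_max_left _ _)) hN
  have hN3 : 3 ≤ N := le_trans (le_max_right _ _) hN
  obtain ⟨D, hD, hDg⟩ := hN1 N hN1'
  obtain ⟨u, v, p, q, huv, hess, hpg, hqg⟩ := hN2 N hN2'
  obtain ⟨hAnti, -, -⟩ := hGrid N hN3
  obtain ⟨y, d, hd, hdD⟩ := hD
  have hdn : ¬ d.Nil := not_nil_of_cls hd.2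
  have hqn : ¬ q.Nil := by
    intro h
    exact huv h.eq.symm
  have hpqn : ¬ (p.append q).Nil := not_nil_of_cls hess.2
  have hDC : EC (GN N) (kN N) D := ⟨y, d, hd, hdD⟩
  have hC'g : geo N (eds (p.append q)) ⊆ mm x '' bn (1 / 2) (1 / 4) := by
    rw [eds_append]
    intro z hz
    rcases geo_union _ _ hz with hz | hz
    · exact Set.image_mono (bx_bn _ _ _ _) (hpg hz)
    · exact Set.image_mono (bx_bn _ _ _ _) (hqg hz)
  -- the vertices of `D` are not on `q`
  have hq : ∀ z ∈ vts D, z ∉ q.support := by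
    intro z hz hzq
    have hz' : z ∈ vts (eds q) := by
      rw [vts_eds_of_ne hqn]
      exact hzq
    rw [← hdD] at hz
    obtain ⟨a, ha, hag⟩ := vts_geo d hz
    obtain ⟨b, hb, hbg⟩ := vts_geo q hz'
    rw [pr_gp_red (by omega) (show red N a = red N b by rw [ha, hb]), hdD] at hag
    obtain ⟨s, hs, hs'⟩ := hDg hag
    obtain ⟨t, ht, ht'⟩ := hqg hbg
    have hst : s = t := (mm x).injective (by rw [hs', ht'])
    rw [← hst] at ht
    exact Set.disjoint_left.1 disj hs ht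
  obtain ⟨φA, hφA⟩ := hPotA x (1 / 2) N hN3
  obtain ⟨φB, hφB⟩ := hPotB x (1 / 2) N hN3
  -- `D` meets `p`
  have hp : ∃ z ∈ vts D, z ∈ p.support := by
    by_contra hcon
    push Not at hcon
    have hdis : ∀ z ∈ d.support, z ∉ (p.append q).support := by
      intro z hz hz'
      have hzD : z ∈ vts D := by
        rw [← hdD, vts_eds_of_ne hdn]
        exact hz
      rw [Walk.mem_support_append_iff] at hz'
      rcases hz' with h | h
      · exact hcon z hzD h
      · exact hq z hzD h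
    have h0 := hDet N hN3 y d u (p.append q) hd hdis
    have c1 : cls (kN N) d ∈ AddSubgroup.zmultiples (e2 x.2) := by
      apply hPotZ (VN N) (ℤ × ℤ) _ (GN N) (kN N) φA (e2 x.2) y d
      intro a b hab
      apply hφA a b (d.adj_of_mem_edges hab)
      refine subset_trans ?_ (Set.image_mono (an_mono (by norm_num : (1 / 8 : ℝ) ≤ 1 / 2)))
      refine subset_trans (geo_mono ?_) hDg
      rw [← hdD]
      exact Set.singleton_subset_iff.2 hab
    have c2 : cls (kN N) (p.append q) ∈ AddSubgroup.zmultiples (e1 x.2) := by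
      apply hPotZ (VN N) (ℤ × ℤ) _ (GN N) (kN N) φB (e1 x.2) u (p.append q)
      intro a b hab
      apply hφB a b ((p.append q).adj_of_mem_edges hab)
      refine subset_trans ?_ (Set.image_mono (bn_mono (by norm_num : (1 / 4 : ℝ) ≤ 1 / 2)))
      refine subset_trans (geo_mono ?_) hC'g
      exact Set.singleton_subset_iff.2 hab
    obtain ⟨n, hn⟩ := AddSubgroup.mem_zmultiples_iff.1 c1
    obtain ⟨n', hn'⟩ := AddSubgroup.mem_zmultiples_iff.1 c2
    rw [← hn, ← hn', dz_aux, neg_eq_zero, mul_eq_zero] at h0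
    rcases h0 with h0 | h0
    · apply hd.2
      rw [← hn, h0, zero_smul]
    · apply hess.2
      rw [← hn', h0, zero_smul]
  obtain ⟨C1, hC1, hC1s, hI⟩ := hHit (VN N) (ℤ × ℤ) _ (GN N) (kN N) hAnti D hDC u v p q huv hess
    hq hp
  have hDs : ∀ a b, s(a, b) ∈ D ∪ C1 → s(a, b) ∈ D ∪ eds p := by
    intro a b h
    rcases h with h | h
    · exact Or.inl h
    · exact hC1s h
  refine ⟨D, C1, eds (p.append q), hDC, hC1, ⟨u, p.append q, hess, rfl⟩, hDg, hC'g, ?_,
    Or.inr (Or.inr (Or.inl hI))⟩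
  right; right; right
  refine ⟨φA, e2 x.2, fun a b hab => ?_⟩
  have hab' := hDs a b hab
  apply hφA a b
  · rcases hab' with h | h
    · rw [← hdD] at h
      exact d.adj_of_mem_edges h
    · exact p.adj_of_mem_edges h
  · rcases hab' with h | h
    · refine subset_trans (geo_mono (Set.singleton_subset_iff.2 h)) (subset_trans hDg ?_)
      exact Set.image_mono (an_mono (by norm_num))
    · refine subset_trans (geo_mono (Set.singleton_subset_iff.2 h)) (subset_trans hpg ?_)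
      exact Set.image_mono (subset_trans (bx_an _ _ _ _) (an_mono (by norm_num)))

end Pool.Agent.MPe54d61.TC
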