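import Pool.Agent.Lib.MP_e54d61_gt.TC.SpecA

/-!
# MP_e54d61_gt, torus case: cutting along a circle which is fixed pointwise
-/

set_option autoImplicit false

namespace Pool.Agent.MPe54d61.TC

open Topology MatrixGroups

private theorem Cut_side (w : Y ≃ₜ Y) (c D : ℝ) (h1 : ∀ z, |(w z).1 - z.1| ≤ D)
    (h2 : ∀ z, z.1 = c → w z = z) :
    (∀ z, z.1 < c → (w z).1 < c) ∧ (∀ z, c < z.1 → c < (w z).1) := by
  have hne : ∀ z, z.1 ≠ c → (w z).1 ≠ c := by
    intro z hz hw
    have h3 := h2 (w z) hw
    have h4 := w.injective h3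
    rw [h4] at hw
    exact hz hw
  have hcont : Continuous fun z : Y => (w z).1 := continuous_fst.comp w.continuous
  have hD : 0 ≤ D := (abs_nonneg _).trans (h1 (0, 0))
  constructor
  · intro z hz
    by_contra hcon
    rw [not_lt] at hcon
    have hpre : IsPreconnected (Set.Iio c ×ˢ (Set.univ : Set Ci)) :=
      isPreconnected_Iio.prod isPreconnected_univ
    let z0 : Y := (c - D - 1, 0)
    have hz0 : z0 ∈ Set.Iio c ×ˢ (Set.univ : Set Ci) := by
      refine ⟨?_, Set.mem_univ _⟩
      show c - D - 1 < c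
      linarith
    have hz1 : z ∈ Set.Iio c ×ˢ (Set.univ : Set Ci) := ⟨hz, Set.mem_univ _⟩
    have h3 := hpre.intermediate_value hz0 hz1 hcont.continuousOn
    have h4 : (w z0).1 ≤ c := by
      have h5 := (abs_le.1 (h1 z0)).2
      have h6 : z0.1 = c - D - 1 := rfl
      rw [h6] at h5
      linarith
    obtain ⟨y, hy, hyc⟩ := h3 ⟨h4, hcon⟩
    exact hne y (ne_of_lt hy.1) hyc
  · intro z hz
    by_contra hcon
    rw [not_lt] at hcon
    have hpre : IsPreconnected (Set.Ioi c ×ˢ (Set.univ : Set Ci)) :=
      isPreconnected_Ioi.prod isPreconnected_univ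
    let z0 : Y := (c + D + 1, 0)
    have hz0 : z0 ∈ Set.Ioi c ×ˢ (Set.univ : Set Ci) := by
      refine ⟨?_, Set.mem_univ _⟩
      show c < c + D + 1
      linarith
    have hz1 : z ∈ Set.Ioi c ×ˢ (Set.univ : Set Ci) := ⟨hz, Set.mem_univ _⟩
    have h3 := hpre.intermediate_value hz1 hz0 hcont.continuousOn
    have h4 : c ≤ (w z0).1 := by
      have h5 := (abs_le.1 (h1 z0)).1
      have h6 : z0.1 = c + D + 1 := rfl
      rw [h6] at h5
      linarith
    obtain ⟨y, hy, hyc⟩ := h3 ⟨hcon, h4⟩
    exact hne y (ne_of_gt hy.1) hyc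

private theorem Cut_le (w : Y ≃ₜ Y) (c D : ℝ) (h1 : ∀ z, |(w z).1 - z.1| ≤ D)
    (h2 : ∀ z, z.1 = c → w z = z) :
    (∀ z, z.1 ≤ c → (w z).1 ≤ c) ∧ (∀ z, c ≤ z.1 → c ≤ (w z).1) := by
  obtain ⟨h3, h4⟩ := Cut_side w c D h1 h2
  constructor
  · intro z hz
    rcases hz.lt_or_eq with h | h
    · exact (h3 z h).le
    · rw [h2 z h]
      exact hz
  · intro z hz
    rcases hz.lt_or_eq with h | h
    · exact (h4 z h).le
    · rw [h2 z h.symm]
      exact hz

theorem tCut : S_Cut := by
  intro w c D h1 h2
  have h1' : ∀ z, |(w.symm z).1 - z.1| ≤ D := by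
    intro z
    have h3 := h1 (w.symm z)
    rw [w.apply_symm_apply, abs_sub_comm] at h3
    exact h3
  have h2' : ∀ z, z.1 = c → w.symm z = z := by
    intro z hz
    rw [Homeomorph.symm_apply_eq, h2 z hz]
  obtain ⟨h3, h4⟩ := Cut_le w c D h1 h2
  obtain ⟨h5, h6⟩ := Cut_le w.symm c D h1' h2'
  have hc1 : Continuous fun z : Y => if z.1 ≤ c then w z else z :=
    Continuous.if_le w.continuous continuous_id continuous_fst continuous_const
      fun z hz => h2 z hz
  have hc2 : Continuous fun z : Y => if z.1 ≤ c then w.symm z else z :=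
    Continuous.if_le w.symm.continuous continuous_id continuous_fst continuous_const
      fun z hz => h2' z hz
  let u : Y ≃ₜ Y :=
    { toFun := fun z => if z.1 ≤ c then w z else z
      invFun := fun z => if z.1 ≤ c then w.symm z else z
      left_inv := by
        intro z
        by_cases hz : z.1 ≤ c
        · show (if (if z.1 ≤ c then w z else z).1 ≤ c then w.symm (if z.1 ≤ c then w z else z)
            else (if z.1 ≤ c then w z else z)) = z
          rw [if_pos hz, if_pos (h3 z hz), w.symm_apply_apply]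
        · show (if (if z.1 ≤ c then w z else z).1 ≤ c then w.symm (if z.1 ≤ c then w z else z)
            else (if z.1 ≤ c then w z else z)) = z
          rw [if_neg hz, if_neg hz]
      right_inv := by
        intro z
        by_cases hz : z.1 ≤ c
        · show (if (if z.1 ≤ c then w.symm z else z).1 ≤ c then
            w (if z.1 ≤ c then w.symm z else z)
            else (if z.1 ≤ c then w.symm z else z)) = z
          rw [if_pos hz, if_pos (h5 z hz), w.apply_symm_apply]
        · show (if (if z.1 ≤ c then w.symm z else z).1 ≤ c then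
            w (if z.1 ≤ c then w.symm z else z)
            else (if z.1 ≤ c then w.symm z else z)) = z
          rw [if_neg hz, if_neg hz]
      continuous_toFun := hc1
      continuous_invFun := hc2 }
  refine ⟨u, ?_, ?_, h3, h4⟩
  · intro z hz
    show (if z.1 ≤ c then w z else z) = w z
    rw [if_pos hz]
  · intro z hz
    show (if z.1 ≤ c then w z else z) = z
    by_cases hz' : z.1 ≤ c
    · rw [if_pos hz']
      exact h2 z (le_antisymm hz' hz)
    · rw [if_neg hz']

end Pool.Agent.MPe54d61.TC
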