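import Pool.Agent.Lib.MP_e54d61_gt.TC.SpecH

/-!
# MP_e54d61_gt, torus case: the sum of the differences of a multivalued function along a closed chain
-/

set_option autoImplicit false

namespace Pool.Agent.MPe54d61.TC

theorem tCycSum : S_CycSum := by
  intro N _ c κ hc l u
  obtain ⟨h1, h2⟩ := hc
  have hN : (N : ℝ) ≠ 0 := Nat.cast_ne_zero.2 (NeZero.ne N)
  have ha : ∑ k, ∑ p, (c k p : ℝ) * ((ei k).1 : ℝ) = (N : ℝ) * (κ.1 : ℝ) := by
    have := congrArg (fun z : ℤ × ℤ => (z.1 : ℝ)) h2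
    simpa [Prod.fst_sum] using this
  have hb : ∑ k, ∑ p, (c k p : ℝ) * ((ei k).2 : ℝ) = (N : ℝ) * (κ.2 : ℝ) := by
    have := congrArg (fun z : ℤ × ℤ => (z.2 : ℝ)) h2
    simpa [Prod.snd_sum] using this
  have hd : ∑ k, ∑ p, (c k p : ℝ) * (u (p + ed N k) - u p) = 0 := by
    have e1 : ∀ k, ∑ p, (c k p : ℝ) * u (p + ed N k) =
        ∑ p, (c k (p - ed N k) : ℝ) * u p := fun k => by
      rw [← Equiv.sum_comp (Equiv.addRight (ed N k)) (fun p => (c k (p - ed N k) : ℝ) * u p)]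
      simp
    have e2 : ∀ p, ∑ k, ((c k p : ℝ) - (c k (p - ed N k) : ℝ)) = 0 := fun p => by
      have := congrArg (fun z : ℤ => (z : ℝ)) (h1 p)
      simpa using this
    calc ∑ k, ∑ p, (c k p : ℝ) * (u (p + ed N k) - u p)
        = ∑ k, ∑ p, -(u p * ((c k p : ℝ) - (c k (p - ed N k) : ℝ))) := by
          refine Finset.sum_congr rfl fun k _ => ?_
          simp only [mul_sub, Finset.sum_sub_distrib, e1, Finset.sum_neg_distrib]
          rw [neg_sub]
          refine congrArg₂ _ ?_ ?_ <;> refine Finset.sum_congr rfl fun p _ => by ring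
      _ = ∑ p, -(u p * ∑ k, ((c k p : ℝ) - (c k (p - ed N k) : ℝ))) := by
          rw [Finset.sum_comm]
          refine Finset.sum_congr rfl fun p _ => ?_
          rw [Finset.mul_sum, Finset.sum_neg_distrib]
      _ = 0 := by simp [e2]
  have hs : ∀ k p, (c k p : ℝ) * DU l u k p =
      ((l.1 : ℝ) / N * ((c k p : ℝ) * ((ei k).2 : ℝ)) - (l.2 : ℝ) / N * ((c k p : ℝ) * ((ei k).1 : ℝ))) +
        (c k p : ℝ) * (u (p + ed N k) - u p) := fun k p => by
    simp only [DU, dt, iv, EE]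
    ring
  simp only [hs, Finset.sum_add_distrib, Finset.sum_sub_distrib, ← Finset.mul_sum]
  rw [hd, ha, hb]
  simp only [dt, iv]
  field_simp
  ring

end Pool.Agent.MPe54d61.TC
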