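import Pool.Agent.Lib.MP_e54d61_gt.TC.SpecH

/-!
# MP_e54d61_gt, torus case, part H: descent to the torus (helper34)
-/

set_option autoImplicit false

namespace Pool.Agent.MPe54d61.TC

namespace DescAux

/-- the projection of the plane is an open quotient map -/
theorem pr_open : IsOpenQuotientMap pr := by
  have h : IsOpenQuotientMap (fun x : ℝ => (x : Ci)) := QuotientAddGroup.isOpenQuotientMap_mk
  exact h.prodMap h

/-- fibres of the projection of the line -/
theorem coe_eq {x y : ℝ} (h : (x : Ci) = (y : Ci)) : ∃ n : ℤ, y = x + n := by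
  have h1 : ((y - x : ℝ) : Ci) = 0 := by
    rw [AddCircle.coe_sub, h, sub_self]
  obtain ⟨n, hn⟩ := (AddCircle.coe_eq_zero_iff (1 : ℝ)).1 h1
  refine ⟨n, ?_⟩
  have h2 : (n : ℝ) = y - x := by simpa using hn
  linarith

/-- fibres of the projection of the plane -/
theorem pr_eq {z z' : P} (h : pr z = pr z') : ∃ v : ℤ × ℤ, z' = z + iv v := by
  obtain ⟨n, hn⟩ := coe_eq (congrArg Prod.fst h)
  obtain ⟨k, hk⟩ := coe_eq (congrArg Prod.snd h)
  exact ⟨(n, k), Prod.ext hn hk⟩

/-- the projection is invariant -/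
theorem pr_add (z : P) (v : ℤ × ℤ) : pr (z + iv v) = pr z := by
  have h (x : ℝ) (n : ℤ) : ((x + n : ℝ) : Ci) = x := by
    have h1 : ((n : ℝ) : Ci) = 0 := (AddCircle.coe_eq_zero_iff (1 : ℝ)).2 ⟨n, by simp⟩
    rw [AddCircle.coe_add, h1, add_zero]
  exact Prod.ext (h z.1 v.1) (h z.2 v.2)

/-- the map of the torus -/
noncomputable def mp (F : P → P) (t : T) : T := pr (F (Function.surjInv pr_open.surjective t))

theorem mp_pr {F : P → P} (hF : ∀ (z : P) (v : ℤ × ℤ), F (z + iv v) = F z + iv v) (z : P) :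
    mp F (pr z) = pr (F z) := by
  obtain ⟨v, hv⟩ := pr_eq (Function.surjInv_eq pr_open.surjective (pr z)).symm
  rw [mp, hv, hF, pr_add]

theorem mp_cont {F : P → P} (hF : ∀ (z : P) (v : ℤ × ℤ), F (z + iv v) = F z + iv v)
    (hc : Continuous F) : Continuous (mp F) := by
  rw [pr_open.isQuotientMap.continuous_iff]
  have h : mp F ∘ pr = pr ∘ F := funext (mp_pr hF)
  rw [h]
  exact pr_open.continuous.comp hc

theorem mp_comp {F G : P → P} (hF : ∀ (z : P) (v : ℤ × ℤ), F (z + iv v) = F z + iv v)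
    (hG : ∀ (z : P) (v : ℤ × ℤ), G (z + iv v) = G z + iv v) (h : ∀ z, F (G z) = z) (t : T) :
    mp F (mp G t) = t := by
  obtain ⟨z, rfl⟩ := pr_open.surjective t
  rw [mp_pr hG, mp_pr hF, h]

end DescAux

open DescAux in
theorem tDesc : S_Desc := by
  intro Φ hΦ
  have hs : ∀ (z : P) (v : ℤ × ℤ), Φ.symm (z + iv v) = Φ.symm z + iv v := by
    intro z v
    rw [Homeomorph.symm_apply_eq, hΦ, Φ.apply_symm_apply]
  exact ⟨{ toFun := mp Φ
           invFun := mp Φ.symm
           left_inv := mp_comp hs hΦ Φ.symm_apply_apply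
           right_inv := mp_comp hΦ hs Φ.apply_symm_apply
           continuous_toFun := mp_cont hΦ Φ.continuous
           continuous_invFun := mp_cont hs Φ.symm.continuous },
    fun z => (mp_pr hΦ z).symm⟩

end Pool.Agent.MPe54d61.TC
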