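import Pool.Agent.Lib.MP_e54d61_gt.TC.SpecS

/-!
# MP_e54d61_gt, torus case, part S: intersection numbers (`S_Det`)
-/

set_option autoImplicit false

namespace Pool.Agent.MPe54d61.TC

open SimpleGraph MatrixGroups

theorem tDet (h1 : S_Mn) : S_Det := by
  intro N hN x c y d hc hd
  have hN0 : NeZero N := ⟨by omega⟩
  obtain ⟨φ, hφ⟩ := h1 N hN0 hN x c hc
  have h2 : cls (tw (cls (kN N) c) φ) d = dz (cls (kN N) c) (cls (kN N) d) := by
    rw [cls_tw, sub_self, zero_add]
  have h3 : cls (tw (cls (kN N) c) φ) d = 0 := by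
    refine cls_eq_zero d fun a b hab he => ?_
    have ha : a ∉ c.support := fun h => hd a h (Walk.fst_mem_support_of_mem_edges d he)
    have hb : b ∉ c.support := fun h => hd b h (Walk.snd_mem_support_of_mem_edges d he)
    obtain ⟨-, h4, h5, -⟩ := hφ a b hab
    rcases h4 hb with h | h
    · exact h
    · rcases h5 ha with h' | h'
      · exact h'
      · rw [h] at h'
        norm_num at h'
  rw [h3] at h2
  exact h2.symm

end Pool.Agent.MPe54d61.TC
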