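import Pool.Agent.Lib.MP_e54d61_gt.TC.SpecS

/-!
# MP_e54d61_gt, torus case: the three paths of a theta graph have disjoint edges (`S_Dis3`)
-/

set_option autoImplicit false

namespace Pool.Agent.MPe54d61.TC

open SimpleGraph

namespace Dis3Aux

variable {V M : Type} [AddCommGroup M] {Γ : SimpleGraph V} {κ : V → V → M}

/-- a path which contains the edge between its ends is this edge -/
private theorem path_edge {x y : V} (hxy : x ≠ y) (p : Γ.Walk y x) (hp : p.IsPath)
    (h : s(x, y) ∈ p.edges) : cls κ p = κ y x := by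
  cases p with
  | nil => simp at h
  | @cons _ z _ hyz q =>
    rw [Walk.cons_isPath_iff] at hp
    rw [Walk.edges_cons, List.mem_cons] at h
    rcases h with h | h
    · have hz : z = x := by
        rw [Sym2.eq_iff] at h
        rcases h with ⟨h1, _⟩ | ⟨h1, _⟩
        · exact absurd h1 hxy
        · exact h1.symm
      subst hz
      have hq : q = Walk.nil := Walk.eq_nil_iff_nil.2 (Walk.isPath_iff_nil.1 hp.1)
      subst hq
      simp
    · exact absurd (Walk.snd_mem_support_of_mem_edges q h) hp.2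

/-- the end of a walk which is not nil -/
private theorem mem_tail {x y : V} {p : Γ.Walk x y} (h : ¬ p.Nil) : y ∈ p.support.tail :=
  Walk.end_mem_tail_support h

/-- the second walk is a path if the ends are different -/
private theorem isPath_right {x y : V} (hxy : x ≠ y) (s : Γ.Walk x y) (α : Γ.Walk y x)
    (h : Ess κ (s.append α)) : α.IsPath := by
  rw [ess_append_iff] at h
  obtain ⟨-, h2, h3, -⟩ := h
  have h4 : y ∈ s.support.tail := Walk.end_mem_tail_support_of_ne hxy s
  rw [Walk.isPath_def, ← Walk.cons_tail_support, List.nodup_cons]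
  exact ⟨fun h5 => h3 h4 h5, h2⟩

/-- if the first path is nil then the classes are equal -/
private theorem nil_aux {x y : V} (s : Γ.Walk x y) (α β : Γ.Walk y x)
    (hα : Ess κ (s.append α)) (hβ : Ess κ (s.append β))
    (hne : cls κ (s.append α) ≠ cls κ (s.append β)) : ¬ α.Nil := by
  intro hn
  have hxy := hn.eq
  subst hxy
  have h1 : α = Walk.nil := Walk.eq_nil_iff_nil.2 hn
  subst h1
  rw [ess_append_iff] at hα hβ
  have hs : ¬ s.Nil := by
    intro h
    have h2 : s = Walk.nil := Walk.eq_nil_iff_nil.2 h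
    subst h2
    exact hα.2.2.2 (by simp)
  by_cases hb : β.Nil
  · have h3 : β = Walk.nil := Walk.eq_nil_iff_nil.2 hb
    subst h3
    exact hne rfl
  · exact hβ.2.2.1 (mem_tail hs) (mem_tail hb)

end Dis3Aux

open Dis3Aux in
theorem tDis3 (h1 : S_Trl) : S_Dis3 := by
  intro V M hV hM Γ κ hκ x y s α β hα hβ hz hne
  obtain ⟨hT, hE⟩ := h1 V M hV hM Γ κ hκ
  have hna : (s.append α).edges.Nodup := hT x _ hα
  have hnb : (s.append β).edges.Nodup := hT x _ hβ
  rw [Walk.edges_append, List.nodup_append'] at hna hnb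
  obtain ⟨hs1, ha1, hsa⟩ := hna
  obtain ⟨-, hb1, hsb⟩ := hnb
  have hab : ∀ a b : V, s(a, b) ∈ α.edges → s(a, b) ∉ β.edges := by
    intro a b ha hb
    have hadj : Γ.Adj a b := α.adj_of_mem_edges ha
    have hane : a ≠ b := hadj.ne
    have ha2 := hz a (Walk.fst_mem_support_of_mem_edges α ha) (Walk.fst_mem_support_of_mem_edges β hb)
    have hb2 := hz b (Walk.snd_mem_support_of_mem_edges α ha) (Walk.snd_mem_support_of_mem_edges β hb)
    have hxy : x ≠ y ∧ s(a, b) = s(x, y) := by
      rcases ha2 with h | h <;> rcases hb2 with h' | h'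
      · exact absurd (h.trans h'.symm) hane
      · refine ⟨fun h2 => hane (by rw [h, h', h2]), by rw [h, h']⟩
      · refine ⟨fun h2 => hane (by rw [h, h', h2]), by rw [h, h', Sym2.eq_swap]⟩
      · exact absurd (h.trans h'.symm) hane
    rw [hxy.2] at ha hb
    apply hne
    rw [cls_append, cls_append, path_edge hxy.1 α (isPath_right hxy.1 s α hα) ha,
      path_edge hxy.1 β (isPath_right hxy.1 s β hβ) hb]
  refine ⟨nil_aux s α β hα hβ hne, nil_aux s β α hβ hα hne.symm, fun a b => ?_⟩
  obtain ⟨s2, s3⟩ := hE x y s hs1 a b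
  obtain ⟨a2, a3⟩ := hE y x α ha1 a b
  obtain ⟨b2, b3⟩ := hE y x β hb1 a b
  refine ⟨?_, s3, a3, b3⟩
  have e1 : cc s a b ≠ 0 → cc α a b = 0 := fun h => by
    by_contra h'
    exact hsa (s3.2 h) (a3.2 h')
  have e2 : cc s a b ≠ 0 → cc β a b = 0 := fun h => by
    by_contra h'
    exact hsb (s3.2 h) (b3.2 h')
  have e3 : cc α a b ≠ 0 → cc β a b = 0 := fun h => by
    by_contra h'
    exact hab a b (a3.2 h) (b3.2 h')
  by_cases c1 : cc s a b = 0
  · by_cases c2 : cc α a b = 0
    · rw [c1, c2, abs_zero, zero_add, zero_add]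
      exact b2
    · rw [c1, e3 c2, abs_zero, zero_add, add_zero]
      exact a2
  · rw [e1 c1, e2 c1, abs_zero, add_zero, add_zero]
    exact s2

end Pool.Agent.MPe54d61.TC
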