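import Pool.Agent.Lib.MP_e54d61_gt.TC.SpecA

/-! # MP_e54d61_gt, torus case: Dsp -/

set_option autoImplicit false

namespace Pool.Agent.MPe54d61.TC

private noncomputable def Dsp_g (R s x : ℝ) : ℝ :=
  R * ((R + x) * Real.exp (3 * s) - (R - x)) / ((R + x) * Real.exp (3 * s) + (R - x))

private theorem Dsp_den {R x : ℝ} (hR : 0 < R) (h1 : -R ≤ x) (h2 : x ≤ R) (s : ℝ) :
    0 < (R + x) * Real.exp (3 * s) + (R - x) := by
  have hE := Real.exp_pos (3 * s)
  rcases eq_or_lt_of_le h2 with h | h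
  · subst h
    have : 0 < (x + x) * Real.exp (3 * s) := by positivity
    linarith
  · have : 0 ≤ (R + x) * Real.exp (3 * s) := mul_nonneg (by linarith) hE.le
    linarith

private theorem Dsp_add {R x : ℝ} (hR : 0 < R) (h1 : -R ≤ x) (h2 : x ≤ R) (s : ℝ) :
    R + Dsp_g R s x = 2 * R * ((R + x) * Real.exp (3 * s)) /
      ((R + x) * Real.exp (3 * s) + (R - x)) := by
  have hd := (Dsp_den hR h1 h2 s).ne'
  unfold Dsp_g
  field_simp
  ring

private theorem Dsp_sub {R x : ℝ} (hR : 0 < R) (h1 : -R ≤ x) (h2 : x ≤ R) (s : ℝ) :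
    R - Dsp_g R s x = 2 * R * (R - x) / ((R + x) * Real.exp (3 * s) + (R - x)) := by
  have hd := (Dsp_den hR h1 h2 s).ne'
  unfold Dsp_g
  field_simp
  ring

private theorem Dsp_mem {R x : ℝ} (hR : 0 < R) (h1 : -R ≤ x) (h2 : x ≤ R) (s : ℝ) :
    -R ≤ Dsp_g R s x ∧ Dsp_g R s x ≤ R := by
  have hd := Dsp_den hR h1 h2 s
  have hE := Real.exp_pos (3 * s)
  have a1 := Dsp_add hR h1 h2 s
  have a2 := Dsp_sub hR h1 h2 s
  have b1 : 0 ≤ R + Dsp_g R s x := by
    rw [a1]
    exact div_nonneg (mul_nonneg (by linarith) (mul_nonneg (by linarith) hE.le)) hd.le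
  have b2 : 0 ≤ R - Dsp_g R s x := by
    rw [a2]
    exact div_nonneg (mul_nonneg (by linarith) (by linarith)) hd.le
  exact ⟨by linarith, by linarith⟩

private theorem Dsp_top {R : ℝ} (hR : 0 < R) (s : ℝ) : Dsp_g R s R = R := by
  have hE := Real.exp_pos (3 * s)
  have h := Dsp_sub hR (by linarith) le_rfl s
  rw [sub_self, mul_zero, zero_div] at h
  linarith

private theorem Dsp_bot {R : ℝ} (hR : 0 < R) (s : ℝ) : Dsp_g R s (-R) = -R := by
  have h := Dsp_add hR le_rfl (by linarith : -R ≤ R) s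
  rw [add_neg_cancel, zero_mul, mul_zero, zero_div] at h
  linarith

private theorem Dsp_comp {R x : ℝ} (hR : 0 < R) (h1 : -R ≤ x) (h2 : x ≤ R) (s s' : ℝ) :
    Dsp_g R s (Dsp_g R s' x) = Dsp_g R (s + s') x := by
  have hd := Dsp_den hR h1 h2 s'
  have hm := Dsp_mem hR h1 h2 s'
  have hd2 := Dsp_den hR hm.1 hm.2 s
  have hd3 := Dsp_den hR h1 h2 (s + s')
  have e : Real.exp (3 * (s + s')) = Real.exp (3 * s) * Real.exp (3 * s') := by
    rw [← Real.exp_add]
    ring_nf
  have a1 := Dsp_add hR h1 h2 s'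
  have a2 := Dsp_sub hR h1 h2 s'
  have k1 : (R + Dsp_g R s' x) * Real.exp (3 * s) + (R - Dsp_g R s' x) =
      2 * R * ((R + x) * Real.exp (3 * (s + s')) + (R - x)) /
        ((R + x) * Real.exp (3 * s') + (R - x)) := by
    rw [a1, a2, e]
    field_simp
  have k2 : (R + Dsp_g R s' x) * Real.exp (3 * s) - (R - Dsp_g R s' x) =
      2 * R * ((R + x) * Real.exp (3 * (s + s')) - (R - x)) /
        ((R + x) * Real.exp (3 * s') + (R - x)) := by
    rw [a1, a2, e]
    field_simp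
  have e1 : Dsp_g R s (Dsp_g R s' x) = R * ((R + Dsp_g R s' x) * Real.exp (3 * s) -
    (R - Dsp_g R s' x)) / ((R + Dsp_g R s' x) * Real.exp (3 * s) + (R - Dsp_g R s' x)) := rfl
  rw [e1, k1, k2]
  have e2 : Dsp_g R (s + s') x = R * ((R + x) * Real.exp (3 * (s + s')) - (R - x)) /
    ((R + x) * Real.exp (3 * (s + s')) + (R - x)) := rfl
  rw [e2]
  have hd' := hd.ne'
  have hd3' := hd3.ne'
  have hR' := hR.ne'
  field_simp

private theorem Dsp_zero {R x : ℝ} (hR : 0 < R) : Dsp_g R 0 x = x := by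
  have e1 : Dsp_g R 0 x = R * ((R + x) * Real.exp (3 * 0) - (R - x)) /
    ((R + x) * Real.exp (3 * 0) + (R - x)) := rfl
  rw [e1, mul_zero, Real.exp_zero]
  have hR' := hR.ne'
  have : (R + x) * 1 + (R - x) = 2 * R := by ring
  rw [this]
  field_simp
  ring

private noncomputable def Dsp_c (R x : ℝ) : ℝ := max (-R) (min x R)

private theorem Dsp_c_mem {R : ℝ} (hR : 0 < R) (x : ℝ) : -R ≤ Dsp_c R x ∧ Dsp_c R x ≤ R :=
  ⟨le_max_left _ _, max_le (by linarith) (min_le_right _ _)⟩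

private theorem Dsp_c_cases {R : ℝ} (hR : 0 < R) (x : ℝ) :
    (-R ≤ x ∧ x ≤ R ∧ Dsp_c R x = x) ∨ (R ≤ x ∧ Dsp_c R x = R) ∨ (x ≤ -R ∧ Dsp_c R x = -R) := by
  unfold Dsp_c
  rcases le_total x (-R) with h | h
  · right
    right
    refine ⟨h, ?_⟩
    rw [min_eq_left (by linarith), max_eq_left h]
  · rcases le_total x R with h' | h'
    · left
      refine ⟨h, h', ?_⟩
      rw [min_eq_left h', max_eq_right h]
    · right
      left
      refine ⟨h', ?_⟩
      rw [min_eq_right h', max_eq_right (by linarith)]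

private noncomputable def Dsp_f (R s x : ℝ) : ℝ := x - Dsp_c R x + Dsp_g R s (Dsp_c R x)

private theorem Dsp_cf {R : ℝ} (hR : 0 < R) (s x : ℝ) :
    Dsp_c R (Dsp_f R s x) = Dsp_g R s (Dsp_c R x) := by
  rcases Dsp_c_cases hR x with ⟨h1, h2, h3⟩ | ⟨h1, h2⟩ | ⟨h1, h2⟩
  · have hf : Dsp_f R s x = Dsp_g R s x := by
      unfold Dsp_f
      rw [h3]
      ring
    have hm := Dsp_mem hR h1 h2 s
    rw [hf, h3]
    rcases Dsp_c_cases hR (Dsp_g R s x) with ⟨_, _, h⟩ | ⟨h, h'⟩ | ⟨h, h'⟩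
    · exact h
    · rw [h']
      exact le_antisymm h hm.2
    · rw [h']
      exact le_antisymm hm.1 h
  · have hf : Dsp_f R s x = x := by
      unfold Dsp_f
      rw [h2, Dsp_top hR]
      ring
    rw [hf, h2, Dsp_top hR]
  · have hf : Dsp_f R s x = x := by
      unfold Dsp_f
      rw [h2, Dsp_bot hR]
      ring
    rw [hf, h2, Dsp_bot hR]

private theorem Dsp_f_add {R : ℝ} (hR : 0 < R) (s s' x : ℝ) :
    Dsp_f R (s + s') x = Dsp_f R s (Dsp_f R s' x) := by
  have h := Dsp_cf hR s' x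
  have hm := Dsp_c_mem hR x
  have e : Dsp_f R s (Dsp_f R s' x) = Dsp_f R s' x - Dsp_c R (Dsp_f R s' x) +
    Dsp_g R s (Dsp_c R (Dsp_f R s' x)) := rfl
  rw [e, h, Dsp_comp hR hm.1 hm.2]
  unfold Dsp_f
  ring

private theorem Dsp_f_zero {R : ℝ} (hR : 0 < R) (x : ℝ) : Dsp_f R 0 x = x := by
  unfold Dsp_f
  rw [Dsp_zero hR]
  ring

private theorem Dsp_f_out {R : ℝ} (hR : 0 < R) (s x : ℝ) (hx : R ≤ |x|) : Dsp_f R s x = x := by
  unfold Dsp_f
  rcases le_abs.1 hx with h | h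
  · have h2 : Dsp_c R x = R := by
      unfold Dsp_c
      rw [min_eq_right h, max_eq_right (by linarith)]
    rw [h2, Dsp_top hR]
    ring
  · have h2 : Dsp_c R x = -R := by
      unfold Dsp_c
      rw [min_eq_left (by linarith), max_eq_left (by linarith)]
    rw [h2, Dsp_bot hR]
    ring

private theorem Dsp_cont {R : ℝ} (hR : 0 < R) : Continuous fun p : ℝ × ℝ => Dsp_f R p.1 p.2 := by
  have hc : Continuous fun p : ℝ × ℝ => Dsp_c R p.2 := by
    unfold Dsp_c
    fun_prop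
  unfold Dsp_f Dsp_g
  refine (continuous_snd.sub hc).add (Continuous.div ?_ ?_ ?_)
  · have hE : Continuous fun p : ℝ × ℝ => Real.exp (3 * p.1) := by fun_prop
    exact continuous_const.mul (((continuous_const.add hc).mul hE).sub (continuous_const.sub hc))
  · have hE : Continuous fun p : ℝ × ℝ => Real.exp (3 * p.1) := by fun_prop
    exact ((continuous_const.add hc).mul hE).add (continuous_const.sub hc)
  · intro p
    exact (Dsp_den hR (Dsp_c_mem hR p.2).1 (Dsp_c_mem hR p.2).2 p.1).ne'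

theorem tDsp : S_Dsp := by
  intro M
  have hM1 : 0 < |M| + 1 := by positivity
  obtain ⟨K, hK⟩ : ∃ K, K = |M| + 1 := ⟨_, rfl⟩
  rw [← hK] at hM1
  have hR : 0 < 2 * K := by linarith
  let φ : Flow ℝ Y :=
    { toFun := fun s z => (Dsp_f (2 * K) s z.1, z.2)
      cont' := by
        have h1 : Continuous fun p : ℝ × Y => Dsp_f (2 * K) p.1 p.2.1 :=
          (Dsp_cont hR).comp (continuous_fst.prodMk (continuous_fst.comp continuous_snd))
        exact h1.prodMk (continuous_snd.comp continuous_snd)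
      map_add' := fun s s' z => by
        show (Dsp_f (2 * K) (s + s') z.1, z.2) = (Dsp_f (2 * K) s (Dsp_f (2 * K) s' z.1), z.2)
        rw [Dsp_f_add hR]
      map_zero' := fun z => by
        show (Dsp_f (2 * K) 0 z.1, z.2) = z
        rw [Dsp_f_zero hR] }
  refine ⟨φ, ⟨2 * K, fun s z hz => ?_⟩, fun n z hn hz => ?_⟩
  · show (Dsp_f (2 * K) s z.1, z.2) = z
    rw [Dsp_f_out hR s z.1 hz]
  · show M < Dsp_f (2 * K) (n : ℝ) z.1
    have hMK : M + 1 ≤ K := by
      rw [hK]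
      linarith [le_abs_self M]
    obtain ⟨hz1, hz2⟩ := abs_le.1 hz
    have hc : Dsp_c (2 * K) z.1 = z.1 := by
      unfold Dsp_c
      rw [min_eq_left (by linarith), max_eq_right (by linarith)]
    have hf : Dsp_f (2 * K) (n : ℝ) z.1 = Dsp_g (2 * K) (n : ℝ) z.1 := by
      unfold Dsp_f
      rw [hc]
      ring
    rw [hf]
    have hl : -(2 * K) ≤ z.1 := by linarith
    have hu : z.1 ≤ 2 * K := by linarith
    have hd := Dsp_den hR hl hu (n : ℝ)
    have a2 := Dsp_sub hR hl hu (n : ℝ)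
    have hE : 9 < Real.exp (3 * (n : ℝ)) := by
      have h1 : (1 : ℝ) ≤ (n : ℝ) := by exact_mod_cast hn
      have h2 : Real.exp 3 ≤ Real.exp (3 * (n : ℝ)) := Real.exp_le_exp.2 (by linarith)
      have h3 : Real.exp 3 = Real.exp 1 ^ 3 := by
        rw [← Real.exp_nat_mul]
        norm_num
      have h4 := Real.exp_one_gt_d9
      have h5 : (2.7 : ℝ) ^ 3 ≤ Real.exp 1 ^ 3 := by
        refine pow_le_pow_left₀ (by norm_num) (by linarith) 3
      rw [h3] at h2
      norm_num at h5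
      linarith
    have h3 : 3 * (2 * K - z.1) < (2 * K + z.1) * Real.exp (3 * (n : ℝ)) := by
      have h6 : K ≤ 2 * K + z.1 := by linarith
      have h7 : K * 9 < K * Real.exp (3 * (n : ℝ)) := by
        exact mul_lt_mul_of_pos_left hE hM1
      have h8 : K * Real.exp (3 * (n : ℝ)) ≤ (2 * K + z.1) * Real.exp (3 * (n : ℝ)) :=
        mul_le_mul_of_nonneg_right h6 (Real.exp_pos _).le
      linarith
    have h9 : 2 * K - Dsp_g (2 * K) (n : ℝ) z.1 < K := by
      rw [a2, div_lt_iff₀ hd]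
      nlinarith
    linarith

end Pool.Agent.MPe54d61.TC
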