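import Pool.Agent.Lib.MP_e54d61_gt.TC.SpecB

/-!
# MP_e54d61_gt, torus case, module EcSub: inclusion of essential cycles is equality

If an edge `e` of `C'` is not in `C` then `C` is contained in the path `C' - e`; a path has a potential, so the
class of `C` would be zero.
-/

set_option autoImplicit false

namespace Pool.Agent.MPe54d61.TC

open SimpleGraph

namespace EcSubAux

variable {V M : Type} [AddCommGroup M] {Γ : SimpleGraph V} {κ : V → V → M}

/-- potential of a path -/
private theorem pot (hκ : Anti κ) {x y : V} (p : Γ.Walk x y) (hp : p.support.Nodup) :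
    ∃ φ : V → M, ∀ u v, s(u, v) ∈ eds p → κ u v = φ v - φ u := by
  classical
  induction p with
  | nil =>
    refine ⟨fun _ => 0, fun u v h => ?_⟩
    simp at h
  | @cons a b c h p ih =>
    rw [Walk.support_cons, List.nodup_cons] at hp
    obtain ⟨φ, hφ⟩ := ih hp.2
    have hba : b ≠ a := h.ne'
    refine ⟨fun z => if z = a then 0 else κ a b + φ z - φ b, fun u v huv => ?_⟩
    rw [mem_eds_cons] at huv
    rcases huv with huv | huv
    · rw [Sym2.eq_iff] at huv
      rcases huv with ⟨rfl, rfl⟩ | ⟨rfl, rfl⟩
      · simp [hba]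
      · simp [hba, hκ v u]
    · have hu : u ∈ p.support := Walk.fst_mem_support_of_mem_edges p huv
      have hv : v ∈ p.support := Walk.snd_mem_support_of_mem_edges p huv
      have hua : u ≠ a := fun h1 => hp.1 (h1 ▸ hu)
      have hva : v ≠ a := fun h1 => hp.1 (h1 ▸ hv)
      simp only [hua, hva, if_false]
      rw [hφ u v huv]
      abel

/-- classes of walks in a set of edges with a potential -/
private theorem potCls (E : Set (Sym2 V)) (φ : V → M)
    (hφ : ∀ u v, s(u, v) ∈ E → κ u v = φ v - φ u) {u v : V} (w : Γ.Walk u v) (hw : eds w ⊆ E) :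
    cls κ w = φ v - φ u := by
  induction w with
  | nil => simp
  | @cons a b c h p ih =>
    have h1 : κ a b = φ b - φ a := hφ a b (hw ((mem_eds_cons h p _).2 (Or.inl rfl)))
    have h2 : cls κ p = φ c - φ b := ih fun e he => hw ((mem_eds_cons h p e).2 (Or.inr he))
    rw [cls_cons, h1, h2]
    abel

/-- splitting a walk at an edge -/
private theorem splitEdge {x y : V} (w : Γ.Walk x y) (e : Sym2 V) (he : e ∈ eds w) :
    ∃ (u v : V) (h : Γ.Adj u v) (p1 : Γ.Walk x u) (p2 : Γ.Walk v y),
      w = p1.append (Walk.cons h p2) ∧ e = s(u, v) := by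
  induction w with
  | nil => simp at he
  | @cons a b c h p ih =>
    rw [mem_eds_cons] at he
    rcases he with he | he
    · exact ⟨a, b, h, Walk.nil, p, rfl, he⟩
    · obtain ⟨u, v, h', p1, p2, h1, h2⟩ := ih he
      refine ⟨u, v, h', Walk.cons h p1, p2, ?_, h2⟩
      rw [h1, Walk.cons_append]

end EcSubAux

open EcSubAux in
/-- inclusion of essential cycles is equality -/
theorem tEcSub : S_EcSub := by
  intro V M _ Γ κ hκ C C' hC hC' hsub
  refine Set.Subset.antisymm hsub fun e he => ?_
  by_contra heC
  obtain ⟨x, c, hc, rfl⟩ := hC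
  obtain ⟨x', c', hc', rfl⟩ := hC'
  obtain ⟨u, v, h, p1, p2, h1, h2⟩ := splitEdge c' e he
  have h3 : Ess κ ((Walk.cons h p2).append p1) := ess_comm (h1 ▸ hc')
  have h4 : (p2.append p1).support.Nodup := by
    have h5 := h3.1
    rwa [Walk.cons_append, Walk.support_cons, List.tail_cons] at h5
  obtain ⟨φ, hφ⟩ := pot hκ (p2.append p1) h4
  have h6 : eds c ⊆ eds (p2.append p1) := by
    intro f hf
    have h7 : f ∈ eds c' := hsub hf
    rw [h1, eds_append] at h7
    rw [eds_append]
    rcases h7 with h7 | h7
    · exact Or.inr h7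
    · rw [mem_eds_cons] at h7
      rcases h7 with h7 | h7
      · exact absurd (by rw [h2, ← h7]; exact hf) heC
      · exact Or.inl h7
  have h8 := potCls (eds (p2.append p1)) φ hφ c h6
  exact hc.2 (by rw [h8, sub_self])

end Pool.Agent.MPe54d61.TC
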