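import Pool.Agent.Lib.MP_e54d61_gt.TC.SpecS

/-!
# MP_e54d61_gt, torus case: the edges of the grid
-/

set_option autoImplicit false

namespace Pool.Agent.MPe54d61.TC

open SimpleGraph MatrixGroups

namespace EdAux

theorem cast_ne {N : ℕ} (hN : 3 ≤ N) (n : ℤ) (h1 : 0 < n) (h2 : n < 3) : ((n : ℤ) : ZMod N) ≠ 0 := by
  intro h
  have hd := (ZMod.intCast_zmod_eq_zero_iff_dvd n N).1 h
  have := Int.le_of_dvd h1 hd
  omega

theorem one_ne {N : ℕ} (hN : 3 ≤ N) : (1 : ZMod N) ≠ 0 := by
  have := cast_ne hN 1 (by norm_num) (by norm_num)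
  simpa using this

theorem two_ne {N : ℕ} (hN : 3 ≤ N) : (1 + 1 : ZMod N) ≠ 0 := by
  have := cast_ne hN 2 (by norm_num) (by norm_num)
  intro h
  apply this
  have e : ((2 : ℤ) : ZMod N) = 1 + 1 := by push_cast; norm_num
  rw [e, h]

theorem inj {N : ℕ} (hN : 3 ≤ N) (j k : Fin 3) (h : ed N j = ed N k) : j = k := by
  have h1 := congrArg Prod.fst h
  have h2 := congrArg Prod.snd h
  have := one_ne hN
  fin_cases j <;> fin_cases k <;> simp_all [ed, zc, ei]

theorem add_ne {N : ℕ} (hN : 3 ≤ N) (j k : Fin 3) : ed N j + ed N k ≠ 0 := by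
  intro h
  have h1 := congrArg Prod.fst h
  have h2 := congrArg Prod.snd h
  have e1 := one_ne hN
  have e2 := two_ne hN
  fin_cases j <;> fin_cases k <;> simp_all [ed, zc, ei]

end EdAux

open EdAux

/-- The edges of the grid. -/
theorem tEd : S_Ed := by
  intro N hN
  have hNZ : NeZero N := ⟨by omega⟩
  refine ⟨inj hN, add_ne hN, ?_, ?_⟩
  · intro k p
    refine ⟨?_, ((p.1.val : ℤ), (p.2.val : ℤ)), ((p.1.val : ℤ), (p.2.val : ℤ)) + ei k, ?_, ?_, ?_⟩
    · intro h
      have h0 : ed N k = 0 := by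
        have : p + 0 = p + ed N k := by rw [add_zero]; exact h
        exact (add_left_cancel this).symm
      exact add_ne hN k k (by rw [h0, add_zero])
    · rw [add_sub_cancel_left]
      fin_cases k <;> simp [ei, stp]
    · ext <;> simp [zc]
    · rw [red, zc_add]
      congr 1
      ext <;> simp [zc]
  · rintro u v ⟨-, p, q, h, rfl, rfl⟩
    have hq : q = p + (q - p) := by abel
    rw [hq]
    revert h
    generalize q - p = r
    intro h
    simp only [stp, Finset.mem_insert, Finset.mem_singleton] at h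
    have key : ∀ k : Fin 3, ∀ r : ℤ × ℤ, (r = ei k ∨ r = -ei k) →
        red N (p + r) = red N p + ed N k ∨ red N p = red N (p + r) + ed N k := by
      rintro k r (rfl | rfl)
      · left; exact zc_add p (ei k)
      · right
        show zc N p = zc N (p + -ei k) + zc N (ei k)
        rw [← zc_add]
        congr 1
        abel
    rcases h with h | h | h | h | h | h
    · exact ⟨0, key 0 r (Or.inl h)⟩
    · exact ⟨1, key 1 r (Or.inl h)⟩
    · exact ⟨2, key 2 r (Or.inl h)⟩
    · exact ⟨0, key 0 r (Or.inr (by rw [h]; rfl))⟩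
    · exact ⟨1, key 1 r (Or.inr (by rw [h]; rfl))⟩
    · exact ⟨2, key 2 r (Or.inr (by rw [h]; rfl))⟩

end Pool.Agent.MPe54d61.TC
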