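import Pool.Agent.Lib.MP_e54d61_gt.TC.SpecA

/-!
# MP_e54d61_gt, torus case: half lifts of maps supported in a box
-/

set_option autoImplicit false

namespace Pool.Agent.MPe54d61.TC

private theorem El_norm {t : ℝ} (h1 : 1 / 2 ≤ t) (h2 : t ≤ 3 / 2) (h : ‖(t : Ci)‖ ≤ 3 / 8) :
    |t - 1| ≤ 3 / 8 := by
  have h3 : (t : Ci) = ((t - 1 : ℝ) : Ci) := by
    rw [AddCircle.coe_sub, AddCircle.coe_period, sub_zero]
  have h4 : ‖((t - 1 : ℝ) : Ci)‖ = |t - 1| := by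
    rw [AddCircle.norm_coe_eq_abs_iff _ one_ne_zero, abs_one, abs_le]
    constructor <;> linarith
  rw [h3, h4] at h
  exact h

private theorem El_half : ‖((1 / 2 : ℝ) : Ci)‖ = 1 / 2 := by
  have h4 : ‖((1 / 2 : ℝ) : Ci)‖ = |(1 / 2 : ℝ)| := by
    rw [AddCircle.norm_coe_eq_abs_iff _ one_ne_zero, abs_one, abs_le]
    constructor <;> linarith
  rw [h4, abs_of_pos (by norm_num)]

private theorem El_tau (z : Y) : tau z = (z.1 + 1, z.2) := rfl

private theorem El_tau_inv (z : Y) : (tau⁻¹ : Y ≃ₜ Y) z = (z.1 - 1, z.2) := by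
  show tau.symm z = _
  rw [Homeomorph.symm_apply_eq, El_tau]
  simp

theorem tEl (hLfB : S_LfB) (hCut : S_Cut) (hBox : S_Box) : S_El := by
  intro a b h hs
  obtain ⟨a0, rfl⟩ := QuotientAddGroup.mk_surjective a
  change SuppIn (Bx (a0 : Ci) b) h at hs
  obtain ⟨G, hL, hG⟩ := hLfB (a0 : Ci) b h hs
  obtain ⟨hL1, hL2, D, hD⟩ := hL
  obtain ⟨κ, hκ⟩ : ∃ κ : ℝ, κ = a0 + 1 / 2 := ⟨_, rfl⟩
  have hfix : ∀ z : Y, z.1 = κ → G z = z := by
    intro z hz
    apply hG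
    intro hm
    have h1 : ‖(z.1 : Ci) - (a0 : Ci)‖ ≤ 3 / 8 := hm.1
    rw [hz, hκ, AddCircle.coe_add, add_sub_cancel_left, El_half] at h1
    norm_num at h1
  obtain ⟨u, hu1, hu2, hu3, hu4⟩ := hCut G κ D hD hfix
  refine ⟨G, u, ⟨hL1, hL2, D, hD⟩, |κ|, ?_, ?_, ?_⟩
  · intro z hz
    exact hu1 z (le_trans hz (neg_abs_le κ))
  · intro z hz
    exact hu2 z (le_trans (le_abs_self κ) hz)
  · apply hBox (a0 + 1) (3 / 8) b
    intro z hz
    show tau (u ((tau⁻¹ : Y ≃ₜ Y) (u.symm z))) = z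
    obtain ⟨w, hw⟩ : ∃ w, w = u.symm z := ⟨_, rfl⟩
    have hwz : u w = z := by rw [hw, Homeomorph.apply_symm_apply]
    rw [← hw]
    rcases le_total w.1 κ with h1 | h1
    · have h2 : G w = z := by rw [← hu1 w h1, hwz]
      have h3 : ((tau⁻¹ : Y ≃ₜ Y) w).1 ≤ κ := by
        rw [El_tau_inv]
        show w.1 - 1 ≤ κ
        linarith
      rw [hu1 _ h3, ← hL2]
      have h4 : tau ((tau⁻¹ : Y ≃ₜ Y) w) = w := tau.apply_symm_apply w
      rw [h4, h2]
    · have h2 : w = z := by rw [← hu2 w h1, hwz]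
      rw [h2] at h1 ⊢
      rcases le_total ((tau⁻¹ : Y ≃ₜ Y) z).1 κ with h3 | h3
      · rw [hu1 _ h3, ← hL2]
        have h4 : tau ((tau⁻¹ : Y ≃ₜ Y) z) = z := tau.apply_symm_apply z
        rw [h4]
        apply hG
        intro hm
        apply hz
        rw [El_tau_inv] at h3
        have h5 : z.1 - 1 ≤ κ := h3
        have h6 : ‖(z.1 : Ci) - (a0 : Ci)‖ ≤ 3 / 8 := hm.1
        rw [← AddCircle.coe_sub] at h6
        refine ⟨?_, hm.2⟩
        have h7 := El_norm (t := z.1 - a0) (by linarith) (by linarith) h6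
        have h8 : z.1 - (a0 + 1) = z.1 - a0 - 1 := by ring
        show |z.1 - (a0 + 1)| ≤ 3 / 8
        rw [h8]
        exact h7
      · rw [hu2 _ h3]
        exact tau.apply_symm_apply z

end Pool.Agent.MPe54d61.TC
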