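import Pool.Agent.Lib.MP_e54d61_gt.TC.SpecH

/-!
# MP_e54d61_gt, torus case: harmonic functions minimise the energy
-/

set_option autoImplicit false

namespace Pool.Agent.MPe54d61.TC

namespace EnergyAux

/-- the linear form `dt c` -/
noncomputable def dtl (c : P) : P →ₗ[ℝ] ℝ where
  toFun := dt c
  map_add' := dt_add_right c
  map_smul' := fun r b => dt_smul_right r c b

theorem dtl_apply (c b : P) : dtl c b = dt c b := rfl

theorem dv_map {N : ℕ} (L : P →ₗ[ℝ] ℝ) (w : Fin 3 → VN N → ℝ) (x : Fin 3 → VN N → P) (p : VN N) :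
    dv w (fun k p => L (x k p)) p = L (dv w x p) := by
  simp only [dv, map_sum, map_sub, map_smul]

end EnergyAux

open EnergyAux in
theorem tEnergy (hGreen : S_Green) : S_Energy := by
  intro N hN w hw f hf l u
  set x : Fin 3 → VN N → ℝ := fun k p => dt (iv l) (XX f k p) with hx
  set v : VN N → ℝ := fun p => u p - dt (iv l) (f p) with hv
  have hDU : ∀ k p, DU l u k p = x k p + DD v k p := by
    intro k p
    simp only [DU, hx, hv, DD, XX, dt_sub_right, dt_add_right]
    ring
  have hdv : ∀ p, dv w x p = 0 := by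
    intro p
    have h1 := dv_map (dtl (iv l)) w (XX f) p
    rw [hf p, map_zero] at h1
    exact h1
  have hG := hGreen N hN w x v
  have h0 : ∑ p, v p * dv w x p = 0 := by
    apply Finset.sum_eq_zero
    intro p _
    rw [hdv p, mul_zero]
  rw [h0] at hG
  have hmid : ∑ k, ∑ p, w k p * (DD v k p * x k p) = 0 := by linarith
  have hexp : ∑ k, ∑ p, w k p * DU l u k p ^ 2 =
      ∑ k, ∑ p, w k p * x k p ^ 2 + 2 * ∑ k, ∑ p, w k p * (DD v k p * x k p) +
        ∑ k, ∑ p, w k p * DD v k p ^ 2 := by
    rw [Finset.mul_sum, ← Finset.sum_add_distrib, ← Finset.sum_add_distrib]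
    apply Finset.sum_congr rfl
    intro k _
    rw [Finset.mul_sum, ← Finset.sum_add_distrib, ← Finset.sum_add_distrib]
    apply Finset.sum_congr rfl
    intro p _
    rw [hDU k p]
    ring
  have hnn : 0 ≤ ∑ k, ∑ p, w k p * DD v k p ^ 2 := by
    apply Finset.sum_nonneg
    intro k _
    apply Finset.sum_nonneg
    intro p _
    exact mul_nonneg (hw k p).le (sq_nonneg _)
  rw [hexp, hmid]
  linarith

end Pool.Agent.MPe54d61.TC
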