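import Pool.Agent.Lib.MP_e54d61_gt.TC.SpecB

/-!
# MP_e54d61_gt, torus case, module EssAt: rotation of an essential closed walk
-/

set_option autoImplicit false

namespace Pool.Agent.MPe54d61.TC

open SimpleGraph

/-- rotation of an essential closed walk -/
theorem tEssAt : S_EssAt := by
  classical
  intro V M _ Γ κ x c hc v hv
  have h1 : (c.takeUntil v hv).append (c.dropUntil v hv) = c := c.take_spec hv
  refine ⟨(c.dropUntil v hv).append (c.takeUntil v hv), ?_, ?_, ?_⟩
  · refine ess_comm ?_
    rw [h1]
    exact hc
  · rw [eds_append, Set.union_comm, ← eds_append, h1]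
  · rw [cls_append, add_comm, ← cls_append, h1]

end Pool.Agent.MPe54d61.TC
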