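import Pool.Agent.Lib.MP_e54d61_gt.TC.SpecB

/-!
# MP_e54d61_gt, torus case, part B, module EssGlue (helper23)

Essential walks from two arcs.
-/

set_option autoImplicit false

namespace Pool.Agent.MPe54d61.TC

open SimpleGraph

theorem tEssGlue : S_EssGlue := by
  intro V M _ Γ κ u v δ a hδ ha hu hz hc
  rw [ess_append_iff]
  have ha1 : a.support.Nodup := ha.support_nodup
  have ha2 : a.support = v :: a.support.tail := (Walk.cons_tail_support a).symm
  have hva : v ∉ a.support.tail := by
    rw [ha2] at ha1
    exact (List.nodup_cons.1 ha1).1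
  refine ⟨hδ, ha1.tail, ?_, hc⟩
  intro z h1 h2
  have h3 := hz z (List.mem_of_mem_tail h1) (List.mem_of_mem_tail h2)
  rcases h3 with h3 | h3
  · subst h3
    have h4 := hu h1
    subst h4
    exact hva h2
  · subst h3
    exact hva h2

end Pool.Agent.MPe54d61.TC
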