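import Pool.Agent.Lib.MP_e54d61_gt.TC.SpecB

/-!
# MP_e54d61_gt, torus case, part B: the reverse of an essential cycle
-/

set_option autoImplicit false

namespace Pool.Agent.MPe54d61.TC

open SimpleGraph

/-- Reversal of essential cycles. -/
theorem tEssRev : S_EssRev := by
  intro V M _ Γ κ hκ x c hc
  refine ⟨?_, ?_⟩
  · have h1 := hc.1
    have h2 := hc.2
    cases c with
    | nil => exact absurd rfl h2
    | cons h p =>
      rw [Walk.support_cons, List.tail_cons] at h1
      have h3 : p.support = p.support.dropLast ++ [x] := by
        have h4 := p.support_eq_concat
        rwa [List.concat_eq_append] at h4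
      have h5 : (Walk.cons h p).reverse.support.tail = p.support.dropLast.reverse ++ [x] := by
        rw [Walk.support_reverse, Walk.support_cons, h3]
        simp
      rw [h5]
      have h6 : (p.support.dropLast.reverse ++ [x]).Perm p.support := by
        conv_rhs => rw [h3]
        exact (List.reverse_perm _).append_right [x]
      exact h6.nodup_iff.mpr h1
  · rw [cls_reverse hκ]
    exact neg_ne_zero.mpr hc.2

end Pool.Agent.MPe54d61.TC
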