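import Pool.Agent.Lib.MP_e54d61_gt.TC.SpecF

set_option autoImplicit false

namespace Pool.Agent.MPe54d61.TC

open Topology

private theorem Fh_surj {X : Type} [TopologicalSpace X] (φ : Flow ℝ X) (f : X → ℝ)
    (hs : ∀ (s : ℝ) (x : X), |f (φ s x) - f x| ≤ |s| / 2) :
    Function.Surjective (fun x => φ (f x) x) := by
  intro w
  have hg : ∀ r r' : ℝ, |f (φ (-r) w) - f (φ (-r') w)| ≤ |r - r'| / 2 := by
    intro r r'
    have h1 := hs (r' - r) (φ (-r') w)
    rw [← φ.map_add] at h1
    have h2 : r' - r + -r' = -r := by ring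
    rw [h2, abs_sub_comm r' r] at h1
    exact h1
  obtain ⟨g, hgd⟩ : ∃ g : ℝ → ℝ, g = fun r => f (φ (-r) w) := ⟨_, rfl⟩
  have hcg : ContractingWith (1 / 2) g := by
    refine ⟨?_, ?_⟩
    · rw [← NNReal.coe_lt_coe]
      norm_num
    · refine LipschitzWith.of_dist_le_mul fun r r' => ?_
      rw [Real.dist_eq, Real.dist_eq, hgd]
      have h1 := hg r r'
      have h2 : (((1 / 2 : NNReal)) : ℝ) = 1 / 2 := by norm_num
      rw [h2]
      linarith
  obtain ⟨r, hr⟩ : ∃ r, g r = r := ⟨_, hcg.fixedPoint_isFixedPt⟩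
  refine ⟨φ (-r) w, ?_⟩
  show φ (f (φ (-r) w)) (φ (-r) w) = w
  have h1 : f (φ (-r) w) = r := by
    rw [hgd] at hr
    exact hr
  rw [h1, ← φ.map_add, add_neg_cancel, φ.map_zero_apply]

theorem tFh : S_Fh := by
  intro X _ _ _ φ f hf hs
  have hc : Continuous (fun x => φ (f x) x) := φ.continuous hf continuous_id
  have hinj : Function.Injective (fun x => φ (f x) x) := by
    intro x y hxy
    have hxy' : φ (f x) x = φ (f y) y := hxy
    have h1 : φ (f x - f y) x = y := by
      rw [sub_eq_add_neg, add_comm, φ.map_add, hxy', ← φ.map_add, neg_add_cancel, φ.map_zero_apply]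
    have h2 := hs (f x - f y) x
    rw [h1, abs_sub_comm] at h2
    have h3 : |f x - f y| = 0 := by linarith [abs_nonneg (f x - f y)]
    have h4 : f x - f y = 0 := abs_eq_zero.1 h3
    rw [h4, φ.map_zero_apply] at h1
    exact h1
  let e : X ≃ X := Equiv.ofBijective (fun x => φ (f x) x) ⟨hinj, Fh_surj φ f hs⟩
  have hce : Continuous e := hc
  exact ⟨hce.homeoOfEquivCompactToT2, fun x => rfl⟩

end Pool.Agent.MPe54d61.TC
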