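import Pool.Agent.Lib.MP_e54d61_gt.TC.SpecA

/-!
# MP_e54d61_gt, torus case: fibrewise increasing maps are homeomorphisms
-/

set_option autoImplicit false

namespace Pool.Agent.MPe54d61.TC

open Topology MatrixGroups

theorem tFib : S_Fib := by
  intro B _ f hf hm hs
  choose g hg using hs
  have hg' : ∀ (y : B) (x : ℝ), g y (f (x, y)) = x := fun y x =>
    (hm y).injective (hg y (f (x, y)))
  have hc : Continuous fun p : ℝ × B => g p.2 p.1 := by
    rw [continuous_iff_continuousAt]
    rintro ⟨w, y⟩
    rw [Metric.continuousAt_iff']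
    intro ε hε
    set x := g y w with hx
    have hw : f (x, y) = w := hg y w
    have h1 : f (x - ε, y) < w := by
      rw [← hw]
      exact hm y (by linarith)
    have h2 : w < f (x + ε, y) := by
      rw [← hw]
      exact hm y (by linarith)
    have c1 : Continuous fun p : ℝ × B => f (x - ε, p.2) :=
      hf.comp (continuous_const.prodMk continuous_snd)
    have c2 : Continuous fun p : ℝ × B => f (x + ε, p.2) :=
      hf.comp (continuous_const.prodMk continuous_snd)
    have e1 : ∀ᶠ p : ℝ × B in 𝓝 (w, y), f (x - ε, p.2) < p.1 :=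
      c1.continuousAt.eventually_lt continuous_fst.continuousAt h1
    have e2 : ∀ᶠ p : ℝ × B in 𝓝 (w, y), p.1 < f (x + ε, p.2) :=
      continuous_fst.continuousAt.eventually_lt c2.continuousAt h2
    filter_upwards [e1, e2] with p h3 h4
    rw [Real.dist_eq, abs_lt]
    have h5 : f (g p.2 p.1, p.2) = p.1 := hg p.2 p.1
    constructor
    · have : x - ε < g p.2 p.1 := by
        rw [← (hm p.2).lt_iff_lt, h5]
        exact h3
      change -ε < g p.2 p.1 - x
      linarith
    · have : g p.2 p.1 < x + ε := by
        rw [← (hm p.2).lt_iff_lt, h5]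
        exact h4
      change g p.2 p.1 - x < ε
      linarith
  refine ⟨⟨⟨fun z => (f z, z.2), fun z => (g z.2 z.1, z.2), fun z => ?_, fun z => ?_⟩, ?_, ?_⟩,
    fun z => rfl⟩
  · exact Prod.ext (hg' z.2 z.1) rfl
  · exact Prod.ext (hg z.2 z.1) rfl
  · exact hf.prodMk continuous_snd
  · exact hc.prodMk continuous_snd

end Pool.Agent.MPe54d61.TC
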