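import Pool.Agent.Lib.MP_e54d61_gt.TC.SpecE

/-!
# MP_e54d61_gt, torus case, part E: the end (helper34)
-/

set_option autoImplicit false

namespace Pool.Agent.MPe54d61.TC

open SimpleGraph Filter Topology

namespace FinEAux

theorem cur_smul (g : GT) (x : X) : cur (g • x) = (g : T ≃ₜ T) '' cur x := by
  ext z
  constructor
  · rintro ⟨y, rfl⟩
    exact ⟨_, ⟨y, rfl⟩, rfl⟩
  · rintro ⟨_, ⟨y, rfl⟩, rfl⟩
    exact ⟨y, rfl⟩

theorem smul_adj (g : GT) (x y : X) (h : Gr.Adj x y) : Gr.Adj (g • x) (g • y) := by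
  obtain ⟨hne, h⟩ := h
  refine ⟨fun h1 => hne (MulAction.injective g h1), ?_⟩
  rcases h with h | ⟨h, h'⟩
  · left
    rw [cur_smul, cur_smul]
    exact Set.disjoint_image_of_injective (g : T ≃ₜ T).injective h
  · right
    refine ⟨?_, h'⟩
    show g * x.1 = g * y.1
    rw [h]

end FinEAux

open FinEAux in
theorem tFinE (hNu : S_Nu) (hAdj5 : S_Adj5) (hGGE : S_GGE) (hNuLen : S_NuLen) : S_FinE := by
  intro f hs
  obtain ⟨N1, hN1⟩ := hAdj5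
  obtain ⟨hc, hGG⟩ := hGGE N1 hN1
  refine Abs.main_graph Gr hc smul_adj (LL N1) 100 hGG hNuLen ((1, 1) : X) 12 ?_ hs
  intro g
  obtain ⟨w, hw⟩ := hc.exists_walk_length_eq_dist ((1, 1) : X) (g • ((1, 1) : X))
  have h1 := hNu _ _ w
  rw [hw] at h1
  have h2 : ((((1, 1) : X).1 : GT) : T ≃ₜ T)⁻¹ * (((g • ((1, 1) : X)).1 : GT) : T ≃ₜ T) =
      (g : T ≃ₜ T) := by
    have h3 : ((g • ((1, 1) : X)).1 : GT) = g := mul_one g
    rw [h3]
    show (1 : T ≃ₜ T)⁻¹ * (g : T ≃ₜ T) = g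
    rw [inv_one, one_mul]
  rw [h2] at h1
  have h4 : nuT g ≤ 12 * Gr.dist ((1, 1) : X) (g • ((1, 1) : X)) :=
    Nat.sInf_le (s := {n | FL n (g : T ≃ₜ T)}) h1
  omega

end Pool.Agent.MPe54d61.TC
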