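import Pool.Agent.Lib.MP_e54d61_gt.TC.SpecF

/-!
# MP_e54d61_gt, torus case: fragmentation of flows
-/

set_option autoImplicit false

namespace Pool.Agent.MPe54d61.TC

open Topology MatrixGroups

/-- telescoping product in a group -/
private theorem Frag_tele {N : Type} [Group N] (g : ℕ → N) (m : ℕ) :
    ((List.range m).map (fun k => (g k)⁻¹ * g (k + 1))).prod = (g 0)⁻¹ * g m := by
  induction m with
  | zero => simp
  | succ m ih =>
    rw [List.range_succ, List.map_append, List.prod_append, ih]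
    simp [mul_assoc]

/-- powers of the time-`r` map of a flow -/
private theorem Frag_pow {X : Type} [TopologicalSpace X] (φ : Flow ℝ X) (r : ℝ) (m : ℕ) :
    (φ.toHomeomorph r) ^ m = φ.toHomeomorph ((m : ℝ) * r) := by
  induction m with
  | zero =>
    ext x
    show x = φ ((0 : ℕ) * r) x
    simp
  | succ m ih =>
    rw [pow_succ, ih]
    ext x
    show φ ((m : ℝ) * r) (φ r x) = φ (((m + 1 : ℕ) : ℝ) * r) x
    rw [← φ.map_add]
    congr 1
    push_cast
    ring

/-- a positive lower bound of finitely many positive numbers -/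
private theorem Frag_min {n : ℕ} (d : Fin n → ℝ) (hd : ∀ i, 0 < d i) :
    ∃ δ : ℝ, 0 < δ ∧ ∀ i, δ ≤ d i := by
  rcases isEmpty_or_nonempty (Fin n) with hE | hN
  · exact ⟨1, one_pos, fun i => (hE.false i).elim⟩
  · obtain ⟨i0, hi0⟩ := Finite.exists_min d
    exact ⟨d i0, hd i0, hi0⟩

/-- the set swept by a compact set is closed -/
private theorem Frag_closed {X : Type} [TopologicalSpace X] [CompactSpace X] [T2Space X]
    (φ : Flow ℝ X) (δ : ℝ) (C : Set X) (hC : IsClosed C) :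
    IsClosed ((fun p : ℝ × X => φ p.1 p.2) '' (Set.Icc (-δ) δ ×ˢ C)) := by
  refine IsCompact.isClosed ((isCompact_Icc.prod hC.isCompact).image ?_)
  exact φ.continuous continuous_fst continuous_snd

theorem tFrag (hFh : S_Fh) (hAv : S_Av) (hTube : S_Tube) : S_Frag := by
  intro X i1 i2 i3 φ n U hU hcov
  -- partition of unity
  obtain ⟨ρ, hρ⟩ := PartitionOfUnity.exists_isSubordinate_of_locallyFinite
    (isClosed_univ : IsClosed (Set.univ : Set X)) U hU (locallyFinite_of_finite U)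
    (by rw [hcov])
  have hρ0 : ∀ i x, 0 ≤ ρ i x := fun i x => ρ.nonneg i x
  have hρ1 : ∀ x, ∑ i, ρ i x = 1 := by
    intro x
    rw [← finsum_eq_sum_of_fintype]
    exact ρ.sum_eq_one (Set.mem_univ x)
  -- the tube
  have hd : ∀ i, ∃ δ : ℝ, 0 < δ ∧ ∀ (t : ℝ) (x : X), |t| ≤ δ → x ∈ tsupport (ρ i) → φ t x ∈ U i :=
    fun i => hTube X i1 i2 φ (tsupport (ρ i)) (U i) (isClosed_tsupport _) (hU i) (hρ i)
  choose d hd0 hd1 using hd
  obtain ⟨δ, hδ, hδd⟩ := Frag_min d hd0
  obtain ⟨N, hN⟩ := exists_nat_gt (2 / δ)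
  have hN0 : (0 : ℝ) < N := lt_trans (by positivity) hN
  have hNδ : 2 < (N : ℝ) * δ := by rwa [div_lt_iff₀ hδ] at hN
  -- the partial sums
  let σ : ℕ → X → ℝ := fun k x => ∑ i : Fin n, if i.val < k then ρ i x else 0
  have hσc : ∀ k, Continuous (σ k) := by
    intro k
    refine continuous_finsetSum _ fun i _ => ?_
    by_cases h : i.val < k
    · simp only [h, if_true]
      exact (ρ i).continuous
    · simp only [h, if_false]
      exact continuous_const
  have hσ01 : ∀ k x, 0 ≤ σ k x ∧ σ k x ≤ 1 := by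
    intro k x
    refine ⟨Finset.sum_nonneg fun i _ => ?_, ?_⟩
    · split_ifs
      · exact hρ0 i x
      · exact le_rfl
    · rw [← hρ1 x]
      refine Finset.sum_le_sum fun i _ => ?_
      split_ifs
      · exact le_rfl
      · exact hρ0 i x
  have hσ0 : ∀ x, σ 0 x = 0 := by
    intro x
    simp [σ]
  have hσn : ∀ x, σ n x = 1 := by
    intro x
    rw [← hρ1 x]
    refine Finset.sum_congr rfl fun i _ => ?_
    simp [i.isLt]
  have hσs : ∀ (k : ℕ) (hk : k < n) (x : X), x ∉ tsupport (ρ ⟨k, hk⟩) → σ (k + 1) x = σ k x := by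
    intro k hk x hx
    refine Finset.sum_congr rfl fun i _ => ?_
    by_cases h1 : i.val < k
    · rw [if_pos h1, if_pos (Nat.lt_succ_of_lt h1)]
    · by_cases h2 : i.val = k
      · have h3 : i = ⟨k, hk⟩ := Fin.ext h2
        rw [if_neg h1, if_pos (by omega), h3]
        exact image_eq_zero_of_notMem_tsupport hx
      · rw [if_neg h1, if_neg (by omega)]
  -- the averages
  let f : ℕ → X → ℝ := fun k x => ((∫ t in (0 : ℝ)..δ, σ k (φ t x)) / δ) / N
  have hf : ∀ k, ∃ h : X ≃ₜ X, ∀ x, h x = φ (f k x) x := by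
    intro k
    obtain ⟨hc, hb⟩ := hAv X i1 φ (σ k) δ (hσc k) (hσ01 k) hδ
    refine hFh X i1 i2 i3 φ (f k) (hc.div_const _) fun s x => ?_
    have h1 := hb s x
    show |((∫ t in (0 : ℝ)..δ, σ k (φ t (φ s x))) / δ) / N
      - ((∫ t in (0 : ℝ)..δ, σ k (φ t x)) / δ) / N| ≤ |s| / 2
    rw [← sub_div, abs_div, abs_of_pos hN0, div_le_iff₀ hN0]
    refine h1.trans ?_
    rw [div_le_iff₀ hδ]
    have h2 := abs_nonneg s
    nlinarith
  choose h hh using hf
  have hh0 : h 0 = 1 := by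
    ext x
    rw [hh 0 x]
    have h1 : f 0 x = 0 := by
      show ((∫ t in (0 : ℝ)..δ, σ 0 (φ t x)) / δ) / N = 0
      simp [hσ0]
    rw [h1, φ.map_zero_apply]
    rfl
  have hhn : h n = φ.toHomeomorph (1 / N) := by
    ext x
    rw [hh n x]
    have h1 : f n x = 1 / N := by
      show ((∫ t in (0 : ℝ)..δ, σ n (φ t x)) / δ) / N = 1 / N
      simp [hσn, hδ.ne']
    rw [h1]
    rfl
  let l0 : List (X ≃ₜ X) := (List.range n).map (fun k => (h k)⁻¹ * h (k + 1))
  have hl0 : l0.prod = φ.toHomeomorph (1 / N) := by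
    show ((List.range n).map (fun k => (h k)⁻¹ * h (k + 1))).prod = _
    rw [Frag_tele, hh0, inv_one, one_mul, hhn]
  refine ⟨(List.replicate N l0).flatten, ?_, ?_⟩
  · intro s hs
    rw [List.mem_flatten] at hs
    obtain ⟨l', hl', hs⟩ := hs
    rw [List.eq_of_mem_replicate hl'] at hs
    obtain ⟨k, hk, rfl⟩ := List.mem_map.1 hs
    have hk' : k < n := List.mem_range.1 hk
    refine ⟨⟨k, hk'⟩, (fun p : ℝ × X => φ p.1 p.2) '' (Set.Icc (-δ) δ ×ˢ tsupport (ρ ⟨k, hk'⟩)),
      Frag_closed φ δ _ (isClosed_tsupport _), ?_, ?_⟩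
    · rintro _ ⟨⟨t, x⟩, ⟨ht, hx⟩, rfl⟩
      exact hd1 ⟨k, hk'⟩ t x ((abs_le.2 ht).trans (hδd _)) hx
    · intro x hx
      have h1 : f (k + 1) x = f k x := by
        show ((∫ t in (0 : ℝ)..δ, σ (k + 1) (φ t x)) / δ) / N
          = ((∫ t in (0 : ℝ)..δ, σ k (φ t x)) / δ) / N
        have h2 : (∫ t in (0 : ℝ)..δ, σ (k + 1) (φ t x)) = ∫ t in (0 : ℝ)..δ, σ k (φ t x) := by
          refine intervalIntegral.integral_congr fun t ht => ?_
          refine hσs k hk' _ fun h3 => hx ?_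
          rw [Set.uIcc_of_le hδ.le] at ht
          refine ⟨(-t, φ t x), ⟨⟨by show -δ ≤ -t; linarith [ht.2], by show -t ≤ δ; linarith [ht.1]⟩,
            h3⟩, ?_⟩
          show φ (-t) (φ t x) = x
          rw [← φ.map_add, neg_add_cancel, φ.map_zero_apply]
        rw [h2]
      show (h k).symm (h (k + 1) x) = x
      rw [Homeomorph.symm_apply_eq, hh (k + 1) x, hh k x, h1]
  · rw [List.prod_flatten, List.map_replicate, List.prod_replicate, hl0, Frag_pow]
    congr 1
    field_simp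

end Pool.Agent.MPe54d61.TC
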