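import Pool.Agent.Lib.MP_e54d61_gt.TC.SpecE

/-!
# MP_e54d61_gt, torus case, module GGE (helper27)
-/

set_option autoImplicit false

namespace Pool.Agent.MPe54d61.TC

open SimpleGraph

private theorem dist_le_of_NR {n : ℕ} {x y : X} (h : NR n x y) : Gr.dist x y ≤ n := by
  obtain ⟨w, hw⟩ := h
  exact (SimpleGraph.dist_le w).trans hw

private theorem reach_of_chain {n : ℕ} {p : ℕ → X} (h : ∀ i < n, NR 5 (p i) (p (i + 1))) :
    Gr.Reachable (p 0) (p n) := by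
  induction n with
  | zero => exact SimpleGraph.Reachable.refl _
  | succ n ih =>
    obtain ⟨w, _⟩ := h n (Nat.lt_succ_self n)
    exact (ih fun i hi => h i (hi.trans (Nat.lt_succ_self n))).trans ⟨w⟩

private theorem gge_aux (L : X → X → Set X)
    (hP : ∀ x y : X, ∃ (n : ℕ) (p : ℕ → X), p 0 = x ∧ p n = y ∧ (∀ i ≤ n, p i ∈ L x y) ∧
      ∀ i < n, NR 5 (p i) (p (i + 1)))
    (hT : ∀ x y z : X, ∀ w ∈ L x y, ∃ w', (w' ∈ L x z ∨ w' ∈ L z y) ∧ NR 15 w w')
    (hS : ∀ x y : X, (x = y ∨ Gr.Adj x y) → ∀ w ∈ L x y, NR 100 x w) :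
    Gr.Connected ∧ Abs.GG (fun x y => Gr.dist x y) L 100 := by
  have hc : Gr.Connected := by
    haveI : Nonempty X := ⟨(1, 1)⟩
    refine ⟨fun x y => ?_⟩
    obtain ⟨n, p, h0, hn, _, hstep⟩ := hP x y
    have := reach_of_chain hstep
    rwa [h0, hn] at this
  refine ⟨hc, ⟨?_, ?_, ?_⟩⟩
  · intro x y
    obtain ⟨n, p, h0, hn, hm, hstep⟩ := hP x y
    exact ⟨n, p, h0, hn, hm, fun i hi => (dist_le_of_NR (hstep i hi)).trans (by norm_num)⟩
  · intro x y z w hw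
    obtain ⟨w', hw', hd⟩ := hT x y z w hw
    exact ⟨w', hw', (dist_le_of_NR hd).trans (by norm_num)⟩
  · intro x y hxy w hw
    refine dist_le_of_NR (hS x y ?_ w hw)
    have hxy' : Gr.dist x y ≤ 1 := hxy
    rcases Nat.le_one_iff_eq_zero_or_eq_one.mp hxy' with h | h
    · exact Or.inl (hc.dist_eq_zero_iff.mp h)
    · exact Or.inr (SimpleGraph.dist_eq_one_iff_adj.mp h)

/-- **Module GGE**: the graph of curves satisfies the criterion -/
theorem tGGE (hPathE : S_PathE) (hThinE : S_ThinE) (hSmE : S_SmE) : S_GGE :=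
  fun N1 h => gge_aux (LL N1) (hPathE N1 h) (hThinE N1 h) (hSmE N1 h)

end Pool.Agent.MPe54d61.TC
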