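import Pool.Agent.Lib.MP_e54d61_gt.TC.SpecF

/-!
# MP_e54d61_gt, torus case, part F: generation by maps supported in boxes
-/

set_option autoImplicit false

namespace Pool.Agent.MPe54d61.TC

open Topology MatrixGroups

private theorem GenB_norm_le (r : ℝ) : ‖(r : Ci)‖ ≤ |r| := by
  have h : ‖((r : ℝ) : UnitAddCircle)‖ = |r - round r| := UnitAddCircle.norm_eq
  have h2 := round_le r 0
  rw [Int.cast_zero, sub_zero] at h2
  exact h.le.trans h2

private theorem GenB_one : ((1 : ℝ) : Ci) = 0 := AddCircle.coe_period (1 : ℝ)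

private theorem GenB_cover (x : Ci) :
    ‖x - ((0 : ℝ) : Ci)‖ < 3 / 8 ∨ ‖x - ((1 / 2 : ℝ) : Ci)‖ < 3 / 8 := by
  obtain ⟨t, rfl⟩ := QuotientAddGroup.mk_surjective x
  change ‖(t : Ci) - ((0 : ℝ) : Ci)‖ < 3 / 8 ∨ ‖(t : Ci) - ((1 / 2 : ℝ) : Ci)‖ < 3 / 8
  have hs : ((t - round t : ℝ) : Ci) = (t : Ci) := by
    rw [AddCircle.coe_sub]
    have h0 : (((round t : ℤ) : ℝ) : Ci) = 0 :=
      (AddCircle.coe_eq_zero_iff (1 : ℝ)).2 ⟨round t, by simp⟩
    rw [h0, sub_zero]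
  have hb := abs_sub_round t
  rw [← hs]
  generalize t - (round t : ℝ) = s at hb ⊢
  rw [← AddCircle.coe_sub, ← AddCircle.coe_sub]
  by_cases h : |s| < 3 / 8
  · left
    rw [sub_zero]
    exact (GenB_norm_le s).trans_lt h
  · right
    rw [abs_le] at hb
    rcases le_or_gt 0 s with h0 | h0
    · rw [abs_of_nonneg h0] at h
      refine (GenB_norm_le _).trans_lt ?_
      rw [abs_lt]
      constructor <;> linarith
    · rw [abs_of_neg h0] at h
      have h3 : ((s - 1 / 2 : ℝ) : Ci) = ((s + 1 / 2 : ℝ) : Ci) := by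
        have e : s - 1 / 2 = (s + 1 / 2) - 1 := by ring
        rw [e, AddCircle.coe_sub, GenB_one, sub_zero]
      rw [h3]
      refine (GenB_norm_le _).trans_lt ?_
      rw [abs_lt]
      constructor <;> linarith

theorem tGenB (hFrag : S_Frag) : S_GenB := by
  have key : ∀ s ∈ timeOneMaps T, ∃ l : List (T ≃ₜ T),
      (∀ s ∈ l, ∃ a b : Ci, SuppIn (Bx a b) s) ∧ l.prod = s := by
    rintro s ⟨φ, rfl⟩
    let c : Fin 2 → Ci := fun i => if i = 0 then ((0 : ℝ) : Ci) else ((1 / 2 : ℝ) : Ci)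
    let U : Fin 4 → Set T := fun i =>
      {z | ‖z.1 - c ((finProdFinEquiv (m := 2) (n := 2)).symm i).1‖ < 3 / 8 ∧
        ‖z.2 - c ((finProdFinEquiv (m := 2) (n := 2)).symm i).2‖ < 3 / 8}
    have hU : ∀ i, IsOpen (U i) := by
      intro i
      have h1 : IsOpen {z : T | ‖z.1 - c ((finProdFinEquiv (m := 2) (n := 2)).symm i).1‖ < 3 / 8} :=
        isOpen_lt (continuous_fst.sub continuous_const).norm continuous_const
      have h2 : IsOpen {z : T | ‖z.2 - c ((finProdFinEquiv (m := 2) (n := 2)).symm i).2‖ < 3 / 8} :=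
        isOpen_lt (continuous_snd.sub continuous_const).norm continuous_const
      exact h1.inter h2
    have hc : ∀ x : Ci, ∃ j : Fin 2, ‖x - c j‖ < 3 / 8 := by
      intro x
      rcases GenB_cover x with h | h
      · exact ⟨0, by simpa [c] using h⟩
      · exact ⟨1, by simpa [c] using h⟩
    have hcov : (⋃ i, U i) = Set.univ := by
      rw [Set.eq_univ_iff_forall]
      intro z
      obtain ⟨j, hj⟩ := hc z.1
      obtain ⟨k, hk⟩ := hc z.2
      refine Set.mem_iUnion.2 ⟨(finProdFinEquiv (m := 2) (n := 2)) (j, k), ?_⟩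
      show ‖z.1 - c ((finProdFinEquiv (m := 2) (n := 2)).symm _).1‖ < 3 / 8 ∧
        ‖z.2 - c ((finProdFinEquiv (m := 2) (n := 2)).symm _).2‖ < 3 / 8
      rw [Equiv.symm_apply_apply]
      exact ⟨hj, hk⟩
    obtain ⟨l, hl, hp⟩ := hFrag T _ inferInstance inferInstance φ 4 U hU hcov
    refine ⟨l, fun s hs => ?_, hp⟩
    obtain ⟨i, K, -, hK, hsK⟩ := hl s hs
    refine ⟨c ((finProdFinEquiv (m := 2) (n := 2)).symm i).1,
      c ((finProdFinEquiv (m := 2) (n := 2)).symm i).2, hsK.mono (hK.trans ?_)⟩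
    exact fun z hz => ⟨hz.1.le, hz.2.le⟩
  intro g hg
  refine Subgroup.closure_induction (p := fun x _ => ∃ l : List (T ≃ₜ T),
      (∀ s ∈ l, ∃ a b : Ci, SuppIn (Bx a b) s) ∧ l.prod = x) (fun x hx => key x hx)
    ⟨[], by simp, rfl⟩ ?_ ?_ hg
  · rintro x y _ _ ⟨l, hl, rfl⟩ ⟨l', hl', rfl⟩
    refine ⟨l ++ l', fun s hs => ?_, List.prod_append⟩
    rcases List.mem_append.1 hs with h | h
    · exact hl s h
    · exact hl' s h
  · rintro x _ ⟨l, hl, rfl⟩
    refine ⟨(l.map fun x => x⁻¹).reverse, fun s hs => ?_, (List.prod_inv_reverse l).symm⟩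
    rw [List.mem_reverse] at hs
    obtain ⟨t, ht, rfl⟩ := List.mem_map.1 hs
    obtain ⟨a, b, h⟩ := hl t ht
    exact ⟨a, b, h.inv⟩

end Pool.Agent.MPe54d61.TC
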