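import Pool.Agent.Lib.MP_e54d61_gt.TC.SpecP

/-!
# MP_e54d61_gt, torus case: the union of a set of edges of the grid is closed in the torus
-/

set_option autoImplicit false

namespace Pool.Agent.MPe54d61.TC

namespace GeoCAux

private theorem red_tr (N : ℕ) (p v : ℤ × ℤ) : red N (p + (N : ℤ) • v) = red N p := by
  simp [zc]

private theorem gp_tr (N : ℕ) (hN : 1 ≤ N) (p v : ℤ × ℤ) :
    gp N (p + (N : ℤ) • v) = iv v + gp N p := by
  have h : (N : ℝ) ≠ 0 := by positivity
  simp only [gp, iv, Prod.fst_add, Prod.snd_add, Prod.smul_fst, Prod.smul_snd, smul_eq_mul,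
    Int.cast_add, Int.cast_mul, Int.cast_natCast, Prod.mk_add_mk]
  ext
  · simp only [add_div]
    rw [mul_div_cancel_left₀ _ h, add_comm]
  · simp only [add_div]
    rw [mul_div_cancel_left₀ _ h, add_comm]

private theorem pr_tr (z : P) (v : ℤ × ℤ) : pr (iv v + z) = pr z := by
  have h : ∀ (a : ℤ) (x : ℝ), (((a : ℝ) + x : ℝ) : Ci) = (x : Ci) := by
    intro a x
    rw [AddCircle.coe_add]
    have : ((a : ℝ) : Ci) = 0 := by
      rw [AddCircle.coe_eq_zero_iff]
      exact ⟨a, by simp⟩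
    rw [this, zero_add]
  exact Prod.ext (h v.1 z.1) (h v.2 z.2)

private theorem pr_cont : Continuous pr := by
  unfold pr
  exact ((AddCircle.continuous_mk' 1).comp continuous_fst).prodMk
    ((AddCircle.continuous_mk' 1).comp continuous_snd)

private theorem seg_compact (a b : P) : IsCompact (segment ℝ a b) := by
  rw [segment_eq_image_lineMap]
  exact isCompact_Icc.image AffineMap.lineMap_continuous

end GeoCAux

open GeoCAux in
theorem tGeoC : S_GeoC := by
  intro N hN C
  have hN' : (0 : ℤ) < (N : ℤ) := by exact_mod_cast hN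
  let S : Set ((ℤ × ℤ) × (ℤ × ℤ)) := {x | x ∈ ((Set.Ico (0 : ℤ) N ×ˢ Set.Ico (0 : ℤ) N) ×ˢ
    ((stp : Finset (ℤ × ℤ)) : Set (ℤ × ℤ))) ∧ s(red N x.1, red N (x.1 + x.2)) ∈ C}
  have hfin : S.Finite :=
    (((Set.finite_Ico _ _).prod (Set.finite_Ico _ _)).prod (Finset.finite_toSet _)).subset
      fun x hx => hx.1
  have hU : geo N C = ⋃ x ∈ S, pr '' segment ℝ (gp N x.1) (gp N (x.1 + x.2)) := by
    ext z
    simp only [geo, Set.mem_ofPred_eq, Set.mem_iUnion, Set.mem_image]
    constructor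
    · rintro ⟨p, q, hpq, hC, w, hw, rfl⟩
      let v : ℤ × ℤ := (p.1 / N, p.2 / N)
      let p0 : ℤ × ℤ := (p.1 % N, p.2 % N)
      have hp : p = p0 + (N : ℤ) • v := by
        ext
        · simp only [p0, v, Prod.fst_add, Prod.smul_fst, smul_eq_mul]
          exact (Int.emod_add_mul_ediv _ _).symm
        · simp only [p0, v, Prod.snd_add, Prod.smul_snd, smul_eq_mul]
          exact (Int.emod_add_mul_ediv _ _).symm
      have hq : q = (p0 + (q - p)) + (N : ℤ) • v := by
        have : q = p + (q - p) := by abel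
        nth_rewrite 1 [this]
        nth_rewrite 1 [hp]
        abel
      refine ⟨(p0, q - p), ⟨⟨⟨⟨Int.emod_nonneg _ hN'.ne', Int.emod_lt_of_pos _ hN'⟩,
        ⟨Int.emod_nonneg _ hN'.ne', Int.emod_lt_of_pos _ hN'⟩⟩, hpq⟩, ?_⟩, w - iv v, ?_, ?_⟩
      · change s(red N p0, red N (p0 + (q - p))) ∈ C
        have e1 : red N p0 = red N p := (red_tr N p0 v).symm.trans (congrArg (red N) hp.symm)
        have e2 : red N (p0 + (q - p)) = red N q :=
          (red_tr N (p0 + (q - p)) v).symm.trans (congrArg (red N) hq.symm)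
        rw [e1, e2]
        exact hC
      · change w - iv v ∈ segment ℝ (gp N p0) (gp N (p0 + (q - p)))
        rw [← mem_segment_translate ℝ (iv v), ← gp_tr N hN, ← gp_tr N hN, ← hp, ← hq]
        rwa [add_sub_cancel]
      · rw [← pr_tr (w - iv v) v, add_sub_cancel]
    · rintro ⟨x, hx, w, hw, rfl⟩
      exact ⟨x.1, x.1 + x.2, by rw [add_sub_cancel_left]; exact hx.1.2, hx.2, w, hw, rfl⟩
  rw [hU]
  refine hfin.isClosed_biUnion fun x _ => ?_
  exact ((seg_compact _ _).image pr_cont).isClosed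

end Pool.Agent.MPe54d61.TC
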