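import Pool.Agent.Lib.MP_e54d61_gt.TC.SpecP

/-!
# MP_e54d61_gt, torus case, module GeoE: the geometric realization of one edge
-/

set_option autoImplicit false

namespace Pool.Agent.MPe54d61.TC

namespace GeoEAux

theorem ab {r : ℤ × ℤ} (h : r ∈ stp) : |r.1| ≤ 1 ∧ |r.2| ≤ 1 := by
  simp only [stp, Finset.mem_insert, Finset.mem_singleton] at h
  rcases h with h | h | h | h | h | h <;> subst h <;> simp

theorem coord {N : ℕ} (hN : 3 ≤ N) {a a' b b' : ℤ} (h1 : ((a' : ℤ) : ZMod N) = (a : ZMod N))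
    (h2 : ((b' : ℤ) : ZMod N) = (b : ZMod N)) (h3 : |b - a| ≤ 1) (h4 : |b' - a'| ≤ 1) :
    ∃ k : ℤ, a' = a + N * k ∧ b' = b + N * k := by
  rw [ZMod.intCast_eq_intCast_iff_dvd_sub] at h1 h2
  obtain ⟨k, hk⟩ := h1
  have h5 : (N : ℤ) ∣ (b' - a') - (b - a) := by
    have : (b' - a') - (b - a) = N * k - (b - b') := by
      rw [← hk]; ring
    rw [this]
    exact dvd_sub (Dvd.intro _ rfl) h2
  have h6 : (b' - a') - (b - a) = 0 := by
    refine Int.eq_zero_of_abs_lt_dvd h5 ?_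
    have := abs_sub (b' - a') (b - a)
    have hN' : (3 : ℤ) ≤ N := by exact_mod_cast hN
    linarith
  refine ⟨-k, ?_, ?_⟩
  · linarith
  · linarith

theorem pr_iv (z : P) (v : ℤ × ℤ) : pr (z + iv v) = pr z := by
  have h : ∀ (x : ℝ) (k : ℤ), ((x + (k : ℝ) : ℝ) : Ci) = (x : Ci) := by
    intro x k
    rw [AddCircle.coe_add]
    have hk0 : ((k : ℝ) : Ci) = 0 := by
      rw [AddCircle.coe_eq_zero_iff]
      exact ⟨k, by simp⟩
    rw [hk0, add_zero]
  exact Prod.ext (h _ _) (h _ _)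

theorem gpa {N : ℕ} (hN : 3 ≤ N) (p v : ℤ × ℤ) :
    gp N (p.1 + N * v.1, p.2 + N * v.2) = gp N p + iv v := by
  have hN0 : (N : ℝ) ≠ 0 := by
    have : N ≠ 0 := by omega
    exact_mod_cast this
  refine Prod.ext ?_ ?_
  · show (((p.1 + N * v.1 : ℤ) : ℝ) / N) = (p.1 : ℝ) / N + (v.1 : ℝ)
    push_cast
    field_simp
  · show (((p.2 + N * v.2 : ℤ) : ℝ) / N) = (p.2 : ℝ) / N + (v.2 : ℝ)
    push_cast
    field_simp

theorem key {N : ℕ} (hN : 3 ≤ N) {p q p' q' : ℤ × ℤ} (h1 : q - p ∈ stp) (h2 : q' - p' ∈ stp)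
    (h3 : red N p' = red N p) (h4 : red N q' = red N q) {w : P}
    (hw : w ∈ segment ℝ (gp N p') (gp N q')) : pr w ∈ pr '' segment ℝ (gp N p) (gp N q) := by
  obtain ⟨k, hk1, hk2⟩ := coord hN (congrArg Prod.fst h3) (congrArg Prod.fst h4) (ab h1).1 (ab h2).1
  obtain ⟨l, hl1, hl2⟩ := coord hN (congrArg Prod.snd h3) (congrArg Prod.snd h4) (ab h1).2 (ab h2).2
  have hp : gp N p' = gp N p + iv (k, l) := by
    rw [← gpa hN p (k, l)]
    exact congrArg (gp N) (Prod.ext hk1 hl1)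
  have hq : gp N q' = gp N q + iv (k, l) := by
    rw [← gpa hN q (k, l)]
    exact congrArg (gp N) (Prod.ext hk2 hl2)
  obtain ⟨a, b, ha, hb, hab, rfl⟩ := hw
  refine ⟨a • gp N p + b • gp N q, ⟨a, b, ha, hb, hab, rfl⟩, ?_⟩
  rw [hp, hq]
  have : a • (gp N p + iv (k, l)) + b • (gp N q + iv (k, l)) =
      (a • gp N p + b • gp N q) + (a + b) • iv (k, l) := by module
  rw [this, hab, one_smul, pr_iv]

end GeoEAux

open GeoEAux in
theorem tGeoE : S_GeoE := by
  intro N hN p q hpq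
  ext z
  constructor
  · rintro ⟨p', q', h1, h2, w, hw, rfl⟩
    rw [Set.mem_singleton_iff, Sym2.eq_iff] at h2
    rcases h2 with ⟨h3, h4⟩ | ⟨h3, h4⟩
    · exact key hN hpq h1 h3 h4 hw
    · have h5 : p' - q' ∈ stp := by
        have : p' - q' = -(q' - p') := by abel
        rw [this]
        revert h1
        generalize q' - p' = r
        intro h1
        simp only [stp, Finset.mem_insert, Finset.mem_singleton] at h1 ⊢
        rcases h1 with h | h | h | h | h | h <;> subst h <;> simp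
      rw [segment_symm] at hw
      exact key hN hpq h5 h4 h3 hw
  · rintro ⟨w, hw, rfl⟩
    exact ⟨p, q, hpq, rfl, w, hw, rfl⟩

end Pool.Agent.MPe54d61.TC
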