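import Pool.Agent.Lib.MP_e54d61_gt.TC.SpecE

/-!
# MP_e54d61_gt, torus case: GeoP
-/

set_option autoImplicit false

namespace Pool.Agent.MPe54d61.TC

open SimpleGraph

theorem tGeoP (hGrid : S_Grid) : S_GeoP := by
  intro N hN C hC b hb
  obtain ⟨x, c, -, rfl⟩ := hC
  obtain ⟨e, he, hbe⟩ := hb
  obtain ⟨v, rfl⟩ := hbe
  have hadj : (GN N).Adj (zc N b) v := Walk.adj_of_mem_edges c he
  obtain ⟨q, hq1, hq2⟩ := (hGrid N hN).2.2 _ _ hadj b rfl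
  refine ⟨b, q, hq1, ?_, gp N b, left_mem_segment ℝ _ _, rfl⟩
  rw [hq2]
  exact he

end Pool.Agent.MPe54d61.TC
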