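import Pool.Agent.Lib.MP_e54d61_gt.TC.SpecS

/-!
# MP_e54d61_gt, torus case, module GeoSeg: the edges of a set of edges of the grid are segments
-/

set_option autoImplicit false

namespace Pool.Agent.MPe54d61.TC

open SimpleGraph

namespace GeoSegAux

theorem mem_stp {r : ℤ × ℤ} (h : r ∈ stp) : ∃ k : Fin 3, r = ei k ∨ r = -ei k := by
  simp only [stp, Finset.mem_insert, Finset.mem_singleton] at h
  rcases h with h | h | h | h | h | h
  · exact ⟨0, Or.inl (by rw [h]; simp [ei])⟩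
  · exact ⟨1, Or.inl (by rw [h]; simp [ei])⟩
  · exact ⟨2, Or.inl (by rw [h]; simp [ei])⟩
  · exact ⟨0, Or.inr (by rw [h]; simp [ei])⟩
  · exact ⟨1, Or.inr (by rw [h]; simp [ei])⟩
  · exact ⟨2, Or.inr (by rw [h]; simp [ei])⟩

theorem mem_seg {N : ℕ} (k : Fin 3) (p : ℤ × ℤ) (w : P)
    (hw : w ∈ segment ℝ (gp N p) (gp N (p + ei k))) : pr w ∈ seg N k (zc N p) := by
  rw [segment_eq_image'] at hw
  obtain ⟨t, ht, rfl⟩ := hw
  refine ⟨p, t, rfl, ht.1, ht.2, ?_⟩
  congr 1
  ext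
  · simp only [gp, pt, Prod.fst_add, Prod.smul_fst, Prod.fst_sub, smul_eq_mul, Int.cast_add]
    ring
  · simp only [gp, pt, Prod.snd_add, Prod.smul_snd, Prod.snd_sub, smul_eq_mul, Int.cast_add]
    ring

end GeoSegAux

/-- edges of the grid as segments in the torus -/
theorem tGeoSeg : S_GeoSeg := by
  rintro N _ C z ⟨p, q, hpq, hC, w, hw, rfl⟩
  obtain ⟨k, hk | hk⟩ := GeoSegAux.mem_stp hpq
  · have hq : q = p + ei k := by rw [← hk]; abel
    subst hq
    refine ⟨k, zc N p, ?_, GeoSegAux.mem_seg k p w hw⟩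
    rw [ed, ← zc_add]
    exact hC
  · have hp : p = q + ei k := by
      have : ei k = p - q := by rw [← neg_sub, hk, neg_neg]
      rw [this]; abel
    subst hp
    rw [segment_symm] at hw
    refine ⟨k, zc N q, ?_, GeoSegAux.mem_seg k q w hw⟩
    rw [ed, ← zc_add, Sym2.eq_swap]
    exact hC

end Pool.Agent.MPe54d61.TC
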