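import Pool.Agent.Lib.MP_e54d61_gt.TC.SpecP

/-!
# MP_e54d61_gt, torus case, module GeoV: cycles with disjoint geometric realizations have no common vertex
-/

set_option autoImplicit false

namespace Pool.Agent.MPe54d61.TC

open SimpleGraph

private theorem GeoV_coord {N : ℕ} (hN : 3 ≤ N) {a b : ℤ} (h : (a : ZMod N) = (b : ZMod N)) :
    (((a : ℝ) / N : ℝ) : Ci) = (((b : ℝ) / N : ℝ) : Ci) := by
  have hN0 : (N : ℝ) ≠ 0 := by
    have : N ≠ 0 := by omega
    exact_mod_cast this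
  rw [ZMod.intCast_eq_intCast_iff_dvd_sub] at h
  obtain ⟨k, hk⟩ := h
  have hb : (b : ℝ) / N = (a : ℝ) / N + (k : ℝ) := by
    have : (b : ℝ) = a + N * k := by
      have h2 : b = a + N * k := by linarith
      exact_mod_cast h2
    rw [this]
    field_simp
  rw [hb, AddCircle.coe_add]
  have hk0 : ((k : ℝ) : Ci) = 0 := by
    rw [AddCircle.coe_eq_zero_iff]
    exact ⟨k, by simp⟩
  rw [hk0, add_zero]

private theorem GeoV_pr {N : ℕ} (hN : 3 ≤ N) {p q : ℤ × ℤ} (h : red N p = red N q) :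
    pr (gp N p) = pr (gp N q) := by
  have h1 : ((p.1 : ℤ) : ZMod N) = ((q.1 : ℤ) : ZMod N) := congrArg Prod.fst h
  have h2 : ((p.2 : ℤ) : ZMod N) = ((q.2 : ℤ) : ZMod N) := congrArg Prod.snd h
  exact Prod.ext (GeoV_coord hN h1) (GeoV_coord hN h2)

private theorem GeoV_mem {N : ℕ} {C : Set (Sym2 (VN N))} (hC : EC (GN N) (kN N) C) {v : VN N}
    (hv : v ∈ vts C) : ∃ p : ℤ × ℤ, red N p = v ∧ pr (gp N p) ∈ geo N C := by
  obtain ⟨x, c, -, rfl⟩ := hC
  obtain ⟨e, he, hve⟩ := hv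
  have hE : e ∈ (GN N).edgeSet := Walk.edges_subset_edgeSet c he
  induction e using Sym2.ind with
  | _ a b =>
    rw [SimpleGraph.mem_edgeSet] at hE
    obtain ⟨-, p, q, hs, rfl, rfl⟩ := hE
    rw [Sym2.mem_iff] at hve
    rcases hve with rfl | rfl
    · exact ⟨p, rfl, p, q, hs, he, gp N p, left_mem_segment ℝ _ _, rfl⟩
    · exact ⟨q, rfl, p, q, hs, he, gp N q, right_mem_segment ℝ _ _, rfl⟩

theorem tGeoV : S_GeoV := by
  intro N hN C C' hC hC' hd v hv hv'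
  obtain ⟨p, hp, hp2⟩ := GeoV_mem hC hv
  obtain ⟨q, hq, hq2⟩ := GeoV_mem hC' hv'
  have h : pr (gp N p) = pr (gp N q) := GeoV_pr hN (hp.trans hq.symm)
  exact Set.disjoint_left.1 hd hp2 (h ▸ hq2)

end Pool.Agent.MPe54d61.TC
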