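import Pool.Agent.Lib.MP_e54d61_gt.TC.SpecB

/-!
# MP_e54d61_gt, torus case: shortest good arcs (helper26)
-/

set_option autoImplicit false

namespace Pool.Agent.MPe54d61.TC

open SimpleGraph

namespace GoodAux

variable {V M : Type} [AddCommGroup M] {Γ : SimpleGraph V} {κ : V → V → M}

theorem pos_of_not_nil {u v : V} {w : Γ.Walk u v} (h : ¬ w.Nil) : 0 < w.length := by
  rw [← Walk.length_eq_zero_iff] at h
  exact Nat.pos_of_ne_zero h

theorem core (D : Set (Sym2 V))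
    (hA : ∀ (u w w' v : V) (δ1 : Γ.Walk u w) (δ2 : Γ.Walk w w') (δ3 : Γ.Walk w' v),
      Arc κ D (δ1.append (δ2.append δ3)) → Arc κ D δ2)
    {x y : V} (p : Γ.Walk x y) (q : Γ.Walk y x) (φ ψ : V → M) (n : ℕ)
    (hmin : ∀ (u v : V) (δ : Γ.Walk u v), Arc κ D δ → δ.length < n →
      (u ∈ p.support → v ∈ p.support → cls κ δ = φ v - φ u) ∧
      (u ∈ q.support → v ∈ q.support → cls κ δ = ψ v - ψ u))
    (u v : V) (δ : Γ.Walk u v) (hlen : δ.length = n) (hδ : Arc κ D δ) (hu : u ∈ p.support)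
    (hv : v ∈ p.support) (hne : cls κ δ ≠ φ v - φ u) : GA κ D p φ q ψ := by
  refine ⟨u, v, δ, hδ, hu, hv, hne, ?_, ?_⟩
  · intro z δ1 δ2 h h1 h2 hz
    subst h
    have l1 := pos_of_not_nil h1
    have l2 := pos_of_not_nil h2
    rw [Walk.length_append] at hlen
    have a1 : Arc κ D δ1 := hA u u z v Walk.nil δ1 δ2 (by rw [Walk.nil_append]; exact hδ)
    have a2 : Arc κ D δ2 := hA u z v v δ1 δ2 Walk.nil (by rw [Walk.append_nil]; exact hδ)
    have c1 := (hmin u z δ1 a1 (by omega)).1 hu hz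
    have c2 := (hmin z v δ2 a2 (by omega)).1 hz hv
    apply hne
    rw [cls_append, c1, c2]
    abel
  · intro w w' δ1 δ2 δ3 h h1 h3 hw hw'
    subst h
    have l1 := pos_of_not_nil h1
    have l3 := pos_of_not_nil h3
    rw [Walk.length_append, Walk.length_append] at hlen
    have a2 : Arc κ D δ2 := hA u w w' v δ1 δ2 δ3 hδ
    exact (hmin w w' δ2 a2 (by omega)).2 hw hw'

end GoodAux

open GoodAux in
theorem tGood (hArc : S_Arc) : S_Good := by
  classical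
  intro V M _ Γ κ D hD x y p q φ ψ hex
  obtain ⟨hA1, hA2, -⟩ := hArc V M _ Γ κ D hD
  have hgood : ∃ n : ℕ, ∃ (u v : V) (δ : Γ.Walk u v), Arc κ D δ ∧ δ.length = n ∧
      ((u ∈ p.support ∧ v ∈ p.support ∧ cls κ δ ≠ φ v - φ u) ∨
        (u ∈ q.support ∧ v ∈ q.support ∧ cls κ δ ≠ ψ v - ψ u)) := by
    obtain ⟨v, hv, hpq⟩ := hex
    obtain ⟨δ, h1, h2⟩ := hA1 v hv
    refine ⟨δ.length, v, v, δ, h1, rfl, ?_⟩
    rcases hpq with h3 | h3
    · exact Or.inl ⟨h3, h3, by rw [sub_self]; exact h2.2⟩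
    · exact Or.inr ⟨h3, h3, by rw [sub_self]; exact h2.2⟩
  obtain ⟨u, v, δ, hδ, hlen, hkind⟩ := Nat.find_spec hgood
  have hmin : ∀ (u v : V) (δ' : Γ.Walk u v), Arc κ D δ' → δ'.length < Nat.find hgood →
      (u ∈ p.support → v ∈ p.support → cls κ δ' = φ v - φ u) ∧
      (u ∈ q.support → v ∈ q.support → cls κ δ' = ψ v - ψ u) := by
    intro u v δ' h1 h2
    constructor
    · intro hu hv
      by_contra hne
      exact Nat.find_min hgood h2 ⟨u, v, δ', h1, rfl, Or.inl ⟨hu, hv, hne⟩⟩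
    · intro hu hv
      by_contra hne
      exact Nat.find_min hgood h2 ⟨u, v, δ', h1, rfl, Or.inr ⟨hu, hv, hne⟩⟩
  rcases hkind with ⟨hu, hv, hne⟩ | ⟨hu, hv, hne⟩
  · left
    exact core D hA2 p q φ ψ _ hmin u v δ hlen hδ hu hv hne
  · right
    exact core D hA2 q p ψ φ _ (fun u v δ' h1 h2 => ⟨(hmin u v δ' h1 h2).2, (hmin u v δ' h1 h2).1⟩)
      u v δ hlen hδ hu hv hne

end Pool.Agent.MPe54d61.TC
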