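import Pool.Agent.Lib.MP_e54d61_gt.TC.SpecH

set_option autoImplicit false

namespace Pool.Agent.MPe54d61.TC

/-- Summation by parts. -/
theorem tGreen : S_Green := by
  intro N hN w x u
  simp only [dv, DD, smul_eq_mul, Finset.mul_sum]
  rw [Finset.sum_comm, ← Finset.sum_neg_distrib]
  refine Finset.sum_congr rfl fun k _ => ?_
  have h : ∑ p : VN N, u p * (w k (p - ed N k) * x k (p - ed N k)) =
      ∑ p : VN N, u (p + ed N k) * (w k p * x k p) := by
    rw [← Equiv.sum_comp (Equiv.addRight (ed N k))
      (fun p : VN N => u p * (w k (p - ed N k) * x k (p - ed N k)))]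
    refine Finset.sum_congr rfl fun p _ => ?_
    simp only [Equiv.coe_addRight, add_sub_cancel_right]
  calc ∑ p : VN N, u p * (w k p * x k p - w k (p - ed N k) * x k (p - ed N k))
      = ∑ p : VN N, u p * (w k p * x k p) -
          ∑ p : VN N, u p * (w k (p - ed N k) * x k (p - ed N k)) := by
        rw [← Finset.sum_sub_distrib]
        exact Finset.sum_congr rfl fun p _ => by ring
    _ = ∑ p : VN N, u p * (w k p * x k p) - ∑ p : VN N, u (p + ed N k) * (w k p * x k p) := by
        rw [h]
    _ = -∑ p : VN N, w k p * ((u (p + ed N k) - u p) * x k p) := by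
        rw [← Finset.sum_sub_distrib, ← Finset.sum_neg_distrib]
        exact Finset.sum_congr rfl fun p _ => by ring

end Pool.Agent.MPe54d61.TC
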