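import Pool.Agent.Lib.MP_e54d61_gt.TC.SpecP

/-! The grid on the torus: class of an edge, lifting of edges. -/

set_option autoImplicit false

namespace Pool.Agent.MPe54d61.TC

namespace GridAux

/-- one coordinate: the class of a step -/
theorem kp_eq (N : ℕ) (hN : 3 ≤ N) (a e : ℤ) (he : e = -1 ∨ e = 0 ∨ e = 1) :
    kp N (a : ZMod N) ((a + e : ℤ) : ZMod N) = (a + e) / (N : ℤ) - a / (N : ℤ) := by
  have hN' : (3 : ℤ) ≤ (N : ℤ) := by exact_mod_cast hN
  have hN0 : (0 : ℤ) < (N : ℤ) := by linarith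
  obtain ⟨m, r, hr0, hrN, ha⟩ : ∃ m r : ℤ, 0 ≤ r ∧ r < N ∧ a = N * m + r :=
    ⟨a / N, a % N, Int.emod_nonneg _ hN0.ne', Int.emod_lt_of_pos _ hN0, (Int.mul_ediv_add_emod a N).symm⟩
  have key : ∀ (x : ℤ), ((x : ℤ) : ZMod N) = 0 ↔ (N : ℤ) ∣ x := fun x => ZMod.intCast_zmod_eq_zero_iff_dvd x N
  have hdiv : ∀ (c : ℤ), (N : ℤ) ∣ N * m + c ↔ (N : ℤ) ∣ c := fun c =>
    (Int.dvd_add_right (Dvd.intro m rfl))
  have hd : ∀ (c q s : ℤ), 0 ≤ s → s < N → c = N * q + s → c / (N : ℤ) = q := by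
    intro c q s h0 h1 h2
    rw [h2, Int.add_comm, Int.add_mul_ediv_left _ _ hN0.ne', Int.ediv_eq_zero_of_lt h0 h1]
    simp
  have ha1 : ((a : ℤ) : ZMod N) + 1 = ((a + 1 : ℤ) : ZMod N) := by push_cast; ring
  have hb1 : (((a + e : ℤ)) : ZMod N) + 1 = ((a + e + 1 : ℤ) : ZMod N) := by push_cast; ring
  have c1 : ((a : ZMod N) + 1 = 0 ∧ ((a + e : ℤ) : ZMod N) = 0) ↔ (e = 1 ∧ r = N - 1) := by
    rw [ha1, key, key, ha]
    constructor
    · rintro ⟨h1, h2⟩
      have h3 : (N : ℤ) ∣ (N * m + r + 1) - (N * m + r + e) := dvd_sub h1 h2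
      have h4 : (N : ℤ) ∣ 1 - e := by
        have : (N * m + r + 1) - (N * m + r + e) = 1 - e := by ring
        rwa [this] at h3
      have he1 : e = 1 := by
        have := Int.eq_zero_of_abs_lt_dvd h4 (by rcases he with h | h | h <;> subst h <;> norm_num <;> linarith)
        linarith
      refine ⟨he1, ?_⟩
      rw [add_assoc, hdiv] at h1
      obtain ⟨k, hk⟩ := h1
      have hk1 : k = 1 := by
        have h5 : 0 < (N : ℤ) * k := by linarith
        have h6 : 0 < k := by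
          by_contra hc
          push Not at hc
          have : (N : ℤ) * k ≤ 0 := mul_nonpos_of_nonneg_of_nonpos hN0.le hc
          linarith
        have h7 : (N : ℤ) * k ≤ N := by linarith
        have h8 : k ≤ 1 := by
          by_contra hc
          push Not at hc
          have : (N : ℤ) * 2 ≤ N * k := mul_le_mul_of_nonneg_left (by linarith) hN0.le
          linarith
        linarith
      rw [hk1] at hk
      linarith
    · rintro ⟨h1, h2⟩
      subst h1 h2
      constructor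
      · rw [add_assoc, hdiv]; exact ⟨1, by ring⟩
      · rw [add_assoc, hdiv]; exact ⟨1, by ring⟩
  have c2 : (((a : ℤ) : ZMod N) = 0 ∧ ((a + e : ℤ) : ZMod N) + 1 = 0) ↔ (e = -1 ∧ r = 0) := by
    rw [hb1, key, key, ha]
    constructor
    · rintro ⟨h1, h2⟩
      have h3 : (N : ℤ) ∣ (N * m + r + e + 1) - (N * m + r) := dvd_sub h2 h1
      have h4 : (N : ℤ) ∣ e + 1 := by
        have : (N * m + r + e + 1) - (N * m + r) = e + 1 := by ring
        rwa [this] at h3
      have he1 : e = -1 := by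
        have := Int.eq_zero_of_abs_lt_dvd h4 (by rcases he with h | h | h <;> subst h <;> norm_num <;> linarith)
        linarith
      refine ⟨he1, ?_⟩
      rw [hdiv] at h1
      exact Int.eq_zero_of_dvd_of_nonneg_of_lt hr0 hrN h1
    · rintro ⟨h1, h2⟩
      subst h1 h2
      constructor
      · rw [hdiv]; exact dvd_zero _
      · have : (N : ℤ) * m + 0 + -1 + 1 = N * m + 0 := by ring
        rw [this, hdiv]; exact dvd_zero _
  have hda : a / (N : ℤ) = m := hd a m r hr0 hrN ha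
  unfold kp
  rcases he with h | h | h
  · subst h
    rw [if_neg (by rw [c1]; rintro ⟨h, -⟩; norm_num at h)]
    by_cases hr : r = 0
    · rw [if_pos (c2.2 ⟨rfl, hr⟩), hda, hd (a + -1) (m - 1) (N - 1) (by linarith) (by linarith)
        (by rw [ha, hr]; ring)]
      ring
    · rw [if_neg (by rw [c2]; rintro ⟨-, h⟩; exact hr h), hda, hd (a + -1) m (r - 1)
        (by have : 0 < r := lt_of_le_of_ne hr0 (Ne.symm hr); linarith) (by linarith) (by rw [ha]; ring)]
      ring
  · subst h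
    rw [if_neg (by rw [c1]; rintro ⟨h, -⟩; norm_num at h), if_neg (by rw [c2]; rintro ⟨h, -⟩; norm_num at h)]
    simp
  · subst h
    by_cases hr : r = N - 1
    · rw [if_pos (c1.2 ⟨rfl, hr⟩), hda, hd (a + 1) (m + 1) 0 le_rfl hN0 (by rw [ha, hr]; ring)]
      ring
    · rw [if_neg (by rw [c1]; rintro ⟨-, h⟩; exact hr h), if_neg (by rw [c2]; rintro ⟨h, -⟩; norm_num at h),
        hda, hd (a + 1) m (r + 1) (by linarith)
        (by have : r < N - 1 := lt_of_le_of_ne (by linarith) hr; linarith) (by rw [ha]; ring)]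
      ring

theorem stp_cases (d : ℤ × ℤ) (h : d ∈ stp) : (d.1 = -1 ∨ d.1 = 0 ∨ d.1 = 1) ∧
    (d.2 = -1 ∨ d.2 = 0 ∨ d.2 = 1) ∧ (d.1 ≠ 0 ∨ d.2 ≠ 0) := by
  simp only [stp, Finset.mem_insert, Finset.mem_singleton] at h
  rcases h with h | h | h | h | h | h <;> subst h <;> simp

theorem kp_anti (N : ℕ) (hN : 3 ≤ N) (a b : ZMod N) : kp N b a = -kp N a b := by
  have h1 : (1 : ZMod N) ≠ 0 := by
    intro h
    have : (N : ℤ) ∣ 1 := (ZMod.intCast_zmod_eq_zero_iff_dvd 1 N).1 (by simpa using h)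
    have := Int.le_of_dvd one_pos this
    have hN' : (3 : ℤ) ≤ (N : ℤ) := by exact_mod_cast hN
    linarith
  unfold kp
  by_cases hA : a + 1 = 0 ∧ b = 0
  · have hB : ¬ (b + 1 = 0 ∧ a = 0) := by
      rintro ⟨h, -⟩
      rw [hA.2, zero_add] at h
      exact h1 h
    rw [if_neg hB, if_pos ⟨hA.2, hA.1⟩, if_pos hA]
  · by_cases hB : a = 0 ∧ b + 1 = 0
    · rw [if_pos ⟨hB.2, hB.1⟩, if_neg hA, if_pos hB]
      norm_num
    · rw [if_neg (fun h => hB ⟨h.2, h.1⟩), if_neg (fun h => hA ⟨h.2, h.1⟩), if_neg hA, if_neg hB]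
      norm_num

end GridAux

open GridAux

theorem tGrid : S_Grid := by
  intro N hN
  have hN' : (3 : ℤ) ≤ (N : ℤ) := by exact_mod_cast hN
  have hne : ∀ p q : ℤ × ℤ, q - p ∈ stp → red N p ≠ red N q := by
    intro p q hpq h
    obtain ⟨h1, h2, h3⟩ := stp_cases _ hpq
    have key : ∀ x y : ℤ, (y - x = -1 ∨ y - x = 0 ∨ y - x = 1) → (x : ZMod N) = (y : ZMod N) → y - x = 0 := by
      intro x y hxy he
      have hd : (N : ℤ) ∣ y - x := by
        rw [← ZMod.intCast_zmod_eq_zero_iff_dvd]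
        push_cast
        rw [he, sub_self]
      refine Int.eq_zero_of_abs_lt_dvd hd ?_
      rcases hxy with h | h | h <;> rw [h] <;> norm_num <;> linarith
    simp only [zc, Prod.mk.injEq] at h
    rcases h3 with h3 | h3
    · exact h3 (key _ _ h1 h.1)
    · exact h3 (key _ _ h2 h.2)
  refine ⟨?_, ?_, ?_⟩
  · intro u v
    simp only [kN, Prod.neg_mk]
    rw [kp_anti N hN u.1 v.1, kp_anti N hN u.2 v.2]
  · intro p q hpq
    refine ⟨⟨hne p q hpq, p, q, hpq, rfl, rfl⟩, ?_⟩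
    obtain ⟨h1, h2, h3⟩ := stp_cases _ hpq
    have e1 : q.1 = p.1 + (q - p).1 := by simp
    have e2 : q.2 = p.2 + (q - p).2 := by simp
    simp only [kN, zc, cel]
    rw [e1, e2, kp_eq N hN _ _ h1, kp_eq N hN _ _ h2]
    rfl
  · rintro u v ⟨huv, p', q', h1, h2, h3⟩ p hp
    refine ⟨p + (q' - p'), by simpa using h1, ?_⟩
    have : red N (p + (q' - p')) = red N p + (red N q' - red N p') := by
      simp [zc]
    rw [this, hp, h2, h3]
    abel

end Pool.Agent.MPe54d61.TC
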