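import Pool.Agent.Lib.MP_e54d61_gt.TC.SpecH

/-!
# MP_e54d61_gt, torus case: harmonic positions exist for all weights `≥ 1`
-/

set_option autoImplicit false

namespace Pool.Agent.MPe54d61.TC

open Topology MatrixGroups

/-- weights `w` on `s`, `1` elsewhere -/
private theorem harmE_aux (hEdge : S_Edge) (N : ℕ) [NeZero N] (hN : 2 ≤ N) (w : Fin 3 → VN N → ℝ)
    (hw : ∀ k p, 1 ≤ w k p) (s : Finset (Fin 3 × VN N)) :
    ∃ f : VN N → P, Harm (fun k p => 1 + if (k, p) ∈ s then w k p - 1 else 0) f ∧ Reach f := by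
  classical
  induction s using Finset.induction_on with
  | empty =>
    refine ⟨0, ?_, Reach.zero⟩
    intro p
    simp [dv, XX]
  | insert a s ha ih =>
    obtain ⟨f, hf, hr⟩ := ih
    obtain ⟨k0, p0⟩ := a
    have hpos : ∀ k p, 0 < (fun k p => 1 + if (k, p) ∈ s then w k p - 1 else 0) k p := by
      intro k p
      have h1 := hw k p
      show 0 < 1 + if (k, p) ∈ s then w k p - 1 else 0
      split_ifs <;> linarith
    have ht : 0 ≤ w k0 p0 - 1 := by linarith [hw k0 p0]
    obtain ⟨h, D, hP, hH⟩ := hEdge N inferInstance hN _ hpos f hf hr.pos k0 p0 (w k0 p0 - 1) ht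
    refine ⟨fun p => f p + h p • D, ?_, Reach.step f h D hr hP⟩
    have hfun : (fun (k : Fin 3) (p : VN N) =>
        1 + if (k, p) ∈ insert (k0, p0) s then w k p - 1 else 0) =
        fun k p => (fun k p => 1 + if (k, p) ∈ s then w k p - 1 else 0) k p +
          if k = k0 ∧ p = p0 then w k0 p0 - 1 else 0 := by
      funext k p
      by_cases hkp : k = k0 ∧ p = p0
      · obtain ⟨rfl, rfl⟩ := hkp
        simp [ha]
      · have h2 : ((k, p) : Fin 3 × VN N) ≠ (k0, p0) := by
          intro h3
          exact hkp ⟨congrArg Prod.fst h3, congrArg Prod.snd h3⟩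
        rw [if_neg hkp, add_zero]
        simp only [Finset.mem_insert, h2, false_or]
    rw [hfun]
    exact hH

theorem tHarmE (hEdge : S_Edge) : S_HarmE := by
  intro N _ hN w hw
  obtain ⟨f, hf, hr⟩ := harmE_aux hEdge N hN w hw Finset.univ
  refine ⟨f, ?_, hr⟩
  have hfun : (fun (k : Fin 3) (p : VN N) =>
      1 + if (k, p) ∈ (Finset.univ : Finset (Fin 3 × VN N)) then w k p - 1 else 0) = w := by
    funext k p
    simp
  rwa [hfun] at hf

end Pool.Agent.MPe54d61.TC
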