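import Pool.Agent.Lib.MP_e54d61_gt.TC.SpecB

set_option autoImplicit false

namespace Pool.Agent.MPe54d61.TC

open SimpleGraph

namespace HitsAux

variable {V : Type} {Γ : SimpleGraph V} {u v : V}

private lemma not_nil_append_left {a b c : V} (p : Γ.Walk a b) (q : Γ.Walk b c) (h : ¬ p.Nil) :
    ¬ (p.append q).Nil := by
  rw [← Walk.length_eq_zero_iff] at h ⊢
  rw [Walk.length_append]
  omega

private lemma length_lt {a b c : V} (p : Γ.Walk a b) (q : Γ.Walk b c) (h : ¬ q.Nil) :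
    p.length < (p.append q).length := by
  rw [← Walk.length_eq_zero_iff] at h
  rw [Walk.length_append]
  omega

private lemma length_lt' {a b c : V} (p : Γ.Walk a b) (q : Γ.Walk b c) (h : ¬ p.Nil) :
    q.length < (p.append q).length := by
  rw [← Walk.length_eq_zero_iff] at h
  rw [Walk.length_append]
  omega

/-- the first hit -/
private lemma first_hit (δ : Γ.Walk u v) (Q : Set V) : ∀ (n : ℕ) (z : V) (δ1 : Γ.Walk u z)
    (δ2 : Γ.Walk z v), δ1.length ≤ n → δ = δ1.append δ2 → ¬ δ1.Nil → ¬ δ2.Nil → z ∈ Q →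
    ∃ (w : V) (η1 : Γ.Walk u w) (η : Γ.Walk w v), δ = η1.append η ∧ ¬ η1.Nil ∧ ¬ η.Nil ∧ w ∈ Q ∧
      ∀ (z : V) (d1 : Γ.Walk u z) (d3 : Γ.Walk z w), η1 = d1.append d3 → ¬ d1.Nil → ¬ d3.Nil →
        z ∉ Q := by
  intro n
  induction n with
  | zero =>
    intro z δ1 δ2 hn _ h1 _ _
    exact absurd (Walk.length_eq_zero_iff.mp (Nat.le_zero.mp hn)) h1
  | succ n ih =>
    intro z δ1 δ2 hn he h1 h2 hz
    by_cases h : ∀ (z' : V) (d1 : Γ.Walk u z') (d3 : Γ.Walk z' z), δ1 = d1.append d3 → ¬ d1.Nil →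
        ¬ d3.Nil → z' ∉ Q
    · exact ⟨z, δ1, δ2, he, h1, h2, hz, h⟩
    · push Not at h
      obtain ⟨z', d1, d3, he', hd1, hd3, hz'⟩ := h
      refine ih z' d1 (d3.append δ2) ?_ ?_ hd1 (not_nil_append_left _ _ hd3) hz'
      · have := length_lt d1 d3 hd3
        rw [← he'] at this
        omega
      · rw [he, he', Walk.append_assoc]

/-- the last hit -/
private lemma last_hit (w : V) (η : Γ.Walk w v) (Q : Set V) : ∀ (n : ℕ) (z : V) (δ1 : Γ.Walk w z)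
    (δ2 : Γ.Walk z v), δ2.length ≤ n → η = δ1.append δ2 → ¬ δ2.Nil → z ∈ Q →
    ∃ (w' : V) (δ2 : Γ.Walk w w') (η2 : Γ.Walk w' v), η = δ2.append η2 ∧ ¬ η2.Nil ∧ w' ∈ Q ∧
      ∀ (z : V) (d1 : Γ.Walk w' z) (d3 : Γ.Walk z v), η2 = d1.append d3 → ¬ d1.Nil → ¬ d3.Nil →
        z ∉ Q := by
  intro n
  induction n with
  | zero =>
    intro z δ1 δ2 hn _ h2 _
    exact absurd (Walk.length_eq_zero_iff.mp (Nat.le_zero.mp hn)) h2
  | succ n ih =>
    intro z δ1 δ2 hn he h2 hz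
    by_cases h : ∀ (z' : V) (d1 : Γ.Walk z z') (d3 : Γ.Walk z' v), δ2 = d1.append d3 → ¬ d1.Nil →
        ¬ d3.Nil → z' ∉ Q
    · exact ⟨z, δ1, δ2, he, h2, hz, h⟩
    · push Not at h
      obtain ⟨z', d1, d3, he', hd1, hd3, hz'⟩ := h
      refine ih z' (δ1.append d1) d3 ?_ ?_ hd3 hz'
      · have := length_lt' d1 d3 hd1
        rw [← he'] at this
        omega
      · rw [he, he', Walk.append_assoc]

end HitsAux

theorem tHits : S_Hits := by
  intro V Γ u v δ Q _ _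
  by_cases h : ∀ (z : V) (δ1 : Γ.Walk u z) (δ2 : Γ.Walk z v), δ = δ1.append δ2 → ¬ δ1.Nil →
      ¬ δ2.Nil → z ∉ Q
  · exact Or.inl h
  · right
    push Not at h
    obtain ⟨z, δ1, δ2, he, h1, h2, hz⟩ := h
    obtain ⟨w, η1, η, he1, hη1, hη, hw, hin1⟩ :=
      HitsAux.first_hit δ Q δ1.length z δ1 δ2 le_rfl he h1 h2 hz
    obtain ⟨w', d, η2, he2, hη2, hw', hin2⟩ :=
      HitsAux.last_hit w η Q η.length w Walk.nil η le_rfl (by simp) hη hw
    exact ⟨w, w', η1, d, η2, by rw [he1, he2], hη1, hη2, hw, hw', hin1, hin2⟩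

end Pool.Agent.MPe54d61.TC
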