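import Pool.Agent.Lib.MP_e54d61_gt.TC.SpecA

/-!
# MP_e54d61_gt, torus case, part A: Hor (helper51)
-/

set_option autoImplicit false

namespace Pool.Agent.MPe54d61.TC

open Topology MatrixGroups

private lemma hor_zsmul (c : ℤ) (t : ℝ) : c • (t : Ci) = (((c : ℝ) * t : ℝ) : Ci) := by
  rw [← AddCircle.coe_zsmul, zsmul_eq_mul]

private lemma hor_int (n : ℤ) : (((n : ℤ) : ℝ) : Ci) = 0 := by
  rw [AddCircle.coe_eq_zero_iff]
  exact ⟨n, by simp⟩

private lemma hor_commute {G : Y ≃ₜ Y} (hG : ∀ z, G (tau z) = tau (G z)) (c : ℤ) (z : Y) :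
    G ((tau ^ c : Y ≃ₜ Y) z) = (tau ^ c : Y ≃ₜ Y) (G z) := by
  have h1 : Commute G tau := by
    ext z : 1
    exact hG z
  have h2 : Commute G (tau ^ c) := h1.zpow_right c
  exact congrArg (fun k : Y ≃ₜ Y => k z) h2.eq

theorem tHor (hLfG : S_LfG) : S_Hor := by
  intro s hs A hA
  obtain ⟨G, a, ⟨h1, h2, -⟩, -⟩ := hLfG s hs
  by_contra hc
  obtain ⟨c, hcd⟩ : ∃ c : ℤ, c = A 0 1 := ⟨_, rfl⟩
  obtain ⟨d, hd⟩ : ∃ d : ℤ, d = A 1 1 := ⟨_, rfl⟩
  rw [← hcd] at hc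
  let f : ℝ → ℝ := fun t => (G ((c : ℝ) * t, (((d : ℝ) * t : ℝ) : Ci))).1
  have hf : ∀ t, f t = (G ((c : ℝ) * t, (((d : ℝ) * t : ℝ) : Ci))).1 := fun _ => rfl
  have hcont : Continuous f := by
    refine continuous_fst.comp (G.continuous.comp ?_)
    refine Continuous.prodMk (by fun_prop) ?_
    exact (AddCircle.continuous_mk' 1).comp (by fun_prop)
  have hne : ∀ t, ((f t : ℝ) : Ci) ≠ 0 := by
    intro t ht
    apply hA (t : Ci)
    have e1 : mat A ((0 : Ci), (t : Ci))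
        = prY ((c : ℝ) * t, (((d : ℝ) * t : ℝ) : Ci)) := by
      show (A 0 0 • (0 : Ci) + A 0 1 • (t : Ci), A 1 0 • (0 : Ci) + A 1 1 • (t : Ci)) = _
      rw [← hcd, ← hd, hor_zsmul, hor_zsmul, smul_zero, smul_zero, zero_add, zero_add]
      rfl
    rw [e1, ← h1]
    exact ht
  have h01 : f 1 = f 0 + c := by
    have e1 : (((c : ℝ) * 1, (((d : ℝ) * 1 : ℝ) : Ci)) : Y)
        = (tau ^ c : Y ≃ₜ Y) ((c : ℝ) * 0, (((d : ℝ) * 0 : ℝ) : Ci)) := by
      rw [tau_zpow_apply]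
      ext
      · simp
      · show (((d : ℝ) * 1 : ℝ) : Ci) = (((d : ℝ) * 0 : ℝ) : Ci)
        rw [mul_one, mul_zero, hor_int]
        simp
    rw [hf, e1, hor_commute h2, tau_zpow_apply]
  have key : ∀ n : ℤ, (n : ℝ) ∈ Set.uIcc (f 0) (f 1) → False := by
    intro n hn
    obtain ⟨t, -, ht⟩ := intermediate_value_uIcc (hcont.continuousOn (s := Set.uIcc 0 1)) hn
    exact hne t (by rw [ht, hor_int])
  rcases lt_or_gt_of_ne hc with hlt | hgt
  · have hc1 : (c : ℝ) ≤ -1 := by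
      have : c ≤ -1 := by omega
      exact_mod_cast this
    apply key ⌊f 0⌋
    rw [Set.mem_uIcc]
    right
    exact ⟨by rw [h01]; linarith [Int.lt_floor_add_one (f 0)], Int.floor_le _⟩
  · have hc1 : (1 : ℝ) ≤ c := by
      have : 1 ≤ c := by omega
      exact_mod_cast this
    apply key ⌈f 0⌉
    rw [Set.mem_uIcc]
    left
    exact ⟨Int.le_ceil _, by rw [h01]; linarith [Int.ceil_lt_add_one (f 0)]⟩

end Pool.Agent.MPe54d61.TC
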