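import Pool.Agent.Lib.MP_e54d61_gt.TC.SpecS

/-!
# MP_e54d61_gt, torus case: KD (two disjoint essential cycles)
-/

set_option autoImplicit false

namespace Pool.Agent.MPe54d61.TC

open SimpleGraph

/-- **Module KD**: the union of two disjoint essential cycles carries a multivalued function with primitive
period which is constant along its edges. -/
theorem tKD (h1 : S_KDO) : S_KD := by
  intro N hN0 hN C C' hC hC' hD
  refine (h1 N hN0 hN C hC).mono ?_
  obtain ⟨x, c, -, rfl⟩ := hC'
  rintro e (he | he)
  · exact Or.inl he
  · refine Or.inr ⟨c.edges_subset_edgeSet he, fun v hv hvC => hD v hvC ⟨e, he, hv⟩⟩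

end Pool.Agent.MPe54d61.TC
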