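import Pool.Agent.Lib.MP_e54d61_gt.TC.SpecS

/-!
# MP_e54d61_gt, torus case: KDO (edges of an essential cycle and edges off it)
-/

set_option autoImplicit false

namespace Pool.Agent.MPe54d61.TC

open SimpleGraph MatrixGroups

theorem tKDO (h1 : S_Ed) (h2 : S_Prim) (h3 : S_UKof) (h4 : S_Mn) : S_KDO := by
  intro N hN0 hN C hC
  obtain ⟨x, c, hc, rfl⟩ := hC
  obtain ⟨φ, hφ⟩ := h4 N hN0 hN x c hc
  obtain ⟨n, A, hn, hκ⟩ := h2 (cls (kN N) c) hc.2
  obtain ⟨u, hu⟩ := h3 N hN0 hN (c2 A) (fun z => (φ z : ℝ) / n)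
  refine ⟨A, u, fun k p hkp => ?_⟩
  have hn' : (n : ℝ) ≠ 0 := by exact_mod_cast hn
  have key : (n : ℝ) * DU (c2 A) u k p =
      ((tw (cls (kN N) c) φ p (p + ed N k) : ℤ) : ℝ) := by
    rw [hu, hκ]
    simp only [tw, dz_smul_left]
    push_cast
    field_simp
    ring
  have hadj := (h1 N hN).2.2.1 k p
  have hz : tw (cls (kN N) c) φ p (p + ed N k) = 0 := by
    rcases hkp with h | h
    · exact (hφ _ _ hadj).1 h
    · have hnil : ¬ c.Nil := by
        intro h0
        apply hc.2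
        rw [Walk.eq_nil_iff_nil.2 h0, cls_nil]
      have hv : ∀ v ∈ s(p, p + ed N k), v ∉ c.support := by
        intro v hv hvs
        refine h.2 v hv ?_
        rw [vts_eds_of_ne hnil]
        exact hvs
      have ha := (hφ _ _ hadj).2.1 (hv _ (Sym2.mem_mk_right _ _))
      have hb := (hφ _ _ hadj).2.2.1 (hv _ (Sym2.mem_mk_left _ _))
      rcases ha with ha | ha
      · exact ha
      · rcases hb with hb | hb
        · exact hb
        · omega
  rw [hz, Int.cast_zero, mul_eq_zero] at key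
  exact key.resolve_left hn'

end Pool.Agent.MPe54d61.TC
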