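import Pool.Agent.Lib.MP_e54d61_gt.TC.SpecS

/-!
# MP_e54d61_gt, torus case, part S, module KI (statement `S_KI` of `SpecK`)

Essential cycles which meet in a common path: the determinant of the classes is `0` (KI0) or `± 1` (PairG) by KIb.
-/

set_option autoImplicit false

namespace Pool.Agent.MPe54d61.TC

open SimpleGraph MatrixGroups

theorem tKI (h1 : S_KIb) (h2 : S_KI0) (h3 : S_PairG) : S_KI := by
  obtain ⟨N0, hN0⟩ := h3
  refine ⟨max 3 N0, ?_⟩
  intro N hNe hN C C' _ _ hI
  have h3N : 3 ≤ N := le_trans (le_max_left _ _) hN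
  have h0N : N0 ≤ N := le_trans (le_max_right _ _) hN
  obtain ⟨x, y, s, α, β, hα, hβ, rfl, rfl, hd⟩ := hI
  have hb := h1 N hNe h3N x y s α β hα hβ hd
  by_cases h0 : dz (cls (kN N) (s.append α)) (cls (kN N) (s.append β)) = 0
  · exact Or.inl (h2 N hNe h3N x y s α β hα hβ hd h0)
  · have h1' : |dz (cls (kN N) (s.append α)) (cls (kN N) (s.append β))| = 1 := by
      have hpos : 0 < |dz (cls (kN N) (s.append α)) (cls (kN N) (s.append β))| := abs_pos.mpr h0
      omega
    exact Or.inr (hN0 N hNe h0N x y s α β hα hβ hd h1')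

end Pool.Agent.MPe54d61.TC
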