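import Pool.Agent.Lib.MP_e54d61_gt.TC.SpecS

/-!
# MP_e54d61_gt, torus case, part S: two essential cycles which meet in a common path, determinant zero
-/

set_option autoImplicit false

namespace Pool.Agent.MPe54d61.TC

open SimpleGraph MatrixGroups

theorem tKI0 (h1 : S_Grid) (h2 : S_ThPot) (h3 : S_Prim) (h4 : S_UKof) : S_KI0 := by
  intro N hN0 hN x y s α β hα hβ hz hd
  obtain ⟨n, A, hn, hκ⟩ := h3 (cls (kN N) (s.append α)) hα.2
  have hanti : Anti (kN N) := (h1 N hN).1
  let f : ℤ × ℤ →+ ℝ :=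
    { toFun := fun m => -(dz (c2 A) m : ℝ)
      map_zero' := by simp
      map_add' := fun a b => by simp only [dz_add_right]; push_cast; ring }
  have hf : ∀ m : ℤ × ℤ, f m = -(dz (c2 A) m : ℝ) := fun m => rfl
  have hρ : Anti fun a b : VN N => f (kN N a b) := by
    intro u v
    simp only [hf]
    rw [hanti u v, dz_neg_right]
    push_cast
    ring
  have e1 : cls (fun a b : VN N => f (kN N a b)) (s.append α) = 0 := by
    rw [cls_map, hf, hκ, dz_smul_right, dz_self]
    simp
  have e2 : cls (fun a b : VN N => f (kN N a b)) (s.append β) = 0 := by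
    rw [cls_map, hf]
    rw [hκ, dz_smul_left] at hd
    have h0 : dz (c2 A) (cls (kN N) (s.append β)) = 0 := (mul_eq_zero.1 hd).resolve_left hn
    rw [h0]
    simp
  obtain ⟨ψ, hψ⟩ := h2 (VN N) (ℤ × ℤ) inferInstance (GN N) (kN N) _ hρ x y s α β hα hβ hz e1 e2
  obtain ⟨u, hu⟩ := h4 N hN0 hN (c2 A) ψ
  refine ⟨A, u, fun k p hp => ?_⟩
  have hp' : s(p, p + ed N k) ∈ eds s ∪ eds α ∪ eds β := by
    rw [eds_append, eds_append] at hp
    rcases hp with (h | h) | (h | h)
    · exact Or.inl (Or.inl h)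
    · exact Or.inl (Or.inr h)
    · exact Or.inl (Or.inl h)
    · exact Or.inr h
  have h5 := hψ _ _ hp'
  simp only [hf] at h5
  rw [hu, add_sub_assoc, ← h5]
  ring

end Pool.Agent.MPe54d61.TC
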