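import Pool.Agent.Lib.MP_e54d61_gt.TC.SpecS

/-!
# MP_e54d61_gt, torus case, part S: the determinant is at most one (`S_KIb`)
-/

set_option autoImplicit false

namespace Pool.Agent.MPe54d61.TC

open SimpleGraph MatrixGroups

private theorem last_aux {V : Type*} {Γ : SimpleGraph V} {t : V → V → ℤ} {S : V → Prop}
    (h2 : ∀ u v, Γ.Adj u v → ¬ S v → t u v = 0 ∨ t u v = 1)
    (h3 : ∀ u v, Γ.Adj u v → ¬ S u → t u v = 0 ∨ t u v = -1) {z x : V} (p : Γ.Walk z x)
    (hp : p.support.Nodup) (hS : ∀ v ∈ p.support, v ≠ x → ¬ S v) :
    cls t p = 0 ∨ cls t p = -1 := by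
  induction p with
  | nil => exact Or.inl rfl
  | @cons z w x h p ih =>
    rw [Walk.support_cons, List.nodup_cons] at hp
    have hzx : z ≠ x := by
      rintro rfl
      exact hp.1 p.end_mem_support
    have hz : ¬ S z := hS z (by simp) hzx
    have hw := ih hp.2 fun v hv => hS v (by
      rw [Walk.support_cons]
      exact List.mem_cons_of_mem _ hv)
    cases p with
    | nil =>
      rw [cls_cons, cls_nil, add_zero]
      exact h3 _ _ h hz
    | @cons _ w' _ h' p' =>
      have hw1 : w ≠ x := by
        rintro rfl
        rw [Walk.support_cons, List.nodup_cons] at hp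
        exact hp.2.1 p'.end_mem_support
      have hwS : ¬ S w := hS w (by simp) hw1
      have h4 : t z w = 0 := by
        rcases h2 _ _ h hwS with h5 | h5
        · exact h5
        · rcases h3 _ _ h hz with h6 | h6
          · exact h6
          · rw [h5] at h6
            norm_num at h6
      rw [cls_cons, h4, zero_add]
      exact hw

theorem tKIb (h1 : S_Mn) : S_KIb := by
  intro N hN0 hN x y s α β hα hβ hint
  obtain ⟨φ, hφ⟩ := h1 N hN0 hN x (s.append α) hα
  set κ := cls (kN N) (s.append α) with hκ
  have e1 : dz κ (cls (kN N) (s.append β)) = cls (tw κ φ) β := by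
    have h2 : cls (tw κ φ) (s.append β) = dz κ (cls (kN N) (s.append β)) := by
      rw [cls_tw, sub_self, zero_add]
    have h3 : cls (tw κ φ) s = 0 := by
      refine cls_eq_zero s fun a b hab he => (hφ a b hab).1 ?_
      rw [eds_append]
      exact Or.inl he
    rw [← h2, cls_append, h3, zero_add]
  rw [e1]
  rw [ess_append_iff] at hβ
  obtain ⟨-, hβn, hdis, -⟩ := hβ
  have hoff : ∀ z ∈ β.support, z ≠ x → z ≠ y → z ∉ (s.append α).support := by
    intro z hz hzx hzy hzc
    rw [Walk.mem_support_append_iff] at hzc
    rcases hzc with h | h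
    · have h4 : z ∈ s.support.tail := by
        rw [← Walk.cons_tail_support] at h
        rcases List.mem_cons.1 h with h | h
        · exact absurd h hzx
        · exact h
      have h5 : z ∈ β.support.tail := by
        rw [← Walk.cons_tail_support] at hz
        rcases List.mem_cons.1 hz with h | h
        · exact absurd h hzy
        · exact h
      exact hdis h4 h5
    · rcases hint z h hz with h | h
      · exact hzx h
      · exact hzy h
  have hadj : ∀ u v, (GN N).Adj u v → v ∉ (s.append α).support →
      tw κ φ u v = 0 ∨ tw κ φ u v = 1 := fun u v h => (hφ u v h).2.1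
  have hadj' : ∀ u v, (GN N).Adj u v → u ∉ (s.append α).support →
      tw κ φ u v = 0 ∨ tw κ φ u v = -1 := fun u v h => (hφ u v h).2.2.1
  cases β with
  | nil => simp
  | @cons _ z _ h p =>
    have hpn : p.support.Nodup := hβn
    cases p with
    | nil =>
      rw [cls_cons, cls_nil, add_zero]
      exact (hφ _ _ h).2.2.2
    | @cons _ z' _ h' p' =>
      have hyp : ∀ v ∈ (Walk.cons h' p').support, v ≠ x → v ≠ y := by
        rintro v hv hvx rfl
        exact hdis (s.end_mem_tail_support_of_ne (Ne.symm hvx)) hv
      have hS : ∀ v ∈ (Walk.cons h' p').support, v ≠ x → ¬ v ∈ (s.append α).support := by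
        intro v hv hvx
        refine hoff v ?_ hvx (hyp v hv hvx)
        rw [Walk.support_cons]
        exact List.mem_cons_of_mem _ hv
      have hzx : z ≠ x := by
        rintro rfl
        rw [Walk.support_cons, List.nodup_cons] at hpn
        exact hpn.1 p'.end_mem_support
      have h5 := hadj _ _ h (hS z (by simp) hzx)
      have h6 := last_aux (S := fun v => v ∈ (s.append α).support) hadj hadj' _ hpn hS
      rw [cls_cons, abs_le]
      rcases h5 with h5 | h5 <;> rcases h6 with h6 | h6 <;> rw [h5, h6] <;> norm_num

end Pool.Agent.MPe54d61.TC
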