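import Pool.Agent.Lib.MP_e54d61_gt.TC.SpecS

/-!
# MP_e54d61_gt, torus case, part S, module KO: edges off an essential cycle
-/

set_option autoImplicit false

namespace Pool.Agent.MPe54d61.TC

theorem tKO (h1 : S_KDO) : S_KO := fun N inst hN C hC =>
  UK.mono (h1 N inst hN C hC) Set.subset_union_right

end Pool.Agent.MPe54d61.TC
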