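import Pool.Agent.Lib.MP_e54d61_gt.TC.SpecS

/-!
# MP_e54d61_gt, torus case, module KReal (helper27)
-/

set_option autoImplicit false

namespace Pool.Agent.MPe54d61.TC

open MatrixGroups

/-- **Module KReal**: realisation of a curve which avoids the edges of `K` -/
theorem tKReal (h1 : S_Real) (h2 : S_GeoSeg) : S_KReal := by
  obtain ⟨N0, h⟩ := h1
  refine ⟨N0, ?_⟩
  intro N hN hNN K hK
  obtain ⟨A, u, hu⟩ := hK
  obtain ⟨x, hx, hl, hr⟩ := h N hN hNN (fun k p => s(p, p + ed N k) ∈ K) A u hu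
  refine ⟨(x, A), ?_, hl, hr⟩
  rw [Set.disjoint_left]
  intro z hz hg
  obtain ⟨k, p, hkp, hs⟩ := h2 N hN K z hg
  exact (Set.disjoint_left.1 (hx k p hkp)) hz hs

end Pool.Agent.MPe54d61.TC
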