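import Pool.Agent.Lib.MP_e54d61_gt.TC.SpecS

/-!
# MP_e54d61_gt, torus case, part S: type (S) (`S_KS`)
-/

set_option autoImplicit false

namespace Pool.Agent.MPe54d61.TC

open SimpleGraph MatrixGroups

theorem tKS (h1 : S_Prim) (h2 : S_UKof) : S_KS := by
  rintro N hN0 hN C C' ⟨x, c, ⟨-, hne⟩, rfl⟩ - ⟨φ, l, hl⟩
  have hl0 : l ≠ 0 := by
    rintro rfl
    apply hne
    have h3 : cls (kN N) c = cls (fun a b => φ b - φ a) c := by
      refine cls_congr c fun a b hab => ?_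
      have h4 := hl a b (Or.inl hab)
      obtain ⟨i, hi⟩ := AddSubgroup.mem_zmultiples_iff.1 h4
      rw [smul_zero] at hi
      exact sub_eq_zero.1 hi.symm
    rw [h3, cls_pot, sub_self]
  obtain ⟨n, A, -, rfl⟩ := h1 l hl0
  obtain ⟨u, hu⟩ := h2 N hN0 hN (c2 A) (fun z => -(dz (c2 A) (φ z) : ℝ))
  refine ⟨A, u, fun k p hp => ?_⟩
  rw [hu]
  obtain ⟨i, hi⟩ := AddSubgroup.mem_zmultiples_iff.1 (hl p (p + ed N k) hp)
  have h5 : dz (c2 A) (kN N p (p + ed N k) - (φ (p + ed N k) - φ p)) = 0 := by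
    rw [← hi, dz_smul_right, dz_smul_right, dz_self, mul_zero, mul_zero]
  rw [dz_sub_right, dz_sub_right] at h5
  have h6 : (dz (c2 A) (kN N p (p + ed N k)) : ℝ) -
      ((dz (c2 A) (φ (p + ed N k)) : ℝ) - (dz (c2 A) (φ p) : ℝ)) = 0 := by
    exact_mod_cast h5
  linarith

end Pool.Agent.MPe54d61.TC
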