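import Pool.Agent.Lib.MP_e54d61_gt.TC.SpecA

/-!
# MP_e54d61_gt, torus case, part A: the lift of a map supported in a box (`tLfB : S_LfB`)
-/

set_option autoImplicit false

namespace Pool.Agent.MPe54d61.TC

open Topology

/-- the representative in `[-1/2, 1/2)` -/
private noncomputable def LfB_d (w : Ci) : ℝ :=
  (AddCircle.equivIco (1 : ℝ) (-1 / 2) w : ℝ)

private theorem LfB_coe (w : Ci) : ((LfB_d w : ℝ) : Ci) = w := AddCircle.coe_equivIco

private theorem LfB_abs (w : Ci) : |LfB_d w| ≤ 1 / 2 := by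
  have h := (AddCircle.equivIco (1 : ℝ) (-1 / 2) w).2
  rw [Set.mem_Ico] at h
  rw [abs_le]
  have h1 : (-1 / 2 : ℝ) ≤ LfB_d w := h.1
  have h2 : LfB_d w < -1 / 2 + 1 := h.2
  constructor <;> linarith

private theorem LfB_norm (w : Ci) : ‖w‖ = |LfB_d w| := by
  have h : ‖((LfB_d w : ℝ) : Ci)‖ = |LfB_d w| := by
    rw [AddCircle.norm_coe_eq_abs_iff _ one_ne_zero]
    simpa using LfB_abs w
  rwa [LfB_coe] at h

private theorem LfB_cont {w : Ci} (hw : ‖w‖ < 1 / 2) : ContinuousAt LfB_d w := by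
  have hne : w ≠ ((-1 / 2 : ℝ) : Ci) := by
    rintro rfl
    have h : ‖((-1 / 2 : ℝ) : Ci)‖ = |(-1 / 2 : ℝ)| := by
      rw [AddCircle.norm_coe_eq_abs_iff _ one_ne_zero]
      norm_num
    rw [h] at hw
    norm_num at hw
  have h1 := AddCircle.continuousAt_equivIco (1 : ℝ) (-1 / 2) hne
  exact continuous_subtype_val.continuousAt.comp h1

/-- the lift -/
private noncomputable def LfB_G (a : Ci) (h : T ≃ₜ T) (z : Y) : Y :=
  (z.1 + (LfB_d ((h (prY z)).1 - a) - LfB_d ((prY z).1 - a)), (h (prY z)).2)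

private theorem LfB_pr (a : Ci) (h : T ≃ₜ T) (z : Y) : prY (LfB_G a h z) = h (prY z) := by
  refine Prod.ext ?_ rfl
  show ((z.1 + (LfB_d ((h (prY z)).1 - a) - LfB_d ((prY z).1 - a)) : ℝ) : Ci) = (h (prY z)).1
  rw [AddCircle.coe_add, AddCircle.coe_sub, LfB_coe, LfB_coe]
  show ((z.1 : ℝ) : Ci) + ((h (prY z)).1 - a - (((z.1 : ℝ) : Ci) - a)) = (h (prY z)).1
  abel

private theorem LfB_out {a b : Ci} {h : T ≃ₜ T} (hh : SuppIn (Bx a b) h) {z : Y}
    (hz : prY z ∉ Bx a b) : LfB_G a h z = z := by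
  unfold LfB_G
  rw [hh _ hz, sub_self, add_zero]
  rfl

private theorem LfB_comp (a : Ci) {h h' : T ≃ₜ T} (hh : ∀ z, h' (h z) = z) (z : Y) :
    LfB_G a h' (LfB_G a h z) = z := by
  refine Prod.ext ?_ ?_
  · show (LfB_G a h z).1 + (LfB_d ((h' (prY (LfB_G a h z))).1 - a)
      - LfB_d ((prY (LfB_G a h z)).1 - a)) = z.1
    rw [LfB_pr, hh]
    show z.1 + (LfB_d ((h (prY z)).1 - a) - LfB_d ((prY z).1 - a)) + (LfB_d ((prY z).1 - a)
      - LfB_d ((h (prY z)).1 - a)) = z.1
    ring
  · show (h' (prY (LfB_G a h z))).2 = z.2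
    rw [LfB_pr, hh]
    rfl

private theorem LfB_prY : Continuous prY := by
  unfold prY
  exact ((AddCircle.continuous_mk' (1 : ℝ)).comp continuous_fst).prodMk continuous_snd

private theorem LfB_continuous {a b : Ci} {h : T ≃ₜ T} (hh : SuppIn (Bx a b) h) :
    Continuous (LfB_G a h) := by
  rw [continuous_iff_continuousAt]
  intro z
  have hp : ContinuousAt (fun z : Y => prY z) z := LfB_prY.continuousAt
  by_cases hz : ‖(prY z).1 - a‖ < 1 / 2
  · have hz' : ‖(h (prY z)).1 - a‖ < 1 / 2 := by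
      by_cases h1 : prY z ∈ Bx a b
      · have h2 := hh.mapsTo h1
        exact lt_of_le_of_lt h2.1 (by norm_num)
      · rwa [hh _ h1]
    have c1 : ContinuousAt (fun z : Y => h (prY z)) z :=
      (h.continuous.comp LfB_prY).continuousAt
    have c2 : ContinuousAt (fun z : Y => (h (prY z)).1 - a) z := by
      have : Continuous (fun z : Y => (h (prY z)).1 - a) :=
        (continuous_fst.comp (h.continuous.comp LfB_prY)).sub continuous_const
      exact this.continuousAt
    have c3 : ContinuousAt (fun z : Y => (prY z).1 - a) z := by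
      have : Continuous (fun z : Y => (prY z).1 - a) :=
        (continuous_fst.comp LfB_prY).sub continuous_const
      exact this.continuousAt
    have d1 : ContinuousAt (fun z : Y => LfB_d ((h (prY z)).1 - a)) z :=
      ContinuousAt.comp (f := fun z : Y => (h (prY z)).1 - a) (LfB_cont hz') c2
    have d2 : ContinuousAt (fun z : Y => LfB_d ((prY z).1 - a)) z :=
      ContinuousAt.comp (f := fun z : Y => (prY z).1 - a) (LfB_cont hz) c3
    have c4 : ContinuousAt (fun z : Y => (h (prY z)).2) z :=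
      continuous_snd.continuousAt.comp c1
    exact (continuous_fst.continuousAt.add (d1.sub d2)).prodMk c4
  · have ho : IsOpen {w : Y | 3 / 8 < ‖(prY w).1 - a‖} := by
      refine isOpen_lt continuous_const ?_
      exact ((continuous_fst.comp LfB_prY).sub continuous_const).norm
    have hm : z ∈ {w : Y | 3 / 8 < ‖(prY w).1 - a‖} := by
      show 3 / 8 < ‖(prY z).1 - a‖
      rw [not_lt] at hz
      exact lt_of_lt_of_le (by norm_num) hz
    refine continuousAt_id.congr ?_
    filter_upwards [ho.mem_nhds hm] with w hw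
    refine (LfB_out hh fun h1 => ?_).symm
    exact absurd h1.1 (not_le.2 hw)

theorem tLfB : S_LfB := by
  intro a b h hh
  refine ⟨⟨⟨LfB_G a h, LfB_G a h⁻¹, LfB_comp a fun z => h.symm_apply_apply z,
    LfB_comp a fun z => h.apply_symm_apply z⟩, LfB_continuous hh, LfB_continuous hh.inv⟩,
    ⟨fun z => LfB_pr a h z, fun z => ?_, 1, fun z => ?_⟩, fun z hz => LfB_out hh hz⟩
  · have h1 : prY (tau z) = prY z := by
      rw [tau_apply]
      refine Prod.ext ?_ rfl
      show ((z.1 + 1 : ℝ) : Ci) = ((z.1 : ℝ) : Ci)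
      rw [AddCircle.coe_add, AddCircle.coe_period, add_zero]
    show LfB_G a h (tau z) = tau (LfB_G a h z)
    rw [tau_apply (LfB_G a h z)]
    refine Prod.ext ?_ ?_
    · show (tau z).1 + (LfB_d ((h (prY (tau z))).1 - a) - LfB_d ((prY (tau z)).1 - a))
        = z.1 + (LfB_d ((h (prY z)).1 - a) - LfB_d ((prY z).1 - a)) + 1
      rw [h1, tau_apply]
      show z.1 + 1 + (LfB_d ((h (prY z)).1 - a) - LfB_d ((prY z).1 - a))
        = z.1 + (LfB_d ((h (prY z)).1 - a) - LfB_d ((prY z).1 - a)) + 1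
      ring
    · show (h (prY (tau z))).2 = (h (prY z)).2
      rw [h1]
  · show |z.1 + (LfB_d ((h (prY z)).1 - a) - LfB_d ((prY z).1 - a)) - z.1| ≤ 1
    have h1 := abs_le.1 (LfB_abs ((h (prY z)).1 - a))
    have h2 := abs_le.1 (LfB_abs ((prY z).1 - a))
    rw [abs_le]
    constructor <;> linarith [h1.1, h1.2, h2.1, h2.2]

end Pool.Agent.MPe54d61.TC
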