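import Pool.Agent.Lib.MP_e54d61_gt.TC.SpecA

/-!
# MP_e54d61_gt, torus case: half lifts of the elements of the group generated by flows
-/

set_option autoImplicit false

namespace Pool.Agent.MPe54d61.TC

open Topology MatrixGroups

theorem tLfG (hGenB : S_GenB) (hEl : S_El) (hLfM : S_LfM) : S_LfG := by
  intro g hg
  obtain ⟨l, hl, rfl⟩ := hGenB g hg
  clear hg
  induction l with
  | nil => exact hLfM.1
  | cons s l ih =>
    rw [List.prod_cons]
    obtain ⟨a, b, hs⟩ := hl s List.mem_cons_self
    exact hLfM.2 _ _ (hEl a b s hs) (ih fun t ht => hl t (List.mem_cons_of_mem _ ht))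

end Pool.Agent.MPe54d61.TC
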