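import Pool.Agent.Lib.MP_e54d61_gt.TC.SpecA

/-!
# MP_e54d61_gt, torus case, module LfM: the half lifts are multiplicative
-/

set_option autoImplicit false

namespace Pool.Agent.MPe54d61.TC

open Topology MatrixGroups

private theorem LfM_one : Lf 1 := by
  refine ⟨1, 1, ⟨fun z => rfl, fun z => rfl, 0, fun z => ?_⟩, 0, fun z _ => rfl, fun z _ => rfl, ?_⟩
  · show |z.1 - z.1| ≤ 0
    rw [sub_self, abs_zero]
  · have h : tau * 1 * tau⁻¹ * (1 : Y ≃ₜ Y)⁻¹ = 1 := by group
    rw [h]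
    exact HY.one_mem

private theorem LfM_mul (g g' : T ≃ₜ T) (hg : Lf g) (hg' : Lf g') : Lf (g * g') := by
  obtain ⟨G, a, ⟨hG1, hG2, D, hG3⟩, C, ha1, ha2, ha3⟩ := hg
  obtain ⟨G', a', ⟨hG1', hG2', D', hG3'⟩, C', ha1', ha2', ha3'⟩ := hg'
  refine ⟨G * G', a * a', ⟨fun z => ?_, fun z => ?_, D + D', fun z => ?_⟩,
    |C| + |C'| + |D| + |D'|, fun z hz => ?_, fun z hz => ?_, ?_⟩
  · show prY (G (G' z)) = g (g' (prY z))
    rw [hG1, hG1']
  · show G (G' (tau z)) = tau (G (G' z))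
    rw [hG2', hG2]
  · show |(G (G' z)).1 - z.1| ≤ D + D'
    have h1 := hG3 (G' z)
    have h2 := hG3' z
    have h3 : (G (G' z)).1 - z.1 = ((G (G' z)).1 - (G' z).1) + ((G' z).1 - z.1) := by ring
    rw [h3]
    exact (abs_add_le _ _).trans (add_le_add h1 h2)
  · show a (a' z) = G (G' z)
    have e1 := le_abs_self C
    have e2 := le_abs_self C'
    have e3 := le_abs_self D'
    have e4 := abs_nonneg D
    have e5 := abs_nonneg C
    have e6 := abs_nonneg C'
    have e7 := abs_nonneg D'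
    have h1 : a' z = G' z := ha1' z (by linarith)
    have h2 := (abs_le.1 (hG3' z)).2
    have h3 : a (G' z) = G (G' z) := ha1 _ (by linarith)
    rw [h1, h3]
  · show a (a' z) = z
    have e1 := le_abs_self C
    have e2 := le_abs_self C'
    have e4 := abs_nonneg D
    have e5 := abs_nonneg C
    have e6 := abs_nonneg C'
    have e7 := abs_nonneg D'
    rw [ha2' z (by linarith), ha2 z (by linarith)]
  · have h : tau * (a * a') * tau⁻¹ * (a * a')⁻¹ =
        (tau * a * tau⁻¹ * a⁻¹) * (a * (tau * a' * tau⁻¹ * a'⁻¹) * a⁻¹) := by group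
    rw [h]
    exact HY.mul_mem ha3 (HY_normal.conj_mem _ ha3' a)

theorem tLfM : S_LfM := ⟨LfM_one, LfM_mul⟩

end Pool.Agent.MPe54d61.TC
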