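import Pool.Agent.Lib.MP_e54d61_gt.TC.SpecF

/-!
# MP_e54d61_gt, torus case, part F: lifts of small maps to the plane (LfP)
-/

set_option autoImplicit false

namespace Pool.Agent.MPe54d61.TC

open Topology MatrixGroups

/-- the representative in `[-1/2, 1/2)` -/
private noncomputable def LfP_d (w : Ci) : ℝ := (AddCircle.equivIco (1 : ℝ) (-1 / 2) w : ℝ)

private theorem LfP_coe (w : Ci) : ((LfP_d w : ℝ) : Ci) = w :=
  AddCircle.coe_equivIco

private theorem LfP_mem (w : Ci) : -1 / 2 ≤ LfP_d w ∧ LfP_d w < 1 / 2 := by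
  have h := (AddCircle.equivIco (1 : ℝ) (-1 / 2) w).2
  refine ⟨h.1, ?_⟩
  have h2 := h.2
  show ((AddCircle.equivIco (1 : ℝ) (-1 / 2) w : Set.Ico ((-1 : ℝ) / 2) (-1 / 2 + 1)) : ℝ) < 1 / 2
  linarith

private theorem LfP_uni {x : ℝ} (h1 : -1 / 2 ≤ x) (h2 : x < 1 / 2) : LfP_d (x : Ci) = x := by
  have h : x ∈ Set.Ico ((-1 : ℝ) / 2) (-1 / 2 + 1) := ⟨h1, by linarith⟩
  exact AddCircle.equivIco_coe_of_mem h

private theorem LfP_abs (w : Ci) : |LfP_d w| = ‖w‖ := by
  have h : ‖((LfP_d w : ℝ) : Ci)‖ = |LfP_d w| := by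
    rw [AddCircle.norm_coe_eq_abs_iff (1 : ℝ) one_ne_zero, abs_one, abs_le]
    have := LfP_mem w
    constructor <;> linarith [this.1, this.2]
  rw [← h, LfP_coe]

private theorem LfP_neg {w : Ci} (hw : ‖w‖ < 1 / 2) : LfP_d (-w) = -LfP_d w := by
  have h1 : |LfP_d w| < 1 / 2 := by rw [LfP_abs]; exact hw
  rw [abs_lt] at h1
  have h2 : LfP_d ((-LfP_d w : ℝ) : Ci) = -LfP_d w :=
    LfP_uni (by linarith [h1.2]) (by linarith [h1.1])
  rw [AddCircle.coe_neg, LfP_coe] at h2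
  exact h2

private theorem LfP_cont {w : Ci} (hw : ‖w‖ < 1 / 2) : ContinuousAt LfP_d w := by
  have h1 : w ≠ (((-1 / 2 : ℝ)) : Ci) := by
    intro h
    have h2 : ‖(((-1 / 2 : ℝ)) : Ci)‖ = |(-1 / 2 : ℝ)| := by
      rw [AddCircle.norm_coe_eq_abs_iff (1 : ℝ) one_ne_zero, abs_one]
      norm_num [abs_le]
    rw [h, h2] at hw
    norm_num [abs_lt] at hw
  exact continuous_subtype_val.continuousAt.comp (AddCircle.continuousAt_equivIco (1 : ℝ) (-1 / 2) h1)

/-- the lift -/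
private noncomputable def LfP_F (s : T ≃ₜ T) (z : P) : P :=
  (z.1 + LfP_d ((s (pr z)).1 - (pr z).1), z.2 + LfP_d ((s (pr z)).2 - (pr z).2))

private theorem LfP_small {s : T ≃ₜ T} (hs : Small (1 / 4) s) (p : T) :
    ‖(s p).1 - p.1‖ < 1 / 2 ∧ ‖(s p).2 - p.2‖ < 1 / 2 := by
  obtain ⟨z0, hz0⟩ := hs
  by_cases hp : dist p z0 < 1 / 4
  · have hS : SuppIn {z | dist z z0 < 1 / 4} s := fun z hz => hz0 z (not_lt.1 hz)
    have h1 : dist (s p) z0 < 1 / 4 := hS.mapsTo hp
    have h2 : dist (s p) p < 1 / 2 := by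
      have h3 := dist_triangle_right (s p) p z0
      linarith
    rw [Prod.dist_eq, max_lt_iff, dist_eq_norm, dist_eq_norm] at h2
    exact h2
  · rw [hz0 p (not_lt.1 hp), sub_self, sub_self, norm_zero]
    norm_num

private theorem LfP_pr {s : T ≃ₜ T} (z : P) : pr (LfP_F s z) = s (pr z) := by
  ext
  · show ((z.1 + LfP_d ((s (pr z)).1 - (pr z).1) : ℝ) : Ci) = _
    rw [AddCircle.coe_add, LfP_coe]
    show (pr z).1 + _ = _
    abel
  · show ((z.2 + LfP_d ((s (pr z)).2 - (pr z).2) : ℝ) : Ci) = _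
    rw [AddCircle.coe_add, LfP_coe]
    show (pr z).2 + _ = _
    abel

private theorem LfP_inv {s t : T ≃ₜ T} (hs : Small (1 / 4) s) (hst : ∀ p, t (s p) = p) (z : P) :
    LfP_F t (LfP_F s z) = z := by
  have h0 := LfP_small hs (pr z)
  have h1 : LfP_F t (LfP_F s z) = ((LfP_F s z).1 + LfP_d ((t (pr (LfP_F s z))).1 - (pr (LfP_F s z)).1),
    (LfP_F s z).2 + LfP_d ((t (pr (LfP_F s z))).2 - (pr (LfP_F s z)).2)) := rfl
  rw [h1, LfP_pr, hst]
  ext
  · show z.1 + LfP_d ((s (pr z)).1 - (pr z).1) + LfP_d ((pr z).1 - (s (pr z)).1) = z.1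
    rw [← neg_sub (s (pr z)).1, LfP_neg h0.1]
    ring
  · show z.2 + LfP_d ((s (pr z)).2 - (pr z).2) + LfP_d ((pr z).2 - (s (pr z)).2) = z.2
    rw [← neg_sub (s (pr z)).2, LfP_neg h0.2]
    ring

private theorem LfP_prc : Continuous (pr : P → T) := by
  refine Continuous.prodMk ?_ ?_
  · exact (AddCircle.continuous_mk' 1).comp continuous_fst
  · exact (AddCircle.continuous_mk' 1).comp continuous_snd

private theorem LfP_continuous {s : T ≃ₜ T} (hs : Small (1 / 4) s) : Continuous (LfP_F s) := by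
  have h1 : Continuous fun z : P => s (pr z) := s.continuous.comp LfP_prc
  refine Continuous.prodMk ?_ ?_
  · refine continuous_fst.add (continuous_iff_continuousAt.2 fun z => ?_)
    have h2 : Continuous fun z : P => (s (pr z)).1 - (pr z).1 :=
      (continuous_fst.comp h1).sub (continuous_fst.comp LfP_prc)
    exact ContinuousAt.comp (f := fun z : P => (s (pr z)).1 - (pr z).1)
      (LfP_cont (LfP_small hs (pr z)).1) h2.continuousAt
  · refine continuous_snd.add (continuous_iff_continuousAt.2 fun z => ?_)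
    have h2 : Continuous fun z : P => (s (pr z)).2 - (pr z).2 :=
      (continuous_snd.comp h1).sub (continuous_snd.comp LfP_prc)
    exact ContinuousAt.comp (f := fun z : P => (s (pr z)).2 - (pr z).2)
      (LfP_cont (LfP_small hs (pr z)).2) h2.continuousAt

private theorem LfP_smallinv {s : T ≃ₜ T} (hs : Small (1 / 4) s) : Small (1 / 4) s.symm := by
  obtain ⟨z0, hz0⟩ := hs
  refine ⟨z0, fun z hz => ?_⟩
  rw [Homeomorph.symm_apply_eq, hz0 z hz]

theorem tLfP : S_LfP := by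
  intro s hs
  have hs' := LfP_smallinv hs
  refine ⟨⟨⟨LfP_F s, LfP_F s.symm, fun z => LfP_inv hs s.symm_apply_apply z,
    fun z => LfP_inv hs' s.apply_symm_apply z⟩, LfP_continuous hs, LfP_continuous hs'⟩,
    fun z => LfP_pr z, fun z v => ?_⟩
  show LfP_F s (z + iv v) = LfP_F s z + matP 1 (iv v)
  have h1 : pr (z + iv v) = pr z := by
    ext
    · show ((z.1 + (v.1 : ℝ) : ℝ) : Ci) = (z.1 : Ci)
      rw [AddCircle.coe_add]
      have : (((v.1 : ℝ)) : Ci) = 0 := by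
        rw [AddCircle.coe_eq_zero_iff]
        exact ⟨v.1, by simp⟩
      rw [this, add_zero]
    · show ((z.2 + (v.2 : ℝ) : ℝ) : Ci) = (z.2 : Ci)
      rw [AddCircle.coe_add]
      have : (((v.2 : ℝ)) : Ci) = 0 := by
        rw [AddCircle.coe_eq_zero_iff]
        exact ⟨v.2, by simp⟩
      rw [this, add_zero]
  have h2 : matP 1 (iv v) = iv v := by
    simp [matP, iv]
  rw [h2]
  unfold LfP_F
  rw [h1]
  ext
  · show z.1 + (v.1 : ℝ) + _ = z.1 + _ + (v.1 : ℝ)
    ring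
  · show z.2 + (v.2 : ℝ) + _ = z.2 + _ + (v.2 : ℝ)
    ring

end Pool.Agent.MPe54d61.TC
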