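import Pool.Agent.Lib.MP_e54d61_gt.TC.SpecP

/-!
# MP_e54d61_gt, torus case, module Lft: potentials on the grid from a lift of a marking
-/

set_option autoImplicit false

namespace Pool.Agent.MPe54d61.TC

open SimpleGraph

namespace LftAux

theorem cpos {N : ℕ} (hN : 3 ≤ N) : (0 : ℤ) < (N : ℤ) := by
  have : 0 < N := by omega
  exact_mod_cast this

/-- equal projections -/
theorem pr_eq {z z' : P} (h : pr z = pr z') : ∃ v : ℤ × ℤ, z = z' + iv v := by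
  have key : ∀ a b : ℝ, (a : Ci) = (b : Ci) → ∃ k : ℤ, a = b + k := by
    intro a b hab
    rw [← sub_eq_zero, ← AddCircle.coe_sub, AddCircle.coe_eq_zero_iff] at hab
    obtain ⟨k, hk⟩ := hab
    refine ⟨k, ?_⟩
    rw [zsmul_eq_mul, mul_one] at hk
    linarith
  obtain ⟨k1, h1⟩ := key _ _ (congrArg Prod.fst h)
  obtain ⟨k2, h2⟩ := key _ _ (congrArg Prod.snd h)
  exact ⟨(k1, k2), Prod.ext h1 h2⟩

theorem matP_iv (A : Matrix.SpecialLinearGroup (Fin 2) ℤ) (v : ℤ × ℤ) :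
    matP A (iv v) = iv (v.1 • e1 A + v.2 • e2 A) := by
  unfold matP iv e1 e2
  ext
  · simp
    ring
  · simp
    ring

/-- every integer vector is `A l` -/
theorem surj (A : Matrix.SpecialLinearGroup (Fin 2) ℤ) (w : ℤ × ℤ) :
    ∃ l : ℤ × ℤ, w = l.1 • e1 A + l.2 • e2 A := by
  refine ⟨(A 1 1 * w.1 - A 0 1 * w.2, -(A 1 0 * w.1) + A 0 0 * w.2), ?_⟩
  have h := det_SL A
  unfold e1 e2
  ext
  · simp only [Prod.fst_add, Prod.smul_fst, smul_eq_mul]
    linear_combination (-w.1) * h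
  · simp only [Prod.snd_add, Prod.smul_snd, smul_eq_mul]
    linear_combination (-w.2) * h

/-- two lattice points over the same vertex -/
theorem red_eq {N : ℕ} {p q : ℤ × ℤ} (h : red N p = red N q) :
    ∃ w : ℤ × ℤ, q = p + (N : ℤ) • w := by
  have key : ∀ a b : ℤ, (a : ZMod N) = (b : ZMod N) → ∃ k : ℤ, b = a + N * k := by
    intro a b hab
    rw [ZMod.intCast_eq_intCast_iff_dvd_sub] at hab
    obtain ⟨k, hk⟩ := hab
    exact ⟨k, by linarith⟩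
  obtain ⟨k1, h1⟩ := key _ _ (congrArg Prod.fst h)
  obtain ⟨k2, h2⟩ := key _ _ (congrArg Prod.snd h)
  exact ⟨(k1, k2), Prod.ext (by simpa using h1) (by simpa using h2)⟩

theorem red_add {N : ℕ} (p w : ℤ × ℤ) : red N (p + (N : ℤ) • w) = red N p := by
  refine Prod.ext ?_ ?_
  · show (((p + (N : ℤ) • w).1 : ℤ) : ZMod N) = ((p.1 : ℤ) : ZMod N)
    simp
  · show (((p + (N : ℤ) • w).2 : ℤ) : ZMod N) = ((p.2 : ℤ) : ZMod N)
    simp

theorem gp_add {N : ℕ} (hN : 3 ≤ N) (p w : ℤ × ℤ) : gp N (p + (N : ℤ) • w) = gp N p + iv w := by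
  have hN0 : (N : ℝ) ≠ 0 := by
    have : N ≠ 0 := by omega
    exact_mod_cast this
  unfold gp iv
  ext
  · simp
    field_simp
  · simp
    field_simp

theorem cel_add {N : ℕ} (hN : 3 ≤ N) (p w : ℤ × ℤ) : cel N (p + (N : ℤ) • w) = cel N p + w := by
  have hN0 := (cpos hN).ne'
  unfold cel
  ext
  · simp only [Prod.fst_add, Prod.smul_fst, smul_eq_mul]
    rw [Int.add_mul_ediv_left _ _ hN0]
  · simp only [Prod.snd_add, Prod.smul_snd, smul_eq_mul]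
    rw [Int.add_mul_ediv_left _ _ hN0]

theorem iv_add (v w : ℤ × ℤ) : iv (v + w) = iv v + iv w := by
  unfold iv
  ext <;> simp

theorem iv_neg (v : ℤ × ℤ) : iv (-v) = -iv v := by
  unfold iv
  ext <;> simp

end LftAux

open LftAux in
theorem tLft (hLiftP : S_LiftP) (hGrid : S_Grid) (hGeoE : S_GeoE) : S_Lft := by
  classical
  intro x S Λ hS hΛ1 hΛ2 N hN
  obtain ⟨F, hF1, hF2⟩ := hLiftP x
  set A := x.2 with hA
  have hAl : ∀ (z : P) (l : ℤ × ℤ), F (z + iv l) = F z + iv (l.1 • e1 A + l.2 • e2 A) := by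
    intro z l
    rw [hF2, matP_iv]
  have hO : IsOpen (F '' S) := F.isOpenMap S hS
  -- two points of `O` which differ by an integer vector
  have hdiff : ∀ (s s' : P) (w : ℤ × ℤ), s ∈ S → s' ∈ S → F s = F s' + iv w →
      ∃ l ∈ Λ, w = l.1 • e1 A + l.2 • e2 A := by
    intro s s' w hs hs' h
    obtain ⟨l, hl⟩ := surj A w
    refine ⟨l, ?_, hl⟩
    rw [hl, ← hAl] at h
    have h2 := F.injective h
    refine hΛ2 l s' hs' ?_
    rw [← h2]
    exact hs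
  -- points over the image
  have hover : ∀ z : P, pr z ∈ mm x '' (pr '' S) → ∃ s ∈ S, ∃ w : ℤ × ℤ, z = F s + iv w := by
    rintro z ⟨_, ⟨s, hs, rfl⟩, h⟩
    have h1 : pr z = pr (F s) := by
      rw [← h, hF1]
      rfl
    obtain ⟨v, hv⟩ := pr_eq h1
    exact ⟨s, hs, v, hv⟩
  let ok : VN N → (ℤ × ℤ) → Prop := fun u p => red N p = u ∧ gp N p ∈ F '' S
  let φ : VN N → ℤ × ℤ := fun u => if h : ∃ p, ok u p then cel N h.choose else 0
  have hφ : ∀ u, (∃ p, ok u p) → ∃ p, ok u p ∧ φ u = cel N p := by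
    intro u h
    refine ⟨h.choose, h.choose_spec, ?_⟩
    show (if h : ∃ p, ok u p then cel N h.choose else 0) = _
    rw [dif_pos h]
  refine ⟨φ, fun u v huv hgeo => ?_⟩
  -- a lattice point for `u`
  have hu : ∃ p, ok u p := by
    obtain ⟨hne, p0, q0, hpq, hp0, hq0⟩ := huv
    have h1 : pr (gp N p0) ∈ geo N {s(u, v)} :=
      ⟨p0, q0, hpq, by rw [hp0, hq0]; rfl, gp N p0, left_mem_segment ℝ _ _, rfl⟩
    obtain ⟨s, hs, w, hw⟩ := hover _ (hgeo h1)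
    refine ⟨p0 + (N : ℤ) • (-w), ?_, ?_⟩
    · rw [red_add, hp0]
    · rw [gp_add hN, hw, iv_neg, add_neg_cancel_right]
      exact ⟨s, hs, rfl⟩
  obtain ⟨p, ⟨hp1, hp2⟩, hp3⟩ := hφ u hu
  obtain ⟨q, hq1, hq2⟩ := (hGrid N hN).2.2 u v huv p hp1
  -- the segment
  have hseg : pr '' segment ℝ (gp N p) (gp N q) ⊆ mm x '' (pr '' S) := by
    rw [← hGeoE N hN p q hq1, hp1, hq2]
    exact hgeo
  let O' : Set P := {z | ∃ w : ℤ × ℤ, (∀ s ∈ S, ∀ s' ∈ S, F s ≠ F s' + iv w) ∧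
    z + -iv w ∈ F '' S}
  have hO' : IsOpen O' := by
    have : O' = ⋃ w : {w : ℤ × ℤ // ∀ s ∈ S, ∀ s' ∈ S, F s ≠ F s' + iv w},
        (fun z : P => z + -iv w.1) ⁻¹' (F '' S) := by
      ext z
      simp only [O', Set.mem_setOf_eq, Set.mem_iUnion, Set.mem_preimage, Subtype.exists, exists_prop]
    rw [this]
    exact isOpen_iUnion fun w => hO.preimage (continuous_id.add continuous_const)
  have hdisj : Disjoint (F '' S) O' := by
    rw [Set.disjoint_left]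
    rintro z ⟨s, hs, hsz⟩ ⟨w, hw, ⟨s', hs', hsz'⟩⟩
    refine hw s hs s' hs' ?_
    rw [hsz, hsz']
    abel
  have hcov : segment ℝ (gp N p) (gp N q) ⊆ F '' S ∪ O' := by
    intro z hz
    obtain ⟨s, hs, w, hw⟩ := hover z (hseg ⟨z, hz, rfl⟩)
    by_cases hc : ∀ s ∈ S, ∀ s' ∈ S, F s ≠ F s' + iv w
    · refine Or.inr ⟨w, hc, s, hs, ?_⟩
      rw [hw]
      abel
    · left
      push Not at hc
      obtain ⟨s1, hs1, s2, hs2, h12⟩ := hc
      obtain ⟨l, hl, hlw⟩ := hdiff s1 s2 w hs1 hs2 h12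
      refine ⟨s + iv l, hΛ1 l hl s hs, ?_⟩
      rw [hAl, ← hlw, hw]
  have hq : gp N q ∈ F '' S := by
    have h1 : segment ℝ (gp N p) (gp N q) ⊆ F '' S :=
      IsPreconnected.subset_left_of_subset_union hO hO' hdisj hcov
        ⟨gp N p, left_mem_segment ℝ _ _, hp2⟩ (convex_segment _ _).isPreconnected
    exact h1 (right_mem_segment ℝ _ _)
  obtain ⟨q', ⟨hq'1, hq'2⟩, hq'3⟩ := hφ v ⟨q, hq2, hq⟩
  obtain ⟨w, hw⟩ := red_eq (hq'1.trans hq2.symm)
  have hl : ∃ l ∈ Λ, w = l.1 • e1 A + l.2 • e2 A := by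
    obtain ⟨s, hs, hsq⟩ := hq
    obtain ⟨s', hs', hsq'⟩ := hq'2
    refine hdiff s s' w hs hs' ?_
    rw [hsq, hsq', hw, gp_add hN]
  obtain ⟨l, hlΛ, hlw⟩ := hl
  refine ⟨l, hlΛ, ?_⟩
  rw [← hlw, hp3, hq'3, ← hp1, ← hq2, ((hGrid N hN).2.1 p q hq1).2, hw, cel_add hN]
  abel

end Pool.Agent.MPe54d61.TC
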