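import Pool.Agent.Lib.MP_e54d61_gt.TC.SpecF

/-!
# MP_e54d61_gt, torus case, part F: lifts of the elements of `GT ⋊ SL₂(ℤ)` to the plane (LiftP)
-/

set_option autoImplicit false

namespace Pool.Agent.MPe54d61.TC

open Topology MatrixGroups

private theorem LiftP_iv (A : SL(2, ℤ)) (v : ℤ × ℤ) :
    matP A (iv v) = iv (A 0 0 * v.1 + A 0 1 * v.2, A 1 0 * v.1 + A 1 1 * v.2) := by
  simp [matP, iv]

private theorem LiftP_one (z : P) : matP 1 z = z := by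
  simp [matP]

private theorem LiftP_mul {s g : T ≃ₜ T} {F F' : P ≃ₜ P} {A : SL(2, ℤ)} (h : LiftP s F 1)
    (h' : LiftP g F' A) : LiftP (s * g) (F * F') A := by
  refine ⟨fun z => ?_, fun z v => ?_⟩
  · show pr (F (F' z)) = s (g (pr z))
    rw [h.1, h'.1]
  · show F (F' (z + iv v)) = F (F' z) + matP A (iv v)
    rw [h'.2, LiftP_iv, h.2, LiftP_one]

private theorem LiftP_id : LiftP 1 1 1 := by
  refine ⟨fun z => rfl, fun z v => ?_⟩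
  show z + iv v = z + matP 1 (iv v)
  rw [LiftP_one]

private theorem LiftP_list (hLfP : S_LfP) (l : List (T ≃ₜ T)) (hl : ∀ s ∈ l, Small (1 / 4) s) :
    ∃ F : P ≃ₜ P, LiftP l.prod F 1 := by
  induction l with
  | nil => exact ⟨1, LiftP_id⟩
  | cons s l ih =>
    obtain ⟨F', hF'⟩ := ih fun t ht => hl t (List.mem_cons_of_mem _ ht)
    obtain ⟨F, hF⟩ := hLfP s (hl s List.mem_cons_self)
    rw [List.prod_cons]
    exact ⟨F * F', LiftP_mul hF hF'⟩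

private theorem LiftP_det (A : SL(2, ℤ)) :
    (A 0 0 : ℝ) * (A 1 1 : ℝ) - (A 0 1 : ℝ) * (A 1 0 : ℝ) = 1 := by
  exact_mod_cast det_SL A

/-- the matrix as a homeomorphism of the plane -/
private noncomputable def LiftP_m (A : SL(2, ℤ)) : P ≃ₜ P where
  toFun := matP A
  invFun z := ((A 1 1 : ℝ) * z.1 - (A 0 1 : ℝ) * z.2, -((A 1 0 : ℝ) * z.1) + (A 0 0 : ℝ) * z.2)
  left_inv z := by
    have h := LiftP_det A
    refine Prod.ext ?_ ?_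
    · show (A 1 1 : ℝ) * ((A 0 0 : ℝ) * z.1 + (A 0 1 : ℝ) * z.2)
        - (A 0 1 : ℝ) * ((A 1 0 : ℝ) * z.1 + (A 1 1 : ℝ) * z.2) = z.1
      linear_combination z.1 * h
    · show -((A 1 0 : ℝ) * ((A 0 0 : ℝ) * z.1 + (A 0 1 : ℝ) * z.2))
        + (A 0 0 : ℝ) * ((A 1 0 : ℝ) * z.1 + (A 1 1 : ℝ) * z.2) = z.2
      linear_combination z.2 * h
  right_inv z := by
    have h := LiftP_det A
    refine Prod.ext ?_ ?_
    · show (A 0 0 : ℝ) * ((A 1 1 : ℝ) * z.1 - (A 0 1 : ℝ) * z.2)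
        + (A 0 1 : ℝ) * (-((A 1 0 : ℝ) * z.1) + (A 0 0 : ℝ) * z.2) = z.1
      linear_combination z.1 * h
    · show (A 1 0 : ℝ) * ((A 1 1 : ℝ) * z.1 - (A 0 1 : ℝ) * z.2)
        + (A 1 1 : ℝ) * (-((A 1 0 : ℝ) * z.1) + (A 0 0 : ℝ) * z.2) = z.2
      linear_combination z.2 * h
  continuous_toFun := by
    unfold matP
    fun_prop
  continuous_invFun := by fun_prop

private theorem LiftP_lin (A : SL(2, ℤ)) : LiftP (mat A) (LiftP_m A) A := by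
  refine ⟨fun z => ?_, fun z v => ?_⟩
  · refine Prod.ext ?_ ?_
    · show (((A 0 0 : ℝ) * z.1 + (A 0 1 : ℝ) * z.2 : ℝ) : Ci) = A 0 0 • (z.1 : Ci) + A 0 1 • (z.2 : Ci)
      rw [← AddCircle.coe_zsmul, ← AddCircle.coe_zsmul, ← AddCircle.coe_add, zsmul_eq_mul, zsmul_eq_mul]
    · show (((A 1 0 : ℝ) * z.1 + (A 1 1 : ℝ) * z.2 : ℝ) : Ci) = A 1 0 • (z.1 : Ci) + A 1 1 • (z.2 : Ci)
      rw [← AddCircle.coe_zsmul, ← AddCircle.coe_zsmul, ← AddCircle.coe_add, zsmul_eq_mul, zsmul_eq_mul]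
  · show matP A (z + iv v) = matP A z + matP A (iv v)
    refine Prod.ext ?_ ?_
    · show (A 0 0 : ℝ) * (z.1 + (iv v).1) + (A 0 1 : ℝ) * (z.2 + (iv v).2)
        = (A 0 0 : ℝ) * z.1 + (A 0 1 : ℝ) * z.2 + ((A 0 0 : ℝ) * (iv v).1 + (A 0 1 : ℝ) * (iv v).2)
      ring
    · show (A 1 0 : ℝ) * (z.1 + (iv v).1) + (A 1 1 : ℝ) * (z.2 + (iv v).2)
        = (A 1 0 : ℝ) * z.1 + (A 1 1 : ℝ) * z.2 + ((A 1 0 : ℝ) * (iv v).1 + (A 1 1 : ℝ) * (iv v).2)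
      ring

theorem tLiftP (hGen : S_Gen) (hLfP : S_LfP) : S_LiftP := by
  intro x
  obtain ⟨l, hl, hp⟩ := hGen (1 / 4) (by norm_num) (x.1 : T ≃ₜ T) x.1.2
  obtain ⟨F, hF⟩ := LiftP_list hLfP l fun s hs => (hl s hs).1
  rw [hp] at hF
  exact ⟨F * LiftP_m x.2, LiftP_mul hF (LiftP_lin x.2)⟩

end Pool.Agent.MPe54d61.TC
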