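import Pool.Agent.Lib.MP_e54d61_gt.TC.SpecH

/-!
# MP_e54d61_gt, torus case, part H: the curves as level sets
-/

set_option autoImplicit false

namespace Pool.Agent.MPe54d61.TC

open Topology MatrixGroups

namespace LineAux

theorem mat_apply (B : SL(2, ℤ)) (z : T) :
    mat B z = (B 0 0 • z.1 + B 0 1 • z.2, B 1 0 • z.1 + B 1 1 • z.2) := rfl

theorem mat_symm_apply (B : SL(2, ℤ)) (z : T) :
    (mat B).symm z = (B 1 1 • z.1 - B 0 1 • z.2, -(B 1 0 • z.1) + B 0 0 • z.2) := rfl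

/-- the image of the curve `0 × Ci` -/
theorem mem_img (B : SL(2, ℤ)) (w : T) :
    (∃ y : Ci, w = mat B ((0 : Ci), y)) ↔ B 1 1 • w.1 - B 0 1 • w.2 = 0 := by
  constructor
  · rintro ⟨y, rfl⟩
    have h := congrArg Prod.fst ((mat B).symm_apply_apply ((0 : Ci), y))
    rw [mat_symm_apply] at h
    exact h
  · intro h
    refine ⟨((mat B).symm w).2, ?_⟩
    have h1 : ((mat B).symm w) = ((0 : Ci), ((mat B).symm w).2) := by
      refine Prod.ext ?_ rfl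
      rw [mat_symm_apply]
      exact h
    rw [← h1, Homeomorph.apply_symm_apply]

/-- the same for the image of a point of the plane -/
theorem mem_img_pr (B : SL(2, ℤ)) (ζ : P) :
    (∃ y : Ci, pr ζ = mat B ((0 : Ci), y)) ↔ ∃ n : ℤ, (B 1 1 : ℝ) * ζ.1 - (B 0 1 : ℝ) * ζ.2 = n := by
  rw [mem_img]
  have h1 : B 1 1 • (pr ζ).1 - B 0 1 • (pr ζ).2 =
      (((B 1 1 : ℝ) * ζ.1 - (B 0 1 : ℝ) * ζ.2 : ℝ) : Ci) := by
    rw [AddCircle.coe_sub, ← zsmul_eq_mul, ← zsmul_eq_mul, AddCircle.coe_zsmul, AddCircle.coe_zsmul]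
    rfl
  rw [h1, AddCircle.coe_eq_zero_iff]
  constructor
  · rintro ⟨n, hn⟩
    exact ⟨n, by rw [← hn]; simp⟩
  · rintro ⟨n, hn⟩
    exact ⟨n, by rw [hn]; simp⟩

theorem pr_sub (a b : P) : pr (a - b) = pr a - pr b := rfl

theorem mem_cur (g t : GT) (c : P) (ht : ∀ z, (t : T ≃ₜ T) z = z + pr c) (Φ : P → P)
    (hΦ : ∀ z, pr (Φ z) = (g : T ≃ₜ T) (pr z)) (B : SL(2, ℤ)) (z : P) :
    pr z ∈ cur (g⁻¹ * t, B) ↔
      ∃ n : ℤ, (B 1 1 : ℝ) * (Φ z - c).1 - (B 0 1 : ℝ) * (Φ z - c).2 = n := by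
  rw [← mem_img_pr, pr_sub, hΦ z]
  have hc : ∀ y : Ci, (((g⁻¹ * t : GT) : T ≃ₜ T)) (mat B ((0 : Ci), y)) =
      ((g : T ≃ₜ T)).symm (mat B ((0 : Ci), y) + pr c) := by
    intro y
    rw [← ht]
    rfl
  constructor
  · rintro ⟨y, hy⟩
    refine ⟨y, ?_⟩
    have h2 : pr z = ((g : T ≃ₜ T)).symm (mat B ((0 : Ci), y) + pr c) := hy.trans (hc y)
    rw [h2, Homeomorph.apply_symm_apply, add_sub_cancel_right]
  · rintro ⟨y, hy⟩
    refine ⟨y, ?_⟩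
    have h2 : (g : T ≃ₜ T) (pr z) = mat B ((0 : Ci), y) + pr c := by
      rw [← hy, sub_add_cancel]
    refine Eq.trans ?_ (hc y).symm
    rw [← h2, Homeomorph.symm_apply_apply]

theorem mulJm (A : SL(2, ℤ)) (i : Fin 2) : ((A * Jm) i 1 : ℤ) = -(A i 0) := by
  have h : ((A * Jm : SL(2, ℤ)) : Matrix (Fin 2) (Fin 2) ℤ) =
      (A : Matrix (Fin 2) (Fin 2) ℤ) * !![0, -1; 1, 0] := rfl
  rw [h, Matrix.mul_apply, Fin.sum_univ_two]
  simp

end LineAux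

open LineAux

theorem tLine (hTransl : S_Transl) : S_Line := by
  intro Φ g hΦ A θ1 θ2
  obtain ⟨t, ht⟩ := hTransl (pr (matP A (-θ1, θ2)))
  have hdet : (A 0 0 : ℝ) * (A 1 1 : ℝ) - (A 0 1 : ℝ) * (A 1 0 : ℝ) = 1 := by
    exact_mod_cast det_SL A
  refine ⟨g⁻¹ * t, fun z => ?_, fun z => ?_⟩
  · rw [mem_cur g t _ ht Φ hΦ A z]
    have h1 : (A 1 1 : ℝ) * (Φ z - matP A (-θ1, θ2)).1 - (A 0 1 : ℝ) * (Φ z - matP A (-θ1, θ2)).2 =
        -(dt (iv (c2 A)) (Φ z)) + θ1 := by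
      simp only [dt, iv, c2, matP, Prod.fst_sub, Prod.snd_sub]
      linear_combination θ1 * hdet
    rw [h1]
    constructor
    · rintro ⟨n, hn⟩
      refine ⟨-n, ?_⟩
      push_cast
      linarith
    · rintro ⟨n, hn⟩
      refine ⟨-n, ?_⟩
      push_cast
      linarith
  · rw [mem_cur g t _ ht Φ hΦ (A * Jm) z]
    have e1 : ((A * Jm) 1 1 : ℤ) = -(A 1 0) := mulJm A 1
    have e2 : ((A * Jm) 0 1 : ℤ) = -(A 0 0) := mulJm A 0
    rw [e1, e2]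
    have h1 : ((-(A 1 0) : ℤ) : ℝ) * (Φ z - matP A (-θ1, θ2)).1 -
        ((-(A 0 0) : ℤ) : ℝ) * (Φ z - matP A (-θ1, θ2)).2 =
        dt (iv (c1 A)) (Φ z) - θ2 := by
      simp only [dt, iv, c1, matP, Prod.fst_sub, Prod.snd_sub, Int.cast_neg]
      linear_combination (-θ2) * hdet
    rw [h1]
    constructor
    · rintro ⟨n, hn⟩
      exact ⟨n, by linarith⟩
    · rintro ⟨n, hn⟩
      exact ⟨n, by linarith⟩

end Pool.Agent.MPe54d61.TC
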