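import Pool.Agent.Lib.MP_e54d61_gt.TC.SpecE

/-!
# MP_e54d61_gt, torus case: chains of cycles and distances (`S_LkNR`)
-/

set_option autoImplicit false

namespace Pool.Agent.MPe54d61.TC

theorem tLkNR : S_LkNR := by
  intro N1 hB N hN m
  obtain ⟨-, hB1⟩ := hB
  obtain ⟨hex, hst⟩ := hB1 N hN
  induction m with
  | zero =>
    intro C C' hL z z' hz hz'
    obtain ⟨c, h0, hm, hE, -⟩ := hL
    have hCC : C = C' := by rw [← h0, ← hm]
    have hC : EC (GN N) (kN N) C := by
      rw [← h0]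
      exact hE 0 le_rfl
    have h := hst C C' hC (hCC ▸ hC) (Or.inl hCC) z z' hz hz'
    simpa using h
  | succ m ih =>
    intro C C' hL z z' hz hz'
    obtain ⟨c, h0, hm, hE, hR⟩ := hL
    obtain ⟨z1, hz1⟩ := hex (c 1) (hE 1 (by omega))
    have hC : EC (GN N) (kN N) C := by
      rw [← h0]
      exact hE 0 (by omega)
    have hr : RR (GN N) (kN N) C (c 1) := by
      have h := hR 0 (by omega)
      rw [h0] at h
      exact h
    obtain ⟨w1, hw1⟩ := hst C (c 1) hC (hE 1 (by omega)) hr z z1 hz hz1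
    obtain ⟨w2, hw2⟩ := ih (c 1) C' ⟨fun i => c (i + 1), rfl, hm, fun i hi => hE (i + 1) (by omega),
      fun i hi => hR (i + 1) (by omega)⟩ z1 z' hz1 hz'
    refine ⟨w1.append w2, ?_⟩
    rw [SimpleGraph.Walk.length_append]
    omega

end Pool.Agent.MPe54d61.TC
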