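import Pool.Agent.Lib.MP_e54d61_gt.TC.SpecE

/-!
# MP_e54d61_gt, torus case, part E: disjoint curves (`S_LnkD`)
-/

set_option autoImplicit false

namespace Pool.Agent.MPe54d61.TC

open SimpleGraph Filter Topology

private theorem mm_mem (x : X) (t : ℝ) : mm x (pr (0, t)) ∈ cur x := by
  refine ⟨(t : Ci), ?_⟩
  show (x.1 : T ≃ₜ T) (mat x.2 (((0 : ℝ) : Ci), (t : Ci))) = _
  rw [show ((0 : ℝ) : Ci) = 0 from rfl]

private theorem cur_compact (x : X) : IsCompact (cur x) := by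
  have h1 : cur x = Set.range fun y : Ci => (x.1 : T ≃ₜ T) (mat x.2 ((0 : Ci), y)) := by
    ext z
    constructor
    · rintro ⟨y, rfl⟩
      exact ⟨y, rfl⟩
    · rintro ⟨y, rfl⟩
      exact ⟨y, rfl⟩
  rw [h1]
  exact isCompact_range ((x.1 : T ≃ₜ T).continuous.comp ((mat x.2).continuous.comp (by fun_prop)))

theorem tLnkD (hGeoC : S_GeoC) (hGeoV : S_GeoV) (hPixX : S_PixX) (hSubB : S_SubB)
    (hSubG : S_SubG) : S_LnkD := by
  intro x y hxy N hN A B hA hB hxA hyB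
  have hN1 : 1 ≤ N := by omega
  obtain ⟨U, U', hU, hU', hxU, hyU, hUU⟩ :=
    SeparatedNhds.of_isCompact_isCompact (cur_compact x) (cur_compact y) hxy
  obtain ⟨N0, hN0⟩ := hPixX x 0 (U ∩ (geo N A)ᶜ) (hU.inter (hGeoC N hN1 A).isOpen_compl)
    (fun t => ⟨hxU (mm_mem x t), Set.disjoint_left.1 hxA (mm_mem x t)⟩)
  obtain ⟨N0', hN0'⟩ := hPixX y 0 (U' ∩ (geo N B)ᶜ) (hU'.inter (hGeoC N hN1 B).isOpen_compl)
    (fun t => ⟨hyU (mm_mem y t), Set.disjoint_left.1 hyB (mm_mem y t)⟩)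
  obtain ⟨k, hk1, hkN, hkN'⟩ : ∃ k : ℕ, 1 ≤ k ∧ N0 ≤ k ∧ N0' ≤ k :=
    ⟨1 + N0 + N0', by omega, by omega, by omega⟩
  have hkm : k ≤ k * N := Nat.le_mul_of_pos_right _ (by omega)
  have hkN3 : 3 ≤ k * N := hN.trans (Nat.le_mul_of_pos_left _ (by omega))
  obtain ⟨Q, hQ, hQW⟩ := hN0 (k * N) (hkN.trans hkm)
  obtain ⟨Q', hQ', hQW'⟩ := hN0' (k * N) (hkN'.trans hkm)
  have hA' := (hSubB N k hN hk1 A B A).1 hA
  have hB' := (hSubB N k hN hk1 B B B).1 hB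
  have h1 : AdjD (sub N k A) Q := hGeoV (k * N) hkN3 _ _ hA' hQ
    (Set.disjoint_left.2 fun z hz hz' => (hQW hz').2 (hSubG N k hN hk1 A hz))
  have h2 : AdjD Q Q' := hGeoV (k * N) hkN3 _ _ hQ hQ'
    (Set.disjoint_left.2 fun z hz hz' => Set.disjoint_left.1 hUU (hQW hz).1 (hQW' hz').1)
  have h3 : AdjD Q' (sub N k B) := hGeoV (k * N) hkN3 _ _ hQ' hB'
    (Set.disjoint_left.2 fun z hz hz' => (hQW' hz).2 (hSubG N k hN hk1 B hz'))
  refine ⟨k, hk1, 3, by norm_num, fun i => match i with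
    | 0 => sub N k A
    | 1 => Q
    | 2 => Q'
    | _ => sub N k B, rfl, rfl, ?_, ?_⟩
  · intro i hi
    match i, hi with
    | 0, _ => exact hA'
    | 1, _ => exact hQ
    | 2, _ => exact hQ'
    | 3, _ => exact hB'
  · intro i hi
    match i, hi with
    | 0, _ => exact Or.inr (Or.inl h1)
    | 1, _ => exact Or.inr (Or.inl h2)
    | 2, _ => exact Or.inr (Or.inl h3)

end Pool.Agent.MPe54d61.TC
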