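import Pool.Agent.Lib.MP_e54d61_gt.TC.SpecE

/-!
# MP_e54d61_gt, torus case, part E: curves avoided by the same vertex (`S_LnkE`)
-/

set_option autoImplicit false

namespace Pool.Agent.MPe54d61.TC

open SimpleGraph Filter Topology

private theorem mm_mem (x : X) (t : ℝ) : mm x (pr (0, t)) ∈ cur x := by
  refine ⟨(t : Ci), ?_⟩
  show (x.1 : T ≃ₜ T) (mat x.2 (((0 : ℝ) : Ci), (t : Ci))) = _
  rw [show ((0 : ℝ) : Ci) = 0 from rfl]

theorem tLnkE (hGeoC : S_GeoC) (hGeoV : S_GeoV) (hPixX : S_PixX) (hSubB : S_SubB)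
    (hSubG : S_SubG) : S_LnkE := by
  intro x N hN A B hA hB hxA hxB
  have hN1 : 1 ≤ N := by omega
  obtain ⟨N0, hN0⟩ := hPixX x 0 ((geo N A)ᶜ ∩ (geo N B)ᶜ)
    ((hGeoC N hN1 A).isOpen_compl.inter (hGeoC N hN1 B).isOpen_compl)
    (fun t => ⟨Set.disjoint_left.1 hxA (mm_mem x t), Set.disjoint_left.1 hxB (mm_mem x t)⟩)
  obtain ⟨k, hk1, hkN⟩ : ∃ k : ℕ, 1 ≤ k ∧ N0 ≤ k := ⟨max 1 N0, le_max_left _ _, le_max_right _ _⟩
  have hkN0 : N0 ≤ k * N := hkN.trans (Nat.le_mul_of_pos_right _ (by omega))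
  have hkN3 : 3 ≤ k * N := hN.trans (Nat.le_mul_of_pos_left _ (by omega))
  obtain ⟨Q, hQ, hQW⟩ := hN0 (k * N) hkN0
  have hA' := (hSubB N k hN hk1 A B A).1 hA
  have hB' := (hSubB N k hN hk1 B B B).1 hB
  have h1 : AdjD (sub N k A) Q := hGeoV (k * N) hkN3 _ _ hA' hQ
    (Set.disjoint_left.2 fun z hz hz' => (hQW hz').1 (hSubG N k hN hk1 A hz))
  have h2 : AdjD Q (sub N k B) := hGeoV (k * N) hkN3 _ _ hQ hB'
    (Set.disjoint_left.2 fun z hz hz' => (hQW hz).2 (hSubG N k hN hk1 B hz'))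
  refine ⟨k, hk1, 2, by norm_num, fun i => match i with
    | 0 => sub N k A
    | 1 => Q
    | _ => sub N k B, rfl, rfl, ?_, ?_⟩
  · intro i hi
    match i, hi with
    | 0, _ => exact hA'
    | 1, _ => exact hQ
    | 2, _ => exact hB'
  · intro i hi
    match i, hi with
    | 0, _ => exact Or.inr (Or.inl h1)
    | 1, _ => exact Or.inr (Or.inl h2)

end Pool.Agent.MPe54d61.TC
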