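import Pool.Agent.Lib.MP_e54d61_gt.TC.SpecS

/-!
# MP_e54d61_gt, torus case, module Loc: an essential cycle at a vertex
-/

set_option autoImplicit false

namespace Pool.Agent.MPe54d61.TC

open SimpleGraph

namespace LocAux

variable {V M : Type} [DecidableEq V] [AddCommGroup M] {Γ : SimpleGraph V}

/-- the classes together with the chains -/
def kpp (κ : V → V → M) (a b : V) : M × (V → V → ℤ) := (κ a b, fun p q => chi p q a b)

theorem kpp_fst (κ : V → V → M) {u v : V} (w : Γ.Walk u v) : (cls (kpp κ) w).1 = cls κ w := by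
  induction w with
  | nil => rfl
  | cons h p ih => rw [cls_cons, cls_cons, Prod.fst_add, ih]; rfl

theorem kpp_snd (κ : V → V → M) {u v : V} (w : Γ.Walk u v) (a b : V) :
    (cls (kpp κ) w).2 a b = cc w a b := by
  induction w with
  | nil => rfl
  | cons h p ih => rw [cls_cons, cc_cons, Prod.snd_add, Pi.add_apply, Pi.add_apply, ih]; rfl

theorem core {κ : V → V → M} (hκ : Anti κ) {z : V} (c : Γ.Walk z z) (hc : Ess κ c) :
    ∃ y w : V, y ≠ w ∧ Γ.Adj z y ∧ Γ.Adj z w ∧
      ∀ b : V, (s(z, b) ∈ eds c ↔ b = y ∨ b = w) ∧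
        cc c z b = (if b = y then 1 else 0) - (if b = w then 1 else 0) := by
  obtain ⟨h1, h2⟩ := hc
  cases c with
  | nil => exact absurd rfl h2
  | @cons _ y _ h p =>
    rw [Walk.support_cons, List.tail_cons] at h1
    cases p with
    | nil => exact absurd rfl h.ne
    | @cons _ y' _ h' p' =>
      obtain ⟨w, q, h3, h4⟩ := Walk.exists_cons_eq_concat h' p'
      rw [h4] at h1 h2 ⊢
      rw [Walk.support_concat, List.nodup_append'] at h1
      obtain ⟨h5, -, h6⟩ := h1
      have hz : z ∉ q.support := fun h7 => h6 h7 (by simp)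
      have hzq : ∀ b : V, s(z, b) ∉ eds q := fun b hb =>
        hz (Walk.fst_mem_support_of_mem_edges q hb)
      have hyz : y ≠ z := h.ne'
      have hwz : w ≠ z := h3.ne
      refine ⟨y, w, ?_, h, h3.symm, ?_⟩
      · rintro rfl
        have h7 : q = Walk.nil := (Walk.isPath_iff_nil.1 ((Walk.isPath_def q).2 h5)).eq_nil
        rw [h7] at h2
        apply h2
        have h8 : (Walk.nil : Γ.Walk y y).concat h3 = Walk.cons h3 Walk.nil := rfl
        rw [h8, cls_cons, cls_cons, cls_nil, hκ z y, add_zero, add_neg_cancel]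
      · intro b
        constructor
        · rw [mem_eds_cons, Walk.concat_eq_append, eds_append, Set.mem_union, mem_eds_cons, eds_nil]
          constructor
          · rintro (h7 | h7 | h7 | h7)
            · exact Or.inl (Sym2.congr_right.1 h7)
            · exact absurd h7 (hzq b)
            · rw [Sym2.eq_swap (a := w)] at h7
              exact Or.inr (Sym2.congr_right.1 h7)
            · exact absurd h7 (Set.notMem_empty _)
          · rintro (rfl | rfl)
            · exact Or.inl rfl
            · exact Or.inr (Or.inr (Or.inl Sym2.eq_swap))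
        · rw [cc_cons, Walk.concat_eq_append, cc_append, cc_cons, cc_nil,
            cc_eq_zero q z b (hzq b)]
          have e1 : chi z b z y = if b = y then 1 else 0 := by
            simp only [chi, hyz, and_false, if_false, sub_zero, true_and, eq_comm]
          have e2 : chi z b w z = -(if b = w then 1 else 0) := by
            simp only [chi, hwz, false_and, if_false, zero_sub, and_true, eq_comm]
          rw [e1, e2]
          ring

end LocAux

open LocAux in
/-- **an essential cycle at one of its vertices** -/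
theorem tLoc (h1 : S_EssAt) : S_Loc := by
  intro V M _ _ Γ κ hκ x c hc
  refine ⟨fun z b hz => cc_eq_zero c z b fun h => hz (Walk.fst_mem_support_of_mem_edges c h), ?_⟩
  intro z hz
  obtain ⟨c', hc', he, hcl⟩ := h1 V (M × (V → V → ℤ)) inferInstance Γ (kpp κ) x c
    ⟨hc.1, fun h => hc.2 (by rw [← kpp_fst κ c, h]; rfl)⟩ z hz
  have h2 : cls κ c' = cls κ c := by rw [← kpp_fst κ c', ← kpp_fst κ c, hcl]
  have h3 : ∀ a b : V, cc c' a b = cc c a b := fun a b => by
    rw [← kpp_snd κ c', ← kpp_snd κ c, hcl]
  obtain ⟨y, w, h4, h5, h6, h7⟩ := core hκ c' ⟨hc'.1, by rw [h2]; exact hc.2⟩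
  refine ⟨y, w, h4, h5, h6, fun b => ?_⟩
  rw [← he, ← h3]
  exact h7 b

end Pool.Agent.MPe54d61.TC
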