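import Pool.Agent.Lib.MP_e54d61_gt.TC.SpecS

/-!
# MP_e54d61_gt, torus case, part S: the multivalued function of an essential cycle (helper90)
-/

set_option autoImplicit false

namespace Pool.Agent.MPe54d61.TC

open SimpleGraph

namespace MnAux

theorem stp_cases {r : ℤ × ℤ} (h : r ∈ stp) : ∃ k : Fin 3, r = ei k ∨ r = -ei k := by
  simp only [stp, Finset.mem_insert, Finset.mem_singleton] at h
  rcases h with h | h | h | h | h | h
  · exact ⟨0, Or.inl (by rw [h]; rfl)⟩
  · exact ⟨1, Or.inl (by rw [h]; rfl)⟩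
  · exact ⟨2, Or.inl (by rw [h]; rfl)⟩
  · exact ⟨0, Or.inr (by rw [h]; rfl)⟩
  · exact ⟨1, Or.inr (by rw [h]; rfl)⟩
  · exact ⟨2, Or.inr (by rw [h]; rfl)⟩

/-- the arithmetic at the end -/
theorem fin {A B C : Prop} {mp mq L R : ℤ} (hA : A → L ≠ R) (h1 : L = mp ∨ L = mp + 1)
    (h2 : R = mp ∨ R = mp + 1) (h3 : L = mq ∨ L = mq + 1) (h4 : R = mq ∨ R = mq + 1)
    (hB : B → L = mq) (hC : C → L = mp) :
    (A → mq - mp = 0) ∧ (B → mq - mp = 0 ∨ mq - mp = 1) ∧ (C → mq - mp = 0 ∨ mq - mp = -1) ∧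
      |mq - mp| ≤ 1 := by
  refine ⟨fun a => ?_, fun b => ?_, fun c => ?_, ?_⟩
  · have := hA a
    omega
  · have := hB b
    omega
  · have := hC c
    omega
  · rw [abs_le]
    omega

end MnAux

open MnAux in
theorem tMn (h1 : S_Grid) (h2 : S_Rep) (h3 : S_Loc) (h4 : S_Ring) : S_Mn := by
  intro N hN0 hN x0 c hc
  obtain ⟨m, L, R, hm, hLR⟩ := h4 N hN0 hN x0 c hc
  obtain ⟨g1, -, g3⟩ := h1 N hN
  obtain ⟨r1, -, r3, -⟩ := h2 N hN
  have hloc := (h3 (VN N) (ℤ × ℤ) inferInstance inferInstance (GN N) (kN N) g1 x0 c hc).2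
  -- the chain does not vanish on the edges of the cycle
  have hcc : ∀ u v : VN N, s(u, v) ∈ eds c → cc c u v ≠ 0 := by
    intro u v huv
    have hu : u ∈ c.support := Walk.fst_mem_support_of_mem_edges c huv
    obtain ⟨y, w, hyw, -, -, hb⟩ := hloc u hu
    obtain ⟨hb1, hb2⟩ := hb v
    rw [hb2]
    rcases hb1.1 huv with rfl | rfl
    · rw [if_pos rfl, if_neg hyw]
      decide
    · rw [if_pos rfl, if_neg (Ne.symm hyw)]
      decide
  refine ⟨fun z => m (rep z), ?_⟩
  intro u v huv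
  obtain ⟨q, hq, hqv⟩ := g3 u v huv (rep u) (r1 u)
  have hqv' : zc N q = v := hqv
  have hu' : zc N (rep u) = u := r1 u
  have e1 := r3 (rep u) q hq
  rw [hu', hqv'] at e1
  have e2 : q = rep v + (N : ℤ) • kN N u v := by
    have : q = (q - rep u) + rep u := by abel
    rw [this, e1]
    abel
  have e3 : tw (cls (kN N) c) (fun z => m (rep z)) u v = m q - m (rep u) := by
    rw [tw, e2, hm]
    ring
  rw [e3]
  obtain ⟨k, hk | hk⟩ := stp_cases hq
  · -- q = p + ei k
    have hq2 : q = rep u + ei k := by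
      rw [← hk]
      abel
    have hv2 : v = u + ed N k := by
      rw [← hqv', hq2, zc_add, hu']
      rfl
    obtain ⟨a1, a2, a3, a4, a5, a6, a7⟩ := hLR k (rep u)
    rw [← hq2] at a4 a5 a7
    rw [hu'] at a1 a6
    rw [hqv'] at a7
    refine fin (fun hA hLR' => ?_) a2 a3 a4 a5 a7 a6
    apply hcc u v hA
    rw [hv2]
    show ch c k u = 0
    rw [← a1, hLR', sub_self]
  · -- p = q + ei k
    have hq2 : rep u = q + ei k := by
      have : ei k = -(q - rep u) := by rw [hk, neg_neg]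
      rw [this]
      abel
    have hv2 : u = v + ed N k := by
      rw [← hqv', ed, ← zc_add, ← hq2, hu']
    obtain ⟨a1, a2, a3, a4, a5, a6, a7⟩ := hLR k q
    rw [← hq2] at a4 a5 a7
    rw [hqv'] at a1 a6
    rw [hu'] at a7
    refine fin (fun hA hLR' => ?_) a4 a5 a2 a3 a6 a7
    apply hcc u v hA
    have h5 : cc c v u = 0 := by
      rw [hv2]
      show ch c k v = 0
      rw [← a1, hLR', sub_self]
    rw [cc_swap, h5, neg_zero]

end Pool.Agent.MPe54d61.TC
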