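import Pool.Agent.Lib.MP_e54d61_gt.TC.SpecH

/-!
# MP_e54d61_gt, torus case: strictly increasing on the pieces (`S_MonoCov`)
-/

set_option autoImplicit false

namespace Pool.Agent.MPe54d61.TC

namespace MonoCovAux

open Topology

open Set

/-- one step to the right -/
theorem step {g : ℝ → ℝ} {a b : ℝ} {ι : Type} (s : Finset ι) (I : ι → Set ℝ)
    (hcl : ∀ i, IsClosed (I i))
    (hcov : ∀ x ∈ Icc a b, ∃ i ∈ s, x ∈ I i)
    (hm : ∀ i ∈ s, StrictMonoOn g (I i ∩ Icc a b)) {x : ℝ} (hx : x ∈ Ico a b) {y : ℝ}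
    (hy : x < y) : ∃ z ∈ Ioc x y, z ≤ b ∧ g x < g z := by
  classical
  have hev : ∀ᶠ z in 𝓝 x, ∀ i ∈ s, x ∉ I i → z ∉ I i := by
    rw [Filter.eventually_all_finset]
    intro i _
    by_cases hi : x ∈ I i
    · exact Filter.Eventually.of_forall fun z hz => absurd hi hz
    · have := (hcl i).isOpen_compl.mem_nhds hi
      filter_upwards [this] with z hz _
      exact hz
  obtain ⟨ε, hε, hball⟩ := Metric.eventually_nhds_iff.1 hev
  set z : ℝ := min (min y b) (x + ε / 2) with hz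
  have hxz : x < z := by
    rw [hz, lt_min_iff, lt_min_iff]
    exact ⟨⟨hy, hx.2⟩, by linarith⟩
  have hzy : z ≤ y := (min_le_left _ _).trans (min_le_left _ _)
  have hzb : z ≤ b := (min_le_left _ _).trans (min_le_right _ _)
  have hze : z ≤ x + ε / 2 := min_le_right _ _
  obtain ⟨i, his, hiz⟩ := hcov z ⟨hx.1.trans hxz.le, hzb⟩
  have hxi : x ∈ I i := by
    by_contra hxi
    refine hball ?_ i his hxi hiz
    rw [Real.dist_eq, abs_of_pos (by linarith)]
    linarith
  exact ⟨z, ⟨hxz, hzy⟩, hzb, hm i his ⟨hxi, hx.1, hx.2.le⟩ ⟨hiz, hx.1.trans hxz.le, hzb⟩ hxz⟩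

end MonoCovAux

theorem tMonoCov : S_MonoCov := by
  intro g a b hab hg ι s I hcl _ hcov hm
  have hle : ∀ a' ∈ Set.Icc a b, g a' ≤ g b := by
    intro a' ha'
    have hcont : ContinuousOn g (Set.Icc a' b) :=
      hg.mono (Set.Icc_subset_Icc_left ha'.1)
    have hclosed : IsClosed ({x | g a' ≤ g x} ∩ Set.Icc a' b) := by
      have := hcont.preimage_isClosed_of_isClosed isClosed_Icc (isClosed_Ici (a := g a'))
      rw [Set.inter_comm] at this
      exact this
    have := hclosed.Icc_subset_of_forall_exists_gt (a := a') (b := b) (le_refl (g a'))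
      (by
        rintro x ⟨hx1, hx2⟩ y hy
        obtain ⟨z, hz1, hz2, hz3⟩ := MonoCovAux.step s I hcl hcov hm
          (x := x) ⟨ha'.1.trans hx2.1, hx2.2⟩ (y := y) hy
        exact ⟨z, (le_trans hx1 hz3.le : g a' ≤ g z), hz1⟩)
    exact this ⟨ha'.2, le_refl b⟩
  obtain ⟨z, hz1, hz2, hz3⟩ := MonoCovAux.step s I hcl hcov hm
    (x := a) ⟨le_refl a, hab⟩ (y := b) hab
  exact hz3.trans_le (hle z ⟨hz1.1.le, hz2⟩)

end Pool.Agent.MPe54d61.TC
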