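import Pool.Agent.Lib.MP_e54d61_gt.TC.SpecH

/-!
# MP_e54d61_gt, torus case, part H: moves of single vertices
-/

set_option autoImplicit false

namespace Pool.Agent.MPe54d61.TC

namespace MovesAux

variable {N : ℕ}

theorem low_affine (f : VN N → P) (h : VN N → ℝ) (D : P) (τ : ℝ) (p : VN N) :
    low (fun q => f q + (τ * h q) • D) p =
      (1 - τ) * low f p + τ * low (fun q => f q + h q • D) p := by
  have e1 := XX_add f (fun q => τ * h q) D
  have e2 := XX_add f h D
  simp only [low]
  rw [e1, e1, e2, e2]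
  simp only [DD, dt, Prod.fst_add, Prod.snd_add, Prod.smul_fst, Prod.smul_snd, smul_eq_mul]
  ring

theorem upp_affine (f : VN N → P) (h : VN N → ℝ) (D : P) (τ : ℝ) (p : VN N) :
    upp (fun q => f q + (τ * h q) • D) p =
      (1 - τ) * upp f p + τ * upp (fun q => f q + h q • D) p := by
  have e1 := XX_add f (fun q => τ * h q) D
  have e2 := XX_add f h D
  simp only [upp]
  rw [e1, e1, e2, e2]
  simp only [DD, dt, Prod.fst_add, Prod.snd_add, Prod.smul_fst, Prod.smul_snd, smul_eq_mul]
  ring

theorem conv_pos {a b τ : ℝ} (ha : 0 < a) (hb : 0 < b) (h0 : 0 ≤ τ) (h1 : τ ≤ 1) :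
    0 < (1 - τ) * a + τ * b := by
  rcases h0.eq_or_lt with h | h
  · rw [← h]; simpa using ha
  · have : 0 ≤ (1 - τ) * a := mul_nonneg (by linarith) ha.le
    have := mul_pos h hb
    linarith

theorem pos_conv (f : VN N → P) (h : VN N → ℝ) (D : P) (τ : ℝ) (hf : Pos f)
    (hf' : Pos (fun q => f q + h q • D)) (h0 : 0 ≤ τ) (h1 : τ ≤ 1) :
    Pos (fun q => f q + (τ * h q) • D) := by
  constructor
  · intro p
    rw [low_affine]
    exact conv_pos (hf.1 p) (hf'.1 p) h0 h1
  · intro p
    rw [upp_affine]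
    exact conv_pos (hf.2 p) (hf'.2 p) h0 h1

theorem cont_low (p : VN N) : Continuous fun f : VN N → P => low f p := by
  simp only [low, dt, XX]
  fun_prop

theorem cont_upp (p : VN N) : Continuous fun f : VN N → P => upp f p := by
  simp only [upp, dt, XX]
  fun_prop

theorem isOpen_pos [NeZero N] : IsOpen {f : VN N → P | Pos f} := by
  have e : {f : VN N → P | Pos f} =
      (⋂ p, {f : VN N → P | 0 < low f p}) ∩ ⋂ p, {f : VN N → P | 0 < upp f p} := by
    ext f
    simp [Pos]
  rw [e]
  refine IsOpen.inter (isOpen_iInter_of_finite fun p => ?_) (isOpen_iInter_of_finite fun p => ?_)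
  · exact isOpen_lt continuous_const (cont_low p)
  · exact isOpen_lt continuous_const (cont_upp p)

/-- the intermediate positions -/
noncomputable def gg (f : VN N → P) (h : VN N → ℝ) (D : P) (n i : ℕ) (S : Finset (VN N)) :
    VN N → P := fun q => f q + ((i : ℝ) / n * h q) • D + if q ∈ S then ((1 : ℝ) / n * h q) • D else 0

theorem gg_succ [NeZero N] (f : VN N → P) (h : VN N → ℝ) (D : P) (n i : ℕ) :
    gg f h D n i Finset.univ = gg f h D n (i + 1) ∅ := by
  funext q
  simp only [gg, Finset.mem_univ, if_true, Finset.notMem_empty, if_false, add_zero]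
  rw [add_assoc, ← add_smul]
  congr 2
  push_cast
  ring

theorem gg_insert (f : VN N → P) (h : VN N → ℝ) (D : P) (n i : ℕ) (S : Finset (VN N)) (v : VN N)
    (hv : v ∉ S) : gg f h D n i (insert v S) =
      Function.update (gg f h D n i S) v (gg f h D n i S v + ((1 : ℝ) / n * h v) • D) := by
  funext q
  by_cases hq : q = v
  · subst hq
    rw [Function.update_self]
    simp [gg, hv]
  · rw [Function.update_of_ne hq]
    simp [gg, hq]

theorem exists_steps [NeZero N] (f : VN N → P) (h : VN N → ℝ) (D : P) (hf : Pos f)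
    (hf' : Pos (fun q => f q + h q • D)) :
    ∃ n : ℕ, 0 < n ∧ ∀ (i : ℕ), i ≤ n → ∀ S : Finset (VN N), Pos (gg f h D n i S) := by
  let γ : ℝ → VN N → P := fun τ q => f q + (τ * h q) • D
  have hγ : Continuous γ := by
    refine continuous_pi fun q => ?_
    show Continuous fun τ : ℝ => f q + (τ * h q) • D
    fun_prop
  have hK : IsCompact (γ '' Set.Icc 0 1) := isCompact_Icc.image hγ
  have hKU : γ '' Set.Icc 0 1 ⊆ {f : VN N → P | Pos f} := by
    rintro _ ⟨τ, ⟨h0, h1⟩, rfl⟩
    exact pos_conv f h D τ hf hf' h0 h1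
  obtain ⟨δ, hδ, hsub⟩ := hK.exists_thickening_subset_open isOpen_pos hKU
  obtain ⟨n, hn⟩ := exists_nat_gt ((∑ p, ‖h p • D‖) / δ)
  have hC : 0 ≤ ∑ p, ‖h p • D‖ := Finset.sum_nonneg fun p _ => norm_nonneg _
  have hn0 : (0 : ℝ) < n := lt_of_le_of_lt (div_nonneg hC hδ.le) hn
  refine ⟨n, by exact_mod_cast hn0, fun i hi S => hsub ?_⟩
  rw [Metric.mem_thickening_iff]
  refine ⟨γ ((i : ℝ) / n), ⟨_, ⟨by positivity, ?_⟩, rfl⟩, ?_⟩
  · rw [div_le_one hn0]
    exact_mod_cast hi
  · rw [dist_pi_lt_iff hδ]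
    intro q
    show dist (f q + ((i : ℝ) / n * h q) • D + if q ∈ S then ((1 : ℝ) / n * h q) • D else 0)
      (f q + ((i : ℝ) / n * h q) • D) < δ
    rw [dist_eq_norm, add_sub_cancel_left]
    split_ifs
    · rw [mul_smul, norm_smul, Real.norm_of_nonneg (by positivity), one_div, inv_mul_lt_iff₀ hn0]
      calc ‖h q • D‖ ≤ ∑ p, ‖h p • D‖ :=
            Finset.single_le_sum (f := fun p => ‖h p • D‖) (fun p _ => norm_nonneg _)
              (Finset.mem_univ q)
        _ < n * δ := by rwa [div_lt_iff₀ hδ] at hn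
    · simpa using hδ

end MovesAux

open MovesAux in
theorem tMoves : S_Moves := by
  intro N hN f h D hf hf'
  obtain ⟨n, hn, hpos⟩ := exists_steps f h D hf hf'
  have hn0 : (n : ℝ) ≠ 0 := by exact_mod_cast hn.ne'
  have step : ∀ i : ℕ, i ≤ n → ∀ S : Finset (VN N),
      Relation.ReflTransGen Mv (gg f h D n i ∅) (gg f h D n i S) := by
    intro i hi S
    induction S using Finset.induction_on with
    | empty => exact Relation.ReflTransGen.refl
    | insert v S hv ih =>
      refine ih.tail ⟨hpos i hi S, hpos i hi _, v, ((1 : ℝ) / n * h v) • D, ?_⟩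
      exact gg_insert f h D n i S v hv
  have all : ∀ i : ℕ, i ≤ n → Relation.ReflTransGen Mv (gg f h D n 0 ∅) (gg f h D n i ∅) := by
    intro i
    induction i with
    | zero => intro _; exact Relation.ReflTransGen.refl
    | succ i ih =>
      intro hi
      have h1 := ih (by omega)
      have h2 := step i (by omega) Finset.univ
      rw [gg_succ] at h2
      exact h1.trans h2
  have h0 : gg f h D n 0 ∅ = f := by
    funext q
    simp [gg]
  have h1 : gg f h D n n ∅ = fun p => f p + h p • D := by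
    funext q
    simp [gg, div_self hn0]
  have := all n le_rfl
  rwa [h0, h1] at this

end Pool.Agent.MPe54d61.TC
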