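import Pool.Agent.Lib.MP_e54d61_gt.TC.SpecB

/-!
# MP_e54d61_gt, torus case, part B: small sets of bicorns (helper34)
-/

set_option autoImplicit false

namespace Pool.Agent.MPe54d61.TC

open SimpleGraph

namespace NearAux

variable {V M : Type} [AddCommGroup M] {Γ : SimpleGraph V} {κ : V → V → M}

/-- essential closed walks are cycles -/
lemma ess_cycle (hκ : Anti κ) {x : V} {c : Γ.Walk x x} (h : Ess κ c) : c.IsCycle := by
  cases c with
  | nil => exact absurd rfl h.2
  | @cons _ v _ hv p =>
    rw [Walk.cons_isCycle_iff]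
    have hp : p.IsPath := by
      rw [Walk.isPath_def]
      exact h.1
    refine ⟨hp, fun he => h.2 ?_⟩
    cases p with
    | nil => simp at he
    | @cons _ v' _ hv' p' =>
      rw [Walk.cons_isPath_iff] at hp
      rw [Walk.edges_cons, List.mem_cons] at he
      rcases he with he | he
      · have h1 : v' = x := by
          rw [Sym2.eq_iff] at he
          rcases he with ⟨h1, h2⟩ | ⟨h1, h2⟩
          · exact absurd h1 hv.ne
          · exact h1.symm
        subst h1
        have h2 : p' = Walk.nil := by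
          have h3 := Walk.isPath_iff_nil.1 hp.1
          cases h3
          rfl
        subst h2
        rw [cls_cons, cls_cons, cls_nil, add_zero, hκ v' v, add_neg_cancel]
      · exact absurd (Walk.snd_mem_support_of_mem_edges p' he) hp.2

/-- edges by indices -/
lemma mem_eds_iff {u v : V} (w : Γ.Walk u v) (e : Sym2 V) :
    e ∈ eds w ↔ ∃ j < w.length, e = s(w.getVert j, w.getVert (j + 1)) := by
  induction w with
  | nil => simp
  | @cons a b c h p ih =>
    rw [mem_eds_cons, ih]
    constructor
    · rintro (rfl | ⟨j, hj, rfl⟩)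
      · exact ⟨0, by simp, by simp⟩
      · exact ⟨j + 1, by simp only [Walk.length_cons]; omega, by simp⟩
    · rintro ⟨j, hj, rfl⟩
      cases j with
      | zero => left; simp
      | succ j =>
        right
        simp only [Walk.length_cons] at hj
        exact ⟨j, by omega, by simp⟩

/-- every vertex of an essential cycle is on two edges -/
lemma deg2 (hκ : Anti κ) {C : Set (Sym2 V)} (hC : EC Γ κ C) {e : Sym2 V} {z : V} (he : e ∈ C)
    (hz : z ∈ e) : ∃ e' ∈ C, z ∈ e' ∧ e' ≠ e := by
  obtain ⟨x, c, hc, rfl⟩ := hC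
  have hcy := ess_cycle hκ hc
  have hzs : z ∈ c.support := Walk.mem_support_of_mem_edges he hz
  obtain ⟨a, b, hab, h⟩ := Set.ncard_eq_two.1 (hcy.ncard_neighborSet_toSubgraph_eq_two hzs)
  have ha : s(z, a) ∈ eds c := by
    have h1 : a ∈ c.toSubgraph.neighborSet z := by rw [h]; exact Or.inl rfl
    exact c.mem_edges_toSubgraph.1 (Subgraph.mem_edgeSet.2 h1)
  have hb : s(z, b) ∈ eds c := by
    have h1 : b ∈ c.toSubgraph.neighborSet z := by rw [h]; exact Or.inr rfl
    exact c.mem_edges_toSubgraph.1 (Subgraph.mem_edgeSet.2 h1)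
  by_cases h1 : e = s(z, a)
  · refine ⟨s(z, b), hb, Sym2.mem_mk_left z b, fun h' => hab ?_⟩
    rw [h1] at h'
    exact (Sym2.congr_right.1 h').symm
  · exact ⟨s(z, a), ha, Sym2.mem_mk_left z a, fun h' => h1 h'.symm⟩

/-- an essential cycle which contains one edge of a path whose inner vertices have degree two
contains the path -/
lemma prop (hκ : Anti κ) {C E : Set (Sym2 V)} (hC : EC Γ κ C) (hCE : C ⊆ E) {a b : V}
    (γ : Γ.Walk a b) (hγ : γ.IsPath)
    (hin : ∀ z ∈ γ.support, z ≠ a → z ≠ b → ∀ e ∈ E, z ∈ e → e ∈ eds γ) {e0 : Sym2 V}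
    (h0 : e0 ∈ eds γ) (h0C : e0 ∈ C) : eds γ ⊆ C := by
  have inj : ∀ i j : ℕ, i ≤ γ.length → j ≤ γ.length → γ.getVert i = γ.getVert j → i = j :=
    fun i j hi hj h => hγ.getVert_injOn hi hj h
  have step : ∀ i, i + 1 < γ.length → (s(γ.getVert i, γ.getVert (i + 1)) ∈ C ↔
      s(γ.getVert (i + 1), γ.getVert (i + 1 + 1)) ∈ C) := by
    intro i hi
    have hz : γ.getVert (i + 1) ∈ γ.support := γ.getVert_mem_support _
    have ha : γ.getVert (i + 1) ≠ a := by
      intro h
      have := inj (i + 1) 0 (by omega) (by omega) (by rw [h, Walk.getVert_zero])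
      omega
    have hb : γ.getVert (i + 1) ≠ b := by
      intro h
      have := inj (i + 1) γ.length (by omega) le_rfl (by rw [h, Walk.getVert_length])
      omega
    have key : ∀ e ∈ C, γ.getVert (i + 1) ∈ e → e = s(γ.getVert i, γ.getVert (i + 1)) ∨
        e = s(γ.getVert (i + 1), γ.getVert (i + 1 + 1)) := by
      intro e he hze
      obtain ⟨j, hj, rfl⟩ := (mem_eds_iff γ e).1 (hin _ hz ha hb e (hCE he) hze)
      rcases Sym2.mem_iff.1 hze with h | h
      · have := inj _ _ (by omega) (by omega) h
        subst this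
        exact Or.inr rfl
      · have := inj _ _ (by omega) (by omega) h
        have h2 : i = j := by omega
        subst h2
        exact Or.inl rfl
    constructor
    · intro h
      obtain ⟨e', he', hz', hne⟩ := deg2 hκ hC h (Sym2.mem_mk_right _ _)
      rcases key e' he' hz' with h' | h'
      · exact absurd h' hne
      · exact h' ▸ he'
    · intro h
      obtain ⟨e', he', hz', hne⟩ := deg2 hκ hC h (Sym2.mem_mk_left _ _)
      rcases key e' he' hz' with h' | h'
      · exact h' ▸ he'
      · exact absurd h' hne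
  have all : ∀ i, i < γ.length → (s(γ.getVert 0, γ.getVert (0 + 1)) ∈ C ↔
      s(γ.getVert i, γ.getVert (i + 1)) ∈ C) := by
    intro i
    induction i with
    | zero => intro _; exact Iff.rfl
    | succ i ih => intro hi; exact (ih (by omega)).trans (step i hi)
  obtain ⟨j, hj, rfl⟩ := (mem_eds_iff γ e0).1 h0
  intro e he
  obtain ⟨i, hi, rfl⟩ := (mem_eds_iff γ e).1 he
  exact (all i hi).1 ((all j hj).2 h0C)

lemma tail_of_ne {u v z : V} {p : Γ.Walk u v} (h : z ∈ p.support) (hz : z ≠ u) :
    z ∈ p.support.tail := by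
  rcases (Walk.mem_support_iff p).1 h with h | h
  · exact absurd h hz
  · exact h

lemma end_tail {u v : V} {p : Γ.Walk u v} (h : ¬ p.Nil) : v ∈ p.support.tail := by
  cases p with
  | nil => exact absurd Walk.Nil.nil h
  | cons h p => exact p.end_mem_support

/-- the two parts of an essential walk meet only in the end points -/
lemma meet {X Y : V} {s : Γ.Walk X Y} {α : Γ.Walk Y X}
    (h : s.support.tail.Disjoint α.support.tail) {z : V} (h1 : z ∈ s.support)
    (h2 : z ∈ α.support) : z = X ∨ z = Y := by
  by_contra hc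
  rw [not_or] at hc
  exact h (tail_of_ne h1 hc.1) (tail_of_ne h2 hc.2)

lemma path_of {u v : V} {p : Γ.Walk u v} (h : p.support.tail.Nodup) (hu : u ∉ p.support.tail) :
    p.IsPath := by
  rw [Walk.isPath_def, ← Walk.cons_tail_support]
  exact List.nodup_cons.2 ⟨hu, h⟩

lemma sup_of_mem {u v z : V} {p : Γ.Walk u v} {e : Sym2 V} (he : e ∈ eds p) (hz : z ∈ e) :
    z ∈ p.support := Walk.mem_support_of_mem_edges he hz

lemma exists_edge {u v z : V} {p : Γ.Walk u v} (h : ¬ p.Nil) (hz : z ∈ p.support) :
    ∃ e ∈ eds p, z ∈ e := by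
  have : z ∈ vts (eds p) := by rw [vts_eds_of_ne h]; exact hz
  exact this

lemma not_nil_of_mem {u v : V} {p : Γ.Walk u v} {e : Sym2 V} (h : e ∈ eds p) : ¬ p.Nil := by
  intro hn
  cases hn
  simp at h

end NearAux

open NearAux

theorem tNear (hEcSub : S_EcSub) (hEssRev : S_EssRev) (hComp : S_Comp) : S_Near := by
  have _h := hEssRev
  intro V M _ Γ κ hκ A B C hA hB hR hBic hC
  obtain ⟨x, y, p, q, hE, hpA, hqB, rfl⟩ := hBic
  have hCAB : eds (p.append q) ⊆ A ∪ B := by
    rw [eds_append]
    exact Set.union_subset_union hpA hqB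
  by_cases h1 : eds (p.append q) ⊆ A
  · exact Or.inl (hEcSub V M _ Γ κ hκ _ A hC hA h1).symm
  by_cases h2 : eds (p.append q) ⊆ B
  · rw [hEcSub V M _ Γ κ hκ _ B hC hB h2]
    exact hR
  have hp : ¬ p.Nil := by
    intro hn
    apply h2
    cases hn
    simpa using hqB
  have hq : ¬ q.Nil := by
    intro hn
    apply h1
    cases hn
    simpa using hpA
  obtain ⟨hpt, hqt, hpq, -⟩ := (ess_append_iff p q).1 hE
  have hxy : x ≠ y := by
    intro h
    subst h
    exact hpq (end_tail hp) (end_tail hq)
  have comA : ∀ z, z = x ∨ z = y → ∃ e ∈ A, z ∈ e := by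
    rintro z (rfl | rfl)
    · obtain ⟨e, he, hz⟩ := exists_edge hp p.start_mem_support
      exact ⟨e, hpA he, hz⟩
    · obtain ⟨e, he, hz⟩ := exists_edge hp p.end_mem_support
      exact ⟨e, hpA he, hz⟩
  have comB : ∀ z, z = x ∨ z = y → ∃ e ∈ B, z ∈ e := by
    rintro z (rfl | rfl)
    · obtain ⟨e, he, hz⟩ := exists_edge hq q.end_mem_support
      exact ⟨e, hqB he, hz⟩
    · obtain ⟨e, he, hz⟩ := exists_edge hq q.start_mem_support
      exact ⟨e, hqB he, hz⟩
  rcases hR with h | h | h | h
  · subst h
    exact absurd (by simpa using hCAB) h1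
  · exact absurd (comB x (Or.inl rfl)) (h x (comA x (Or.inl rfl)))
  · obtain ⟨X, Y, s, α, β, hsα, hsβ, rfl, rfl, hαβ⟩ := h
    obtain ⟨hst, hαt, hdα, -⟩ := (ess_append_iff s α).1 hsα
    obtain ⟨-, hβt, hdβ, -⟩ := (ess_append_iff s β).1 hsβ
    obtain ⟨e1, he1, he1B⟩ := Set.not_subset.1 h2
    obtain ⟨e2, he2, he2A⟩ := Set.not_subset.1 h1
    rw [eds_append s β, Set.mem_union, not_or] at he1B
    rw [eds_append s α, Set.mem_union, not_or] at he2A
    have mem3 : ∀ e ∈ eds (s.append α) ∪ eds (s.append β), e ∈ eds s ∨ e ∈ eds α ∨ e ∈ eds β := by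
      intro e he
      rw [eds_append, eds_append] at he
      rcases he with (he | he) | (he | he)
      · exact Or.inl he
      · exact Or.inr (Or.inl he)
      · exact Or.inl he
      · exact Or.inr (Or.inr he)
    have h1α : e1 ∈ eds α := by
      rcases mem3 e1 (hCAB he1) with h | h | h
      · exact absurd h he1B.1
      · exact h
      · exact absurd h he1B.2
    have h2β : e2 ∈ eds β := by
      rcases mem3 e2 (hCAB he2) with h | h | h
      · exact absurd h he2A.1
      · exact absurd h he2A.2
      · exact h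
    have hαn : ¬ α.Nil := not_nil_of_mem h1α
    have hβn : ¬ β.Nil := not_nil_of_mem h2β
    by_cases hXY : X = Y
    · exfalso
      subst hXY
      have hsn : s.Nil := by
        by_contra hs
        exact hdα (end_tail hs) (end_tail hαn)
      have hs0 : s = Walk.nil := by cases hsn; rfl
      subst hs0
      have hx : ∀ z, z = x ∨ z = y → z = X := by
        intro z hz
        obtain ⟨e, he, hze⟩ := comA z hz
        obtain ⟨e', he', hze'⟩ := comB z hz
        have h3 : z ∈ α.support := sup_of_mem (by simpa using he) hze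
        have h4 : z ∈ β.support := sup_of_mem (by simpa using he') hze'
        exact (hαβ z h3 h4).elim id id
      exact hxy ((hx x (Or.inl rfl)).trans (hx y (Or.inr rfl)).symm)
    · have hsn : ¬ s.Nil := fun h => hXY h.eq
      have hsP : s.IsPath := path_of hst fun h => hdα h (end_tail hαn)
      have hαP : α.IsPath := path_of hαt fun h => hdα (end_tail hsn) h
      have hβP : β.IsPath := path_of hβt fun h => hdβ (end_tail hsn) h
      have inα : ∀ z ∈ α.support, z ≠ Y → z ≠ X → ∀ e ∈ eds (s.append α) ∪ eds (s.append β),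
          z ∈ e → e ∈ eds α := by
        intro z hz hY hX e he hze
        rcases mem3 e he with h | h | h
        · exact absurd (meet hdα (sup_of_mem h hze) hz) (not_or.2 ⟨hX, hY⟩)
        · exact h
        · exact absurd (hαβ z hz (sup_of_mem h hze)) (not_or.2 ⟨hX, hY⟩)
      have inβ : ∀ z ∈ β.support, z ≠ Y → z ≠ X → ∀ e ∈ eds (s.append α) ∪ eds (s.append β),
          z ∈ e → e ∈ eds β := by
        intro z hz hY hX e he hze
        rcases mem3 e he with h | h | h
        · exact absurd (meet hdβ (sup_of_mem h hze) hz) (not_or.2 ⟨hX, hY⟩)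
        · exact absurd (hαβ z (sup_of_mem h hze) hz) (not_or.2 ⟨hX, hY⟩)
        · exact h
      have ins : ∀ z ∈ s.support, z ≠ X → z ≠ Y → ∀ e ∈ eds (s.append α) ∪ eds (s.append β),
          z ∈ e → e ∈ eds s := by
        intro z hz hX hY e he hze
        rcases mem3 e he with h | h | h
        · exact h
        · exact absurd (meet hdα hz (sup_of_mem h hze)) (not_or.2 ⟨hX, hY⟩)
        · exact absurd (meet hdβ hz (sup_of_mem h hze)) (not_or.2 ⟨hX, hY⟩)
      have cα : eds α ⊆ eds (p.append q) := prop hκ hC hCAB α hαP inα h1α he1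
      have cβ : eds β ⊆ eds (p.append q) := prop hκ hC hCAB β hβP inβ h2β he2
      have cs : ∀ e ∈ eds s, e ∉ eds (p.append q) := by
        intro e he heC
        have h4 := prop hκ hC hCAB s hsP ins he heC
        have h5 : eds (s.append α) ⊆ eds (p.append q) := by
          rw [eds_append s α]
          exact Set.union_subset h4 cα
        have h6 := hEcSub V M _ Γ κ hκ _ _ hA hC h5
        rw [← h6, eds_append] at he2
        exact he2.elim he2A.1 he2A.2
      obtain ⟨r, hr, hrC⟩ := hComp V M _ Γ κ hκ _ hC X Y α hXY hαP cα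
      refine Or.inr (Or.inr (Or.inl ⟨Y, X, α, s, r, ess_comm hsα, hr, ?_, hrC, ?_⟩))
      · rw [eds_append, eds_append, Set.union_comm]
      · intro z hzs hzr
        by_contra hc
        rw [not_or] at hc
        have hrn : ¬ r.Nil := fun h => hXY h.eq
        obtain ⟨e, he, hze⟩ := exists_edge hrn hzr
        have heC : e ∈ eds (p.append q) := by
          rw [← hrC, eds_append]
          exact Or.inr he
        exact cs e (ins z hzs hc.2 hc.1 e (hCAB heC) hze) heC
  · obtain ⟨φ, l, h⟩ := h
    refine Or.inr (Or.inr (Or.inr ⟨φ, l, fun u v he => h u v ?_⟩))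
    rcases he with he | he
    · exact Or.inl he
    · exact hCAB he

end Pool.Agent.MPe54d61.TC
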