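import Pool.Agent.Lib.MP_e54d61_gt.TC.SpecE

/-!
# MP_e54d61_gt, torus case: points off the free triangles are near the cycle
-/

set_option autoImplicit false

namespace Pool.Agent.MPe54d61.TC

namespace NrCAux

theorem norm_coe_le (x : ℝ) : ‖(x : Ci)‖ ≤ |x| := by
  have h : ‖(x : UnitAddCircle)‖ = |x - round x| := UnitAddCircle.norm_eq
  have h2 := round_le x 0
  rw [Int.cast_zero, sub_zero] at h2
  exact h.le.trans h2

theorem dist_coe_le (x y : ℝ) : dist (x : Ci) (y : Ci) ≤ |x - y| := by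
  rw [dist_eq_norm, ← AddCircle.coe_sub]
  exact norm_coe_le _

theorem dist_gp {N : ℕ} (hN : 3 ≤ N) (Z : P) (b : ℤ × ℤ) (h1 : |N * Z.1 - b.1| ≤ 1)
    (h2 : |N * Z.2 - b.2| ≤ 1) : dist (pr Z) (pr (gp N b)) ≤ 1 / (N : ℝ) := by
  have hN0 : (0 : ℝ) < N := by
    have : (3 : ℝ) ≤ N := by exact_mod_cast hN
    linarith
  have key : ∀ (x : ℝ) (c : ℤ), |N * x - c| ≤ 1 → dist (x : Ci) ((c / N : ℝ) : Ci) ≤ 1 / (N : ℝ) := by
    intro x c h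
    refine (dist_coe_le _ _).trans ?_
    have e : x - c / N = (N * x - c) / N := by
      field_simp
    rw [e, abs_div, abs_of_pos hN0]
    exact div_le_div_of_nonneg_right h hN0.le
  rw [Prod.dist_eq]
  exact max_le (key _ _ h1) (key _ _ h2)

theorem ei_mem (k : Fin 3) : ei k ∈ stp := by
  fin_cases k <;> simp [ei, stp]

theorem find {N : ℕ} (hN : 3 ≤ N) (hGrid : S_Grid) (C : Set (Sym2 (VN N))) (a : ℤ × ℤ) (k : Fin 3)
    (h : s(zc N a, zc N a + ed N k) ∉ offE N C) :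
    zc N a ∈ vts C ∨ zc N (a + ei k) ∈ vts C := by
  by_contra hc
  push Not at hc
  apply h
  refine ⟨?_, ?_⟩
  · have := ((hGrid N hN).2.1 a (a + ei k) (by rw [add_sub_cancel_left]; exact ei_mem k)).1
    rw [SimpleGraph.mem_edgeSet]
    have e : red N (a + ei k) = zc N a + ed N k := by rw [red, zc_add, ed]
    rw [e] at this
    exact this
  · intro v hv
    rcases Sym2.mem_iff.1 hv with rfl | rfl
    · exact hc.1
    · rw [ed, ← zc_add]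
      exact hc.2

end NrCAux

open NrCAux

/-- Points outside of the triangles off the cycle are near the cycle. -/
theorem tNrC (hGrid : S_Grid) (hGeoP : S_GeoP) : S_NrC := by
  intro N _ hN C hC z hl hu
  have hN0 : (0 : ℝ) < N := by
    have : (3 : ℝ) ≤ N := by exact_mod_cast hN
    linarith
  obtain ⟨z1, z2⟩ := z
  obtain ⟨Z1, rfl⟩ := QuotientAddGroup.mk_surjective z1
  obtain ⟨Z2, rfl⟩ := QuotientAddGroup.mk_surjective z2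
  obtain ⟨s, hs⟩ : ∃ s : ℝ, s = N * Z1 - ⌊N * Z1⌋ := ⟨_, rfl⟩
  obtain ⟨t, ht⟩ : ∃ t : ℝ, t = N * Z2 - ⌊N * Z2⌋ := ⟨_, rfl⟩
  have hs0 : 0 ≤ s := by rw [hs]; exact sub_nonneg.2 (Int.floor_le _)
  have ht0 : 0 ≤ t := by rw [ht]; exact sub_nonneg.2 (Int.floor_le _)
  have hs1 : s ≤ 1 := by
    rw [hs]
    linarith [Int.lt_floor_add_one (N * Z1)]
  have ht1 : t ≤ 1 := by
    rw [ht]
    linarith [Int.lt_floor_add_one (N * Z2)]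
  have hpt : pt N (⌊N * Z1⌋, ⌊N * Z2⌋) s t = (Z1, Z2) := by
    simp only [pt, hs, ht]
    ext
    · show ((⌊N * Z1⌋ : ℝ) + (N * Z1 - ⌊N * Z1⌋)) / N = Z1
      rw [add_sub_cancel]
      field_simp
    · show ((⌊N * Z2⌋ : ℝ) + (N * Z2 - ⌊N * Z2⌋)) / N = Z2
      rw [add_sub_cancel]
      field_simp
  have hfin : ∀ δ : ℤ × ℤ, (0 ≤ δ.1 ∧ δ.1 ≤ 1) → (0 ≤ δ.2 ∧ δ.2 ≤ 1) →
      zc N ((⌊N * Z1⌋, ⌊N * Z2⌋) + δ) ∈ vts C →
      ∃ w ∈ geo N C, dist ((Z1 : Ci), (Z2 : Ci)) w ≤ 1 / (N : ℝ) := by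
    intro δ h1 h2 hb
    refine ⟨_, hGeoP N hN C hC _ hb, ?_⟩
    have h1' : (0 : ℝ) ≤ δ.1 ∧ (δ.1 : ℝ) ≤ 1 := by exact_mod_cast h1
    have h2' : (0 : ℝ) ≤ δ.2 ∧ (δ.2 : ℝ) ≤ 1 := by exact_mod_cast h2
    refine dist_gp hN (Z1, Z2) _ ?_ ?_
    · show |N * Z1 - ((⌊N * Z1⌋ + δ.1 : ℤ) : ℝ)| ≤ 1
      push_cast
      rw [abs_le]
      constructor <;> linarith [h1'.1, h1'.2]
    · show |N * Z2 - ((⌊N * Z2⌋ + δ.2 : ℤ) : ℝ)| ≤ 1
      push_cast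
      rw [abs_le]
      constructor <;> linarith [h2'.1, h2'.2]
  have hk : ∀ k : Fin 3, s(zc N (⌊N * Z1⌋, ⌊N * Z2⌋), zc N (⌊N * Z1⌋, ⌊N * Z2⌋) + ed N k) ∉
      offE N C → ∃ w ∈ geo N C, dist ((Z1 : Ci), (Z2 : Ci)) w ≤ 1 / (N : ℝ) := by
    intro k hk
    rcases find hN hGrid C _ k hk with h | h
    · refine hfin 0 ⟨le_rfl, zero_le_one⟩ ⟨le_rfl, zero_le_one⟩ ?_
      rw [add_zero]
      exact h
    · refine hfin (ei k) ?_ ?_ h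
      · fin_cases k <;> simp [ei]
      · fin_cases k <;> simp [ei]
  rcases le_total t s with hts | hst
  · by_cases h0 : s(zc N (⌊N * Z1⌋, ⌊N * Z2⌋), zc N (⌊N * Z1⌋, ⌊N * Z2⌋) + ed N 0) ∈ offE N C
    · by_cases h2 : s(zc N (⌊N * Z1⌋, ⌊N * Z2⌋), zc N (⌊N * Z1⌋, ⌊N * Z2⌋) + ed N 2) ∈ offE N C
      · exact absurd ⟨_, s, t, rfl, ht0, hts, hs1, by rw [hpt]; rfl⟩ (hl _ h0 h2)
      · exact hk 2 h2
    · exact hk 0 h0
  · by_cases h0 : s(zc N (⌊N * Z1⌋, ⌊N * Z2⌋), zc N (⌊N * Z1⌋, ⌊N * Z2⌋) + ed N 1) ∈ offE N C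
    · by_cases h2 : s(zc N (⌊N * Z1⌋, ⌊N * Z2⌋), zc N (⌊N * Z1⌋, ⌊N * Z2⌋) + ed N 2) ∈ offE N C
      · exact absurd ⟨_, s, t, rfl, hs0, hst, ht1, by rw [hpt]; rfl⟩ (hu _ h0 h2)
      · exact hk 2 h2
    · exact hk 1 h0

end Pool.Agent.MPe54d61.TC
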