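import Pool.Agent.Lib.MP_e54d61_gt.TC.SpecA

set_option autoImplicit false

namespace Pool.Agent.MPe54d61.TC

open Topology MatrixGroups

private theorem Nu_mat_mul (A B : SL(2, ℤ)) (z : T) : mat (A * B) z = mat A (mat B z) := by
  have e : ∀ i j : Fin 2, (A * B) i j = A i 0 * B 0 j + A i 1 * B 1 j := by
    intro i j
    rw [Matrix.SpecialLinearGroup.coe_mul, Matrix.mul_apply, Fin.sum_univ_two]
  refine Prod.ext ?_ ?_
  · show (A * B) 0 0 • z.1 + (A * B) 0 1 • z.2 =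
      A 0 0 • (B 0 0 • z.1 + B 0 1 • z.2) + A 0 1 • (B 1 0 • z.1 + B 1 1 • z.2)
    rw [e, e]
    module
  · show (A * B) 1 0 • z.1 + (A * B) 1 1 • z.2 =
      A 1 0 • (B 0 0 • z.1 + B 0 1 • z.2) + A 1 1 • (B 1 0 • z.1 + B 1 1 • z.2)
    rw [e, e]
    module

private theorem Nu_mat_one (z : T) : mat 1 z = z := by
  show (_, _) = ((_, _) : T)
  simp [mat]

private theorem Nu_mat_inv (A : SL(2, ℤ)) (z : T) : mat A⁻¹ z = (mat A).symm z := by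
  rw [Homeomorph.eq_symm_apply, ← Nu_mat_mul, mul_inv_cancel, Nu_mat_one]

private theorem Nu_edge (hU : S_U) (hHor : S_Hor) (x y : TC.X) (h : Disjoint (cur x) (cur y)) :
    FL 12 ((x.1 : T ≃ₜ T)⁻¹ * (y.1 : T ≃ₜ T)) := by
  obtain ⟨g, hg⟩ : ∃ g : T ≃ₜ T, g = (x.1 : T ≃ₜ T) := ⟨_, rfl⟩
  obtain ⟨g', hg'⟩ : ∃ g' : T ≃ₜ T, g' = (y.1 : T ≃ₜ T) := ⟨_, rfl⟩
  obtain ⟨A, hA⟩ : ∃ A : SL(2, ℤ), A = x.2 := ⟨_, rfl⟩
  obtain ⟨A', hA'⟩ : ∃ A : SL(2, ℤ), A = y.2 := ⟨_, rfl⟩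
  have hmem : g⁻¹ * g' ∈ GT := by
    rw [hg, hg']
    exact GT.mul_mem (GT.inv_mem x.1.2) y.1.2
  obtain ⟨s, hs⟩ : ∃ s : T ≃ₜ T, s = (mat A)⁻¹ * (g⁻¹ * g') * mat A := ⟨_, rfl⟩
  have hsG : s ∈ GT := by
    have h1 := GT_conj hmem (mat A)⁻¹
    rwa [inv_inv, ← hs] at h1
  have hsap : ∀ z, s z = (mat A).symm (g.symm (g' (mat A z))) := by
    intro z
    rw [hs]
    rfl
  obtain ⟨B, hB⟩ : ∃ B : SL(2, ℤ), B = A⁻¹ * A' := ⟨_, rfl⟩
  have hAB : A * B = A' := by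
    rw [hB, mul_inv_cancel_left]
  have hne : ∀ z : Ci, (s (mat B ((0 : Ci), z))).1 ≠ 0 := by
    intro z h0
    obtain ⟨y', hy'⟩ : ∃ y' : Ci, s (mat B ((0 : Ci), z)) = ((0 : Ci), y') :=
      ⟨_, Prod.ext h0 rfl⟩
    rw [hsap, ← Nu_mat_mul, hAB, Homeomorph.symm_apply_eq, Homeomorph.symm_apply_eq] at hy'
    have h5 : g' (mat A' ((0 : Ci), z)) ∈ cur x := by
      refine ⟨y', ?_⟩
      rw [← hg, ← hA]
      exact hy'
    have h6 : g' (mat A' ((0 : Ci), z)) ∈ cur y := by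
      refine ⟨z, ?_⟩
      rw [← hg', ← hA']
    exact Set.disjoint_left.1 h h5 h6
  have h01 : B 0 1 = 0 := hHor s hsG B hne
  have hdet := det_SL B
  rw [h01, zero_mul, sub_zero] at hdet
  have h11 : B 1 1 * B 1 1 = 1 := by
    rcases Int.eq_one_or_neg_one_of_mul_eq_one' hdet with ⟨-, h2⟩ | ⟨-, h2⟩ <;> rw [h2] <;> norm_num
  have hne2 : ∀ z : Ci, (s ((0 : Ci), z)).1 ≠ 0 := by
    intro z
    have h2 : mat B ((0 : Ci), B 1 1 • z) = ((0 : Ci), z) := by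
      show (B 0 0 • (0 : Ci) + B 0 1 • (B 1 1 • z), B 1 0 • (0 : Ci) + B 1 1 • (B 1 1 • z)) = _
      rw [h01, smul_zero, zero_smul, smul_zero, zero_add, zero_add, smul_smul, h11, one_smul]
    have h3 := hne (B 1 1 • z)
    rwa [h2] at h3
  have hfl := fl_conj (hU s hsG hne2) (mat A)
  have heq : mat A * s * (mat A)⁻¹ = g⁻¹ * g' := by
    rw [hs]
    group
  rw [heq] at hfl
  rwa [← hg, ← hg']

theorem tNu (hU : S_U) (hHor : S_Hor) : S_Nu := by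
  intro x y w
  induction w with
  | nil =>
    rw [inv_mul_cancel]
    exact fl_one _
  | @cons u v z hadj w ih =>
    have h1 : FL 12 ((u.1 : T ≃ₜ T)⁻¹ * (v.1 : T ≃ₜ T)) := by
      rcases hadj.2 with h | ⟨h, -⟩
      · exact Nu_edge hU hHor u v h
      · rw [h, inv_mul_cancel]
        exact fl_one _
    have h2 := fl_mul h1 ih
    have h3 : (u.1 : T ≃ₜ T)⁻¹ * (v.1 : T ≃ₜ T) * ((v.1 : T ≃ₜ T)⁻¹ * (z.1 : T ≃ₜ T)) =
        (u.1 : T ≃ₜ T)⁻¹ * (z.1 : T ≃ₜ T) := by group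
    rw [h3] at h2
    have h4 : 12 * (SimpleGraph.Walk.cons hadj w).length = 12 + 12 * w.length := by
      rw [SimpleGraph.Walk.length_cons]
      ring
    rw [h4]
    exact h2

end Pool.Agent.MPe54d61.TC
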