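import Pool.Agent.Lib.MP_e54d61_gt.TC.SpecE

/-!
# MP_e54d61_gt, torus case, part E: the flow length is a conjugation invariant length
-/

set_option autoImplicit false

namespace Pool.Agent.MPe54d61.TC

open SimpleGraph Filter Topology

namespace NuLenAux

private theorem nuT_spec (g : GT) : FL (nuT g) (g : T ≃ₜ T) :=
  Nat.sInf_mem (s := {n | FL n (g : T ≃ₜ T)}) (mem_fl g.2)

private theorem nuT_le {g : GT} {n : ℕ} (h : FL n (g : T ≃ₜ T)) : nuT g ≤ n :=
  Nat.sInf_le (s := {n | FL n (g : T ≃ₜ T)}) h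

private theorem inv_le (g : GT) : nuT g⁻¹ ≤ nuT g := nuT_le (fl_inv (nuT_spec g))

private theorem conj_le (g h : GT) : nuT (h * g * h⁻¹) ≤ nuT g :=
  nuT_le (fl_conj (nuT_spec g) (h : T ≃ₜ T))

end NuLenAux

open NuLenAux

theorem tNuLen : S_NuLen where
  one := Nat.le_zero.1 (nuT_le (fl_one 0))
  mul g h := nuT_le (fl_mul (nuT_spec g) (nuT_spec h))
  inv g := by
    refine le_antisymm (inv_le g) ?_
    have h := inv_le g⁻¹
    rwa [inv_inv] at h
  conj g h := by
    refine le_antisymm (conj_le g h) ?_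
    have h1 := conj_le (h * g * h⁻¹) h⁻¹
    have h2 : h⁻¹ * (h * g * h⁻¹) * h⁻¹⁻¹ = g := by group
    rwa [h2] at h1

end Pool.Agent.MPe54d61.TC
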