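import Pool.Agent.Lib.MP_e54d61_gt.TC.SpecH

/-!
# MP_e54d61_gt, torus case, part H: piecewise linear maps are continuous, equivariant, of bounded displacement
-/

set_option autoImplicit false

namespace Pool.Agent.MPe54d61.TC

open Topology MatrixGroups

namespace PLcAux

theorem lam_ne {s t : ℝ} (h : Lam s t ≠ 0) : |s| < 1 ∧ |t| < 1 := by
  by_contra hc
  apply h
  rw [Lam]
  apply max_eq_left
  have h3 : 1 ≤ max |s| |t| := by
    by_contra h4
    push Not at h4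
    exact hc ⟨(le_max_left _ _).trans_lt h4, (le_max_right _ _).trans_lt h4⟩
  have h5 : max |s| |t| ≤ max (max |s| |t|) |s - t| := le_max_left _ _
  linarith

theorem lam_cont : Continuous fun z : P => Lam z.1 z.2 := by
  unfold Lam
  fun_prop

theorem zc_add_mul (N : ℕ) (a v : ℤ × ℤ) : zc N (a + (N : ℤ) • v) = zc N a := by
  simp [zc]

theorem cont {N : ℕ} (f : VN N → P) : Continuous (PLm f) := by
  unfold PLm
  refine continuous_id.add ?_
  refine continuous_finsum ?_ ?_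
  · intro a
    have h : Continuous fun z : P => (((N : ℝ) * z.1 - a.1, (N : ℝ) * z.2 - a.2) : P) := by
      fun_prop
    have h2 : Continuous fun z : P => Lam (N * z.1 - a.1) (N * z.2 - a.2) := lam_cont.comp h
    exact h2.smul continuous_const
  · intro z
    refine ⟨Metric.ball z 1, Metric.ball_mem_nhds z one_pos, ?_⟩
    refine Set.Finite.subset
      ((Set.finite_Icc (⌊N * z.1 - N - 1⌋) (⌈N * z.1 + N + 1⌉)).prod
        (Set.finite_Icc (⌊N * z.2 - N - 1⌋) (⌈N * z.2 + N + 1⌉))) ?_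
    rintro a ⟨y, hy1, hy2⟩
    have hl : Lam (N * y.1 - a.1) (N * y.2 - a.2) ≠ 0 := by
      intro h0
      apply hy1
      show Lam (N * y.1 - a.1) (N * y.2 - a.2) • f (zc N a) = 0
      rw [h0, zero_smul]
    obtain ⟨h1, h2⟩ := lam_ne hl
    rw [Metric.mem_ball, Prod.dist_eq] at hy2
    have h3 : |y.1 - z.1| < 1 := (le_max_left _ _).trans_lt hy2
    have h4 : |y.2 - z.2| < 1 := (le_max_right _ _).trans_lt hy2
    rw [abs_lt] at h1 h2 h3 h4
    have hN : (0 : ℝ) ≤ N := Nat.cast_nonneg N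
    have k1 : (N : ℝ) * (y.1 - z.1) ≤ N := by nlinarith [h3.2]
    have k2 : -(N : ℝ) ≤ N * (y.1 - z.1) := by nlinarith [h3.1]
    have k3 : (N : ℝ) * (y.2 - z.2) ≤ N := by nlinarith [h4.2]
    have k4 : -(N : ℝ) ≤ N * (y.2 - z.2) := by nlinarith [h4.1]
    refine ⟨⟨?_, ?_⟩, ⟨?_, ?_⟩⟩
    · have : ((⌊N * z.1 - N - 1⌋ : ℤ) : ℝ) ≤ (a.1 : ℝ) :=
        (Int.floor_le _).trans (by linarith [h1.2])
      exact_mod_cast this
    · have : (a.1 : ℝ) ≤ ((⌈N * z.1 + N + 1⌉ : ℤ) : ℝ) :=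
        le_trans (by linarith [h1.1]) (Int.le_ceil _)
      exact_mod_cast this
    · have : ((⌊N * z.2 - N - 1⌋ : ℤ) : ℝ) ≤ (a.2 : ℝ) :=
        (Int.floor_le _).trans (by linarith [h2.2])
      exact_mod_cast this
    · have : (a.2 : ℝ) ≤ ((⌈N * z.2 + N + 1⌉ : ℤ) : ℝ) :=
        le_trans (by linarith [h2.1]) (Int.le_ceil _)
      exact_mod_cast this

theorem equi {N : ℕ} (f : VN N → P) (z : P) (v : ℤ × ℤ) : PLm f (z + iv v) = PLm f z + iv v := by
  have key : ∑ᶠ a : ℤ × ℤ, Lam (N * (z + iv v).1 - a.1) (N * (z + iv v).2 - a.2) • f (zc N a) =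
      ∑ᶠ a : ℤ × ℤ, Lam (N * z.1 - a.1) (N * z.2 - a.2) • f (zc N a) := by
    symm
    refine finsum_eq_of_bijective (fun a : ℤ × ℤ => a + (N : ℤ) • v)
      (Equiv.addRight ((N : ℤ) • v)).bijective ?_
    intro a
    have e1 : (N : ℝ) * (z + iv v).1 - ((a + (N : ℤ) • v).1 : ℤ) = N * z.1 - a.1 := by
      simp [iv]; ring
    have e2 : (N : ℝ) * (z + iv v).2 - ((a + (N : ℤ) • v).2 : ℤ) = N * z.2 - a.2 := by
      simp [iv]; ring
    simp only [e1, e2, zc_add_mul]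
  rw [PLm, PLm, key]
  abel

theorem bdd {N : ℕ} [hN : NeZero N] (hTri : S_Tri) (f : VN N → P) :
    ∃ C : ℝ, ∀ z, dist (PLm f z) z ≤ C := by
  refine ⟨1 + ∑ p, ‖f p‖ + ∑ k, ∑ p, ‖XX f k p‖ + ∑ k, ∑ p, ‖XX f k p‖, fun z => ?_⟩
  have hN0 : (1 : ℝ) ≤ N := by exact_mod_cast Nat.one_le_iff_ne_zero.2 hN.out
  have hNp : (0 : ℝ) < N := by linarith
  set a : ℤ × ℤ := (⌊(N : ℝ) * z.1⌋, ⌊(N : ℝ) * z.2⌋) with ha
  set s : ℝ := Int.fract ((N : ℝ) * z.1) with hs
  set t : ℝ := Int.fract ((N : ℝ) * z.2) with ht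
  have hz : z = pt N a s t := by
    apply Prod.ext
    · show z.1 = (a.1 + s) / N
      rw [eq_div_iff hNp.ne']
      have := Int.floor_add_fract ((N : ℝ) * z.1)
      rw [ha, hs]
      simp only
      linarith
    · show z.2 = (a.2 + t) / N
      rw [eq_div_iff hNp.ne']
      have := Int.floor_add_fract ((N : ℝ) * z.2)
      rw [ha, ht]
      simp only
      linarith
  have hs0 : 0 ≤ s := Int.fract_nonneg _
  have hs1 : s < 1 := Int.fract_lt_one _
  have ht0 : 0 ≤ t := Int.fract_nonneg _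
  have ht1 : t < 1 := Int.fract_lt_one _
  have h1 : ‖pt N a 0 0 - z‖ ≤ 1 := by
    rw [hz]
    have e : pt N a 0 0 - pt N a s t = (-(s / N), -(t / N)) := by
      apply Prod.ext
      · show ((a.1 : ℝ) + 0) / N - (a.1 + s) / N = -(s / N)
        ring
      · show ((a.2 : ℝ) + 0) / N - (a.2 + t) / N = -(t / N)
        ring
    rw [e, Prod.norm_def]
    refine max_le ?_ ?_
    · show ‖-(s / N)‖ ≤ 1
      rw [norm_neg, Real.norm_eq_abs, abs_of_nonneg (by positivity), div_le_one hNp]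
      linarith
    · show ‖-(t / N)‖ ≤ 1
      rw [norm_neg, Real.norm_eq_abs, abs_of_nonneg (by positivity), div_le_one hNp]
      linarith
  have hf : ∀ p, ‖f p‖ ≤ ∑ p, ‖f p‖ := fun p =>
    Finset.single_le_sum (f := fun p => ‖f p‖) (fun _ _ => norm_nonneg _) (Finset.mem_univ p)
  have hX : ∀ k p, ‖XX f k p‖ ≤ ∑ k, ∑ p, ‖XX f k p‖ := fun k p =>
    (Finset.single_le_sum (f := fun p => ‖XX f k p‖) (fun _ _ => norm_nonneg _)
      (Finset.mem_univ p)).trans
      (Finset.single_le_sum (f := fun k => ∑ p, ‖XX f k p‖)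
        (fun _ _ => Finset.sum_nonneg fun _ _ => norm_nonneg _) (Finset.mem_univ k))
  have hsm : ∀ (r : ℝ) k p, 0 ≤ r → r ≤ 1 → ‖r • XX f k p‖ ≤ ∑ k, ∑ p, ‖XX f k p‖ := by
    intro r k p h0 h1
    rw [norm_smul, Real.norm_eq_abs, abs_of_nonneg h0]
    have := hX k p
    have h2 := norm_nonneg (XX f k p)
    nlinarith
  have fin : ∀ (r r' : ℝ) k k' p p' q, 0 ≤ r → r ≤ 1 → 0 ≤ r' → r' ≤ 1 →
      PLm f z = pt N a 0 0 + f q + (r • XX f k p + r' • XX f k' p') →
      dist (PLm f z) z ≤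
        1 + ∑ p, ‖f p‖ + ∑ k, ∑ p, ‖XX f k p‖ + ∑ k, ∑ p, ‖XX f k p‖ := by
    intro r r' k k' p p' q a1 a2 a3 a4 e
    rw [dist_eq_norm, e]
    have e2 : pt N a 0 0 + f q + (r • XX f k p + r' • XX f k' p') - z =
        (pt N a 0 0 - z) + f q + r • XX f k p + r' • XX f k' p' := by abel
    rw [e2]
    refine (norm_add_le _ _).trans (add_le_add ?_ (hsm r' k' p' a3 a4))
    refine (norm_add_le _ _).trans (add_le_add ?_ (hsm r k p a1 a2))
    exact (norm_add_le _ _).trans (add_le_add h1 (hf q))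
  obtain ⟨c1, c2⟩ := hTri N hN f a s t
  rcases le_total t s with h | h
  · have := c1 ht0 h hs1.le
    rw [← hz] at this
    exact fin (s - t) t 0 2 _ _ _ (by linarith) (by linarith) ht0 ht1.le this
  · have := c2 hs0 h ht1.le
    rw [← hz] at this
    exact fin (t - s) s 1 2 _ _ _ (by linarith) (by linarith) hs0 hs1.le this

end PLcAux

theorem tPLc (hTri : S_Tri) : S_PLc := fun _N _hN f =>
  ⟨PLcAux.cont f, fun z v => PLcAux.equi f z v, PLcAux.bdd hTri f⟩

end Pool.Agent.MPe54d61.TC
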