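import Pool.Agent.Lib.MP_e54d61_gt.TC.SpecH

/-!
# MP_e54d61_gt, torus case, part H: realisation of a pair of curves
-/

set_option autoImplicit false

namespace Pool.Agent.MPe54d61.TC

open Topology MatrixGroups

namespace PairAux

private theorem wt_swap (M : ℝ) {N : ℕ} (σ α β : Fin 3 → VN N → ℤ) :
    wt M σ β α = wt M σ α β := by
  funext k p
  simp only [wt, or_comm]

private theorem one_le_wt {M : ℝ} (hM : 1 ≤ M) {N : ℕ} (σ α β : Fin 3 → VN N → ℤ) (k : Fin 3)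
    (p : VN N) : 1 ≤ wt M σ α β k p := by
  unfold wt
  split_ifs
  · nlinarith
  · exact hM
  · exact le_refl 1

private theorem seg_pr {N : ℕ} {k : Fin 3} {p : VN N} {z : T} (hz : z ∈ seg N k p) :
    ∃ ζ : P, z = pr ζ := by
  obtain ⟨a, s, _, _, _, h⟩ := hz
  exact ⟨_, h⟩

end PairAux

open PairAux in
theorem tPair (hHarmE : S_HarmE) (hReachGT : S_ReachGT) (hLine : S_Line) (hAvoid : S_Avoid)
    (hPairE : S_PairE) : S_Pair := by
  obtain ⟨N0, hN0⟩ := hReachGT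
  refine ⟨max N0 2, ?_⟩
  intro N hNZ hN σ α β A κ κ' u u' h1 hα hβ hcα hcβ hσα hβeq hσβ hαeq
  have hNN0 : N0 ≤ N := le_trans (le_max_left _ _) hN
  have hN2 : 2 ≤ N := le_trans (le_max_right _ _) hN
  have hε : (0 : ℝ) < 1 / (4 * ((N : ℝ) ^ 2 + 1)) := by positivity
  obtain ⟨M1, hM1, H1⟩ := hPairE N hNZ σ α β κ' (c2 A) u h1 hβ hcβ hσα hβeq _ hε
  have h1' : ∀ k p, |σ k p| + |β k p| + |α k p| ≤ 1 := by
    intro k p
    have := h1 k p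
    linarith
  obtain ⟨M2, hM2, H2⟩ := hPairE N hNZ σ β α κ (c1 A) u' h1' hα hcα hσβ hαeq _ hε
  obtain ⟨f, hf, hreach⟩ := hHarmE N hNZ hN2 (wt (max M1 M2) σ α β)
    (fun k p => one_le_wt (le_trans hM1 (le_max_left _ _)) σ α β k p)
  have B1 := H1 (max M1 M2) (le_max_left _ _) f hf
  have B2 := H2 (max M1 M2) (le_max_right _ _) f (by rw [wt_swap]; exact hf)
  obtain ⟨g, hg⟩ := hN0 N hNZ hNN0 f hreach
  obtain ⟨θ1, hθ1, -, -⟩ := hAvoid N hNZ f (c2 A) (fun k p => σ k p ≠ 0 ∨ α k p ≠ 0) B1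
  obtain ⟨θ2, hθ2, -, -⟩ := hAvoid N hNZ f (c1 A) (fun k p => σ k p ≠ 0 ∨ β k p ≠ 0) B2
  obtain ⟨x, hx1, hx2⟩ := hLine (PLm f) g hg A θ1 θ2
  refine ⟨x, ?_, ?_⟩
  · intro k p hK
    rw [Set.disjoint_left]
    intro z hz hzs
    obtain ⟨ζ, rfl⟩ := seg_pr hzs
    exact hθ1 k p hK ζ hzs ((hx1 ζ).1 hz)
  · intro k p hK
    rw [Set.disjoint_left]
    intro z hz hzs
    obtain ⟨ζ, rfl⟩ := seg_pr hzs
    exact hθ2 k p hK ζ hzs ((hx2 ζ).1 hz)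

end Pool.Agent.MPe54d61.TC
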