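import Pool.Agent.Lib.MP_e54d61_gt.TC.SpecS

/-!
# MP_e54d61_gt, torus case, part S, module PairG: determinant one (helper32)
-/

set_option autoImplicit false

namespace Pool.Agent.MPe54d61.TC

open SimpleGraph MatrixGroups

namespace PairGAux

/-- the matrix with second column `a` and first column `-ε b`, where `ε = det (a, b) = ± 1` -/
theorem exists_mat (a b : ℤ × ℤ) (h : |dz a b| = 1) :
    ∃ A : SL(2, ℤ), c2 A = a ∧ c1 A = (-dz a b) • b := by
  have h2 : dz a b * dz a b = 1 := by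
    rcases abs_eq (zero_le_one' ℤ) |>.1 h with h | h <;> rw [h] <;> norm_num
  refine ⟨⟨!![-dz a b * b.1, a.1; -dz a b * b.2, a.2], ?_⟩, ?_, ?_⟩
  · rw [Matrix.det_fin_two_of]
    have : -dz a b * b.1 * a.2 - a.1 * (-dz a b * b.2) = dz a b * dz a b := by
      simp only [dz]; ring
    rw [this, h2]
  · simp [c2]
  · ext <;> simp [c1]

theorem pair_zero {a b c : ℤ} (h : |a| + |b| + |c| ≤ 1) (h' : a ≠ 0 ∨ b ≠ 0) : c = 0 := by
  by_contra hc
  have h1 := abs_nonneg a
  have h2 := abs_nonneg b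
  have h3 : 1 ≤ |c| := Int.one_le_abs hc
  rcases h' with h' | h'
  · have := Int.one_le_abs h'; omega
  · have := Int.one_le_abs h'; omega

end PairGAux

open PairGAux in
/-- **Module PairG.** -/
theorem tPairG (h1 : S_Grid) (h2 : S_ChCyc) (h3 : S_Dis3) (h4 : S_PairU) (h5 : S_GeoSeg)
    (h6 : S_Pair) : S_PairG := by
  obtain ⟨N0, h6⟩ := h6
  refine ⟨max 3 N0, ?_⟩
  intro N hNZ hN x y s α β hα hβ hz hdet
  have hN3 : 3 ≤ N := le_trans (le_max_left _ _) hN
  have hN0 : N0 ≤ N := le_trans (le_max_right _ _) hN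
  have hanti : Anti (kN N) := (h1 N hN3).1
  obtain ⟨A, hA2, hA1⟩ := exists_mat _ _ hdet
  have hne : cls (kN N) (s.append α) ≠ cls (kN N) (s.append β) := by
    intro h
    rw [h, dz_self] at hdet
    simp at hdet
  have hz' : ∀ z, z ∈ β.support → z ∈ α.support → z = x ∨ z = y := fun z h h' => hz z h' h
  have hd1 : dz (c2 A) (cls (kN N) (s.append α)) = 0 := by rw [hA2, dz_self]
  have hd2 : dz (c1 A) (cls (kN N) (s.append β)) = 0 := by
    rw [hA1, dz_smul_left, dz_self, mul_zero]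
  obtain ⟨hβ0, hβp, u, hu⟩ := h4 N hNZ hN3 x y s α β hα hβ hz hne (c2 A) hd1
  obtain ⟨hα0, hαp, u', hu'⟩ := h4 N hNZ hN3 x y s β α hβ hα hz' hne.symm (c1 A) hd2
  obtain ⟨-, -, hdis⟩ := h3 (VN N) (ℤ × ℤ) inferInstance inferInstance (GN N) (kN N) hanti x y s α β
    hα hβ hz hne
  have hsum : ∀ k p, |ch s k p| + |ch α k p| + |ch β k p| ≤ 1 := fun k p =>
    (hdis p (p + ed N k)).1
  have hs : ∀ k p, s(p, p + ed N k) ∈ eds s ↔ ch s k p ≠ 0 := fun k p =>
    (hdis p (p + ed N k)).2.1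
  have ha : ∀ k p, s(p, p + ed N k) ∈ eds α ↔ ch α k p ≠ 0 := fun k p =>
    (hdis p (p + ed N k)).2.2.1
  have hb : ∀ k p, s(p, p + ed N k) ∈ eds β ↔ ch β k p ≠ 0 := fun k p =>
    (hdis p (p + ed N k)).2.2.2
  have hc1 : Cyc (fun k p => ch s k p + ch α k p) (cls (kN N) (s.append α)) := by
    have := h2 N hNZ hN3 x (s.append α)
    have h' : (fun k p => ch s k p + ch α k p) = ch (s.append α) := by
      funext k p
      rw [ch_append]
    rw [h']
    exact this
  have hc2 : Cyc (fun k p => ch s k p + ch β k p) (cls (kN N) (s.append β)) := by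
    have := h2 N hNZ hN3 x (s.append β)
    have h' : (fun k p => ch s k p + ch β k p) = ch (s.append β) := by
      funext k p
      rw [ch_append]
    rw [h']
    exact this
  have k1 : ∀ k p, ch s k p ≠ 0 ∨ ch α k p ≠ 0 → DU (c2 A) u k p = 0 := by
    intro k p hkp
    have hb0 : ch β k p = 0 := pair_zero (hsum k p) hkp
    have hmem : s(p, p + ed N k) ∈ eds s ∪ eds α ∪ eds β := by
      left
      rcases hkp with hkp | hkp
      · exact Or.inl ((hs k p).2 hkp)
      · exact Or.inr ((ha k p).2 hkp)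
    have := hu k p hmem
    rw [hb0, Int.cast_zero, mul_zero] at this
    exact (mul_eq_zero.1 this).resolve_left hβp.ne'
  have k2 : ∀ k p, ch s k p ≠ 0 ∨ ch β k p ≠ 0 → DU (c1 A) u' k p = 0 := by
    intro k p hkp
    have hsum' : |ch s k p| + |ch β k p| + |ch α k p| ≤ 1 := by
      have := hsum k p
      omega
    have ha0 : ch α k p = 0 := pair_zero hsum' hkp
    have hmem : s(p, p + ed N k) ∈ eds s ∪ eds β ∪ eds α := by
      left
      rcases hkp with hkp | hkp
      · exact Or.inl ((hs k p).2 hkp)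
      · exact Or.inr ((hb k p).2 hkp)
    have := hu' k p hmem
    rw [ha0, Int.cast_zero, mul_zero] at this
    exact (mul_eq_zero.1 this).resolve_left hαp.ne'
  obtain ⟨g, hg1, hg2⟩ := h6 N hNZ hN0 (ch s) (ch α) (ch β) A (cls (kN N) (s.append α))
    (cls (kN N) (s.append β)) u u' hsum hα0 hβ0 hc1 hc2 k1
    (fun k p hkp => hu k p (Or.inr ((hb k p).2 hkp))) k2
    (fun k p hkp => hu' k p (Or.inr ((ha k p).2 hkp)))
  refine ⟨g, A, Set.disjoint_left.2 fun z hzc hzg => ?_, Set.disjoint_left.2 fun z hzc hzg => ?_⟩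
  · obtain ⟨k, p, hkp, hzs⟩ := h5 N hNZ _ z hzg
    rw [eds_append] at hkp
    refine Set.disjoint_left.1 (hg1 k p ?_) hzc hzs
    rcases hkp with hkp | hkp
    · exact Or.inl ((hs k p).1 hkp)
    · exact Or.inr ((ha k p).1 hkp)
  · obtain ⟨k, p, hkp, hzs⟩ := h5 N hNZ _ z hzg
    rw [eds_append] at hkp
    refine Set.disjoint_left.1 (hg2 k p ?_) hzc hzs
    rcases hkp with hkp | hkp
    · exact Or.inl ((hs k p).1 hkp)
    · exact Or.inr ((hb k p).1 hkp)

end Pool.Agent.MPe54d61.TC
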