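import Pool.Agent.Lib.MP_e54d61_gt.TC.SpecS

/-!
# MP_e54d61_gt, torus case, module PairU: the function which is constant on `s`, `α`, linear on `β`
-/

set_option autoImplicit false

namespace Pool.Agent.MPe54d61.TC

open SimpleGraph

namespace PairUAux

private theorem int_zero (a b c : ℤ) (h : |a| + |b| + |c| ≤ 1) : (a + b) * c = 0 := by
  by_cases hc : c = 0
  · rw [hc, mul_zero]
  · have h1 : 1 ≤ |c| := Int.one_le_abs hc
    have ha : |a| = 0 := le_antisymm (by linarith [abs_nonneg b]) (abs_nonneg a)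
    have hb : |b| = 0 := le_antisymm (by linarith [abs_nonneg a]) (abs_nonneg b)
    rw [abs_eq_zero.1 ha, abs_eq_zero.1 hb, add_zero, zero_mul]

private theorem int_abs (a b c : ℤ) (h : |a| + |b| + |c| ≤ 1) : (a + c) * c = |c| := by
  have h1 : (a + b) * c = 0 := int_zero a b c h
  by_cases hc : c = 0
  · rw [hc, mul_zero, abs_zero]
  · have hc1 : 1 ≤ |c| := Int.one_le_abs hc
    have ha : |a| = 0 := le_antisymm (by linarith [abs_nonneg b]) (abs_nonneg a)
    have hc2 : |c| = 1 := le_antisymm (by linarith [abs_nonneg a, abs_nonneg b]) hc1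
    rw [abs_eq_zero.1 ha, zero_add, ← abs_mul_abs_self, hc2, mul_one]

/-- the class of a combination -/
private theorem cls_comb {N : ℕ} (l : ℤ × ℤ) (t : ℝ) (r : VN N → VN N → ℝ) {u v : VN N}
    (w : (GN N).Walk u v) :
    cls (fun a b => t * r a b - (dz l (kN N a b) : ℝ)) w =
      t * cls r w - (dz l (cls (kN N) w) : ℝ) := by
  induction w with
  | nil => simp
  | cons h p ih =>
    rw [cls_cons, cls_cons, cls_cons, ih, dz_add_right]
    push_cast
    ring

/-- a walk which is not nil has an edge -/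
private theorem edge {N : ℕ} (hEd : ∀ u v : VN N, (GN N).Adj u v →
    ∃ k : Fin 3, v = u + ed N k ∨ u = v + ed N k) {x y : VN N} (β : (GN N).Walk y x)
    (hβ : ¬ β.Nil) (H : ∀ a b : VN N, s(a, b) ∈ eds β → cc β a b ≠ 0) :
    ∃ k p, ch β k p ≠ 0 := by
  cases β with
  | nil => exact absurd Walk.Nil.nil hβ
  | @cons _ z _ h q =>
    have he : s(y, z) ∈ eds (Walk.cons h q) := (mem_eds_cons h q _).2 (Or.inl rfl)
    obtain ⟨k, hk | hk⟩ := hEd y z h
    · refine ⟨k, y, ?_⟩
      unfold ch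
      rw [← hk]
      exact H y z he
    · refine ⟨k, z, ?_⟩
      unfold ch
      rw [← hk]
      exact H z y (by rw [Sym2.eq_swap]; exact he)

end PairUAux

open PairUAux in
theorem tPairU (h1 : S_Grid) (h2 : S_Ed) (h3 : S_ChSum) (h4 : S_UKof) (h5 : S_Dis3)
    (h6 : S_ThPot) : S_PairU := by
  intro N hN0 hN x y s α β hα hβ hd hne l hl
  obtain ⟨hanti, -, -⟩ := h1 N hN
  obtain ⟨-, hβn, H⟩ := h5 (VN N) (ℤ × ℤ) inferInstance inferInstance (GN N) (kN N) hanti x y s α β
    hα hβ hd hne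
  have hex : ∃ k p, ch β k p ≠ 0 :=
    edge (h2 N hN).2.2.2 β hβn fun a b h => (H a b).2.2.2.1 h
  obtain ⟨n, hn⟩ : ∃ n : ℝ, n = ∑ k, ∑ p, |(ch β k p : ℝ)| := ⟨_, rfl⟩
  have hpos : 0 < n := by
    obtain ⟨k, p, hkp⟩ := hex
    rw [hn]
    refine Finset.sum_pos' (fun k _ => Finset.sum_nonneg fun p _ => abs_nonneg _)
      ⟨k, Finset.mem_univ k, ?_⟩
    exact Finset.sum_pos' (fun p _ => abs_nonneg _)
      ⟨p, Finset.mem_univ p, abs_pos.2 (Int.cast_ne_zero.2 hkp)⟩
  rw [← hn]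
  refine ⟨hex, hpos, ?_⟩
  obtain ⟨η, hη⟩ : ∃ η : ℝ, η = (dz l (cls (kN N) (s.append β)) : ℝ) := ⟨_, rfl⟩
  rw [dt_iv, ← hη]
  -- the class of the chain of `β`
  have hr : Anti (fun a b : VN N => (cc β a b : ℝ)) := fun a b => by
    simp only [cc_swap β a b, Int.cast_neg]
  have hcl : ∀ {u v : VN N} (w : (GN N).Walk u v), cls (fun a b : VN N => (cc β a b : ℝ)) w =
      ∑ k, ∑ p, ((ch w k p * ch β k p : ℤ) : ℝ) := by
    intro u v w
    rw [h3 N hN0 hN ℝ inferInstance _ hr u v w]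
    refine Finset.sum_congr rfl fun k _ => Finset.sum_congr rfl fun p _ => ?_
    rw [zsmul_eq_mul, Int.cast_mul]
    rfl
  have hA : cls (fun a b : VN N => (cc β a b : ℝ)) (s.append α) = 0 := by
    rw [hcl]
    refine Finset.sum_eq_zero fun k _ => Finset.sum_eq_zero fun p _ => ?_
    rw [ch_append, int_zero (ch s k p) (ch α k p) (ch β k p) (H p (p + ed N k)).1, Int.cast_zero]
  have hB : cls (fun a b : VN N => (cc β a b : ℝ)) (s.append β) = n := by
    rw [hcl, hn]
    refine Finset.sum_congr rfl fun k _ => Finset.sum_congr rfl fun p _ => ?_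
    rw [ch_append, int_abs (ch s k p) (ch α k p) (ch β k p) (H p (p + ed N k)).1, Int.cast_abs]
  have hρ : Anti (fun a b : VN N => η / n * (cc β a b : ℝ) - (dz l (kN N a b) : ℝ)) := fun a b => by
    simp only [cc_swap β a b, hanti a b, dz_neg_right, Int.cast_neg]
    ring
  have hρA : cls (fun a b : VN N => η / n * (cc β a b : ℝ) - (dz l (kN N a b) : ℝ))
      (s.append α) = 0 := by
    rw [cls_comb l (η / n) (fun a b : VN N => (cc β a b : ℝ)), hA, hl]
    simp
  have hρB : cls (fun a b : VN N => η / n * (cc β a b : ℝ) - (dz l (kN N a b) : ℝ))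
      (s.append β) = 0 := by
    rw [cls_comb l (η / n) (fun a b : VN N => (cc β a b : ℝ)), hB, ← hη,
      div_mul_cancel₀ _ hpos.ne', sub_self]
  obtain ⟨ψ, hψ⟩ := h6 (VN N) (ℤ × ℤ) inferInstance (GN N) (kN N) _ hρ x y s α β hα hβ hd hρA hρB
  obtain ⟨u, hu⟩ := h4 N hN0 hN l ψ
  refine ⟨u, fun k p hkp => ?_⟩
  have e := hψ p (p + ed N k) hkp
  have e' : DU l u k p = η / n * (ch β k p : ℝ) := by
    rw [hu k p, add_sub_assoc, ← e]
    simp only [ch]
    ring
  rw [e', ← mul_assoc, mul_div_cancel₀ _ hpos.ne']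

end Pool.Agent.MPe54d61.TC
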