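import Pool.Agent.Lib.MP_e54d61_gt.TC.SpecE

/-!
# MP_e54d61_gt, torus case, part E: paths (`S_PathE`)
-/

set_option autoImplicit false

namespace Pool.Agent.MPe54d61.TC

open SimpleGraph Filter Topology

theorem tPathE (hGrid : S_Grid) (hAvEx : S_AvEx) (hChain : S_Chain) : S_PathE := by
  rintro N1 ⟨hN1, hBig⟩ x y
  obtain ⟨N0, hN0⟩ := hAvEx x
  obtain ⟨N0', hN0'⟩ := hAvEx y
  set N : ℕ := N1 + N0 + N0' with hNdef
  have hNN1 : N1 ≤ N := by omega
  obtain ⟨A, hA, hxA⟩ := hN0 N (by omega)
  obtain ⟨B, hB, hyB⟩ := hN0' N (by omega)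
  obtain ⟨n, c, hc0, hcn, hc, hr⟩ := hChain (VN N) (ℤ × ℤ) _ (GN N) (kN N)
    (hGrid N (hN1.trans hNN1)).1 A B hA hB
  obtain ⟨hex, hnr⟩ := hBig N hNN1
  have hz : ∀ i : ℕ, ∃ z : X, i ≤ n → Av N z (c i) := by
    intro i
    by_cases hi : i ≤ n
    · obtain ⟨z, hz⟩ := hex (c i) (hc i hi).1
      exact ⟨z, fun _ => hz⟩
    · exact ⟨x, fun h => absurd h hi⟩
  choose z hz using hz
  let p : ℕ → X := fun i => if i = 0 then x else if i ≤ n then z i else y
  have hp0 : p 0 = x := if_pos rfl
  have hpn : p (n + 1) = y := by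
    show (if n + 1 = 0 then x else if n + 1 ≤ n then z (n + 1) else y) = y
    rw [if_neg (by omega), if_neg (by omega)]
  have hpc : ∀ i ≤ n + 1, Av N (p i) (c (min i n)) := by
    intro i hi
    by_cases h0 : i = 0
    · subst h0
      rw [hp0, Nat.zero_min, hc0]
      exact hxA
    · by_cases h1 : i ≤ n
      · have e : p i = z i := by
          show (if i = 0 then x else if i ≤ n then z i else y) = z i
          rw [if_neg h0, if_pos h1]
        rw [e, min_eq_left h1]
        exact hz i h1
      · have e : i = n + 1 := by omega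
        subst e
        rw [hpn, min_eq_right (by omega), hcn]
        exact hyB
  refine ⟨n + 1, p, hp0, hpn, ?_, ?_⟩
  · intro i hi
    have hm : min i n ≤ n := min_le_right _ _
    exact ⟨N, A, B, c (min i n), hNN1, hA, hB, (hc _ hm).1, (hc _ hm).2, hxA, hyB, hpc i hi⟩
  · intro i hi
    have hrr : RR (GN N) (kN N) (c (min i n)) (c (min (i + 1) n)) := by
      by_cases h1 : i < n
      · rw [min_eq_left h1.le, min_eq_left (by omega)]
        exact hr i h1
      · have e : i = n := by omega
        rw [e, min_self, min_eq_right (by omega)]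
        exact Or.inl rfl
    exact hnr _ _ (hc _ (min_le_right _ _)).1 (hc _ (min_le_right _ _)).1 hrr _ _
      (hpc i (by omega)) (hpc (i + 1) (by omega))

end Pool.Agent.MPe54d61.TC
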