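import Pool.Agent.Lib.MP_e54d61_gt.TC.SpecS

/-!
# MP_e54d61_gt, torus case, part S: periods of a function with periodic differences
-/

set_option autoImplicit false

namespace Pool.Agent.MPe54d61.TC

namespace PerAux

theorem one_dim (f : ℤ → ℤ) (h : ∀ i, f i = f (i - 1)) (i : ℤ) : f i = f 0 := by
  induction i using Int.induction_on with
  | zero => rfl
  | succ n ih =>
    rw [h, ← ih]
    congr 1
    ring
  | pred n ih =>
    rw [← ih, h (-(n : ℤ))]

theorem two_dim (F : ℤ × ℤ → ℤ) (h0 : ∀ x, F x = F (x - ei 0)) (h1 : ∀ x, F x = F (x - ei 1))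
    (x : ℤ × ℤ) : F x = F 0 := by
  obtain ⟨i, j⟩ := x
  have d0 : ∀ i : ℤ, ((i, j) : ℤ × ℤ) - ei 0 = (i - 1, j) := fun i => by
    ext <;> simp [ei]
  have d1 : ∀ j : ℤ, ((0, j) : ℤ × ℤ) - ei 1 = (0, j - 1) := fun j => by
    ext <;> simp [ei]
  have e1 : F (i, j) = F (0, j) := one_dim (fun i => F (i, j)) (fun i => by
    rw [← d0]
    exact h0 _) i
  have e2 : F (0, j) = F (0, 0) := one_dim (fun j => F (0, j)) (fun j => by
    rw [← d1]
    exact h1 _) j
  rw [e1, e2]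
  rfl

theorem sum_zmod (N : ℕ) [NeZero N] (G : ZMod N → ℤ) :
    ∑ i ∈ Finset.range N, G (i : ZMod N) = ∑ z, G z := by
  refine Finset.sum_nbij' (fun i => (i : ZMod N)) (fun z => z.val) ?_ ?_ ?_ ?_ ?_
  · intro i _
    exact Finset.mem_univ _
  · intro z _
    exact Finset.mem_range.2 (ZMod.val_lt z)
  · intro i hi
    exact ZMod.val_cast_of_lt (Finset.mem_range.1 hi)
  · intro z _
    exact ZMod.natCast_zmod_val z
  · intro i _
    rfl

theorem line (N : ℕ) [NeZero N] (f : ℤ → ℤ) (G : ZMod N → ℤ)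
    (h : ∀ i : ℤ, f i - f (i - 1) = G (i : ZMod N)) : f N - f 0 = ∑ z, G z := by
  have h1 : f N - f 0 = ∑ i ∈ Finset.range N, (f ((i + 1 : ℕ) : ℤ) - f (i : ℤ)) := by
    rw [Finset.sum_range_sub (fun i : ℕ => f (i : ℤ))]
    simp
  rw [h1, ← Equiv.sum_comp (Equiv.addRight (1 : ZMod N)) G,
    ← sum_zmod N (fun z => G (Equiv.addRight (1 : ZMod N) z))]
  refine Finset.sum_congr rfl fun i _ => ?_
  have h2 := h ((i + 1 : ℕ) : ℤ)
  have h3 : ((i + 1 : ℕ) : ℤ) - 1 = (i : ℤ) := by push_cast; ring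
  rw [h3] at h2
  rw [h2]
  simp

theorem zc_per (N : ℕ) (x v : ℤ × ℤ) : zc N (x + (N : ℤ) • v) = zc N x := by
  ext <;> simp [zc]

end PerAux

open PerAux in
theorem tPer : S_Per := by
  intro N hN a g h hgh
  let D : ℤ × ℤ → ℤ × ℤ → ℤ := fun v x => a (x + (N : ℤ) • v) - a x
  have hD : ∀ v x, D v x = D v 0 := by
    intro v x
    refine two_dim (D v) ?_ ?_ x
    · intro x
      have e1 := (hgh (x + (N : ℤ) • v)).1
      have e2 := (hgh x).1
      rw [zc_per] at e1
      have e3 : x + (N : ℤ) • v - ei 0 = x - ei 0 + (N : ℤ) • v := by abel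
      rw [e3] at e1
      simp only [D]
      linarith
    · intro x
      have e1 := (hgh (x + (N : ℤ) • v)).2
      have e2 := (hgh x).2
      rw [zc_per] at e1
      have e3 : x + (N : ℤ) • v - ei 1 = x - ei 1 + (N : ℤ) • v := by abel
      rw [e3] at e1
      simp only [D]
      linarith
  let Q : ℤ × ℤ →+ ℤ := AddMonoidHom.mk' (fun v => D v 0) (by
    intro v w
    have e1 := hD w ((N : ℤ) • v)
    simp only [D, zero_add, smul_add] at e1 ⊢
    linarith)
  have hQ : ∀ v, D v 0 = Q v := fun v => rfl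
  have hQv : ∀ v : ℤ × ℤ, Q v = v.1 * Q (1, 0) + v.2 * Q (0, 1) := by
    intro v
    have e : v = v.1 • ((1, 0) : ℤ × ℤ) + v.2 • ((0, 1) : ℤ × ℤ) := by
      ext <;> simp
    conv_lhs => rw [e]
    rw [map_add, map_zsmul, map_zsmul, smul_eq_mul, smul_eq_mul]
  have hs : ∀ j : ℤ, Q (1, 0) = ∑ z : ZMod N, g (z, (j : ZMod N)) := by
    intro j
    rw [← hQ, ← hD (1, 0) (0, j)]
    have := line N (fun i => a (i, j)) (fun z => g (z, (j : ZMod N))) (fun i => by
      have e := (hgh (i, j)).1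
      have e2 : ((i, j) : ℤ × ℤ) - ei 0 = (i - 1, j) := by ext <;> simp [ei]
      rw [e2] at e
      exact e)
    rw [← this]
    have e3 : ((0, j) : ℤ × ℤ) + (N : ℤ) • ((1, 0) : ℤ × ℤ) = ((N : ℤ), j) := by
      ext <;> simp
    simp only [D, e3]
  have ht : ∀ i : ℤ, Q (0, 1) = ∑ z : ZMod N, h ((i : ZMod N), z) := by
    intro i
    rw [← hQ, ← hD (0, 1) (i, 0)]
    have := line N (fun j => a (i, j)) (fun z => h ((i : ZMod N), z)) (fun j => by
      have e := (hgh (i, j)).2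
      have e2 : ((i, j) : ℤ × ℤ) - ei 1 = (i, j - 1) := by ext <;> simp [ei]
      rw [e2] at e
      exact e)
    rw [← this]
    have e3 : ((i, 0) : ℤ × ℤ) + (N : ℤ) • ((0, 1) : ℤ × ℤ) = (i, (N : ℤ)) := by
      ext <;> simp
    simp only [D, e3]
  refine ⟨Q (1, 0), Q (0, 1), ?_, ?_, ?_⟩
  · rw [Fintype.sum_prod_type_right]
    have e : ∀ y : ZMod N, ∑ x : ZMod N, g (x, y) = Q (1, 0) := by
      intro y
      rw [hs (y.val : ℤ)]
      simp
    rw [Finset.sum_congr rfl fun y _ => e y]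
    simp [ZMod.card]
  · rw [Fintype.sum_prod_type]
    have e : ∀ x : ZMod N, ∑ y : ZMod N, h (x, y) = Q (0, 1) := by
      intro x
      rw [ht (x.val : ℤ)]
      simp
    rw [Finset.sum_congr rfl fun y _ => e y]
    simp [ZMod.card]
  · intro x v
    have e1 := hD v x
    rw [hQ, hQv] at e1
    simp only [D] at e1
    linarith

end Pool.Agent.MPe54d61.TC
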