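import Pool.Agent.Lib.MP_e54d61_gt.TC.SpecP

/-!
# MP_e54d61_gt, torus case, module Pix: a curve in an open set is followed by a walk of the grid
-/

set_option autoImplicit false

namespace Pool.Agent.MPe54d61.TC

open SimpleGraph

namespace PixAux

/-- sup distance of lattice points at most one -/
def Nr (p q : ℤ × ℤ) : Prop := |q.1 - p.1| ≤ 1 ∧ |q.2 - p.2| ≤ 1

theorem nr_refl (p : ℤ × ℤ) : Nr p p := by
  unfold Nr
  simp

theorem nr_stp (p q : ℤ × ℤ) (h : q - p ∈ stp) : Nr p q := by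
  unfold Nr
  have h1 : q.1 - p.1 = (q - p).1 := rfl
  have h2 : q.2 - p.2 = (q - p).2 := rfl
  rw [h1, h2]
  generalize q - p = r at h
  simp only [stp, Finset.mem_insert, Finset.mem_singleton] at h
  rcases h with h | h | h | h | h | h <;> subst h <;> norm_num

/-- edges of a walk near `p` -/
def EN (N : ℕ) (p : ℤ × ℤ) (C : Set (Sym2 (VN N))) : Prop :=
  ∀ e ∈ C, ∃ a b : ℤ × ℤ, b - a ∈ stp ∧ e = s(red N a, red N b) ∧ Nr p a ∧ Nr p b

theorem one {N : ℕ} (hN : 3 ≤ N) (G : S_Grid) (p q : ℤ × ℤ) (h : q - p ∈ stp) (o : ℤ × ℤ)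
    (h1 : Nr o p) (h2 : Nr o q) :
    ∃ w : (GN N).Walk (red N p) (red N q), EN N o (eds w) ∧ cls (kN N) w = cel N q - cel N p := by
  obtain ⟨g1, g2⟩ := (G N hN).2.1 p q h
  refine ⟨Walk.cons g1 Walk.nil, ?_, ?_⟩
  · intro e he
    rw [mem_eds_cons] at he
    rcases he with he | he
    · exact ⟨p, q, h, he, h1, h2⟩
    · rw [eds_nil] at he
      exact he.elim
  · rw [cls_cons, cls_nil, g2, add_zero]

theorem two {N : ℕ} (hN : 3 ≤ N) (G : S_Grid) (p m q : ℤ × ℤ) (h : m - p ∈ stp) (h' : q - m ∈ stp)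
    (hq : Nr p q) :
    ∃ w : (GN N).Walk (red N p) (red N q), EN N p (eds w) ∧ cls (kN N) w = cel N q - cel N p := by
  obtain ⟨w1, a1, b1⟩ := one hN G p m h p (nr_refl p) (nr_stp p m h)
  obtain ⟨w2, a2, b2⟩ := one hN G m q h' p (nr_stp p m h) hq
  refine ⟨w1.append w2, ?_, ?_⟩
  · intro e he
    rw [eds_append] at he
    rcases he with he | he
    · exact a1 e he
    · exact a2 e he
  · rw [cls_append, b1, b2]
    abel

theorem step {N : ℕ} (hN : 3 ≤ N) (G : S_Grid) (p q : ℤ × ℤ) (h : Nr p q) :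
    ∃ w : (GN N).Walk (red N p) (red N q), EN N p (eds w) ∧ cls (kN N) w = cel N q - cel N p := by
  have hc : q - p = (0, 0) ∨ q - p ∈ stp ∨ q - p = (1, -1) ∨ q - p = (-1, 1) := by
    obtain ⟨h1, h2⟩ := h
    have e1 : q.1 - p.1 = (q - p).1 := rfl
    have e2 : q.2 - p.2 = (q - p).2 := rfl
    rw [e1] at h1
    rw [e2] at h2
    generalize q - p = r at h1 h2 ⊢
    obtain ⟨x, y⟩ := r
    simp only [abs_le] at h1 h2
    have hx : x = -1 ∨ x = 0 ∨ x = 1 := by omega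
    have hy : y = -1 ∨ y = 0 ∨ y = 1 := by omega
    rcases hx with rfl | rfl | rfl <;> rcases hy with rfl | rfl | rfl <;> simp [stp]
  rcases hc with hc | hc | hc | hc
  · have hpq : q = p := by
      have : q - p = 0 := hc
      exact sub_eq_zero.1 this
    subst hpq
    refine ⟨Walk.nil, ?_, ?_⟩
    · intro e he
      rw [eds_nil] at he
      exact he.elim
    · rw [cls_nil, sub_self]
  · exact one hN G p q hc p (nr_refl p) h
  · refine two hN G p (p + (1, 0)) q ?_ ?_ h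
    · rw [add_sub_cancel_left]
      simp [stp]
    · have : q - (p + (1, 0)) = (0, -1) := by
        rw [← sub_sub, hc]
        rfl
      rw [this]
      simp [stp]
  · refine two hN G p (p + (-1, 0)) q ?_ ?_ h
    · rw [add_sub_cancel_left]
      simp [stp]
    · have : q - (p + (-1, 0)) = (0, 1) := by
        rw [← sub_sub, hc]
        rfl
      rw [this]
      simp [stp]

theorem dist_le {x y : P} {r : ℝ} (h1 : |x.1 - y.1| ≤ r) (h2 : |x.2 - y.2| ≤ r) : dist x y ≤ r := by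
  rw [Prod.dist_eq, Real.dist_eq, Real.dist_eq]
  exact max_le h1 h2

theorem gp_nr {N : ℕ} (hN : 3 ≤ N) {p q : ℤ × ℤ} (h : Nr p q) :
    dist (gp N q) (gp N p) ≤ 1 / (N : ℝ) := by
  have hN0 : (0 : ℝ) < N := by
    have : 0 < N := by omega
    exact_mod_cast this
  have key : ∀ a b : ℤ, |b - a| ≤ 1 → |(b : ℝ) / N - (a : ℝ) / N| ≤ 1 / (N : ℝ) := by
    intro a b hab
    rw [← sub_div, abs_div, abs_of_pos hN0]
    refine div_le_div_of_nonneg_right ?_ hN0.le
    exact_mod_cast hab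
  exact dist_le (key _ _ h.1) (key _ _ h.2)

theorem rd_near {N : ℕ} (hN : 3 ≤ N) (z : P) : dist (gp N (rd N z)) z ≤ 1 / (N : ℝ) := by
  have hN0 : (0 : ℝ) < N := by
    have : 0 < N := by omega
    exact_mod_cast this
  have key : ∀ a : ℝ, |((⌊(N : ℝ) * a⌋ : ℤ) : ℝ) / N - a| ≤ 1 / (N : ℝ) := by
    intro a
    have e : ((⌊(N : ℝ) * a⌋ : ℤ) : ℝ) / N - a = (((⌊(N : ℝ) * a⌋ : ℤ) : ℝ) - N * a) / N := by
      field_simp
    rw [e, abs_div, abs_of_pos hN0]
    refine div_le_div_of_nonneg_right ?_ hN0.le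
    have h1 := Int.floor_le ((N : ℝ) * a)
    have h2 := Int.lt_floor_add_one ((N : ℝ) * a)
    rw [abs_le]
    constructor <;> linarith
  exact dist_le (key _) (key _)

theorem rd_step {N : ℕ} (hN : 3 ≤ N) {z z' : P} (h : dist z z' ≤ 1 / (N : ℝ)) :
    Nr (rd N z) (rd N z') := by
  have hN0 : (0 : ℝ) < N := by
    have : 0 < N := by omega
    exact_mod_cast this
  have key : ∀ a b : ℝ, |a - b| ≤ 1 / (N : ℝ) →
      |⌊(N : ℝ) * b⌋ - ⌊(N : ℝ) * a⌋| ≤ 1 := by
    intro a b hab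
    have h1 : |(N : ℝ) * a - N * b| ≤ 1 := by
      rw [← mul_sub, abs_mul, abs_of_pos hN0]
      calc (N : ℝ) * |a - b| ≤ N * (1 / (N : ℝ)) := mul_le_mul_of_nonneg_left hab hN0.le
        _ = 1 := by field_simp
    rw [abs_le] at h1 ⊢
    have h2 : ⌊(N : ℝ) * b⌋ ≤ ⌊(N : ℝ) * a + 1⌋ := Int.floor_le_floor (by linarith)
    have h3 : ⌊(N : ℝ) * a⌋ ≤ ⌊(N : ℝ) * b + 1⌋ := Int.floor_le_floor (by linarith)
    rw [Int.floor_add_one] at h2 h3
    constructor <;> linarith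
  rw [Prod.dist_eq, Real.dist_eq, Real.dist_eq, max_le_iff] at h
  exact ⟨key _ _ h.1, key _ _ h.2⟩

theorem dist_pr (z z' : P) : dist (pr z) (pr z') ≤ dist z z' := by
  have key : ∀ a b : ℝ, dist (a : Ci) (b : Ci) ≤ |a - b| := by
    intro a b
    rw [dist_eq_norm, ← AddCircle.coe_sub]
    have h : ‖((a - b : ℝ) : UnitAddCircle)‖ = |(a - b) - round (a - b)| := UnitAddCircle.norm_eq
    have h2 := round_le (a - b) 0
    rw [Int.cast_zero, sub_zero] at h2
    exact h.le.trans h2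
  rw [Prod.dist_eq, Prod.dist_eq, Real.dist_eq, Real.dist_eq]
  exact max_le_max (key _ _) (key _ _)

theorem geo_near {N : ℕ} (hN : 3 ≤ N) (G : S_GeoE) (z : P) (W : Set T)
    (hW : ∀ x : P, dist x z ≤ 2 / (N : ℝ) → pr x ∈ W) (C : Set (Sym2 (VN N)))
    (h : EN N (rd N z) C) : geo N C ⊆ W := by
  rintro t ⟨p, q, h1, h2, w, hw, rfl⟩
  obtain ⟨a, b, ha, hb, hc, hd⟩ := h _ h2
  have h3 : pr w ∈ geo N {s(red N a, red N b)} := by
    rw [← hb]
    exact ⟨p, q, h1, rfl, w, hw, rfl⟩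
  rw [G N hN a b ha] at h3
  obtain ⟨x, hx, hxw⟩ := h3
  rw [← hxw]
  refine hW x ?_
  have h4 : segment ℝ (gp N a) (gp N b) ⊆ Metric.closedBall (gp N (rd N z)) (1 / (N : ℝ)) :=
    (convex_closedBall _ _).segment_subset (Metric.mem_closedBall.2 (gp_nr hN hc))
      (Metric.mem_closedBall.2 (gp_nr hN hd))
  have h5 := Metric.mem_closedBall.1 (h4 hx)
  have h6 := rd_near hN z
  have h7 := dist_triangle x (gp N (rd N z)) z
  have h8 : (2 : ℝ) / N = 1 / N + 1 / N := by ring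
  rw [h8]
  linarith

theorem chain {N : ℕ} (hN : 3 ≤ N) (G : S_Grid) (E : S_GeoE) (c : ℕ → P) (n : ℕ) (W : Set T)
    (hW : ∀ i < n, ∀ x : P, dist x (c i) ≤ 2 / (N : ℝ) → pr x ∈ W)
    (hc : ∀ i < n, dist (c i) (c (i + 1)) ≤ 1 / (N : ℝ)) :
    ∀ i ≤ n, ∃ w : (GN N).Walk (red N (rd N (c 0))) (red N (rd N (c i))),
      geo N (eds w) ⊆ W ∧ cls (kN N) w = cel N (rd N (c i)) - cel N (rd N (c 0)) := by
  intro i
  induction i with
  | zero =>
    intro _
    refine ⟨Walk.nil, ?_, ?_⟩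
    · rintro t ⟨p, q, h1, h2, w, hw, rfl⟩
      rw [eds_nil] at h2
      exact h2.elim
    · rw [cls_nil, sub_self]
  | succ i ih =>
    intro hi
    obtain ⟨w, w1, w2⟩ := ih (by omega)
    obtain ⟨v, v1, v2⟩ := step hN G (rd N (c i)) (rd N (c (i + 1))) (rd_step hN (hc i (by omega)))
    have v3 := geo_near hN E (c i) W (hW i (by omega)) _ v1
    refine ⟨w.append v, ?_, ?_⟩
    · rintro t ⟨p, q, h1, h2, x, hx, rfl⟩
      rw [eds_append] at h2
      rcases h2 with h2 | h2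
      · exact w1 ⟨p, q, h1, h2, x, hx, rfl⟩
      · exact v3 ⟨p, q, h1, h2, x, hx, rfl⟩
    · rw [cls_append, w2, v2]
      abel

end PixAux

open PixAux in
theorem tPix (hGrid : S_Grid) (hGeoE : S_GeoE) : S_Pix := by
  intro γ hγ W hWo hγW
  have hprc : Continuous pr := by
    unfold pr
    exact ((AddCircle.continuous_mk' (1 : ℝ)).comp continuous_fst).prodMk
      ((AddCircle.continuous_mk' (1 : ℝ)).comp continuous_snd)
  have hK : IsCompact ((fun t => pr (γ t)) '' Set.Icc (0 : ℝ) 1) :=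
    isCompact_Icc.image (hprc.comp hγ)
  have hKW : ((fun t => pr (γ t)) '' Set.Icc (0 : ℝ) 1) ⊆ W := by
    rintro _ ⟨t, ht, rfl⟩
    exact hγW t ht
  obtain ⟨ρ, hρ, hsub⟩ := hK.exists_thickening_subset_open hWo hKW
  obtain ⟨k, hk⟩ := exists_nat_gt (2 / ρ)
  refine ⟨max 3 k, fun N hNN => ?_⟩
  have hN : 3 ≤ N := le_trans (le_max_left _ _) hNN
  have hkN : k ≤ N := le_trans (le_max_right _ _) hNN
  have hN0 : (0 : ℝ) < N := by
    have : 0 < N := by omega
    exact_mod_cast this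
  have hNρ : 2 / (N : ℝ) < ρ := by
    have h1 : 2 / ρ < (N : ℝ) := lt_of_lt_of_le hk (by exact_mod_cast hkN)
    rw [div_lt_iff₀ hρ] at h1
    rw [div_lt_iff₀ hN0]
    linarith
  have huc : UniformContinuousOn γ (Set.Icc (0 : ℝ) 1) :=
    isCompact_Icc.uniformContinuousOn_of_continuous hγ.continuousOn
  rw [Metric.uniformContinuousOn_iff] at huc
  obtain ⟨δ, hδ, hd⟩ := huc (1 / (N : ℝ)) (by positivity)
  obtain ⟨m, hm⟩ := exists_nat_gt (1 / δ)
  set n : ℕ := m + 1 with hn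
  have hn0 : (0 : ℝ) < n := by
    have : 0 < n := by omega
    exact_mod_cast this
  have hnδ : 1 / (n : ℝ) < δ := by
    have h1 : 1 / δ < (n : ℝ) := by
      rw [hn]
      push_cast
      linarith
    rw [div_lt_iff₀ hδ] at h1
    rw [div_lt_iff₀ hn0]
    linarith
  have hI : ∀ i ≤ n, ((i : ℝ) / n) ∈ Set.Icc (0 : ℝ) 1 := by
    intro i hi
    refine ⟨by positivity, ?_⟩
    rw [div_le_one hn0]
    exact_mod_cast hi
  have hch := chain hN hGrid hGeoE (fun i => γ ((i : ℝ) / n)) n W ?_ ?_ n le_rfl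
  · have e0 : γ (((0 : ℕ) : ℝ) / n) = γ 0 := by simp
    have e1 : γ ((n : ℝ) / n) = γ 1 := by
      rw [div_self hn0.ne']
    rw [← e0, ← e1]
    exact hch
  · intro i hi x hx
    refine hsub ?_
    rw [Metric.mem_thickening_iff]
    refine ⟨pr (γ ((i : ℝ) / n)), ⟨(i : ℝ) / n, hI i hi.le, rfl⟩, ?_⟩
    exact lt_of_le_of_lt (dist_pr _ _) (lt_of_le_of_lt hx hNρ)
  · intro i hi
    refine (hd _ (hI i hi.le) _ ?_ ?_).le
    · exact hI (i + 1) hi
    · rw [Real.dist_eq]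
      push_cast
      have : (i : ℝ) / n - ((i : ℝ) + 1) / n = -(1 / n) := by ring
      rw [this, abs_neg, abs_of_pos (by positivity)]
      exact hnδ

end Pool.Agent.MPe54d61.TC
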