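import Pool.Agent.Lib.MP_e54d61_gt.TC.SpecP

/-!
# MP_e54d61_gt, torus case, module PixC: essential cycles of the grid near a closed curve
-/

set_option autoImplicit false

namespace Pool.Agent.MPe54d61.TC

open SimpleGraph

private theorem PixC_rd (N : ℕ) (z : P) (v : ℤ × ℤ) :
    rd N (z + iv v) = ((rd N z).1 + v.1 * (N : ℤ), (rd N z).2 + v.2 * (N : ℤ)) := by
  have key : ∀ (x : ℝ) (a : ℤ), ⌊(N : ℝ) * (x + (a : ℝ))⌋ = ⌊(N : ℝ) * x⌋ + a * (N : ℤ) := by
    intro x a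
    have : (N : ℝ) * (x + (a : ℝ)) = (N : ℝ) * x + ((a * (N : ℤ) : ℤ) : ℝ) := by
      push_cast
      ring
    rw [this, Int.floor_add_intCast]
  simp only [rd, iv, Prod.fst_add, Prod.snd_add, key]

theorem tPixC (hPix : S_Pix) (hShort : S_Short) : S_PixC := by
  intro γ v hv hγ h1 W hW hW1
  obtain ⟨N0, h⟩ := hPix γ hγ W hW hW1
  refine ⟨max N0 1, fun N hN => ?_⟩
  obtain ⟨w, hw, hc⟩ := h N (le_trans (le_max_left _ _) hN)
  have hN1 : 1 ≤ N := le_trans (le_max_right _ _) hN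
  have hN0 : (N : ℤ) ≠ 0 := by
    have : N ≠ 0 := by omega
    exact_mod_cast this
  have hrd : rd N (γ 1) = ((rd N (γ 0)).1 + v.1 * (N : ℤ), (rd N (γ 0)).2 + v.2 * (N : ℤ)) := by
    rw [h1, PixC_rd]
  have hred : red N (rd N (γ 1)) = red N (rd N (γ 0)) := by
    rw [hrd]
    ext <;> simp [red, zc]
  have hcls : cls (kN N) w = v := by
    rw [hc, hrd]
    ext
    · simp [cel, Int.add_mul_ediv_right _ _ hN0]
    · simp [cel, Int.add_mul_ediv_right _ _ hN0]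
  obtain ⟨C, hC, hCw⟩ := hShort (VN N) (ℤ × ℤ) inferInstance (GN N) (kN N) _ (w.copy rfl hred)
    (by rw [cls_copy, hcls]; exact hv)
  refine ⟨C, hC, ?_⟩
  have hCw' : C ⊆ eds w := by
    intro e he
    have := hCw he
    simpa [eds] using this
  rintro z ⟨p, q, hs, hpq, u, hu, rfl⟩
  exact hw ⟨p, q, hs, hCw' hpq, u, hu, rfl⟩

end Pool.Agent.MPe54d61.TC
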