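import Pool.Agent.Lib.MP_e54d61_gt.TC.SpecP

set_option autoImplicit false

namespace Pool.Agent.MPe54d61.TC

open SimpleGraph MatrixGroups

private theorem e2_ne_zero (A : SL(2, ℤ)) : e2 A ≠ 0 := by
  intro h
  have h1 : A 0 1 = 0 := congrArg Prod.fst h
  have h2 : A 1 1 = 0 := congrArg Prod.snd h
  have h3 := det_SL A
  rw [h1, h2] at h3
  simp at h3

theorem tPixX (hLiftP : S_LiftP) (hPixC : S_PixC) : S_PixX := by
  intro x a W hW hx
  obtain ⟨F, hF1, hF2⟩ := hLiftP x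
  have hpt : ((a, 1) : P) = (a, 0) + iv (0, 1) := by
    ext <;> simp [iv]
  have hm : matP x.2 (iv (0, 1)) = iv (e2 x.2) := by
    ext <;> simp [matP, iv, e2]
  refine hPixC (fun t => F (a, t)) (e2 x.2) (e2_ne_zero x.2) ?_ ?_ W hW ?_
  · exact F.continuous.comp (by fun_prop)
  · show F (a, 1) = F (a, 0) + iv (e2 x.2)
    rw [hpt, hF2, hm]
  · intro t _
    show pr (F (a, t)) ∈ W
    rw [hF1]
    exact hx t

end Pool.Agent.MPe54d61.TC
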