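import Pool.Agent.Lib.MP_e54d61_gt.TC.SpecS

/-!
# MP_e54d61_gt, torus case: functions of two integer variables with given differences
-/

set_option autoImplicit false

namespace Pool.Agent.MPe54d61.TC

/-- one variable -/
private theorem poin_one (f : ℤ → ℤ) : ∃ F : ℤ → ℤ, F 0 = 0 ∧ ∀ n, F n - F (n - 1) = f n := by
  refine ⟨fun n => ∑ i ∈ Finset.Ioc 0 n, f i - ∑ i ∈ Finset.Ioc n 0, f i, by simp, fun n => ?_⟩
  rcases le_or_gt 1 n with h | h
  · have e1 : Finset.Ioc (0 : ℤ) n = insert n (Finset.Ioc 0 (n - 1)) := by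
      ext i; simp only [Finset.mem_Ioc, Finset.mem_insert]; omega
    have e2 : Finset.Ioc n (0 : ℤ) = ∅ := Finset.Ioc_eq_empty (by omega)
    have e3 : Finset.Ioc (n - 1) (0 : ℤ) = ∅ := Finset.Ioc_eq_empty (by omega)
    have e4 : n ∉ Finset.Ioc (0 : ℤ) (n - 1) := by
      simp only [Finset.mem_Ioc]; omega
    simp only [e1, e2, e3, Finset.sum_insert e4, Finset.sum_empty]
    ring
  · have e1 : Finset.Ioc (n - 1) (0 : ℤ) = insert n (Finset.Ioc n 0) := by
      ext i; simp only [Finset.mem_Ioc, Finset.mem_insert]; omega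
    have e2 : Finset.Ioc (0 : ℤ) n = ∅ := Finset.Ioc_eq_empty (by omega)
    have e3 : Finset.Ioc (0 : ℤ) (n - 1) = ∅ := Finset.Ioc_eq_empty (by omega)
    have e4 : n ∉ Finset.Ioc n (0 : ℤ) := by
      simp only [Finset.mem_Ioc]; omega
    simp only [e1, e2, e3, Finset.sum_insert e4, Finset.sum_empty]
    ring

/-- the difference to the left is zero, so the function is constant -/
private theorem poin_zero (D : ℤ → ℤ) (h0 : D 0 = 0) (h : ∀ n, D n - D (n - 1) = 0) : ∀ n, D n = 0 := by
  intro n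
  induction n using Int.induction_on with
  | zero => exact h0
  | succ i ih =>
    have h1 := h ((i : ℤ) + 1)
    rw [show (i : ℤ) + 1 - 1 = i by ring] at h1
    omega
  | pred i ih =>
    have h1 := h (-(i : ℤ))
    omega

theorem tPoin : S_Poin := by
  intro g h hgh
  choose G hG0 hG using fun y : ℤ => poin_one (fun i => g (i, y))
  obtain ⟨H, hH0, hH⟩ := poin_one (fun j => h (0, j))
  have s0 : ∀ x : ℤ × ℤ, x - ei 0 = (x.1 - 1, x.2) := by
    rintro ⟨a, b⟩
    simp [ei]
  have s1 : ∀ x : ℤ × ℤ, x - ei 1 = (x.1, x.2 - 1) := by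
    rintro ⟨a, b⟩
    simp [ei]
  refine ⟨fun x => H x.2 + G x.2 x.1, ?_⟩
  rintro ⟨x, y⟩
  rw [s0, s1]
  constructor
  · have := hG y x
    simp only
    omega
  · have key : ∀ n : ℤ, H y + G y n - (H (y - 1) + G (y - 1) n) - h (n, y) = 0 := by
      refine poin_zero (fun n => H y + G y n - (H (y - 1) + G (y - 1) n) - h (n, y)) ?_ ?_
      · have h1 := hH y
        have h2 := hG0 y
        have h3 := hG0 (y - 1)
        omega
      · intro n
        have h1 := hgh (n, y)
        rw [s0, s1] at h1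
        have h2 := hG y n
        have h3 := hG (y - 1) n
        simp only at h1 h2 h3 ⊢
        omega
    have := key x
    simp only
    omega

end Pool.Agent.MPe54d61.TC
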