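import Pool.Agent.Lib.MP_e54d61_gt.TC.SpecH

/-!
# MP_e54d61_gt, torus case, module Poisson: the Poisson equation on the triangulated torus
-/

set_option autoImplicit false

namespace Pool.Agent.MPe54d61.TC

open Topology MatrixGroups

namespace PoissonAux

/-- the Laplacian -/
noncomputable def lap {N : ℕ} (w : Fin 3 → VN N → ℝ) : (VN N → ℝ) →ₗ[ℝ] (VN N → ℝ) where
  toFun u := fun p => dv w (DD u) p
  map_add' u v := by
    funext p
    simp only [dv, DD, Pi.add_apply, smul_eq_mul]
    rw [← Finset.sum_add_distrib]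
    exact Finset.sum_congr rfl fun k _ => by ring
  map_smul' c u := by
    funext p
    simp only [dv, DD, Pi.smul_apply, smul_eq_mul, RingHom.id_apply, Finset.mul_sum]
    exact Finset.sum_congr rfl fun k _ => by ring

theorem lap_apply {N : ℕ} (w : Fin 3 → VN N → ℝ) (u : VN N → ℝ) (p : VN N) :
    lap w u p = dv w (DD u) p := rfl

/-- functions invariant under the two generators are constant -/
theorem const_of_inv {N : ℕ} (hN : NeZero N) (u : VN N → ℝ) (h0 : ∀ p, u (p + ed N 0) = u p)
    (h1 : ∀ p, u (p + ed N 1) = u p) (p : VN N) : u p = u 0 := by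
  have e0 : ed N 0 = ((1 : ZMod N), (0 : ZMod N)) := by
    simp [ed, zc, ei]
  have e1 : ed N 1 = ((0 : ZMod N), (1 : ZMod N)) := by
    simp [ed, zc, ei]
  have a0 : ∀ (n : ℕ) (q : VN N), u (q + ((n : ZMod N), (0 : ZMod N))) = u q := by
    intro n
    induction n with
    | zero =>
      intro q
      have : ((((0 : ℕ) : ZMod N)), (0 : ZMod N)) = (0 : VN N) := by simp
      rw [this, add_zero]
    | succ n ih =>
      intro q
      have : ((((n + 1 : ℕ) : ZMod N)), (0 : ZMod N)) = (((n : ZMod N), (0 : ZMod N)) : VN N) + ed N 0 := by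
        rw [e0]
        ext <;> simp
      rw [this, ← add_assoc, h0, ih]
  have a1 : ∀ (n : ℕ) (q : VN N), u (q + ((0 : ZMod N), (n : ZMod N))) = u q := by
    intro n
    induction n with
    | zero =>
      intro q
      have : ((0 : ZMod N), ((0 : ℕ) : ZMod N)) = (0 : VN N) := by simp
      rw [this, add_zero]
    | succ n ih =>
      intro q
      have : ((0 : ZMod N), ((n + 1 : ℕ) : ZMod N)) = (((0 : ZMod N), (n : ZMod N)) : VN N) + ed N 1 := by
        rw [e1]
        ext <;> simp
      rw [this, ← add_assoc, h1, ih]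
  have hp : p = 0 + (((p.1.val : ℕ) : ZMod N), (0 : ZMod N)) + ((0 : ZMod N), ((p.2.val : ℕ) : ZMod N)) := by
    ext <;> simp
  rw [hp, a1, a0]

/-- the kernel of the Laplacian -/
theorem ker_le {N : ℕ} (hGreen : S_Green) (hN : NeZero N) (w : Fin 3 → VN N → ℝ)
    (hw : ∀ k p, 0 < w k p) :
    LinearMap.ker (lap w) ≤ Submodule.span ℝ {(fun _ => (1 : ℝ) : VN N → ℝ)} := by
  intro u hu
  rw [LinearMap.mem_ker] at hu
  have h1 := hGreen N hN w (DD u) u
  have h2 : ∑ p, u p * dv w (DD u) p = 0 := by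
    refine Finset.sum_eq_zero fun p _ => ?_
    have h3 := congrFun hu p
    rw [lap_apply] at h3
    rw [h3]
    simp
  rw [h2] at h1
  have h3 : ∑ k, ∑ p, w k p * (DD u k p * DD u k p) = 0 := by linarith
  have h4 : ∀ k p, DD u k p = 0 := by
    intro k p
    have h5 : ∀ k' ∈ (Finset.univ : Finset (Fin 3)), 0 ≤ ∑ p, w k' p * (DD u k' p * DD u k' p) :=
      fun k' _ => Finset.sum_nonneg fun p _ => mul_nonneg (hw k' p).le (mul_self_nonneg _)
    have h6 := (Finset.sum_eq_zero_iff_of_nonneg h5).mp h3 k (Finset.mem_univ k)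
    have h7 : ∀ p' ∈ (Finset.univ : Finset (VN N)), 0 ≤ w k p' * (DD u k p' * DD u k p') :=
      fun p' _ => mul_nonneg (hw k p').le (mul_self_nonneg _)
    have h8 := (Finset.sum_eq_zero_iff_of_nonneg h7).mp h6 p (Finset.mem_univ p)
    rcases mul_eq_zero.mp h8 with h9 | h9
    · exact absurd h9 (hw k p).ne'
    · exact mul_self_eq_zero.mp h9
  have h5 := const_of_inv hN u (fun p => sub_eq_zero.mp (h4 0 p)) (fun p => sub_eq_zero.mp (h4 1 p))
  refine Submodule.mem_span_singleton.mpr ⟨u 0, ?_⟩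
  funext p
  rw [h5 p]
  simp

/-- the sum of the values -/
noncomputable def sm (N : ℕ) [NeZero N] : (VN N → ℝ) →ₗ[ℝ] ℝ where
  toFun g := ∑ p, g p
  map_add' g h := by simp [Finset.sum_add_distrib]
  map_smul' c g := by simp [Finset.mul_sum]

end PoissonAux

/-- **Poisson equation.** -/
theorem tPoisson (hGreen : S_Green) : S_Poisson := by
  intro N hN w hw g hg
  have h1 : LinearMap.range (PoissonAux.lap w) ≤ LinearMap.ker (PoissonAux.sm N) := by
    rintro _ ⟨u, rfl⟩
    rw [LinearMap.mem_ker]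
    have h2 := hGreen N hN w (DD u) (fun _ => 1)
    have h3 : ∑ k : Fin 3, ∑ p : VN N, w k p * (DD (fun _ => (1 : ℝ)) k p * DD u k p) = 0 := by
      refine Finset.sum_eq_zero fun k _ => Finset.sum_eq_zero fun p _ => ?_
      simp [DD]
    rw [h3, neg_zero] at h2
    simpa [PoissonAux.sm, PoissonAux.lap] using h2
  have h2 : Module.finrank ℝ (LinearMap.ker (PoissonAux.lap w)) ≤ 1 := by
    refine (Submodule.finrank_mono (PoissonAux.ker_le hGreen hN w hw)).trans ?_
    refine (finrank_span_le_card (R := ℝ) ({(fun _ => (1 : ℝ) : VN N → ℝ)} : Set (VN N → ℝ))).trans ?_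
    simp
  have h3 := LinearMap.finrank_range_add_finrank_ker (PoissonAux.lap w)
  have h4 := LinearMap.finrank_range_add_finrank_ker (PoissonAux.sm N)
  have h5 : Module.finrank ℝ (LinearMap.range (PoissonAux.sm N)) = 1 := by
    have h6 : LinearMap.range (PoissonAux.sm N) = ⊤ := by
      rw [LinearMap.range_eq_top]
      intro r
      refine ⟨Pi.single 0 r, ?_⟩
      simp [PoissonAux.sm]
    rw [h6, finrank_top]
    simp
  have h6 : LinearMap.range (PoissonAux.lap w) = LinearMap.ker (PoissonAux.sm N) :=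
    Submodule.eq_of_le_of_finrank_le h1 (by omega)
  have h7 : g ∈ LinearMap.ker (PoissonAux.sm N) := by
    rw [LinearMap.mem_ker]
    exact hg
  rw [← h6] at h7
  obtain ⟨u, hu⟩ := h7
  exact ⟨u, fun p => by rw [← hu]; rfl⟩

end Pool.Agent.MPe54d61.TC
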