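import Pool.Agent.Lib.MP_e54d61_gt.TC.SpecB

/-!
# MP_e54d61_gt, torus case: potentials of paths (`S_Pot`)
-/

set_option autoImplicit false

namespace Pool.Agent.MPe54d61.TC

open SimpleGraph

theorem tPot : S_Pot := by
  classical
  intro V M _ Γ κ hκ x y p hp
  induction p with
  | nil =>
    refine ⟨fun _ => 0, fun u v h => ?_⟩
    rw [eds_nil] at h
    exact absurd h (Set.notMem_empty _)
  | @cons a b c hab p ih =>
    rw [Walk.cons_isPath_iff] at hp
    obtain ⟨φ, hφ⟩ := ih hp.1
    have hba : b ≠ a := hab.ne'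
    refine ⟨fun z => if z = a then φ b - κ a b else φ z, fun u v h => ?_⟩
    rw [mem_eds_cons] at h
    rcases h with h | h
    · rw [Sym2.eq_iff] at h
      rcases h with ⟨rfl, rfl⟩ | ⟨rfl, rfl⟩
      · simp [hba]
      · simp [hba, hκ v u]
    · have hu : u ≠ a := fun h' => hp.2 (h' ▸ Walk.fst_mem_support_of_mem_edges p h)
      have hv : v ≠ a := fun h' => hp.2 (h' ▸ Walk.snd_mem_support_of_mem_edges p h)
      simp only [hu, hv, if_false]
      exact hφ u v h

end Pool.Agent.MPe54d61.TC
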