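import Pool.Agent.Lib.MP_e54d61_gt.TC.SpecP

/-!
# MP_e54d61_gt, torus case: module PotB (potential on a horizontal annulus)
-/

set_option autoImplicit false

namespace Pool.Agent.MPe54d61.TC

/-- potential on a horizontal annulus, up to multiples of the first column -/
theorem tPotB (h1 : S_Lft) : S_PotB := by
  intro x b N hN
  obtain ⟨φ, hφ⟩ := h1 x {z : P | |z.2 - b| < 1 / 2} (AddMonoidHom.snd ℤ ℤ).ker
    (isOpen_lt (by fun_prop) (by fun_prop))
    (by
      intro v hv z hz
      have hv' : v.2 = 0 := hv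
      have hz' : |z.2 - b| < 1 / 2 := hz
      show |(z + iv v).2 - b| < 1 / 2
      have : (z + iv v).2 = z.2 := by
        simp [iv, hv']
      rw [this]
      exact hz')
    (by
      intro v z hz hzv
      have hz' : |z.2 - b| < 1 / 2 := hz
      have hzv' : |(z + iv v).2 - b| < 1 / 2 := hzv
      have e : (z + iv v).2 = z.2 + (v.2 : ℝ) := by
        simp [iv]
      rw [e] at hzv'
      show v.2 = 0
      rw [abs_lt] at hz' hzv'
      have g1 : ((v.2 : ℤ) : ℝ) < ((1 : ℤ) : ℝ) := by push_cast; linarith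
      have g2 : (((-1 : ℤ)) : ℝ) < ((v.2 : ℤ) : ℝ) := by push_cast; linarith
      have g3 := Int.cast_lt.mp g1
      have g4 := Int.cast_lt.mp g2
      omega)
    N hN
  refine ⟨φ, fun u v huv hg => ?_⟩
  obtain ⟨l, hl, he⟩ := hφ u v huv (hg.trans (by
    refine Set.image_mono ?_
    rintro z ⟨s, t, ht, rfl⟩
    exact ⟨(s, t), ht, rfl⟩))
  have hl' : l.2 = 0 := hl
  rw [he, hl', zero_smul, add_zero]
  exact AddSubgroup.mem_zmultiples_iff.mpr ⟨l.1, rfl⟩

end Pool.Agent.MPe54d61.TC
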