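import Pool.Agent.Lib.MP_e54d61_gt.TC.SpecB

/-!
# MP_e54d61_gt, torus case: classes of walks in a set of edges with a potential (helper26)
-/

set_option autoImplicit false

namespace Pool.Agent.MPe54d61.TC

open SimpleGraph

theorem tPotCls : S_PotCls := by
  intro V M _ Γ κ E φ h u v w
  induction w with
  | nil =>
    intro _
    rw [cls_nil, sub_self]
  | @cons a b c hab p ih =>
    intro hE
    rw [cls_cons, h a b (hE ((mem_eds_cons hab p _).2 (Or.inl rfl))),
      ih (fun e he => hE ((mem_eds_cons hab p e).2 (Or.inr he)))]
    abel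

end Pool.Agent.MPe54d61.TC
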