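import Pool.Agent.Lib.MP_e54d61_gt.TC.SpecP

/-!
# MP_e54d61_gt, torus case: module PotX (potential on a box)
-/

set_option autoImplicit false

namespace Pool.Agent.MPe54d61.TC

private theorem int0 (m : ℤ) (z b : ℝ) (h : |z - b| < 1 / 2) (h' : |z + (m : ℝ) - b| < 1 / 2) :
    m = 0 := by
  rw [abs_lt] at h h'
  have g1 : (m : ℝ) < ((1 : ℤ) : ℝ) := by push_cast; linarith
  have g2 : (((-1 : ℤ)) : ℝ) < (m : ℝ) := by push_cast; linarith
  have g3 := Int.cast_lt.mp g1
  have g4 := Int.cast_lt.mp g2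
  omega

/-- potential on a box -/
theorem tPotX (h1 : S_Lft) : S_PotX := by
  intro x a b N hN
  obtain ⟨φ, hφ⟩ := h1 x {z : P | |z.1 - a| < 1 / 2 ∧ |z.2 - b| < 1 / 2} ⊥
    (by
      have i1 : IsOpen {z : P | |z.1 - a| < 1 / 2} := isOpen_lt (by fun_prop) (by fun_prop)
      have i2 : IsOpen {z : P | |z.2 - b| < 1 / 2} := isOpen_lt (by fun_prop) (by fun_prop)
      exact i1.inter i2)
    (by
      intro v hv z hz
      have hv' : v = 0 := hv
      subst hv'
      have : z + iv 0 = z := by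
        ext <;> simp [iv]
      rw [this]
      exact hz)
    (by
      intro v z hz hzv
      obtain ⟨p1, p2⟩ := hz
      obtain ⟨q1, q2⟩ := hzv
      have e1 : (z + iv v).1 = z.1 + (v.1 : ℝ) := by
        simp [iv]
      have e2 : (z + iv v).2 = z.2 + (v.2 : ℝ) := by
        simp [iv]
      rw [e1] at q1
      rw [e2] at q2
      have r1 := int0 v.1 z.1 a p1 q1
      have r2 := int0 v.2 z.2 b p2 q2
      rw [AddSubgroup.mem_bot]
      exact Prod.ext r1 r2)
    N hN
  refine ⟨φ, fun u v huv hg => ?_⟩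
  obtain ⟨l, hl, he⟩ := hφ u v huv (hg.trans (by
    refine Set.image_mono ?_
    rintro z ⟨s, t, hs, ht, rfl⟩
    exact ⟨(s, t), ⟨hs, ht⟩, rfl⟩))
  have hl' : l = 0 := hl
  rw [hl'] at he
  have h0 : kN N u v - (φ v - φ u) = 0 := by
    rw [he]
    simp
  exact sub_eq_zero.mp h0

end Pool.Agent.MPe54d61.TC
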