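import Pool.Agent.Lib.MP_e54d61_gt.TC.SpecP

/-!
# MP_e54d61_gt, torus case: classes of closed walks with a potential modulo a cyclic group (helper90)
-/

set_option autoImplicit false

namespace Pool.Agent.MPe54d61.TC

open SimpleGraph

theorem PotZAux.walk {V M : Type} [AddCommGroup M] {Γ : SimpleGraph V} (κ : V → V → M)
    (φ : V → M) (l : M) {u v : V} (w : Γ.Walk u v) :
    (∀ a b, s(a, b) ∈ eds w → κ a b - (φ b - φ a) ∈ AddSubgroup.zmultiples l) →
    cls κ w - (φ v - φ u) ∈ AddSubgroup.zmultiples l := by
  induction w with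
  | nil =>
    intro _
    rw [cls_nil, sub_self, sub_self]
    exact zero_mem _
  | @cons a b c hab p ih =>
    intro hE
    have h1 := hE a b (by simp [eds])
    have h2 := ih fun x y hxy => hE x y (by
      have h3 : s(x, y) ∈ p.edges := hxy
      show s(x, y) ∈ (Walk.cons hab p).edges
      rw [Walk.edges_cons]
      exact List.mem_cons_of_mem _ h3)
    have h4 : cls κ (Walk.cons hab p) - (φ c - φ a) =
        (κ a b - (φ b - φ a)) + (cls κ p - (φ c - φ b)) := by
      rw [cls_cons]
      abel
    rw [h4]
    exact add_mem h1 h2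

theorem tPotZ : S_PotZ := by
  intro V M _ Γ κ φ l u w h
  have h1 := PotZAux.walk κ φ l w h
  rwa [sub_self, sub_zero] at h1

end Pool.Agent.MPe54d61.TC
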