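import Pool.Agent.Lib.MP_e54d61_gt.TC.SpecS

/-!
# MP_e54d61_gt, torus case: primitive classes (`S_Prim`)
-/

set_option autoImplicit false

namespace Pool.Agent.MPe54d61.TC

theorem tPrim : S_Prim := by
  intro κ hκ
  have hg : Int.gcd κ.1 κ.2 ≠ 0 := by
    intro h
    rw [Int.gcd_eq_zero_iff] at h
    exact hκ (Prod.ext h.1 h.2)
  obtain ⟨a, b, hab, h1, h2⟩ := Int.exists_gcd_one (Nat.pos_of_ne_zero hg)
  obtain ⟨p, q, hpq⟩ := Int.isCoprime_iff_gcd_eq_one.2 hab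
  refine ⟨(Int.gcd κ.1 κ.2 : ℤ), ⟨!![q, a; -p, b], ?_⟩, by exact_mod_cast hg, ?_⟩
  · rw [Matrix.det_fin_two_of]
    linarith
  · ext
    · simp only [c2, Prod.smul_fst, smul_eq_mul]
      simp
      rw [mul_comm]
      exact h1
    · simp only [c2, Prod.smul_snd, smul_eq_mul]
      simp
      rw [mul_comm]
      exact h2

end Pool.Agent.MPe54d61.TC
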