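import Pool.Agent.Lib.MP_e54d61_gt.TC.SpecA

set_option autoImplicit false

namespace Pool.Agent.MPe54d61.TC

private noncomputable def Q_f (a b p r x : ℝ) : ℝ :=
  p ^ 2 / (p + max 0 (a - x)) - r ^ 2 / (r + max 0 (x - b)) + max a (min x b) - p + r

private theorem Q_mid {a b p r x : ℝ} (hp : 0 < p) (hr : 0 < r) (h1 : a ≤ x) (h2 : x ≤ b) :
    Q_f a b p r x = x := by
  unfold Q_f
  rw [max_eq_left (by linarith : a - x ≤ 0), max_eq_left (by linarith : x - b ≤ 0),
    min_eq_left h2, max_eq_right h1, add_zero, add_zero]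
  field_simp
  ring

private theorem Q_low {a b p r x : ℝ} (hp : 0 < p) (hr : 0 < r) (hab : a ≤ b) (h1 : x ≤ a) :
    Q_f a b p r x = a - p + p ^ 2 / (p + (a - x)) := by
  unfold Q_f
  rw [max_eq_right (by linarith : 0 ≤ a - x), max_eq_left (by linarith : x - b ≤ 0),
    min_eq_left (by linarith : x ≤ b), max_eq_left h1, add_zero]
  have : r ^ 2 / r = r := by field_simp
  rw [this]
  ring

private theorem Q_high {a b p r x : ℝ} (hp : 0 < p) (hr : 0 < r) (hab : a ≤ b) (h1 : b ≤ x) :
    Q_f a b p r x = b + r - r ^ 2 / (r + (x - b)) := by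
  unfold Q_f
  rw [max_eq_left (by linarith : a - x ≤ 0), max_eq_right (by linarith : 0 ≤ x - b),
    min_eq_right h1, max_eq_right hab, add_zero]
  have : p ^ 2 / p = p := by field_simp
  rw [this]
  ring

private theorem Q_mono {a b p r : ℝ} (hp : 0 < p) (hr : 0 < r) (hab : a ≤ b) :
    StrictMono (Q_f a b p r) := by
  have hmul : ∀ x : ℝ, (0:ℝ) < p + max 0 (a - x) := fun x => by
    have := le_max_left 0 (a - x); linarith
  have hmur : ∀ x : ℝ, (0:ℝ) < r + max 0 (x - b) := fun x => by
    have := le_max_left 0 (x - b); linarith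
  have hp2 : 0 < p ^ 2 := by positivity
  have hr2 : 0 < r ^ 2 := by positivity
  intro x y hxy
  have m1 : max 0 (a - y) ≤ max 0 (a - x) := max_le_max le_rfl (by linarith)
  have m2 : max 0 (x - b) ≤ max 0 (y - b) := max_le_max le_rfl (by linarith)
  have m3 : max a (min x b) ≤ max a (min y b) := max_le_max le_rfl (min_le_min hxy.le le_rfl)
  have d1 : p ^ 2 / (p + max 0 (a - x)) ≤ p ^ 2 / (p + max 0 (a - y)) :=
    div_le_div_of_nonneg_left hp2.le (hmul y) (by linarith)
  have d2 : r ^ 2 / (r + max 0 (y - b)) ≤ r ^ 2 / (r + max 0 (x - b)) :=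
    div_le_div_of_nonneg_left hr2.le (hmur x) (by linarith)
  unfold Q_f
  rcases lt_or_ge x a with hx | hx
  · have s1 : max 0 (a - y) < max 0 (a - x) := by
      rw [max_eq_right (by linarith : 0 ≤ a - x)]
      exact max_lt (by linarith) (by linarith)
    have e1 : p ^ 2 / (p + max 0 (a - x)) < p ^ 2 / (p + max 0 (a - y)) :=
      div_lt_div_of_pos_left hp2 (hmul y) (by linarith)
    linarith
  · rcases lt_or_ge b y with hy | hy
    · have s2 : max 0 (x - b) < max 0 (y - b) := by
        rw [max_eq_right (by linarith : 0 ≤ y - b)]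
        exact max_lt (by linarith) (by linarith)
      have e2 : r ^ 2 / (r + max 0 (y - b)) < r ^ 2 / (r + max 0 (x - b)) :=
        div_lt_div_of_pos_left hr2 (hmur x) (by linarith)
      linarith
    · have s3 : max a (min x b) < max a (min y b) := by
        rw [min_eq_left (by linarith : x ≤ b), min_eq_left hy, max_eq_right hx,
          max_eq_right (by linarith : a ≤ y)]
        exact hxy
      linarith

theorem tQ : S_Q := by
  intro a b c d hca hab hbd
  set p := a - c with hpd
  set r := d - b with hrd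
  have hp : 0 < p := by linarith
  have hr : 0 < r := by linarith
  have hp2 : 0 < p ^ 2 := by positivity
  have hr2 : 0 < r ^ 2 := by positivity
  have hmul : ∀ x : ℝ, (0:ℝ) < p + max 0 (a - x) := fun x => by
    have := le_max_left 0 (a - x); linarith
  have hmur : ∀ x : ℝ, (0:ℝ) < r + max 0 (x - b) := fun x => by
    have := le_max_left 0 (x - b); linarith
  refine ⟨Q_f a b p r, ?_, Q_mono hp hr hab, ?_, ?_, ?_⟩
  · unfold Q_f
    have c1 : Continuous fun x : ℝ => p ^ 2 / (p + max 0 (a - x)) :=
      continuous_const.div (by fun_prop) fun x => (hmul x).ne'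
    have c2 : Continuous fun x : ℝ => r ^ 2 / (r + max 0 (x - b)) :=
      continuous_const.div (by fun_prop) fun x => (hmur x).ne'
    have c3 : Continuous fun x : ℝ => max a (min x b) := by fun_prop
    exact (((c1.sub c2).add c3).sub continuous_const).add continuous_const
  · intro x
    have f1 : 0 < p ^ 2 / (p + max 0 (a - x)) := div_pos hp2 (hmul x)
    have f1' : p ^ 2 / (p + max 0 (a - x)) ≤ p := by
      rw [div_le_iff₀ (hmul x)]
      nlinarith [le_max_left 0 (a - x)]
    have f2 : 0 < r ^ 2 / (r + max 0 (x - b)) := div_pos hr2 (hmur x)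
    have f2' : r ^ 2 / (r + max 0 (x - b)) ≤ r := by
      rw [div_le_iff₀ (hmur x)]
      nlinarith [le_max_left 0 (x - b)]
    have f3 : a ≤ max a (min x b) := le_max_left _ _
    have f3' : max a (min x b) ≤ b := max_le hab (min_le_right _ _)
    unfold Q_f
    constructor <;> linarith
  · intro x h1 h2
    exact Q_mid hp hr h1 h2
  · intro t h1 h2
    rcases lt_or_ge t a with ht | ht
    · have h3 : 0 < t - c := by linarith
      refine ⟨a + p - p ^ 2 / (t - c), ?_⟩
      have h4 : p ≤ p ^ 2 / (t - c) := by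
        rw [le_div_iff₀ h3]
        nlinarith
      rw [Q_low hp hr hab (by linarith)]
      have h5 : p + (a - (a + p - p ^ 2 / (t - c))) = p ^ 2 / (t - c) := by ring
      rw [h5, div_div_cancel₀ hp2.ne']
      linarith
    · rcases le_or_gt t b with ht' | ht'
      · exact ⟨t, Q_mid hp hr ht ht'⟩
      · have h3 : 0 < d - t := by linarith
        refine ⟨b - r + r ^ 2 / (d - t), ?_⟩
        have h4 : r ≤ r ^ 2 / (d - t) := by
          rw [le_div_iff₀ h3]
          nlinarith
        rw [Q_high hp hr hab (by linarith)]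
        have h5 : r + (b - r + r ^ 2 / (d - t) - b) = r ^ 2 / (d - t) := by ring
        rw [h5, div_div_cancel₀ hr2.ne']
        linarith

end Pool.Agent.MPe54d61.TC
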