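import Pool.Agent.Lib.MP_e54d61_gt.TC.SpecE

/-!
# MP_e54d61_gt, torus case, part E: the relation RR is symmetric, chains can be reversed
-/

set_option autoImplicit false

namespace Pool.Agent.MPe54d61.TC

open SimpleGraph Filter Topology

theorem tRRs : S_RRs := by
  intro V M _ Γ κ
  have hsym : ∀ C C' : Set (Sym2 V), RR Γ κ C C' → RR Γ κ C' C := by
    rintro C C' (h | h | h | h)
    · exact Or.inl h.symm
    · exact Or.inr (Or.inl fun v hv hv' => h v hv' hv)
    · obtain ⟨x, y, s, α, β, h1, h2, h3, h4, h5⟩ := h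
      exact Or.inr (Or.inr (Or.inl ⟨x, y, s, β, α, h2, h1, h4, h3,
        fun z hz hz' => h5 z hz' hz⟩))
    · obtain ⟨φ, l, h⟩ := h
      refine Or.inr (Or.inr (Or.inr ⟨φ, l, fun u v huv => h u v ?_⟩))
      rwa [Set.union_comm]
  refine ⟨hsym, ?_⟩
  rintro n C C' ⟨c, h0, hn, hE, hR⟩
  refine ⟨fun i => c (n - i), ?_, ?_, ?_, ?_⟩
  · simpa using hn
  · simpa using h0
  · intro i _
    exact hE (n - i) (Nat.sub_le n i)
  · intro i hi
    have h := hsym _ _ (hR (n - (i + 1)) (by omega))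
    have e : n - (i + 1) + 1 = n - i := by omega
    rw [e] at h
    exact h

end Pool.Agent.MPe54d61.TC
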