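import Pool.Agent.Lib.MP_e54d61_gt.TC.SpecA

/-!
# MP_e54d61_gt, torus case, part A: a radial flow
-/

set_option autoImplicit false

namespace Pool.Agent.MPe54d61.TC

open Topology

/-- the factor of the radial flow -/
private noncomputable def Rad_c (s r : ℝ) : ℝ :=
  8 * Real.exp (-2 * s) / (8 - r + r * Real.exp (-2 * s))

private theorem Rad_den {r E : ℝ} (hr0 : 0 ≤ r) (hr8 : r ≤ 8) (hE : 0 < E) : 0 < 8 - r + r * E := by
  rcases eq_or_lt_of_le hr0 with h | h
  · rw [← h]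
    norm_num
  · have h1 : 0 < r * E := mul_pos h hE
    linarith

private theorem Rad_c_pos {s r : ℝ} (hr0 : 0 ≤ r) (hr8 : r ≤ 8) : 0 < Rad_c s r := by
  unfold Rad_c
  exact div_pos (mul_pos (by norm_num) (Real.exp_pos _)) (Rad_den hr0 hr8 (Real.exp_pos _))

private theorem Rad_c_eight (s : ℝ) : Rad_c s 8 = 1 := by
  unfold Rad_c
  have h := (Real.exp_pos (-2 * s)).ne'
  rw [sub_self, zero_add, div_self]
  exact mul_ne_zero (by norm_num) h

private theorem Rad_c_zero (r : ℝ) : Rad_c 0 r = 1 := by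
  unfold Rad_c
  rw [mul_zero, Real.exp_zero]
  norm_num

/-- the radius of the image -/
private theorem Rad_rad {s r : ℝ} (hr0 : 0 ≤ r) (hr8 : r ≤ 8) :
    0 ≤ Rad_c s r * r ∧ Rad_c s r * r ≤ 8 := by
  have hE := Real.exp_pos (-2 * s)
  have hd := Rad_den hr0 hr8 hE
  refine ⟨mul_nonneg (Rad_c_pos hr0 hr8).le hr0, ?_⟩
  unfold Rad_c
  rw [div_mul_eq_mul_div, div_le_iff₀ hd]
  nlinarith

private theorem Rad_c_add {s t r : ℝ} (hr0 : 0 ≤ r) (hr8 : r ≤ 8) :
    Rad_c s (Rad_c t r * r) * Rad_c t r = Rad_c (s + t) r := by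
  have hE := Real.exp_pos (-2 * t)
  have hE' := Real.exp_pos (-2 * s)
  have hd := Rad_den hr0 hr8 hE
  have hd' := Rad_den (Rad_rad (s := t) hr0 hr8).1 (Rad_rad (s := t) hr0 hr8).2 hE'
  have hd2 := Rad_den hr0 hr8 (mul_pos hE' hE)
  have he : Real.exp (-2 * (s + t)) = Real.exp (-2 * s) * Real.exp (-2 * t) := by
    rw [← Real.exp_add]
    ring_nf
  unfold Rad_c at hd' ⊢
  rw [he]
  set E := Real.exp (-2 * t)
  set E' := Real.exp (-2 * s)
  have hdn := hd.ne'
  have hd2n := hd2.ne'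
  have h1 : 8 - 8 * E / (8 - r + r * E) * r + 8 * E / (8 - r + r * E) * r * E' =
      8 * (8 - r + r * (E' * E)) / (8 - r + r * E) := by
    rw [eq_div_iff hdn]
    have h2 : 8 * E / (8 - r + r * E) * (8 - r + r * E) = 8 * E := div_mul_cancel₀ _ hdn
    calc (8 - 8 * E / (8 - r + r * E) * r + 8 * E / (8 - r + r * E) * r * E') * (8 - r + r * E)
        = 8 * (8 - r + r * E) - (8 * E / (8 - r + r * E) * (8 - r + r * E)) * r +
          (8 * E / (8 - r + r * E) * (8 - r + r * E)) * r * E' := by ring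
      _ = 8 * (8 - r + r * (E' * E)) := by
        rw [h2]
        ring
  rw [h1]
  generalize 8 - r + r * E = A at hdn ⊢
  generalize 8 - r + r * (E' * E) = B at hd2n ⊢
  field_simp

private theorem Rad_cont : Continuous fun p : ℝ × P => Rad_c p.1 (min ‖p.2‖ 8) • p.2 := by
  have h1 : Continuous fun p : ℝ × P => Rad_c p.1 (min ‖p.2‖ 8) := by
    unfold Rad_c
    refine Continuous.div ?_ ?_ ?_
    · fun_prop
    · fun_prop
    · intro p
      exact (Rad_den (le_min (norm_nonneg _) (by norm_num)) (min_le_right _ _) (Real.exp_pos _)).ne'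
  exact h1.smul continuous_snd

private theorem Rad_norm (s : ℝ) (z : P) (hz : ‖z‖ ≤ 8) :
    ‖Rad_c s (min ‖z‖ 8) • z‖ = Rad_c s ‖z‖ * ‖z‖ := by
  rw [min_eq_left hz, norm_smul, Real.norm_of_nonneg (Rad_c_pos (norm_nonneg _) hz).le]

/-- the radial flow -/
private noncomputable def Rad_flow : Flow ℝ P where
  toFun s z := Rad_c s (min ‖z‖ 8) • z
  cont' := Rad_cont
  map_add' s t z := by
    rcases le_total ‖z‖ 8 with hz | hz
    · have h1 := Rad_norm t z hz
      have h2 := (Rad_rad (s := t) (norm_nonneg z) hz).2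
      rw [h1, min_eq_left hz, min_eq_left h2, smul_smul, Rad_c_add (norm_nonneg _) hz]
    · rw [min_eq_right hz, Rad_c_eight, Rad_c_eight, one_smul, min_eq_right hz, Rad_c_eight, one_smul]
  map_zero' z := by
    rw [Rad_c_zero, one_smul]

/-- **Rad**.  A radial flow. -/
theorem tRad : S_Rad := by
  refine ⟨Rad_flow, ?_, ?_⟩
  · intro s z hz
    change Rad_c s (min ‖z‖ 8) • z = z
    rw [min_eq_right hz, Rad_c_eight, one_smul]
  · intro s z _ hz
    change ‖Rad_c s (min ‖z‖ 8) • z‖ ≤ _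
    have hz8 : ‖z‖ ≤ 8 := hz.trans (by norm_num)
    rw [Rad_norm s z hz8]
    have hE := Real.exp_pos (-2 * s)
    have hd := Rad_den (norm_nonneg z) hz8 hE
    unfold Rad_c
    rw [div_mul_eq_mul_div, div_le_iff₀ hd]
    have h1 : 0 ≤ ‖z‖ * Real.exp (-2 * s) := mul_nonneg (norm_nonneg _) hE.le
    have h2 : ‖z‖ ≤ 8 - ‖z‖ + ‖z‖ * Real.exp (-2 * s) := by linarith
    have h3 := mul_le_mul_of_nonneg_left h2 (mul_pos (by norm_num : (0 : ℝ) < 8) hE).le
    linarith

end Pool.Agent.MPe54d61.TC
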