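import Pool.Agent.Lib.MP_e54d61_gt.TC.SpecH

/-!
# MP_e54d61_gt, torus case, part H: reachable positions give elements of the group
-/

set_option autoImplicit false

namespace Pool.Agent.MPe54d61.TC

open Topology MatrixGroups

namespace ReachGTAux

/-- the invariant of the induction -/
private def Q {N : ℕ} (f : VN N → P) : Prop :=
  (∃ Φ : P ≃ₜ P, ⇑Φ = PLm f) ∧ ∃ g : GT, ∀ z, pr (PLm f z) = (g : T ≃ₜ T) (pr z)

private theorem PLm_zero {N : ℕ} (z : P) : PLm (0 : VN N → P) z = z := by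
  simp [PLm]

private theorem Q_zero {N : ℕ} : Q (0 : VN N → P) := by
  refine ⟨⟨Homeomorph.refl P, ?_⟩, 1, ?_⟩
  · funext z
    rw [PLm_zero]
    rfl
  · intro z
    rw [PLm_zero]
    rfl

private theorem small_mono {r s : ℝ} {m : T ≃ₜ T} (h : Small r m) (hrs : r ≤ s) : Small s m := by
  obtain ⟨z0, hz⟩ := h
  exact ⟨z0, fun z hz' => hz z (hrs.trans hz')⟩

/-- one move of a vertex -/
private theorem Q_move (hPLc : S_PLc) (hLeaf : S_Leaf) (hDesc : S_Desc) (hStar : S_Star) {r : ℝ}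
    (hr : ∀ s : T ≃ₜ T, Small r s → s ∈ GT) {N : ℕ} (hN : NeZero N) (hNr : 1 / (N : ℝ) ≤ r)
    {f f' : VN N → P} (hQ : Q f) (hM : Mv f f') : Q f' := by
  obtain ⟨hp, hp', v, D, rfl⟩ := hM
  obtain ⟨hΦ, g, hg⟩ := hQ
  have hf : Function.update f v (f v + D) =
      fun p => f p + (if p = v then (1 : ℝ) else 0) • D := by
    funext p
    by_cases h : p = v
    · subst h
      simp
    · simp [h]
  have hL : ∃ Φ : P ≃ₜ P, ⇑Φ = PLm (Function.update f v (f v + D)) := by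
    have := hLeaf N hN f (fun p => if p = v then (1 : ℝ) else 0) D hp (by rw [← hf]; exact hp') hΦ
    rw [hf]
    exact this
  refine ⟨hL, ?_⟩
  obtain ⟨Φ', hΦ'⟩ := hL
  obtain ⟨m', hm'⟩ := hDesc Φ' (by
    intro z w
    rw [hΦ']
    exact (hPLc N hN _).2.1 z w)
  have hm : ∀ z, pr (PLm (Function.update f v (f v + D)) z) = m' (pr z) := by
    intro z
    rw [← hΦ']
    exact hm' z
  have hs := hStar N hN f v D (g : T ≃ₜ T) m' hg hm
  have hG : (g : T ≃ₜ T)⁻¹ * m' ∈ GT := hr _ (small_mono hs hNr)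
  have hm'G : m' ∈ GT := by
    have := GT.mul_mem g.2 hG
    rwa [mul_inv_cancel_left] at this
  exact ⟨⟨m', hm'G⟩, hm⟩

/-- a chain of moves -/
private theorem Q_chain (hPLc : S_PLc) (hLeaf : S_Leaf) (hDesc : S_Desc) (hStar : S_Star) {r : ℝ}
    (hr : ∀ s : T ≃ₜ T, Small r s → s ∈ GT) {N : ℕ} (hN : NeZero N) (hNr : 1 / (N : ℝ) ≤ r)
    {f f' : VN N → P} (hM : Relation.ReflTransGen Mv f f') (hQ : Q f) : Q f' := by
  induction hM with
  | refl => exact hQ
  | tail _ hm ih => exact Q_move hPLc hLeaf hDesc hStar hr hN hNr ih hm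

end ReachGTAux

open ReachGTAux in
/-- **Reachable positions give elements of the group.** -/
theorem tReachGT (hPLc : S_PLc) (hLeaf : S_Leaf) (hMoves : S_Moves) (hDesc : S_Desc)
    (hStar : S_Star) (hSmGT : S_SmGT) : S_ReachGT := by
  obtain ⟨r, hr0, hr⟩ := hSmGT
  obtain ⟨N0, hN0⟩ := exists_nat_ge (1 / r)
  refine ⟨N0, fun N hN hNN f hf => ?_⟩
  have hNpos : (0 : ℝ) < N := Nat.cast_pos.2 (NeZero.pos N)
  have hNr : 1 / (N : ℝ) ≤ r := by
    have h1 : 1 / r ≤ (N : ℝ) := hN0.trans (by exact_mod_cast hNN)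
    rw [div_le_iff₀ hr0] at h1
    rw [div_le_iff₀ hNpos]
    linarith
  have key : Q f := by
    induction hf with
    | zero => exact Q_zero
    | step f h D hf hp ih =>
      exact Q_chain hPLc hLeaf hDesc hStar hr hN hNr (hMoves N hN f h D hf.pos hp) ih
  exact key.2

end Pool.Agent.MPe54d61.TC
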