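import Pool.Agent.Lib.MP_e54d61_gt.TC.SpecH

/-!
# MP_e54d61_gt, torus case: realisation of one curve
-/

set_option autoImplicit false

namespace Pool.Agent.MPe54d61.TC

theorem tReal (hReachGT : S_ReachGT) (hLine : S_Line) (hAvoid : S_Avoid) (hRealE : S_RealE) :
    S_Real := by
  obtain ⟨N0, hN0⟩ := hReachGT
  refine ⟨max N0 2, ?_⟩
  intro N hN hNN K A u hu
  have h1 : N0 ≤ N := le_trans (le_max_left _ _) hNN
  have h2 : 2 ≤ N := le_trans (le_max_right _ _) hNN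
  obtain ⟨f, hf, hfK⟩ := hRealE N hN h2 K (c2 A) u hu (1 / (4 * ((N : ℝ) ^ 2 + 1))) (by positivity)
  obtain ⟨g, hg⟩ := hN0 N hN h1 f hf
  obtain ⟨θ, ha, hb, hc⟩ := hAvoid N hN f (c2 A) K hfK
  obtain ⟨x, hx, _⟩ := hLine (PLm f) g hg A θ 0
  refine ⟨x, fun k p hK => ?_, fun p hK hK' => ?_, fun p hK hK' => ?_⟩
  · rw [Set.disjoint_left]
    intro w hw hw'
    have h3 := hw'
    obtain ⟨a, s, _, _, _, rfl⟩ := hw'
    exact ha k p hK _ h3 ((hx _).1 hw)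
  · rw [Set.disjoint_left]
    intro w hw hw'
    have h3 := hw'
    obtain ⟨a, s, t, _, _, _, _, rfl⟩ := hw'
    exact hb p hK hK' _ h3 ((hx _).1 hw)
  · rw [Set.disjoint_left]
    intro w hw hw'
    have h3 := hw'
    obtain ⟨a, s, t, _, _, _, _, rfl⟩ := hw'
    exact hc p hK hK' _ h3 ((hx _).1 hw)

end Pool.Agent.MPe54d61.TC
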