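import Pool.Agent.Lib.MP_e54d61_gt.TC.SpecS

/-!
# MP_e54d61_gt, torus case, module Rep
-/

set_option autoImplicit false

namespace Pool.Agent.MPe54d61.TC

private theorem rep_zc_aux {N : ℕ} (hN : 3 ≤ N) (z : VN N) : zc N (rep z) = z := by
  have : NeZero N := ⟨by omega⟩
  have h (a : ZMod N) : (((a.val : ℤ)) : ZMod N) = a := by
    rw [Int.cast_natCast, ZMod.natCast_zmod_val]
  exact Prod.ext (h z.1) (h z.2)

private theorem rep_zc_eq {N : ℕ} (hN : 3 ≤ N) (x : ℤ × ℤ) :
    x = rep (zc N x) + (N : ℤ) • cel N x := by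
  have : NeZero N := ⟨by omega⟩
  ext
  · simp only [rep, zc, cel, Prod.fst_add, Prod.smul_fst, smul_eq_mul, ZMod.val_intCast]
    exact (Int.emod_add_mul_ediv _ _).symm
  · simp only [rep, zc, cel, Prod.snd_add, Prod.smul_snd, smul_eq_mul, ZMod.val_intCast]
    exact (Int.emod_add_mul_ediv _ _).symm

theorem tRep (h1 : S_Grid) : S_Rep := by
  intro N hN
  have h3 : ∀ p q : ℤ × ℤ, q - p ∈ stp →
      q - p = (N : ℤ) • kN N (zc N p) (zc N q) + rep (zc N q) - rep (zc N p) := by
    intro p q hpq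
    have hk : kN N (zc N p) (zc N q) = cel N q - cel N p := ((h1 N hN).2.1 p q hpq).2
    rw [hk]
    have hp := rep_zc_eq hN p
    have hq := rep_zc_eq hN q
    calc q - p = (rep (zc N q) + (N : ℤ) • cel N q) - (rep (zc N p) + (N : ℤ) • cel N p) := by
          rw [← hp, ← hq]
      _ = _ := by rw [smul_sub]; abel
  refine ⟨rep_zc_aux hN, rep_zc_eq hN, h3, ?_⟩
  intro z k
  have hs : (rep z + ei k) - rep z ∈ stp := by
    rw [add_sub_cancel_left]
    fin_cases k <;> decide
  have h := h3 (rep z) (rep z + ei k) hs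
  rw [add_sub_cancel_left, zc_add, rep_zc_aux hN] at h
  exact h

end Pool.Agent.MPe54d61.TC
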