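import Pool.Agent.Lib.MP_e54d61_gt.TC.SpecS

/-!
# MP_e54d61_gt, torus case, module Ring: the faces around the vertices
-/

set_option autoImplicit false

namespace Pool.Agent.MPe54d61.TC

open SimpleGraph

/-- the six directions, counterclockwise -/
private def ringD (N : ℕ) : Fin 6 → VN N :=
  ![ed N 0, ed N 2, ed N 1, -ed N 0, -ed N 2, -ed N 1]

private theorem ringD_inj {N : ℕ} (h1 : ∀ j k : Fin 3, ed N j = ed N k → j = k)
    (h2 : ∀ j k : Fin 3, ed N j + ed N k ≠ 0) (i j : Fin 6) (h : ringD N i = ringD N j) : i = j := by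
  have e01 : ed N 0 ≠ ed N 1 := fun h => absurd (h1 _ _ h) (by decide)
  have e02 : ed N 0 ≠ ed N 2 := fun h => absurd (h1 _ _ h) (by decide)
  have e12 : ed N 1 ≠ ed N 2 := fun h => absurd (h1 _ _ h) (by decide)
  have en : ∀ j k : Fin 3, ed N j ≠ -ed N k := fun j k h => h2 j k (by rw [h]; simp)
  have en' : ∀ j k : Fin 3, -ed N j ≠ ed N k := fun j k h => h2 j k (by rw [← h]; simp)
  fin_cases i <;> fin_cases j <;>
    simp [ringD, e01, e02, e12, e01.symm, e02.symm, e12.symm, en, en'] at h ⊢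

private theorem ringD_adj {N : ℕ} {z y : VN N} (h : ∃ k : Fin 3, y = z + ed N k ∨ z = y + ed N k) :
    ∃ j : Fin 6, y = z + ringD N j := by
  obtain ⟨k, h | h⟩ := h
  · fin_cases k
    · exact ⟨0, h⟩
    · exact ⟨2, h⟩
    · exact ⟨1, h⟩
  · have h' : y = z + -ed N k := by rw [h]; abel
    fin_cases k
    · exact ⟨3, h'⟩
    · exact ⟨5, h'⟩
    · exact ⟨4, h'⟩

/-- the minimum of the values of six faces -/
private def ringM (F : Fin 6 → ℤ) : ℤ :=
  min (F 0) (min (F 1) (min (F 2) (min (F 3) (min (F 4) (F 5)))))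

private theorem ringM_two {F : Fin 6 → ℤ} {m : ℤ} (h : ∀ i, F i = m ∨ F i = m + 1) (i : Fin 6) :
    F i = ringM F ∨ F i = ringM F + 1 := by
  have h0 := h 0
  have h1 := h 1
  have h2 := h 2
  have h3 := h 3
  have h4 := h 4
  have h5 := h 5
  have hi := h i
  have hm : ringM F ≤ F i := by
    simp only [ringM]
    fin_cases i <;> simp
  have hm' : m ≤ ringM F := by
    simp only [ringM]
    omega
  omega

private theorem ringM_one {F : Fin 6 → ℤ} (h : ∀ i, F (i + 1) = F i) (i : Fin 6) :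
    F i = ringM F := by
  have h0 : F 1 = F 0 := h 0
  have h1 : F 2 = F 1 := h 1
  have h2 : F 3 = F 2 := h 2
  have h3 : F 4 = F 3 := h 3
  have h4 : F 5 = F 4 := h 4
  simp only [ringM]
  fin_cases i <;> simp <;> omega

private theorem ringM_add {F F' : Fin 6 → ℤ} {d : ℤ} (h : ∀ i, F' i = F i + d) :
    ringM F' = ringM F + d := by
  simp only [ringM, h]
  omega

/-- the six faces around a point -/
private def ringF (a b : ℤ × ℤ → ℤ) (x : ℤ × ℤ) : Fin 6 → ℤ :=
  ![a x, b x, a (x - ei 0), b (x - ei 2), a (x - ei 2), b (x - ei 1)]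

private theorem ringF_diff {N : ℕ} {x0 : VN N} (c : (GN N).Walk x0 x0) {a b : ℤ × ℤ → ℤ}
    (ha1 : ∀ x, b x - a x = ch c 2 (zc N x)) (ha2 : ∀ x, a x - b (x - ei 1) = ch c 0 (zc N x))
    (ha3 : ∀ x, a (x - ei 0) - b x = ch c 1 (zc N x)) (x : ℤ × ℤ) (i : Fin 6) :
    ringF a b x (i + 1) - ringF a b x i = cc c (zc N x) (zc N x + ringD N (i + 1)) := by
  have hz : ∀ k : Fin 3, zc N (x - ei k) = zc N x - ed N k := by
    intro k
    rw [eq_sub_iff_add_eq, ed, ← zc_add, sub_add_cancel]
  have hs : ∀ k : Fin 3, -cc c (zc N x - ed N k) (zc N x - ed N k + ed N k)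
      = cc c (zc N x) (zc N x + -ed N k) := by
    intro k
    rw [sub_add_cancel, ← cc_swap, sub_eq_add_neg]
  fin_cases i
  · show b x - a x = cc c (zc N x) (zc N x + ed N 2)
    exact ha1 x
  · show a (x - ei 0) - b x = cc c (zc N x) (zc N x + ed N 1)
    exact ha3 x
  · show b (x - ei 2) - a (x - ei 0) = cc c (zc N x) (zc N x + -ed N 0)
    have h := ha2 (x - ei 0)
    rw [hz 0] at h
    have e : x - ei 0 - ei 1 = x - ei 2 := by rw [ei_two]; abel
    rw [e] at h
    rw [← hs 0]
    simp only [ch] at h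
    linarith
  · show a (x - ei 2) - b (x - ei 2) = cc c (zc N x) (zc N x + -ed N 2)
    have h := ha1 (x - ei 2)
    rw [hz 2] at h
    rw [← hs 2]
    simp only [ch] at h
    linarith
  · show b (x - ei 1) - a (x - ei 2) = cc c (zc N x) (zc N x + -ed N 1)
    have h := ha3 (x - ei 1)
    rw [hz 1] at h
    have e : x - ei 1 - ei 0 = x - ei 2 := by rw [ei_two]; abel
    rw [e] at h
    rw [← hs 1]
    simp only [ch] at h
    linarith
  · show a x - b (x - ei 1) = cc c (zc N x) (zc N x + ed N 0)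
    exact ha2 x

theorem tRing (h1 : S_Grid) (h2 : S_Ed) (h3 : S_Loc) (h4 : S_ChCyc) (h5 : S_Strm) (h6 : S_Six) :
    S_Ring := by
  intro N _ hN x0 c hc
  obtain ⟨a, b, ha1, ha2, ha3, hper⟩ := h5 N inferInstance (ch c) (cls (kN N) c) (h4 N inferInstance hN x0 c)
  have hd := ringF_diff c ha1 ha2 ha3
  obtain ⟨hE1, hE2, -, hE4⟩ := h2 N hN
  obtain ⟨hL1, hL2⟩ := h3 (VN N) (ℤ × ℤ) inferInstance inferInstance (GN N) (kN N) (h1 N hN).1 x0 c hc
  -- the values off the walk
  have hoff : ∀ x : ℤ × ℤ, zc N x ∉ c.support → ∀ i, ringF a b x i = ringM (ringF a b x) := by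
    intro x hx
    refine ringM_one fun i => ?_
    have := hd x i
    have h0 := hL1 (zc N x) (zc N x + ringD N (i + 1)) hx
    linarith
  have htwo : ∀ (x : ℤ × ℤ) (i : Fin 6),
      ringF a b x i = ringM (ringF a b x) ∨ ringF a b x i = ringM (ringF a b x) + 1 := by
    intro x i
    by_cases hx : zc N x ∈ c.support
    · obtain ⟨y, w, -, hy, hw, hb⟩ := hL2 (zc N x) hx
      obtain ⟨j, hj⟩ := ringD_adj (hE4 _ _ hy)
      obtain ⟨l, hl⟩ := ringD_adj (hE4 _ _ hw)
      obtain ⟨m, hm⟩ := h6 (ringF a b x) j l (by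
        intro i
        rw [hd x i, (hb _).2, hj, hl]
        have e1 : ∀ j : Fin 6, (zc N x + ringD N (i + 1) = zc N x + ringD N j) ↔ (i + 1 = j) :=
          fun j => ⟨fun h => ringD_inj hE1 hE2 _ _ (add_left_cancel h), fun h => by rw [h]⟩
        simp only [e1])
      exact ringM_two hm i
    · exact Or.inl (hoff x hx i)
  refine ⟨fun x => ringM (ringF a b x), fun k x => ![a x, a (x - ei 0), b x] k,
    fun k x => ![b (x - ei 1), b x, a x] k, ?_, ?_⟩
  · intro x v
    refine ringM_add fun i => ?_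
    have hs : ∀ k : Fin 3, x + (N : ℤ) • v - ei k = x - ei k + (N : ℤ) • v := fun k => by abel
    fin_cases i
    · exact (hper x v).1
    · exact (hper x v).2
    · show a (x + (N : ℤ) • v - ei 0) = a (x - ei 0) + _
      rw [hs]
      exact (hper _ v).1
    · show b (x + (N : ℤ) • v - ei 2) = b (x - ei 2) + _
      rw [hs]
      exact (hper _ v).2
    · show a (x + (N : ℤ) • v - ei 2) = a (x - ei 2) + _
      rw [hs]
      exact (hper _ v).1
    · show b (x + (N : ℤ) • v - ei 1) = b (x - ei 1) + _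
      rw [hs]
      exact (hper _ v).2
  · intro k x
    have g0 : x + ei 0 - ei 0 = x := by abel
    have g1 : x + ei 0 - ei 2 = x - ei 1 := by rw [ei_two]; abel
    have g2 : x + ei 1 - ei 2 = x - ei 0 := by rw [ei_two]; abel
    have g3 : x + ei 1 - ei 1 = x := by abel
    have g4 : x + ei 2 - ei 2 = x := by abel
    fin_cases k
    · have t1 := htwo x 0
      have t2 := htwo x 5
      have t3 := htwo (x + ei 0) 2
      have t4 := htwo (x + ei 0) 3
      have o1 := fun h => hoff x h 0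
      have o2 := fun h => hoff (x + ei 0) h 2
      change a x = _ ∨ a x = _ at t1
      change b (x - ei 1) = _ ∨ b (x - ei 1) = _ at t2
      change a (x + ei 0 - ei 0) = _ ∨ a (x + ei 0 - ei 0) = _ at t3
      change b (x + ei 0 - ei 2) = _ ∨ b (x + ei 0 - ei 2) = _ at t4
      change _ → a x = _ at o1
      change _ → a (x + ei 0 - ei 0) = _ at o2
      rw [g0] at t3 o2
      rw [g1] at t4
      exact ⟨ha2 x, t1, t2, t3, t4, o1, o2⟩
    · have t1 := htwo x 2
      have t2 := htwo x 1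
      have t3 := htwo (x + ei 1) 4
      have t4 := htwo (x + ei 1) 5
      have o1 := fun h => hoff x h 2
      have o2 := fun h => hoff (x + ei 1) h 4
      change a (x - ei 0) = _ ∨ a (x - ei 0) = _ at t1
      change b x = _ ∨ b x = _ at t2
      change a (x + ei 1 - ei 2) = _ ∨ a (x + ei 1 - ei 2) = _ at t3
      change b (x + ei 1 - ei 1) = _ ∨ b (x + ei 1 - ei 1) = _ at t4
      change _ → a (x - ei 0) = _ at o1
      change _ → a (x + ei 1 - ei 2) = _ at o2
      rw [g2] at t3 o2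
      rw [g3] at t4
      exact ⟨ha3 x, t1, t2, t3, t4, o1, o2⟩
    · have t1 := htwo x 1
      have t2 := htwo x 0
      have t3 := htwo (x + ei 2) 3
      have t4 := htwo (x + ei 2) 4
      have o1 := fun h => hoff x h 1
      have o2 := fun h => hoff (x + ei 2) h 3
      change b x = _ ∨ b x = _ at t1
      change a x = _ ∨ a x = _ at t2
      change b (x + ei 2 - ei 2) = _ ∨ b (x + ei 2 - ei 2) = _ at t3
      change a (x + ei 2 - ei 2) = _ ∨ a (x + ei 2 - ei 2) = _ at t4
      change _ → b x = _ at o1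
      change _ → b (x + ei 2 - ei 2) = _ at o2
      rw [g4] at t3 t4 o2
      exact ⟨ha1 x, t1, t2, t3, t4, o1, o2⟩

end Pool.Agent.MPe54d61.TC
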