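import Pool.Agent.Lib.MP_e54d61_gt.TC.SpecB

/-!
# MP_e54d61_gt, torus case: type (S) adjacency (`S_SAdj`)

Both closed walks are rotated to `w`: they are `δ2.R` and `a3.R` with `R = η2.a1.η1` not nil, `R = cons h R'`.
`δ2`, `a3` and `R'` are paths; the potentials of the three paths are glued.
-/

set_option autoImplicit false

namespace Pool.Agent.MPe54d61.TC

open SimpleGraph

namespace SAdjAux

variable {V M : Type} [AddCommGroup M] {Γ : SimpleGraph V} {κ : V → V → M}

/-- potentials of paths, with values on initial parts -/
theorem pot (hκ : Anti κ) {a b : V} (p : Γ.Walk a b) (hp : p.support.Nodup) :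
    ∃ φ : V → M, (∀ (z : V) (d : Γ.Walk a z) (e : Γ.Walk z b), p = d.append e → φ z = cls κ d) ∧
      ∀ u v, s(u, v) ∈ eds p → κ u v = φ v - φ u := by
  classical
  induction p with
  | nil =>
    refine ⟨fun _ => 0, ?_, ?_⟩
    · intro z d e h
      cases d with
      | nil => rfl
      | cons h' d => simp at h
    · intro u v h
      simp at h
  | @cons a a' b h p ih =>
    rw [Walk.support_cons, List.nodup_cons] at hp
    obtain ⟨φ, h1, h2⟩ := ih hp.2
    have hne : ∀ z, z ∈ p.support → z ≠ a := fun z hz hza => hp.1 (hza ▸ hz)
    have ha' : φ a' = 0 := by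
      have := h1 a' Walk.nil p (by simp)
      simpa using this
    refine ⟨fun z => if z = a then 0 else κ a a' + φ z, ?_, ?_⟩
    · intro z d e hd
      cases d with
      | nil => simp
      | @cons _ c _ h' d =>
        rw [Walk.cons_append] at hd
        injection hd with _ hc _ hd
        subst hc
        have hd := eq_of_heq hd
        have hz : z ∈ p.support := by
          rw [hd]
          simp
        simp only [if_neg (hne z hz), cls_cons]
        rw [h1 z d e hd]
    · intro u v huv
      rw [mem_eds_cons] at huv
      rcases huv with huv | huv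
      · rw [Sym2.eq_iff] at huv
        have h3 : a' ≠ a := hne a' (by simp)
        rcases huv with ⟨rfl, rfl⟩ | ⟨rfl, rfl⟩
        · simp [h3, ha']
        · simp only [if_neg h3, if_true, ha', add_zero, zero_sub]
          exact hκ _ _
      · have hu : u ∈ p.support := Walk.fst_mem_support_of_mem_edges p huv
        have hv : v ∈ p.support := Walk.snd_mem_support_of_mem_edges p huv
        simp only [if_neg (hne u hu), if_neg (hne v hv)]
        rw [h2 u v huv]
        abel

/-- a path in an essential closed walk -/
theorem path_of_ess {w w' : V} (δ : Γ.Walk w w') (R : Γ.Walk w' w) (hR : ¬ R.Nil)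
    (h : Ess κ (δ.append R)) : δ.support.Nodup := by
  rw [ess_append_iff] at h
  obtain ⟨h1, h2, h3, -⟩ := h
  rw [← Walk.cons_tail_support δ, List.nodup_cons]
  refine ⟨fun hw => ?_, h1⟩
  refine h3 hw ?_
  cases R with
  | nil => simp at hR
  | cons h p => simp

/-- the rotated form -/
theorem core (hκ : Anti κ) {w w' : V} (δ a : Γ.Walk w w') (R : Γ.Walk w' w) (hR : ¬ R.Nil)
    (h1 : Ess κ (δ.append R)) (h2 : Ess κ (a.append R))
    (hc : ∀ (z : V) (d d' : Γ.Walk w z) (e e' : Γ.Walk z w'), δ = d.append e →
      a = d'.append e' → cls κ d = cls κ d') :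
    AdjS κ (eds (δ.append R)) (eds (a.append R)) := by
  classical
  have hδ := path_of_ess δ R hR h1
  have ha := path_of_ess a R hR h2
  have hcl : cls κ δ = cls κ a := hc w' δ a Walk.nil Walk.nil (by simp) (by simp)
  rw [ess_append_iff] at h1 h2
  cases R with
  | nil => simp at hR
  | @cons _ w'' _ h R =>
    obtain ⟨-, h12, h13, -⟩ := h1
    obtain ⟨-, -, h23, -⟩ := h2
    simp only [Walk.support_cons, List.tail_cons] at h12 h13 h23
    obtain ⟨φδ, hδ1, hδ2⟩ := pot hκ δ hδ
    obtain ⟨φa, ha1, ha2⟩ := pot hκ a ha
    obtain ⟨φR, hR1, hR2⟩ := pot hκ R h12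
    have hRw : φR w = cls κ R := hR1 w R Walk.nil (by simp)
    have hRw'' : φR w'' = 0 := by simpa using hR1 w'' Walk.nil R (by simp)
    have hδw : φδ w = 0 := by simpa using hδ1 w Walk.nil δ (by simp)
    have haw : φa w = 0 := by simpa using ha1 w Walk.nil a (by simp)
    have hδw' : φδ w' = cls κ δ := hδ1 w' δ Walk.nil (by simp)
    -- agreement on common vertices
    have hag : ∀ z, z ∈ δ.support → z ∈ a.support → φδ z = φa z := by
      intro z hz1 hz2
      obtain ⟨d, e, hd⟩ := Walk.mem_support_iff_exists_append.1 hz1
      obtain ⟨d', e', hd'⟩ := Walk.mem_support_iff_exists_append.1 hz2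
      rw [hδ1 z d e hd, ha1 z d' e' hd', hc z d d' e e' hd hd']
    set l : M := cls κ δ + (κ w' w'' + cls κ R) with hl
    set φ : V → M := fun z => if z ∈ δ.support then φδ z else
      if z ∈ a.support then φa z else cls κ δ + κ w' w'' + φR z with hφ
    have hφδ : ∀ z, z ∈ δ.support → φ z = φδ z := fun z hz => by simp [hφ, hz]
    have hφa : ∀ z, z ∈ a.support → φ z = φa z := by
      intro z hz
      by_cases hz' : z ∈ δ.support
      · rw [hφδ z hz', hag z hz' hz]
      · simp [hφ, hz, hz']
    have hφR : ∀ z, z ∈ R.support → (cls κ δ + κ w' w'' + φR z) - φ z ∈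
        AddSubgroup.zmultiples l := by
      intro z hz
      by_cases hzw : z = w
      · subst hzw
        rw [hφδ z (by simp), hδw, hRw]
        have : cls κ δ + κ w' w'' + cls κ R - 0 = l := by rw [hl]; abel
        rw [this]
        exact AddSubgroup.mem_zmultiples l
      · have hz1 : z ∉ δ.support := by
          intro hz1
          rw [← Walk.cons_tail_support δ, List.mem_cons] at hz1
          rcases hz1 with hz1 | hz1
          · exact hzw hz1
          · exact h13 hz1 hz
        have hz2 : z ∉ a.support := by
          intro hz2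
          rw [← Walk.cons_tail_support a, List.mem_cons] at hz2
          rcases hz2 with hz2 | hz2
          · exact hzw hz2
          · exact h23 hz2 hz
        have : φ z = cls κ δ + κ w' w'' + φR z := by simp [hφ, hz1, hz2]
        rw [this, sub_self]
        exact AddSubgroup.zero_mem _
    have hφw' : φ w' = cls κ δ := by rw [hφδ w' (by simp), hδw']
    have hφw'' : (cls κ δ + κ w' w'') - φ w'' ∈ AddSubgroup.zmultiples l := by
      have := hφR w'' (by simp)
      rwa [hRw'', add_zero] at this
    have key : ∀ u v, s(u, v) ∈ eds (Walk.cons h R) → κ u v - (φ v - φ u) ∈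
        AddSubgroup.zmultiples l := by
      intro u v huv
      rw [mem_eds_cons] at huv
      rcases huv with huv | huv
      · rw [Sym2.eq_iff] at huv
        rcases huv with ⟨rfl, rfl⟩ | ⟨rfl, rfl⟩
        · have : κ u v - (φ v - φ u) = (cls κ δ + κ u v) - φ v := by rw [hφw']; abel
          rw [this]
          exact hφw''
        · have : κ u v - (φ v - φ u) = -((cls κ δ + κ v u) - φ u) := by
            rw [hφw', hκ v u]; abel
          rw [this]
          exact AddSubgroup.neg_mem _ hφw''
      · have hu : u ∈ R.support := Walk.fst_mem_support_of_mem_edges R huv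
        have hv : v ∈ R.support := Walk.snd_mem_support_of_mem_edges R huv
        have : κ u v - (φ v - φ u) = ((cls κ δ + κ w' w'' + φR v) - φ v) -
            ((cls κ δ + κ w' w'' + φR u) - φ u) := by
          rw [hR2 u v huv]; abel
        rw [this]
        exact AddSubgroup.sub_mem _ (hφR v hv) (hφR u hu)
    refine ⟨φ, l, ?_⟩
    intro u v huv
    rw [eds_append, eds_append] at huv
    rcases huv with (huv | huv) | (huv | huv)
    · have hu : u ∈ δ.support := Walk.fst_mem_support_of_mem_edges δ huv
      have hv : v ∈ δ.support := Walk.snd_mem_support_of_mem_edges δ huv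
      rw [hφδ u hu, hφδ v hv, hδ2 u v huv, sub_self]
      exact AddSubgroup.zero_mem _
    · exact key u v huv
    · have hu : u ∈ a.support := Walk.fst_mem_support_of_mem_edges a huv
      have hv : v ∈ a.support := Walk.snd_mem_support_of_mem_edges a huv
      rw [hφa u hu, hφa v hv, ha2 u v huv, sub_self]
      exact AddSubgroup.zero_mem _
    · exact key u v huv

end SAdjAux

theorem tSAdj : S_SAdj := by
  intro V M _ Γ κ hκ u v w w' η1 δ2 η2 a1 a3 hη1 hη2 h1 h2 hc
  have hR : ¬ ((η2.append a1).append η1).Nil := by
    intro h
    rw [Walk.nil_append_iff] at h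
    exact hη1 h.2
  have h1' : Ess κ (δ2.append ((η2.append a1).append η1)) := by
    have := ess_comm h1
    rwa [← Walk.append_assoc] at this
  have h2' : Ess κ (a3.append ((η2.append a1).append η1)) := by
    have := ess_comm h2
    rwa [← Walk.append_assoc] at this
  have e1 : eds (η1.append (δ2.append (η2.append a1))) =
      eds (δ2.append ((η2.append a1).append η1)) := by
    simp only [eds_append]
    ext e
    simp only [Set.mem_union]
    tauto
  have e2 : eds (η1.append (a3.append (η2.append a1))) =
      eds (a3.append ((η2.append a1).append η1)) := by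
    simp only [eds_append]
    ext e
    simp only [Set.mem_union]
    tauto
  rw [e1, e2]
  exact SAdjAux.core hκ δ2 a3 _ hR h1' h2' hc

end Pool.Agent.MPe54d61.TC
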