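import Pool.Agent.Lib.MP_e54d61_gt.TC.SpecE

/-! Curves near the same essential cycle are at distance at most two. -/

set_option autoImplicit false

namespace Pool.Agent.MPe54d61.TC

open SimpleGraph Filter Topology

namespace SameAux

theorem cur_compact (x : X) : IsCompact (cur x) := by
  have h : cur x = Set.range (fun y : Ci => (x.1 : T ≃ₜ T) (mat x.2 ((0 : Ci), y))) := by
    ext z
    constructor
    · rintro ⟨y, rfl⟩; exact ⟨y, rfl⟩
    · rintro ⟨y, rfl⟩; exact ⟨y, rfl⟩
  rw [h]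
  refine isCompact_range ?_
  exact (x.1 : T ≃ₜ T).continuous.comp ((mat x.2).continuous.comp (Continuous.prodMk continuous_const continuous_id))

theorem cur_nonempty (x : X) : (cur x).Nonempty := ⟨_, (0 : Ci), rfl⟩

theorem adj_of_disj {x y : X} (h : Disjoint (cur x) (cur y)) : Gr.Adj x y := by
  refine ⟨?_, Or.inl h⟩
  rintro rfl
  obtain ⟨z, hz⟩ := cur_nonempty x
  exact (Set.disjoint_left.1 h) hz hz

end SameAux

open SameAux

theorem tSame (hGeoC : S_GeoC) (hSubB : S_SubB) (hSubG : S_SubG) (hKReal : S_KReal) (hKO : S_KO)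
    (hNrC : S_NrC) : S_Same := by
  obtain ⟨N0, hN0⟩ := hKReal
  refine ⟨max 3 N0, le_max_left _ _, ?_⟩
  intro N hN C hC z z' hz hz'
  have hN3 : 3 ≤ N := le_trans (le_max_left _ _) hN
  have hNN : N0 ≤ N := le_trans (le_max_right _ _) hN
  -- separation
  have hK : IsCompact (cur z ∪ cur z') := (cur_compact z).union (cur_compact z')
  have hcl : IsClosed (geo N C) := hGeoC N (by omega) C
  have hdis : Disjoint (cur z ∪ cur z') (geo N C) := Set.disjoint_union_left.2 ⟨hz, hz'⟩
  obtain ⟨ρ, hρ, hsep⟩ := hdis.exists_thickenings hK hcl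
  obtain ⟨k, hk⟩ := exists_nat_gt (1 / ρ)
  have hk0 : 0 < (k : ℝ) := lt_trans (by positivity) hk
  have hk1 : 1 ≤ k := by exact_mod_cast hk0
  have hNpos : (0 : ℝ) < N := by exact_mod_cast (by omega : 0 < N)
  have hkN : k * N ≥ N := Nat.le_mul_of_pos_left N hk1
  have : NeZero (k * N) := ⟨by
    have : 0 < k * N := Nat.mul_pos hk1 (by omega)
    omega⟩
  have hsmall : 1 / ((k * N : ℕ) : ℝ) < ρ := by
    have h1 : (1 : ℝ) ≤ N := by exact_mod_cast (by omega : 1 ≤ N)
    have h2 : 1 < k * ρ := by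
      rw [div_lt_iff₀ hρ] at hk
      exact hk
    rw [div_lt_iff₀ (by positivity)]
    push_cast
    calc (1 : ℝ) < k * ρ := h2
      _ = ρ * (k * 1) := by ring
      _ ≤ ρ * (k * N) := by gcongr
  have hE : EC (GN (k * N)) (kN (k * N)) (sub N k C) := (hSubB N k hN3 hk1 C C C).1 hC
  have h3k : 3 ≤ k * N := le_trans hN3 hkN
  obtain ⟨x, hx1, hx2, hx3⟩ := hN0 (k * N) inferInstance (le_trans hNN hkN) _
    (hKO (k * N) inferInstance h3k _ hE)
  have hnear : ∀ c ∈ cur x, c ∉ cur z ∪ cur z' := by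
    intro c hc hcz
    obtain ⟨w, hw, hd⟩ := hNrC (k * N) inferInstance h3k _ hE c
      (fun p ha hb => Set.disjoint_left.1 (hx2 p ha hb) hc)
      (fun p ha hb => Set.disjoint_left.1 (hx3 p ha hb) hc)
    have hw' : w ∈ geo N C := hSubG N k hN3 hk1 C hw
    refine Set.disjoint_left.1 hsep (Metric.self_subset_thickening hρ _ hcz) ?_
    rw [Metric.mem_thickening_iff]
    exact ⟨w, hw', lt_of_le_of_lt hd hsmall⟩
  have hz1 : Disjoint (cur z) (cur x) := Set.disjoint_left.2 (fun c h1 h2 => hnear c h2 (Or.inl h1))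
  have hz2 : Disjoint (cur x) (cur z') := Set.disjoint_left.2 (fun c h1 h2 => hnear c h1 (Or.inr h2))
  exact ⟨Walk.cons (adj_of_disj hz1) (Walk.cons (adj_of_disj hz2) Walk.nil), by simp⟩

end Pool.Agent.MPe54d61.TC
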