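import Pool.Agent.Lib.MP_e54d61_gt.TC.SpecA

set_option autoImplicit false

/-!
# MP_e54d61_gt, torus case: `Shift`

A translation of the annulus by an integer agrees on every compact piece with an element of `HY`.
-/

namespace Pool.Agent.MPe54d61.TC

open Topology Filter

/-- the cut off function -/
private noncomputable def Shift_c (M R x : ℝ) : ℝ := max 0 (min 1 ((M + R - |x|) / R))

private theorem Shift_c_cont (M R : ℝ) : Continuous (Shift_c M R) := by
  unfold Shift_c
  fun_prop

private theorem Shift_c_nonneg (M R x : ℝ) : 0 ≤ Shift_c M R x := le_max_left _ _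

private theorem Shift_c_le (M R x : ℝ) : Shift_c M R x ≤ 1 :=
  max_le zero_le_one (min_le_left _ _)

private theorem Shift_c_one {M R x : ℝ} (hR : 0 < R) (hx : |x| ≤ M) : Shift_c M R x = 1 := by
  have h1 : (1 : ℝ) ≤ (M + R - |x|) / R := by
    rw [le_div_iff₀ hR]
    linarith
  unfold Shift_c
  rw [min_eq_left h1, max_eq_right zero_le_one]

private theorem Shift_c_zero {M R x : ℝ} (hR : 0 < R) (hx : M + R ≤ |x|) :
    Shift_c M R x = 0 := by
  have h1 : (M + R - |x|) / R ≤ 0 := div_nonpos_of_nonpos_of_nonneg (by linarith) hR.le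
  unfold Shift_c
  exact max_eq_left ((min_le_right _ _).trans h1)

private theorem Shift_c_lip {M R : ℝ} (hR : 0 < R) (x y : ℝ) :
    |Shift_c M R x - Shift_c M R y| ≤ |x - y| / R := by
  have h0 : 0 ≤ |x - y| / R := div_nonneg (abs_nonneg _) hR.le
  have h1 : |(M + R - |x|) / R - (M + R - |y|) / R| ≤ |x - y| / R := by
    rw [← sub_div, abs_div, abs_of_pos hR]
    refine div_le_div_of_nonneg_right ?_ hR.le
    have h2 : M + R - |x| - (M + R - |y|) = |y| - |x| := by ring
    rw [h2, abs_sub_comm x y]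
    exact abs_abs_sub_abs_le_abs_sub y x
  unfold Shift_c
  refine (abs_max_sub_max_le_max _ _ _ _).trans (max_le (by simpa using h0) ?_)
  refine (abs_min_sub_min_le_max _ _ _ _).trans (max_le (by simpa using h0) h1)

/-- the shift with cut off -/
private noncomputable def Shift_f (k : ℤ) (M x : ℝ) : ℝ :=
  x + k * Shift_c M (2 * (|(k : ℝ)| + 1)) x

private theorem Shift_f_mono (k : ℤ) (M : ℝ) : StrictMono (Shift_f k M) := by
  intro x y hxy
  have hR : (0 : ℝ) < 2 * (|(k : ℝ)| + 1) := by positivity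
  have h1 := Shift_c_lip (M := M) hR x y
  have h2 : |(k : ℝ) * (Shift_c M (2 * (|(k : ℝ)| + 1)) x
      - Shift_c M (2 * (|(k : ℝ)| + 1)) y)| ≤ (y - x) / 2 := by
    rw [abs_mul]
    refine (mul_le_mul_of_nonneg_left h1 (abs_nonneg _)).trans ?_
    rw [abs_sub_comm x y, abs_of_pos (sub_pos.2 hxy), ← mul_div_assoc, div_le_div_iff₀ hR two_pos]
    nlinarith [abs_nonneg (k : ℝ), sub_pos.2 hxy]
  have h3 := (abs_le.1 h2).2
  unfold Shift_f
  have h4 : 0 < y - x := sub_pos.2 hxy
  rw [mul_sub] at h3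
  linarith

private theorem Shift_f_near (k : ℤ) (M x : ℝ) : |Shift_f k M x - x| ≤ |(k : ℝ)| := by
  unfold Shift_f
  rw [add_sub_cancel_left, abs_mul, abs_of_nonneg (Shift_c_nonneg _ _ _)]
  calc |(k : ℝ)| * Shift_c M (2 * (|(k : ℝ)| + 1)) x ≤ |(k : ℝ)| * 1 :=
        mul_le_mul_of_nonneg_left (Shift_c_le _ _ _) (abs_nonneg _)
    _ = _ := mul_one _

private theorem Shift_f_surj (k : ℤ) (M : ℝ) : Function.Surjective (Shift_f k M) := by
  have hc : Continuous (Shift_f k M) := by
    unfold Shift_f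
    have := Shift_c_cont M (2 * (|(k : ℝ)| + 1))
    fun_prop
  refine hc.surjective ?_ ?_
  · refine tendsto_atTop_mono (f := fun x => x + (-|(k : ℝ)|)) (fun x => ?_)
      (tendsto_atTop_add_const_right _ _ tendsto_id)
    have := (abs_le.1 (Shift_f_near k M x)).1
    linarith
  · refine tendsto_atBot_mono (f := fun x => x + |(k : ℝ)|) (fun x => ?_)
      (tendsto_atBot_add_const_right _ _ tendsto_id)
    have := (abs_le.1 (Shift_f_near k M x)).2
    linarith

theorem tShift (hXi : S_Xi) : S_Shift := by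
  intro k M0
  set M := max M0 0 with hM
  have hR : (0 : ℝ) < 2 * (|(k : ℝ)| + 1) := by positivity
  let o : ℝ ≃o ℝ := (Shift_f_mono k M).orderIsoOfSurjective _ (Shift_f_surj k M)
  have ho : ∀ x, o.toHomeomorph x = Shift_f k M x := fun x => rfl
  refine ⟨xh o.toHomeomorph, hXi _ ?_ ⟨M + 2 * (|(k : ℝ)| + 1), fun x hx => ?_⟩, fun z hz => ?_⟩
  · intro x y hxy
    rw [ho, ho]
    exact Shift_f_mono k M hxy
  · rw [ho]
    unfold Shift_f
    rw [Shift_c_zero hR hx, mul_zero, add_zero]
  · show (o.toHomeomorph z.1, z.2) = _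
    rw [ho]
    unfold Shift_f
    rw [Shift_c_one hR (hz.trans (le_max_left _ _)), mul_one]

end Pool.Agent.MPe54d61.TC
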