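import Pool.Agent.Lib.MP_e54d61_gt.TC.SpecB

/-!
# MP_e54d61_gt, torus case, module Short: every closed walk with class `≠ 0` contains an essential cycle
-/

set_option autoImplicit false

namespace Pool.Agent.MPe54d61.TC

open SimpleGraph

namespace ShortAux

/-- a walk which repeats a vertex has a closed part of positive length -/
theorem exists_split {V : Type} {Γ : SimpleGraph V} {u v : V} (w : Γ.Walk u v)
    (h : ¬ w.support.Nodup) :
    ∃ (z : V) (w1 : Γ.Walk u z) (w2 : Γ.Walk z z) (w3 : Γ.Walk z v),
      w = w1.append (w2.append w3) ∧ 0 < w2.length := by
  classical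
  induction w with
  | nil => exact absurd (by simp) h
  | @cons a b c hab p ih =>
    by_cases ha : a ∈ p.support
    · refine ⟨a, Walk.nil, Walk.cons hab (p.takeUntil a ha), p.dropUntil a ha, ?_, ?_⟩
      · rw [Walk.nil_append, Walk.cons_append, Walk.take_spec]
      · simp
    · have h1 : ¬ p.support.Nodup := by
        intro h2
        apply h
        rw [Walk.support_cons, List.nodup_cons]
        exact ⟨ha, h2⟩
      obtain ⟨z, w1, w2, w3, h3, h4⟩ := ih h1
      exact ⟨z, Walk.cons hab w1, w2, w3, by rw [Walk.cons_append, ← h3], h4⟩

theorem short_aux {V M : Type} [AddCommGroup M] {Γ : SimpleGraph V} (κ : V → V → M) :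
    ∀ (n : ℕ) (x : V) (w : Γ.Walk x x), w.length ≤ n → cls κ w ≠ 0 →
      ∃ C, EC Γ κ C ∧ C ⊆ eds w := by
  intro n
  induction n with
  | zero =>
    intro x w hw hc
    have h1 : w = Walk.nil := by
      cases w with
      | nil => rfl
      | cons h p => simp at hw
    rw [h1] at hc
    exact absurd rfl hc
  | succ n ih =>
    intro x w hw hc
    by_cases hd : w.support.tail.Nodup
    · exact ⟨eds w, ⟨x, w, ⟨hd, hc⟩, rfl⟩, subset_rfl⟩
    · cases w with
      | nil => exact absurd (by simp) hd
      | @cons _ b _ h p =>
        have h1 : ¬ p.support.Nodup := by simpa using hd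
        obtain ⟨z, p1, p2, p3, h2, h3⟩ := exists_split p h1
        have hlen : p.length = p1.length + (p2.length + p3.length) := by
          rw [h2]
          simp
        have hp : (Walk.cons h p).length = p.length + 1 := rfl
        have hcls : cls κ (Walk.cons h p) = cls κ ((Walk.cons h p1).append p3) + cls κ p2 := by
          rw [h2]
          simp only [cls_cons, cls_append, Walk.cons_append]
          abel
        have he1 : eds p2 ⊆ eds (Walk.cons h p) := by
          rw [h2]
          intro e he
          rw [mem_eds_cons, eds_append, eds_append]
          exact Or.inr (Or.inr (Or.inl he))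
        have he2 : eds ((Walk.cons h p1).append p3) ⊆ eds (Walk.cons h p) := by
          rw [h2]
          intro e he
          rw [Walk.cons_append, mem_eds_cons, eds_append] at he
          rw [mem_eds_cons, eds_append, eds_append]
          rcases he with he | he | he
          · exact Or.inl he
          · exact Or.inr (Or.inl he)
          · exact Or.inr (Or.inr (Or.inr he))
        by_cases h0 : cls κ p2 = 0
        · have h4 : cls κ ((Walk.cons h p1).append p3) ≠ 0 := by
            intro h5
            apply hc
            rw [hcls, h5, h0, add_zero]
          have h5 : ((Walk.cons h p1).append p3).length ≤ n := by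
            rw [Walk.length_append]
            have h6 : (Walk.cons h p1).length = p1.length + 1 := rfl
            omega
          obtain ⟨C, hC, hC'⟩ := ih x _ h5 h4
          exact ⟨C, hC, hC'.trans he2⟩
        · have h5 : p2.length ≤ n := by omega
          obtain ⟨C, hC, hC'⟩ := ih z p2 h5 h0
          exact ⟨C, hC, hC'.trans he1⟩

end ShortAux

/-- every closed walk with class `≠ 0` contains an essential cycle -/
theorem tShort : S_Short := by
  intro V M _ Γ κ x w hw
  exact ShortAux.short_aux κ w.length x w le_rfl hw

end Pool.Agent.MPe54d61.TC
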