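import Pool.Agent.Lib.MP_e54d61_gt.TC.SpecH

/-!
# MP_e54d61_gt, torus case: exactly two sign changes at every vertex
-/

set_option autoImplicit false

namespace Pool.Agent.MPe54d61.TC

namespace TwoAux

/-- the positive linear relation between the six edges at a vertex -/
theorem comb {N : ℕ} (w : Fin 3 → VN N → ℝ) (hw : ∀ k p, 0 < w k p) (f : VN N → P)
    (hf : Harm w f) (p : VN N) :
    ∃ c : Fin 6 → ℝ, (∀ i, 0 < c i) ∧ ∑ i, c i • out f p i = 0 := by
  refine ⟨![w 0 p, w 2 p, w 1 p, w 0 (p - ed N 0), w 2 (p - ed N 2), w 1 (p - ed N 1)], ?_, ?_⟩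
  · intro i
    fin_cases i <;> simp [hw]
  · have h := hf p
    simp only [dv, Fin.sum_univ_three] at h
    simp only [out, Fin.sum_univ_six]
    simp only [Matrix.cons_val]
    rw [← h]
    simp only [smul_neg]
    abel

/-- the relation gives a positive value -/
theorem pos_of_comb {v : Fin 6 → P} {c : Fin 6 → ℝ} (hc : ∀ i, 0 < c i)
    (h0 : ∑ i, c i • v i = 0) (l : P →ₗ[ℝ] ℝ) (j : Fin 6) (hj : l (v j) < 0) :
    ∃ i, 0 < l (v i) := by
  by_contra hcon
  push Not at hcon
  have h1 : ∑ i, c i * l (v i) = 0 := by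
    have := congrArg l h0
    rw [map_sum, map_zero] at this
    simpa only [map_smul, smul_eq_mul] using this
  have h2 : ∑ i, c i * l (v i) < ∑ _i : Fin 6, (0 : ℝ) := by
    apply Finset.sum_lt_sum
    · intro i _
      exact mul_nonpos_of_nonneg_of_nonpos (hc i).le (hcon i)
    · exact ⟨j, Finset.mem_univ _, mul_neg_of_pos_of_neg (hc j) hj⟩
  rw [h1, Finset.sum_const_zero] at h2
  exact lt_irrefl _ h2

/-- the relation gives a negative value -/
theorem neg_of_comb {v : Fin 6 → P} {c : Fin 6 → ℝ} (hc : ∀ i, 0 < c i)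
    (h0 : ∑ i, c i • v i = 0) (l : P →ₗ[ℝ] ℝ) (j : Fin 6) (hj : 0 < l (v j)) :
    ∃ i, l (v i) < 0 := by
  obtain ⟨i, hi⟩ := pos_of_comb hc h0 (-l) j (by rw [LinearMap.neg_apply]; linarith)
  refine ⟨i, ?_⟩
  rw [LinearMap.neg_apply] at hi
  linarith

theorem out_ne {N : ℕ} (f : VN N → P) (l : P →ₗ[ℝ] ℝ) (hl : ∀ k p, l (XX f k p) ≠ 0)
    (p : VN N) (i : Fin 6) : l (out f p i) ≠ 0 := by
  fin_cases i <;> simp [out, hl]

/-- the sign changes, in terms of booleans -/
theorem card_eq (a : Fin 6 → ℝ) (ha : ∀ i, a i ≠ 0) :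
    (Finset.univ.filter fun i : Fin 6 => a i * a (i + 1) < 0).card =
      (Finset.univ.filter fun i : Fin 6 => decide (0 < a i) ≠ decide (0 < a (i + 1))).card := by
  congr 1
  ext i
  simp only [Finset.mem_filter, Finset.mem_univ, true_and]
  rcases lt_or_gt_of_ne (ha i) with h1 | h1 <;> rcases lt_or_gt_of_ne (ha (i + 1)) with h2 | h2
  · simp only [not_lt.2 h1.le, not_lt.2 h2.le, decide_false, ne_eq, not_true_eq_false, iff_false,
      not_lt]
    exact (mul_pos_of_neg_of_neg h1 h2).le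
  · simp only [not_lt.2 h1.le, h2, decide_false, decide_true, ne_eq]
    simp only [Bool.false_eq_true, not_false_eq_true, iff_true]
    exact mul_neg_of_neg_of_pos h1 h2
  · simp only [not_lt.2 h2.le, h1, decide_false, decide_true, ne_eq]
    simp only [Bool.true_eq_false, not_false_eq_true, iff_true]
    exact mul_neg_of_pos_of_neg h1 h2
  · simp only [h1, h2, decide_true, ne_eq, not_true_eq_false, iff_false, not_lt]
    exact (mul_pos h1 h2).le

theorem bool_two : ∀ s : Fin 6 → Bool, (∃ i, s i = true) → (∃ i, s i = false) →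
    2 ≤ (Finset.univ.filter fun i : Fin 6 => s i ≠ s (i + 1)).card := by
  decide

end TwoAux

open TwoAux in
theorem tTwo (hCount : S_Count) : S_Two := by
  intro N hN w hw f hf l hl
  have hge : ∀ p : VN N, 2 ≤
      (Finset.univ.filter fun i : Fin 6 => l (out f p i) * l (out f p (i + 1)) < 0).card := by
    intro p
    obtain ⟨c, hc, h0⟩ := comb w hw f hf p
    rw [card_eq (fun i => l (out f p i)) (out_ne f l hl p)]
    have key : (∃ i, 0 < l (out f p i)) ∧ ∃ i, l (out f p i) < 0 := by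
      rcases lt_or_gt_of_ne (out_ne f l hl p 0) with h | h
      · exact ⟨pos_of_comb hc h0 l 0 h, 0, h⟩
      · exact ⟨⟨0, h⟩, neg_of_comb hc h0 l 0 h⟩
    obtain ⟨⟨i, hi⟩, j, hj⟩ := key
    exact bool_two (fun i => decide (0 < l (out f p i))) ⟨i, by simpa using hi⟩
      ⟨j, by simpa using hj.le⟩
  have hsum := hCount N hN f l hl
  have h := (Finset.sum_eq_sum_iff_of_le (fun p _ => hge p)).1 hsum.symm
  intro p
  exact (h p (Finset.mem_univ p)).symm

end Pool.Agent.MPe54d61.TC
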