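import Pool.Agent.Lib.MP_e54d61_gt.TC.SpecH
import Pool.Agent.Lib.MP_e54d61_gt.TC.Two

/-!
# MP_e54d61_gt, torus case: harmonic positions without degenerate triangles are positive
-/

set_option autoImplicit false

namespace Pool.Agent.MPe54d61.TC

open Topology MatrixGroups

namespace SignAux

/-- the linear form with given coefficients -/
noncomputable def lin (a b : ℝ) : P →ₗ[ℝ] ℝ := a • LinearMap.fst ℝ ℝ ℝ + b • LinearMap.snd ℝ ℝ ℝ

theorem lin_apply (a b : ℝ) (u : P) : lin a b u = a * u.1 + b * u.2 := by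
  simp [lin]

theorem ev_lin (a b : ℝ) : Filter.Tendsto (fun e : ℝ => a + e * b) (𝓝[>] 0) (𝓝 a) := by
  have h : Continuous fun e : ℝ => a + e * b := by fun_prop
  have h2 := h.tendsto 0
  simp only [zero_mul, add_zero] at h2
  exact h2.mono_left nhdsWithin_le_nhds

theorem ev_neg {a : ℝ} (b : ℝ) (ha : a < 0) : ∀ᶠ e : ℝ in 𝓝[>] 0, a + e * b < 0 :=
  (ev_lin a b).eventually (gt_mem_nhds ha)

theorem ev_pos {a : ℝ} (b : ℝ) (ha : 0 < a) : ∀ᶠ e : ℝ in 𝓝[>] 0, 0 < a + e * b :=
  (ev_lin a b).eventually (lt_mem_nhds ha)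

theorem ev_ne {a b : ℝ} (h : ¬(a = 0 ∧ b = 0)) : ∀ᶠ e : ℝ in 𝓝[>] 0, a + e * b ≠ 0 := by
  by_cases ha : a = 0
  · have hb : b ≠ 0 := fun hb => h ⟨ha, hb⟩
    filter_upwards [self_mem_nhdsWithin] with e he
    rw [ha, zero_add]
    exact mul_ne_zero (ne_of_gt he) hb
  · rcases lt_or_gt_of_ne ha with h1 | h1
    · filter_upwards [ev_neg b h1] with e he using he.ne
    · filter_upwards [ev_pos b h1] with e he using he.ne'

theorem bool_four : ∀ (i : Fin 6) (s : Fin 6 → Bool) (k : Fin 6), s i = false →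
    s (i + 2) = false → s (i + 1) = true → s k = true → k ≠ i + 1 →
    4 ≤ (Finset.univ.filter fun i : Fin 6 => s i ≠ s (i + 1)).card := by
  decide

/-- consecutive angles at a vertex have the same orientation -/
theorem same (hTwo : S_Two) {N : ℕ} (hN : NeZero N) (w : Fin 3 → VN N → ℝ)
    (hw : ∀ k p, 0 < w k p) (f : VN N → P) (hf : Harm w f) (hX : ∀ k q, XX f k q ≠ 0)
    (p : VN N) (i : Fin 6)
    (hneg : dt (out f p i) (out f p (i + 1)) * dt (out f p (i + 1)) (out f p (i + 2)) < 0) :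
    False := by
  set x := out f p i with hx
  set y := out f p (i + 1) with hy
  set z := out f p (i + 2) with hz
  obtain ⟨c, hc, h0⟩ := TwoAux.comb w hw f hf p
  set σ : ℝ := -dt y z with hσ
  have hyz : dt y z ≠ 0 := by
    intro h; rw [h, mul_zero] at hneg; exact lt_irrefl _ hneg
  have hyne : ¬(y.1 = 0 ∧ y.2 = 0) := by
    rintro ⟨h1, h2⟩
    apply hyz
    simp [dt, h1, h2]
  have hym : 0 < y.1 * y.1 + y.2 * y.2 := by
    rcases (not_and_or.1 hyne) with h | h
    · have := mul_self_pos.2 h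
      have := mul_self_nonneg y.2
      linarith
    · have := mul_self_pos.2 h
      have := mul_self_nonneg y.1
      linarith
  let L0 : P → ℝ := fun u => -σ * y.2 * u.1 + σ * y.1 * u.2
  let M : P → ℝ := fun u => y.1 * u.1 + y.2 * u.2
  have hL0 : ∀ u, L0 u = σ * dt y u := by
    intro u; simp only [L0, dt]; ring
  have hL0x : L0 x < 0 := by
    rw [hL0, hσ, dt_swap x y]
    linarith
  have hL0z : L0 z < 0 := by
    rw [hL0, hσ]
    have := mul_self_pos.2 hyz
    linarith
  have hL0y : L0 y = 0 := by rw [hL0, dt_self, mul_zero]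
  obtain ⟨k, hk⟩ : ∃ k, 0 < L0 (out f p k) := by
    obtain ⟨k, hk⟩ := TwoAux.pos_of_comb hc h0 (lin (-σ * y.2) (σ * y.1)) i (by
      rw [lin_apply]; exact hL0x)
    rw [lin_apply] at hk
    exact ⟨k, hk⟩
  have hki : k ≠ i + 1 := by
    rintro rfl
    rw [← hy, hL0y] at hk
    exact lt_irrefl _ hk
  have hzero : ∀ u : P, u ≠ 0 → ¬(L0 u = 0 ∧ M u = 0) := by
    rintro u hu ⟨h1, h2⟩
    rw [hL0] at h1
    have hσ0 : σ ≠ 0 := neg_ne_zero.2 hyz
    have h3 : dt y u = 0 := (mul_eq_zero.1 h1).resolve_left hσ0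
    simp only [dt] at h3
    simp only [M] at h2
    have e1 : (y.1 * y.1 + y.2 * y.2) * u.1 = 0 := by
      linear_combination y.1 * h2 - y.2 * h3
    have e2 : (y.1 * y.1 + y.2 * y.2) * u.2 = 0 := by
      linear_combination y.2 * h2 + y.1 * h3
    apply hu
    ext
    · exact (mul_eq_zero.1 e1).resolve_left hym.ne'
    · exact (mul_eq_zero.1 e2).resolve_left hym.ne'
  have hev : ∀ᶠ e : ℝ in 𝓝[>] 0, (∀ k q, L0 (XX f k q) + e * M (XX f k q) ≠ 0) ∧
      L0 x + e * M x < 0 ∧ L0 z + e * M z < 0 ∧ 0 < L0 (out f p k) + e * M (out f p k) ∧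
      0 < L0 y + e * M y := by
    have h1 : ∀ᶠ e : ℝ in 𝓝[>] 0, ∀ k q, L0 (XX f k q) + e * M (XX f k q) ≠ 0 := by
      rw [Filter.eventually_all]
      intro k
      rw [Filter.eventually_all]
      intro q
      exact ev_ne (hzero _ (hX k q))
    filter_upwards [h1, ev_neg (M x) hL0x, ev_neg (M z) hL0z, ev_pos (M (out f p k)) hk,
      self_mem_nhdsWithin] with e g1 g2 g3 g4 g5
    refine ⟨g1, g2, g3, g4, ?_⟩
    rw [hL0y, zero_add]
    exact mul_pos g5 hym
  obtain ⟨e, g1, g2, g3, g4, g5⟩ := hev.exists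
  let l : P →ₗ[ℝ] ℝ := lin (-σ * y.2 + e * y.1) (σ * y.1 + e * y.2)
  have hlu : ∀ u, l u = L0 u + e * M u := by
    intro u
    simp only [l, L0, M, lin_apply]
    ring
  have hl : ∀ k q, l (XX f k q) ≠ 0 := by
    intro k q; rw [hlu]; exact g1 k q
  have hcard := hTwo N hN w hw f hf l hl p
  rw [TwoAux.card_eq (fun j => l (out f p j)) (TwoAux.out_ne f l hl p)] at hcard
  have h4 := bool_four i (fun j => decide (0 < l (out f p j))) k
    (by rw [decide_eq_false_iff_not, hlu]; exact not_lt.2 g2.le)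
    (by rw [decide_eq_false_iff_not, hlu]; exact not_lt.2 g3.le)
    (by rw [decide_eq_true_eq, hlu]; exact g5)
    (by rw [decide_eq_true_eq, hlu]; exact g4) hki
  rw [hcard] at h4
  omega

variable {N : ℕ}

theorem dt_neg_right (a b : P) : dt a (-b) = dt b a := by
  simp only [dt, Prod.fst_neg, Prod.snd_neg]; ring

theorem dt_neg_neg (a b : P) : dt (-a) (-b) = dt a b := by
  simp only [dt, Prod.fst_neg, Prod.snd_neg]; ring

theorem dt_neg_left (a b : P) : dt (-a) b = dt b a := by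
  simp only [dt, Prod.fst_neg, Prod.snd_neg]; ring

theorem o0 (f : VN N → P) (p : VN N) : dt (out f p 0) (out f p 1) = low f p := rfl

theorem o1 (f : VN N → P) (p : VN N) : dt (out f p 1) (out f p 2) = upp f p := rfl

theorem o2 (f : VN N → P) (p : VN N) : dt (out f p 2) (out f p 3) = low f (p - ed N 0) := by
  have h : dt (out f p 2) (out f p 3) = dt (XX f 1 p) (-XX f 0 (p - ed N 0)) := rfl
  rw [h, dt_neg_right, low_eq, sub_add_cancel]

theorem o4 (f : VN N → P) (p : VN N) : dt (out f p 4) (out f p 5) = low f (p - ed N 2) := by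
  have h : dt (out f p 4) (out f p 5) = dt (-XX f 2 (p - ed N 2)) (-XX f 1 (p - ed N 1)) := rfl
  have h2 : p - ed N 2 + ed N 0 = p - ed N 1 := by rw [ed_two]; abel
  rw [h, dt_neg_neg, low_eq, XX_low, h2, dt_add_left, dt_self, add_zero]

theorem o5 (f : VN N → P) (p : VN N) : dt (out f p 5) (out f p 0) = upp f (p - ed N 1) := by
  have h : dt (out f p 5) (out f p 0) = dt (-XX f 1 (p - ed N 1)) (XX f 0 p) := rfl
  rw [h, dt_neg_left, upp_eq, sub_add_cancel]

/-- a property invariant under both steps holds everywhere or nowhere -/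
theorem all_iff (Q : VN N → Prop) (h0 : ∀ p, Q p ↔ Q (p - ed N 0))
    (h1 : ∀ p, Q p ↔ Q (p - ed N 1)) [NeZero N] (p : VN N) : Q p ↔ Q 0 := by
  have e0 : ed N 0 = ((1 : ZMod N), (0 : ZMod N)) := by simp [ed, zc, ei]
  have e1 : ed N 1 = ((0 : ZMod N), (1 : ZMod N)) := by simp [ed, zc, ei]
  have ha : ∀ (n : ℕ) (b : ZMod N), Q ((n : ZMod N), b) ↔ Q (0, b) := by
    intro n b
    induction n with
    | zero => simp
    | succ n ih =>
      rw [h0, ← ih]
      have : (((n + 1 : ℕ) : ZMod N), b) - ed N 0 = ((n : ZMod N), b) := by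
        rw [e0]; ext <;> simp
      rw [this]
  have hb : ∀ n : ℕ, Q (0, (n : ZMod N)) ↔ Q (0, 0) := by
    intro n
    induction n with
    | zero => simp
    | succ n ih =>
      rw [h1, ← ih]
      have : ((0 : ZMod N), ((n + 1 : ℕ) : ZMod N)) - ed N 1 = ((0 : ZMod N), (n : ZMod N)) := by
        rw [e1]; ext <;> simp
      rw [this]
  obtain ⟨a, b⟩ := p
  have h3 := ha a.val b
  have h4 := hb b.val
  rw [ZMod.natCast_zmod_val] at h3 h4
  rw [h3, h4]
  rfl

theorem pos_iff {a b : ℝ} (h : 0 < a * b) : 0 < a ↔ 0 < b :=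
  ⟨fun ha => (pos_iff_pos_of_mul_pos h).1 ha, fun hb => (pos_iff_pos_of_mul_pos h).2 hb⟩

end SignAux

open SignAux in
theorem tSign (hTwo : S_Two) (hArea : S_Area) : S_Sign := by
  intro N hN w hw f hf hlow hupp
  have hX : ∀ k q, XX f k q ≠ 0 := by
    intro k q h
    fin_cases k
    · apply hlow q
      rw [low]
      have : XX f 0 q = 0 := h
      rw [this]; simp [dt]
    · apply hupp q
      rw [upp]
      have : XX f 1 q = 0 := h
      rw [this]; simp [dt]
    · apply hlow q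
      rw [low]
      have : XX f 2 q = 0 := h
      rw [this]; simp [dt]
  have hs : ∀ (p : VN N) (i : Fin 6),
      ¬ dt (out f p i) (out f p (i + 1)) * dt (out f p (i + 1)) (out f p (i + 2)) < 0 :=
    fun p i h => same hTwo hN w hw f hf hX p i h
  have k0 : ∀ p, 0 < low f p ↔ 0 < upp f p := by
    intro p
    have h : ¬ dt (out f p 0) (out f p 1) * dt (out f p 1) (out f p 2) < 0 := hs p 0
    rw [o0, o1] at h
    exact pos_iff (lt_of_le_of_ne (not_lt.1 h) (mul_ne_zero (hlow _) (hupp _)).symm)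
  have k1 : ∀ p, 0 < upp f p ↔ 0 < low f (p - ed N 0) := by
    intro p
    have h : ¬ dt (out f p 1) (out f p 2) * dt (out f p 2) (out f p 3) < 0 := hs p 1
    rw [o1, o2] at h
    exact pos_iff (lt_of_le_of_ne (not_lt.1 h) (mul_ne_zero (hupp _) (hlow _)).symm)
  have k5 : ∀ p, 0 < upp f (p - ed N 1) ↔ 0 < low f p := by
    intro p
    have h : ¬ dt (out f p 5) (out f p 0) * dt (out f p 0) (out f p 1) < 0 := hs p 5
    rw [o5, o0] at h
    exact pos_iff (lt_of_le_of_ne (not_lt.1 h) (mul_ne_zero (hupp _) (hlow _)).symm)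
  have hall : ∀ p, 0 < low f p ↔ 0 < low f 0 := by
    intro p
    exact all_iff (fun p => 0 < low f p) (fun p => (k0 p).trans (k1 p))
      (fun p => (k5 p).symm.trans (k0 (p - ed N 1)).symm) p
  by_cases h : 0 < low f 0
  · exact ⟨fun p => (hall p).2 h, fun p => (k0 p).1 ((hall p).2 h)⟩
  · exfalso
    have hsum := hArea N hN f
    have hle : ∑ p, (low f p + upp f p) ≤ 0 := by
      apply Finset.sum_nonpos
      intro p _
      have h1 : low f p ≤ 0 := not_lt.1 fun h' => h ((hall p).1 h')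
      have h2 : upp f p ≤ 0 := not_lt.1 fun h' => h ((hall p).1 ((k0 p).2 h'))
      linarith
    linarith

end Pool.Agent.MPe54d61.TC
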