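import Pool.Agent.Lib.MP_e54d61_gt.TC.SpecS

/-!
# MP_e54d61_gt, torus case, part S: six values around a vertex
-/

set_option autoImplicit false

namespace Pool.Agent.MPe54d61.TC

theorem tSix : S_Six := by
  intro F j l h
  have h0 := h 0
  have h1 := h 1
  have h2 := h 2
  have h3 := h 3
  have h4 := h 4
  have h5 := h 5
  have e0 : (0 : Fin 6) + 1 = 1 := rfl
  have e1 : (1 : Fin 6) + 1 = 2 := rfl
  have e2 : (2 : Fin 6) + 1 = 3 := rfl
  have e3 : (3 : Fin 6) + 1 = 4 := rfl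
  have e4 : (4 : Fin 6) + 1 = 5 := rfl
  have e5 : (5 : Fin 6) + 1 = 0 := rfl
  rw [e0] at h0
  rw [e1] at h1
  rw [e2] at h2
  rw [e3] at h3
  rw [e4] at h4
  rw [e5] at h5
  clear h
  suffices hs : (∀ i, F i = F 0 ∨ F i = F 0 + 1) ∨ ∀ i, F i = F 0 ∨ F i = F 0 - 1 by
    rcases hs with hs | hs
    · exact ⟨F 0, hs⟩
    · refine ⟨F 0 - 1, fun i => ?_⟩
      have := hs i
      omega
  have key : ∀ G : ℤ, (∀ i, F i = F 0 ∨ F i = G) ↔
      (F 1 = F 0 ∨ F 1 = G) ∧ (F 2 = F 0 ∨ F 2 = G) ∧ (F 3 = F 0 ∨ F 3 = G) ∧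
      (F 4 = F 0 ∨ F 4 = G) ∧ (F 5 = F 0 ∨ F 5 = G) := by
    intro G
    constructor
    · intro h
      exact ⟨h 1, h 2, h 3, h 4, h 5⟩
    · rintro ⟨a1, a2, a3, a4, a5⟩ i
      fin_cases i
      · exact Or.inl rfl
      · exact a1
      · exact a2
      · exact a3
      · exact a4
      · exact a5
  rw [key, key]
  fin_cases j <;> fin_cases l <;> simp at h0 h1 h2 h3 h4 h5 <;> omega

end Pool.Agent.MPe54d61.TC
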