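import Pool.Agent.Lib.MP_e54d61_gt.TC.SpecE

/-!
# MP_e54d61_gt, torus case: SmE (the sets of equal or adjacent vertices are small)
-/

set_option autoImplicit false

namespace Pool.Agent.MPe54d61.TC

open SimpleGraph

theorem tSmE (hGrid : S_Grid) (hSubB : S_SubB) (hSubG : S_SubG) (hLnkE : S_LnkE)
    (hLnkD : S_LnkD) (hLnkR : S_LnkR) (hRRs : S_RRs) (hChB : S_ChB) (hLkNR : S_LkNR) : S_SmE := by
  intro N1 hN1 x y hxy w hw
  obtain ⟨N, A, B, C, hN, hA, hB, hC, hbic, hxA, hyB, hwC⟩ := hw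
  have h3 : 3 ≤ N := hN1.1.trans hN
  have key : ∃ k ≥ 1, ∃ m ≤ 6,
      Lk (GN (k * N)) (kN (k * N)) m (sub N k A) (sub N k B) := by
    rcases hxy with rfl | ⟨hne, hd | ⟨h1, h2 | h2⟩⟩
    · exact hLnkE x N h3 A B hA hB hxA hyB
    · exact hLnkD x y hd N h3 A B hA hB hxA hyB
    · exact hLnkR x y h1 h2 N h3 A B hA hB hxA hyB
    · obtain ⟨k, hk, m, hm, hl⟩ := hLnkR y x h1.symm h2 N h3 B A hB hA hyB hxA
      exact ⟨k, hk, m, hm, (hRRs _ _ _ _ _).2 m _ _ hl⟩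
  obtain ⟨k, hk, m, hm, hl⟩ := key
  have hNk : N ≤ k * N := Nat.le_mul_of_pos_left N hk
  have hkN : 3 ≤ k * N := h3.trans hNk
  obtain ⟨m', hm', hl'⟩ := hChB _ _ _ _ _ (hGrid (k * N) hkN).1 m _ _ (sub N k C) hl
    ((hSubB N k h3 hk C C C).1 hC) ((hSubB N k h3 hk A B C).2 hbic)
  obtain ⟨p, hp⟩ := hLkNR N1 hN1 (k * N) (hN.trans hNk) m' _ _ hl' x w
    (Disjoint.mono_right (hSubG N k h3 hk A) hxA) (Disjoint.mono_right (hSubG N k h3 hk C) hwC)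
  exact ⟨p, by omega⟩

end Pool.Agent.MPe54d61.TC
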