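import Pool.Agent.Lib.MP_e54d61_gt.TC.SpecA

/-!
# MP_e54d61_gt, torus case: small homeomorphisms are products of two time-one maps
-/

set_option autoImplicit false

namespace Pool.Agent.MPe54d61.TC

open Topology MatrixGroups

theorem tSmF (hBxF : S_BxF) : S_SmF := by
  rintro s ⟨z0, hz⟩
  refine hBxF z0.1 z0.2 s fun z hn => hz z ?_
  by_contra h
  push Not at h
  rw [Prod.dist_eq, max_lt_iff, dist_eq_norm, dist_eq_norm] at h
  exact hn ⟨h.1.le.trans (by norm_num), h.2.le.trans (by norm_num)⟩

end Pool.Agent.MPe54d61.TC
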