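import Pool.Agent.Lib.MP_e54d61_gt.TC.SpecB

/-!
# MP_e54d61_gt, torus case: splitting a circle at two vertices (helper26)
-/

set_option autoImplicit false

namespace Pool.Agent.MPe54d61.TC

open SimpleGraph

namespace SplitPAux

variable {V M : Type} [AddCommGroup M] {Γ : SimpleGraph V} {κ : V → V → M}

/-- The first part of an essential walk in two parts with different ends is a path. -/
theorem isPath_left {x y : V} (p : Γ.Walk x y) (q : Γ.Walk y x) (hxy : x ≠ y)
    (h : Ess κ (p.append q)) : p.IsPath := by
  rw [ess_append_iff] at h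
  obtain ⟨h1, -, h3, -⟩ := h
  have h4 : x ∈ q.support.tail := by
    cases q with
    | nil => exact absurd rfl hxy
    | cons hab q' =>
      rw [Walk.support_cons, List.tail_cons]
      exact q'.end_mem_support
  rw [Walk.isPath_def, ← Walk.cons_tail_support, List.nodup_cons]
  exact ⟨fun h5 => h3 h5 h4, h1⟩

/-- The circle in four parts. -/
theorem rot {x y u v : V} (p1 : Γ.Walk x u) (p2 : Γ.Walk u v) (p3 : Γ.Walk v y) (q : Γ.Walk y x)
    (h : Ess κ ((p1.append (p2.append p3)).append q)) :
    Ess κ (p2.append (p3.append (q.append p1))) := by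
  rw [← Walk.append_assoc, ← Walk.append_assoc] at h
  have h1 := ess_comm h
  rw [← Walk.append_assoc, ← Walk.append_assoc] at h1
  exact h1

theorem sets {x y u v : V} (p1 : Γ.Walk x u) (p2 : Γ.Walk u v) (p3 : Γ.Walk v y) (q : Γ.Walk y x) :
    eds (p2.append (p3.append (q.append p1))) = eds ((p1.append (p2.append p3)).append q) := by
  simp only [eds_append]
  ext e
  simp only [Set.mem_union]
  tauto

end SplitPAux

open SplitPAux in
theorem tSplitP (hEssRev : S_EssRev) : S_SplitP := by
  classical
  intro V M _ Γ κ hκ x y p q hxy h u hu v hv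
  have hp : p.IsPath := isPath_left p q hxy h
  -- a decomposition of `p` in one of the two orders
  have key : (∃ (p1 : Γ.Walk x v) (p2 : Γ.Walk v u) (p3 : Γ.Walk u y),
      p = p1.append (p2.append p3)) ∨ (∃ (p1 : Γ.Walk x u) (p2 : Γ.Walk u v) (p3 : Γ.Walk v y),
      p = p1.append (p2.append p3)) := by
    have h1 := p.take_spec hu
    have hv' : v ∈ (p.takeUntil u hu).support ∨ v ∈ (p.dropUntil u hu).support := by
      rw [← Walk.mem_support_append_iff, h1]
      exact hv
    rcases hv' with h2 | h2
    · left
      refine ⟨(p.takeUntil u hu).takeUntil v h2, (p.takeUntil u hu).dropUntil v h2,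
        p.dropUntil u hu, ?_⟩
      rw [Walk.append_assoc, Walk.take_spec, h1]
    · right
      refine ⟨p.takeUntil u hu, (p.dropUntil u hu).takeUntil v h2,
        (p.dropUntil u hu).dropUntil v h2, ?_⟩
      rw [Walk.take_spec, h1]
  rcases key with ⟨p1, p2, p3, hp'⟩ | ⟨p1, p2, p3, hp'⟩
  · subst hp'
    refine ⟨p2, p3.append (q.append p1), rot p1 p2 p3 q h, sets p1 p2 p3 q, ?_, ?_, ?_⟩
    · intro e he
      simp only [eds_append, Set.mem_union]
      exact Or.inr (Or.inl he)
    · intro z hz
      rw [Walk.mem_support_append_iff, Walk.mem_support_append_iff]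
      exact Or.inr (Or.inl hz)
    · exact hp.of_append_right.of_append_left
  · subst hp'
    refine ⟨p2.reverse, (p3.append (q.append p1)).reverse, ?_, ?_, ?_, ?_, ?_⟩
    · rw [← Walk.reverse_append]
      exact hEssRev V M _ Γ κ hκ _ _ (ess_comm (rot p1 p2 p3 q h))
    · rw [← Walk.reverse_append, eds_reverse, eds_append, Set.union_comm, ← eds_append]
      exact sets p1 p2 p3 q
    · intro e he
      rw [eds_reverse] at he
      simp only [eds_append, Set.mem_union]
      exact Or.inr (Or.inl he)
    · intro z hz
      rw [Walk.support_reverse, List.mem_reverse] at hz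
      rw [Walk.mem_support_append_iff, Walk.mem_support_append_iff]
      exact Or.inr (Or.inl hz)
    · exact (hp.of_append_right.of_append_left).reverse

end Pool.Agent.MPe54d61.TC
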