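import Pool.Agent.Lib.MP_e54d61_gt.TC.SpecH

/-!
# MP_e54d61_gt, torus case: the support of a move (`S_Star`)
-/

set_option autoImplicit false

namespace Pool.Agent.MPe54d61.TC

namespace StarAux

theorem dist_lt {N : ℕ} [NeZero N] (x : ℝ) (a b : ℤ) (hab : (b : ZMod N) = (a : ZMod N))
    (h : |(N : ℝ) * x - a| < 1) : dist (x : Ci) ((((b : ℝ) + 0) / N : ℝ) : Ci) < 1 / N := by
  have hN : (0 : ℝ) < N := Nat.cast_pos.2 (NeZero.pos N)
  obtain ⟨k, hk⟩ := (ZMod.intCast_eq_intCast_iff_dvd_sub b a N).1 hab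
  have hk' : (a : ℝ) = b + N * k := by
    have : a = b + N * k := by linarith
    rw [this]
    push_cast
    ring
  rw [dist_eq_norm, ← AddCircle.coe_sub]
  have h1 : ‖((x - ((b : ℝ) + 0) / N : ℝ) : Ci)‖ =
      |(x - ((b : ℝ) + 0) / N) - round (x - ((b : ℝ) + 0) / N)| := UnitAddCircle.norm_eq
  rw [h1]
  refine lt_of_le_of_lt (round_le _ k) ?_
  have h2 : x - ((b : ℝ) + 0) / N - k = (N * x - a) / N := by
    rw [hk']
    field_simp
    ring
  rw [h2, abs_div, abs_of_pos hN]
  exact div_lt_div_of_pos_right h hN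

theorem lam_lt {s t : ℝ} (h : Lam s t ≠ 0) : |s| < 1 ∧ |t| < 1 := by
  unfold Lam at h
  have h1 : 0 < 1 - max (max |s| |t|) |s - t| := by
    by_contra h2
    exact h (max_eq_left (not_lt.1 h2))
  have h2 : max (max |s| |t|) |s - t| < 1 := by linarith
  have h3 := max_lt_iff.1 h2
  exact max_lt_iff.1 h3.1

end StarAux

open StarAux in
theorem tStar : S_Star := by
  intro N _ f v D m m' h1 h2
  refine ⟨pr (pt N ((v.1.val : ℤ), (v.2.val : ℤ)) 0 0), fun z hz => ?_⟩
  obtain ⟨w, hw⟩ : ∃ w : P, pr w = z := by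
    obtain ⟨x, hx⟩ := QuotientAddGroup.mk_surjective z.1
    obtain ⟨y, hy⟩ := QuotientAddGroup.mk_surjective z.2
    exact ⟨(x, y), Prod.ext hx hy⟩
  have hP : PLm (Function.update f v (f v + D)) w = PLm f w := by
    unfold PLm
    congr 1
    apply finsum_congr
    intro a
    by_cases ha : zc N a = v
    · have h0 : Lam (N * w.1 - a.1) (N * w.2 - a.2) = 0 := by
        by_contra hne
        obtain ⟨h3, h4⟩ := lam_lt hne
        have h5 : (((v.1.val : ℕ) : ℤ) : ZMod N) = ((a.1 : ℤ) : ZMod N) := by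
          rw [← ha]
          simp [zc]
        have h6 : (((v.2.val : ℕ) : ℤ) : ZMod N) = ((a.2 : ℤ) : ZMod N) := by
          rw [← ha]
          simp [zc]
        have h7 := dist_lt w.1 a.1 _ h5 h3
        have h8 := dist_lt w.2 a.2 _ h6 h4
        rw [← hw] at hz
        refine absurd hz (not_le.2 ?_)
        rw [Prod.dist_eq]
        exact max_lt h7 h8
      rw [h0, zero_smul, zero_smul]
    · rw [Function.update_of_ne ha]
  have h9 : m' z = m z := by
    rw [← hw, ← h1, ← h2, hP]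
  change m⁻¹ (m' z) = z
  rw [h9]
  exact m.symm_apply_apply z

end Pool.Agent.MPe54d61.TC
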