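import Pool.Agent.Lib.MP_e54d61_gt.TC.SpecB

/-!
# MP_e54d61_gt, torus case, part B: one step of the chain
-/

set_option autoImplicit false

namespace Pool.Agent.MPe54d61.TC

open SimpleGraph

namespace StepAux

variable {V M : Type} [AddCommGroup M] {Γ : SimpleGraph V} {κ : V → V → M}

theorem emt {x y : V} (p : Γ.Walk x y) (h : ¬ p.Nil) : y ∈ p.support.tail :=
  Walk.end_mem_tail_support h

theorem sec {x y : V} (p : Γ.Walk x y) : p.support = x :: p.support.tail :=
  (Walk.cons_tail_support p).symm

theorem mem_supp_cases {x y t : V} (p : Γ.Walk x y) (h : t ∈ p.support) :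
    t = x ∨ t ∈ p.support.tail := by
  rw [sec p, List.mem_cons] at h
  exact h

theorem mem_of_tail {x y t : V} (p : Γ.Walk x y) (h : t ∈ p.support.tail) : t ∈ p.support :=
  List.mem_of_mem_tail h

/-- the first hit -/
theorem first_hit {x y : V} (r : Γ.Walk x y) (P : Set V) (hy : y ∈ P) : ¬ r.Nil →
    ∃ (z : V) (β : Γ.Walk x z) (ρ : Γ.Walk z y), r = β.append ρ ∧ ¬ β.Nil ∧ z ∈ P ∧
      ∀ t ∈ β.support, t ∈ P → t = x ∨ t = z := by
  induction r with
  | nil => intro h; exact absurd Walk.Nil.nil h
  | @cons a b c h r' ih =>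
    intro _
    by_cases hb : b ∈ P
    · refine ⟨b, Walk.cons h Walk.nil, r', rfl, Walk.not_nil_cons, hb, ?_⟩
      intro t ht _
      simpa using ht
    · have hr' : ¬ r'.Nil := by
        intro hn
        exact hb (hn.eq ▸ hy)
      obtain ⟨z, β, ρ, h1, h2, h3, h4⟩ := ih hy hr'
      refine ⟨z, Walk.cons h β, ρ, by rw [h1]; rfl, Walk.not_nil_cons, h3, ?_⟩
      intro t ht htP
      rw [Walk.support_cons, List.mem_cons] at ht
      rcases ht with ht | ht
      · exact Or.inl ht
      · rcases h4 t ht htP with h5 | h5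
        · subst h5
          exact absurd htP hb
        · exact Or.inr h5

theorem tail_mem_append {x y z t : V} (p : Γ.Walk x y) (q : Γ.Walk y z)
    (h : t ∈ (p.append q).support.tail) : t ∈ p.support.tail ∨ t ∈ q.support.tail := by
  rw [Walk.tail_support_append, List.mem_append] at h
  exact h

/-- The theta construction. -/
theorem theta (hκ : Anti κ) {x y z : V} (A B : Set (Sym2 V)) (p1 : Γ.Walk x z) (p2 : Γ.Walk z y)
    (q : Γ.Walk y x) (β : Γ.Walk x z) (n : ℕ)
    (hess : Ess κ ((p1.append p2).append q)) (h1 : ¬ p1.Nil) (h2 : ¬ p2.Nil) (hβ : β.support.Nodup)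
    (hβn : ¬ β.Nil) (hzx : z ≠ x)
    (hmeet : ∀ t ∈ β.support, (t ∈ (p1.append p2).support ∨ t ∈ q.support) → t = x ∨ t = z)
    (hA : eds (p1.append p2) ⊆ A) (hB : eds q ⊆ B) (hβB : eds β ⊆ B)
    (hn : (p1.append p2).length = n + 1) (hxB : x ∈ vts B) :
    ∃ (x' y' : V) (p' : Γ.Walk x' y') (q' : Γ.Walk y' x'), Ess κ (p'.append q') ∧ eds p' ⊆ A ∧
      eds q' ⊆ B ∧ p'.length ≤ n ∧ x' ∈ vts B ∧
      RR Γ κ (eds ((p1.append p2).append q)) (eds (p'.append q')) := by
  have hess' := hess
  rw [← Walk.append_assoc] at hess'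
  have e1 := (ess_append_iff p1 (p2.append q)).1 hess'
  obtain ⟨n1, n2, n3, n4⟩ := e1
  have e2 := ess_comm hess'
  rw [Walk.tail_support_append, List.nodup_append'] at n2
  obtain ⟨m1, m2, m3⟩ := n2
  -- x is the end point of p2.q
  have hp2q : ¬ (p2.append q).Nil := by
    intro h
    exact h2 (Walk.nil_append_iff.1 h).1
  have hxt : x ∈ (p2.append q).support.tail := emt (p2.append q) hp2q
  have hzt : z ∈ p1.support.tail := emt p1 h1
  have hx1 : x ∉ p1.support.tail := fun h => n3 h hxt
  have hz2 : z ∉ (p2.append q).support.tail := fun h => n3 hzt h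
  have hsub2 : ∀ t, t ∈ p2.support.tail → t ∈ (p2.append q).support.tail := by
    intro t ht
    rw [Walk.tail_support_append, List.mem_append]
    exact Or.inl ht
  have hsubq : ∀ t, t ∈ q.support.tail → t ∈ (p2.append q).support.tail := by
    intro t ht
    rw [Walk.tail_support_append, List.mem_append]
    exact Or.inr ht
  have hp1s : ∀ t, t ∈ p1.support → t ∈ (p1.append p2).support := by
    intro t ht
    rw [Walk.mem_support_append_iff]
    exact Or.inl ht
  have hp2s : ∀ t, t ∈ p2.support → t ∈ (p1.append p2).support := by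
    intro t ht
    rw [Walk.mem_support_append_iff]
    exact Or.inr ht
  have hβc : β.support = x :: β.support.tail := sec β
  have hxβ : x ∉ β.support.tail := by
    rw [hβc] at hβ
    exact (List.nodup_cons.1 hβ).1
  have hβt : β.support.tail.Nodup := hβ.tail
  have hlen : p1.length + p2.length = n + 1 := by rw [← hn, Walk.length_append]
  have hl1 : 0 < p1.length := Walk.not_nil_iff_lt_length.1 h1
  have hl2 : 0 < p2.length := Walk.not_nil_iff_lt_length.1 h2
  have hA1 : eds p1 ⊆ A := fun e he => hA (by rw [eds_append]; exact Or.inl he)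
  have hA2 : eds p2 ⊆ A := fun e he => hA (by rw [eds_append]; exact Or.inr he)
  by_cases hcl : cls κ p2 + cls κ q + cls κ β = 0
  · -- second curve: p1.β⁻¹
    have hcl2 : cls κ p1 + cls κ β.reverse ≠ 0 := by
      rw [cls_reverse hκ]
      intro h
      apply n4
      rw [cls_append]
      have h3 : cls κ p1 = cls κ β := by
        rw [← sub_eq_add_neg] at h
        exact sub_eq_zero.1 h
      rw [h3, add_comm]
      exact hcl
    have hβr : β.reverse.support.Nodup := by
      rw [Walk.support_reverse]
      exact List.nodup_reverse.2 hβ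
    have hβrc : β.reverse.support = z :: β.reverse.support.tail := sec _
    have hzβ : z ∉ β.reverse.support.tail := by
      rw [hβrc] at hβr
      exact (List.nodup_cons.1 hβr).1
    have hE : Ess κ (p1.append β.reverse) := by
      rw [ess_append_iff]
      refine ⟨n1, hβr.tail, ?_, hcl2⟩
      intro t ht ht'
      have h3 : t ∈ β.support := by
        have := mem_of_tail _ ht'
        rw [Walk.support_reverse, List.mem_reverse] at this
        exact this
      rcases hmeet t h3 (Or.inl (hp1s t (mem_of_tail _ ht))) with h4 | h4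
      · subst h4; exact hx1 ht
      · subst h4; exact hzβ ht'
    refine ⟨x, z, p1, β.reverse, hE, hA1, by rw [eds_reverse]; exact hβB, by omega, hxB, ?_⟩
    refine Or.inr (Or.inr (Or.inl ⟨x, z, p1, p2.append q, β.reverse, hess', hE, ?_, rfl, ?_⟩))
    · rw [Walk.append_assoc]
    · intro t ht ht'
      have h3 : t ∈ β.support := by
        rw [Walk.support_reverse, List.mem_reverse] at ht'
        exact ht'
      rw [Walk.mem_support_append_iff] at ht
      rcases ht with ht | ht
      · exact hmeet t h3 (Or.inl (hp2s t ht))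
      · exact hmeet t h3 (Or.inr ht)
  · -- first curve: p2.q.β
    have hE : Ess κ (p2.append (q.append β)) := by
      rw [ess_append_iff, Walk.tail_support_append, List.nodup_append']
      refine ⟨m1, ⟨m2, hβt, ?_⟩, ?_, ?_⟩
      · intro t ht ht'
        rcases hmeet t (mem_of_tail _ ht') (Or.inr (mem_of_tail _ ht)) with h4 | h4
        · subst h4; exact hxβ ht'
        · subst h4; exact hz2 (hsubq _ ht)
      · intro t ht ht'
        rw [List.mem_append] at ht'
        rcases ht' with ht' | ht'
        · exact m3 ht ht'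
        · rcases hmeet t (mem_of_tail _ ht') (Or.inl (hp2s t (mem_of_tail _ ht))) with h4 | h4
          · subst h4; exact hxβ ht'
          · subst h4; exact hz2 (hsub2 _ ht)
      · rw [cls_append, ← add_assoc]
        exact hcl
    have hE2 : Ess κ ((p2.append q).append β) := by
      rw [← Walk.append_assoc]
      exact hE
    have hzB : z ∈ vts B := by
      have h3 : z ∈ vts (eds β) := by
        rw [vts_eds_of_ne hβn]
        exact Walk.end_mem_support β
      obtain ⟨e, he, hze⟩ := h3
      exact ⟨e, hβB he, hze⟩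
    refine ⟨z, y, p2, q.append β, hE, hA2, ?_, by omega, hzB, ?_⟩
    · rw [eds_append]
      exact Set.union_subset hB hβB
    · refine Or.inr (Or.inr (Or.inl ⟨z, x, p2.append q, p1, β, e2, hE2, ?_, ?_, ?_⟩))
      · simp only [eds_append]
        rw [Set.union_comm, Set.union_assoc]
      · rw [← Walk.append_assoc]
      · intro t ht ht'
        exact (hmeet t ht' (Or.inl (hp1s t ht))).symm

end StepAux

open StepAux in
/-- **Step.** -/
theorem tStep (hEssAt : S_EssAt) (_hEssRev : S_EssRev) (hComp : S_Comp) : S_Step := by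
  classical
  intro V M _ Γ κ hκ A B hA hB n x y p q hess hpA hqB hpn hxB
  have hpnil : ¬ p.Nil := Walk.not_nil_iff_lt_length.2 (by omega)
  obtain ⟨s1, s2, s3, s4⟩ := (ess_append_iff p q).1 hess
  have hyp : y ∈ p.support.tail := emt p hpnil
  -- the rest of B
  obtain ⟨r, hr, hrB, hrn⟩ : ∃ r : Γ.Walk x y, Ess κ (q.append r) ∧ eds (q.append r) = B ∧
      ¬ r.Nil := by
    by_cases hq : q.Nil
    · cases q with
      | nil =>
        obtain ⟨x0, c0, hc0, hc0B⟩ := hB
        have hc0n : ¬ c0.Nil := by
          intro h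
          cases c0 with
          | nil => exact hc0.2 rfl
          | cons h1 h2 => exact absurd h Walk.not_nil_cons
        have hx : x ∈ c0.support := by
          rw [← hc0B, vts_eds_of_ne hc0n] at hxB
          exact hxB
        obtain ⟨c, hc, hcB, -⟩ := hEssAt V M _ Γ κ x0 c0 hc0 x hx
        refine ⟨c, hc, by rw [hc0B] at hcB; exact hcB, ?_⟩
        intro h
        cases c with
        | nil => exact hc.2 rfl
        | cons h1 h2 => exact absurd h Walk.not_nil_cons
      | cons h1 h2 => exact absurd hq Walk.not_nil_cons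
    · have hxq : x ∈ q.support.tail := emt q hq
      have hxy : x ≠ y := by
        rintro rfl
        exact s3 hyp hxq
      have hqp : q.IsPath := by
        rw [Walk.isPath_def, sec q, List.nodup_cons]
        exact ⟨fun h => s3 hyp h, s2⟩
      obtain ⟨r, hr, hrB⟩ := hComp V M _ Γ κ hκ B hB x y q hxy hqp hqB
      exact ⟨r, hr, hrB, Walk.not_nil_of_ne hxy⟩
  obtain ⟨t1, t2, t3, t4⟩ := (ess_append_iff q r).1 hr
  obtain ⟨z, β, ρ, hrβ, hβn, hzp, hβP⟩ := first_hit r {t | t ∈ p.support}
    (by exact mem_of_tail p hyp) hrn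
  change z ∈ p.support at hzp
  have hβP' : ∀ t ∈ β.support, t ∈ p.support → t = x ∨ t = z := hβP
  have t2' := t2
  rw [hrβ, Walk.tail_support_append, List.nodup_append'] at t2'
  obtain ⟨u1, u2, u3⟩ := t2'
  have hzβ : z ∈ β.support.tail := emt β hβn
  have hβr : ∀ t, t ∈ β.support.tail → t ∈ r.support.tail := by
    intro t ht
    rw [hrβ, Walk.tail_support_append, List.mem_append]
    exact Or.inl ht
  by_cases hzy : z = y
  · -- β = r
    left
    subst hzy
    have hρ : ρ = Walk.nil := by
      cases ρ with
      | nil => rfl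
      | cons h1 h2 =>
        exfalso
        exact u3 hzβ (emt _ Walk.not_nil_cons)
    rw [hρ, Walk.append_nil] at hrβ
    refine Or.inr (Or.inr (Or.inl ⟨z, x, q, p, r, ess_comm hess, hr, ?_, hrB, ?_⟩))
    · rw [eds_append, eds_append, Set.union_comm]
    · intro t ht ht'
      rw [hrβ] at ht'
      exact (hβP' t ht' ht).symm
  · right
    have hρn : ¬ ρ.Nil := Walk.not_nil_of_ne hzy
    have hyρ : y ∈ ρ.support.tail := emt ρ hρn
    have hxβ : x ∉ β.support.tail := by
      by_cases hq : q.Nil
      · have hyx : y = x := hq.eq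
        intro h
        exact u3 (hyx.symm ▸ h) hyρ
      · have hxq : x ∈ q.support.tail := emt q hq
        exact fun h => t3 hxq (hβr _ h)
    have hzx : z ≠ x := by
      rintro rfl
      exact hxβ hzβ
    have hβnd : β.support.Nodup := by
      rw [sec β, List.nodup_cons]
      exact ⟨hxβ, u1⟩
    have hspec := Walk.take_spec p hzp
    have h1 : ¬ (p.takeUntil z hzp).Nil := Walk.not_nil_of_ne (Ne.symm hzx)
    have h2 : ¬ (p.dropUntil z hzp).Nil := Walk.not_nil_of_ne hzy
    have hmain := theta hκ A B (p.takeUntil z hzp) (p.dropUntil z hzp) q β n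
      (by rw [hspec]; exact hess) h1 h2 hβnd hβn hzx
      (by
        rw [hspec]
        intro t ht ht'
        rcases ht' with ht' | ht'
        · exact hβP' t ht ht'
        · rcases mem_supp_cases q ht' with h3 | h3
          · subst h3
            exact hβP' _ ht (mem_of_tail p hyp)
          · rcases mem_supp_cases β ht with h4 | h4
            · exact Or.inl h4
            · exact absurd (hβr _ h4) (fun h => t3 h3 h))
      (by rw [hspec]; exact hpA) hqB
      (by
        intro e he
        rw [← hrB, eds_append, hrβ, eds_append]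
        exact Or.inr (Or.inl he))
      (by rw [hspec]; exact hpn) hxB
    rw [hspec] at hmain
    exact hmain

end Pool.Agent.MPe54d61.TC
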