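import Pool.Agent.Lib.MP_e54d61_gt.TC.SpecS

/-!
# MP_e54d61_gt, torus case, part S: stream functions of a closed chain
-/

set_option autoImplicit false

namespace Pool.Agent.MPe54d61.TC

namespace StrmAux

theorem zc_per (N : ℕ) (x v : ℤ × ℤ) : zc N (x + (N : ℤ) • v) = zc N x := by
  ext <;> simp [zc]

theorem zc_sub_ei (N : ℕ) (x : ℤ × ℤ) (k : Fin 3) : zc N (x - ei k) = zc N x - ed N k := by
  rw [eq_sub_iff_add_eq, ed, ← zc_add, sub_add_cancel]

theorem sum_shift (N : ℕ) [NeZero N] (f : VN N → ℤ) (e : VN N) :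
    ∑ p, f (p - e) = ∑ p, f p :=
  Equiv.sum_comp (Equiv.subRight e) f

end StrmAux

open StrmAux in
theorem tStrm (h1 : S_Poin) (h2 : S_Per) : S_Strm := by
  intro N hN c κ hc
  obtain ⟨hc1, hc2⟩ := hc
  let g : VN N → ℤ := fun p => -(c 1 p + c 2 p)
  let h : VN N → ℤ := fun p => c 0 p + c 2 (p - ed N 1)
  have hcomp : ∀ x : ℤ × ℤ, g (zc N x) - g (zc N (x - ei 1)) =
      h (zc N x) - h (zc N (x - ei 0)) := by
    intro x
    have e := hc1 (zc N x)
    rw [Fin.sum_univ_three] at e
    have e2 : zc N x - ed N 2 = zc N x - ed N 0 - ed N 1 := by rw [ed_two]; abel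
    rw [e2] at e
    simp only [g, h, zc_sub_ei]
    linarith
  obtain ⟨a, ha⟩ := h1 (fun x => g (zc N x)) (fun x => h (zc N x)) hcomp
  obtain ⟨s, t, hs, ht, hp⟩ := h2 N hN a g h ha
  have hNz : (N : ℤ) ≠ 0 := Nat.cast_ne_zero.2 hN.ne
  rw [Fin.sum_univ_three] at hc2
  have k1 := congrArg Prod.fst hc2
  have k2 := congrArg Prod.snd hc2
  simp only [Prod.fst_add, Prod.snd_add, Prod.fst_sum, Prod.snd_sum, Prod.smul_fst,
    Prod.smul_snd, smul_eq_mul, ei, Matrix.cons_val, mul_one, mul_zero,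
    Finset.sum_const_zero, add_zero, zero_add] at k1 k2
  have hs' : s = -κ.2 := by
    have e : (N : ℤ) * s = (N : ℤ) * -κ.2 := by
      rw [hs]
      simp only [g, Finset.sum_neg_distrib, Finset.sum_add_distrib]
      linarith
    exact mul_left_cancel₀ hNz e
  have ht' : t = κ.1 := by
    have e : (N : ℤ) * t = (N : ℤ) * κ.1 := by
      rw [ht]
      simp only [h, Finset.sum_add_distrib]
      rw [sum_shift N (c 2)]
      linarith
    exact mul_left_cancel₀ hNz e
  refine ⟨a, fun x => a x + c 2 (zc N x), ?_, ?_, ?_, ?_⟩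
  · intro x
    ring
  · intro x
    have e := (ha x).2
    simp only [h, zc_sub_ei] at e ⊢
    linarith
  · intro x
    have e := (ha x).1
    simp only [g] at e
    linarith
  · intro x v
    have e : a (x + (N : ℤ) • v) = a x + dz κ v := by
      rw [hp, hs', ht', dz]
      ring
    refine ⟨e, ?_⟩
    simp only [zc_per, e]
    ring

end Pool.Agent.MPe54d61.TC
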