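import Pool.Agent.Lib.MP_e54d61_gt.TC.SpecP

/-!
# MP_e54d61_gt, torus case, part P: subdivision of bicorns
-/

set_option autoImplicit false

namespace Pool.Agent.MPe54d61.TC

open SimpleGraph

private theorem sub_mono {N k : ℕ} {A B : Set (Sym2 (VN N))} (h : A ⊆ B) :
    sub N k A ⊆ sub N k B := by
  rintro e ⟨p, q, hpq, hm, i, hi, he⟩
  exact ⟨p, q, hpq, h hm, i, hi, he⟩

theorem tSubB (hSubW : S_SubW) : S_SubB := by
  intro N k hN hk A B C
  obtain ⟨f, happ, hed, hess⟩ := hSubW N k hN hk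
  refine ⟨?_, ?_⟩
  · rintro ⟨x, c, hc, hA⟩
    refine ⟨upv N k x, f x x c, hess x c hc, ?_⟩
    rw [(hed x x c).1, hA]
  · rintro ⟨x, y, p, q, hE, hp, hq, hC⟩
    refine ⟨upv N k x, upv N k y, f x y p, f y x q, ?_, ?_, ?_, ?_⟩
    · rw [← happ]
      exact hess x _ hE
    · rw [(hed x y p).1]
      exact sub_mono hp
    · rw [(hed y x q).1]
      exact sub_mono hq
    · rw [← happ, (hed x x _).1, hC]

end Pool.Agent.MPe54d61.TC
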