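import Pool.Agent.Lib.MP_e54d61_gt.TC.SpecP

/-!
# MP_e54d61_gt, torus case, part P: the subdivision of one edge (helper43)
-/

set_option autoImplicit false

namespace Pool.Agent.MPe54d61.TC

open SimpleGraph

private theorem chain (M : ℕ)
    (hG : ∀ p q : ℤ × ℤ, q - p ∈ stp → (GN M).Adj (red M p) (red M q) ∧
      kN M (red M p) (red M q) = cel M q - cel M p)
    (a : ℕ → ℤ × ℤ) (ha : ∀ i, a (i + 1) - a i ∈ stp) (n : ℕ) :
    ∃ w : (GN M).Walk (red M (a 0)) (red M (a n)), cls (kN M) w = cel M (a n) - cel M (a 0) ∧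
      eds w = {e | ∃ i : ℕ, i < n ∧ e = s(red M (a i), red M (a (i + 1)))} ∧
      w.support = (List.range (n + 1)).map (fun i => red M (a i)) := by
  induction n with
  | zero => exact ⟨.nil, by simp, by ext e; simp, by simp⟩
  | succ n ih =>
    obtain ⟨w, h1, h2, h3⟩ := ih
    obtain ⟨hadj, hcl⟩ := hG (a n) (a (n + 1)) (ha n)
    refine ⟨w.append (.cons hadj .nil), ?_, ?_, ?_⟩
    · rw [cls_append, h1, cls_cons, cls_nil, hcl]
      abel
    · rw [eds_append, h2]
      ext e
      simp only [Set.mem_union, Set.mem_setOf_eq, mem_eds_cons, eds_nil, Set.mem_empty_iff_false,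
        or_false]
      constructor
      · rintro (⟨i, hi, rfl⟩ | rfl)
        · exact ⟨i, by omega, rfl⟩
        · exact ⟨n, by omega, rfl⟩
      · rintro ⟨i, hi, rfl⟩
        rcases Nat.lt_succ_iff_lt_or_eq.1 hi with h | h
        · exact Or.inl ⟨i, h, rfl⟩
        · subst h
          exact Or.inr rfl
    · rw [Walk.support_append, h3, List.range_succ (n := n + 1), List.map_append]
      simp

private theorem stp_bd {e : ℤ × ℤ} (he : e ∈ stp) : |e.1| ≤ 1 ∧ |e.2| ≤ 1 ∧ (|e.1| = 1 ∨ |e.2| = 1) := by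
  simp only [stp, Finset.mem_insert, Finset.mem_singleton] at he
  rcases he with h | h | h | h | h | h <;> subst h <;> simp

private theorem red_eq {M : ℕ} {p q : ℤ × ℤ} :
    red M p = red M q ↔ ∃ w : ℤ × ℤ, q = p + (M : ℤ) • w := by
  constructor
  · intro h
    have h1 : ((p.1 : ℤ) : ZMod M) = ((q.1 : ℤ) : ZMod M) := congrArg Prod.fst h
    have h2 : ((p.2 : ℤ) : ZMod M) = ((q.2 : ℤ) : ZMod M) := congrArg Prod.snd h
    rw [ZMod.intCast_eq_intCast_iff_dvd_sub] at h1 h2
    obtain ⟨u, hu⟩ := h1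
    obtain ⟨v, hv⟩ := h2
    refine ⟨(u, v), ?_⟩
    ext
    · simp only [Prod.fst_add, Prod.smul_fst, smul_eq_mul]
      linarith
    · simp only [Prod.snd_add, Prod.smul_snd, smul_eq_mul]
      linarith
  · rintro ⟨w, rfl⟩
    ext <;> simp [red, zc]

private theorem small {N : ℕ} (hN : 3 ≤ N) {e e' : ℤ × ℤ} (he : |e.1| ≤ 1 ∧ |e.2| ≤ 1)
    (he' : |e'.1| ≤ 1 ∧ |e'.2| ≤ 1) {w : ℤ × ℤ} (h : e' - e = (N : ℤ) • w) : e' = e := by
  have hN' : (3 : ℤ) ≤ N := by exact_mod_cast hN
  have h1 := congrArg Prod.fst h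
  have h2 := congrArg Prod.snd h
  simp only [Prod.fst_sub, Prod.smul_fst, smul_eq_mul, Prod.snd_sub, Prod.smul_snd] at h1 h2
  have a1 := abs_le.1 he.1
  have a2 := abs_le.1 he.2
  have a3 := abs_le.1 he'.1
  have a4 := abs_le.1 he'.2
  have w1 : w.1 = 0 := by
    by_contra hw
    rcases lt_or_gt_of_ne hw with h' | h'
    · nlinarith
    · nlinarith
  have w2 : w.2 = 0 := by
    by_contra hw
    rcases lt_or_gt_of_ne hw with h' | h'
    · nlinarith
    · nlinarith
  rw [w1] at h1
  rw [w2] at h2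
  ext <;> linarith

theorem tSubE (hGrid : S_Grid) (hSubZ : S_SubZ) (hSubI : S_SubI) : S_SubE := by
  intro N k hN hk u v huv
  have hkN : 3 ≤ k * N := hN.trans (Nat.le_mul_of_pos_left N hk)
  obtain ⟨p, hp⟩ : ∃ p : ℤ × ℤ, red N p = u := by
    obtain ⟨-, p, q, -, h, -⟩ := huv
    exact ⟨p, h⟩
  obtain ⟨q, hpq, hq⟩ := (hGrid N hN).2.2 u v huv p hp
  subst hp
  subst hq
  set a : ℕ → ℤ × ℤ := fun i => (k : ℤ) • p + (i : ℤ) • (q - p) with ha
  have hstep : ∀ i, a (i + 1) - a i ∈ stp := by
    intro i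
    have : a (i + 1) - a i = q - p := by
      simp only [ha]
      push_cast
      module
    rw [this]
    exact hpq
  obtain ⟨w, h1, h2, h3⟩ := chain (k * N) (hGrid (k * N) hkN).2.1 a hstep k
  have e0 : red (k * N) (a 0) = upv N k (red N p) := by
    rw [(hSubZ N k (by omega) hk).1]
    simp [ha]
  have ek : red (k * N) (a k) = upv N k (red N q) := by
    rw [(hSubZ N k (by omega) hk).1]
    have : a k = (k : ℤ) • q := by
      simp only [ha]
      module
    rw [this]
  refine ⟨w.copy e0 ek, ?_, ?_, ?_, ?_⟩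
  · -- path
    have hnd : w.IsPath := by
      rw [Walk.isPath_def, h3]
      refine List.Nodup.map_on ?_ List.nodup_range
      intro i hi j hj hij
      rw [List.mem_range] at hi hj
      obtain ⟨t, ht⟩ := red_eq.1 hij
      have ht' : ((j : ℤ) - i) • (q - p) = ((k * N : ℕ) : ℤ) • t := by
        have : a j - a i = ((j : ℤ) - i) • (q - p) := by
          simp only [ha]
          module
        rw [← this, ht]
        abel
      have hb := (stp_bd hpq).2.2
      have key : ∀ x y : ℤ, |x| = 1 → ((j : ℤ) - i) * x = ((k * N : ℕ) : ℤ) * y → i = j := by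
        intro x y hx hxy
        have hd : ((k * N : ℕ) : ℤ) ∣ ((j : ℤ) - i) := by
          have : ((k * N : ℕ) : ℤ) ∣ ((j : ℤ) - i) * x := ⟨y, hxy⟩
          rcases (abs_eq (by norm_num : (0 : ℤ) ≤ 1)).1 hx with h | h
          · rw [h, mul_one] at this
            exact this
          · rw [h, mul_neg, mul_one, dvd_neg] at this
            exact this
        have hlt : |(j : ℤ) - i| < ((k * N : ℕ) : ℤ) := by
          have : (k : ℤ) < ((k * N : ℕ) : ℤ) := by
            push_cast
            nlinarith [(by exact_mod_cast hN : (3 : ℤ) ≤ N), (by exact_mod_cast hk : (1 : ℤ) ≤ k)]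
          rw [abs_lt]
          constructor <;> omega
        have := Int.eq_zero_of_abs_lt_dvd hd hlt
        omega
      rcases hb with hb | hb
      · exact key _ _ hb (by simpa using congrArg Prod.fst ht')
      · exact key _ _ hb (by simpa using congrArg Prod.snd ht')
    simpa using hnd
  · -- class
    rw [cls_copy, h1, ((hGrid N hN).2.1 p q hpq).2]
    have hk0 : (0 : ℤ) < k := by exact_mod_cast hk
    have ha0 : a 0 = (k : ℤ) • p := by simp [ha]
    have hak : a k = (k : ℤ) • q := by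
      simp only [ha]
      module
    rw [ha0, hak]
    have hcel : ∀ r : ℤ × ℤ, cel (k * N) ((k : ℤ) • r) = cel N r := by
      intro r
      simp only [cel, Prod.smul_fst, Prod.smul_snd, smul_eq_mul]
      push_cast
      rw [Int.mul_ediv_mul_of_pos _ _ hk0, Int.mul_ediv_mul_of_pos _ _ hk0]
    rw [hcel, hcel]
  · -- edges
    have hed : eds (w.copy e0 ek) = eds w := by
      ext e
      simp [eds]
    rw [hed, h2]
    ext e
    constructor
    · rintro ⟨i, hi, rfl⟩
      refine ⟨p, q, hpq, rfl, i, hi, ?_⟩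
      simp [ha]
    · rintro ⟨p', q', hpq', hC, i, hi, rfl⟩
      rw [Set.mem_singleton_iff] at hC
      have hb := stp_bd hpq
      have hb' := stp_bd hpq'
      have hM : ∀ (x y : ℤ × ℤ) (t : ℤ × ℤ), y = x + ((k * N : ℕ) : ℤ) • t →
          red (k * N) y = red (k * N) x := fun x y t h => (red_eq.2 ⟨t, h⟩).symm
      rcases Sym2.eq_iff.1 hC with ⟨c1, c2⟩ | ⟨c1, c2⟩
      · obtain ⟨w1, hw1⟩ := red_eq.1 c1.symm
        obtain ⟨w2, hw2⟩ := red_eq.1 c2.symm
        have hee : q' - p' = q - p := small hN ⟨hb.1, hb.2.1⟩ ⟨hb'.1, hb'.2.1⟩ (w := w2 - w1)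
          (by rw [hw1, hw2]; module)
        refine ⟨i, hi, ?_⟩
        rw [hee, hM (a i) ((k : ℤ) • p' + (i : ℤ) • (q - p)) w1 (by
            simp only [ha, hw1]; push_cast; module),
          hM (a (i + 1)) ((k : ℤ) • p' + ((i : ℤ) + 1) • (q - p)) w1 (by
            simp only [ha, hw1]; push_cast; module)]
      · obtain ⟨w1, hw1⟩ := red_eq.1 c1.symm
        obtain ⟨w2, hw2⟩ := red_eq.1 c2.symm
        have hee : q' - p' = -(q - p) := small hN
          (e := -(q - p)) (by simpa [abs_sub_comm] using And.intro hb.1 hb.2.1)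
          ⟨hb'.1, hb'.2.1⟩ (w := w2 - w1) (by rw [hw1, hw2]; module)
        refine ⟨k - 1 - i, by omega, ?_⟩
        have hc : ((k - 1 - i : ℕ) : ℤ) = (k : ℤ) - 1 - i := by omega
        rw [hee, hM (a (k - 1 - i + 1)) ((k : ℤ) • p' + (i : ℤ) • -(q - p)) w1 (by
            simp only [ha, hw1]; push_cast [hc]; module),
          hM (a (k - 1 - i)) ((k : ℤ) • p' + ((i : ℤ) + 1) • -(q - p)) w1 (by
            simp only [ha, hw1]; push_cast [hc]; module), Sym2.eq_swap]
  · -- vertices
    intro z hz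
    have hz' : z ∈ w.support := by simpa using hz
    rw [h3, List.mem_map] at hz'
    obtain ⟨i, hi, rfl⟩ := hz'
    rw [List.mem_range] at hi
    rcases Nat.eq_zero_or_pos i with h | h
    · left
      rw [h]
      exact e0
    · rcases Nat.lt_succ_iff_lt_or_eq.1 hi with h' | h'
      · exact Or.inr (Or.inr ⟨p, q, i, hpq, rfl, h, h', rfl⟩)
      · right
        left
        rw [h']
        exact ek

end Pool.Agent.MPe54d61.TC
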