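import Pool.Agent.Lib.MP_e54d61_gt.TC.SpecP

/-!
# MP_e54d61_gt, torus case, part P: the edges of the subdivision in the torus (helper43)
-/

set_option autoImplicit false

namespace Pool.Agent.MPe54d61.TC

private theorem gp_sub (N k : ℕ) (hN : 3 ≤ N) (hk : 1 ≤ k) (p q : ℤ × ℤ) (i : ℤ) (h0 : 0 ≤ i)
    (hi : i ≤ k) :
    gp (k * N) ((k : ℤ) • p + i • (q - p)) ∈ segment ℝ (gp N p) (gp N q) := by
  have hk0 : (0 : ℝ) < k := by exact_mod_cast hk
  have hN0 : (0 : ℝ) < N := by exact_mod_cast (by omega : 0 < N)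
  have hi0 : (0 : ℝ) ≤ i := by exact_mod_cast h0
  have hik : (i : ℝ) ≤ k := by exact_mod_cast hi
  refine ⟨1 - (i : ℝ) / k, (i : ℝ) / k, ?_, by positivity, by ring, ?_⟩
  · rw [sub_nonneg, div_le_one hk0]
    exact hik
  · ext
    · simp only [gp, Prod.fst_add, Prod.smul_fst, smul_eq_mul, Prod.fst_sub]
      push_cast
      field_simp
      ring
    · simp only [gp, Prod.snd_add, Prod.smul_snd, smul_eq_mul, Prod.snd_sub]
      push_cast
      field_simp
      ring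

theorem tSubG (hGeoE : S_GeoE) : S_SubG := by
  intro N k hN hk C z hz
  obtain ⟨p, q, hpq, ⟨p0, q0, h0, hC, i, hi, he⟩, w, hw, rfl⟩ := hz
  have hkN : 3 ≤ k * N := hN.trans (Nat.le_mul_of_pos_left N hk)
  have hstep : ((k : ℤ) • p0 + ((i : ℤ) + 1) • (q0 - p0)) - ((k : ℤ) • p0 + (i : ℤ) • (q0 - p0))
      ∈ stp := by
    have : ((k : ℤ) • p0 + ((i : ℤ) + 1) • (q0 - p0)) - ((k : ℤ) • p0 + (i : ℤ) • (q0 - p0))
      = q0 - p0 := by module
    rw [this]
    exact h0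
  have h1 : pr w ∈ geo (k * N) {s(red (k * N) p, red (k * N) q)} :=
    ⟨p, q, hpq, rfl, w, hw, rfl⟩
  rw [he, hGeoE (k * N) hkN _ _ hstep] at h1
  obtain ⟨w', hw', hww⟩ := h1
  have hiz : (i : ℤ) < k := by exact_mod_cast hi
  exact ⟨p0, q0, h0, hC, w', (convex_segment (gp N p0) (gp N q0)).segment_subset
    (gp_sub N k hN hk p0 q0 i (by positivity) hiz.le)
    (gp_sub N k hN hk p0 q0 (i + 1) (by positivity) (by omega)) hw', hww.symm⟩

end Pool.Agent.MPe54d61.TC
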