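import Pool.Agent.Lib.MP_e54d61_gt.TC.SpecP

/-!
# MP_e54d61_gt, torus case: inner vertices of the subdivided edges
-/

set_option autoImplicit false

namespace Pool.Agent.MPe54d61.TC

namespace SubIAux

theorem stp_cases {e : ℤ × ℤ} (h : e ∈ stp) :
    (e.1 = 1 ∧ e.2 = 0) ∨ (e.1 = 0 ∧ e.2 = 1) ∨ (e.1 = 1 ∧ e.2 = 1) ∨
      (e.1 = -1 ∧ e.2 = 0) ∨ (e.1 = 0 ∧ e.2 = -1) ∨ (e.1 = -1 ∧ e.2 = -1) := by
  simp only [stp, Finset.mem_insert, Finset.mem_singleton, Prod.ext_iff] at h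
  exact h

theorem red_eq {M : ℕ} {a b : ℤ × ℤ} :
    red M a = red M b ↔ (M : ℤ) ∣ b.1 - a.1 ∧ (M : ℤ) ∣ b.2 - a.2 := by
  unfold red zc
  rw [Prod.ext_iff]
  simp only
  rw [ZMod.intCast_eq_intCast_iff_dvd_sub, ZMod.intCast_eq_intCast_iff_dvd_sub]

theorem coord {k i j a b : ℤ} (hi : 0 < i) (hik : i < k) (hj : 0 < j) (hjk : j < k)
    (ha : a = -1 ∨ a = 0 ∨ a = 1) (hb : b = -1 ∨ b = 0 ∨ b = 1) (h : k ∣ j * b - i * a) :
    (a = b ∧ (a ≠ 0 → i = j)) ∨ (a = -b ∧ a ≠ 0 ∧ i + j = k) := by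
  have key : ∀ x : ℤ, k ∣ x → -k < x → x < k → x = 0 := by
    intro x hx h1 h2
    exact Int.eq_zero_of_abs_lt_dvd hx (abs_lt.2 ⟨h1, h2⟩)
  have key2 : k ∣ i + j → i + j = k := by
    intro h1
    have h2 : k ∣ i + j - k := Dvd.dvd.sub h1 (dvd_refl k)
    have := key _ h2 (by omega) (by omega)
    omega
  rcases ha with rfl | rfl | rfl <;> rcases hb with rfl | rfl | rfl
  · left
    refine ⟨rfl, fun _ => ?_⟩
    have := key _ h (by omega) (by omega)
    omega
  · exfalso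
    have := key _ h (by omega) (by omega)
    omega
  · right
    refine ⟨rfl, by norm_num, key2 ?_⟩
    have h1 : j * 1 - i * -1 = i + j := by ring
    rwa [h1] at h
  · exfalso
    have := key _ h (by omega) (by omega)
    omega
  · left
    exact ⟨rfl, fun h => absurd rfl h⟩
  · exfalso
    have := key _ h (by omega) (by omega)
    omega
  · right
    refine ⟨by norm_num, by norm_num, key2 ?_⟩
    have h1 : j * -1 - i * 1 = -(i + j) := by ring
    rw [h1] at h
    exact (dvd_neg.1 h)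
  · exfalso
    have := key _ h (by omega) (by omega)
    omega
  · left
    refine ⟨rfl, fun _ => ?_⟩
    have := key _ h (by omega) (by omega)
    omega

theorem unit_cases {e : ℤ × ℤ} (h : e ∈ stp) :
    (e.1 = -1 ∨ e.1 = 0 ∨ e.1 = 1) ∧ (e.2 = -1 ∨ e.2 = 0 ∨ e.2 = 1) := by
  rcases stp_cases h with h | h | h | h | h | h <;> omega

theorem combine {a1 a2 b1 b2 i j k : ℤ}
    (hi : 0 < i) (hik : i < k) (hj : 0 < j) (hjk : j < k)
    (ha : (a1, a2) ∈ stp) (hb : (b1, b2) ∈ stp)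
    (h1 : k ∣ j * b1 - i * a1) (h2 : k ∣ j * b2 - i * a2) :
    (a1 = b1 ∧ a2 = b2 ∧ i = j) ∨ (b1 = -a1 ∧ b2 = -a2 ∧ i + j = k) := by
  have c1 := coord hi hik hj hjk (unit_cases ha).1 (unit_cases hb).1 h1
  have c2 := coord hi hik hj hjk (unit_cases ha).2 (unit_cases hb).2 h2
  have s1 := stp_cases ha
  have s2 := stp_cases hb
  simp only at c1 c2 s1 s2
  rcases s1 with s | s | s | s | s | s <;> obtain ⟨rfl, rfl⟩ := s <;>
    rcases s2 with s | s | s | s | s | s <;> obtain ⟨rfl, rfl⟩ := s <;> omega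

end SubIAux

open SubIAux in
theorem tSubI : S_SubI := by
  intro N k hN hk p q hpq i hi hik
  obtain ⟨e, he⟩ : ∃ e, e = q - p := ⟨_, rfl⟩
  have hq : q = p + e := by rw [he]; abel
  rw [← he] at hpq ⊢
  have hMk : ((k * N : ℕ) : ℤ) = (k : ℤ) * (N : ℤ) := by push_cast; ring
  have hk0 : (k : ℤ) ≠ 0 := by omega
  have hkM : (k : ℤ) ∣ ((k * N : ℕ) : ℤ) := by rw [hMk]; exact dvd_mul_right _ _
  have hi' : (0 : ℤ) < i := by exact_mod_cast hi
  have hik' : (i : ℤ) < k := by exact_mod_cast hik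
  constructor
  · intro u hu
    unfold upv at hu
    rw [red_eq] at hu
    obtain ⟨h1, h2⟩ := hu
    simp only [Prod.fst_add, Prod.snd_add, Prod.smul_fst, Prod.smul_snd, smul_eq_mul] at h1 h2
    have h1' := hkM.trans h1
    have h2' := hkM.trans h2
    have g : ∀ x r y : ℤ, (k : ℤ) ∣ (k : ℤ) * r - ((k : ℤ) * x + (i : ℤ) * y) →
        (k : ℤ) ∣ (i : ℤ) * y := by
      intro x r y h
      have h3 : (i : ℤ) * y = (k : ℤ) * (r - x) - ((k : ℤ) * r - ((k : ℤ) * x + (i : ℤ) * y)) := by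
        ring
      rw [h3]
      exact Dvd.dvd.sub (dvd_mul_right _ _) h
    have g1 := g _ _ _ h1'
    have g2 := g _ _ _ h2'
    have key : (k : ℤ) ∣ (i : ℤ) → False := by
      intro h
      have := Int.le_of_dvd hi' h
      omega
    rcases stp_cases hpq with s | s | s | s | s | s <;> obtain ⟨s1, s2⟩ := s
    · rw [s1, mul_one] at g1; exact key g1
    · rw [s2, mul_one] at g2; exact key g2
    · rw [s1, mul_one] at g1; exact key g1
    · rw [s1, mul_neg, mul_one, dvd_neg] at g1; exact key g1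
    · rw [s2, mul_neg, mul_one, dvd_neg] at g2; exact key g2
    · rw [s1, mul_neg, mul_one, dvd_neg] at g1; exact key g1
  · intro p' q' hpq' j hj hjk h
    obtain ⟨e', he'⟩ : ∃ e', e' = q' - p' := ⟨_, rfl⟩
    have hq' : q' = p' + e' := by rw [he']; abel
    rw [← he'] at hpq' h
    have hj' : (0 : ℤ) < j := by exact_mod_cast hj
    have hjk' : (j : ℤ) < k := by exact_mod_cast hjk
    rw [red_eq] at h
    obtain ⟨h1, h2⟩ := h
    simp only [Prod.fst_add, Prod.snd_add, Prod.smul_fst, Prod.smul_snd, smul_eq_mul] at h1 h2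
    have g : ∀ x y x' y' : ℤ,
        (k : ℤ) ∣ ((k : ℤ) * x' + (j : ℤ) * y') - ((k : ℤ) * x + (i : ℤ) * y) →
        (k : ℤ) ∣ (j : ℤ) * y' - (i : ℤ) * y := by
      intro x y x' y' h
      have h3 : (j : ℤ) * y' - (i : ℤ) * y =
          (((k : ℤ) * x' + (j : ℤ) * y') - ((k : ℤ) * x + (i : ℤ) * y)) - (k : ℤ) * (x' - x) := by
        ring
      rw [h3]
      exact Dvd.dvd.sub h (dvd_mul_right _ _)
    have g1 := g _ _ _ _ (hkM.trans h1)
    have g2 := g _ _ _ _ (hkM.trans h2)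
    have hc := combine hi' hik' hj' hjk' (a1 := e.1) (a2 := e.2) (b1 := e'.1) (b2 := e'.2)
      hpq hpq' g1 g2
    rw [hMk] at h1 h2
    rcases hc with ⟨c1, c2, c3⟩ | ⟨c1, c2, c3⟩
    · have hee : e = e' := Prod.ext c1 c2
      rw [← hee] at h1 h2 hq'
      rw [← c3] at h1 h2
      have d1 : (N : ℤ) ∣ p'.1 - p.1 := by
        have h3 : ((k : ℤ) * p'.1 + (i : ℤ) * e.1) - ((k : ℤ) * p.1 + (i : ℤ) * e.1) =
            (k : ℤ) * (p'.1 - p.1) := by ring
        rw [h3] at h1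
        exact (mul_dvd_mul_iff_left hk0).1 h1
      have d2 : (N : ℤ) ∣ p'.2 - p.2 := by
        have h3 : ((k : ℤ) * p'.2 + (i : ℤ) * e.2) - ((k : ℤ) * p.2 + (i : ℤ) * e.2) =
            (k : ℤ) * (p'.2 - p.2) := by ring
        rw [h3] at h2
        exact (mul_dvd_mul_iff_left hk0).1 h2
      have e1 : red N p = red N p' := red_eq.2 ⟨d1, d2⟩
      have e2 : red N q = red N q' := by
        rw [hq, hq', red_eq]
        simp only [Prod.fst_add, Prod.snd_add]
        refine ⟨?_, ?_⟩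
        · have : p'.1 + e.1 - (p.1 + e.1) = p'.1 - p.1 := by ring
          rw [this]; exact d1
        · have : p'.2 + e.2 - (p.2 + e.2) = p'.2 - p.2 := by ring
          rw [this]; exact d2
      rw [e1, e2]
    · have hj2 : (j : ℤ) = k - i := by omega
      rw [hj2, c1] at h1
      rw [hj2, c2] at h2
      have d1 : (N : ℤ) ∣ p'.1 - q.1 := by
        have h3 : ((k : ℤ) * p'.1 + ((k : ℤ) - i) * -e.1) - ((k : ℤ) * p.1 + (i : ℤ) * e.1) =
            (k : ℤ) * (p'.1 - q.1) := by rw [hq, Prod.fst_add]; ring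
        rw [h3] at h1
        exact (mul_dvd_mul_iff_left hk0).1 h1
      have d2 : (N : ℤ) ∣ p'.2 - q.2 := by
        have h3 : ((k : ℤ) * p'.2 + ((k : ℤ) - i) * -e.2) - ((k : ℤ) * p.2 + (i : ℤ) * e.2) =
            (k : ℤ) * (p'.2 - q.2) := by rw [hq, Prod.snd_add]; ring
        rw [h3] at h2
        exact (mul_dvd_mul_iff_left hk0).1 h2
      have e1 : red N q = red N p' := red_eq.2 ⟨d1, d2⟩
      have e2 : red N p = red N q' := by
        rw [hq', red_eq]
        simp only [Prod.fst_add, Prod.snd_add]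
        refine ⟨?_, ?_⟩
        · have : p'.1 + e'.1 - p.1 = p'.1 - q.1 := by rw [c1, hq, Prod.fst_add]; ring
          rw [this]; exact d1
        · have : p'.2 + e'.2 - p.2 = p'.2 - q.2 := by rw [c2, hq, Prod.snd_add]; ring
          rw [this]; exact d2
      rw [e1, e2, Sym2.eq_swap]

end Pool.Agent.MPe54d61.TC
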