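import Pool.Agent.Lib.MP_e54d61_gt.TC.SpecP

set_option autoImplicit false

namespace Pool.Agent.MPe54d61.TC

open SimpleGraph

namespace SubWAux

/-- the image of a walk, if every edge is replaced by a walk -/
def fw {V V' : Type} {Γ : SimpleGraph V} {Γ' : SimpleGraph V'} (up : V → V')
    (W : ∀ u v : V, Γ.Adj u v → Γ'.Walk (up u) (up v)) :
    ∀ {u v : V}, Γ.Walk u v → Γ'.Walk (up u) (up v)
  | _, _, .nil => .nil
  | _, _, .cons h p => (W _ _ h).append (fw up W p)

theorem fw_append {V V' : Type} {Γ : SimpleGraph V} {Γ' : SimpleGraph V'} (up : V → V')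
    (W : ∀ u v : V, Γ.Adj u v → Γ'.Walk (up u) (up v)) {u v w : V} (p : Γ.Walk u v)
    (q : Γ.Walk v w) : fw up W (p.append q) = (fw up W p).append (fw up W q) := by
  induction p with
  | nil => simp [fw]
  | cons h p ih =>
    rw [Walk.cons_append, fw, fw, ih, Walk.append_assoc]

/-- inner vertices of the subdivided edge `e` -/
def Inn (N k : ℕ) (e : Sym2 (VN N)) (z : VN (k * N)) : Prop :=
  ∃ (p q : ℤ × ℤ) (i : ℕ), q - p ∈ stp ∧ s(red N p, red N q) = e ∧ 0 < i ∧ i < k ∧
    z = red (k * N) ((k : ℤ) • p + (i : ℤ) • (q - p))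

theorem sub_empty (N k : ℕ) : sub N k (∅ : Set (Sym2 (VN N))) = ∅ := by
  ext e
  simp [sub]

theorem sub_union (N k : ℕ) (A B : Set (Sym2 (VN N))) :
    sub N k (A ∪ B) = sub N k A ∪ sub N k B := by
  ext e
  simp only [sub, Set.mem_ofPred_eq, Set.mem_union]
  constructor
  · rintro ⟨p, q, h1, h2 | h2, h3⟩
    · exact Or.inl ⟨p, q, h1, h2, h3⟩
    · exact Or.inr ⟨p, q, h1, h2, h3⟩
  · rintro (⟨p, q, h1, h2, h3⟩ | ⟨p, q, h1, h2, h3⟩)
    · exact ⟨p, q, h1, Or.inl h2, h3⟩
    · exact ⟨p, q, h1, Or.inr h2, h3⟩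

theorem eds_cons {V : Type} {Γ : SimpleGraph V} {u v w : V} (h : Γ.Adj u v) (p : Γ.Walk v w) :
    eds (Walk.cons h p) = {s(u, v)} ∪ eds p := by
  ext e
  simp [mem_eds_cons]

theorem kp_anti {N : ℕ} (hN : 3 ≤ N) (a b : ZMod N) : kp N b a = -kp N a b := by
  have : Fact (1 < N) := ⟨by omega⟩
  have h10 : (1 : ZMod N) ≠ 0 := one_ne_zero
  unfold kp
  by_cases h1 : a + 1 = 0 ∧ b = 0
  · have h2 : ¬ (b + 1 = 0 ∧ a = 0) := by
      rintro ⟨_, h3⟩
      rw [h3, zero_add] at h1
      exact h10 h1.1
    rw [if_neg h2, if_pos ⟨h1.2, h1.1⟩, if_pos h1]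
  · rw [if_neg h1]
    by_cases h2 : a = 0 ∧ b + 1 = 0
    · rw [if_pos ⟨h2.2, h2.1⟩, if_pos h2]
      norm_num
    · rw [if_neg h2, if_neg (fun h => h2 ⟨h.2, h.1⟩), if_neg (fun h => h1 ⟨h.2, h.1⟩)]
      norm_num

theorem kN_anti {N : ℕ} (hN : 3 ≤ N) : Anti (kN N) := by
  intro u v
  unfold kN
  rw [kp_anti hN u.1 v.1, kp_anti hN u.2 v.2]
  rfl

/-- the edges of an essential closed walk are different -/
theorem ess_edges_nodup {V M : Type} [AddCommGroup M] {Γ : SimpleGraph V} {κ : V → V → M}
    (hκ : Anti κ) {u : V} (c : Γ.Walk u u) (hc : Ess κ c) : c.edges.Nodup := by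
  obtain ⟨hnd, hcls⟩ := hc
  cases c with
  | nil => simp
  | @cons _ v _ h p =>
    rw [Walk.support_cons, List.tail_cons] at hnd
    rw [Walk.edges_cons, List.nodup_cons]
    have hp : p.IsPath := Walk.IsPath.mk' hnd
    refine ⟨?_, hp.isTrail.edges_nodup⟩
    intro he
    cases p with
    | nil => simp at he
    | @cons _ w _ h' p' =>
      rw [Walk.edges_cons, List.mem_cons] at he
      rw [Walk.cons_isPath_iff] at hp
      rcases he with he | he
      · have hw : w = u := by
          rcases Sym2.eq_iff.1 he with ⟨h1, h2⟩ | ⟨h1, h2⟩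
          · exact absurd h1 h.ne
          · exact h1.symm
        subst hw
        have hp' : p' = Walk.nil := Walk.eq_nil_iff_nil.2 (Walk.isPath_iff_nil.1 hp.1)
        subst hp'
        apply hcls
        rw [cls_cons, cls_cons, cls_nil, hκ w v]
        abel
      · exact hp.2 (Walk.snd_mem_support_of_mem_edges p' he)

end SubWAux

open SubWAux

theorem tSubW (hSubZ : S_SubZ) (hSubI : S_SubI) (hSubE : S_SubE) : S_SubW := by
  intro N k hN hk
  have hinj : Function.Injective (upv N k) := (hSubZ N k (by omega) hk).2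
  choose W hWp hWc hWe hWs using hSubE N k hN hk
  -- inner vertices
  have hI1 : ∀ (e : Sym2 (VN N)) (z : VN (k * N)), Inn N k e z → ∀ u, z ≠ upv N k u := by
    rintro e z ⟨p, q, i, h1, -, h3, h4, h5⟩ u
    rw [h5]
    exact (hSubI N k hN hk p q h1 i h3 h4).1 u
  have hI2 : ∀ (e e' : Sym2 (VN N)) (z : VN (k * N)), Inn N k e z → Inn N k e' z → e = e' := by
    rintro e e' z ⟨p, q, i, h1, h2, h3, h4, h5⟩ ⟨p', q', j, h1', h2', h3', h4', h5'⟩
    rw [← h2, ← h2']
    exact (hSubI N k hN hk p q h1 i h3 h4).2 p' q' h1' j h3' h4' (by rw [← h5, ← h5'])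
  have hcls : ∀ (u v : VN N) (p : (GN N).Walk u v), eds (fw (upv N k) W p) = sub N k (eds p) ∧
      cls (kN (k * N)) (fw (upv N k) W p) = cls (kN N) p := by
    intro u v p
    induction p with
    | nil => simp [fw, sub_empty]
    | @cons a b c h p ih =>
      constructor
      · rw [fw, eds_append, eds_cons, sub_union, ih.1, hWe]
      · rw [fw, cls_append, cls_cons, ih.2, hWc]
  have hmain : ∀ (u v : VN N) (p : (GN N).Walk u v), p.support.tail.Nodup → p.edges.Nodup →
      (fw (upv N k) W p).support.tail.Nodup ∧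
      ∀ z ∈ (fw (upv N k) W p).support.tail, (∃ z' ∈ p.support.tail, z = upv N k z') ∨
        ∃ e ∈ p.edges, Inn N k e z := by
    intro u v p
    induction p with
    | nil => intro _ _; simp [fw]
    | @cons a b c h p ih =>
      intro hnd hed
      rw [Walk.support_cons, List.tail_cons] at hnd
      rw [Walk.edges_cons, List.nodup_cons] at hed
      obtain ⟨ih1, ih2⟩ := ih (hnd.sublist (List.tail_sublist _)) hed.2
      have hstart : upv N k a ∉ (W a b h).support.tail := by
        have := (hWp a b h).support_nodup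
        rw [← Walk.cons_tail_support, List.nodup_cons] at this
        exact this.1
      have hW : ∀ z ∈ (W a b h).support.tail, z = upv N k b ∨ Inn N k s(a, b) z := by
        intro z hz
        rcases hWs a b h z (List.mem_of_mem_tail hz) with h1 | h1 | h1
        · rw [h1] at hz
          exact absurd hz hstart
        · exact Or.inl h1
        · exact Or.inr h1
      rw [fw, Walk.tail_support_append, Walk.support_cons, List.tail_cons, Walk.edges_cons]
      constructor
      · rw [List.nodup_append']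
        refine ⟨(hWp a b h).support_nodup.sublist (List.tail_sublist _), ih1, ?_⟩
        intro z hz hz'
        rcases hW z hz with h1 | h1
        · rcases ih2 z hz' with ⟨z', h2, h3⟩ | ⟨e, h2, h3⟩
          · have h4 : z' = b := hinj (by rw [← h3, h1])
            rw [h4] at h2
            rw [← Walk.cons_tail_support, List.nodup_cons] at hnd
            exact hnd.1 h2
          · exact hI1 e z h3 b h1
        · rcases ih2 z hz' with ⟨z', h2, h3⟩ | ⟨e, h2, h3⟩
          · exact hI1 _ z h1 z' h3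
          · rw [hI2 _ _ z h1 h3] at hed
            exact hed.1 h2
      · intro z hz
        rw [List.mem_append] at hz
        rcases hz with hz | hz
        · rcases hW z hz with h1 | h1
          · exact Or.inl ⟨b, p.start_mem_support, h1⟩
          · exact Or.inr ⟨s(a, b), List.mem_cons_self, h1⟩
        · rcases ih2 z hz with ⟨z', h2, h3⟩ | ⟨e, h2, h3⟩
          · exact Or.inl ⟨z', List.mem_of_mem_tail h2, h3⟩
          · exact Or.inr ⟨e, List.mem_cons_of_mem _ h2, h3⟩
  refine ⟨fun u v p => fw (upv N k) W p, fun u v w p q => fw_append _ _ p q, hcls, ?_⟩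
  intro u p hp
  refine ⟨(hmain u u p hp.1 (ess_edges_nodup (kN_anti hN) p hp)).1, ?_⟩
  rw [(hcls u u p).2]
  exact hp.2

end Pool.Agent.MPe54d61.TC
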