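import Pool.Agent.Lib.MP_e54d61_gt.TC.SpecP

/-!
# MP_e54d61_gt, torus case, part P: the vertices of the coarse grid in the finer grid
-/

set_option autoImplicit false

namespace Pool.Agent.MPe54d61.TC

private theorem subz_val (N : ℕ) (hN : 1 ≤ N) (a : ℤ) :
    ∃ w : ℤ, a = (((a : ZMod N).val : ℕ) : ℤ) + N * w := by
  have : NeZero N := ⟨by omega⟩
  refine ⟨a / N, ?_⟩
  rw [ZMod.val_intCast]
  exact (Int.emod_add_mul_ediv a N).symm

private theorem subz_cast (N k : ℕ) (hN : 1 ≤ N) (a : ℤ) :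
    (((k : ℤ) * (((a : ZMod N).val : ℕ) : ℤ) : ℤ) : ZMod (k * N)) =
      (((k : ℤ) * a : ℤ) : ZMod (k * N)) := by
  obtain ⟨w, hw⟩ := subz_val N hN a
  rw [ZMod.intCast_eq_intCast_iff_dvd_sub]
  refine ⟨w, ?_⟩
  push_cast
  calc (k : ℤ) * a - k * (((a : ZMod N).val : ℕ) : ℤ) =
      k * (a - (((a : ZMod N).val : ℕ) : ℤ)) := by ring
    _ = k * N * w := by
      rw [show a - (((a : ZMod N).val : ℕ) : ℤ) = N * w by linarith]
      ring

private theorem subz_inj (N k : ℕ) (hN : 1 ≤ N) (hk : 1 ≤ k) (u v : ZMod N)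
    (h : (((k : ℤ) * (u.val : ℤ) : ℤ) : ZMod (k * N)) =
      (((k : ℤ) * (v.val : ℤ) : ℤ) : ZMod (k * N))) : u = v := by
  have : NeZero N := ⟨by omega⟩
  rw [ZMod.intCast_eq_intCast_iff_dvd_sub] at h
  have hk0 : (k : ℤ) ≠ 0 := by exact_mod_cast (by omega : k ≠ 0)
  have h1 : (N : ℤ) ∣ (v.val : ℤ) - (u.val : ℤ) := by
    have h2 : (k : ℤ) * N ∣ k * ((v.val : ℤ) - (u.val : ℤ)) := by
      rw [mul_sub]
      exact_mod_cast h
    exact (mul_dvd_mul_iff_left hk0).1 h2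
  have h3 : ((u.val : ℤ) : ZMod N) = ((v.val : ℤ) : ZMod N) := by
    rw [ZMod.intCast_eq_intCast_iff_dvd_sub]
    exact h1
  rw [Int.cast_natCast, Int.cast_natCast, ZMod.natCast_zmod_val, ZMod.natCast_zmod_val] at h3
  exact h3

theorem tSubZ : S_SubZ := by
  intro N k hN hk
  refine ⟨?_, ?_⟩
  · intro p
    refine Prod.ext ?_ ?_
    · exact subz_cast N k hN p.1
    · exact subz_cast N k hN p.2
  · intro u v h
    have h1 := congrArg Prod.fst h
    have h2 := congrArg Prod.snd h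
    exact Prod.ext (subz_inj N k hN hk u.1 v.1 h1) (subz_inj N k hN hk u.2 v.2 h2)

end Pool.Agent.MPe54d61.TC
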