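import Pool.Agent.Lib.MP_e54d61_gt.TC.SpecA

/-!
# MP_e54d61_gt, torus case, part A: the swindle (`S_Swn`)
-/

set_option autoImplicit false

namespace Pool.Agent.MPe54d61.TC

open Topology MatrixGroups

private theorem swn_B0_norm {z : P} (hz : z ∈ B0) : 2 ≤ ‖z‖ ∧ ‖z‖ ≤ 4 := by
  obtain ⟨h1, h2⟩ := hz
  have h1' := abs_le.1 h1
  have h2' := abs_le.1 h2
  constructor
  · have h3 : |z.1| ≤ ‖z‖ := norm_fst_le z
    have h4 := le_abs_self z.1
    linarith [h1'.1]
  · rw [Prod.norm_def]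
    refine max_le ?_ ?_
    · rw [Real.norm_eq_abs, abs_le]
      constructor <;> linarith [h1'.1, h1'.2]
    · rw [Real.norm_eq_abs, abs_le]
      constructor <;> linarith [h2'.1, h2'.2]

/-- the translates of the standard disc -/
private def swn_D (t : P ≃ₜ P) (n : ℕ) : Set P := (t ^ n : P ≃ₜ P) '' B0

/-- the conjugates of `d` -/
private def swn_c (t d : P ≃ₜ P) (n : ℕ) : P ≃ₜ P := t ^ n * d * (t ^ n)⁻¹

private theorem swn_c_supp (t : P ≃ₜ P) {d : P ≃ₜ P} (hd : SuppIn B0 d) (n : ℕ) :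
    SuppIn (swn_D t n) (swn_c t d n) := hd.conj (t ^ n)

private theorem swn_c_inv (t d : P ≃ₜ P) (n : ℕ) : swn_c t d⁻¹ n = (swn_c t d n)⁻¹ := by
  unfold swn_c
  group

private theorem swn_exp2 : (4 : ℝ) < Real.exp 2 := by
  have h1 : Real.exp 2 = Real.exp 1 * Real.exp 1 := by rw [← Real.exp_add]; norm_num
  have h2 := Real.exp_one_gt_d9
  rw [h1]
  nlinarith

private theorem swn_exp_lt {n : ℕ} (hn : 1 ≤ n) : 8 * Real.exp (-2 * (n : ℝ)) < 2 := by
  have h1 : Real.exp (-2 * (n : ℝ)) ≤ Real.exp (-2) := by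
    apply Real.exp_le_exp.2
    have : (1 : ℝ) ≤ n := by exact_mod_cast hn
    linarith
  have h2 : Real.exp (-2) * Real.exp 2 = 1 := by rw [← Real.exp_add]; norm_num
  have h3 := swn_exp2
  have h4 := Real.exp_pos (-2)
  nlinarith

section key

variable {t : P ≃ₜ P}
  (ht : ∀ (n : ℕ) (z : P), ‖z‖ ≤ 4 → ‖(t ^ n : P ≃ₜ P) z‖ ≤ 8 * Real.exp (-2 * (n : ℝ)))

include ht

private theorem swn_disj_lt {n m : ℕ} (hnm : n < m) {z : P} (h1 : z ∈ swn_D t n)
    (h2 : z ∈ swn_D t m) : False := by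
  obtain ⟨b, hb, rfl⟩ := h1
  obtain ⟨b', hb', h3⟩ := h2
  have h4 : (t ^ m : P ≃ₜ P) = t ^ n * t ^ (m - n) := by rw [← pow_add]; congr 1; omega
  rw [h4] at h3
  have h5 : (t ^ (m - n) : P ≃ₜ P) b' = b := (t ^ n : P ≃ₜ P).injective h3
  have h6 := ht (m - n) b' (swn_B0_norm hb').2
  rw [h5] at h6
  have h7 := swn_exp_lt (n := m - n) (by omega)
  linarith [(swn_B0_norm hb).1]

private theorem swn_disj {n m : ℕ} {z : P} (h1 : z ∈ swn_D t n) (h2 : z ∈ swn_D t m) : n = m := by
  rcases lt_trichotomy n m with h | h | h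
  · exact (swn_disj_lt ht h h1 h2).elim
  · exact h
  · exact (swn_disj_lt ht h h2 h1).elim

private theorem swn_D_norm {n : ℕ} {z : P} (h1 : z ∈ swn_D t n) :
    ‖z‖ ≤ 8 * Real.exp (-2 * (n : ℝ)) := by
  obtain ⟨b, hb, rfl⟩ := h1
  exact ht n b (swn_B0_norm hb).2

omit ht in
open Classical in
/-- the infinite product -/
private noncomputable def swn_G (t d : P ≃ₜ P) (z : P) : P :=
  if h : ∃ n : ℕ, z ∈ swn_D t n then swn_c t d (Classical.choose h) z else z

private theorem swn_G_mem (d : P ≃ₜ P) {n : ℕ} {z : P} (hz : z ∈ swn_D t n) :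
    swn_G t d z = swn_c t d n z := by
  have h : ∃ n : ℕ, z ∈ swn_D t n := ⟨n, hz⟩
  have h1 : Classical.choose h = n := swn_disj ht (Classical.choose_spec h) hz
  unfold swn_G
  rw [dif_pos h, h1]

omit ht in
private theorem swn_G_not (d : P ≃ₜ P) {z : P} (hz : ∀ n, z ∉ swn_D t n) : swn_G t d z = z := by
  unfold swn_G
  rw [dif_neg]
  rintro ⟨n, hn⟩
  exact hz n hn

omit ht in
/-- the partial products -/
private def swn_g (t d : P ≃ₜ P) : ℕ → (P ≃ₜ P)
  | 0 => 1
  | n + 1 => swn_g t d n * swn_c t d n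

private theorem swn_g_spec {d : P ≃ₜ P} (hd : SuppIn B0 d) (n : ℕ) (z : P) :
    (∀ k, k < n → z ∈ swn_D t k → swn_g t d n z = swn_c t d k z) ∧
      ((∀ k, k < n → z ∉ swn_D t k) → swn_g t d n z = z) := by
  induction n generalizing z with
  | zero => exact ⟨fun k hk => absurd hk (Nat.not_lt_zero k), fun _ => rfl⟩
  | succ n ih =>
    have h0 : swn_g t d (n + 1) z = swn_g t d n (swn_c t d n z) := rfl
    rw [h0]
    by_cases hz : z ∈ swn_D t n
    · have h1 : swn_c t d n z ∈ swn_D t n := (swn_c_supp t hd n).mapsTo hz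
      have h2 : swn_g t d n (swn_c t d n z) = swn_c t d n z :=
        (ih _).2 fun k hk h3 => absurd (swn_disj ht h3 h1) hk.ne
      refine ⟨fun k hk h3 => ?_, fun h3 => absurd hz (h3 n (Nat.lt_succ_self n))⟩
      rw [h2, swn_disj ht h3 hz]
    · have h1 : swn_c t d n z = z := swn_c_supp t hd n z hz
      rw [h1]
      refine ⟨fun k hk h3 => ?_, fun h3 => (ih z).2 fun k hk => h3 k (by omega)⟩
      have h4 : k ≠ n := by
        rintro rfl
        exact hz h3
      exact (ih z).1 k (by omega) h3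

private theorem swn_close {d : P ≃ₜ P} (hd : SuppIn B0 d) (n : ℕ) (z : P) :
    dist (swn_G t d z) (swn_g t d n z) ≤ 16 * Real.exp (-2 * (n : ℝ)) := by
  have hpos : 0 ≤ 16 * Real.exp (-2 * (n : ℝ)) := by positivity
  by_cases h : ∃ k, z ∈ swn_D t k
  · obtain ⟨k, hk⟩ := h
    rw [swn_G_mem ht d hk]
    by_cases hkn : k < n
    · rw [(swn_g_spec ht hd n z).1 k hkn hk, dist_self]
      exact hpos
    · have h1 : swn_g t d n z = z :=
        (swn_g_spec ht hd n z).2 fun j hj h2 => by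
          have := swn_disj ht h2 hk
          omega
      rw [h1, dist_eq_norm]
      have h2 := swn_D_norm ht hk
      have h3 := swn_D_norm ht ((swn_c_supp t hd k).mapsTo hk)
      have h4 : Real.exp (-2 * (k : ℝ)) ≤ Real.exp (-2 * (n : ℝ)) := by
        apply Real.exp_le_exp.2
        have : (n : ℝ) ≤ k := by exact_mod_cast not_lt.1 hkn
        linarith
      have h5 := norm_sub_le (swn_c t d k z) z
      linarith
  · have h' : ∀ k, z ∉ swn_D t k := fun k hk => h ⟨k, hk⟩
    rw [swn_G_not d h', (swn_g_spec ht hd n z).2 fun k _ => h' k, dist_self]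
    exact hpos

private theorem swn_G_cont {d : P ≃ₜ P} (hd : SuppIn B0 d) : Continuous (swn_G t d) := by
  have h1 : TendstoUniformly (fun (n : ℕ) (z : P) => swn_g t d n z) (swn_G t d) Filter.atTop := by
    rw [Metric.tendstoUniformly_iff]
    intro ε hε
    have h2 : Filter.Tendsto (fun n : ℕ => 16 * Real.exp (-2 * (n : ℝ))) Filter.atTop (𝓝 (16 * 0)) := by
      refine Filter.Tendsto.const_mul _ ?_
      refine Real.tendsto_exp_atBot.comp ?_
      refine Filter.Tendsto.const_mul_atTop_of_neg (by norm_num) ?_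
      exact tendsto_natCast_atTop_atTop
    rw [mul_zero] at h2
    have h3 := h2.eventually (gt_mem_nhds hε)
    refine h3.mono fun n hn z => ?_
    exact lt_of_le_of_lt (swn_close ht hd n z) hn
  exact h1.continuous (Filter.Frequently.of_forall fun n => (swn_g t d n).continuous)

private theorem swn_G_inv {d : P ≃ₜ P} (hd : SuppIn B0 d) (z : P) :
    swn_G t d⁻¹ (swn_G t d z) = z := by
  by_cases h : ∃ k, z ∈ swn_D t k
  · obtain ⟨k, hk⟩ := h
    rw [swn_G_mem ht d hk, swn_G_mem ht d⁻¹ ((swn_c_supp t hd k).mapsTo hk), swn_c_inv]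
    exact (swn_c t d k).symm_apply_apply z
  · have h' : ∀ k, z ∉ swn_D t k := fun k hk => h ⟨k, hk⟩
    rw [swn_G_not d h', swn_G_not d⁻¹ h']

private theorem swn_key {d : P ≃ₜ P} (hd : SuppIn B0 d) :
    ∃ g : P ≃ₜ P, SuppIn {z | ‖z‖ ≤ 8} g ∧ d = cm g t := by
  let g : P ≃ₜ P :=
    { toFun := swn_G t d
      invFun := swn_G t d⁻¹
      left_inv := swn_G_inv ht hd
      right_inv := fun z => by
        have h := swn_G_inv ht hd.inv z
        rwa [inv_inv] at h
      continuous_toFun := swn_G_cont ht hd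
      continuous_invFun := swn_G_cont ht hd.inv }
  have hg : ∀ z, g z = swn_G t d z := fun _ => rfl
  refine ⟨g, fun z hz => ?_, ?_⟩
  · rw [hg]
    refine swn_G_not d fun k hk => hz ?_
    have h1 := swn_D_norm ht hk
    have h2 : Real.exp (-2 * (k : ℝ)) ≤ 1 := by
      rw [← Real.exp_zero]
      apply Real.exp_le_exp.2
      have : (0 : ℝ) ≤ k := Nat.cast_nonneg k
      linarith
    show ‖z‖ ≤ 8
    linarith
  · have hD : ∀ (n : ℕ) (z : P), z ∈ swn_D t (n + 1) ↔ t.symm z ∈ swn_D t n := by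
      intro n z
      constructor
      · rintro ⟨b, hb, rfl⟩
        refine ⟨b, hb, ?_⟩
        rw [pow_succ']
        exact (t.symm_apply_apply _).symm
      · rintro ⟨b, hb, h1⟩
        refine ⟨b, hb, ?_⟩
        rw [pow_succ']
        show t ((t ^ n : P ≃ₜ P) b) = z
        rw [h1, t.apply_symm_apply]
    have hc : ∀ n : ℕ, swn_c t d (n + 1) = t * swn_c t d n * t⁻¹ := by
      intro n
      unfold swn_c
      rw [pow_succ']
      group
    have h0 : swn_D t 0 = B0 := by
      unfold swn_D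
      rw [pow_zero]
      exact Set.image_id _
    have hc0 : swn_c t d 0 = d := by
      unfold swn_c
      simp
    have hmain : d * (t * g * t⁻¹) = g := by
      ext z : 1
      show d (t (g (t.symm z))) = g z
      rw [hg, hg]
      by_cases h : ∃ k, t.symm z ∈ swn_D t k
      · obtain ⟨k, hk⟩ := h
        have hk' : z ∈ swn_D t (k + 1) := (hD k z).2 hk
        rw [swn_G_mem ht d hk, swn_G_mem ht d hk']
        have h1 : t (swn_c t d k (t.symm z)) = swn_c t d (k + 1) z := by
          rw [hc]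
          rfl
        rw [h1]
        refine hd _ fun h2 => ?_
        rw [← h0] at h2
        have h3 := swn_disj ht h2 ((swn_c_supp t hd (k + 1)).mapsTo hk')
        omega
      · have h' : ∀ k, t.symm z ∉ swn_D t k := fun k hk => h ⟨k, hk⟩
        rw [swn_G_not d h', t.apply_symm_apply]
        by_cases hz : z ∈ B0
        · have hz' : z ∈ swn_D t 0 := by rwa [h0]
          rw [swn_G_mem ht d hz', hc0]
        · have h2 : ∀ k, z ∉ swn_D t k := by
            intro k
            cases k with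
            | zero => rwa [h0]
            | succ k => exact fun h3 => h' k ((hD k z).1 h3)
          rw [swn_G_not d h2, hd z hz]
    have h1 : d = g * (t * g * t⁻¹)⁻¹ := eq_mul_inv_of_mul_eq hmain
    rw [h1]
    unfold cm
    group

end key

private theorem swn_pow (φ : Flow ℝ P) (n : ℕ) (z : P) :
    ((φ.toHomeomorph 1) ^ n : P ≃ₜ P) z = φ (n : ℝ) z := by
  induction n generalizing z with
  | zero =>
    rw [pow_zero, Nat.cast_zero, φ.map_zero]
    rfl
  | succ n ih =>
    rw [pow_succ]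
    show ((φ.toHomeomorph 1) ^ n : P ≃ₜ P) (φ 1 z) = _
    rw [ih, ← φ.map_add]
    push_cast
    rfl

theorem tSwn (hRad : S_Rad) : S_Swn := by
  intro d hd
  obtain ⟨φ, h8, h4⟩ := hRad
  have ht : ∀ (n : ℕ) (z : P), ‖z‖ ≤ 4 →
      ‖((φ.toHomeomorph 1) ^ n : P ≃ₜ P) z‖ ≤ 8 * Real.exp (-2 * (n : ℝ)) := by
    intro n z hz
    rw [swn_pow]
    exact h4 n z (Nat.cast_nonneg n) hz
  obtain ⟨g, hg, hgd⟩ := swn_key ht hd
  exact ⟨g, φ, hg, h8, hgd⟩

end Pool.Agent.MPe54d61.TC
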