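import Pool.Agent.Lib.MP_e54d61_gt.TC.SpecS

/-!
# MP_e54d61_gt, torus case, module ThPot: potentials on theta graphs
-/

set_option autoImplicit false

namespace Pool.Agent.MPe54d61.TC

open SimpleGraph MatrixGroups

private theorem thpot_closed (h1 : S_Pot) (h2 : S_PotCls) (V : Type) (Γ : SimpleGraph V)
    (ρ : V → V → ℝ) (hρ : Anti ρ) (x : V) (c : Γ.Walk x x) (hc : c.support.tail.Nodup)
    (h0 : cls ρ c = 0) :
    ∃ φ : V → ℝ, ∀ a b, s(a, b) ∈ eds c → ρ a b = φ b - φ a := by
  cases c with
  | nil =>
    refine ⟨fun _ => 0, fun a b hab => ?_⟩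
    rw [eds_nil] at hab
    exact hab.elim
  | @cons _ z _ h p =>
    rw [Walk.support_cons, List.tail_cons] at hc
    obtain ⟨φ, hφ⟩ := h1 V ℝ _ Γ ρ hρ z x p ((Walk.isPath_def p).2 hc)
    have h3 := h2 V ℝ _ Γ ρ (eds p) φ hφ z x p (fun e he => he)
    rw [cls_cons, h3] at h0
    refine ⟨φ, fun a b hab => ?_⟩
    rcases (mem_eds_cons h p _).1 hab with hab | hab
    · rcases Sym2.eq_iff.1 hab with ⟨ha, hb⟩ | ⟨ha, hb⟩
      · rw [ha, hb]
        linarith
      · rw [ha, hb, hρ x z]
        linarith
    · exact hφ a b hab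

private theorem mem_tail_of_not_nil {V : Type} {Γ : SimpleGraph V} {u v : V} (p : Γ.Walk u v)
    (hp : ¬ p.Nil) : v ∈ p.support.tail := by
  cases p with
  | nil => exact absurd Walk.Nil.nil hp
  | cons h q =>
    rw [Walk.support_cons, List.tail_cons]
    exact q.end_mem_support

private theorem mem_supp {V : Type} {Γ : SimpleGraph V} {u v : V} (p : Γ.Walk u v) (z : V)
    (hz : z ∈ p.support) : z = u ∨ z ∈ p.support.tail := by
  cases p with
  | nil => exact Or.inl (by simpa using hz)
  | cons h q =>
    rw [Walk.support_cons, List.mem_cons] at hz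
    rw [Walk.support_cons, List.tail_cons]
    exact hz

private theorem mem_supp_of_eds {V : Type} {Γ : SimpleGraph V} {u v : V} (p : Γ.Walk u v)
    (a b : V) (h : s(a, b) ∈ eds p) : a ∈ p.support ∧ b ∈ p.support :=
  ⟨Walk.fst_mem_support_of_mem_edges p h, Walk.snd_mem_support_of_mem_edges p h⟩

theorem tThPot (h1 : S_Pot) (h2 : S_PotCls) : S_ThPot := by
  intro V M _ Γ κ ρ hρ x y s α β hsα hsβ hint hα hβ
  obtain ⟨φ, hφ⟩ := thpot_closed h1 h2 V Γ ρ hρ x (s.append α) hsα.1 hα
  have hd := (ess_append_iff s β).1 hsβ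
  by_cases hn : β.Nil
  · refine ⟨φ, fun a b hab => hφ a b ?_⟩
    rw [eds_append]
    rcases hab with hab | hab
    · exact hab
    · exfalso
      change s(a, b) ∈ β.edges at hab
      rw [Walk.edges_eq_nil.2 hn] at hab
      exact absurd hab (List.not_mem_nil)
  · -- a potential for the second arc
    have hpot : ∃ ψ : V → ℝ, ∀ a b, s(a, b) ∈ eds β → ρ a b = ψ b - ψ a := by
      by_cases hxy : x = y
      · subst hxy
        have hs : s.Nil := by
          by_contra hs
          exact hd.2.2.1 (mem_tail_of_not_nil s hs) (mem_tail_of_not_nil β hn)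
        have hs0 : cls ρ s = 0 := by
          cases s with
          | nil => rfl
          | cons h q => exact absurd hs Walk.not_nil_cons
        rw [cls_append, hs0, zero_add] at hβ
        exact thpot_closed h1 h2 V Γ ρ hρ x β hd.2.1 hβ
      · have hs : ¬ s.Nil := fun hs => hxy hs.eq
        have hy : y ∉ β.support.tail := fun h => hd.2.2.1 (mem_tail_of_not_nil s hs) h
        have hp : β.IsPath := by
          rw [Walk.isPath_def, ← Walk.cons_tail_support]
          exact List.nodup_cons.2 ⟨hy, hd.2.1⟩
        exact h1 V ℝ _ Γ ρ hρ y x β hp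
    obtain ⟨ψ1, hψ1⟩ := hpot
    set ψ0 : V → ℝ := fun z => ψ1 z + (φ y - ψ1 y) with hψ0
    have hψ0' : ∀ a b, s(a, b) ∈ eds β → ρ a b = ψ0 b - ψ0 a := by
      intro a b hab
      rw [hψ1 a b hab, hψ0]
      ring
    have hy : ψ0 y = φ y := by
      rw [hψ0]
      ring
    have hx : ψ0 x = φ x := by
      have e1 := h2 V ℝ _ Γ ρ (eds β) ψ0 hψ0' y x β (fun e he => he)
      have e2 := h2 V ℝ _ Γ ρ (eds (s.append α)) φ hφ x y s (fun e he => by
        rw [eds_append]; exact Or.inl he)
      rw [cls_append] at hβ
      linarith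
    classical
    refine ⟨fun z => if z ∈ (s.append α).support then φ z else ψ0 z, fun a b hab => ?_⟩
    rcases hab with hab | hab
    · rw [← eds_append] at hab
      obtain ⟨ha, hb⟩ := mem_supp_of_eds _ a b hab
      simp only [if_pos ha, if_pos hb]
      exact hφ a b hab
    · obtain ⟨ha, hb⟩ := mem_supp_of_eds _ a b hab
      have key : ∀ z ∈ β.support, (if z ∈ (s.append α).support then φ z else ψ0 z) = ψ0 z := by
        intro z hz
        split_ifs with hz'
        · have hxy' : z = x ∨ z = y := by
            rcases (Walk.mem_support_append_iff s α).1 hz' with h | h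
            · rcases mem_supp s z h with h | h
              · exact Or.inl h
              · rcases mem_supp β z hz with h' | h'
                · exact Or.inr h'
                · exact absurd h' (fun h' => hd.2.2.1 h h')
            · exact hint z h hz
          rcases hxy' with h | h
          · rw [h, hx]
          · rw [h, hy]
        · rfl
      simp only [key a ha, key b hb]
      exact hψ0' a b hab

end Pool.Agent.MPe54d61.TC
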