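import Pool.Agent.Lib.MP_e54d61_gt.TC.SpecH

/-!
# MP_e54d61_gt, torus case, part H: a level far from the vertices
-/

set_option autoImplicit false

namespace Pool.Agent.MPe54d61.TC

theorem tTheta : S_Theta := by
  intro N _ U hU
  by_contra hcon
  push Not at hcon
  choose a n han using hcon
  have hN : (0 : ℝ) < (N : ℝ) ^ 2 + 1 := by positivity
  have hcard : Fintype.card (ZMod N × ZMod N) < Fintype.card (Fin (N ^ 2 + 1)) := by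
    rw [Fintype.card_prod, ZMod.card, Fintype.card_fin, ← sq]
    omega
  obtain ⟨i, j, hij, hf⟩ := Fintype.exists_ne_map_eq_of_card_lt
    (fun i : Fin (N ^ 2 + 1) => (((a ((i : ℕ) / ((N : ℝ) ^ 2 + 1))).1 : ZMod N),
      ((a ((i : ℕ) / ((N : ℝ) ^ 2 + 1))).2 : ZMod N))) hcard
  have h1 := han ((i : ℕ) / ((N : ℝ) ^ 2 + 1))
  have h2 := han ((j : ℕ) / ((N : ℝ) ^ 2 + 1))
  set x := a ((i : ℕ) / ((N : ℝ) ^ 2 + 1)) with hx
  set y := a ((j : ℕ) / ((N : ℝ) ^ 2 + 1)) with hy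
  obtain ⟨hf1, hf2⟩ := Prod.mk.inj hf
  obtain ⟨v1, hv1⟩ := (ZMod.intCast_eq_intCast_iff_dvd_sub _ _ _).1 hf1
  obtain ⟨v2, hv2⟩ := (ZMod.intCast_eq_intCast_iff_dvd_sub _ _ _).1 hf2
  have hxy : y = x + (N : ℤ) • (v1, v2) := by
    apply Prod.ext
    · change y.1 = x.1 + (N : ℤ) • v1
      rw [smul_eq_mul]
      linarith
    · change y.2 = x.2 + (N : ℤ) • v2
      rw [smul_eq_mul]
      linarith
  obtain ⟨m, hm⟩ := hU x (v1, v2)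
  rw [← hxy] at hm
  rw [hm] at h2
  set k : ℤ := (i : ℕ) - (j : ℕ) + (n ((i : ℕ) / ((N : ℝ) ^ 2 + 1)) -
    n ((j : ℕ) / ((N : ℝ) ^ 2 + 1)) + m) * ((N : ℤ) ^ 2 + 1) with hk
  have hk0 : k ≠ 0 := by
    intro h0
    have h3 : ((N : ℤ) ^ 2 + 1) ∣ ((i : ℕ) : ℤ) - ((j : ℕ) : ℤ) :=
      ⟨-(n ((i : ℕ) / ((N : ℝ) ^ 2 + 1)) - n ((j : ℕ) / ((N : ℝ) ^ 2 + 1)) + m), by
        rw [hk] at h0
        linarith⟩
    have hi : ((i : ℕ) : ℤ) < (N : ℤ) ^ 2 + 1 := by exact_mod_cast i.2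
    have hj : ((j : ℕ) : ℤ) < (N : ℤ) ^ 2 + 1 := by exact_mod_cast j.2
    have h4 : ((i : ℕ) : ℤ) - ((j : ℕ) : ℤ) = 0 := Int.eq_zero_of_abs_lt_dvd h3 (by
      rw [abs_lt]
      constructor <;> omega)
    exact hij (Fin.ext (by omega))
  have hk1 : (1 : ℝ) ≤ |(k : ℝ)| := by
    have := Int.one_le_abs hk0
    exact_mod_cast this
  have hk2 : (k : ℝ) / ((N : ℝ) ^ 2 + 1) = (U x + m - ((j : ℕ) / ((N : ℝ) ^ 2 + 1) +
      n ((j : ℕ) / ((N : ℝ) ^ 2 + 1)))) - (U x - ((i : ℕ) / ((N : ℝ) ^ 2 + 1) +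
      n ((i : ℕ) / ((N : ℝ) ^ 2 + 1)))) := by
    rw [hk]
    push_cast
    field_simp
    ring
  have hk3 : |(k : ℝ) / ((N : ℝ) ^ 2 + 1)| < 1 / ((N : ℝ) ^ 2 + 1) := by
    rw [hk2]
    refine (abs_sub _ _).trans_lt ?_
    have h5 : 1 / ((N : ℝ) ^ 2 + 1) =
        1 / (2 * ((N : ℝ) ^ 2 + 1)) + 1 / (2 * ((N : ℝ) ^ 2 + 1)) := by
      field_simp
      ring
    rw [h5]
    exact add_lt_add h2 h1
  rw [abs_div, abs_of_pos hN, div_lt_div_iff_of_pos_right hN] at hk3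
  linarith

end Pool.Agent.MPe54d61.TC
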