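import Pool.Agent.Lib.MP_e54d61_gt.TC.SpecB

/-!
# MP_e54d61_gt, torus case, part B: thin triangles
-/

set_option autoImplicit false

namespace Pool.Agent.MPe54d61.TC

open SimpleGraph

private theorem bic_comm {V M : Type} [AddCommGroup M] {Γ : SimpleGraph V} {κ : V → V → M}
    {A B C : Set (Sym2 V)} (h : Bic Γ κ A B C) : Bic Γ κ B A C := by
  obtain ⟨x, y, p, q, h1, h2, h3, rfl⟩ := h
  exact ⟨y, x, q, p, ess_comm h1, h3, h2, by rw [eds_append, eds_append, Set.union_comm]⟩

private theorem bic_right {V M : Type} [AddCommGroup M] {Γ : SimpleGraph V} {κ : V → V → M}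
    {A B : Set (Sym2 V)} (h : EC Γ κ B) : Bic Γ κ A B B := by
  obtain ⟨x, c, h1, rfl⟩ := h
  exact ⟨x, x, Walk.nil, c, h1, by simp, subset_rfl, rfl⟩

private theorem end_mem_tail {V : Type} {Γ : SimpleGraph V} {x y : V} (p : Γ.Walk x y)
    (h : ¬ p.Nil) : y ∈ p.support.tail := by
  cases p with
  | nil => exact absurd Walk.Nil.nil h
  | cons h' p => simp

theorem tThin (hEcSub : S_EcSub) (hPot : S_Pot) (hGood : S_Good) (hThinP : S_ThinP) : S_Thin := by
  intro V M inst Γ κ hκ A B D C hA hB hD hC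
  obtain ⟨x, y, p, q, hess, hpA, hqB, rfl⟩ := hC
  have hEC : EC Γ κ (eds (p.append q)) := ⟨x, p.append q, hess, rfl⟩
  by_cases hpn : p.Nil
  · have h1 : eds (p.append q) ⊆ B := by
      cases p with
      | nil => simpa using hqB
      | cons h' p => exact absurd hpn (by simp)
    have h2 := hEcSub V M inst Γ κ hκ _ _ hEC hB h1
    exact ⟨B, B, B, hB, hB, hB, Or.inl h2, Or.inl rfl, Or.inl rfl, Or.inr (bic_right hB)⟩
  by_cases hqn : q.Nil
  · have h1 : eds (p.append q) ⊆ A := by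
      cases q with
      | nil => simpa using hpA
      | cons h' q => exact absurd hqn (by simp)
    have h2 := hEcSub V M inst Γ κ hκ _ _ hEC hA h1
    exact ⟨A, A, A, hA, hA, hA, Or.inl h2, Or.inl rfl, Or.inl rfl,
      Or.inl (bic_comm (bic_right hA))⟩
  obtain ⟨h1, h2, h3, _⟩ := (ess_append_iff p q).1 hess
  have hy := end_mem_tail p hpn
  have hx := end_mem_tail q hqn
  have hne : x ≠ y := by
    rintro rfl
    exact h3 hy hx
  have hp : p.IsPath := by
    rw [Walk.isPath_def, ← Walk.cons_tail_support, List.nodup_cons]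
    exact ⟨fun h => h3 h hx, h1⟩
  have hq : q.IsPath := by
    rw [Walk.isPath_def, ← Walk.cons_tail_support, List.nodup_cons]
    exact ⟨fun h => h3 hy h, h2⟩
  by_cases hex : ∃ v ∈ vts D, v ∈ p.support ∨ v ∈ q.support
  · obtain ⟨φ, hφ⟩ := hPot V M inst Γ κ hκ x y p hp
    obtain ⟨ψ, hψ⟩ := hPot V M inst Γ κ hκ y x q hq
    rcases hGood V M inst Γ κ D hD x y p q φ ψ hex with hG | hG
    · obtain ⟨C3, Cs, C1, a1, a2, a3, a4, a5, a6, a7⟩ := hThinP V M inst Γ κ hκ A D hA hD x y p q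
        hne hess hpA φ ψ hφ hψ hG
      exact ⟨C3, Cs, C1, a1, a2, a3, a4, a5, a6, Or.inl a7⟩
    · obtain ⟨C3, Cs, C1, a1, a2, a3, a4, a5, a6, a7⟩ := hThinP V M inst Γ κ hκ B D hB hD y x q p
        hne.symm (ess_comm hess) hqB ψ φ hψ hφ hG
      have h4 : eds (q.append p) = eds (p.append q) := by
        rw [eds_append, eds_append, Set.union_comm]
      rw [h4] at a4
      exact ⟨C3, Cs, C1, a1, a2, a3, a4, a5, a6, Or.inr (bic_comm a7)⟩
  · refine ⟨D, D, D, hD, hD, hD, Or.inr (Or.inl ?_), Or.inl rfl, Or.inl rfl,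
      Or.inl (bic_right hD)⟩
    intro v hv hvD
    obtain ⟨e, he, hve⟩ := hv
    have h5 : v ∈ (p.append q).support := Walk.mem_support_of_mem_edges he hve
    rw [Walk.mem_support_append_iff] at h5
    exact hex ⟨v, hvD, h5⟩

end Pool.Agent.MPe54d61.TC
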