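import Pool.Agent.Lib.MP_e54d61_gt.TC.SpecE

/-!
# MP_e54d61_gt, torus case, part E: thin triangles (`S_ThinE`)
-/

set_option autoImplicit false

namespace Pool.Agent.MPe54d61.TC

open SimpleGraph Filter Topology

private theorem nr_add {m n : ℕ} {x y z : X} (h : NR m x y) (h' : NR n y z) : NR (m + n) x z := by
  obtain ⟨p, hp⟩ := h
  obtain ⟨q, hq⟩ := h'
  exact ⟨p.append q, by rw [Walk.length_append]; omega⟩

private theorem av_sub (hSubG : S_SubG) {N k : ℕ} (hN : 3 ≤ N) (hk : 1 ≤ k) {x : X}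
    {A : Set (Sym2 (VN N))} (h : Av N x A) : Av (k * N) x (sub N k A) :=
  Set.disjoint_left.2 fun _ hz hz' => Set.disjoint_left.1 h hz (hSubG N k hN hk A hz')

theorem tThinE (hGrid : S_Grid) (hAvEx : S_AvEx) (hSubB : S_SubB) (hSubG : S_SubG)
    (hThin : S_Thin) : S_ThinE := by
  rintro N1 ⟨hN1, hBig⟩ x y z w ⟨N, A, B, C, hN, hA, hB, hC, hbic, hxA, hyB, hwC⟩
  have hN3 : 3 ≤ N := hN1.trans hN
  obtain ⟨N0, hN0⟩ := hAvEx z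
  obtain ⟨k, hk1, hkN0⟩ : ∃ k : ℕ, 1 ≤ k ∧ N0 ≤ k := ⟨1 + N0, by omega, by omega⟩
  have hkm : k ≤ k * N := Nat.le_mul_of_pos_right _ (by omega)
  have hNm : N ≤ k * N := Nat.le_mul_of_pos_left _ (by omega)
  obtain ⟨D, hD, hzD⟩ := hN0 (k * N) (hkN0.trans hkm)
  have hA' := (hSubB N k hN3 hk1 A B A).1 hA
  have hB' := (hSubB N k hN3 hk1 B B B).1 hB
  have hC' := (hSubB N k hN3 hk1 C C C).1 hC
  have hbic' := (hSubB N k hN3 hk1 A B C).2 hbic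
  obtain ⟨C3, Cs, C1, h3, hs, h1, r3, rs, r1, hb⟩ := hThin (VN (k * N)) (ℤ × ℤ) _ (GN (k * N))
    (kN (k * N)) (hGrid (k * N) (hN3.trans hNm)).1 _ _ D _ hA' hB' hD hbic'
  obtain ⟨hex, hnr⟩ := hBig (k * N) (hN.trans hNm)
  obtain ⟨z3, hz3⟩ := hex C3 h3
  obtain ⟨zs, hzs⟩ := hex Cs hs
  obtain ⟨w', hw'⟩ := hex C1 h1
  refine ⟨w', ?_, nr_add (nr_add (hnr _ _ hC' h3 r3 w z3 (av_sub hSubG hN3 hk1 hwC) hz3)
    (hnr _ _ h3 hs rs z3 zs hz3 hzs)) (hnr _ _ hs h1 r1 zs w' hzs hw')⟩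
  rcases hb with hb | hb
  · exact Or.inl ⟨k * N, _, D, C1, hN.trans hNm, hA', hD, h1, hb, av_sub hSubG hN3 hk1 hxA, hzD, hw'⟩
  · exact Or.inr ⟨k * N, D, _, C1, hN.trans hNm, hD, hB', h1, hb, hzD, av_sub hSubG hN3 hk1 hyB, hw'⟩

end Pool.Agent.MPe54d61.TC
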