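import Pool.Agent.Lib.MP_e54d61_gt.TC.SpecB

set_option autoImplicit false

namespace Pool.Agent.MPe54d61.TC

open SimpleGraph

namespace ThinPAux

variable {V M : Type} [AddCommGroup M] {Γ : SimpleGraph V} {κ : V → V → M} {u v w x y : V}

theorem cls_of_nil {c : Γ.Walk u v} (h : c.Nil) : u = v ∧ cls κ c = 0 := by
  cases c with
  | nil => exact ⟨rfl, rfl⟩
  | cons h' p => exact absurd h Walk.not_nil_cons

theorem ess_ne {c : Γ.Walk x x} (h : Ess κ c) : ¬ c.Nil := fun hn => h.2 (cls_of_nil hn).2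

theorem app_nl {p : Γ.Walk u v} {q : Γ.Walk v w} (h : ¬ p.Nil) : ¬ (p.append q).Nil := by
  rw [Walk.nil_append_iff]
  exact fun h' => h h'.1

theorem app_nr {p : Γ.Walk u v} {q : Γ.Walk v w} (h : ¬ q.Nil) : ¬ (p.append q).Nil := by
  rw [Walk.nil_append_iff]
  exact fun h' => h h'.2

theorem path_of_ess {a : Γ.Walk u v} {b : Γ.Walk v u} (h : Ess κ (a.append b)) (hb : ¬ b.Nil) :
    a.IsPath := by
  rw [ess_append_iff] at h
  rw [Walk.isPath_def, ← Walk.cons_tail_support, List.nodup_cons]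
  refine ⟨fun h' => h.2.2.1 h' ?_, h.1⟩
  exact Walk.end_mem_tail_support hb

theorem split_inner {δ : Γ.Walk u v} {z : V} (hz : z ∈ δ.support) (h1 : z ≠ u) (h2 : z ≠ v) :
    ∃ (δ1 : Γ.Walk u z) (δ2 : Γ.Walk z v), δ = δ1.append δ2 ∧ ¬ δ1.Nil ∧ ¬ δ2.Nil := by
  classical
  exact ⟨δ.takeUntil z hz, δ.dropUntil z hz, (Walk.take_spec δ hz).symm,
    Walk.not_nil_of_ne (Ne.symm h1), Walk.not_nil_of_ne h2⟩

theorem mem_supp {a : Γ.Walk u u} {b : Γ.Walk v v} (h : eds a = eds b) (ha : ¬ a.Nil)
    (hb : ¬ b.Nil) {z : V} (hz : z ∈ a.support) : z ∈ b.support := by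
  have h1 : z ∈ vts (eds a) := by
    rw [vts_eds_of_ne ha]
    exact hz
  rw [h, vts_eds_of_ne hb] at h1
  exact h1

theorem tail_mem {p : Γ.Walk u v} {z : V} (h : z ∈ p.support.tail) : z ∈ p.support :=
  List.mem_of_mem_tail h

/-- replace the middle part of an essential walk -/
theorem repl {w' : V} {η1 : Γ.Walk u w} {δ2 E : Γ.Walk w w'} {η2 : Γ.Walk w' v} {a1 : Γ.Walk v u}
    (hn1 : ¬ η1.Nil) (h : Ess κ (η1.append (δ2.append (η2.append a1))))
    (hE : E.IsPath) (hc : cls κ E = cls κ δ2) (h1 : ∀ z ∈ η1.support, z ∈ E.support → z = w)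
    (h2 : ∀ z ∈ η2.support, z ∈ E.support → z = w') (h3 : ∀ z ∈ a1.support, z ∉ E.support) :
    Ess κ (η1.append (E.append (η2.append a1))) := by
  have hE2 : E.support.tail.Nodup ∧ w ∉ E.support.tail := by
    have := hE.support_nodup
    rw [← Walk.cons_tail_support, List.nodup_cons] at this
    exact ⟨this.2, this.1⟩
  have hη2 : w' ∉ η2.support.tail := by
    have h4 : Ess κ ((η1.append δ2).append (η2.append a1)) := by
      rw [← Walk.append_assoc]
      exact h
    have h5 := ess_comm h4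
    rw [← Walk.append_assoc] at h5
    have h6 := path_of_ess h5 (app_nr (app_nl hn1))
    have := h6.support_nodup
    rw [← Walk.cons_tail_support, List.nodup_cons] at this
    exact this.1
  rw [Ess, Walk.tail_support_append, Walk.tail_support_append, Walk.tail_support_append,
    cls_append, cls_append, cls_append] at h ⊢
  rw [hc]
  refine ⟨?_, h.2⟩
  have h0 := h.1
  rw [List.nodup_append', List.nodup_append', List.nodup_append'] at h0 ⊢
  simp only [List.disjoint_append_right] at h0 ⊢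
  refine ⟨h0.1, ⟨hE2.1, h0.2.1.2.1, ?_, ?_⟩, ?_, h0.2.2.2⟩
  · intro z hz hz'
    have := h2 z (tail_mem hz') (tail_mem hz)
    subst this
    exact hη2 hz'
  · intro z hz hz'
    exact h3 z (tail_mem hz') (tail_mem hz)
  · intro z hz hz'
    have := h1 z (tail_mem hz) (tail_mem hz')
    subst this
    exact hE2.2 hz'

theorem adjS_symm {C C' : Set (Sym2 V)} (h : AdjS κ C C') : AdjS κ C' C := by
  obtain ⟨φ, l, h⟩ := h
  exact ⟨φ, l, fun u v huv => h u v (by rw [Set.union_comm]; exact huv)⟩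

end ThinPAux

open ThinPAux

theorem tThinP (hArc : S_Arc) (hHits : S_Hits) (hSplitP : S_SplitP) (hEssGlue : S_EssGlue)
    (hPotCls : S_PotCls) (hCirc : S_Circ) (hSAdj : S_SAdj) (hThreeA : S_ThreeA)
    (hThreeB : S_ThreeB) : S_ThinP := by
  intro V M _ Γ κ hκ A D hA hD x y p q hxy hpq hpA φ ψ hφ hψ hGA
  obtain ⟨u, v, δ, hδ, hup, hvp, hcl, h5, h6⟩ := hGA
  obtain ⟨hδn, hδD⟩ := (hArc V M _ Γ κ D hD).2.2 u v δ hδ
  have hnil : ¬ δ.Nil := fun hn => by
    obtain ⟨e, h0⟩ := cls_of_nil (κ := κ) hn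
    apply hcl
    rw [h0, e, sub_self]
  have hu : u ∈ δ.support.tail → u = v := by
    intro hu
    obtain ⟨δ', hδ', -⟩ := hδ
    rw [ess_append_iff] at hδ'
    by_contra hne
    exact hδ'.2.2.1 hu (Walk.end_mem_tail_support (Walk.not_nil_of_ne (Ne.symm hne)))
  have hin : ∀ z ∈ δ.support, z ∈ p.support → z = u ∨ z = v := by
    intro z hz hzp
    by_contra hne
    rw [not_or] at hne
    obtain ⟨δ1, δ2, e, n1, n2⟩ := split_inner hz hne.1 hne.2
    exact h5 z δ1 δ2 e n1 n2 hzp
  have hglue : ∀ a : Γ.Walk v u, a.IsPath → a.support ⊆ p.support → eds a ⊆ eds p →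
      Ess κ (δ.append a) := by
    intro a ha has hae
    refine hEssGlue V M _ Γ κ u v δ a hδn ha hu (fun z hz hz' => hin z hz (has hz')) ?_
    rw [hPotCls V M _ Γ κ (eds p) φ hφ v u a hae]
    intro h0
    apply hcl
    rw [← sub_eq_zero, ← h0]
    abel
  have hpqn : ¬ (p.append q).Nil := ess_ne hpq
  rcases hHits V Γ u v δ {z | z ∈ q.support} hδn hnil with hno | hits
  · obtain ⟨a, a', h1, h2, h3, h4, h7⟩ := hSplitP V M _ Γ κ hκ x y p q hxy hpq u hup v hvp
    have hE := ess_comm (hglue a h7 h4 h3)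
    have hEC : EC Γ κ (eds (a.append δ)) := ⟨v, _, hE, rfl⟩
    refine ⟨eds (a.append δ), eds (a.append δ), eds (a.append δ), hEC, hEC, hEC, ?_, Or.inl rfl,
      Or.inl rfl, v, u, a, δ, hE, h3.trans hpA, hδD, rfl⟩
    refine Or.inr (Or.inr (Or.inl ⟨v, u, a, a', δ, h1, hE, h2, rfl, ?_⟩))
    intro z hz hz'
    have h8 : z ∈ (p.append q).support := mem_supp h2 (ess_ne h1) hpqn
      (by rw [Walk.mem_support_append_iff]; exact Or.inr hz)
    rw [Walk.mem_support_append_iff] at h8
    rcases h8 with h8 | h8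
    · exact (hin z hz' h8).symm
    · by_contra hne
      rw [not_or] at hne
      obtain ⟨δ1, δ2, e, n1, n2⟩ := split_inner hz' hne.2 hne.1
      exact hno z δ1 δ2 e n1 n2 h8
  · obtain ⟨w, w', η1, δ2, η2, e, n1, n2, hw, hw', i1, i2⟩ := hits
    change w ∈ q.support at hw
    change w' ∈ q.support at hw'
    have hwp : w ∉ p.support := h5 w η1 (δ2.append η2) e n1 (app_nr n2)
    have hwp' : w' ∉ p.support := h5 w' (η1.append δ2) η2 (by rw [e, Walk.append_assoc])
      (app_nl n1) n2
    have huw : u ≠ w := fun h => hwp (h ▸ hup)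
    have huw' : u ≠ w' := fun h => hwp' (h ▸ hup)
    have hvw : v ≠ w := fun h => hwp (h ▸ hvp)
    have hvw' : v ≠ w' := fun h => hwp' (h ▸ hvp)
    have j1 : ∀ z ∈ η1.support, z ∈ (p.append q).support → z = u ∨ z = w := by
      intro z hz hzc
      by_contra hne
      rw [not_or] at hne
      obtain ⟨d1, d2, e1, m1, m2⟩ := split_inner hz hne.1 hne.2
      rw [Walk.mem_support_append_iff] at hzc
      rcases hzc with hzc | hzc
      · exact h5 z d1 (d2.append (δ2.append η2)) (by rw [e, e1, ← Walk.append_assoc]) m1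
          (app_nl m2) hzc
      · exact i1 z d1 d2 e1 m1 m2 hzc
    have j2 : ∀ z ∈ η2.support, z ∈ (p.append q).support → z = w' ∨ z = v := by
      intro z hz hzc
      by_contra hne
      rw [not_or] at hne
      obtain ⟨d1, d2, e1, m1, m2⟩ := split_inner hz hne.1 hne.2
      rw [Walk.mem_support_append_iff] at hzc
      rcases hzc with hzc | hzc
      · exact h5 z (η1.append (δ2.append d1)) d2 (by
          rw [e, e1, ← Walk.append_assoc, ← Walk.append_assoc]) (app_nl n1) m2 hzc
      · exact i2 z d1 d2 e1 m1 m2 hzc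
    -- the common part of the two cases
    have key : ∀ (a1 : Γ.Walk v u) (E : Γ.Walk w w'), a1.IsPath → a1.support ⊆ p.support →
        eds a1 ⊆ eds p → E.IsPath → E.support ⊆ q.support → eds E ⊆ eds q →
        (∀ z ∈ E.support, z ∉ p.support) →
        Ess κ (η1.append (δ2.append (η2.append a1))) ∧
        Ess κ (η1.append (E.append (η2.append a1))) ∧
        AdjS κ (eds (η1.append (δ2.append (η2.append a1))))
          (eds (η1.append (E.append (η2.append a1)))) ∧
        Bic Γ κ A D (eds (η1.append (δ2.append (η2.append a1)))) := by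
      intro a1 E ha1 ha1s ha1e hE hEs hEe hEp
      have g1 := hglue a1 ha1 ha1s ha1e
      have g2 : δ.append a1 = η1.append (δ2.append (η2.append a1)) := by
        rw [e, ← Walk.append_assoc, ← Walk.append_assoc]
      have g3 : Ess κ (η1.append (δ2.append (η2.append a1))) := g2 ▸ g1
      have hcE : cls κ E = cls κ δ2 := by
        rw [hPotCls V M _ Γ κ (eds q) ψ hψ w w' E hEe, h6 w w' η1 δ2 η2 e n1 n2 hw hw']
      have g4 : Ess κ (η1.append (E.append (η2.append a1))) := by
        refine repl n1 g3 hE hcE ?_ ?_ ?_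
        · intro z hz hz'
          rcases j1 z hz (by rw [Walk.mem_support_append_iff]; exact Or.inr (hEs hz')) with h | h
          · exact absurd (h ▸ hup) (hEp z hz')
          · exact h
        · intro z hz hz'
          rcases j2 z hz (by rw [Walk.mem_support_append_iff]; exact Or.inr (hEs hz')) with h | h
          · exact h
          · exact absurd (h ▸ hvp) (hEp z hz')
        · intro z hz hz'
          exact hEp z hz' (ha1s hz)
      refine ⟨g3, g4, ?_, v, u, a1, δ, ess_comm g1, ha1e.trans hpA, hδD, ?_⟩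
      · refine hSAdj V M _ Γ κ hκ u v w w' η1 δ2 η2 a1 E n1 n2 g3 g4 ?_
        intro z d d' f f' hd hd'
        have hzE : z ∈ E.support := by
          rw [hd', Walk.mem_support_append_iff]
          exact Or.inl (Walk.end_mem_support _)
        have hd'e : eds d' ⊆ eds q := by
          refine Set.Subset.trans ?_ hEe
          rw [hd', eds_append]
          exact Set.subset_union_left
        rw [hPotCls V M _ Γ κ (eds q) ψ hψ w z d' hd'e]
        exact h6 w z η1 d (f.append η2) (by rw [e, hd, ← Walk.append_assoc]) n1 (app_nr n2) hw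
          (hEs hzE)
      · rw [← g2, eds_append, eds_append, Set.union_comm]
    rcases hCirc V M _ Γ κ hκ x y p q hxy hpq u hup v hvp w hw w' hw' hwp hwp' with hc | hc
    · obtain ⟨a1, a2, a3, a4, c1, c2, c3, c4, c5, c6, c7⟩ := hc
      have ha1 : a1.IsPath := path_of_ess c1 (app_nl (Walk.not_nil_of_ne huw))
      have ha3 : a3.IsPath := by
        have e1 : Ess κ ((a1.append a2).append (a3.append a4)) := by
          rw [← Walk.append_assoc]
          exact c1
        have e2 := ess_comm e1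
        rw [← Walk.append_assoc] at e2
        exact path_of_ess e2 (app_nl (Walk.not_nil_of_ne (Ne.symm hvw')))
      obtain ⟨g3, g4, g5, g6⟩ := key a1 a3 ha1 c4 c3 ha3 c6 c5 c7
      have hcn : ∀ z, z ∈ (a1.append (a2.append (a3.append a4))).support →
          z ∈ (p.append q).support := fun z hz => mem_supp c2 (ess_ne c1) hpqn hz
      obtain ⟨C3, k1, k2, k3⟩ := hThreeA V M _ Γ κ hκ u v w w' a1 a2 a3 a4 η1 η2 huw hvw' c1 g4
        (fun z hz hz' => j1 z hz (hcn z hz')) (fun z hz hz' => j2 z hz (hcn z hz'))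
      rw [c2] at k2
      exact ⟨C3, _, _, k1, ⟨_, _, g4, rfl⟩, ⟨_, _, g3, rfl⟩, Or.inr (Or.inr (Or.inl k2)),
        Or.inr (Or.inr (Or.inl k3)), Or.inr (Or.inr (Or.inr (adjS_symm g5))), g6⟩
    · obtain ⟨a1, a2, a3, a4, c1, c2, c3, c4, c5, c6, c7⟩ := hc
      have ha1 : a1.IsPath := path_of_ess c1 (app_nl (Walk.not_nil_of_ne huw'))
      have ha3 : a3.IsPath := by
        have e1 : Ess κ ((a1.append a2).append (a3.append a4)) := by
          rw [← Walk.append_assoc]
          exact c1
        have e2 := ess_comm e1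
        rw [← Walk.append_assoc] at e2
        exact path_of_ess e2 (app_nl (Walk.not_nil_of_ne (Ne.symm hvw)))
      have hr : ∀ z, z ∈ a3.reverse.support → z ∈ a3.support := fun z hz => by
        rw [Walk.support_reverse, List.mem_reverse] at hz
        exact hz
      obtain ⟨g3, g4, g5, g6⟩ := key a1 a3.reverse ha1 c4 c3 ha3.reverse
        (fun z hz => c6 (hr z hz)) (by rw [eds_reverse]; exact c5) (fun z hz => c7 z (hr z hz))
      have hcn : ∀ z, z ∈ (a1.append (a2.append (a3.append a4))).support →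
          z ∈ (p.append q).support := fun z hz => mem_supp c2 (ess_ne c1) hpqn hz
      obtain ⟨C3, k1, k2, k3⟩ := hThreeB V M _ Γ κ hκ u v w w' a1 a2 a3 a4 η1 η2 huw hvw' huw' hvw
        c1 g4 (fun z hz hz' => j1 z hz (hcn z hz')) (fun z hz hz' => j2 z hz (hcn z hz'))
      rw [c2] at k2
      exact ⟨C3, _, _, k1, ⟨_, _, g4, rfl⟩, ⟨_, _, g3, rfl⟩, Or.inr (Or.inr (Or.inl k2)),
        Or.inr (Or.inr (Or.inl k3)), Or.inr (Or.inr (Or.inr (adjS_symm g5))), g6⟩

end Pool.Agent.MPe54d61.TC
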