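import Pool.Agent.Lib.MP_e54d61_gt.TC.SpecB

/-!
# MP_e54d61_gt, torus case, part B: the third curve, first order
-/

set_option autoImplicit false

namespace Pool.Agent.MPe54d61.TC

open SimpleGraph

namespace ThreeAAux

variable {V M : Type} [AddCommGroup M] {Γ : SimpleGraph V} {κ : V → V → M} {x y : V}

theorem end_mem (p : Γ.Walk x y) (h : x ≠ y) : y ∈ p.support.tail := by
  rcases (Walk.mem_support_iff p).1 p.end_mem_support with h1 | h1
  · exact absurd h1.symm h
  · exact h1

theorem mem_of_tail {z : V} {p : Γ.Walk x y} (h : z ∈ p.support.tail) : z ∈ p.support :=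
  List.mem_of_mem_tail h

/-- the reverse of a path -/
theorem rev_tail (p : Γ.Walk x y) (h : p.support.tail.Nodup) (hx : x ∉ p.support.tail) :
    p.reverse.support.tail.Nodup ∧ y ∉ p.reverse.support.tail ∧
      ∀ z ∈ p.reverse.support.tail, z ∈ p.support := by
  have h1 : p.support.Nodup := by
    rw [← Walk.cons_tail_support]
    exact List.nodup_cons.2 ⟨hx, h⟩
  have h2 : p.reverse.support.Nodup := by
    rw [Walk.support_reverse]
    exact List.nodup_reverse.2 h1
  rw [← Walk.cons_tail_support] at h2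
  refine ⟨(List.nodup_cons.1 h2).2, (List.nodup_cons.1 h2).1, fun z hz => ?_⟩
  have h3 := mem_of_tail hz
  rw [Walk.support_reverse] at h3
  exact List.mem_reverse.1 h3

theorem ess4_iff {a b c d : V} (p : Γ.Walk a b) (q : Γ.Walk b c) (r : Γ.Walk c d)
    (s : Γ.Walk d a) : Ess κ (p.append (q.append (r.append s))) ↔
      (p.support.tail.Nodup ∧ q.support.tail.Nodup ∧ r.support.tail.Nodup ∧
        s.support.tail.Nodup) ∧
      (p.support.tail.Disjoint q.support.tail ∧ p.support.tail.Disjoint r.support.tail ∧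
        p.support.tail.Disjoint s.support.tail) ∧
      (q.support.tail.Disjoint r.support.tail ∧ q.support.tail.Disjoint s.support.tail) ∧
      r.support.tail.Disjoint s.support.tail ∧
      cls κ p + (cls κ q + (cls κ r + cls κ s)) ≠ 0 := by
  unfold Ess
  rw [Walk.tail_support_append, Walk.tail_support_append, Walk.tail_support_append,
    List.nodup_append', List.nodup_append', List.nodup_append', List.disjoint_append_right,
    List.disjoint_append_right, List.disjoint_append_right, cls_append, cls_append, cls_append]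
  constructor
  · rintro ⟨⟨h1, ⟨h2, ⟨h3, h4, h5⟩, h6, h7⟩, h8, h9, h10⟩, h11⟩
    exact ⟨⟨h1, h2, h3, h4⟩, ⟨h8, h9, h10⟩, ⟨h6, h7⟩, h5, h11⟩
  · rintro ⟨⟨h1, h2, h3, h4⟩, ⟨h8, h9, h10⟩, ⟨h6, h7⟩, h5, h11⟩
    exact ⟨⟨h1, ⟨h2, ⟨h3, h4, h5⟩, h6, h7⟩, h8, h9, h10⟩, h11⟩

end ThreeAAux

open ThreeAAux

theorem tThreeA (hEssRev : S_EssRev) : S_ThreeA := by
  intro V M _ Γ κ hκ u v w w' a1 a2 a3 a4 η1 η2 huw hvw hc hs h1 h2
  have hc' := (ess4_iff a1 a2 a3 a4).1 hc
  have hs' := (ess4_iff η1 a3 η2 a1).1 hs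
  obtain ⟨⟨n1, n2, n3, n4⟩, ⟨d12, d13, d14⟩, ⟨d23, d24⟩, d34, hcls⟩ := hc'
  obtain ⟨⟨m1, -, m2, -⟩, ⟨e13, e12, e11⟩, ⟨e32, e31⟩, e21, hcls'⟩ := hs'
  have hv4 : v ∈ a4.support.tail := end_mem a4 (Ne.symm hvw)
  have hvN : v ∈ η2.support.tail := end_mem η2 (Ne.symm hvw)
  have hw2 : w ∈ a2.support.tail := end_mem a2 huw
  have hu2 : u ∉ a2.support.tail := by
    intro h
    by_cases hv : v = u
    · exact d24 h (hv ▸ hv4)
    · exact d12 (end_mem a1 hv) h
  have huN : u ∉ η1.support.tail := by
    intro h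
    by_cases hv : v = u
    · exact e12 h (hv ▸ hvN)
    · exact e11 h (end_mem a1 hv)
  have s1 : ∀ z ∈ a1.support, z ∈ (a1.append (a2.append (a3.append a4))).support := fun z hz => by
    simp only [Walk.mem_support_append_iff]
    exact Or.inl hz
  have s2 : ∀ z ∈ a2.support, z ∈ (a1.append (a2.append (a3.append a4))).support := fun z hz => by
    simp only [Walk.mem_support_append_iff]
    exact Or.inr (Or.inl hz)
  have s3 : ∀ z ∈ a3.support, z ∈ (a1.append (a2.append (a3.append a4))).support := fun z hz => by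
    simp only [Walk.mem_support_append_iff]
    exact Or.inr (Or.inr (Or.inl hz))
  have s4 : ∀ z ∈ a4.support, z ∈ (a1.append (a2.append (a3.append a4))).support := fun z hz => by
    simp only [Walk.mem_support_append_iff]
    exact Or.inr (Or.inr (Or.inr hz))
  -- the circle started at other points
  have hrot2 : Ess κ (a2.append (a3.append (a4.append a1))) := (ess4_iff a2 a3 a4 a1).2
    ⟨⟨n2, n3, n4, n1⟩, ⟨d23, d24, d12.symm⟩, ⟨d34, d13.symm⟩, d14.symm, fun h => hcls (by
      rw [← h]; abel)⟩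
  by_cases hcase : cls κ η1 + cls κ a2.reverse = 0
  · -- the second curve
    have hcl : cls κ η1 + (cls κ a3 + (cls κ a4 + cls κ a1)) ≠ 0 := by
      intro h
      rw [cls_reverse hκ] at hcase
      apply hcls
      have h3 : cls κ a2 = cls κ η1 := by
        rw [← sub_eq_zero, ← neg_eq_zero, neg_sub, sub_eq_add_neg, hcase]
      rw [← h, h3]
      abel
    have hE : Ess κ (η1.append (a3.append (a4.append a1))) := by
      refine (ess4_iff η1 a3 a4 a1).2 ⟨⟨m1, n3, n4, n1⟩, ⟨e13, ?_, e11⟩, ⟨d34, e31⟩, d14.symm, hcl⟩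
      intro z hz hz4
      rcases h1 z (mem_of_tail hz) (s4 z (mem_of_tail hz4)) with h | h
      · exact huN (h ▸ hz)
      · exact d24 hw2 (h ▸ hz4)
    refine ⟨eds (η1.append (a3.append (a4.append a1))), ⟨u, _, hE, rfl⟩, ?_, ?_⟩
    · refine ⟨w, u, a3.append (a4.append a1), a2, η1, ess_comm hrot2, ess_comm hE, ?_, ?_, ?_⟩
      · simp only [eds_append]
        ac_rfl
      · simp only [eds_append]
        ac_rfl
      · intro z hz hz'
        exact (h1 z hz' (s2 z hz)).symm
    · refine ⟨v, w', a1.append (η1.append a3), a4, η2, ?_, ?_, ?_, ?_, ?_⟩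
      · rw [← Walk.append_assoc, ← Walk.append_assoc]
        exact (ess4_iff a1 η1 a3 a4).2 ⟨⟨n1, m1, n3, n4⟩, ⟨e11.symm, d13, d14⟩,
          ⟨e13, ((ess4_iff η1 a3 a4 a1).1 hE).2.1.2.1⟩, d34, fun h => hcl (by rw [← h]; abel)⟩
      · rw [← Walk.append_assoc, ← Walk.append_assoc]
        exact (ess4_iff a1 η1 a3 η2).2 ⟨⟨n1, m1, n3, m2⟩, ⟨e11.symm, d13, e21.symm⟩,
          ⟨e13, e12⟩, e32, fun h => hcls' (by rw [← h]; abel)⟩
      · simp only [eds_append]
        ac_rfl
      · simp only [eds_append]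
        ac_rfl
      · intro z hz hz'
        exact (h2 z hz' (s4 z hz)).symm
  · -- the first curve
    obtain ⟨r1, r2, r3⟩ := rev_tail a2 n2 hu2
    have hE : Ess κ (η1.append a2.reverse) := by
      refine (ess_append_iff η1 a2.reverse).2 ⟨m1, r1, ?_, hcase⟩
      intro z hz hz2
      rcases h1 z (mem_of_tail hz) (s2 z (r3 z hz2)) with h | h
      · exact huN (h ▸ hz)
      · exact r2 (h ▸ hz2)
    refine ⟨eds (η1.append a2.reverse), ⟨u, _, hE, rfl⟩, ?_, ?_⟩
    · refine ⟨u, w, a2, a3.append (a4.append a1), η1.reverse, hrot2, ?_, ?_, ?_, ?_⟩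
      · have h3 := hEssRev V M _ Γ κ hκ u _ hE
        rwa [Walk.reverse_append, Walk.reverse_reverse] at h3
      · simp only [eds_append]
        ac_rfl
      · simp only [eds_append, eds_reverse]
        ac_rfl
      · intro z hz hz'
        rw [Walk.support_reverse, List.mem_reverse] at hz'
        refine h1 z hz' ?_
        simp only [Walk.mem_support_append_iff] at hz
        rcases hz with hz | hz | hz
        · exact s3 z hz
        · exact s4 z hz
        · exact s1 z hz
    · refine ⟨u, w, η1, a2.reverse, a3.append (η2.append a1), hE, hs, rfl, rfl, ?_⟩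
      intro z hz hz'
      rw [Walk.support_reverse, List.mem_reverse] at hz
      rcases (Walk.mem_support_iff a2).1 hz with h3 | h3
      · exact Or.inl h3
      have hzv : z ≠ v := fun h => d24 h3 (h ▸ hv4)
      simp only [Walk.mem_support_append_iff] at hz'
      have hz3 : z ∈ a3.support → z = u ∨ z = w := by
        intro h4
        rcases (Walk.mem_support_iff a3).1 h4 with h5 | h5
        · exact Or.inr h5
        · exact absurd h5 (d23 h3)
      rcases hz' with h4 | h4 | h4
      · exact hz3 h4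
      · rcases h2 z h4 (s2 z hz) with h5 | h5
        · exact hz3 (h5 ▸ a3.end_mem_support)
        · exact absurd h5 hzv
      · rcases (Walk.mem_support_iff a1).1 h4 with h5 | h5
        · exact absurd h5 hzv
        · exact absurd h3 (d12 h5)

end Pool.Agent.MPe54d61.TC
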