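import Pool.Agent.Lib.MP_e54d61_gt.TC.SpecB

/-!
# MP_e54d61_gt, torus case, part B: the third curve, order `v, u, w', w` (proof of `S_ThreeB`)
-/

set_option autoImplicit false

namespace Pool.Agent.MPe54d61.TC

open SimpleGraph

namespace ThreeBAux

variable {V M : Type} [AddCommGroup M] {Γ : SimpleGraph V} {κ : V → V → M}

/-- essential walks in two parts with different ends: two paths which meet only in their ends -/
theorem ess_iff {x y : V} (hxy : x ≠ y) (p : Γ.Walk x y) (q : Γ.Walk y x) :
    Ess κ (p.append q) ↔ p.IsPath ∧ q.IsPath ∧
      (∀ z, z ∈ p.support → z ∈ q.support → z = x ∨ z = y) ∧ cls κ p + cls κ q ≠ 0 := by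
  rw [ess_append_iff]
  constructor
  · rintro ⟨hp, hq, hd, hc⟩
    have hyp : y ∈ p.support.tail := Walk.end_mem_tail_support_of_ne hxy p
    have hxq : x ∈ q.support.tail := Walk.end_mem_tail_support_of_ne hxy.symm q
    have hxp : x ∉ p.support.tail := fun h => hd h hxq
    have hyq : y ∉ q.support.tail := fun h => hd hyp h
    refine ⟨?_, ?_, ?_, hc⟩
    · rw [Walk.isPath_def, ← Walk.cons_tail_support]
      exact List.nodup_cons.2 ⟨hxp, hp⟩
    · rw [Walk.isPath_def, ← Walk.cons_tail_support]
      exact List.nodup_cons.2 ⟨hyq, hq⟩
    · intro z hz hz'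
      rcases (Walk.mem_support_iff p).1 hz with h | h
      · exact Or.inl h
      · rcases (Walk.mem_support_iff q).1 hz' with h' | h'
        · exact Or.inr h'
        · exact absurd h' (hd h)
  · rintro ⟨hp, hq, hd, hc⟩
    rw [Walk.isPath_def, ← Walk.cons_tail_support] at hp hq
    obtain ⟨hxp, hp⟩ := List.nodup_cons.1 hp
    obtain ⟨hyq, hq⟩ := List.nodup_cons.1 hq
    refine ⟨hp, hq, ?_, hc⟩
    intro z hz hz'
    rcases hd z (List.mem_of_mem_tail hz) (List.mem_of_mem_tail hz') with h | h
    · exact hxp (h ▸ hz)
    · exact hyq (h ▸ hz')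

end ThreeBAux

open ThreeBAux

/-- the third curve, order `v, u, w', w` -/
theorem tThreeB (hEssRev : S_EssRev) : S_ThreeB := by
  have _hr := hEssRev
  intro V M _ Γ κ hκ u v w w' a1 a2 a3 a4 η1 η2 huw hvw' huw' hvw hc hs h1 h2
  -- the classes
  have hcls : cls κ a1 + (cls κ a2 + (cls κ a3 + cls κ a4)) ≠ 0 := by
    have := hc.2
    rwa [cls_append, cls_append, cls_append] at this
  -- rotations of `c`
  have hcA : Ess κ ((a2.append a3).append (a4.append a1)) := by
    have h := ess_comm hc
    have e : (a2.append (a3.append a4)).append a1 = (a2.append a3).append (a4.append a1) := by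
      simp only [Walk.append_assoc]
    rwa [e] at h
  have hcB : Ess κ (a2.append (a3.append (a4.append a1))) := by
    rw [Walk.append_assoc]
    exact hcA
  have hcC : Ess κ (a4.append (a1.append (a2.append a3))) := by
    have h := ess_comm hcA
    have e : (a4.append a1).append (a2.append a3) = a4.append (a1.append (a2.append a3)) := by
      simp only [Walk.append_assoc]
    rwa [e] at h
  -- rotations of `c*`
  have hsA : Ess κ ((η1.append a3.reverse).append (η2.append a1)) := by
    rw [← Walk.append_assoc]
    exact hs
  have hsB : Ess κ ((a1.append η1).append (a3.reverse.append η2)) := by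
    have e : (η1.append (a3.reverse.append (η2.append a1))) =
        (η1.append (a3.reverse.append η2)).append a1 := by
      simp only [Walk.append_assoc]
    rw [e] at hs
    have h := ess_comm hs
    rwa [Walk.append_assoc] at h
  obtain ⟨p23, p41, d23, -⟩ := (ess_iff huw _ _).1 hcA
  obtain ⟨p2, p341, d2, -⟩ := (ess_iff huw' _ _).1 hcB
  obtain ⟨p4, p123, d4, -⟩ := (ess_iff hvw.symm _ _).1 hcC
  obtain ⟨pη1, -, -, -⟩ := (ess_iff huw _ _).1 hs
  obtain ⟨pη3, -, -, -⟩ := (ess_iff huw' _ _).1 hsA
  obtain ⟨p1η, -, -, -⟩ := (ess_iff hvw _ _).1 hsB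
  simp only [Walk.mem_support_append_iff] at h1 h2 d23 d2 d4
  by_cases hcase : cls κ η1 - cls κ a3 - cls κ a2 ≠ 0
  · -- `C3 = η1.a3⁻¹.a2⁻¹`
    have hE1 : Ess κ ((a2.append a3).append η1.reverse) := by
      rw [ess_iff huw]
      refine ⟨p23, (Walk.isPath_reverse_iff _).2 pη1, ?_, ?_⟩
      · intro z hz hz'
        rw [Walk.mem_support_append_iff] at hz
        rw [Walk.support_reverse, List.mem_reverse] at hz'
        exact h1 z hz' (by tauto)
      · rw [cls_append, cls_reverse hκ]
        intro h
        apply hcase
        rw [← neg_eq_zero, ← h]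
        abel
    have hE2 : Ess κ ((η1.append a3.reverse).append a2.reverse) := by
      rw [ess_iff huw']
      refine ⟨pη3, (Walk.isPath_reverse_iff _).2 p2, ?_, ?_⟩
      · intro z hz hz'
        rw [Walk.mem_support_append_iff, Walk.support_reverse, List.mem_reverse] at hz
        rw [Walk.support_reverse, List.mem_reverse] at hz'
        rcases hz with hz | hz
        · rcases h1 z hz (by tauto) with h | h
          · exact Or.inl h
          · subst h
            exact d2 _ hz' (Or.inr (Or.inl (Walk.start_mem_support a4)))
        · exact d2 z hz' (Or.inl hz)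
      · rw [cls_append, cls_reverse hκ, cls_reverse hκ]
        intro h
        apply hcase
        rw [← h]
        abel
    refine ⟨eds ((a2.append a3).append η1.reverse), ⟨_, _, hE1, rfl⟩, ?_, ?_⟩
    · refine ⟨u, w, a2.append a3, a4.append a1, η1.reverse, hcA, hE1, ?_, rfl, ?_⟩
      · simp only [eds_append]
        ext e
        simp only [Set.mem_union]
        tauto
      · intro z hz hz'
        rw [Walk.mem_support_append_iff] at hz
        rw [Walk.support_reverse, List.mem_reverse] at hz'
        exact h1 z hz' (by tauto)
    · refine ⟨u, w', η1.append a3.reverse, a2.reverse, η2.append a1, hE2, hsA, ?_, ?_, ?_⟩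
      · simp only [eds_append, eds_reverse]
        ext e
        simp only [Set.mem_union]
        tauto
      · simp only [eds_append, Set.union_assoc]
      · intro z hz hz'
        rw [Walk.support_reverse, List.mem_reverse] at hz
        rw [Walk.mem_support_append_iff] at hz'
        rcases hz' with hz' | hz'
        · rcases h2 z hz' (by tauto) with h | h
          · exact Or.inr h
          · subst h
            exact d2 _ hz (Or.inr (Or.inl (Walk.end_mem_support a4)))
        · exact d2 z hz (Or.inr (Or.inr hz'))
  · -- `C3 = η1.a4.a1`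
    have hcase2 : cls κ η1 + cls κ a4 + cls κ a1 ≠ 0 := by
      intro h
      apply hcls
      rw [ne_eq, not_not] at hcase
      calc cls κ a1 + (cls κ a2 + (cls κ a3 + cls κ a4))
          = (cls κ η1 + cls κ a4 + cls κ a1) - (cls κ η1 - cls κ a3 - cls κ a2) := by abel
        _ = 0 := by rw [h, hcase, sub_zero]
    have hE1 : Ess κ ((a4.append a1).append η1) := by
      rw [ess_iff huw.symm]
      refine ⟨p41, pη1, ?_, ?_⟩
      · intro z hz hz'
        rw [Walk.mem_support_append_iff] at hz
        exact (h1 z hz' (by tauto)).symm
      · rw [cls_append]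
        intro h
        apply hcase2
        rw [← h]
        abel
    have hE2 : Ess κ ((a1.append η1).append a4) := by
      rw [ess_iff hvw]
      refine ⟨p1η, p4, ?_, ?_⟩
      · intro z hz hz'
        rw [Walk.mem_support_append_iff] at hz
        rcases hz with hz | hz
        · exact (d4 z hz' (Or.inl hz)).symm
        · rcases h1 z hz (by tauto) with h | h
          · subst h
            exact (d4 _ hz' (Or.inl (Walk.end_mem_support a1))).symm
          · exact Or.inr h
      · rw [cls_append]
        intro h
        apply hcase2
        rw [← h]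
        abel
    refine ⟨eds ((a4.append a1).append η1), ⟨_, _, hE1, rfl⟩, ?_, ?_⟩
    · refine ⟨w, u, a4.append a1, a2.append a3, η1, ess_comm hcA, hE1, ?_, rfl, ?_⟩
      · simp only [eds_append]
        ext e
        simp only [Set.mem_union]
        tauto
      · intro z hz hz'
        rw [Walk.mem_support_append_iff] at hz
        exact (h1 z hz' (by tauto)).symm
    · refine ⟨v, w, a1.append η1, a4, a3.reverse.append η2, hE2, hsB, ?_, ?_, ?_⟩
      · simp only [eds_append]
        ext e
        simp only [Set.mem_union]
        tauto
      · simp only [eds_append, eds_reverse]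
        ext e
        simp only [Set.mem_union]
        tauto
      · intro z hz hz'
        rw [Walk.mem_support_append_iff, Walk.support_reverse, List.mem_reverse] at hz'
        rcases hz' with hz' | hz'
        · exact (d4 z hz (Or.inr (Or.inr hz'))).symm
        · rcases h2 z hz' (by tauto) with h | h
          · subst h
            exact (d4 _ hz (Or.inr (Or.inl (Walk.end_mem_support a2)))).symm
          · exact Or.inl h

end Pool.Agent.MPe54d61.TC
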