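import Pool.Agent.Lib.MP_e54d61_gt.TC.SpecA

/-!
# MP_e54d61_gt, torus case, part A: transport of a map with compact support
-/

set_option autoImplicit false

namespace Pool.Agent.MPe54d61.TC

open Topology

private theorem TrEx_out {U X : Type} (j : U → X) (h : U → U) (x : X) (hx : x ∉ Set.range j) :
    Function.extend j (fun u => j (h u)) id x = x := by
  rw [Function.extend_apply' _ _ _ (fun ⟨a, ha⟩ => hx ⟨a, ha⟩)]
  rfl

private theorem TrEx_cont {U X : Type} [TopologicalSpace U] [TopologicalSpace X] [T2Space X]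
    {j : U → X} (hj : IsOpenEmbedding j) {K : Set U} (hK : IsCompact K) {h : U ≃ₜ U}
    (hh : SuppIn K h) : Continuous (Function.extend j (fun u => j (h u)) id) := by
  rw [continuous_iff_continuousAt]
  intro x
  by_cases hx : x ∈ Set.range j
  · obtain ⟨u, rfl⟩ := hx
    rw [← hj.continuousAt_iff]
    have h1 : (Function.extend j (fun u => j (h u)) id) ∘ j = fun u => j (h u) := by
      funext u
      exact hj.injective.extend_apply _ _ _
    rw [h1]
    exact (hj.continuous.comp h.continuous).continuousAt
  · have h1 : IsOpen (j '' K)ᶜ := (hK.image hj.continuous).isClosed.isOpen_compl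
    have h2 : x ∈ (j '' K)ᶜ := fun ⟨u, _, hu⟩ => hx ⟨u, hu⟩
    refine ContinuousAt.congr (f := id) continuousAt_id ?_
    filter_upwards [h1.mem_nhds h2] with y hy
    by_cases hy' : y ∈ Set.range j
    · obtain ⟨u, rfl⟩ := hy'
      rw [hj.injective.extend_apply, hh u fun hu => hy ⟨u, hu, rfl⟩]
      rfl
    · rw [TrEx_out j h y hy']
      rfl

private theorem TrEx_inv {U X : Type} [TopologicalSpace U] {j : U → X} (hj : Function.Injective j)
    (h h' : U ≃ₜ U) (hh : ∀ u, h (h' u) = u) (x : X) :
    Function.extend j (fun u => j (h u)) id (Function.extend j (fun u => j (h' u)) id x) = x := by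
  by_cases hx : x ∈ Set.range j
  · obtain ⟨u, rfl⟩ := hx
    rw [hj.extend_apply, hj.extend_apply, hh]
  · rw [TrEx_out j h' x hx, TrEx_out j h x hx]

theorem tTrEx : S_TrEx := by
  intro U X _ _ _ j hj K hK h hh
  refine ⟨⟨⟨Function.extend j (fun u => j (h u)) id, Function.extend j (fun u => j (h⁻¹ u)) id,
    TrEx_inv hj.injective h⁻¹ h fun u => h.symm_apply_apply u,
    TrEx_inv hj.injective h h⁻¹ fun u => h.apply_symm_apply u⟩,
    TrEx_cont hj hK hh, TrEx_cont hj hK hh.inv⟩, fun u => ?_, fun x hx => ?_⟩
  · exact hj.injective.extend_apply (fun u => j (h u)) id u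
  · exact TrEx_out j h x hx

end Pool.Agent.MPe54d61.TC
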