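import Pool.Agent.Lib.MP_e54d61_gt.TC.SpecA

/-!
# MP_e54d61_gt, torus case, part A: transport of products of flows
-/

set_option autoImplicit false

namespace Pool.Agent.MPe54d61.TC

open Topology MatrixGroups

private theorem TrLen_compact (M : ℝ) : IsCompact {z : Y | |z.1| ≤ M} := by
  have h1 : {z : Y | |z.1| ≤ M} = Metric.closedBall (0 : ℝ) M ×ˢ (Set.univ : Set Ci) := by
    ext z
    simp [Metric.mem_closedBall]
  rw [h1]
  exact (isCompact_closedBall (0 : ℝ) M).prod isCompact_univ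

private theorem TrLen_one (j : Y → T) : Tr j (1 : Y ≃ₜ Y) (1 : T ≃ₜ T) :=
  ⟨fun _ => rfl, fun _ _ => rfl⟩

private theorem TrLen_step (hTrFl : S_TrFl) {j : Y → T} (hj : IsOpenEmbedding j) {t : Y ≃ₜ Y}
    (ht : CFlow t) : ∃ e : T ≃ₜ T, Tr j t e ∧ e ∈ timeOneMaps T := by
  obtain ⟨φ, ⟨M, hM⟩, rfl⟩ := ht
  obtain ⟨Φ, h1, h2⟩ := hTrFl Y T inferInstance inferInstance inferInstance j hj
    {z : Y | |z.1| ≤ M} (TrLen_compact M) φ (fun s z hz => hM s z (le_of_lt (not_le.1 hz)))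
  refine ⟨Φ.toHomeomorph 1, ⟨fun u => h1 1 u, fun x hx => h2 1 x fun hx' => hx ?_⟩, ⟨Φ, rfl⟩⟩
  exact Set.image_subset_range _ _ hx'

theorem tTrLen (hTrFl : S_TrFl) (hjq : S_jq) : S_TrLen := by
  intro α q hq hm hb n h hn
  have hj : IsOpenEmbedding (jq q) := hjq α q hq hm hb
  obtain ⟨l, hl, hs, hp⟩ := hn
  induction l generalizing n h with
  | nil =>
    refine ⟨1, ?_, ?_⟩
    · rw [← hp, List.prod_nil]
      exact TrLen_one _
    · exact fl_one n
  | cons t l ih =>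
    obtain ⟨e1, he1, hf1⟩ := TrLen_step hTrFl hj (hs t List.mem_cons_self)
    obtain ⟨e2, he2, hf2⟩ := ih l.length l.prod rfl (fun s h1 => hs s (List.mem_cons_of_mem _ h1)) rfl
    refine ⟨e1 * e2, ?_, ?_⟩
    · rw [← hp, List.prod_cons]
      exact he1.mul he2
    · have h3 := fl_mul (fl_tom hf1) hf2
      rwa [← hl, List.length_cons, add_comm]

end Pool.Agent.MPe54d61.TC
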