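import Pool.Agent.Lib.MP_e54d61_gt.TC.SpecA

/-!
# MP_e54d61_gt, torus case: pull back of a homeomorphism by an open embedding
-/

set_option autoImplicit false

namespace Pool.Agent.MPe54d61.TC

open Topology MatrixGroups

theorem tTrPu : S_TrPu := by
  intro U X _ _ j hj K e he
  have hr : ∀ x, x ∈ Set.range j ↔ e x ∈ Set.range j := by
    intro x
    by_cases hx : x ∈ j '' K
    · have h1 : e x ∈ j '' K := he.mapsTo hx
      exact ⟨fun _ => Set.image_subset_range j K h1, fun _ => Set.image_subset_range j K hx⟩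
    · rw [he x hx]
  let φ : U ≃ₜ Set.range j := hj.toIsEmbedding.toHomeomorph
  have hφ : ∀ u, ((φ u : Set.range j) : X) = j u := fun u => rfl
  let ψ : Set.range j ≃ₜ Set.range j := e.subtype hr
  have hψ : ∀ x, ((ψ x : Set.range j) : X) = e x := fun x => rfl
  let h : U ≃ₜ U := φ.trans (ψ.trans φ.symm)
  have hh : ∀ u, j (h u) = e (j u) := by
    intro u
    have h1 : φ (h u) = ψ (φ u) := φ.apply_symm_apply (ψ (φ u))
    have h2 : ((φ (h u) : Set.range j) : X) = ((ψ (φ u) : Set.range j) : X) := by rw [h1]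
    rw [hφ, hψ, hφ] at h2
    exact h2
  refine ⟨h, ?_, fun u => (hh u).symm, ?_⟩
  · intro u hu
    apply hj.injective
    rw [hh]
    apply he
    rintro ⟨v, hv, hvu⟩
    exact hu (hj.injective hvu ▸ hv)
  · intro x hx
    exact he x fun h1 => hx (Set.image_subset_range j K h1)

end Pool.Agent.MPe54d61.TC
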