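import Pool.Agent.Lib.MP_e54d61_gt.TC.SpecH

/-!
# MP_e54d61_gt, torus case: translations are in the group
-/

set_option autoImplicit false

namespace Pool.Agent.MPe54d61.TC

open Topology MatrixGroups

namespace TranslAux

/-- the translation flow -/
noncomputable def fl (a b : ℝ) : Flow ℝ T where
  toFun s z := (z.1 + ((s * a : ℝ) : Ci), z.2 + ((s * b : ℝ) : Ci))
  cont' := by
    have hq : Continuous fun x : ℝ => (x : Ci) := AddCircle.continuous_mk' 1
    refine Continuous.prodMk ?_ ?_
    · exact (continuous_fst.comp continuous_snd).add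
        (hq.comp (continuous_fst.mul continuous_const))
    · exact (continuous_snd.comp continuous_snd).add
        (hq.comp (continuous_fst.mul continuous_const))
  map_add' s t z := by
    refine Prod.ext ?_ ?_
    · show z.1 + (((s + t) * a : ℝ) : Ci) = z.1 + ((t * a : ℝ) : Ci) + ((s * a : ℝ) : Ci)
      rw [add_mul, AddCircle.coe_add]
      abel
    · show z.2 + (((s + t) * b : ℝ) : Ci) = z.2 + ((t * b : ℝ) : Ci) + ((s * b : ℝ) : Ci)
      rw [add_mul, AddCircle.coe_add]
      abel
  map_zero' z := by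
    refine Prod.ext ?_ ?_
    · show z.1 + (((0 : ℝ) * a : ℝ) : Ci) = z.1
      rw [zero_mul, AddCircle.coe_zero, add_zero]
    · show z.2 + (((0 : ℝ) * b : ℝ) : Ci) = z.2
      rw [zero_mul, AddCircle.coe_zero, add_zero]

end TranslAux

theorem tTransl : S_Transl := by
  rintro ⟨c1, c2⟩
  obtain ⟨a, rfl⟩ := QuotientAddGroup.mk_surjective c1
  obtain ⟨b, rfl⟩ := QuotientAddGroup.mk_surjective c2
  refine ⟨⟨(TranslAux.fl a b).toHomeomorph 1, Subgroup.subset_closure ⟨TranslAux.fl a b, rfl⟩⟩, ?_⟩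
  intro z
  refine Prod.ext ?_ ?_
  · show z.1 + (((1 : ℝ) * a : ℝ) : Ci) = z.1 + _
    rw [one_mul]
  · show z.2 + (((1 : ℝ) * b : ℝ) : Ci) = z.2 + _
    rw [one_mul]

end Pool.Agent.MPe54d61.TC
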