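import Pool.Agent.Lib.MP_e54d61_gt.TC.SpecH

/-!
# MP_e54d61_gt, torus case: the piecewise linear map on the triangles
-/

set_option autoImplicit false

namespace Pool.Agent.MPe54d61.TC

namespace TriAux

theorem lam_nz {x y : ℝ} (h : Lam x y ≠ 0) : |x| < 1 ∧ |y| < 1 ∧ |x - y| < 1 := by
  unfold Lam at h
  by_contra hc
  apply h
  apply max_eq_left
  have h1 : (1 : ℝ) ≤ max (max |x| |y|) |x - y| := by
    by_contra hlt
    push Not at hlt
    rw [max_lt_iff, max_lt_iff] at hlt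
    exact hc ⟨hlt.1.1, hlt.1.2, hlt.2⟩
  linarith

theorem shift (N : ℕ) [NeZero N] (f : VN N → P) (a : ℤ × ℤ) (s t : ℝ) :
    PLm f (pt N a s t) = pt N a s t +
      ∑ᶠ c : ℤ × ℤ, Lam (s - c.1) (t - c.2) • f (zc N (a + c)) := by
  have hN : (N : ℝ) ≠ 0 := Nat.cast_ne_zero.mpr (NeZero.ne N)
  unfold PLm
  congr 1
  rw [← finsum_comp_equiv (Equiv.addLeft a)]
  apply finsum_congr
  intro c
  have e1 : (N : ℝ) * (pt N a s t).1 - ((Equiv.addLeft a c).1 : ℤ) = s - c.1 := by
    simp only [pt, Equiv.coe_addLeft, Prod.fst_add]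
    push_cast
    rw [mul_div_cancel₀ _ hN]; ring
  have e2 : (N : ℝ) * (pt N a s t).2 - ((Equiv.addLeft a c).2 : ℤ) = t - c.2 := by
    simp only [pt, Equiv.coe_addLeft, Prod.snd_add]
    push_cast
    rw [mul_div_cancel₀ _ hN]; ring
  rw [e1, e2]
  rfl

theorem int01 {x : ℝ} {i : ℤ} (h0 : 0 ≤ x) (h1 : x ≤ 1) (h : |x - i| < 1) : i = 0 ∨ i = 1 := by
  rw [abs_lt] at h
  have h2 : (-1 : ℝ) < i := by linarith [h.2]
  have h3 : (i : ℝ) < 2 := by linarith [h.1]
  have h4 : (-1 : ℤ) < i := by exact_mod_cast h2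
  have h5 : i < (2 : ℤ) := by exact_mod_cast h3
  omega

theorem lowSum (N : ℕ) [NeZero N] (f : VN N → P) (a : ℤ × ℤ) (s t : ℝ) (h0 : 0 ≤ t) (h1 : t ≤ s)
    (h2 : s ≤ 1) : ∑ᶠ c : ℤ × ℤ, Lam (s - c.1) (t - c.2) • f (zc N (a + c)) =
      (1 - s) • f (zc N a) + ((s - t) • f (zc N a + ed N 0) + t • f (zc N a + ed N 2)) := by
  have hsup : Function.support (fun c : ℤ × ℤ => Lam (s - c.1) (t - c.2) • f (zc N (a + c))) ⊆
      ((({(0, 0), (1, 0), (1, 1)} : Finset (ℤ × ℤ))) : Set (ℤ × ℤ)) := by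
    intro c hc
    rw [Function.mem_support] at hc
    have hl : Lam (s - c.1) (t - c.2) ≠ 0 := fun h => hc (by rw [h, zero_smul])
    obtain ⟨ha, hb, hd⟩ := lam_nz hl
    have hi := int01 (h0.trans h1) h2 ha
    have hj := int01 h0 (h1.trans h2) hb
    have hd' : |(s - t) - ((c.1 - c.2 : ℤ) : ℝ)| < 1 := by
      push_cast
      rw [show s - t - ((c.1 : ℝ) - c.2) = s - c.1 - (t - c.2) by ring]
      exact hd
    have hk := int01 (by linarith) (by linarith) hd'
    obtain ⟨c1, c2⟩ := c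
    simp only at hi hj hk
    simp only [Finset.coe_insert, Finset.coe_singleton, Set.mem_insert_iff,
      Set.mem_singleton_iff, Prod.mk.injEq]
    omega
  rw [finsum_eq_sum_of_support_subset _ hsup, Finset.sum_insert (by simp),
    Finset.sum_insert (by simp), Finset.sum_singleton]
  have L0 : Lam (s - ((0 : ℤ) : ℝ)) (t - ((0 : ℤ) : ℝ)) = 1 - s := by
    unfold Lam
    rw [Int.cast_zero, sub_zero, sub_zero, abs_of_nonneg (h0.trans h1), abs_of_nonneg h0,
      abs_of_nonneg (by linarith : 0 ≤ s - t), max_eq_left h1,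
      max_eq_left (by linarith : s - t ≤ s), max_eq_right (by linarith)]
  have L1 : Lam (s - ((1 : ℤ) : ℝ)) (t - ((0 : ℤ) : ℝ)) = s - t := by
    unfold Lam
    rw [Int.cast_zero, sub_zero, Int.cast_one, abs_of_nonpos (by linarith : s - 1 ≤ 0),
      abs_of_nonneg h0, abs_of_nonpos (by linarith : s - 1 - t ≤ 0),
      max_eq_right (max_le (by linarith) (by linarith)), max_eq_right (by linarith)]
    ring
  have L2 : Lam (s - ((1 : ℤ) : ℝ)) (t - ((1 : ℤ) : ℝ)) = t := by
    unfold Lam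
    rw [Int.cast_one, abs_of_nonpos (by linarith : s - 1 ≤ 0),
      abs_of_nonpos (by linarith : t - 1 ≤ 0), abs_of_nonneg (by linarith : 0 ≤ s - 1 - (t - 1)),
      max_eq_right (by linarith : -(s - 1) ≤ -(t - 1)),
      max_eq_left (by linarith : s - 1 - (t - 1) ≤ -(t - 1)), max_eq_right (by linarith)]
    ring
  rw [L0, L1, L2, zc_add, zc_add, zc_add]
  have e0 : zc N (0, 0) = 0 := by simp [zc]
  have e1 : zc N (1, 0) = ed N 0 := rfl
  have e2 : zc N (1, 1) = ed N 2 := rfl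
  rw [e0, e1, e2, add_zero]

theorem uppSum (N : ℕ) [NeZero N] (f : VN N → P) (a : ℤ × ℤ) (s t : ℝ) (h0 : 0 ≤ s) (h1 : s ≤ t)
    (h2 : t ≤ 1) : ∑ᶠ c : ℤ × ℤ, Lam (s - c.1) (t - c.2) • f (zc N (a + c)) =
      (1 - t) • f (zc N a) + ((t - s) • f (zc N a + ed N 1) + s • f (zc N a + ed N 2)) := by
  have hsup : Function.support (fun c : ℤ × ℤ => Lam (s - c.1) (t - c.2) • f (zc N (a + c))) ⊆
      ((({(0, 0), (0, 1), (1, 1)} : Finset (ℤ × ℤ))) : Set (ℤ × ℤ)) := by
    intro c hc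
    rw [Function.mem_support] at hc
    have hl : Lam (s - c.1) (t - c.2) ≠ 0 := fun h => hc (by rw [h, zero_smul])
    obtain ⟨ha, hb, hd⟩ := lam_nz hl
    have hi := int01 h0 (h1.trans h2) ha
    have hj := int01 (h0.trans h1) h2 hb
    have hd' : |(t - s) - ((c.2 - c.1 : ℤ) : ℝ)| < 1 := by
      push_cast
      rw [show t - s - ((c.2 : ℝ) - c.1) = -(s - c.1 - (t - c.2)) by ring, abs_neg]
      exact hd
    have hk := int01 (by linarith) (by linarith) hd'
    obtain ⟨c1, c2⟩ := c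
    simp only at hi hj hk
    simp only [Finset.coe_insert, Finset.coe_singleton, Set.mem_insert_iff,
      Set.mem_singleton_iff, Prod.mk.injEq]
    omega
  rw [finsum_eq_sum_of_support_subset _ hsup, Finset.sum_insert (by simp),
    Finset.sum_insert (by simp), Finset.sum_singleton]
  have L0 : Lam (s - ((0 : ℤ) : ℝ)) (t - ((0 : ℤ) : ℝ)) = 1 - t := by
    unfold Lam
    rw [Int.cast_zero, sub_zero, sub_zero, abs_of_nonneg h0, abs_of_nonneg (h0.trans h1),
      abs_of_nonpos (by linarith : s - t ≤ 0), max_eq_right h1,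
      max_eq_left (by linarith : -(s - t) ≤ t), max_eq_right (by linarith)]
  have L1 : Lam (s - ((0 : ℤ) : ℝ)) (t - ((1 : ℤ) : ℝ)) = t - s := by
    unfold Lam
    rw [Int.cast_zero, sub_zero, Int.cast_one, abs_of_nonpos (by linarith : t - 1 ≤ 0),
      abs_of_nonneg h0, abs_of_nonneg (by linarith : 0 ≤ s - (t - 1)),
      max_eq_right (max_le (by linarith) (by linarith)), max_eq_right (by linarith)]
    ring
  have L2 : Lam (s - ((1 : ℤ) : ℝ)) (t - ((1 : ℤ) : ℝ)) = s := by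
    unfold Lam
    rw [Int.cast_one, abs_of_nonpos (by linarith : s - 1 ≤ 0),
      abs_of_nonpos (by linarith : t - 1 ≤ 0), abs_of_nonpos (by linarith : s - 1 - (t - 1) ≤ 0),
      max_eq_left (by linarith : -(t - 1) ≤ -(s - 1)),
      max_eq_left (by linarith : -(s - 1 - (t - 1)) ≤ -(s - 1)), max_eq_right (by linarith)]
    ring
  rw [L0, L1, L2, zc_add, zc_add, zc_add]
  have e0 : zc N (0, 0) = 0 := by simp [zc]
  have e1 : zc N (0, 1) = ed N 1 := rfl
  have e2 : zc N (1, 1) = ed N 2 := rfl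
  rw [e0, e1, e2, add_zero]

end TriAux

open TriAux in
theorem tTri : S_Tri := by
  intro N _ f a s t
  have hN : (N : ℝ) ≠ 0 := Nat.cast_ne_zero.mpr (NeZero.ne N)
  refine ⟨fun h0 h1 h2 => ?_, fun h0 h1 h2 => ?_⟩
  · rw [shift, lowSum N f a s t h0 h1 h2]
    ext
    · simp only [pt, XX, EE, ei, Prod.fst_add, Prod.fst_sub, Prod.smul_fst, smul_eq_mul,
        Matrix.cons_val_zero, Matrix.cons_val]
      push_cast
      field_simp
      ring
    · simp only [pt, XX, EE, ei, Prod.snd_add, Prod.snd_sub, Prod.smul_snd, smul_eq_mul,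
        Matrix.cons_val_zero, Matrix.cons_val]
      push_cast
      field_simp
      ring
  · rw [shift, uppSum N f a s t h0 h1 h2]
    ext
    · simp only [pt, XX, EE, ei, Prod.fst_add, Prod.fst_sub, Prod.smul_fst, smul_eq_mul,
        Matrix.cons_val_one, Matrix.cons_val]
      push_cast
      field_simp
      ring
    · simp only [pt, XX, EE, ei, Prod.snd_add, Prod.snd_sub, Prod.smul_snd, smul_eq_mul,
        Matrix.cons_val_one, Matrix.cons_val]
      push_cast
      field_simp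
      ring

end Pool.Agent.MPe54d61.TC
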