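import Pool.Agent.Lib.MP_e54d61_gt.TC.SpecS

/-!
# MP_e54d61_gt, torus case, part S, module Trl
-/

set_option autoImplicit false

namespace Pool.Agent.MPe54d61.TC

open SimpleGraph

namespace TrlAux

theorem one {V M : Type} [AddCommGroup M] {Γ : SimpleGraph V} {κ : V → V → M} (hκ : Anti κ)
    {x : V} (c : Γ.Walk x x) (hc : Ess κ c) : c.edges.Nodup := by
  obtain ⟨h1, h2⟩ := hc
  cases c with
  | nil => exact absurd rfl h2
  | @cons _ y _ h p =>
    rw [Walk.support_cons, List.tail_cons] at h1
    have hp : p.IsPath := (Walk.isPath_def p).2 h1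
    rw [Walk.edges_cons, List.nodup_cons]
    refine ⟨?_, hp.isTrail.edges_nodup⟩
    intro hm
    cases p with
    | nil => simp at hm
    | @cons _ y' _ h' p' =>
      rw [Walk.cons_isPath_iff] at hp
      rw [Walk.edges_cons, List.mem_cons] at hm
      rcases hm with hm | hm
      · rw [Sym2.eq_iff] at hm
        rcases hm with ⟨hm1, -⟩ | ⟨hm1, -⟩
        · exact h.ne hm1
        · subst hm1
          have hn : p' = Walk.nil := Walk.eq_nil_iff_nil.2 (Walk.isPath_iff_nil.1 hp.1)
          subst hn
          apply h2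
          simp only [cls_cons, cls_nil, add_zero]
          rw [hκ x y, add_neg_cancel]
      · exact hp.2 (Walk.snd_mem_support_of_mem_edges p' hm)

theorem two {V : Type} [DecidableEq V] {Γ : SimpleGraph V} {u v : V} (w : Γ.Walk u v)
    (hw : w.edges.Nodup) (a b : V) :
    |cc w a b| ≤ 1 ∧ (s(a, b) ∈ eds w ↔ cc w a b ≠ 0) := by
  induction w with
  | nil => simp
  | @cons u u' v h p ih =>
    rw [Walk.edges_cons, List.nodup_cons] at hw
    obtain ⟨ih1, ih2⟩ := ih hw.2
    rw [cc_cons, mem_eds_cons]
    by_cases he : s(a, b) = s(u, u')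
    · have hz : cc p a b = 0 := by
        apply cc_eq_zero
        rw [he]
        exact hw.1
      rw [hz, add_zero]
      rw [Sym2.eq_iff] at he
      rcases he with ⟨ha, hb⟩ | ⟨ha, hb⟩
      · subst ha hb
        have hne : a ≠ b := h.ne
        have hc : chi a b a b = 1 := by simp [chi, hne]
        rw [hc]
        simp
      · subst ha hb
        have hne : b ≠ a := h.ne
        have hc : chi a b b a = -1 := by simp [chi, hne]
        rw [hc]
        constructor
        · simp
        · simp [Sym2.eq_swap]
    · have h1 : ¬ (u = a ∧ u' = b) := fun h' => he (by rw [h'.1, h'.2])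
      have h2 : ¬ (u = b ∧ u' = a) := fun h' => he (by rw [h'.1, h'.2, Sym2.eq_swap])
      have hc : chi a b u u' = 0 := by simp [chi, h1, h2]
      rw [hc, zero_add]
      refine ⟨ih1, ?_⟩
      rw [← ih2]
      constructor
      · rintro (h' | h')
        · exact absurd h' he
        · exact h'
      · exact Or.inr

end TrlAux

theorem tTrl : S_Trl := by
  intro V M _ _ Γ κ hκ
  exact ⟨fun x c hc => TrlAux.one hκ c hc, fun u v w hw a b => TrlAux.two w hw a b⟩

end Pool.Agent.MPe54d61.TC
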