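import Pool.Agent.Lib.MP_e54d61_gt.TC.SpecF

/-!
# MP_e54d61_gt, torus case, part F: Tube
-/

set_option autoImplicit false

namespace Pool.Agent.MPe54d61.TC

open Topology

/-- For small times a flow maps a compact set into a given open neighbourhood. -/
theorem tTube : S_Tube := by
  intro X _ _ φ C U hC hU hCU
  have hopen : IsOpen {p : ℝ × X | φ p.1 p.2 ∈ U} :=
    hU.preimage (φ.cont'.comp continuous_id)
  have hsub : ({(0 : ℝ)} : Set ℝ) ×ˢ C ⊆ {p : ℝ × X | φ p.1 p.2 ∈ U} := by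
    rintro ⟨t, x⟩ ⟨ht, hx⟩
    have ht0 : t = 0 := by simpa using ht
    subst ht0
    show φ 0 x ∈ U
    rw [φ.map_zero_apply]
    exact hCU hx
  obtain ⟨u, v, hu, _, h0u, hCv, huv⟩ :=
    generalized_tube_lemma isCompact_singleton hC.isCompact hopen hsub
  have h0 : (0 : ℝ) ∈ u := h0u (Set.mem_singleton 0)
  obtain ⟨ε, hε, hball⟩ := Metric.isOpen_iff.mp hu 0 h0
  refine ⟨ε / 2, by positivity, fun t x ht hx => ?_⟩
  have htu : t ∈ u := by
    apply hball
    rw [Metric.mem_ball, Real.dist_eq, sub_zero]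
    linarith
  exact huv (Set.mk_mem_prod htu (hCv hx))

end Pool.Agent.MPe54d61.TC
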