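import Pool.Agent.Lib.MP_e54d61_gt.TC.SpecA

/-!
# MP_e54d61_gt, torus case, Lemma U
-/

set_option autoImplicit false

namespace Pool.Agent.MPe54d61.TC

open Topology MatrixGroups

private theorem U_coe_int (k : ℤ) : ((k : ℝ) : Ci) = 0 := by
  have h := (AddCircle.coe_eq_zero_iff (1 : ℝ) (x := (k : ℝ))).2 ⟨k, by simp⟩
  exact h

private theorem U_rep (w : Ci) : ∃ x : ℝ, (x : Ci) = w ∧ |x| = ‖w‖ := by
  induction w using QuotientAddGroup.induction_on with
  | H r =>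
    refine ⟨r - round r, ?_, ?_⟩
    · have h : ((r - round r : ℝ) : Ci) = (r : Ci) - ((round r : ℝ) : Ci) := by
        rw [← AddCircle.coe_sub]
      rw [h, U_coe_int, sub_zero]
    · have h := AddCircle.norm_eq (p := (1 : ℝ)) (x := r)
      simp at h
      exact h.symm

/-- the window: a continuous function on the circle without integer values -/
private theorem U_window (f : Ci → ℝ) (hf : Continuous f) (h0 : ∀ y, ∀ m : ℤ, f y ≠ m) :
    ∃ k : ℤ, ∃ b : ℝ, b < 1 ∧ 0 < b ∧ ∀ y, 0 < f y - k ∧ f y - k ≤ b := by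
  have hpc : IsPreconnected (Set.range f) := isPreconnected_range hf
  have hoc := hpc.ordConnected
  have h1 : ∀ y, ((⌊f 0⌋ : ℤ) : ℝ) < f y := by
    intro y
    by_contra hn
    have hn' := not_lt.1 hn
    have hm : ((⌊f 0⌋ : ℤ) : ℝ) ∈ Set.range f :=
      hoc.out ⟨y, rfl⟩ ⟨0, rfl⟩ ⟨hn', Int.floor_le _⟩
    obtain ⟨z, hz⟩ := hm
    exact h0 z _ hz
  have h2 : ∀ y, f y < ((⌊f 0⌋ : ℤ) : ℝ) + 1 := by
    intro y
    by_contra hn
    have hn' := not_lt.1 hn
    have hm : ((⌊f 0⌋ : ℤ) : ℝ) + 1 ∈ Set.range f :=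
      hoc.out ⟨0, rfl⟩ ⟨y, rfl⟩ ⟨(Int.lt_floor_add_one _).le, hn'⟩
    obtain ⟨z, hz⟩ := hm
    exact h0 z (⌊f 0⌋ + 1) (by push_cast; exact hz)
  obtain ⟨y0, -, hy0⟩ := isCompact_univ.exists_isMaxOn (Set.univ_nonempty (α := Ci)) hf.continuousOn
  refine ⟨⌊f 0⌋, f y0 - ⌊f 0⌋, by linarith [h2 y0], by linarith [h1 y0], fun y => ⟨by linarith [h1 y], ?_⟩⟩
  have h3 : f y ≤ f y0 := hy0 (Set.mem_univ y)
  linarith

theorem tU (hLfG : S_LfG) (hWin : S_Win) (hShift : S_Shift) (hBip : S_Bip) (hTrLen : S_TrLen)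
    (hQ : S_Q) (hV : S_V) : S_U := by
  intro s hs h0
  obtain ⟨G, a, ⟨hG1, hG2, -⟩, C, ha1, ha2, ha3⟩ := hLfG s hs
  have hGc : Continuous fun z : Y => (G z).1 := continuous_fst.comp G.continuous
  -- the window
  obtain ⟨k, b', hb'1, hb'0, hk⟩ := U_window (fun y => (G ((0 : ℝ), y)).1)
    (hGc.comp (by fun_prop)) (by
      intro y m hm
      have h1 := hG1 ((0 : ℝ), y)
      have h2 := congrArg Prod.fst h1
      have h3 : (((G ((0 : ℝ), y)).1 : ℝ) : Ci) = (s (prY ((0 : ℝ), y))).1 := h2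
      have h4 : prY ((0 : ℝ), y) = ((0 : Ci), y) := rfl
      rw [h4] at h3
      have h5 : (G ((0 : ℝ), y)).1 = (m : ℝ) := hm
      rw [h5, U_coe_int] at h3
      exact h0 y h3.symm)
  set b1 : ℝ := (1 + b') / 2 with hb1
  set e1 : ℝ := 1 - b1 with he1
  have he10 : 0 < e1 := by rw [he1, hb1]; linarith
  have hb1h : 1 / 2 < b1 := by rw [hb1]; linarith
  have hb1l : b1 < 1 := by rw [hb1]; linarith
  have hb'b : b' < b1 := by rw [hb1]; linarith
  -- the tube lemma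
  obtain ⟨η, hη0, hη1, hη2, hη⟩ : ∃ η : ℝ, 0 < η ∧ η ≤ e1 / 3 ∧ η ≤ 1 ∧
      ∀ z : Y, |z.1| < η → 0 < (G z).1 - k ∧ (G z).1 - k < b1 := by
    have hWo : IsOpen {z : Y | 0 < (G z).1 - k ∧ (G z).1 - k < b1} :=
      (isOpen_lt continuous_const (hGc.sub continuous_const)).inter
        (isOpen_lt (hGc.sub continuous_const) continuous_const)
    have hsub : ({(0 : ℝ)} ×ˢ (Set.univ : Set Ci)) ⊆
        {z : Y | 0 < (G z).1 - k ∧ (G z).1 - k < b1} := by
      rintro ⟨x, y⟩ ⟨hx, -⟩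
      have hx' : x = 0 := hx
      subst hx'
      exact ⟨(hk y).1, lt_of_le_of_lt (hk y).2 hb'b⟩
    obtain ⟨u, v, hu, -, hu0, hv0, huv⟩ :=
      generalized_tube_lemma isCompact_singleton isCompact_univ hWo hsub
    have h0u : (0 : ℝ) ∈ u := hu0 rfl
    obtain ⟨ε, hε, hεu⟩ := Metric.isOpen_iff.1 hu 0 h0u
    refine ⟨min ε (min (e1 / 3) 1), lt_min hε (lt_min (by linarith) one_pos),
      (min_le_right _ _).trans (min_le_left _ _), (min_le_right _ _).trans (min_le_right _ _), ?_⟩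
    intro z hz
    have hz1 : z.1 ∈ u := hεu (by
      rw [Metric.mem_ball, Real.dist_eq, sub_zero]
      exact lt_of_lt_of_le hz (min_le_left _ _))
    exact huv (Set.mk_mem_prod hz1 (hv0 (Set.mem_univ z.2)))
  -- the element of `HY`
  obtain ⟨u, hu, hu1⟩ := hWin G a C hG2 ha1 ha2 ha3 1
  obtain ⟨t, ht, ht1⟩ := hShift (-k) (|(k : ℝ)| + 2)
  have hF : FLY 6 (t * u) := hBip _ (HY.mul_mem ht hu)
  obtain ⟨q, hq1, hq2, hq3, hq4, -⟩ := hQ (-(e1 / 3)) b1 (-(2 * e1 / 3)) (-(2 * e1 / 3) + 1)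
    (by linarith) (by linarith) (by rw [he1]; linarith)
  obtain ⟨e, he, hFe⟩ := hTrLen _ q hq1 hq2 hq3 6 _ hF
  have hes : ∀ w : T, ‖w.1‖ < η → e w = s w := by
    intro w hw
    obtain ⟨x, hx, hx'⟩ := U_rep w.1
    have hxη : |x| < η := by rw [hx']; exact hw
    have hxη' := abs_lt.1 hxη
    obtain ⟨h1, h2⟩ := hη (x, w.2) hxη
    have hwp : w = prY (x, w.2) := by
      apply Prod.ext
      · exact hx.symm
      · rfl
    have hwj : w = jq q (x, w.2) := by
      apply Prod.ext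
      · show w.1 = ((q x : ℝ) : Ci)
        rw [hq4 x (by linarith) (by linarith), hx]
      · rfl
    have h3 : e w = jq q ((t * u) (x, w.2)) := by
      conv_lhs => rw [hwj]
      exact he.1 _
    have h4 : (t * u) (x, w.2) = ((G (x, w.2)).1 - k, (G (x, w.2)).2) := by
      show t (u (x, w.2)) = _
      rw [hu1 (x, w.2) (by show |x| ≤ 1; linarith), ht1 (G (x, w.2)) ?_]
      · apply Prod.ext
        · show (G (x, w.2)).1 + ((-k : ℤ) : ℝ) = (G (x, w.2)).1 - k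
          push_cast
          ring
        · rfl
      · rw [abs_le]
        have h5 := neg_abs_le (k : ℝ)
        have h6 := le_abs_self (k : ℝ)
        constructor <;> linarith
    rw [h3, h4]
    have h5 : jq q ((G (x, w.2)).1 - k, (G (x, w.2)).2) = prY (G (x, w.2)) := by
      apply Prod.ext
      · show ((q ((G (x, w.2)).1 - k) : ℝ) : Ci) = (((G (x, w.2)).1 : ℝ) : Ci)
        rw [hq4 _ (by linarith) h2.le, AddCircle.coe_sub, U_coe_int, sub_zero]
      · rfl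
    rw [h5, hG1, ← hwp]
  have heG : e ∈ GT := fl_mem hFe
  have hvG : e⁻¹ * s ∈ GT := GT.mul_mem (GT.inv_mem heG) hs
  have hv := hV (e⁻¹ * s) hvG ⟨η, hη0, fun z hz => by
    show e.symm (s z) = z
    rw [← hes z hz, e.symm_apply_apply]⟩
  have h7 := fl_mul hFe hv
  rw [mul_inv_cancel_left] at h7
  exact h7

end Pool.Agent.MPe54d61.TC
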