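import Pool.Agent.Lib.MP_e54d61_gt.TC.SpecS

/-!
# MP_e54d61_gt, torus case, module UKof: multivalued functions from their values on representatives
-/

set_option autoImplicit false

namespace Pool.Agent.MPe54d61.TC

open SimpleGraph

theorem tUKof (h1 : S_Rep) : S_UKof := by
  intro N _ hN l ψ
  have hN0 : (N : ℝ) ≠ 0 := by
    have : N ≠ 0 := by omega
    exact_mod_cast this
  refine ⟨fun z => ψ z - dt (iv l) (iv (rep z)) / N, fun k p => ?_⟩
  have h4 := (h1 N hN).2.2.2 p k
  have h5 : dt (iv l) (iv (ei k)) = (N : ℝ) * (dz l (kN N p (p + ed N k)) : ℝ)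
      + dt (iv l) (iv (rep (p + ed N k))) - dt (iv l) (iv (rep p)) := by
    rw [h4, iv_sub, iv_add, iv_smul, dt_sub_right, dt_add_right, dt_smul_right, dt_iv l (kN N p _)]
    push_cast
    ring
  simp only [DU]
  rw [EE_iv, dt_smul_right, h5]
  field_simp
  ring

end Pool.Agent.MPe54d61.TC
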