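import Pool.Agent.Lib.MP_e54d61_gt.TC.SpecA

/-!
# MP_e54d61_gt, torus case: Lemma V
-/

set_option autoImplicit false

namespace Pool.Agent.MPe54d61.TC

open Topology MatrixGroups

private theorem V_norm1 {t ε : ℝ} (h0 : 0 < t) (h1 : t < ε) (hε : ε ≤ 1 / 4) :
    ‖(t : Ci)‖ < ε := by
  rw [AddCircle.norm_eq]
  have h2 : round ((1 : ℝ)⁻¹ * t) = 0 := by
    rw [inv_one, one_mul, round_eq_zero_iff]
    constructor
    · linarith
    · linarith
  rw [h2]
  simp only [Int.cast_zero, zero_mul, sub_zero]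
  rw [abs_of_pos h0]
  exact h1

private theorem V_norm2 {t ε : ℝ} (h0 : 1 - ε < t) (h1 : t < 1) (hε : ε ≤ 1 / 4) :
    ‖(t : Ci)‖ < ε := by
  rw [AddCircle.norm_eq]
  have h2 : round ((1 : ℝ)⁻¹ * t) = 1 := by
    rw [inv_one, one_mul, round_eq, Int.floor_eq_iff]
    constructor
    · push_cast
      linarith
    · push_cast
      linarith
  rw [h2]
  simp only [Int.cast_one, mul_one]
  rw [abs_of_neg (by linarith)]
  linarith

private theorem V_ne_zero {t : ℝ} (h0 : 0 < t) (h1 : t < 1) : (t : Ci) ≠ 0 := by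
  intro h
  rw [AddCircle.coe_eq_zero_iff] at h
  obtain ⟨n, hn⟩ := h
  rw [zsmul_eq_mul, mul_one] at hn
  rw [← hn] at h0 h1
  have h2 : (0 : ℤ) < n := by exact_mod_cast h0
  have h3 : n < (1 : ℤ) := by exact_mod_cast h1
  omega

private theorem V_rep (w : Ci) (hw : w ≠ 0) : ∃ t : ℝ, 0 < t ∧ t < 1 ∧ (t : Ci) = w := by
  refine ⟨(AddCircle.equivIco (1 : ℝ) 0 w : ℝ), ?_, ?_, AddCircle.coe_equivIco⟩
  · have h1 := (AddCircle.equivIco (1 : ℝ) 0 w).2.1
    rcases h1.lt_or_eq with h2 | h2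
    · exact h2
    · exfalso
      apply hw
      have h3 : ((AddCircle.equivIco (1 : ℝ) 0 w : ℝ) : Ci) = w := AddCircle.coe_equivIco
      rw [← h3, ← h2]
      exact AddCircle.coe_zero _
  · have h1 := (AddCircle.equivIco (1 : ℝ) 0 w).2.2
    linarith

theorem tV (hLfG : S_LfG) (hV1 : S_V1) (hV0 : S_V0) (hBip : S_Bip) (hTrLen : S_TrLen)
    (hQ : S_Q) : S_V := by
  rintro v hv ⟨ε0, hε0, hfix0⟩
  obtain ⟨ε, hε, hε4, hfix⟩ : ∃ ε : ℝ, 0 < ε ∧ ε ≤ 1 / 4 ∧ ∀ z : T, ‖z.1‖ < ε → v z = z :=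
    ⟨min ε0 (1 / 4), lt_min hε0 (by norm_num), min_le_right _ _,
      fun z hz => hfix0 z (lt_of_lt_of_le hz (min_le_left _ _))⟩
  clear hfix0 hε0
  obtain ⟨G, a, hG, C, haL, haR, hHY⟩ := hLfG v hv
  obtain ⟨m, hm⟩ := hV1 v G ε hε hG hfix
  obtain ⟨hG1, hG2, D, hD⟩ := hG
  obtain ⟨v0, hv0, hsupp, hval⟩ :=
    hV0 G a C D ε m hε (by linarith) hG2 hD hm haL haR hHY
  obtain ⟨q, qc, qm, qr, qid, qs⟩ := hQ ε (1 - ε) 0 1 hε (by linarith) (by linarith)
  obtain ⟨e, he, hfl⟩ := hTrLen 0 q qc qm (fun x => ⟨(qr x).1, by linarith [(qr x).2]⟩) 6 v0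
    (hBip v0 hv0)
  have key : e = v := by
    ext w : 1
    by_cases hw : w.1 = 0
    · have h1 : w ∉ Set.range (jq q) := by
        rintro ⟨z, hz⟩
        have h2 : ((q z.1 : ℝ) : Ci) = w.1 := by rw [← hz]; rfl
        exact V_ne_zero (qr z.1).1 (qr z.1).2 (h2.trans hw)
      rw [he.2 w h1, hfix w (by rw [hw, norm_zero]; exact hε)]
    · obtain ⟨t, ht0, ht1, htw⟩ := V_rep w.1 hw
      obtain ⟨x, hx⟩ := qs t ht0 ht1
      have hwz : w = jq q (x, w.2) := by
        refine Prod.ext ?_ rfl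
        show w.1 = ((q x : ℝ) : Ci)
        rw [hx, htw]
      by_cases hin : ε ≤ x ∧ x ≤ 1 - ε
      · have hqx : q x = x := qid x hin.1 hin.2
        have hmem : (x, w.2) ∈ {z : Y | ε ≤ z.1 ∧ z.1 ≤ 1 - ε} := hin
        have hmem' := hsupp.mapsTo hmem
        have h1 : e w = jq q (v0 (x, w.2)) := by
          conv_lhs => rw [hwz]
          exact he.1 _
        have h2 : jq q (v0 (x, w.2)) = prY (v0 (x, w.2)) := by
          refine Prod.ext ?_ rfl
          show ((q (v0 (x, w.2)).1 : ℝ) : Ci) = (((v0 (x, w.2)).1 : ℝ) : Ci)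
          rw [qid _ hmem'.1 hmem'.2]
        have h3 : v0 (x, w.2) = ((G (x, w.2)).1 - m, (G (x, w.2)).2) :=
          hval (x, w.2) (by show (0 : ℝ) ≤ x; linarith [hin.1])
            (by show x ≤ (1 : ℝ); linarith [hin.2])
        have h4 : prY (v0 (x, w.2)) = prY (G (x, w.2)) := by
          rw [h3]
          refine Prod.ext ?_ rfl
          show (((G (x, w.2)).1 - (m : ℝ) : ℝ) : Ci) = (((G (x, w.2)).1 : ℝ) : Ci)
          rw [AddCircle.coe_sub]
          have h5 : ((m : ℝ) : Ci) = 0 := by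
            rw [AddCircle.coe_eq_zero_iff]
            exact ⟨m, by simp⟩
          rw [h5, sub_zero]
        have h6 : prY (x, w.2) = w := by
          refine Prod.ext ?_ rfl
          show ((x : ℝ) : Ci) = w.1
          rw [← htw, ← hx, hqx]
        rw [h1, h2, h4, hG1, h6]
      · have h0 : (x, w.2) ∉ {z : Y | ε ≤ z.1 ∧ z.1 ≤ 1 - ε} := hin
        have h1 : e w = w := by
          have h2 := he.1 (x, w.2)
          rw [hsupp _ h0, ← hwz] at h2
          exact h2
        have h3 : ‖w.1‖ < ε := by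
          rw [← htw]
          rcases lt_or_ge x ε with h4 | h4
          · have h5 : q x < q ε := qm h4
            rw [qid ε le_rfl (by linarith), hx] at h5
            exact V_norm1 ht0 h5 hε4
          · have h4' : 1 - ε < x := by
              by_contra h6
              exact hin ⟨h4, not_lt.1 h6⟩
            have h5 : q (1 - ε) < q x := qm h4'
            rw [qid (1 - ε) (by linarith) le_rfl, hx] at h5
            exact V_norm2 h5 ht1 hε4
        rw [h1, hfix w h3]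
  rw [← key]
  exact hfl

end Pool.Agent.MPe54d61.TC
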