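import Pool.Agent.Lib.MP_e54d61_gt.TC.SpecA

/-!
# MP_e54d61_gt, torus case: V1
-/

set_option autoImplicit false

namespace Pool.Agent.MPe54d61.TC

open Topology MatrixGroups

theorem V1_norm_le (x : ℝ) : ‖((x : ℝ) : Ci)‖ ≤ |x| := by
  have h := AddCircle.norm_eq (1 : ℝ) (x := x)
  rw [h]
  have h2 := round_le x 0
  simpa using h2

theorem V1_int {x y : ℝ} (h : (x : Ci) = (y : Ci)) : ∃ n : ℤ, x - y = n := by
  have h1 : ((x - y : ℝ) : Ci) = 0 := by
    rw [AddCircle.coe_sub, h, sub_self]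
  obtain ⟨n, hn⟩ := (AddCircle.coe_eq_zero_iff (1 : ℝ)).1 h1
  exact ⟨n, by simpa using hn.symm⟩

theorem tV1 : S_V1 := by
  intro v G ε hε hL hv
  have key : ∀ z : Y, |z.1| < ε → (G z).2 = z.2 ∧ ∃ n : ℤ, (G z).1 - z.1 = n := by
    intro z hz
    have h1 : prY (G z) = prY z := by
      rw [hL.1 z]
      exact hv _ (lt_of_le_of_lt (V1_norm_le z.1) hz)
    have h2 : (prY (G z)).2 = (prY z).2 := by rw [h1]
    have h3 : (prY (G z)).1 = (prY z).1 := by rw [h1]
    exact ⟨h2, V1_int h3⟩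
  have hU : IsPreconnected {z : Y | |z.1| < ε} := by
    have h1 : {z : Y | |z.1| < ε} = Set.Ioo (-ε) ε ×ˢ (Set.univ : Set Ci) := by
      ext z
      simp [abs_lt]
    rw [h1]
    exact isPreconnected_Ioo.prod isPreconnected_univ
  have hf : Continuous fun z : Y => (G z).1 - z.1 :=
    (continuous_fst.comp G.continuous).sub continuous_fst
  have hle : ∀ z w : Y, |z.1| < ε → |w.1| < ε → (G w).1 - w.1 ≤ (G z).1 - z.1 := by
    intro z w hz hw
    by_contra hlt
    push Not at hlt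
    obtain ⟨n1, hn1⟩ := (key z hz).2
    obtain ⟨n2, hn2⟩ := (key w hw).2
    have h1 : n1 < n2 := by
      rw [hn1, hn2] at hlt
      exact_mod_cast hlt
    have h2 : ((n1 : ℝ) + 1) ≤ n2 := by exact_mod_cast h1
    have h3 : (n1 : ℝ) + 1 / 2 ∈ Set.Icc ((G z).1 - z.1) ((G w).1 - w.1) := by
      rw [hn1, hn2]
      constructor <;> linarith
    obtain ⟨y, hy, hy2⟩ := hU.intermediate_value (f := fun z : Y => (G z).1 - z.1) hz hw
      hf.continuousOn h3
    obtain ⟨n3, hn3⟩ := (key y hy).2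
    have h4 : (n3 : ℝ) = n1 + 1 / 2 := by
      rw [← hn3]
      exact hy2
    have h5 : ((2 * n3 : ℤ) : ℝ) = ((2 * n1 + 1 : ℤ) : ℝ) := by
      push_cast
      linarith
    have h6 : 2 * n3 = 2 * n1 + 1 := by exact_mod_cast h5
    omega
  obtain ⟨m, hm⟩ := (key ((0 : ℝ), (0 : Ci)) (by simpa using hε)).2
  refine ⟨m, fun z hz => ?_⟩
  have h0 : |(((0 : ℝ), (0 : Ci)) : Y).1| < ε := by simpa using hε
  have h1 := hle z _ hz h0
  have h2 := hle _ z h0 hz
  refine Prod.ext ?_ (key z hz).1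
  show (G z).1 = z.1 + m
  linarith

end Pool.Agent.MPe54d61.TC
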