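import Pool.Agent.Lib.MP_e54d61_gt.TC.SpecA

/-!
# MP_e54d61_gt, torus case, part A: Win
-/

set_option autoImplicit false

namespace Pool.Agent.MPe54d61.TC

open Topology MatrixGroups

private theorem Win_comm {N : Type} [Group N] (t a : N) (h : t * a * t⁻¹ * a⁻¹ = 1) :
    Commute t a := by
  have h1 : t * a * t⁻¹ = a := mul_inv_eq_one.1 h
  have h2 : t * a = a * t := mul_inv_eq_iff_eq_mul.1 h1
  exact h2

private theorem Win_quot {N : Type} [Group N] (t a : N) (k l : ℤ) (h : Commute t a) :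
    (t ^ k * a * (t ^ k)⁻¹) * (t ^ l * a * (t ^ l)⁻¹)⁻¹ = 1 := by
  have h1 : t ^ k * a = a * t ^ k := (h.zpow_left k).eq
  have h2 : t ^ l * a = a * t ^ l := (h.zpow_left l).eq
  rw [h1, h2]
  group

theorem tWin : S_Win := by
  intro G a C hG ha1 ha2 hc M
  obtain ⟨n, hn⟩ := exists_nat_ge (|M| + |C|)
  have hM : M ≤ |M| := le_abs_self M
  have hC : C ≤ |C| := le_abs_self C
  have hC' : -|C| ≤ C := neg_abs_le C
  refine ⟨(tau ^ (n : ℤ) * a * (tau ^ (n : ℤ))⁻¹) *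
    (tau ^ (-(n : ℤ)) * a * (tau ^ (-(n : ℤ)))⁻¹)⁻¹, ?_, ?_⟩
  · have h1 : (QuotientGroup.mk' HY) (tau * a * tau⁻¹ * a⁻¹) = 1 :=
      (QuotientGroup.eq_one_iff _).2 hc
    have h2 := Win_comm ((QuotientGroup.mk' HY) tau) ((QuotientGroup.mk' HY) a) (by
      simpa only [map_mul, map_inv] using h1)
    have h3 := Win_quot _ _ (n : ℤ) (-(n : ℤ)) h2
    refine (QuotientGroup.eq_one_iff _).1 ?_
    show (QuotientGroup.mk' HY) _ = 1
    simpa only [map_mul, map_inv, map_zpow] using h3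
  · intro z hz
    have hz1 := abs_le.1 hz
    have hcomm : Commute G tau := by
      ext w : 1
      exact hG w
    have h1 : (tau ^ (-(n : ℤ)) * a * (tau ^ (-(n : ℤ)))⁻¹) z = z := by
      show (tau ^ (-(n : ℤ)) : Y ≃ₜ Y) (a ((tau ^ (-(n : ℤ)))⁻¹ z)) = z
      have h0 : (tau ^ (n : ℤ) : Y ≃ₜ Y) z = (z.1 + ((n : ℤ) : ℝ), z.2) := tau_zpow_apply _ _
      have h01 : a (z.1 + ((n : ℤ) : ℝ), z.2) = (z.1 + ((n : ℤ) : ℝ), z.2) := by
        apply ha2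
        show C ≤ z.1 + ((n : ℤ) : ℝ)
        push_cast
        linarith [hz1.1]
      rw [← zpow_neg, neg_neg, h0, h01, tau_zpow_apply]
      ext
      · simp
      · rfl
    have h2 : (tau ^ (-(n : ℤ)) * a * (tau ^ (-(n : ℤ)))⁻¹)⁻¹ z = z := by
      show (tau ^ (-(n : ℤ)) * a * (tau ^ (-(n : ℤ)))⁻¹).symm z = z
      rw [Homeomorph.symm_apply_eq]
      exact h1.symm
    show (tau ^ (n : ℤ) * a * (tau ^ (n : ℤ))⁻¹)
      ((tau ^ (-(n : ℤ)) * a * (tau ^ (-(n : ℤ)))⁻¹)⁻¹ z) = G z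
    rw [h2]
    show (tau ^ (n : ℤ) : Y ≃ₜ Y) (a ((tau ^ (n : ℤ))⁻¹ z)) = G z
    have h3 : ((tau ^ (n : ℤ))⁻¹ : Y ≃ₜ Y) z = (z.1 + ((-(n : ℤ) : ℤ) : ℝ), z.2) := by
      rw [← zpow_neg, tau_zpow_apply]
    have h4 : a ((tau ^ (n : ℤ))⁻¹ z) = G ((tau ^ (n : ℤ))⁻¹ z) := by
      apply ha1
      rw [h3]
      show z.1 + ((-(n : ℤ) : ℤ) : ℝ) ≤ -C
      push_cast
      linarith [hz1.2]
    rw [h4]
    have h5 : Commute (tau ^ (n : ℤ)) G := (hcomm.symm.zpow_left (n : ℤ))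
    have h6 : tau ^ (n : ℤ) * (G * (tau ^ (n : ℤ))⁻¹) = G := by
      rw [← mul_assoc, h5.eq, mul_assoc, mul_inv_cancel, mul_one]
    exact congrArg (fun f : Y ≃ₜ Y => f z) h6

end Pool.Agent.MPe54d61.TC
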