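import Pool.Agent.Lib.MP_e54d61_gt.TC.SpecA

/-!
# MP_e54d61_gt, torus case, part A: products with a homeomorphism of the line
-/

set_option autoImplicit false

namespace Pool.Agent.MPe54d61.TC

open Topology

private theorem Xi_norm (y : Ci) : ‖y‖ + ‖y - ((1 / 2 : ℝ) : Ci)‖ = 1 / 2 := by
  obtain ⟨x, hx, rfl⟩ : ∃ x ∈ Set.Ico (-(1 / 2) : ℝ) (-(1 / 2) + 1), (x : Ci) = y := by
    have h1 : y ∈ (((↑) : ℝ → Ci) '' Set.Ico (-(1 / 2) : ℝ) (-(1 / 2) + 1)) := by
      rw [AddCircle.coe_image_Ico_eq]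
      exact Set.mem_univ _
    exact h1
  have hab : ∀ u : ℝ, |u| ≤ 1 / 2 → ‖(u : Ci)‖ = |u| := fun u hu =>
    (AddCircle.norm_coe_eq_abs_iff (p := (1 : ℝ)) one_ne_zero).2 (by rwa [abs_one])
  have hx1 : |x| ≤ 1 / 2 := abs_le.2 ⟨by linarith [hx.1], by linarith [hx.2]⟩
  rw [hab x hx1]
  rcases le_total 0 x with h | h
  · have h2 : ((x : Ci) - ((1 / 2 : ℝ) : Ci)) = ((x - 1 / 2 : ℝ) : Ci) := rfl
    have h3 : |x - 1 / 2| = 1 / 2 - x := by rw [abs_of_nonpos (by linarith [hx.2])]; ring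
    rw [h2, hab (x - 1 / 2) (by rw [h3]; linarith), h3, abs_of_nonneg h]
    ring
  · have h2 : ((x : Ci) - ((1 / 2 : ℝ) : Ci)) = ((x + 1 / 2 : ℝ) : Ci) := by
      have h4 : ((x + 1 / 2 : ℝ) : Ci) = ((x - 1 / 2 + 1 : ℝ) : Ci) := by
        congr 1; ring
      rw [h4, AddCircle.coe_add_period]
      rfl
    have h3 : |x + 1 / 2| = x + 1 / 2 := abs_of_nonneg (by linarith [hx.1])
    rw [h2, hab (x + 1 / 2) (by rw [h3]; linarith), h3, abs_of_nonpos h]
    ring

/-- the cut off function -/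
private noncomputable def Xi_chi (y : Ci) : ℝ := min 1 (max 0 (3 / 2 - 4 * ‖y‖))

private theorem Xi_chi_nonneg (y : Ci) : 0 ≤ Xi_chi y := le_min zero_le_one (le_max_left _ _)

private theorem Xi_chi_le (y : Ci) : Xi_chi y ≤ 1 := min_le_left _ _

private theorem Xi_chi_zero {y : Ci} (h : 3 / 8 ≤ ‖y‖) : Xi_chi y = 0 := by
  unfold Xi_chi
  rw [max_eq_left (by linarith), min_eq_right zero_le_one]

private theorem Xi_chi_one {y : Ci} (h : ‖y‖ ≤ 1 / 8) : Xi_chi y = 1 := by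
  unfold Xi_chi
  exact min_eq_left (le_max_of_le_right (by linarith))

private theorem Xi_chi_cont : Continuous Xi_chi := by
  unfold Xi_chi
  exact continuous_const.min (continuous_const.max
    (continuous_const.sub (continuous_const.mul continuous_norm)))

theorem tXi (hBox : S_Box) (hFib : S_Fib) : S_Xi := by
  intro ξ hξ ⟨M, hM⟩
  obtain ⟨f, hf⟩ : ∃ f : ℝ × Ci → ℝ, f = fun z => (1 - Xi_chi z.2) * z.1 + Xi_chi z.2 * ξ z.1 :=
    ⟨_, rfl⟩
  have hfz : ∀ z, f z = (1 - Xi_chi z.2) * z.1 + Xi_chi z.2 * ξ z.1 := fun z => by rw [hf]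
  have hfM : ∀ z : ℝ × Ci, M ≤ |z.1| → f z = z.1 := fun z hz => by
    rw [hfz, hM z.1 hz]; ring
  have hcont : Continuous f := by
    rw [hf]
    have h1 : Continuous fun z : ℝ × Ci => Xi_chi z.2 := Xi_chi_cont.comp continuous_snd
    have h2 : Continuous fun z : ℝ × Ci => ξ z.1 := ξ.continuous.comp continuous_fst
    exact ((continuous_const.sub h1).mul continuous_fst).add (h1.mul h2)
  obtain ⟨h1, hh1⟩ := hFib Ci inferInstance f hcont (by
    intro y a b hab
    show f (a, y) < f (b, y)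
    rw [hfz, hfz]
    have e1 := hξ hab
    have e2 := Xi_chi_nonneg y
    have e3 := Xi_chi_le y
    rcases e2.lt_or_eq with e4 | e4
    · have e5 : Xi_chi y * ξ a < Xi_chi y * ξ b := mul_lt_mul_of_pos_left e1 e4
      have e6 : (1 - Xi_chi y) * a ≤ (1 - Xi_chi y) * b :=
        mul_le_mul_of_nonneg_left hab.le (by linarith)
      exact add_lt_add_of_le_of_lt e6 e5
    · show (1 - Xi_chi y) * a + Xi_chi y * ξ a < (1 - Xi_chi y) * b + Xi_chi y * ξ b
      rw [← e4]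
      linarith) (by
    intro y w
    obtain ⟨N, hN⟩ : ∃ N : ℝ, N = max |M| |w| := ⟨_, rfl⟩
    have hN1 : |M| ≤ N := by rw [hN]; exact le_max_left _ _
    have hN2 : |w| ≤ N := by rw [hN]; exact le_max_right _ _
    have hN0 : 0 ≤ N := (abs_nonneg _).trans hN1
    have hMN : M ≤ N := (le_abs_self M).trans hN1
    have hc : ContinuousOn (fun x : ℝ => f (x, y)) (Set.Icc (-N) N) :=
      (hcont.comp (continuous_id.prodMk continuous_const)).continuousOn
    have hiv := intermediate_value_Icc (by linarith : -N ≤ N) hc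
    have e1 : f (-N, y) = -N := hfM (-N, y) (by
      show M ≤ |(-N)|
      rw [abs_neg, abs_of_nonneg hN0]
      exact hMN)
    have e2 : f (N, y) = N := hfM (N, y) (by
      show M ≤ |N|
      rw [abs_of_nonneg hN0]
      exact hMN)
    have hw : w ∈ Set.Icc (f (-N, y)) (f (N, y)) := by
      rw [e1, e2]
      exact abs_le.1 hN2
    obtain ⟨x, -, hx⟩ := hiv hw
    exact ⟨x, hx⟩)
  have hY1 : h1 ∈ HY := by
    refine hBox 0 M 0 h1 fun z hz => ?_
    rw [hh1 z]
    refine Prod.ext ?_ rfl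
    show f z = z.1
    by_cases h : M ≤ |z.1|
    · exact hfM z h
    · have h3 : ¬ ‖z.2 - 0‖ ≤ 3 / 8 := fun h4 => hz ⟨by
        rw [sub_zero]
        exact (not_le.1 h).le, h4⟩
      rw [sub_zero] at h3
      rw [hfz, Xi_chi_zero (not_le.1 h3).le]
      ring
  have hY2 : h1⁻¹ * xh ξ ∈ HY := by
    refine hBox 0 M ((1 / 2 : ℝ) : Ci) _ fun z hz => ?_
    show h1.symm (xh ξ z) = z
    rw [Homeomorph.symm_apply_eq, hh1 z]
    refine Prod.ext ?_ rfl
    show ξ z.1 = f z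
    by_cases h : M ≤ |z.1|
    · rw [hfM z h, hM z.1 h]
    · have h3 : ¬ ‖z.2 - ((1 / 2 : ℝ) : Ci)‖ ≤ 3 / 8 := fun h4 => hz ⟨by
        rw [sub_zero]
        exact (not_le.1 h).le, h4⟩
      have h5 := Xi_norm z.2
      rw [hfz, Xi_chi_one (by linarith [not_le.1 h3])]
      ring
  have h6 : xh ξ = h1 * (h1⁻¹ * xh ξ) := by group
  rw [h6]
  exact mul_mem hY1 hY2

end Pool.Agent.MPe54d61.TC
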