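import Pool.Agent.Lib.MP_e54d61_gt.TC.SpecA
import Pool.Agent.Lib.MP_e54d61_gt.TC.jq

/-!
# MP_e54d61_gt, torus case: `S_jE`, the standard open embedding of the plane into the annulus
-/

set_option autoImplicit false

namespace Pool.Agent.MPe54d61.TC

open Topology MatrixGroups

/-- the homeomorphism of the line onto the interval from -1/2 to 1/2 used in `jE` -/
noncomputable def jE_th (y : ℝ) : ℝ := y / (2 * (1 + |y|))

theorem jE_pos (y : ℝ) : 0 < 2 * (1 + |y|) := by
  have := abs_nonneg y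
  linarith

theorem jE_cont : Continuous jE_th := by
  unfold jE_th
  refine Continuous.div continuous_id ?_ fun y => (jE_pos y).ne'
  fun_prop

theorem jE_mono : StrictMono jE_th := by
  intro x y hxy
  unfold jE_th
  rw [div_lt_div_iff₀ (jE_pos x) (jE_pos y)]
  rcases le_total 0 x with hx | hx
  · have hy : 0 ≤ y := by linarith
    rw [abs_of_nonneg hx, abs_of_nonneg hy]
    nlinarith
  · rw [abs_of_nonpos hx]
    rcases le_total 0 y with hy | hy
    · rw [abs_of_nonneg hy]
      nlinarith [mul_nonneg (neg_nonneg.2 hx) hy]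
    · rw [abs_of_nonpos hy]
      nlinarith

theorem jE_bd (y : ℝ) : -(1 / 2) < jE_th y ∧ jE_th y < -(1 / 2) + 1 := by
  unfold jE_th
  constructor
  · rw [lt_div_iff₀ (jE_pos y)]
    have := neg_abs_le y
    linarith
  · rw [div_lt_iff₀ (jE_pos y)]
    have := le_abs_self y
    linarith

/-- `|θ y| ≤ 3/8` if and only if `|y| ≤ 3` -/
theorem jE_abs (y : ℝ) : |jE_th y| ≤ 3 / 8 ↔ |y| ≤ 3 := by
  unfold jE_th
  rw [abs_div, abs_of_pos (jE_pos y), div_le_iff₀ (jE_pos y)]
  constructor
  · intro h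
    linarith
  · intro h
    linarith

theorem jE_norm (y : ℝ) : ‖((jE_th y : ℝ) : Ci)‖ = |jE_th y| := by
  rw [AddCircle.norm_eq]
  have h1 := jE_bd y
  have h2 : round (1⁻¹ * jE_th y) = 0 := by
    rw [inv_one, one_mul, round_eq_zero_iff]
    exact ⟨h1.1.le, by linarith [h1.2]⟩
  rw [h2]
  simp

theorem tjE : S_jE := by
  have hop : IsOpenEmbedding (fun y : ℝ => ((jE_th y : ℝ) : Ci)) :=
    jq_fst (-(1 / 2)) jE_th jE_cont jE_mono jE_bd
  refine ⟨IsOpenEmbedding.id.prodMap hop, ?_⟩
  ext z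
  constructor
  · rintro ⟨w, ⟨h1, h2⟩, rfl⟩
    refine ⟨h1, ?_⟩
    show ‖((jE_th w.2 : ℝ) : Ci)‖ ≤ 3 / 8
    rw [jE_norm, jE_abs]
    exact h2
  · rintro ⟨h1, h2⟩
    obtain ⟨z1, z2⟩ := z
    obtain ⟨t, rfl⟩ : ∃ t : ℝ, (t : Ci) = z2 := QuotientAddGroup.mk_surjective z2
    -- the representative of the second coordinate near zero
    have h3 : ((t - round t : ℝ) : Ci) = (t : Ci) := by
      rw [AddCircle.coe_sub]
      have : ((round t : ℝ) : Ci) = 0 := by
        rw [AddCircle.coe_eq_zero_iff]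
        exact ⟨round t, by simp⟩
      rw [this, sub_zero]
    have h4 : |t - round t| ≤ 3 / 8 := by
      have h5 : ‖(t : Ci)‖ = |t - round t| := by
        rw [AddCircle.norm_eq]
        simp
      rw [← h5]
      exact h2
    obtain ⟨y, hy⟩ : ∃ y : ℝ, jE_th y = t - round t := by
      refine mem_range_of_exists_le_of_exists_ge jE_cont ⟨-3, ?_⟩ ⟨3, ?_⟩
      · have : jE_th (-3) = -(3 / 8) := by
          unfold jE_th
          rw [abs_neg, abs_of_pos (by norm_num : (0 : ℝ) < 3)]
          norm_num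
        rw [this]
        exact (abs_le.1 h4).1
      · have : jE_th 3 = 3 / 8 := by
          unfold jE_th
          rw [abs_of_pos (by norm_num : (0 : ℝ) < 3)]
          norm_num
        rw [this]
        exact (abs_le.1 h4).2
    refine ⟨(z1, y), ⟨h1, ?_⟩, ?_⟩
    · show |y| ≤ 3
      rw [← jE_abs, hy]
      exact h4
    · show (z1, ((jE_th y : ℝ) : Ci)) = (z1, (t : Ci))
      rw [hy, h3]

end Pool.Agent.MPe54d61.TC
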