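import Pool.Agent.Lib.MP_e54d61_gt.TC.Adj5
import Pool.Agent.Lib.MP_e54d61_gt.TC.AdjSS
import Pool.Agent.Lib.MP_e54d61_gt.TC.Arc
import Pool.Agent.Lib.MP_e54d61_gt.TC.Area
import Pool.Agent.Lib.MP_e54d61_gt.TC.Av
import Pool.Agent.Lib.MP_e54d61_gt.TC.AvEx
import Pool.Agent.Lib.MP_e54d61_gt.TC.Avoid
import Pool.Agent.Lib.MP_e54d61_gt.TC.Bdd
import Pool.Agent.Lib.MP_e54d61_gt.TC.Bip
import Pool.Agent.Lib.MP_e54d61_gt.TC.BipG
import Pool.Agent.Lib.MP_e54d61_gt.TC.Box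
import Pool.Agent.Lib.MP_e54d61_gt.TC.BxF
import Pool.Agent.Lib.MP_e54d61_gt.TC.CFc
import Pool.Agent.Lib.MP_e54d61_gt.TC.ChB
import Pool.Agent.Lib.MP_e54d61_gt.TC.ChCyc
import Pool.Agent.Lib.MP_e54d61_gt.TC.ChSum
import Pool.Agent.Lib.MP_e54d61_gt.TC.Chain
import Pool.Agent.Lib.MP_e54d61_gt.TC.Circ
import Pool.Agent.Lib.MP_e54d61_gt.TC.Cmt
import Pool.Agent.Lib.MP_e54d61_gt.TC.Comp
import Pool.Agent.Lib.MP_e54d61_gt.TC.Count
import Pool.Agent.Lib.MP_e54d61_gt.TC.CrA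
import Pool.Agent.Lib.MP_e54d61_gt.TC.CrB
import Pool.Agent.Lib.MP_e54d61_gt.TC.Cross
import Pool.Agent.Lib.MP_e54d61_gt.TC.Cut
import Pool.Agent.Lib.MP_e54d61_gt.TC.CycSum
import Pool.Agent.Lib.MP_e54d61_gt.TC.Desc
import Pool.Agent.Lib.MP_e54d61_gt.TC.Det
import Pool.Agent.Lib.MP_e54d61_gt.TC.Dis3
import Pool.Agent.Lib.MP_e54d61_gt.TC.Dsp
import Pool.Agent.Lib.MP_e54d61_gt.TC.EcSub
import Pool.Agent.Lib.MP_e54d61_gt.TC.Ed
import Pool.Agent.Lib.MP_e54d61_gt.TC.Edge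
import Pool.Agent.Lib.MP_e54d61_gt.TC.El
import Pool.Agent.Lib.MP_e54d61_gt.TC.Energy
import Pool.Agent.Lib.MP_e54d61_gt.TC.EssAt
import Pool.Agent.Lib.MP_e54d61_gt.TC.EssGlue
import Pool.Agent.Lib.MP_e54d61_gt.TC.EssRev
import Pool.Agent.Lib.MP_e54d61_gt.TC.Fh
import Pool.Agent.Lib.MP_e54d61_gt.TC.Fib
import Pool.Agent.Lib.MP_e54d61_gt.TC.FinE
import Pool.Agent.Lib.MP_e54d61_gt.TC.Frag
import Pool.Agent.Lib.MP_e54d61_gt.TC.GGE
import Pool.Agent.Lib.MP_e54d61_gt.TC.Gen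
import Pool.Agent.Lib.MP_e54d61_gt.TC.GenB
import Pool.Agent.Lib.MP_e54d61_gt.TC.GeoC
import Pool.Agent.Lib.MP_e54d61_gt.TC.GeoE
import Pool.Agent.Lib.MP_e54d61_gt.TC.GeoP
import Pool.Agent.Lib.MP_e54d61_gt.TC.GeoSeg
import Pool.Agent.Lib.MP_e54d61_gt.TC.GeoV
import Pool.Agent.Lib.MP_e54d61_gt.TC.Good
import Pool.Agent.Lib.MP_e54d61_gt.TC.Green
import Pool.Agent.Lib.MP_e54d61_gt.TC.Grid
import Pool.Agent.Lib.MP_e54d61_gt.TC.HarmE
import Pool.Agent.Lib.MP_e54d61_gt.TC.Hit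
import Pool.Agent.Lib.MP_e54d61_gt.TC.Hits
import Pool.Agent.Lib.MP_e54d61_gt.TC.Hor
import Pool.Agent.Lib.MP_e54d61_gt.TC.KD
import Pool.Agent.Lib.MP_e54d61_gt.TC.KDO
import Pool.Agent.Lib.MP_e54d61_gt.TC.KI
import Pool.Agent.Lib.MP_e54d61_gt.TC.KI0
import Pool.Agent.Lib.MP_e54d61_gt.TC.KIb
import Pool.Agent.Lib.MP_e54d61_gt.TC.KO
import Pool.Agent.Lib.MP_e54d61_gt.TC.KReal
import Pool.Agent.Lib.MP_e54d61_gt.TC.KS
import Pool.Agent.Lib.MP_e54d61_gt.TC.Leaf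
import Pool.Agent.Lib.MP_e54d61_gt.TC.LfB
import Pool.Agent.Lib.MP_e54d61_gt.TC.LfG
import Pool.Agent.Lib.MP_e54d61_gt.TC.LfM
import Pool.Agent.Lib.MP_e54d61_gt.TC.LfP
import Pool.Agent.Lib.MP_e54d61_gt.TC.Lft
import Pool.Agent.Lib.MP_e54d61_gt.TC.LiftP
import Pool.Agent.Lib.MP_e54d61_gt.TC.Line
import Pool.Agent.Lib.MP_e54d61_gt.TC.LkNR
import Pool.Agent.Lib.MP_e54d61_gt.TC.LnkD
import Pool.Agent.Lib.MP_e54d61_gt.TC.LnkE
import Pool.Agent.Lib.MP_e54d61_gt.TC.LnkR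
import Pool.Agent.Lib.MP_e54d61_gt.TC.Loc
import Pool.Agent.Lib.MP_e54d61_gt.TC.Mn
import Pool.Agent.Lib.MP_e54d61_gt.TC.MonoCov
import Pool.Agent.Lib.MP_e54d61_gt.TC.Moves
import Pool.Agent.Lib.MP_e54d61_gt.TC.Near
import Pool.Agent.Lib.MP_e54d61_gt.TC.NrC
import Pool.Agent.Lib.MP_e54d61_gt.TC.Nu
import Pool.Agent.Lib.MP_e54d61_gt.TC.NuLen
import Pool.Agent.Lib.MP_e54d61_gt.TC.PLc
import Pool.Agent.Lib.MP_e54d61_gt.TC.Pair
import Pool.Agent.Lib.MP_e54d61_gt.TC.PairE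
import Pool.Agent.Lib.MP_e54d61_gt.TC.PairG
import Pool.Agent.Lib.MP_e54d61_gt.TC.PairU
import Pool.Agent.Lib.MP_e54d61_gt.TC.PathE
import Pool.Agent.Lib.MP_e54d61_gt.TC.Per
import Pool.Agent.Lib.MP_e54d61_gt.TC.Pix
import Pool.Agent.Lib.MP_e54d61_gt.TC.PixC
import Pool.Agent.Lib.MP_e54d61_gt.TC.PixX
import Pool.Agent.Lib.MP_e54d61_gt.TC.Poin
import Pool.Agent.Lib.MP_e54d61_gt.TC.Poisson
import Pool.Agent.Lib.MP_e54d61_gt.TC.Pot
import Pool.Agent.Lib.MP_e54d61_gt.TC.PotA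
import Pool.Agent.Lib.MP_e54d61_gt.TC.PotB
import Pool.Agent.Lib.MP_e54d61_gt.TC.PotCls
import Pool.Agent.Lib.MP_e54d61_gt.TC.PotX
import Pool.Agent.Lib.MP_e54d61_gt.TC.PotZ
import Pool.Agent.Lib.MP_e54d61_gt.TC.Prim
import Pool.Agent.Lib.MP_e54d61_gt.TC.Q
import Pool.Agent.Lib.MP_e54d61_gt.TC.RRs
import Pool.Agent.Lib.MP_e54d61_gt.TC.Rad
import Pool.Agent.Lib.MP_e54d61_gt.TC.ReachGT
import Pool.Agent.Lib.MP_e54d61_gt.TC.Real
import Pool.Agent.Lib.MP_e54d61_gt.TC.RealE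
import Pool.Agent.Lib.MP_e54d61_gt.TC.Rep
import Pool.Agent.Lib.MP_e54d61_gt.TC.Ring
import Pool.Agent.Lib.MP_e54d61_gt.TC.SAdj
import Pool.Agent.Lib.MP_e54d61_gt.TC.Same
import Pool.Agent.Lib.MP_e54d61_gt.TC.Shift
import Pool.Agent.Lib.MP_e54d61_gt.TC.Short
import Pool.Agent.Lib.MP_e54d61_gt.TC.Sign
import Pool.Agent.Lib.MP_e54d61_gt.TC.Six
import Pool.Agent.Lib.MP_e54d61_gt.TC.SmE
import Pool.Agent.Lib.MP_e54d61_gt.TC.SmF
import Pool.Agent.Lib.MP_e54d61_gt.TC.SmGT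
import Pool.Agent.Lib.MP_e54d61_gt.TC.SplitP
import Pool.Agent.Lib.MP_e54d61_gt.TC.Star
import Pool.Agent.Lib.MP_e54d61_gt.TC.Step
import Pool.Agent.Lib.MP_e54d61_gt.TC.Strm
import Pool.Agent.Lib.MP_e54d61_gt.TC.SubB
import Pool.Agent.Lib.MP_e54d61_gt.TC.SubE
import Pool.Agent.Lib.MP_e54d61_gt.TC.SubG
import Pool.Agent.Lib.MP_e54d61_gt.TC.SubI
import Pool.Agent.Lib.MP_e54d61_gt.TC.SubW
import Pool.Agent.Lib.MP_e54d61_gt.TC.SubZ
import Pool.Agent.Lib.MP_e54d61_gt.TC.Surg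
import Pool.Agent.Lib.MP_e54d61_gt.TC.SwY
import Pool.Agent.Lib.MP_e54d61_gt.TC.Swn
import Pool.Agent.Lib.MP_e54d61_gt.TC.ThPot
import Pool.Agent.Lib.MP_e54d61_gt.TC.Theta
import Pool.Agent.Lib.MP_e54d61_gt.TC.Thin
import Pool.Agent.Lib.MP_e54d61_gt.TC.ThinE
import Pool.Agent.Lib.MP_e54d61_gt.TC.ThinP
import Pool.Agent.Lib.MP_e54d61_gt.TC.ThreeA
import Pool.Agent.Lib.MP_e54d61_gt.TC.ThreeB
import Pool.Agent.Lib.MP_e54d61_gt.TC.TrEx
import Pool.Agent.Lib.MP_e54d61_gt.TC.TrFl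
import Pool.Agent.Lib.MP_e54d61_gt.TC.TrLen
import Pool.Agent.Lib.MP_e54d61_gt.TC.TrPu
import Pool.Agent.Lib.MP_e54d61_gt.TC.Transl
import Pool.Agent.Lib.MP_e54d61_gt.TC.Tri
import Pool.Agent.Lib.MP_e54d61_gt.TC.Trl
import Pool.Agent.Lib.MP_e54d61_gt.TC.Tube
import Pool.Agent.Lib.MP_e54d61_gt.TC.Two
import Pool.Agent.Lib.MP_e54d61_gt.TC.U
import Pool.Agent.Lib.MP_e54d61_gt.TC.UKof
import Pool.Agent.Lib.MP_e54d61_gt.TC.V
import Pool.Agent.Lib.MP_e54d61_gt.TC.V0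
import Pool.Agent.Lib.MP_e54d61_gt.TC.V1
import Pool.Agent.Lib.MP_e54d61_gt.TC.Win
import Pool.Agent.Lib.MP_e54d61_gt.TC.Xi
import Pool.Agent.Lib.MP_e54d61_gt.TC.jE
import Pool.Agent.Lib.MP_e54d61_gt.TC.jq

/-!
# MP_e54d61_gt, torus case: all statements put together
-/

set_option autoImplicit false

namespace Pool.Agent.MPe54d61.TC

theorem aEd : S_Ed := tEd
theorem aGrid : S_Grid := tGrid
theorem aRep : S_Rep := tRep aGrid
theorem aGeoSeg : S_GeoSeg := tGeoSeg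
theorem aEssAt : S_EssAt := tEssAt
theorem aLoc : S_Loc := tLoc aEssAt
theorem aTrl : S_Trl := tTrl
theorem aDis3 : S_Dis3 := tDis3 aTrl
theorem aPot : S_Pot := tPot
theorem aPotCls : S_PotCls := tPotCls
theorem aThPot : S_ThPot := tThPot aPot aPotCls
theorem aChSum : S_ChSum := tChSum aEd
theorem aChCyc : S_ChCyc := tChCyc aGrid aRep aChSum
theorem aPoin : S_Poin := tPoin
theorem aPer : S_Per := tPer
theorem aStrm : S_Strm := tStrm aPoin aPer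
theorem aSix : S_Six := tSix
theorem aRing : S_Ring := tRing aGrid aEd aLoc aChCyc aStrm aSix
theorem aMn : S_Mn := tMn aGrid aRep aLoc aRing
theorem aPrim : S_Prim := tPrim
theorem aUKof : S_UKof := tUKof aRep
theorem aKDO : S_KDO := tKDO aEd aPrim aUKof aMn
theorem aKIb : S_KIb := tKIb aMn
theorem aKI0 : S_KI0 := tKI0 aGrid aThPot aPrim aUKof
theorem aPairU : S_PairU := tPairU aGrid aEd aChSum aUKof aDis3 aThPot
theorem aGreen : S_Green := tGreen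
theorem aPoisson : S_Poisson := tPoisson aGreen
theorem aCount : S_Count := tCount
theorem aTwo : S_Two := tTwo aCount
theorem aArea : S_Area := tArea
theorem aSign : S_Sign := tSign aTwo aArea
theorem aEdge : S_Edge := tEdge aGreen aPoisson aSign
theorem aHarmE : S_HarmE := tHarmE aEdge
theorem aTri : S_Tri := tTri
theorem aPLc : S_PLc := tPLc aTri
theorem aMonoCov : S_MonoCov := tMonoCov
theorem aBdd : S_Bdd := tBdd
theorem aLeaf : S_Leaf := tLeaf aTri aPLc aMonoCov aBdd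
theorem aMoves : S_Moves := tMoves
theorem aDesc : S_Desc := tDesc
theorem aStar : S_Star := tStar
theorem aTrEx : S_TrEx := tTrEx
theorem aTrFl : S_TrFl := tTrFl
theorem aTrPu : S_TrPu := tTrPu
theorem aRad : S_Rad := tRad
theorem aSwn : S_Swn := tSwn aRad
theorem aBxF : S_BxF := tBxF aTrEx aTrFl aTrPu aSwn
theorem aSmF : S_SmF := tSmF aBxF
theorem aSmGT : S_SmGT := tSmGT aSmF
theorem aReachGT : S_ReachGT := tReachGT aPLc aLeaf aMoves aDesc aStar aSmGT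
theorem aTransl : S_Transl := tTransl
theorem aLine : S_Line := tLine aTransl
theorem aTheta : S_Theta := tTheta
theorem aAvoid : S_Avoid := tAvoid aTri aTheta
theorem aEnergy : S_Energy := tEnergy aGreen
theorem aCycSum : S_CycSum := tCycSum
theorem aPairE : S_PairE := tPairE aEnergy aCycSum
theorem aPair : S_Pair := tPair aHarmE aReachGT aLine aAvoid aPairE
theorem aPairG : S_PairG := tPairG aGrid aChCyc aDis3 aPairU aGeoSeg aPair
theorem aRealE : S_RealE := tRealE aEnergy aHarmE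
theorem aReal : S_Real := tReal aReachGT aLine aAvoid aRealE
theorem aKReal : S_KReal := tKReal aReal aGeoSeg
theorem aKS : S_KS := tKS aPrim aUKof
theorem aKD : S_KD := tKD aKDO
theorem aKO : S_KO := tKO aKDO
theorem aKI : S_KI := tKI aKIb aKI0 aPairG
theorem aEssRev : S_EssRev := tEssRev
theorem aEcSub : S_EcSub := tEcSub
theorem aShort : S_Short := tShort
theorem aArc : S_Arc := tArc aEssAt
theorem aGood : S_Good := tGood aArc
theorem aHits : S_Hits := tHits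
theorem aCirc : S_Circ := tCirc aEssRev
theorem aSplitP : S_SplitP := tSplitP aEssRev
theorem aEssGlue : S_EssGlue := tEssGlue
theorem aSAdj : S_SAdj := tSAdj
theorem aThreeA : S_ThreeA := tThreeA aEssRev
theorem aThreeB : S_ThreeB := tThreeB aEssRev
theorem aThinP : S_ThinP := tThinP aArc aHits aSplitP aEssGlue aPotCls aCirc aSAdj aThreeA aThreeB
theorem aThin : S_Thin := tThin aEcSub aPot aGood aThinP
theorem aComp : S_Comp := tComp aEssAt aEssRev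
theorem aStep : S_Step := tStep aEssAt aEssRev aComp
theorem aChain : S_Chain := tChain aEssAt aEcSub aStep
theorem aNear : S_Near := tNear aEcSub aEssRev aComp
theorem aDet : S_Det := tDet aMn
theorem aGeoE : S_GeoE := tGeoE
theorem aGeoC : S_GeoC := tGeoC
theorem aGeoV : S_GeoV := tGeoV
theorem aPix : S_Pix := tPix aGrid aGeoE
theorem aPixC : S_PixC := tPixC aPix aShort
theorem aFh : S_Fh := tFh
theorem aAv : S_Av := tAv
theorem aTube : S_Tube := tTube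
theorem aFrag : S_Frag := tFrag aFh aAv aTube
theorem aGen : S_Gen := tGen aFrag aSmF
theorem aLfP : S_LfP := tLfP
theorem aLiftP : S_LiftP := tLiftP aGen aLfP
theorem aPixX : S_PixX := tPixX aLiftP aPixC
theorem aLft : S_Lft := tLft aLiftP aGrid aGeoE
theorem aPotA : S_PotA := tPotA aLft
theorem aPotB : S_PotB := tPotB aLft
theorem aPotX : S_PotX := tPotX aLft
theorem aPotZ : S_PotZ := tPotZ
theorem aSurg : S_Surg := tSurg aPotCls aEssGlue
theorem aHit : S_Hit := tHit aPot aGood aArc aSplitP aEssGlue aPotCls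
theorem aCrA : S_CrA := tCrA aLiftP aPix
theorem aCrB : S_CrB := tCrB aGrid aCrA aPotX aPotCls aSurg
theorem aCross : S_Cross := tCross aGrid aGeoV aPixX aPotA aPotB aPotZ aDet aCrB aHit
theorem aSubZ : S_SubZ := tSubZ
theorem aSubI : S_SubI := tSubI
theorem aSubE : S_SubE := tSubE aGrid aSubZ aSubI
theorem aSubW : S_SubW := tSubW aSubZ aSubI aSubE
theorem aSubB : S_SubB := tSubB aSubW
theorem aSubG : S_SubG := tSubG aGeoE
theorem aGeoP : S_GeoP := tGeoP aGrid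
theorem aNrC : S_NrC := tNrC aGrid aGeoP
theorem aSame : S_Same := tSame aGeoC aSubB aSubG aKReal aKO aNrC
theorem aAdjSS : S_AdjSS := tAdjSS aPot aPotCls
theorem aAdj5 : S_Adj5 := tAdj5 aGrid aSame aAdjSS aKReal aKS aKD aKI
theorem aAvEx : S_AvEx := tAvEx aPixX
theorem aRRs : S_RRs := tRRs
theorem aChB : S_ChB := tChB aEcSub aThin aNear aRRs
theorem aLkNR : S_LkNR := tLkNR
theorem aPathE : S_PathE := tPathE aGrid aAvEx aChain
theorem aThinE : S_ThinE := tThinE aGrid aAvEx aSubB aSubG aThin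
theorem aLnkE : S_LnkE := tLnkE aGeoC aGeoV aPixX aSubB aSubG
theorem aLnkD : S_LnkD := tLnkD aGeoC aGeoV aPixX aSubB aSubG
theorem aLnkR : S_LnkR := tLnkR aGeoC aGeoV aPixX aSubB aSubG aCross
theorem aSmE : S_SmE := tSmE aGrid aSubB aSubG aLnkE aLnkD aLnkR aRRs aChB aLkNR
theorem aGGE : S_GGE := tGGE aPathE aThinE aSmE
theorem aNuLen : S_NuLen := tNuLen
theorem aGenB : S_GenB := tGenB aFrag
theorem aLfB : S_LfB := tLfB
theorem aCut : S_Cut := tCut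
theorem aBox : S_Box := tBox
theorem aEl : S_El := tEl aLfB aCut aBox
theorem aLfM : S_LfM := tLfM
theorem aLfG : S_LfG := tLfG aGenB aEl aLfM
theorem aWin : S_Win := tWin
theorem aFib : S_Fib := tFib
theorem aXi : S_Xi := tXi aBox aFib
theorem aShift : S_Shift := tShift aXi
theorem aBipG : S_BipG := tBipG
theorem aDsp : S_Dsp := tDsp
theorem ajE : S_jE := tjE
theorem aSwY : S_SwY := tSwY aTrEx aTrFl aTrPu aSwn ajE
theorem aCFc : S_CFc := tCFc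
theorem aCmt : S_Cmt := tCmt aSwY aCFc
theorem aBip : S_Bip := tBip aBipG aDsp aCmt aCFc
theorem ajq : S_jq := tjq
theorem aTrLen : S_TrLen := tTrLen aTrFl ajq
theorem aQ : S_Q := tQ
theorem aV1 : S_V1 := tV1
theorem aV0 : S_V0 := tV0 aCut aXi aShift
theorem aV : S_V := tV aLfG aV1 aV0 aBip aTrLen aQ
theorem aU : S_U := tU aLfG aWin aShift aBip aTrLen aQ aV
theorem aHor : S_Hor := tHor aLfG
theorem aNu : S_Nu := tNu aU aHor
theorem aFinE : S_FinE := tFinE aNu aAdj5 aGGE aNuLen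

end Pool.Agent.MPe54d61.TC
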