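import Pool.Agent.Lib.MP_e54d61_gt.TC.SpecA

/-!
# MP_e54d61_gt, torus case, part A: boxes (`S_Box`)
-/

set_option autoImplicit false

namespace Pool.Agent.MPe54d61.TC

open Topology MatrixGroups

/-- the affine homeomorphism of the annulus used in `tBox` -/
private noncomputable def Box_k (a M : ℝ) (hM : 0 < M) (b : Ci) : Y ≃ₜ Y where
  toFun z := ((z.1 - a) / M + 3, z.2 - b)
  invFun z := ((z.1 - 3) * M + a, z.2 + b)
  left_inv z := by
    refine Prod.ext ?_ ?_
    · show ((z.1 - a) / M + 3 - 3) * M + a = z.1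
      field_simp
      ring
    · show z.2 - b + b = z.2
      abel
  right_inv z := by
    refine Prod.ext ?_ ?_
    · show ((z.1 - 3) * M + a - a) / M + 3 = z.1
      field_simp
      ring
    · show z.2 + b - b = z.2
      abel
  continuous_toFun := by fun_prop
  continuous_invFun := by fun_prop

theorem tBox : S_Box := by
  intro a M b d hd
  have hM : (0 : ℝ) < max M 1 := lt_of_lt_of_le one_pos (le_max_right _ _)
  set k : Y ≃ₜ Y := Box_k a (max M 1) hM b with hk
  have h1 : SuppIn BY (k * d * k⁻¹) := by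
    refine (hd.conj k).mono ?_
    rintro _ ⟨z, ⟨hz1, hz2⟩, rfl⟩
    refine ⟨?_, ?_⟩
    · show |(z.1 - a) / max M 1 + 3 - 3| ≤ 1
      rw [add_sub_cancel_right, abs_div, abs_of_pos hM, div_le_one hM]
      exact hz1.trans (le_max_left _ _)
    · exact hz2
  have h2 : k * d * k⁻¹ ∈ HY := Subgroup.subset_normalClosure h1
  have h3 := HY_normal.conj_mem _ h2 k⁻¹
  have h4 : k⁻¹ * (k * d * k⁻¹) * (k⁻¹)⁻¹ = d := by group
  rwa [h4] at h3

end Pool.Agent.MPe54d61.TC
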