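import Pool.Agent.Lib.MP_e54d61_gt.TC.SpecP

set_option autoImplicit false

namespace Pool.Agent.MPe54d61.TC

open SimpleGraph

private theorem CrA_pr_open : IsOpenMap pr := by
  have h : IsOpenMap (fun x : ℝ => ((x : ℝ) : Ci)) := QuotientAddGroup.isOpenMap_coe
  exact h.prodMap h

private theorem CrA_bx_open (a b w h : ℝ) : IsOpen (bx a b w h) := by
  have e : bx a b w h = pr '' {z : P | |z.1 - a| < w ∧ |z.2 - b| < h} := by
    ext z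
    constructor
    · rintro ⟨s, t, h1, h2, rfl⟩
      exact ⟨(s, t), ⟨h1, h2⟩, rfl⟩
    · rintro ⟨⟨s, t⟩, ⟨h1, h2⟩, rfl⟩
      exact ⟨s, t, h1, h2, rfl⟩
  rw [e]
  refine CrA_pr_open _ ?_
  have f1 : Continuous (fun z : P => |z.1 - a|) := by fun_prop
  have f2 : Continuous (fun z : P => |z.2 - b|) := by fun_prop
  exact (isOpen_lt f1 continuous_const).inter (isOpen_lt f2 continuous_const)

private theorem CrA_rd (N : ℕ) (z : P) (v : ℤ × ℤ) :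
    rd N (z + iv v) = rd N z + (N : ℤ) • v := by
  have h : ∀ (x : ℝ) (k : ℤ), ⌊(N : ℝ) * (x + k)⌋ = ⌊(N : ℝ) * x⌋ + N * k := by
    intro x k
    have e : (N : ℝ) * (x + k) = (N : ℝ) * x + ((N * k : ℤ) : ℝ) := by
      push_cast
      ring
    rw [e, Int.floor_add_intCast]
  refine Prod.ext ?_ ?_
  · show ⌊(N : ℝ) * (z.1 + (v.1 : ℝ))⌋ = ⌊(N : ℝ) * z.1⌋ + (N : ℤ) * v.1
    exact h _ _
  · show ⌊(N : ℝ) * (z.2 + (v.2 : ℝ))⌋ = ⌊(N : ℝ) * z.2⌋ + (N : ℤ) * v.2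
    exact h _ _

private theorem CrA_red (N : ℕ) (p v : ℤ × ℤ) : red N (p + (N : ℤ) • v) = red N p := by
  refine Prod.ext ?_ ?_
  · show (((p.1 + (N : ℤ) * v.1 : ℤ)) : ZMod N) = (p.1 : ZMod N)
    push_cast
    simp
  · show (((p.2 + (N : ℤ) * v.2 : ℤ)) : ZMod N) = (p.2 : ZMod N)
    push_cast
    simp

private theorem CrA_cel (N : ℕ) (hN : 1 ≤ N) (p v : ℤ × ℤ) :
    cel N (p + (N : ℤ) • v) = cel N p + v := by
  have h0 : (N : ℤ) ≠ 0 := by positivity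
  refine Prod.ext ?_ ?_
  · show (p.1 + (N : ℤ) * v.1) / (N : ℤ) = p.1 / (N : ℤ) + v.1
    exact Int.add_mul_ediv_left _ _ h0
  · show (p.2 + (N : ℤ) * v.2) / (N : ℤ) = p.2 / (N : ℤ) + v.2
    exact Int.add_mul_ediv_left _ _ h0

private theorem CrA_eds_copy {V : Type} {Γ : SimpleGraph V} {u v u' v' : V} (p : Γ.Walk u v)
    (hu : u = u') (hv : v = v') : eds (p.copy hu hv) = eds p := by
  subst hu hv
  rfl

theorem tCrA (hLift : S_LiftP) (hPix : S_Pix) : S_CrA := by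
  intro x
  obtain ⟨F, hF1, hF2⟩ := hLift x
  set γ1 : ℝ → P := fun t => F (1 / 4 + t / 2, 1 / 2) with hγ1
  set γ2 : ℝ → P := fun t => F (3 / 4 + t / 2, 1 / 2) with hγ2
  have c1 : Continuous γ1 := F.continuous.comp (by fun_prop)
  have c2 : Continuous γ2 := F.continuous.comp (by fun_prop)
  have o1 : IsOpen (mm x '' bx (1 / 2) (1 / 2) (3 / 8) (1 / 4)) :=
    (mm x).isOpenMap _ (CrA_bx_open _ _ _ _)
  have o2 : IsOpen (mm x '' bx 1 (1 / 2) (3 / 8) (1 / 4)) :=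
    (mm x).isOpenMap _ (CrA_bx_open _ _ _ _)
  obtain ⟨N1, h1⟩ := hPix γ1 c1 _ o1 (by
    intro t ht
    refine ⟨pr (1 / 4 + t / 2, 1 / 2), ⟨1 / 4 + t / 2, 1 / 2, ?_, ?_, rfl⟩, (hF1 _).symm⟩
    · rw [abs_lt]
      constructor <;> linarith [ht.1, ht.2]
    · norm_num)
  obtain ⟨N2, h2⟩ := hPix γ2 c2 _ o2 (by
    intro t ht
    refine ⟨pr (3 / 4 + t / 2, 1 / 2), ⟨3 / 4 + t / 2, 1 / 2, ?_, ?_, rfl⟩, (hF1 _).symm⟩
    · rw [abs_lt]
      constructor <;> linarith [ht.1, ht.2]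
    · norm_num)
  refine ⟨max 1 (max N1 N2), ?_⟩
  intro N hN
  have hN0 : 1 ≤ N := le_trans (le_max_left _ _) hN
  obtain ⟨w1, g1, k1⟩ := h1 N (le_trans (le_trans (le_max_left _ _) (le_max_right _ _)) hN)
  obtain ⟨w2, g2, k2⟩ := h2 N (le_trans (le_trans (le_max_right _ _) (le_max_right _ _)) hN)
  have e1' : γ2 0 = γ1 1 := by
    simp only [hγ1, hγ2]
    norm_num
  have e2' : γ2 1 = γ1 0 + iv (e1 x.2) := by
    have e3 : ((5 / 4 : ℝ), (1 / 2 : ℝ)) = ((1 / 4 : ℝ), (1 / 2 : ℝ)) + iv (1, 0) := by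
      refine Prod.ext ?_ ?_
      · show (5 / 4 : ℝ) = 1 / 4 + ((1 : ℤ) : ℝ)
        norm_num
      · show (1 / 2 : ℝ) = 1 / 2 + ((0 : ℤ) : ℝ)
        norm_num
    have e4 : matP x.2 (iv (1, 0)) = iv (e1 x.2) := by
      refine Prod.ext ?_ ?_
      · show (x.2 0 0 : ℝ) * ((1 : ℤ) : ℝ) + (x.2 0 1 : ℝ) * ((0 : ℤ) : ℝ) = ((x.2 0 0 : ℤ) : ℝ)
        simp
      · show (x.2 1 0 : ℝ) * ((1 : ℤ) : ℝ) + (x.2 1 1 : ℝ) * ((0 : ℤ) : ℝ) = ((x.2 1 0 : ℤ) : ℝ)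
        simp
    have e5 : γ2 1 = F ((5 / 4 : ℝ), (1 / 2 : ℝ)) := by
      simp only [hγ2]
      norm_num
    have e6 : γ1 0 = F ((1 / 4 : ℝ), (1 / 2 : ℝ)) := by
      simp only [hγ1]
      norm_num
    rw [e5, e6, e3, hF2, e4]
  have e7 : rd N (γ2 1) = rd N (γ1 0) + (N : ℤ) • e1 x.2 := by rw [e2', CrA_rd]
  have hv : red N (rd N (γ2 0)) = red N (rd N (γ1 1)) := by rw [e1']
  have hu : red N (rd N (γ2 1)) = red N (rd N (γ1 0)) := by rw [e7, CrA_red]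
  refine ⟨_, _, w1, w2.copy hv hu, g1, ?_, ?_⟩
  · rw [CrA_eds_copy]
    exact g2
  · rw [cls_copy, k1, k2, e7, CrA_cel N hN0, e1']
    abel

end Pool.Agent.MPe54d61.TC
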