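import Pool.Agent.Lib.MP_e54d61_gt.TC.DefsT

/-!
# MP_e54d61_gt, torus case, parts A and F: definitions and basic facts
-/

set_option autoImplicit false

namespace Pool.Agent.MPe54d61.TC

open Topology MatrixGroups

/-- the box of radius `3/8` of the torus around `(a, b)` -/
def Bx (a b : Ci) : Set T := {z | ‖z.1 - a‖ ≤ 3 / 8 ∧ ‖z.2 - b‖ ≤ 3 / 8}

/-- the commutator `x y x⁻¹ y⁻¹` -/
def cm {N : Type} [Group N] (x y : N) : N := x * y * x⁻¹ * y⁻¹

/-- `g` has a lift `G` to the annulus and a half lift `a`: `a = G` far left, `a = 1` far right, and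
`τ a τ⁻¹ = a` modulo the normal subgroup `HY` -/
def Lf (g : T ≃ₜ T) : Prop :=
  ∃ G a : Y ≃ₜ Y, LiftY g G ∧ ∃ C : ℝ, (∀ z, z.1 ≤ -C → a z = G z) ∧ (∀ z, C ≤ z.1 → a z = z) ∧
    tau * a * tau⁻¹ * a⁻¹ ∈ HY

section supp

variable {X : Type} [TopologicalSpace X] {K K' : Set X} {h h' : X ≃ₜ X}

theorem suppIn_one : SuppIn K (1 : X ≃ₜ X) := fun _ _ => rfl

theorem SuppIn.mono (hK : K ⊆ K') (hh : SuppIn K h) : SuppIn K' h :=
  fun z hz => hh z fun hz' => hz (hK hz')

theorem SuppIn.mul (hh : SuppIn K h) (hh' : SuppIn K h') : SuppIn K (h * h') := by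
  intro z hz
  show h (h' z) = z
  rw [hh' z hz, hh z hz]

theorem SuppIn.inv (hh : SuppIn K h) : SuppIn K h⁻¹ := by
  intro z hz
  show h.symm z = z
  rw [Homeomorph.symm_apply_eq, hh z hz]

theorem SuppIn.conj (hh : SuppIn K h) (k : X ≃ₜ X) : SuppIn (k '' K) (k * h * k⁻¹) := by
  intro z hz
  show k (h (k.symm z)) = z
  rw [hh (k.symm z) fun h1 => hz ⟨_, h1, k.apply_symm_apply z⟩, k.apply_symm_apply]

/-- a homeomorphism maps the set in which it is supported to itself -/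
theorem SuppIn.mapsTo (hh : SuppIn K h) {z : X} (hz : z ∈ K) : h z ∈ K := by
  by_contra hn
  have h1 := hh (h z) hn
  have h2 := h.injective h1
  rw [h2] at hn
  exact hn hz

/-- homeomorphisms with disjoint supports commute -/
theorem SuppIn.commute (hh : SuppIn K h) (hh' : SuppIn K' h') (hd : Disjoint K K') :
    Commute h h' := by
  ext z : 1
  show h (h' z) = h' (h z)
  by_cases hz : z ∈ K
  · have hz' : z ∉ K' := fun h1 => Set.disjoint_left.1 hd hz h1
    have h1 : h z ∉ K' := fun h1 => Set.disjoint_left.1 hd (hh.mapsTo hz) h1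
    rw [hh' z hz', hh' _ h1]
  · by_cases hz' : z ∈ K'
    · have h1 : h' z ∉ K := fun h1 => Set.disjoint_left.1 hd h1 (hh'.mapsTo hz')
      rw [hh z hz, hh _ h1]
    · rw [hh z hz, hh' z hz', hh z hz]

end supp

section flows

variable {X : Type} [TopologicalSpace X] {h h' : X ≃ₜ X} {m n : ℕ}

/-- The conjugate of a flow by a homeomorphism. -/
def cjFlow (g : X ≃ₜ X) (φ : Flow ℝ X) : Flow ℝ X where
  toFun t x := g (φ t (g.symm x))
  cont' := by
    have h1 : Continuous fun p : ℝ × X => φ p.1 (g.symm p.2) :=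
      φ.continuous continuous_fst (g.symm.continuous.comp continuous_snd)
    exact g.continuous.comp h1
  map_add' t₁ t₂ x := by simp [φ.map_add]
  map_zero' x := by simp [φ.map_zero]

/-- The time reversal of a flow. -/
def rvFlow (φ : Flow ℝ X) : Flow ℝ X where
  toFun t x := φ (-t) x
  cont' := φ.continuous (continuous_neg.comp continuous_fst) continuous_snd
  map_add' t₁ t₂ x := by rw [neg_add, φ.map_add]
  map_zero' x := by simp [φ.map_zero]

theorem tom_conj {s : X ≃ₜ X} (hs : s ∈ timeOneMaps X) (g : X ≃ₜ X) :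
    g * s * g⁻¹ ∈ timeOneMaps X := by
  obtain ⟨φ, rfl⟩ := hs
  refine ⟨cjFlow g φ, ?_⟩
  ext x
  rfl

theorem tom_inv {s : X ≃ₜ X} (hs : s ∈ timeOneMaps X) : s⁻¹ ∈ timeOneMaps X := by
  obtain ⟨φ, rfl⟩ := hs
  refine ⟨rvFlow φ, ?_⟩
  ext x
  rfl

theorem tom_one : (1 : X ≃ₜ X) ∈ timeOneMaps X := by
  refine ⟨⟨fun _ x => x, continuous_snd, fun _ _ _ => rfl, fun _ => rfl⟩, ?_⟩
  ext x
  rfl

theorem fl_tom {s : X ≃ₜ X} (hs : s ∈ timeOneMaps X) : FL 1 s :=
  ⟨[s], rfl, by simpa using hs, by simp⟩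

theorem fl_mul (hh : FL m h) (hh' : FL n h') : FL (m + n) (h * h') := by
  obtain ⟨l, hl, hs, hp⟩ := hh
  obtain ⟨l', hl', hs', hp'⟩ := hh'
  refine ⟨l ++ l', by simp [hl, hl'], fun s h1 => ?_, by simp [hp, hp']⟩
  rcases List.mem_append.1 h1 with h2 | h2
  · exact hs s h2
  · exact hs' s h2

theorem fl_one (n : ℕ) : FL n (1 : X ≃ₜ X) :=
  ⟨List.replicate n 1, by simp, fun s h1 => by
    rw [List.eq_of_mem_replicate h1]
    exact tom_one, by simp⟩

theorem fl_mono (hmn : m ≤ n) (hh : FL m h) : FL n h := by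
  have h1 := fl_mul hh (fl_one (X := X) (n - m))
  rwa [mul_one, Nat.add_sub_cancel' hmn] at h1

theorem fl_conj (hh : FL n h) (k : X ≃ₜ X) : FL n (k * h * k⁻¹) := by
  obtain ⟨l, hl, hs, hp⟩ := hh
  refine ⟨l.map (MulAut.conj k), by simp [hl], fun s h1 => ?_, ?_⟩
  · obtain ⟨t, ht, rfl⟩ := List.mem_map.1 h1
    exact tom_conj (hs t ht) k
  · rw [← map_list_prod, hp]
    rfl

theorem fl_inv (hh : FL n h) : FL n h⁻¹ := by
  obtain ⟨l, hl, hs, hp⟩ := hh
  refine ⟨(l.map fun x => x⁻¹).reverse, by simp [hl], fun s h1 => ?_, ?_⟩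
  · rw [List.mem_reverse] at h1
    obtain ⟨t, ht, rfl⟩ := List.mem_map.1 h1
    exact tom_inv (hs t ht)
  · rw [← List.prod_inv_reverse, hp]

theorem fl_mem {h : T ≃ₜ T} (hh : FL n h) : h ∈ GT := by
  obtain ⟨l, -, hs, rfl⟩ := hh
  exact Subgroup.list_prod_mem _ fun s h1 => Subgroup.subset_closure (hs s h1)

theorem mem_fl {h : T ≃ₜ T} (hh : h ∈ GT) : ∃ n, FL n h := by
  refine Subgroup.closure_induction (p := fun x _ => ∃ n, FL n x) (fun x hx => ⟨1, fl_tom hx⟩)
    ⟨0, fl_one 0⟩ (fun x y _ _ ⟨m, hm⟩ ⟨n, hn⟩ => ⟨_, fl_mul hm hn⟩) (fun x _ ⟨n, hn⟩ => ⟨n, fl_inv hn⟩)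
    hh

theorem GT_conj {h : T ≃ₜ T} (hh : h ∈ GT) (k : T ≃ₜ T) : k * h * k⁻¹ ∈ GT := by
  obtain ⟨n, hn⟩ := mem_fl hh
  exact fl_mem (fl_conj hn k)

end flows

section transport

variable {U X : Type} [TopologicalSpace U] [TopologicalSpace X] {j : U → X} {h h' : U ≃ₜ U}
  {e e' : X ≃ₜ X}

theorem Tr.mul (he : Tr j h e) (he' : Tr j h' e') : Tr j (h * h') (e * e') := by
  refine ⟨fun u => ?_, fun x hx => ?_⟩
  · show e (e' (j u)) = j (h (h' u))
    rw [he'.1, he.1]
  · show e (e' x) = x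
    rw [he'.2 x hx, he.2 x hx]

theorem Tr.inv (he : Tr j h e) : Tr j h⁻¹ e⁻¹ := by
  refine ⟨fun u => ?_, fun x hx => ?_⟩
  · show e.symm (j u) = j (h.symm u)
    rw [Homeomorph.symm_apply_eq, he.1, h.apply_symm_apply]
  · show e.symm x = x
    rw [Homeomorph.symm_apply_eq, he.2 x hx]

/-- the transport is unique -/
theorem Tr.unique (he : Tr j h e) (he' : Tr j h e') : e = e' := by
  ext x : 1
  by_cases hx : x ∈ Set.range j
  · obtain ⟨u, rfl⟩ := hx
    rw [he.1, he'.1]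
  · rw [he.2 x hx, he'.2 x hx]

/-- the transported map is supported in the image of the support -/
theorem Tr.suppIn (he : Tr j h e) {K : Set U} (hK : SuppIn K h) : SuppIn (j '' K) e := by
  intro x hx
  by_cases hx' : x ∈ Set.range j
  · obtain ⟨u, rfl⟩ := hx'
    rw [he.1, hK u fun h1 => hx ⟨u, h1, rfl⟩]
  · exact he.2 x hx'

end transport

theorem tau_apply (z : Y) : tau z = (z.1 + 1, z.2) := rfl

theorem tau_inv_apply (z : Y) : (tau⁻¹ : Y ≃ₜ Y) z = (z.1 - 1, z.2) := by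
  show tau.symm z = _
  rw [Homeomorph.symm_apply_eq, tau_apply]
  simp

theorem tau_zpow_apply (m : ℤ) (z : Y) : (tau ^ m : Y ≃ₜ Y) z = (z.1 + m, z.2) := by
  induction m using Int.induction_on with
  | zero => simp
  | succ i ih =>
    rw [zpow_add_one]
    show (tau ^ (i : ℤ) : Y ≃ₜ Y) (tau z) = _
    have h1 : ∀ w : Y, (tau ^ (i : ℤ) : Y ≃ₜ Y) w = (w.1 + (i : ℤ), w.2) := by
      clear ih z
      intro w
      induction i generalizing w with
      | zero => simp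
      | succ k hk =>
        rw [Nat.cast_succ, zpow_add_one]
        show (tau ^ (k : ℤ) : Y ≃ₜ Y) (tau w) = _
        rw [hk, tau_apply]
        ext
        · simp
          ring
        · rfl
    rw [h1, tau_apply]
    ext
    · push_cast
      ring
    · rfl
  | pred i ih =>
    rw [zpow_sub_one]
    show (tau ^ (-(i : ℤ)) : Y ≃ₜ Y) ((tau⁻¹ : Y ≃ₜ Y) z) = _
    have h1 : ∀ w : Y, (tau ^ (-(i : ℤ)) : Y ≃ₜ Y) w = (w.1 + ((-(i : ℤ) : ℤ) : ℝ), w.2) := by
      clear ih z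
      intro w
      induction i generalizing w with
      | zero => simp
      | succ k hk =>
        rw [show (-((k + 1 : ℕ) : ℤ)) = -(k : ℤ) - 1 by push_cast; ring, zpow_sub_one]
        show (tau ^ (-(k : ℤ)) : Y ≃ₜ Y) ((tau⁻¹ : Y ≃ₜ Y) w) = _
        rw [hk, tau_inv_apply]
        ext
        · simp
          ring
        · rfl
    rw [h1, tau_inv_apply]
    ext
    · push_cast
      ring
    · rfl

instance HY_normal : HY.Normal := Subgroup.normalClosure_normal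

end Pool.Agent.MPe54d61.TC
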