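import Mathlib

/-!
# MP_e54d61_gt, torus case, part B: walks with classes, essential cycles, bicorns (definitions)

`Γ` is a simple graph, `κ u v` is an element of an abelian group with `κ v u = - κ u v` (`Anti κ`); the class of
a walk is the sum of `κ` over its steps.  An essential closed walk does not repeat a vertex (except that it is
closed) and has a class which is not zero.  Essential cycles are handled as sets of edges (`EC`).
-/

set_option autoImplicit false

namespace Pool.Agent.MPe54d61.TC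

open SimpleGraph

variable {V M : Type*} [AddCommGroup M] {Γ : SimpleGraph V}

/-- the class of a walk -/
def cls (κ : V → V → M) : {u v : V} → Γ.Walk u v → M
  | _, _, .nil => 0
  | u, _, .cons (v := v) _ p => κ u v + cls κ p

/-- antisymmetric -/
def Anti (κ : V → V → M) : Prop := ∀ u v, κ v u = -κ u v

/-- essential closed walks -/
def Ess (κ : V → V → M) {x : V} (c : Γ.Walk x x) : Prop := c.support.tail.Nodup ∧ cls κ c ≠ 0

/-- the set of edges of a walk -/
def eds {u v : V} (p : Γ.Walk u v) : Set (Sym2 V) := {e | e ∈ p.edges}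

/-- `C` is the set of edges of an essential cycle -/
def EC (Γ : SimpleGraph V) (κ : V → V → M) (C : Set (Sym2 V)) : Prop :=
  ∃ (x : V) (c : Γ.Walk x x), Ess κ c ∧ eds c = C

/-- the set of vertices of a set of edges -/
def vts (C : Set (Sym2 V)) : Set V := {v | ∃ e ∈ C, v ∈ e}

/-- bicorns of `A` and `B` -/
def Bic (Γ : SimpleGraph V) (κ : V → V → M) (A B C : Set (Sym2 V)) : Prop :=
  ∃ (x y : V) (p : Γ.Walk x y) (q : Γ.Walk y x), Ess κ (p.append q) ∧ eds p ⊆ A ∧ eds q ⊆ B ∧
    eds (p.append q) = C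

/-- disjoint cycles -/
def AdjD (C C' : Set (Sym2 V)) : Prop := ∀ v, v ∈ vts C → v ∉ vts C'

/-- `C` and `C'` meet in a common path `s` -/
def AdjI (Γ : SimpleGraph V) (κ : V → V → M) (C C' : Set (Sym2 V)) : Prop :=
  ∃ (x y : V) (s : Γ.Walk x y) (α β : Γ.Walk y x), Ess κ (s.append α) ∧ Ess κ (s.append β) ∧
    eds (s.append α) = C ∧ eds (s.append β) = C' ∧
    ∀ z, z ∈ α.support → z ∈ β.support → z = x ∨ z = y

/-- all closed walks in `C ∪ C'` have classes in a cyclic group -/
def AdjS (κ : V → V → M) (C C' : Set (Sym2 V)) : Prop :=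
  ∃ (φ : V → M) (l : M), ∀ u v, s(u, v) ∈ C ∪ C' →
    κ u v - (φ v - φ u) ∈ AddSubgroup.zmultiples l

/-- the relation between essential cycles -/
def RR (Γ : SimpleGraph V) (κ : V → V → M) (C C' : Set (Sym2 V)) : Prop :=
  C = C' ∨ AdjD C C' ∨ AdjI Γ κ C C' ∨ AdjS κ C C'

/-- `δ` is an arc of the essential cycle `D` (possibly the whole cycle) -/
def Arc (κ : V → V → M) (D : Set (Sym2 V)) {u v : V} (δ : Γ.Walk u v) : Prop :=
  ∃ δ' : Γ.Walk v u, Ess κ (δ.append δ') ∧ eds (δ.append δ') = D

/-! ## basic facts -/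

variable {κ : V → V → M} {u v w x y : V}

@[simp] theorem cls_nil : cls κ (Walk.nil : Γ.Walk u u) = 0 := rfl

@[simp] theorem cls_cons (h : Γ.Adj u v) (p : Γ.Walk v w) :
    cls κ (Walk.cons h p) = κ u v + cls κ p := rfl

@[simp] theorem cls_append (p : Γ.Walk u v) (q : Γ.Walk v w) :
    cls κ (p.append q) = cls κ p + cls κ q := by
  induction p with
  | nil => simp
  | cons h p ih => simp [ih, add_assoc]

@[simp] theorem cls_copy {u' v' : V} (p : Γ.Walk u v) (hu : u = u') (hv : v = v') :
    cls κ (p.copy hu hv) = cls κ p := by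
  subst hu hv
  rfl

theorem cls_reverse (hκ : Anti κ) (p : Γ.Walk u v) : cls κ p.reverse = -cls κ p := by
  induction p with
  | nil => simp
  | @cons a b c h p ih =>
    rw [Walk.reverse_cons, cls_append, ih, cls_cons, cls_cons, cls_nil, hκ a b, neg_add, add_zero,
      add_comm]

@[simp] theorem eds_append (p : Γ.Walk u v) (q : Γ.Walk v w) :
    eds (p.append q) = eds p ∪ eds q := by
  ext e
  simp [eds]

@[simp] theorem eds_reverse (p : Γ.Walk u v) : eds p.reverse = eds p := by
  ext e
  simp [eds]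

@[simp] theorem eds_nil : eds (Walk.nil : Γ.Walk u u) = ∅ := by
  ext e
  simp [eds]

theorem mem_eds_cons (h : Γ.Adj u v) (p : Γ.Walk v w) (e : Sym2 V) :
    e ∈ eds (Walk.cons h p) ↔ e = s(u, v) ∨ e ∈ eds p := by
  simp [eds]

/-- an essential walk in two parts -/
theorem ess_append_iff (p : Γ.Walk x y) (q : Γ.Walk y x) : Ess κ (p.append q) ↔
    p.support.tail.Nodup ∧ q.support.tail.Nodup ∧ p.support.tail.Disjoint q.support.tail ∧
      cls κ p + cls κ q ≠ 0 := by
  unfold Ess
  rw [Walk.tail_support_append, List.nodup_append', cls_append]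
  tauto

theorem ess_comm {p : Γ.Walk x y} {q : Γ.Walk y x} (h : Ess κ (p.append q)) :
    Ess κ (q.append p) := by
  rw [ess_append_iff] at h ⊢
  exact ⟨h.2.1, h.1, h.2.2.1.symm, by rw [add_comm]; exact h.2.2.2⟩

theorem vts_eds_of_ne {p : Γ.Walk u v} (h : ¬ p.Nil) : vts (eds p) = {z | z ∈ p.support} := by
  ext z
  constructor
  · rintro ⟨e, he, hz⟩
    exact Walk.mem_support_of_mem_edges he hz
  · intro hz
    change z ∈ p.support at hz
    obtain ⟨e, he, hze⟩ := (Walk.mem_support_iff_exists_mem_edges_of_not_nil h).1 hz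
    exact ⟨e, he, hze⟩

end Pool.Agent.MPe54d61.TC
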