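import Pool.Agent.Lib.MP_e54d61_gt.TC.DefsH
import Pool.Agent.Lib.MP_e54d61_gt.TC.DefsB

/-!
# MP_e54d61_gt, torus case: the grid graph (triangulated torus), its classes and its edges in the torus
-/

set_option autoImplicit false

namespace Pool.Agent.MPe54d61.TC

/-- reduction of a lattice point (the same as `zc`) -/
abbrev red (N : ℕ) (p : ℤ × ℤ) : VN N := zc N p

/-- the six steps -/
def stp : Finset (ℤ × ℤ) := {(1, 0), (0, 1), (1, 1), (-1, 0), (0, -1), (-1, -1)}

/-- the grid graph (used for `3 ≤ N`) -/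
def GN (N : ℕ) : SimpleGraph (VN N) where
  Adj u v := u ≠ v ∧ ∃ p q : ℤ × ℤ, q - p ∈ stp ∧ red N p = u ∧ red N q = v
  symm := ⟨by
    rintro u v ⟨h, p, q, h1, h2, h3⟩
    refine ⟨h.symm, q, p, ?_, h3, h2⟩
    have : p - q = -(q - p) := by abel
    rw [this]
    revert h1
    generalize q - p = r
    intro h1
    simp only [stp, Finset.mem_insert, Finset.mem_singleton] at h1 ⊢
    rcases h1 with h | h | h | h | h | h <;> subst h <;> simp⟩
  loopless := ⟨fun u h => h.1 rfl⟩

/-- wrapping number in one coordinate (for neighbours `a`, `b`, `3 ≤ N`) -/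
def kp (N : ℕ) (a b : ZMod N) : ℤ :=
  if a + 1 = 0 ∧ b = 0 then 1 else if a = 0 ∧ b + 1 = 0 then -1 else 0

/-- the class of an edge -/
def kN (N : ℕ) (u v : VN N) : ℤ × ℤ := (kp N u.1 v.1, kp N u.2 v.2)

/-- the point `p / N` of the plane -/
noncomputable def gp (N : ℕ) (p : ℤ × ℤ) : P := ((p.1 : ℝ) / N, (p.2 : ℝ) / N)

/-- the union of the (closed) edges of a set of edges, in the torus -/
def geo (N : ℕ) (C : Set (Sym2 (VN N))) : Set T :=
  {z | ∃ p q : ℤ × ℤ, q - p ∈ stp ∧ s(red N p, red N q) ∈ C ∧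
    ∃ w ∈ segment ℝ (gp N p) (gp N q), z = pr w}

end Pool.Agent.MPe54d61.TC
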