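import Pool.Agent.Lib.MP_e54d61_gt.TC.DefsT

/-!
# MP_e54d61_gt, torus case, part H: the triangulated torus, harmonic maps, PL maps (definitions)

`Γ_N` has the vertices `(ℤ/N)²` and the edges `(k, p)`, `k : Fin 3`, from `p` to `p + ed N k`, where
`ed N 0 = (1, 0)`, `ed N 1 = (0, 1)`, `ed N 2 = (1, 1)`; the triangles are the lower triangles
`p, p + ed 0, p + ed 2` and the upper triangles `p, p + ed 2, p + ed 1`.  A function `f : VN N → P` stands for the
positions `p / N + f p`, `XX f k p` is the vector of the edge `(k, p)`.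
-/

set_option autoImplicit false

namespace Pool.Agent.MPe54d61.TC

open Topology MatrixGroups

/-- vertices of the triangulated torus -/
abbrev VN (N : ℕ) := ZMod N × ZMod N

/-- the three directions -/
def ei : Fin 3 → ℤ × ℤ := ![(1, 0), (0, 1), (1, 1)]

/-- reduction of an integer point modulo `N` -/
def zc (N : ℕ) (a : ℤ × ℤ) : VN N := ((a.1 : ZMod N), (a.2 : ZMod N))

/-- the three directions modulo `N` -/
def ed (N : ℕ) (k : Fin 3) : VN N := zc N (ei k)

/-- the three directions in the plane, divided by `N` -/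
noncomputable def EE (N : ℕ) (k : Fin 3) : P := (((ei k).1 : ℝ) / N, ((ei k).2 : ℝ) / N)

/-- the determinant of two vectors -/
def dt (a b : P) : ℝ := a.1 * b.2 - a.2 * b.1

variable {N : ℕ}

/-- the vector of the edge `(k, p)` for the positions `p / N + f p` -/
noncomputable def XX (f : VN N → P) (k : Fin 3) (p : VN N) : P := EE N k + f (p + ed N k) - f p

/-- twice the signed area of the lower triangle at `p` -/
noncomputable def low (f : VN N → P) (p : VN N) : ℝ := dt (XX f 0 p) (XX f 2 p)

/-- twice the signed area of the upper triangle at `p` -/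
noncomputable def upp (f : VN N → P) (p : VN N) : ℝ := dt (XX f 2 p) (XX f 1 p)

/-- all triangles are positively oriented -/
def Pos (f : VN N → P) : Prop := (∀ p, 0 < low f p) ∧ ∀ p, 0 < upp f p

/-- weighted divergence of a function on the edges -/
noncomputable def dv {E : Type} [AddCommGroup E] [Module ℝ E] (w : Fin 3 → VN N → ℝ)
    (x : Fin 3 → VN N → E) (p : VN N) : E :=
  ∑ k, (w k p • x k p - w k (p - ed N k) • x k (p - ed N k))

/-- differences of a function on the vertices -/
def DD {E : Type} [AddCommGroup E] (u : VN N → E) (k : Fin 3) (p : VN N) : E := u (p + ed N k) - u p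

/-- `f` is harmonic for the weights `w` -/
def Harm (w : Fin 3 → VN N → ℝ) (f : VN N → P) : Prop := ∀ p, dv w (XX f) p = 0

/-- `f` is obtained from `0` by steps `f ↦ f + h • D` through positive positions -/
inductive Reach : (VN N → P) → Prop
  | zero : Reach 0
  | step (f : VN N → P) (h : VN N → ℝ) (D : P) : Reach f → Pos (fun p => f p + h p • D) →
      Reach (fun p => f p + h p • D)

/-- the six edges at `p`, counterclockwise, as vectors from `p` -/
noncomputable def out (f : VN N → P) (p : VN N) : Fin 6 → P :=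
  ![XX f 0 p, XX f 2 p, XX f 1 p, -XX f 0 (p - ed N 0), -XX f 2 (p - ed N 2), -XX f 1 (p - ed N 1)]

/-- the hat function -/
noncomputable def Lam (s t : ℝ) : ℝ := max 0 (1 - max (max |s| |t|) |s - t|)

/-- the piecewise linear map with `a / N ↦ a / N + f a` -/
noncomputable def PLm (f : VN N → P) (z : P) : P :=
  z + ∑ᶠ a : ℤ × ℤ, Lam (N * z.1 - a.1) (N * z.2 - a.2) • f (zc N a)

/-- the point `(a + (s, t)) / N` -/
noncomputable def pt (N : ℕ) (a : ℤ × ℤ) (s t : ℝ) : P := ((a.1 + s) / N, (a.2 + t) / N)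

/-- `m` is obtained from `f` by moving one vertex, both positive -/
def Mv (f f' : VN N → P) : Prop :=
  Pos f ∧ Pos f' ∧ ∃ (v : VN N) (D : P), f' = Function.update f v (f v + D)

/-- the edge `(k, p)` as a subset of the torus -/
def seg (N : ℕ) (k : Fin 3) (p : VN N) : Set T :=
  {z | ∃ (a : ℤ × ℤ) (s : ℝ), zc N a = p ∧ 0 ≤ s ∧ s ≤ 1 ∧
    z = pr (pt N a (s * (ei k).1) (s * (ei k).2))}

/-- the lower triangle at `p` as a subset of the torus -/
def ltr (N : ℕ) (p : VN N) : Set T :=
  {z | ∃ (a : ℤ × ℤ) (s t : ℝ), zc N a = p ∧ 0 ≤ t ∧ t ≤ s ∧ s ≤ 1 ∧ z = pr (pt N a s t)}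

/-- the upper triangle at `p` as a subset of the torus -/
def utr (N : ℕ) (p : VN N) : Set T :=
  {z | ∃ (a : ℤ × ℤ) (s t : ℝ), zc N a = p ∧ 0 ≤ s ∧ s ≤ t ∧ t ≤ 1 ∧ z = pr (pt N a s t)}

/-- the first column of a matrix -/
def c1 (A : SL(2, ℤ)) : ℤ × ℤ := (A 0 0, A 1 0)

/-- the second column of a matrix -/
def c2 (A : SL(2, ℤ)) : ℤ × ℤ := (A 0 1, A 1 1)

/-- closed integer chain of class `κ` -/
def Cyc (c : Fin 3 → VN N → ℤ) (κ : ℤ × ℤ) [NeZero N] : Prop :=
  (∀ p, ∑ k, (c k p - c k (p - ed N k)) = 0) ∧ ∑ k, ∑ p, c k p • ei k = (N : ℤ) • κ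

/-- the difference of the multivalued function `det (l, z) + u z` along the edge `(k, p)` -/
noncomputable def DU (l : ℤ × ℤ) (u : VN N → ℝ) (k : Fin 3) (p : VN N) : ℝ :=
  dt (iv l) (EE N k) + u (p + ed N k) - u p

/-! ## basic facts -/

theorem dt_add_left (a b c : P) : dt (a + b) c = dt a c + dt b c := by
  simp only [dt, Prod.fst_add, Prod.snd_add]; ring

theorem dt_add_right (a b c : P) : dt a (b + c) = dt a b + dt a c := by
  simp only [dt, Prod.fst_add, Prod.snd_add]; ring

theorem dt_sub_right (a b c : P) : dt a (b - c) = dt a b - dt a c := by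
  simp only [dt, Prod.fst_sub, Prod.snd_sub]; ring

theorem dt_sub_left (a b c : P) : dt (a - b) c = dt a c - dt b c := by
  simp only [dt, Prod.fst_sub, Prod.snd_sub]; ring

theorem dt_smul_left (r : ℝ) (a b : P) : dt (r • a) b = r * dt a b := by
  simp only [dt, Prod.smul_fst, Prod.smul_snd, smul_eq_mul]; ring

theorem dt_smul_right (r : ℝ) (a b : P) : dt a (r • b) = r * dt a b := by
  simp only [dt, Prod.smul_fst, Prod.smul_snd, smul_eq_mul]; ring

@[simp] theorem dt_self (a : P) : dt a a = 0 := by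
  simp only [dt]; ring

theorem dt_swap (a b : P) : dt b a = -dt a b := by
  simp only [dt]; ring

theorem ei_two : ei 2 = ei 0 + ei 1 := by
  simp [ei]

theorem zc_add (a b : ℤ × ℤ) : zc N (a + b) = zc N a + zc N b := by
  simp [zc]

theorem ed_two : ed N 2 = ed N 0 + ed N 1 := by
  rw [ed, ed, ed, ← zc_add, ei_two]

theorem EE_two : EE N 2 = EE N 0 + EE N 1 := by
  ext <;> simp [EE, ei]

/-- the lower triangle is closed -/
theorem XX_low (f : VN N → P) (p : VN N) : XX f 2 p = XX f 0 p + XX f 1 (p + ed N 0) := by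
  have h : p + ed N 2 = p + ed N 0 + ed N 1 := by rw [ed_two]; abel
  simp only [XX, EE_two, h]
  abel

/-- the upper triangle is closed -/
theorem XX_upp (f : VN N → P) (p : VN N) : XX f 2 p = XX f 1 p + XX f 0 (p + ed N 1) := by
  have h : p + ed N 2 = p + ed N 1 + ed N 0 := by rw [ed_two]; abel
  simp only [XX, EE_two, h]
  abel

theorem low_eq (f : VN N → P) (p : VN N) : low f p = dt (XX f 0 p) (XX f 1 (p + ed N 0)) := by
  rw [low, XX_low, dt_add_right, dt_self, zero_add]

theorem upp_eq (f : VN N → P) (p : VN N) : upp f p = dt (XX f 0 (p + ed N 1)) (XX f 1 p) := by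
  rw [upp, XX_upp, dt_add_left, dt_self, zero_add]

theorem XX_add (f : VN N → P) (h : VN N → ℝ) (D : P) (k : Fin 3) (p : VN N) :
    XX (fun p => f p + h p • D) k p = XX f k p + DD h k p • D := by
  simp only [XX, DD, sub_smul]
  abel

theorem pos_zero [NeZero N] : Pos (0 : VN N → P) := by
  have hN : (0 : ℝ) < N := Nat.cast_pos.2 (NeZero.pos N)
  constructor
  · intro p
    have : low (0 : VN N → P) p = 1 / N * (1 / N) := by
      simp [low, XX, EE, ei, dt]
    rw [this]; positivity
  · intro p
    have : upp (0 : VN N → P) p = 1 / N * (1 / N) := by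
      simp [upp, XX, EE, ei, dt]
    rw [this]; positivity

theorem Reach.pos [NeZero N] {f : VN N → P} (h : Reach f) : Pos f := by
  cases h with
  | zero => exact pos_zero
  | step f h D _ hp => exact hp

end Pool.Agent.MPe54d61.TC
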