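import Pool.Agent.Lib.MP_e54d61_gt.TC.SpecK

/-!
# MP_e54d61_gt, torus case: definitions for the parts P (pixels) and E (assembly)
-/

set_option autoImplicit false

namespace Pool.Agent.MPe54d61.TC

open MatrixGroups

/-- the marking of a vertex of the graph -/
def mm (x : X) : T ≃ₜ T := (x.1 : T ≃ₜ T) * mat x.2

/-- the vertical annulus `|s - a| < w` -/
def an (a w : ℝ) : Set T := {z | ∃ s t : ℝ, |s - a| < w ∧ z = pr (s, t)}

/-- the horizontal annulus `|t - b| < w` -/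
def bn (b w : ℝ) : Set T := {z | ∃ s t : ℝ, |t - b| < w ∧ z = pr (s, t)}

/-- the box `|s - a| < w`, `|t - b| < h` -/
def bx (a b w h : ℝ) : Set T := {z | ∃ s t : ℝ, |s - a| < w ∧ |t - b| < h ∧ z = pr (s, t)}

/-- determinant -/
def dz (u v : ℤ × ℤ) : ℤ := u.1 * v.2 - u.2 * v.1

/-- the cell of a lattice point (floor division by `N`) -/
def cel (N : ℕ) (p : ℤ × ℤ) : ℤ × ℤ := (p.1 / (N : ℤ), p.2 / (N : ℤ))

/-- rounding of a point of the plane to the lattice `(1/N) ℤ²` -/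
noncomputable def rd (N : ℕ) (z : P) : ℤ × ℤ := (⌊(N : ℝ) * z.1⌋, ⌊(N : ℝ) * z.2⌋)

/-- first column -/
def e1 (A : SL(2, ℤ)) : ℤ × ℤ := (A 0 0, A 1 0)

/-- second column -/
def e2 (A : SL(2, ℤ)) : ℤ × ℤ := (A 0 1, A 1 1)

/-- the curve of `x` is disjoint from the edges in `C` -/
def Av (N : ℕ) (x : X) (C : Set (Sym2 (VN N))) : Prop := Disjoint (cur x) (geo N C)

/-- at distance at most `n` -/
def NR (n : ℕ) (x y : X) : Prop := ∃ w : Gr.Walk x y, w.length ≤ n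

/-- the edges of the grid with both ends off `C` -/
def off (N : ℕ) (C : Set (Sym2 (VN N))) : Set (Sym2 (VN N)) :=
  {e | e ∈ (GN N).edgeSet ∧ ∀ v ∈ e, v ∉ vts C}

/-- the vertex `p mod N` in the finer grid: `k p mod k N` (well defined, `upv_red` is S_Sub0) -/
def upv (N k : ℕ) (u : VN N) : VN (k * N) :=
  red (k * N) ((k : ℤ) * (u.1.val : ℤ), (k : ℤ) * (u.2.val : ℤ))

/-- the subdivision of a set of edges -/
def sub (N k : ℕ) (C : Set (Sym2 (VN N))) : Set (Sym2 (VN (k * N))) :=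
  {e | ∃ p q : ℤ × ℤ, q - p ∈ stp ∧ s(red N p, red N q) ∈ C ∧ ∃ i : ℕ, i < k ∧
    e = s(red (k * N) ((k : ℤ) • p + (i : ℤ) • (q - p)),
      red (k * N) ((k : ℤ) • p + ((i : ℤ) + 1) • (q - p)))}

/-- the sets for the criterion of hyperbolicity -/
def LL (N1 : ℕ) (x y : X) : Set X :=
  {z | ∃ (N : ℕ) (A B C : Set (Sym2 (VN N))), N1 ≤ N ∧ EC (GN N) (kN N) A ∧ EC (GN N) (kN N) B ∧
    EC (GN N) (kN N) C ∧ Bic (GN N) (kN N) A B C ∧ Av N x A ∧ Av N y B ∧ Av N z C}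

/-- `N1` is large enough: for `N ≥ N1` every essential cycle avoids a curve, and curves which avoid related essential
cycles are at distance at most `5` -/
def BigN (N1 : ℕ) : Prop := 3 ≤ N1 ∧ ∀ N ≥ N1,
  (∀ C : Set (Sym2 (VN N)), EC (GN N) (kN N) C → ∃ z : X, Av N z C) ∧
  ∀ C C' : Set (Sym2 (VN N)), EC (GN N) (kN N) C → EC (GN N) (kN N) C' → RR (GN N) (kN N) C C' →
    ∀ z z' : X, Av N z C → Av N z' C' → NR 5 z z'

/-- a chain of `n` steps of essential cycles from `C` to `C'` -/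
def Lk {V M : Type} [AddCommGroup M] (Γ : SimpleGraph V) (κ : V → V → M) (n : ℕ)
    (C C' : Set (Sym2 V)) : Prop :=
  ∃ c : ℕ → Set (Sym2 V), c 0 = C ∧ c n = C' ∧ (∀ i ≤ n, EC Γ κ (c i)) ∧
    ∀ i < n, RR Γ κ (c i) (c (i + 1))

end Pool.Agent.MPe54d61.TC
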