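import Pool.Agent.Lib.MP_e54d61_gt.TC.DefsB

/-!
# MP_e54d61_gt, torus case, part B (bicorns, pure graph theory), statements with complete proofs

Every statement `S_X` is proved as `theorem tX : S_X` in the file `TC/X.lean` (namespace
`Pool.Agent.MPe54d61.TC`); the statements named after `Uses` are hypotheses of the theorem, in this order, e.g.
`theorem tY (hX : S_X) : S_Y`.  All vertex types and groups are in `Type`.

Notation in the proofs: `p.q` for `p.append q`, `[p]` for `cls κ p`.  A closed walk with `support.tail.Nodup`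
and class `≠ 0` has length at least three (length two would be `u, v, u` with class `κ u v + κ v u = 0`).
If `Ess κ (p.q)` with `p`, `q` both not nil then `x ≠ y` and `p`, `q` are paths: the end point `x` of `q` is in
`q.support.tail`, so it is not in `p.support.tail`.
-/

set_option autoImplicit false

namespace Pool.Agent.MPe54d61.TC

open SimpleGraph

/-- Reversal.  `c` is not nil (class `≠ 0`), `c.support = x :: t`, `t` is nodup with last element `x`; the tail of
`c.reverse.support = (x :: t).reverse` is `(x :: t.dropLast).reverse`, a permutation of `t`. -/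
def S_EssRev : Prop := ∀ (V M : Type) (_ : AddCommGroup M) (Γ : SimpleGraph V) (κ : V → V → M), Anti κ →
  ∀ (x : V) (c : Γ.Walk x x), Ess κ c → Ess κ c.reverse

/-- Rotation: an essential cycle can be started at every one of its vertices (`Walk.rotate`, or split `c` at `v`
with `takeUntil`, `dropUntil` and use `ess_comm`). -/
def S_EssAt : Prop := ∀ (V M : Type) (_ : AddCommGroup M) (Γ : SimpleGraph V) (κ : V → V → M) (x : V)
  (c : Γ.Walk x x), Ess κ c → ∀ v ∈ c.support,
    ∃ c' : Γ.Walk v v, Ess κ c' ∧ eds c' = eds c ∧ cls κ c' = cls κ c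

/-- Inclusion of essential cycles is equality.  Every vertex of an essential cycle is on exactly two of its edges
(two different ones, as the length is at least three).  Let `C ⊆ C'` be essential cycles.  If an edge of `C'` is
not in `C`, then (go round `C'`, starting at a vertex of `C`, until an edge not in `C` is met) there is such an edge
at a vertex `v` of `C`; the two edges of `C` at `v` are the two edges of `C'` at `v`, contradiction.
(Alternatively: a closed walk with nodup tail whose edges are in `C'`; by induction a walk in `C'` which starts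
with a step along `C'` in positive direction and does not turn back follows `C'`.) -/
def S_EcSub : Prop := ∀ (V M : Type) (_ : AddCommGroup M) (Γ : SimpleGraph V) (κ : V → V → M), Anti κ →
  ∀ C C' : Set (Sym2 V), EC Γ κ C → EC Γ κ C' → C ⊆ C' → C = C'

/-- Every closed walk with class `≠ 0` contains an essential cycle.  Strong induction on the length: if
`w.support.tail` is nodup, `w` is essential.  Otherwise some vertex `z` occurs twice in the tail, `w = w1.w2.w3`
with `w2 : Walk z z` not nil and `w1.w3` shorter and not nil, and `[w] = [w1.w3] + [w2]`, so one of the two closed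
walks `w2`, `w1.w3` has class `≠ 0`. -/
def S_Short : Prop := ∀ (V M : Type) (_ : AddCommGroup M) (Γ : SimpleGraph V) (κ : V → V → M) (x : V)
  (w : Γ.Walk x x), cls κ w ≠ 0 → ∃ C, EC Γ κ C ∧ C ⊆ eds w

/-- Potentials of paths: `φ z = [p.takeUntil z]` for `z ∈ p.support` (and `0` elsewhere); induction on `p`:
`p = cons h p'`, `u ∉ p'.support`, take `φ z = κ u v + φ' z` for `z ≠ u` and `φ u = 0`. -/
def S_Pot : Prop := ∀ (V M : Type) (_ : AddCommGroup M) (Γ : SimpleGraph V) (κ : V → V → M), Anti κ →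
  ∀ (x y : V) (p : Γ.Walk x y), p.IsPath → ∃ φ : V → M, ∀ u v, s(u, v) ∈ eds p → κ u v = φ v - φ u

/-- Classes of walks in a set of edges with a potential: induction on the walk. -/
def S_PotCls : Prop := ∀ (V M : Type) (_ : AddCommGroup M) (Γ : SimpleGraph V) (κ : V → V → M)
  (E : Set (Sym2 V)) (φ : V → M), (∀ u v, s(u, v) ∈ E → κ u v = φ v - φ u) →
  ∀ (u v : V) (w : Γ.Walk u v), eds w ⊆ E → cls κ w = φ v - φ u

/-- Arcs of an essential cycle: `D` itself is an arc at each of its vertices (`δ' = nil`, `S_EssAt`); the middle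
part of an arc is an arc (`δ1.δ2.δ3.δ'` is essential, rotate: `δ2.(δ3.δ'.δ1)`, `ess_comm` and associativity);
the tail of an arc is nodup.  Uses `S_EssAt`. -/
def S_Arc : Prop := ∀ (V M : Type) (_ : AddCommGroup M) (Γ : SimpleGraph V) (κ : V → V → M)
  (D : Set (Sym2 V)), EC Γ κ D →
  (∀ v ∈ vts D, ∃ δ : Γ.Walk v v, Arc κ D δ ∧ Ess κ δ) ∧
  (∀ (u w w' v : V) (δ1 : Γ.Walk u w) (δ2 : Γ.Walk w w') (δ3 : Γ.Walk w' v),
    Arc κ D (δ1.append (δ2.append δ3)) → Arc κ D δ2) ∧
  (∀ (u v : V) (δ : Γ.Walk u v), Arc κ D δ → δ.support.tail.Nodup ∧ eds δ ⊆ D)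

/-- `GA κ D p φ q ψ`: a shortest good arc of `D`, with both ends on `p` -/
def GA {V M : Type} [AddCommGroup M] {Γ : SimpleGraph V} (κ : V → V → M) (D : Set (Sym2 V)) {x y : V}
    (p : Γ.Walk x y) (φ : V → M) (q : Γ.Walk y x) (ψ : V → M) : Prop :=
  ∃ (u v : V) (δ : Γ.Walk u v), Arc κ D δ ∧ u ∈ p.support ∧ v ∈ p.support ∧ cls κ δ ≠ φ v - φ u ∧
    (∀ (z : V) (δ1 : Γ.Walk u z) (δ2 : Γ.Walk z v), δ = δ1.append δ2 → ¬ δ1.Nil → ¬ δ2.Nil →
      z ∉ p.support) ∧
    (∀ (w w' : V) (δ1 : Γ.Walk u w) (δ2 : Γ.Walk w w') (δ3 : Γ.Walk w' v),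
      δ = δ1.append (δ2.append δ3) → ¬ δ1.Nil → ¬ δ3.Nil → w ∈ q.support → w' ∈ q.support →
      cls κ δ2 = ψ w' - ψ w)

/-- Shortest good arcs.  A good arc is an arc `δ : Walk u v` of `D` with `u, v ∈ p.support` and
`[δ] ≠ φ v - φ u`, or with `u, v ∈ q.support` and `[δ] ≠ ψ v - ψ u`.  The whole cycle `D` at a vertex `v` of `p` or
`q` is good (`[δ] ≠ 0`, `S_Arc`).  Take a good arc of least length, say (first kind) on `p`.  If `δ = δ1.δ2` with
`z ∈ p.support` and both parts not nil then `[δ] - (φ v - φ u) = ([δ1] - (φ z - φ u)) + ([δ2] - (φ v - φ z))`, so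
one of the shorter arcs is good, contradiction (`δ1`, `δ2` are arcs by `S_Arc` with a nil part).  If
`δ = δ1.(δ2.δ3)` with `w, w' ∈ q.support` and `δ1` not nil then `δ2` is shorter, so not good.  Uses `S_Arc`. -/
def S_Good : Prop := ∀ (V M : Type) (_ : AddCommGroup M) (Γ : SimpleGraph V) (κ : V → V → M)
  (D : Set (Sym2 V)), EC Γ κ D → ∀ (x y : V) (p : Γ.Walk x y) (q : Γ.Walk y x) (φ ψ : V → M),
  (∃ v ∈ vts D, v ∈ p.support ∨ v ∈ q.support) → GA κ D p φ q ψ ∨ GA κ D q ψ p φ

/-- First and last hit.  `δ` is a walk with `support.tail.Nodup`, `δ` is not nil, `Q` is a set of vertices.  Either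
no inner vertex of `δ` is in `Q`, or `δ = η1.(δ2.η2)` where `w` is the first and `w'` the last inner vertex in `Q`.
(An inner vertex is a vertex `z` with `δ = δ1.δ2`, both parts not nil.)  Induction on `δ`, or `takeUntil` for the
first vertex of the list of inner vertices satisfying a predicate. -/
def S_Hits : Prop := ∀ (V : Type) (Γ : SimpleGraph V) (u v : V) (δ : Γ.Walk u v) (Q : Set V),
  δ.support.tail.Nodup → ¬ δ.Nil →
  (∀ (z : V) (δ1 : Γ.Walk u z) (δ2 : Γ.Walk z v), δ = δ1.append δ2 → ¬ δ1.Nil → ¬ δ2.Nil → z ∉ Q) ∨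
  ∃ (w w' : V) (η1 : Γ.Walk u w) (δ2 : Γ.Walk w w') (η2 : Γ.Walk w' v),
    δ = η1.append (δ2.append η2) ∧ ¬ η1.Nil ∧ ¬ η2.Nil ∧ w ∈ Q ∧ w' ∈ Q ∧
    (∀ (z : V) (δ1 : Γ.Walk u z) (δ3 : Γ.Walk z w), η1 = δ1.append δ3 → ¬ δ1.Nil → ¬ δ3.Nil → z ∉ Q) ∧
    (∀ (z : V) (δ1 : Γ.Walk w' z) (δ3 : Γ.Walk z v), η2 = δ1.append δ3 → ¬ δ1.Nil → ¬ δ3.Nil → z ∉ Q)

/-- The circle `p.q` seen from `v`, `u` on `p` and `w`, `w'` on `q`, all of them inner vertices of `q`: after
reversing the circle if necessary (so that on `p` the vertex `v` comes before `u`, or `v = u`), the circle is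
`a1.a2.a3.a4` with `a1 : v → u` in `p` and `a3` in `q` between `w` and `w'`, in one of the two orders.
Proof: `p = p1.p2.p3` with `p2 : v → u` or `u → v`; in the second case replace `p`, `q` by `q.reverse`,
`p.reverse` (`S_EssRev`), i.e. `p.reverse : y → x`, `q.reverse : x → y`.  `q = q1.q2.q3` with `q2 : w → w'` or
`w' → w`.  `a1 = p2`, `a2 = p3.q1`, `a3 = q2`, `a4 = q3.p1`.  Uses `S_EssRev`. -/
def S_Circ : Prop := ∀ (V M : Type) (_ : AddCommGroup M) (Γ : SimpleGraph V) (κ : V → V → M), Anti κ →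
  ∀ (x y : V) (p : Γ.Walk x y) (q : Γ.Walk y x), x ≠ y → Ess κ (p.append q) →
  ∀ u ∈ p.support, ∀ v ∈ p.support, ∀ w ∈ q.support, ∀ w' ∈ q.support,
  w ∉ p.support → w' ∉ p.support →
  (∃ (a1 : Γ.Walk v u) (a2 : Γ.Walk u w) (a3 : Γ.Walk w w') (a4 : Γ.Walk w' v),
    Ess κ (a1.append (a2.append (a3.append a4))) ∧
    eds (a1.append (a2.append (a3.append a4))) = eds (p.append q) ∧
    eds a1 ⊆ eds p ∧ a1.support ⊆ p.support ∧ eds a3 ⊆ eds q ∧ a3.support ⊆ q.support ∧
    (∀ z ∈ a3.support, z ∉ p.support)) ∨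
  (∃ (a1 : Γ.Walk v u) (a2 : Γ.Walk u w') (a3 : Γ.Walk w' w) (a4 : Γ.Walk w v),
    Ess κ (a1.append (a2.append (a3.append a4))) ∧
    eds (a1.append (a2.append (a3.append a4))) = eds (p.append q) ∧
    eds a1 ⊆ eds p ∧ a1.support ⊆ p.support ∧ eds a3 ⊆ eds q ∧ a3.support ⊆ q.support ∧
    (∀ z ∈ a3.support, z ∉ p.support))

/-- Splitting the circle `p.q` at two vertices of `p`: `p = p1.p2.p3` with `p2 : v → u`: `a = p2`, `a' = p3.q.p1`; or with
`p2 : u → v`: `a = p2.reverse`, `a' = (p3.q.p1).reverse`.  `p` is a path because `x ≠ y`.  Uses `S_EssRev`. -/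
def S_SplitP : Prop := ∀ (V M : Type) (_ : AddCommGroup M) (Γ : SimpleGraph V) (κ : V → V → M), Anti κ →
  ∀ (x y : V) (p : Γ.Walk x y) (q : Γ.Walk y x), x ≠ y → Ess κ (p.append q) →
  ∀ u ∈ p.support, ∀ v ∈ p.support, ∃ (a : Γ.Walk v u) (a' : Γ.Walk u v),
    Ess κ (a.append a') ∧ eds (a.append a') = eds (p.append q) ∧ eds a ⊆ eds p ∧
      a.support ⊆ p.support ∧ a.IsPath

/-- Essential walks from two arcs: `δ : u → v` with nodup tail, `a : v → u` a path, which meet only in `u` and `v`.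
`δ.support.tail` and `a.support.tail` are disjoint: a common vertex is `u` or `v`; `v ∉ a.support.tail` (path; if
`u = v` then `a` is nil), and if `u ∈ δ.support.tail` then `u = v` (assumption `hu`), so `a` is nil. -/
def S_EssGlue : Prop := ∀ (V M : Type) (_ : AddCommGroup M) (Γ : SimpleGraph V) (κ : V → V → M) (u v : V)
  (δ : Γ.Walk u v) (a : Γ.Walk v u), δ.support.tail.Nodup → a.IsPath → (u ∈ δ.support.tail → u = v) →
  (∀ z ∈ δ.support, z ∈ a.support → z = u ∨ z = v) → cls κ δ + cls κ a ≠ 0 → Ess κ (δ.append a)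

/-- Type (S) for `c1 = η1.δ2.η2.a1` and `c1* = η1.a3.η2.a1`.  Hypothesis `hc`: at common vertices of `δ2` and `a3`
the classes of the initial parts agree.  Let `l = [c1] = [c1*]`.  The vertices of `δ2.η2.a1.η1` (which starts and
ends at `w`) are different except for `w`; let `φ z` be the class of the initial part of `δ2.η2.a1.η1` up to
`z`, `φ w = 0`, and for `z ∈ a3.support` let `φ z` be the class of the initial part of `a3` up to `z` (the two
definitions agree on common vertices: a vertex of `a3` which is on `δ2.η2.a1.η1` is on `δ2`, because `c1*` is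
essential, or it is `w`).  Then `κ a b = φ b - φ a` on all edges of `c1 ∪ c1*` except for the last step of
`η1.a1` into `w` (the last edge of the closed walk `δ2.η2.a1.η1`), where the difference is `± l`. -/
def S_SAdj : Prop := ∀ (V M : Type) (_ : AddCommGroup M) (Γ : SimpleGraph V) (κ : V → V → M), Anti κ →
  ∀ (u v w w' : V) (η1 : Γ.Walk u w) (δ2 : Γ.Walk w w') (η2 : Γ.Walk w' v) (a1 : Γ.Walk v u)
  (a3 : Γ.Walk w w'), ¬ η1.Nil → ¬ η2.Nil →
  Ess κ (η1.append (δ2.append (η2.append a1))) → Ess κ (η1.append (a3.append (η2.append a1))) →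
  (∀ (z : V) (d d' : Γ.Walk w z) (e e' : Γ.Walk z w'), δ2 = d.append e → a3 = d'.append e' →
    cls κ d = cls κ d') →
  AdjS κ (eds (η1.append (δ2.append (η2.append a1)))) (eds (η1.append (a3.append (η2.append a1))))

/-- The third curve, order `v, u, w, w'`.  Let `C = eds c`, `c = a1.a2.a3.a4`, `c* = η1.a3.η2.a1`.  The classes of the
closed walks `η1.a2⁻¹` (at `u`) and `η1.a3.a4.a1` (at `u`) differ by `[a2] + [a3] + [a4] + [a1] = [c] ≠ 0`, so one
of them is `≠ 0`.  If `[η1.a2⁻¹] ≠ 0`: `C3 = eds (η1.a2⁻¹)`; `C` and `C3` meet in the common path `a2`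
(`C = a2.(a3.a4.a1)`, `C3 = a2.η1⁻¹`), `C3` and `C*` in `η1` (`C3 = η1.a2⁻¹`, `C* = η1.(a3.η2.a1)`).  If
`[η1.a3.a4.a1] ≠ 0`: `C3 = eds (η1.a3.a4.a1)`, `C` and `C3` meet in `a3.a4.a1` (rests `a2`, `η1`), `C3` and `C*` meet
in `a1.η1.a3` (rests `a4`, `η2`).  All walks are essential because `η1`, `η2` have no inner vertex on `c`
(hypotheses `h1`, `h2`) and `C*` is essential.  Uses `S_EssRev`. -/
def S_ThreeA : Prop := ∀ (V M : Type) (_ : AddCommGroup M) (Γ : SimpleGraph V) (κ : V → V → M), Anti κ →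
  ∀ (u v w w' : V) (a1 : Γ.Walk v u) (a2 : Γ.Walk u w) (a3 : Γ.Walk w w') (a4 : Γ.Walk w' v)
  (η1 : Γ.Walk u w) (η2 : Γ.Walk w' v), u ≠ w → v ≠ w' →
  Ess κ (a1.append (a2.append (a3.append a4))) → Ess κ (η1.append (a3.append (η2.append a1))) →
  (∀ z ∈ η1.support, z ∈ (a1.append (a2.append (a3.append a4))).support → z = u ∨ z = w) →
  (∀ z ∈ η2.support, z ∈ (a1.append (a2.append (a3.append a4))).support → z = w' ∨ z = v) →
  ∃ C3, EC Γ κ C3 ∧ AdjI Γ κ (eds (a1.append (a2.append (a3.append a4)))) C3 ∧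
    AdjI Γ κ C3 (eds (η1.append (a3.append (η2.append a1))))

/-- The third curve, order `v, u, w', w`.  `c = a1.a2.a3.a4` with `a2 : u → w'`, `a3 : w' → w`, `a4 : w → v`,
`c* = η1.a3⁻¹.η2.a1`.  The classes of `η1.a3⁻¹.a2⁻¹` and `η1.a4.a1` (closed at `u`) differ by `[c] ≠ 0`.  If
`[η1.a3⁻¹.a2⁻¹] ≠ 0` let `C3` be this curve: `C` and `C3` meet in `a2.a3` (rests `a4.a1`, `η1⁻¹`), `C3` and `C*` meet
in `η1.a3⁻¹` (rests `a2⁻¹`, `η2.a1`).  If `[η1.a4.a1] ≠ 0`: `C`, `C3` meet in `a4.a1` (rests `a2.a3`, `η1`), `C3`, `C*`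
meet in `a1.η1` (rests `a4`, `a3⁻¹.η2`).  Uses `S_EssRev`. -/
def S_ThreeB : Prop := ∀ (V M : Type) (_ : AddCommGroup M) (Γ : SimpleGraph V) (κ : V → V → M), Anti κ →
  ∀ (u v w w' : V) (a1 : Γ.Walk v u) (a2 : Γ.Walk u w') (a3 : Γ.Walk w' w) (a4 : Γ.Walk w v)
  (η1 : Γ.Walk u w) (η2 : Γ.Walk w' v), u ≠ w → v ≠ w' → u ≠ w' → v ≠ w →
  Ess κ (a1.append (a2.append (a3.append a4))) →
  Ess κ (η1.append (a3.reverse.append (η2.append a1))) →
  (∀ z ∈ η1.support, z ∈ (a1.append (a2.append (a3.append a4))).support → z = u ∨ z = w) →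
  (∀ z ∈ η2.support, z ∈ (a1.append (a2.append (a3.append a4))).support → z = w' ∨ z = v) →
  ∃ C3, EC Γ κ C3 ∧ AdjI Γ κ (eds (a1.append (a2.append (a3.append a4)))) C3 ∧
    AdjI Γ κ C3 (eds (η1.append (a3.reverse.append (η2.append a1))))

/-- One half of the thin triangle lemma: a shortest good arc with both ends on `p`.
Let `δ : u → v` be the arc of `GA κ D p φ q ψ`; `δ` is not nil (`[δ] ≠ φ v - φ u`).  `p` and `q` are paths.
`S_Hits` with `Q` = vertices of `q`.
(1) No inner vertex of `δ` is on `q` (none is on `p` either): `S_SplitP` writes the circle as `a.a'`, `a : v → u` in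
`p`.  `C1 = eds (δ.a)` is essential (`S_EssGlue`, `S_PotCls`: `[δ] + [a] = [δ] + φ u - φ v ≠ 0`), a bicorn of `A`, `D`
(parts `a`, `δ`), and `C`, `C1` meet in the common path `a` (rests `a'`, `δ`): type (I).  Take `C3 = Cs = C1`.
(2) Otherwise `δ = η1.(δ2.η2)`, `w, w'` inner vertices on `q` (not on `p`).  `S_Circ` gives `a1 .. a4` in one of two
orders.  `C1 = eds (δ.a1)`, `Cs = eds (η1.E.η2.a1)` with `E = a3` or `a3.reverse`, which is essential: its class is
`[c1]`, because `[E] = ψ w' - ψ w = [δ2]`, and the inner vertices of `η1`, `η2` are not on `c`.  `S_ThreeA`,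
`S_ThreeB` give `C3`; `S_SAdj` gives `AdjS Cs C1` (`hc`: `[d] = ψ z - ψ w = [d']`).
(`S_EssGlue` needs: `u ∈ δ.support.tail` only if `u = v`; this follows from `Arc κ D δ`.)
Uses `S_Arc`, `S_Hits`, `S_SplitP`, `S_EssGlue`, `S_PotCls`, `S_Circ`, `S_SAdj`, `S_ThreeA`, `S_ThreeB`. -/
def S_ThinP : Prop := ∀ (V M : Type) (_ : AddCommGroup M) (Γ : SimpleGraph V) (κ : V → V → M), Anti κ →
  ∀ (A D : Set (Sym2 V)), EC Γ κ A → EC Γ κ D → ∀ (x y : V) (p : Γ.Walk x y) (q : Γ.Walk y x), x ≠ y →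
  Ess κ (p.append q) → eds p ⊆ A → ∀ φ ψ : V → M, (∀ u v, s(u, v) ∈ eds p → κ u v = φ v - φ u) →
  (∀ u v, s(u, v) ∈ eds q → κ u v = ψ v - ψ u) → GA κ D p φ q ψ →
  ∃ C3 Cs C1, EC Γ κ C3 ∧ EC Γ κ Cs ∧ EC Γ κ C1 ∧ RR Γ κ (eds (p.append q)) C3 ∧ RR Γ κ C3 Cs ∧
    RR Γ κ Cs C1 ∧ Bic Γ κ A D C1

/-- **Thin triangles.**  Let `C = eds (p.q)`.  If `p` or `q` is nil, `C` is contained in `B` or `A`, so (`S_EcSub`)
it is `B` or `A`: take `C3 = Cs = C1 = C`.  If `D` and `C` have no common vertex take `C3 = Cs = C1 = D`, a bicorn of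
`A`, `D`, and `AdjD`.  Otherwise `S_Pot` (both paths), `S_Good`; in the first case `S_ThinP`, in the second case
`S_ThinP` for `q.p` and `B` (`ess_comm`), with `Bic B D C1`, which is `Bic D B C1` (exchange the two parts with
`ess_comm`).  Uses `S_EcSub`, `S_Pot`, `S_Good`, `S_ThinP`. -/
def S_Thin : Prop := ∀ (V M : Type) (_ : AddCommGroup M) (Γ : SimpleGraph V) (κ : V → V → M), Anti κ →
  ∀ A B D C : Set (Sym2 V), EC Γ κ A → EC Γ κ B → EC Γ κ D → Bic Γ κ A B C →
  ∃ C3 Cs C1, EC Γ κ C3 ∧ EC Γ κ Cs ∧ EC Γ κ C1 ∧ RR Γ κ C C3 ∧ RR Γ κ C3 Cs ∧ RR Γ κ Cs C1 ∧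
    (Bic Γ κ A D C1 ∨ Bic Γ κ D B C1)

/-- Completing a path in an essential cycle `B`.  Start `B` at `y` (`S_EssAt`), in the direction (`S_EssRev`) such that
its first edge is the first edge of `q` (there are exactly two edges of `B` at `y`, the first and the last one);
`q` follows `B` (induction: `q` does not turn back because it is a path), so `B = q.r`.
Uses `S_EssAt`, `S_EssRev`. -/
def S_Comp : Prop := ∀ (V M : Type) (_ : AddCommGroup M) (Γ : SimpleGraph V) (κ : V → V → M), Anti κ →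
  ∀ B : Set (Sym2 V), EC Γ κ B → ∀ (x y : V) (q : Γ.Walk y x), x ≠ y → q.IsPath → eds q ⊆ B →
  ∃ r : Γ.Walk x y, Ess κ (q.append r) ∧ eds (q.append r) = B

/-- One step of the chain.  `c = p.q` is a bicorn of `A`, `B`, `p : x → y` in `A` of length `n + 1`, `q : y → x` in
`B`, and `x` is a vertex of `B`.  Claim: `RR C B`, or there is a bicorn `C'` with `RR C C'` which is written with an
`A`-part of length `≤ n`, starting at a vertex of `B`.
Proof.  Case 1, `q` not nil: `x ≠ y`, `q` is a path, `B = eds (q.r)` with `r : x → y` (`S_Comp`).  Let `β : x → z` be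
the part of `r` up to its first vertex `z` after `x` which is on `p` (exists, `y` is on `p`).  Inner vertices of `β`
are not on `c`.  If `z = y` (so `β = r`): `C` and `B` meet in the common path `q` (rests `p` and `r`), so `RR C B`.
If `z ≠ y`: `p = p1.p2` at `z`, `p1`, `p2` not nil, and `[p1.β⁻¹] + [p2.q.β] = [c] ≠ 0`.  If `[p2.q.β] ≠ 0` take
`C' = eds (p2.(q.β))`, `A`-part `p2`, `x' = z`; `C` and `C'` meet in `p2.q` (rests `p1`, `β`).  Otherwise
`[p1.β⁻¹] ≠ 0`, take `C' = eds (p1.β⁻¹)`, `A`-part `p1`, `x' = x`, common path `p1` (rests `p2.q`, `β⁻¹`).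
Case 2, `q` nil: then `x = y`, `p` is closed.  Let `r : x → x` be `B` started at `x` (`S_EssAt`), `β : x → z` its part
up to the first vertex after `x` which is on `p`.  If `z = x` then `β = r`, and `C`, `B` meet only in `x`: type (I)
with `s = nil` (rests `p`, `r`), `RR C B`.  If `z ≠ x`: `p = p1.p2`, `C' = eds (p2.β)` (`A`-part `p2`, `x' = z`, common
path `p2`) or `eds (p1.β⁻¹)` (`A`-part `p1`, common path `p1`), as before.
Uses `S_EssAt`, `S_EssRev`, `S_Comp`. -/
def S_Step : Prop := ∀ (V M : Type) (_ : AddCommGroup M) (Γ : SimpleGraph V) (κ : V → V → M), Anti κ →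
  ∀ A B : Set (Sym2 V), EC Γ κ A → EC Γ κ B → ∀ (n : ℕ) (x y : V) (p : Γ.Walk x y) (q : Γ.Walk y x),
  Ess κ (p.append q) → eds p ⊆ A → eds q ⊆ B → p.length = n + 1 → x ∈ vts B →
  RR Γ κ (eds (p.append q)) B ∨
  ∃ (x' y' : V) (p' : Γ.Walk x' y') (q' : Γ.Walk y' x'), Ess κ (p'.append q') ∧ eds p' ⊆ A ∧ eds q' ⊆ B ∧
    p'.length ≤ n ∧ x' ∈ vts B ∧ RR Γ κ (eds (p.append q)) (eds (p'.append q'))

/-- **Chains.**  `A` is connected with `B` inside the bicorns of `A`, `B`.  If `A` and `B` have no common vertex: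
`RR A B` (type (D)).  Otherwise start `A` at a common vertex `x` (`p = A`, `q = nil`) and use `S_Step` by strong
induction on the length of the `A`-part; if the `A`-part is nil then `C ⊆ B`, so `C = B` (`S_EcSub`).
Uses `S_EssAt`, `S_EcSub`, `S_Step`. -/
def S_Chain : Prop := ∀ (V M : Type) (_ : AddCommGroup M) (Γ : SimpleGraph V) (κ : V → V → M), Anti κ →
  ∀ A B : Set (Sym2 V), EC Γ κ A → EC Γ κ B →
  ∃ (n : ℕ) (c : ℕ → Set (Sym2 V)), c 0 = A ∧ c n = B ∧ (∀ i ≤ n, EC Γ κ (c i) ∧ Bic Γ κ A B (c i)) ∧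
    ∀ i < n, RR Γ κ (c i) (c (i + 1))

/-- **Small sets.**  If `RR A B` then every bicorn `C = eds (p.q)` of `A`, `B` satisfies `RR A C`.
`p` or `q` nil: `C = A` or `C = B` by `S_EcSub` (`C` is contained in `B` or `A`).  Otherwise `x ≠ y` are common
vertices.  (D): impossible.  `A = B`: `C ⊆ A`, `C = A`.  (S): the same `φ`, `l` for `A ∪ C ⊆ A ∪ B`.
(I): `A = eds (s.α)`, `B = eds (s.β)`, `s : X → Y`, `α, β : Y → X` meeting only in `X`, `Y`.  If `C` contains no edge of
`β` outside `A` then `C ⊆ A` and `C = A`.  If it contains no edge of `A` ... : an essential cycle `C ⊆ eds s ∪ eds α ∪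
eds β` which contains an edge of `α` (resp. `β`, `s`) contains all edges of it (inner vertices of `α` have degree two in
the theta graph, and every vertex of `C` is on two edges of `C`).  So `C` is `A`, `B` or `eds (α ∪ β)` (if it contains
all three then it contains `A`, so `C = A` by `S_EcSub`).  In the last case `C` and `A` meet in the common path `α`
(`A = α.s`, `C = α.β⁻¹`, `Ess` because the class is `≠ 0` and the walk has nodup tail as `C` is a cycle with
these edges).  Uses `S_EcSub`, `S_EssRev`, `S_Comp`. -/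
def S_Near : Prop := ∀ (V M : Type) (_ : AddCommGroup M) (Γ : SimpleGraph V) (κ : V → V → M), Anti κ →
  ∀ A B C : Set (Sym2 V), EC Γ κ A → EC Γ κ B → RR Γ κ A B → Bic Γ κ A B C → EC Γ κ C → RR Γ κ A C

end Pool.Agent.MPe54d61.TC
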