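import Pool.Agent.Lib.MP_e54d61_gt.TC.SpecA

/-!
# MP_e54d61_gt, torus case, part F (fragmentation of flows, lifts to the plane), statements with complete proofs

Rules as in `TC/SpecA.lean` (first line of the module `TC/X.lean`: `import Pool.Agent.Lib.MP_e54d61_gt.TC.SpecF`).
-/

set_option autoImplicit false

namespace Pool.Agent.MPe54d61.TC

open Topology MatrixGroups

/-- **Fh** (70 lines). PROOF. `h x = φ (f x) x` is continuous. Injective: if `h x = h y` then `y = φ s x`, `s = f x - f y`, and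
`|s| = |f x - f (φ s x)| ≤ |s| / 2`, so `s = 0`. Surjective: for given `w` the function `r ↦ f (φ (-r) w)` satisfies
`|f (φ (-r) w) - f (φ (-r') w)| ≤ |r - r'| / 2`, so it has a fixed point `r` (Banach, `ContractingWith`, or the intermediate
value theorem for `r - f (φ (-r) w)`), and `h (φ (-r) w) = φ r (φ (-r) w) = w`. A continuous bijection of a compact
space onto a Hausdorff space is a homeomorphism (`Continuous.homeoOfEquivCompactToT2`). -/
def S_Fh : Prop := ∀ (X : Type) (_ : TopologicalSpace X) (_ : CompactSpace X) (_ : T2Space X)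
  (φ : Flow ℝ X) (f : X → ℝ), Continuous f → (∀ (s : ℝ) (x : X), |f (φ s x) - f x| ≤ |s| / 2) →
  ∃ h : X ≃ₜ X, ∀ x, h x = φ (f x) x

/-- **Av** (80 lines). Averages along the flow. PROOF. Continuity: parametric integral of a continuous function of
`(x, t)` over a compact interval (`intervalIntegral.continuous_parametric_intervalIntegral_of_continuous`, or
`continuous_parametric_intervalIntegral_of_continuous'`). With `a = ∫_0^δ σ (φ (t + s) x) = ∫_s^(δ+s) σ (φ t x)` and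
`b = ∫_0^δ σ (φ t x)`: `a - b = ∫_δ^(δ+s) σ (φ t x) - ∫_0^s σ (φ t x)`; both integrals are between `0` and `s` (`s ≥ 0`) resp. `s` and `0`
(`s ≤ 0`), so `|a - b| ≤ |s|`. -/
def S_Av : Prop := ∀ (X : Type) (_ : TopologicalSpace X) (φ : Flow ℝ X) (σ : X → ℝ) (δ : ℝ),
  Continuous σ → (∀ x, 0 ≤ σ x ∧ σ x ≤ 1) → 0 < δ →
  Continuous (fun x => (∫ t in (0 : ℝ)..δ, σ (φ t x)) / δ) ∧
  ∀ (s : ℝ) (x : X),
    |(∫ t in (0 : ℝ)..δ, σ (φ t (φ s x))) / δ - (∫ t in (0 : ℝ)..δ, σ (φ t x)) / δ| ≤ |s| / δ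

/-- **Tube** (50 lines). PROOF. The set of the `(t, x)` with `φ t x ∈ U` is open and contains `{0} × C`, `C` is compact:
`generalized_tube_lemma` gives a neighbourhood of `0`. -/
def S_Tube : Prop := ∀ (X : Type) (_ : TopologicalSpace X) (_ : CompactSpace X) (φ : Flow ℝ X)
  (C U : Set X), IsClosed C → IsOpen U → C ⊆ U →
  ∃ δ : ℝ, 0 < δ ∧ ∀ (t : ℝ) (x : X), |t| ≤ δ → x ∈ C → φ t x ∈ U

/-- **Frag** (170 lines). Uses: Fh, Av, Tube. PROOF. A partition of unity `ρ_i` with `tsupport ρ_i ⊆ U i`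
(`PartitionOfUnity.exists_isSubordinate`, compact Hausdorff spaces are normal); `δ > 0` from `Tube` for all `i`
(minimum), `K_i = {φ t x : |t| ≤ δ, x ∈ tsupport ρ_i}` (compact, so closed; `K_i ⊆ U i`). `σ_k = ∑_{i < k} ρ_i`, `σ'_k` = the average
of `Av`, `N` natural with `1 / N ≤ δ / 2`, `f_k = σ'_k / N` satisfies the hypothesis of `Fh` (`(1/N) |s| / δ ≤ |s| / 2`), so
`h_k x = φ (f_k x) x` is a homeomorphism, `0 ≤ k ≤ n`. `h_0 = 1`, `h_n x = φ (1/N) x` (`σ_n = 1`). If `x ∉ K_k` then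
`φ t x ∉ tsupport ρ_k` for `0 ≤ t ≤ δ` (otherwise `x = φ (-t) (φ t x) ∈ K_k`), so `σ'_(k+1) x = σ'_k x`, `h_(k+1) x = h_k x`:
`h_k⁻¹ h_(k+1)` is supported in `K_k`. The product of these is `φ (1/N)`; its `N`-th power is `φ 1`. -/
def S_Frag : Prop := ∀ (X : Type) (_ : TopologicalSpace X) (_ : CompactSpace X) (_ : T2Space X)
  (φ : Flow ℝ X) (n : ℕ) (U : Fin n → Set X), (∀ i, IsOpen (U i)) → (⋃ i, U i) = Set.univ →
  ∃ l : List (X ≃ₜ X), (∀ s ∈ l, ∃ (i : Fin n) (K : Set X), IsClosed K ∧ K ⊆ U i ∧ SuppIn K s) ∧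
    l.prod = φ.toHomeomorph 1

/-! **GenB** (90 lines; theorem `tGenB (hFrag : S_Frag) : S_GenB` in `TC/GenB.lean`, which imports this file; the statement
`S_GenB` is in `TC/SpecA.lean`). Uses: Frag. PROOF. For `x : Ci`: `‖x‖ + ‖x - 1/2‖ = 1/2` (`x = (t : Ci)`, `0 ≤ t < 1`), so
`‖x‖ < 3/8` or `‖x - 1/2‖ < 3/8`. So the four open boxes `{‖z.1 - a‖ < 3/8, ‖z.2 - b‖ < 3/8}`, `a, b ∈ {0, 1/2}`, cover `T`;
`Frag` gives the claim for time-one maps. Induction over the closure `GT` (inverse: reversed list of the inverses,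
`SuppIn.inv`). -/

/-- **Gen** (90 lines). Uses: Frag, SmF. PROOF. `r' = min r (1/4)`; finitely many open balls of radius `r'` cover `T` (compact;
index them by `Fin n`). `Frag` gives for a time-one map a list of maps supported in such balls; a map supported in
the open ball of radius `r'` around `z0` is `Small r'`, so `Small r`, and in `GT` by `SmF` and `fl_mem`. Induction over the
closure as for `GenB` (`Small r s → Small r s⁻¹`). -/
def S_Gen : Prop := ∀ r : ℝ, 0 < r → ∀ g ∈ GT, ∃ l : List (T ≃ₜ T),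
  (∀ s ∈ l, Small r s ∧ s ∈ GT) ∧ l.prod = g

/-- **LfP** (110 lines). Lifts of small maps to the plane. PROOF. `δ : Ci → ℝ` = the representative in `[-1/2, 1/2)`
(`AddCircle.equivIco`), `(δ w : Ci) = w`, `|δ w| = ‖w‖`, `δ 0 = 0`, continuous at `w` if `‖w‖ < 1/2`
(`AddCircle.continuousAt_equivIco`). If `dist p z0 < 1/4` then `dist (s p) z0 < 1/4` (`SuppIn.mapsTo`), otherwise `s p = p`; so
`‖(s p).1 - p.1‖ < 1/2` and `‖(s p).2 - p.2‖ < 1/2` for all `p`. `F z = (z.1 + δ ((s p).1 - p.1), z.2 + δ ((s p).2 - p.2))`,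
`p = pr z`, is continuous, `pr (F z) = s p`, `F (z + iv v) = F z + iv v`; the map of `s⁻¹` (`Small (1/4) s⁻¹`) is the inverse
(`δ (-w) = - δ w` for `‖w‖ < 1/2`). `matP 1 = id`. -/
def S_LfP : Prop := ∀ s : T ≃ₜ T, Small (1 / 4) s → ∃ F : P ≃ₜ P, LiftP s F 1

/-- **LiftP** (100 lines). Uses: Gen, LfP. PROOF. `Gen` with `r = 1/4`, induction on the list: `LiftP s F 1` and `LiftP g F' 1` give
`LiftP (s * g) (F * F') 1`. So every `g ∈ GT` has a lift `F` with `LiftP g F 1`. `matP A` is a homeomorphism of the plane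
(inverse `matP A⁻¹`), `pr (matP A z) = mat A (pr z)`, and `matP A (iv v)` is an integer vector; so `F * matP A` is a lift
of `g * mat A` with linear part `A`. -/
def S_LiftP : Prop := ∀ x : TC.X, ∃ F : P ≃ₜ P, LiftP ((x.1 : T ≃ₜ T) * mat x.2) F x.2

end Pool.Agent.MPe54d61.TC
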