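import Pool.Agent.Lib.MP_e54d61_gt.TC.DefsP
import Pool.Agent.Lib.MP_e54d61_gt.TC.SpecB
import Pool.Agent.Lib.MP_e54d61_gt.TC.SpecF

/-!
# MP_e54d61_gt, torus case, part P (pixels), statements with complete proofs (helper88)

RULES.  Statement `S_Xyz`: file `Pool/Agent/Lib/MP_e54d61_gt/TC/Xyz.lean`, first line
`import Pool.Agent.Lib.MP_e54d61_gt.TC.SpecP`, namespace `Pool.Agent.MPe54d61.TC`, final theorem
`theorem tXyz (h1 : S_A) ... : S_Xyz`; the statements listed under Uses are hypotheses of the theorem, in this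
order (some of them are statements of `SpecB`).  Auxiliary lemmas private.  Do not import other modules.

Notation: `pr : P → T` is the projection `ℝ² → T`, `iv v` an integer vector as a point of the plane, `mm x` the
homeomorphism `g ∘ mat A` of `T` for `x = (g, A)`; `cur x = mm x '' ({0} × circle)`.  A lift `F` of `mm x`
(`LiftP (mm x) F x.2`) satisfies `F (z + iv v) = F z + matP A (iv v)`, and
`matP A (iv v) = iv (v.1 • e1 A + v.2 • e2 A)`, `dz (e1 A) (e2 A) = 1` (`det_SL`).  The distance of `T` is the sup distance;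
`dist (pr z) (pr z') ≤ dist z z'` (`‖(x : AddCircle)‖ ≤ |x|`), `pr` is continuous and open.  `GN N`: the grid on
`(ℤ/N)²` with the six steps `stp`; it is a triangulation of the torus.
-/

set_option autoImplicit false

namespace Pool.Agent.MPe54d61.TC

open SimpleGraph

/-! ### statements which come from other parts (`S_LiftP` is in `SpecF`) -/

/-- (proved in part S by helper31) the intersection number: an essential closed walk and a closed walk without
common vertex have parallel classes. -/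
def S_Det : Prop := ∀ N : ℕ, 3 ≤ N → ∀ (x : VN N) (c : (GN N).Walk x x) (y : VN N) (d : (GN N).Walk y y),
  Ess (kN N) c → (∀ z ∈ c.support, z ∉ d.support) → dz (cls (kN N) c) (cls (kN N) d) = 0

/-! ### the grid -/

/-- Module Grid (100 lines).  Uses: nothing.
(1) `Anti`: cases on the conditions of `kp`; `(1 : ZMod N) ≠ 0` as `N ≥ 2`.  (2) For `q - p ∈ stp` each coordinate `q_i - p_i` is in
`{-1, 0, 1}`, not both `0`; so `red p ≠ red q` (`N ≥ 2`: `(1 : ZMod N) ≠ 0`, `ZMod.intCast_zmod_eq_zero_iff_dvd`, `ZMod.intCast_eq_intCast_iff_dvd_sub`).  Class, one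
coordinate: `a = p_i`, `b = q_i = a + e`.  `(a : ZMod N) + 1 = 0 ∧ (b : ZMod N) = 0` iff `N ∣ a + 1` and `N ∣ a + e`, and then `N ∣ 1 - e`, `|1 - e| ≤ 2 < N`, so `e = 1`: `b / N = (a+1)/N = a/N + 1`.
`a = 0 ∧ b + 1 = 0`: `e = -1`, `N ∣ a`, `b / N = (a - 1)/N = a/N - 1`.  Otherwise `b / N = a / N` (if `e = 1` then `N ∤ a + 1`; if `e = -1` then `N ∤ a`; `Int.emod`, `Int.ediv`
computations: write `a = N m + r`, `0 ≤ r < N`).  (3) If `u`, `v` are adjacent by `p', q'` and `red p = u` take `q = p + (q' - p')`. -/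
def S_Grid : Prop := ∀ N : ℕ, 3 ≤ N → Anti (kN N) ∧
  (∀ p q : ℤ × ℤ, q - p ∈ stp → (GN N).Adj (red N p) (red N q) ∧
    kN N (red N p) (red N q) = cel N q - cel N p) ∧
  ∀ u v : VN N, (GN N).Adj u v → ∀ p : ℤ × ℤ, red N p = u → ∃ q : ℤ × ℤ, q - p ∈ stp ∧ red N q = v

/-- Module GeoE (70 lines).  Uses: nothing.
`⊇` by definition.  `⊆`: let `q' - p' ∈ stp` and `s(red p', red q') = s(red p, red q)`.  If `red p' = red p`, `red q' = red q`: `p' = p + N v`, and `(q' - p') - (q - p) ≡ 0 mod N` with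
coordinates of absolute value `≤ 2 < N`, so `q' = q + N v`, and the segment is moved by `iv v`, which does not change `pr`.  Otherwise `red p' = red q`, `red q' = red p`: the same with `p`, `q`
exchanged (`p - q ∈ stp`), `segment_symm`. -/
def S_GeoE : Prop := ∀ N : ℕ, 3 ≤ N → ∀ p q : ℤ × ℤ, q - p ∈ stp →
  geo N {s(red N p, red N q)} = pr '' segment ℝ (gp N p) (gp N q)

/-- Module GeoC (70 lines).  Uses: nothing.
Every `(p, q)` can be translated by `N v` into `p ∈ [0,N)²` without changing `pr '' segment`, `red`.  So `geo N C` is the union over the finitely many `p ∈ [0,N)²`, `e ∈ stp` with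
`s(red p, red (p + e)) ∈ C` of the sets `pr '' segment (gp p) (gp (p + e))`, which are compact (a segment is compact: continuous image of `[0,1]`), so closed (`T` is Hausdorff).
(`Set.Finite.isClosed_biUnion`, or `isClosed_iUnion_of_finite`.) -/
def S_GeoC : Prop := ∀ N : ℕ, 1 ≤ N → ∀ C : Set (Sym2 (VN N)), IsClosed (geo N C)

/-- Module GeoV (30 lines).  Uses: nothing.
A vertex `v ∈ vts C` is on an edge `s(v, v') ∈ C`, which is an edge of the graph (`C` is the edge set of a walk), so `v = red p`, `v' = red q` with `q - p ∈ stp` (or `p - q`, which is also in `stp`), and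
`pr (gp N p) ∈ geo N C`.  If `v ∈ vts C'` too, then `v = red p'` with `pr (gp N p') ∈ geo N C'`, and `p' = p + N v''`, so `pr (gp N p') = pr (gp N p)`: contradiction to disjointness. -/
def S_GeoV : Prop := ∀ N : ℕ, 3 ≤ N → ∀ C C' : Set (Sym2 (VN N)), EC (GN N) (kN N) C →
  EC (GN N) (kN N) C' → Disjoint (geo N C) (geo N C') → AdjD C C'

/-! ### pixels -/

/-- Module Pix (180 lines).  Uses: Grid, GeoE.
`K = pr (γ [0,1])` is compact, so there is `ρ > 0` such that all points at distance `< ρ` from `K` are in `W` (`IsCompact.exists_thickening_subset_open`).  Let `N ≥ 3`, `2/N < ρ`.  `γ` is uniformly continuous on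
`[0,1]`: there is `n ≥ 1` with `dist (γ s) (γ t) ≤ 1/N` for `|s - t| ≤ 1/n`, `s, t ∈ [0,1]`.  `p_i = rd N (γ (i/n))`, `i = 0..n`: consecutive `p_i` differ by at most one in each coordinate (`|a - b| ≤ 1` implies `|⌊a⌋ - ⌊b⌋| ≤ 1`).  So
there is a walk from `red p_i` to `red p_{i+1}` of at most two steps through lattice points at sup distance `≤ 1` from `p_i` (difference `0`: nil; in `stp`: one step; `(1,-1)` or `(-1,1)`: two steps, by `p_i + (1,0)` resp.
`p_i + (-1,0)`), with class `cel p_{i+1} - cel p_i` (Grid), and all points of its edges (GeoE) are `pr` of points at distance `≤ 1/N` from `gp N p_i`, which is at distance `≤ 1/N` from `γ (i/n)`.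
Append the walks (induction on `i`). -/
def S_Pix : Prop := ∀ γ : ℝ → P, Continuous γ → ∀ W : Set T, IsOpen W →
  (∀ t ∈ Set.Icc (0 : ℝ) 1, pr (γ t) ∈ W) → ∃ N0 : ℕ, ∀ N ≥ N0,
  ∃ w : (GN N).Walk (red N (rd N (γ 0))) (red N (rd N (γ 1))), geo N (eds w) ⊆ W ∧
    cls (kN N) w = cel N (rd N (γ 1)) - cel N (rd N (γ 0))

/-- Module PixC (50 lines).  Uses: Pix, Short.
For `N ≥ 1`: `rd N (γ 1) = rd N (γ 0) + N • v` (`Int.floor_add_intCast`), so the two vertices are equal (`Walk.copy`, `cls_copy`) and the class is `v ≠ 0` (`Int.add_mul_ediv_left`).  Short gives `C ⊆ eds w`; `geo` is monotone. -/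
def S_PixC : Prop := ∀ (γ : ℝ → P) (v : ℤ × ℤ), v ≠ 0 → Continuous γ → γ 1 = γ 0 + iv v →
  ∀ W : Set T, IsOpen W → (∀ t ∈ Set.Icc (0 : ℝ) 1, pr (γ t) ∈ W) → ∃ N0 : ℕ, ∀ N ≥ N0,
  ∃ C : Set (Sym2 (VN N)), EC (GN N) (kN N) C ∧ geo N C ⊆ W

/-- Module PixX (30 lines).  Uses: LiftP, PixC.
`F` the lift of `mm x`, `γ t = F (a, t)`: `γ 1 = F (a, 0) + matP A (0, 1) = γ 0 + iv (e2 A)`, `e2 A ≠ 0` (`det_SL`), `pr (γ t) = mm x (pr (a, t))`. -/
def S_PixX : Prop := ∀ (x : X) (a : ℝ) (W : Set T), IsOpen W → (∀ t : ℝ, mm x (pr (a, t)) ∈ W) →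
  ∃ N0 : ℕ, ∀ N ≥ N0, ∃ C : Set (Sym2 (VN N)), EC (GN N) (kN N) C ∧ geo N C ⊆ W

/-! ### potentials -/

/-- Module Lft (150 lines).  Uses: LiftP, Grid, GeoE.
`F` the lift of `mm x`, `O = F '' S` (open), `A = x.2`, `A v = v.1 • e1 A + v.2 • e2 A`.  A vertex `u = red p` whose point `pr (gp N p)` is in `mm x '' (pr '' S)`: `pr (gp N p) = mm x (pr s) = pr (F s)`, so `gp N p = F s + iv v`
for some `v`, and `gp N (p - N v) ∈ O`.  So for such a vertex there is a lattice point `p` with `red p = u`, `gp N p ∈ O`; choose one and put `φ u = cel N p` (for other `u` let `φ u = 0`).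
Now let `u`, `v` be adjacent, with the edge in `mm x '' (pr '' S)`; `p` the chosen point for `u`, and `q` with `q - p ∈ stp`, `red q = v` (Grid).  The segment `I` from `gp p` to `gp q` is in `pr⁻¹ (mm x '' (pr '' S))`
(GeoE) `= ⋃_w (O + iv w)`.  If `(O + iv w) ∩ O ≠ ∅` then `F s = F s' + iv w` with `s, s' ∈ S`, `w = A l`, `F s = F (s' + iv l)`, `s = s' + iv l`, so `l ∈ Λ`, and then `O + iv w = O` (both inclusions, `±l ∈ Λ`).  Let `O'` be the union
of the `O + iv w` disjoint from `O`: `O`, `O'` are open and disjoint and cover the connected set `I` (`isPreconnected`), and `gp p ∈ O`: so `gp q ∈ O`.  Let `q'` be the chosen point for `v`: `q = q' + N w`, `gp q = gp q' + iv w`, both in `O`, so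
`w = A l`, `l ∈ Λ` (as before), and `cel q = cel q' + w`.  Hence `kN u v = cel q - cel p = φ v + A l - φ u` (Grid). -/
def S_Lft : Prop := ∀ (x : X) (S : Set P) (Λ : AddSubgroup (ℤ × ℤ)), IsOpen S →
  (∀ v ∈ Λ, ∀ z ∈ S, z + iv v ∈ S) → (∀ v : ℤ × ℤ, ∀ z ∈ S, z + iv v ∈ S → v ∈ Λ) →
  ∀ N : ℕ, 3 ≤ N → ∃ φ : VN N → ℤ × ℤ, ∀ u v : VN N, (GN N).Adj u v →
    geo N {s(u, v)} ⊆ mm x '' (pr '' S) →
    ∃ l ∈ Λ, kN N u v - (φ v - φ u) = l.1 • e1 x.2 + l.2 • e2 x.2

/-- Module PotA (40 lines).  Uses: Lft.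
`S = {z | |z.1 - a| < 1/2}`, `Λ = {v | v.1 = 0}`: if `z`, `z + iv v` are in `S` then `|v.1| < 1`. -/
def S_PotA : Prop := ∀ (x : X) (a : ℝ) (N : ℕ), 3 ≤ N → ∃ φ : VN N → ℤ × ℤ, ∀ u v : VN N,
  (GN N).Adj u v → geo N {s(u, v)} ⊆ mm x '' an a (1 / 2) →
  kN N u v - (φ v - φ u) ∈ AddSubgroup.zmultiples (e2 x.2)

/-- Module PotB (40 lines).  Uses: Lft.  The same in the other coordinate. -/
def S_PotB : Prop := ∀ (x : X) (b : ℝ) (N : ℕ), 3 ≤ N → ∃ φ : VN N → ℤ × ℤ, ∀ u v : VN N,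
  (GN N).Adj u v → geo N {s(u, v)} ⊆ mm x '' bn b (1 / 2) →
  kN N u v - (φ v - φ u) ∈ AddSubgroup.zmultiples (e1 x.2)

/-- Module PotX (40 lines).  Uses: Lft.  `Λ = ⊥`. -/
def S_PotX : Prop := ∀ (x : X) (a b : ℝ) (N : ℕ), 3 ≤ N → ∃ φ : VN N → ℤ × ℤ, ∀ u v : VN N,
  (GN N).Adj u v → geo N {s(u, v)} ⊆ mm x '' bx a b (1 / 2) (1 / 2) → kN N u v = φ v - φ u

/-- Module PotZ (30 lines).  Uses: nothing.  Induction on the walk: `cls w - (φ v - φ u) ∈ zmultiples l` for `w : u → v`. -/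
def S_PotZ : Prop := ∀ (V M : Type) (_ : AddCommGroup M) (Γ : SimpleGraph V) (κ : V → V → M)
  (φ : V → M) (l : M) (u : V) (w : Γ.Walk u u),
  (∀ a b, s(a, b) ∈ eds w → κ a b - (φ b - φ a) ∈ AddSubgroup.zmultiples l) →
  cls κ w ∈ AddSubgroup.zmultiples l

/-! ### two graph lemmas -/

/-- Module Surg (120 lines; pure graph theory).  Uses: PotCls, EssGlue (of SpecB).
A walk `ρ : a → b` is good if `a, b ∈ π0.support`, `eds ρ ⊆ eds τ` and `[ρ] ≠ φ b - φ a`.  `τ` is good, because `[π0] = φ v - φ u` (PotCls).  Let `ρ : a → b` be a good walk of least length.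
`a ≠ b`, since `[ρ] = ψ b - ψ a` (PotCls).  `ρ.bypass` (classical decidable equality) is a path with edges in those of `ρ`, the same class `ψ b - ψ a`, and it is not longer: so we may suppose that `ρ` is a path.  No inner vertex `z` of `ρ` is on
`π0`: otherwise `ρ = ρ1.ρ2` at `z` (`takeUntil`, `dropUntil`), `[ρ] - (φ b - φ a) = ([ρ1] - (φ z - φ a)) + ([ρ2] - (φ b - φ z))`, and one of the shorter walks is good.  Let `p : b → a` be the bypass of the walk
`b → u → a` in `π0` (`(π0.takeUntil b).reverse`, `π0.takeUntil a`): a path with `eds p ⊆ eds π0`, `p.support ⊆ π0.support`, `[p] = φ a - φ b`.  EssGlue for `δ = ρ`, `a = p`: `ρ.p` is essential (`a ∉ ρ.support.tail` because `ρ` is a path and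
not nil), and `ess_comm`.  Take `x = b`, `y = a`, `q = ρ`. -/
def S_Surg : Prop := ∀ (V M : Type) (_ : AddCommGroup M) (Γ : SimpleGraph V) (κ : V → V → M), Anti κ →
  ∀ (u v : V) (π0 : Γ.Walk u v) (τ : Γ.Walk v u) (φ ψ : V → M), π0.IsPath →
  (∀ a b, s(a, b) ∈ eds π0 → κ a b = φ b - φ a) → (∀ a b, s(a, b) ∈ eds τ → κ a b = ψ b - ψ a) →
  cls κ π0 + cls κ τ ≠ 0 →
  ∃ (x y : V) (p : Γ.Walk x y) (q : Γ.Walk y x), x ≠ y ∧ Ess κ (p.append q) ∧ eds p ⊆ eds π0 ∧
    eds q ⊆ eds τ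

/-- Module Hit (120 lines; pure graph theory, as the first case of `S_ThinP`).  Uses: Pot, Good, Arc, SplitP, EssGlue, PotCls (of SpecB).
`p`, `q` are paths (`x ≠ y`), Pot gives `φ`, `ψ`.  Good gives `GA κ D p φ q ψ` or `GA κ D q ψ p φ`.  In the second case the arc `δ : u → v` has `u ∈ q.support` and is not nil (`[δ] ≠ ψ v - ψ u`), so `u ∈ vts (eds δ) ⊆ vts D`, contradiction.  In the first case
`δ : u → v` is an arc of `D`, `u, v ∈ p.support`, `[δ] ≠ φ v - φ u`, no inner vertex of `δ` is on `p`; none is on `q`, because it is a vertex of `D`.  SplitP: `a : v → u` a path in `p`, `a' : u → v`, `eds (a.a') = eds (p.q)`.  `C1 = eds (δ.a)` is essential: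
EssGlue (`δ.support.tail` is nodup by Arc; `u ∈ δ.support.tail` only if `u = v`, by `ess_append_iff` for the complementary arc; `[δ] + [a] = [δ] + φ u - φ v ≠ 0`, PotCls).  `AdjI C1 (eds (p.q))`: common path `a : v → u`, rests `δ` and `a'` (`ess_comm`); a common
vertex of `δ` and `a'` is on `p` or on `q`, so it is `u` or `v`. -/
def S_Hit : Prop := ∀ (V M : Type) (_ : AddCommGroup M) (Γ : SimpleGraph V) (κ : V → V → M), Anti κ →
  ∀ D : Set (Sym2 V), EC Γ κ D → ∀ (x y : V) (p : Γ.Walk x y) (q : Γ.Walk y x), x ≠ y →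
  Ess κ (p.append q) → (∀ v ∈ vts D, v ∉ q.support) → (∃ v ∈ vts D, v ∈ p.support) →
  ∃ C1, EC Γ κ C1 ∧ C1 ⊆ D ∪ eds p ∧ AdjI Γ κ C1 (eds (p.append q))

/-! ### the crossing -/

/-- Module CrA (100 lines).  Uses: LiftP, Pix.
`F` the lift of `mm x`, `γ1 t = F (1/4 + t/2, 1/2)`, `γ2 t = F (3/4 + t/2, 1/2)`, `W1`, `W2` the two sets on the right (open: `pr` is an open map).  Pix for both.  `γ1 1 = γ2 0`, `γ2 1 = F (5/4, 1/2) = γ1 0 + iv (e1 A)`, so `rd N (γ2 1) = rd N (γ1 0) + N • e1 A`, the same vertex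
(`Walk.copy`), and the sum of the classes is `e1 A`. -/
def S_CrA : Prop := ∀ x : X, ∃ N0 : ℕ, ∀ N ≥ N0, ∃ (u v : VN N) (π0 : (GN N).Walk u v)
  (τ : (GN N).Walk v u), geo N (eds π0) ⊆ mm x '' bx (1 / 2) (1 / 2) (3 / 8) (1 / 4) ∧
  geo N (eds τ) ⊆ mm x '' bx 1 (1 / 2) (3 / 8) (1 / 4) ∧
  cls (kN N) π0 + cls (kN N) τ = e1 x.2

/-- Module CrB (60 lines).  Uses: Grid, CrA, PotX, PotCls, Surg.
`N ≥ 3`.  PotX for `a = b = 1/2` and for `a = 1`, `b = 1/2` (`bx` is monotone) gives `φ` on the edges of `π0` and `ψ` on those of `τ`.  Replace `π0` by its bypass (a path with edges in those of `π0`, the same class by PotCls); Surg; `e1 A ≠ 0` (`det_SL`). -/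
def S_CrB : Prop := ∀ x : X, ∃ N0 : ℕ, ∀ N ≥ N0, ∃ (u v : VN N) (p : (GN N).Walk u v)
  (q : (GN N).Walk v u), u ≠ v ∧ Ess (kN N) (p.append q) ∧
  geo N (eds p) ⊆ mm x '' bx (1 / 2) (1 / 2) (3 / 8) (1 / 4) ∧
  geo N (eds q) ⊆ mm x '' bx 1 (1 / 2) (3 / 8) (1 / 4)

/-- Module Cross (150 lines).  Uses: Grid, GeoV, PixX, PotA, PotB, PotZ, Det, CrB, Hit.
`N` large.  `C = D` from PixX for `a = 1/2` and `W = mm x '' an (1/2) (1/8)` (open).  `p`, `q` from CrB, `C' = eds (p.q)`; `geo C' ⊆ mm x '' bn (1/2) (1/4)`.  (1) The vertices of `D` are not on `q`: `q` is not nil (`u ≠ v`), `geo D` and `geo (eds q)` are disjoint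
(`an (1/2) (1/8)` and `bx 1 (1/2) (3/8) (1/4)` are disjoint: `|s - 1/2| < 1/8`, `|s + k - 1| < 3/8` would give `|k - 1/2| < 1/2`; as in GeoV).  (2) `D` meets `p`: otherwise `D = eds d`, `d` essential, has no common vertex with `p.q`, so
`dz [d] [p.q] = 0` (Det), but `[d] = n e2` (PotA with `1/8 ≤ 1/2`, PotZ), `[p.q] = n' e1` (PotB, PotZ), `n, n' ≠ 0`, `dz (e1 A) (e2 A) = 1`.  (3) Hit gives `C1 ⊆ D ∪ eds p` with `AdjI C1 C'`.  (4) `AdjS D C1`: all edges of `D ∪ C1` are in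
`mm x '' an (1/2) (3/8)`, PotA with `a = 1/2`, `l = e2 A`. -/
def S_Cross : Prop := ∀ x : X, ∃ N0 : ℕ, ∀ N ≥ N0, ∃ C C1 C' : Set (Sym2 (VN N)),
  EC (GN N) (kN N) C ∧ EC (GN N) (kN N) C1 ∧ EC (GN N) (kN N) C' ∧
  geo N C ⊆ mm x '' an (1 / 2) (1 / 8) ∧ geo N C' ⊆ mm x '' bn (1 / 2) (1 / 4) ∧
  RR (GN N) (kN N) C C1 ∧ RR (GN N) (kN N) C1 C'

/-! ### subdivision -/

/-- Module SubZ (40 lines).  Uses: nothing.
`p = N w + rep` with `rep = (u.1.val, u.2.val)` (`ZMod.val_intCast`: `((a : ZMod N).val : ℤ) = a % N`), so `k p = k rep + (k N) w`.  Injectivity: `k a ≡ k b mod k N` implies `a ≡ b mod N`. -/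
def S_SubZ : Prop := ∀ N k : ℕ, 1 ≤ N → 1 ≤ k →
  (∀ p : ℤ × ℤ, upv N k (red N p) = red (k * N) ((k : ℤ) • p)) ∧ Function.Injective (upv N k)

/-- Module SubI (100 lines; inner vertices of the subdivided edges).  Uses: nothing.
(1) `k p + i e ≡ k p' mod k N`: `k ∣ i e_1` and `k ∣ i e_2`, but one of `e_1`, `e_2` is `± 1` and `0 < i < k`.  (2) `k p + i e ≡ k p' + j e' mod k N`, `0 < i, j < k`: mod `k` we get `i e_1 ≡ j e'_1`, `i e_2 ≡ j e'_2`.  So `e_1 = 0` iff `e'_1 = 0`, `e_2 = 0` iff `e'_2 = 0`, which means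
`e' = e` or `e' = -e`.  `e' = e`: `i ≡ j mod k`, `i = j`, then `k p ≡ k p' mod k N`, `p ≡ p' mod N`.  `e' = -e`: `i + j ≡ 0 mod k`, `i + j = k`, `k p + i e ≡ k p' - (k - i) e`, so `k p' ≡ k (p + e)`, `p' ≡ p + e mod N`, `p' + e' ≡ p`. -/
def S_SubI : Prop := ∀ N k : ℕ, 3 ≤ N → 1 ≤ k → ∀ p q : ℤ × ℤ, q - p ∈ stp → ∀ i : ℕ, 0 < i → i < k →
  (∀ u : VN N, red (k * N) ((k : ℤ) • p + (i : ℤ) • (q - p)) ≠ upv N k u) ∧
  ∀ p' q' : ℤ × ℤ, q' - p' ∈ stp → ∀ j : ℕ, 0 < j → j < k →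
    red (k * N) ((k : ℤ) • p + (i : ℤ) • (q - p)) =
      red (k * N) ((k : ℤ) • p' + (j : ℤ) • (q' - p')) →
    s(red N p, red N q) = s(red N p', red N q')

/-- Module SubE (100 lines; one edge).  Uses: Grid, SubZ, SubI.
Choose `p`, `q` with `q - p ∈ stp`, `red p = u`, `red q = v` (Grid).  The walk `w` through `red (k p + i (q - p))`, `i = 0..k` (induction on `i`; steps by Grid for `k N`); its class is `cel (k q) - cel (k p)` in the grid `k N`, which is
`cel N q - cel N p = kN N u v` (`(k a) / (k N) = a / N`, `Int.mul_ediv_mul_of_pos`).  Its edges are `sub N k {s(u, v)}` (`⊇`: two pairs `p, q` for the same edge differ by a translation by `N w` or an exchange, as in GeoE;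
the exchange maps the index `i` to `k - 1 - i`).  Its vertices are `upv u`, `upv v` and the inner ones; the inner vertices are different (SubI (2) gives only the edge; for equal `i`, `j` argue directly: `(i - j)(q - p) ≡ 0 mod k N`, `|i - j| < k N`),
and different from `upv u`, `upv v` (SubI (1)), `upv u ≠ upv v` (SubZ). -/
def S_SubE : Prop := ∀ N k : ℕ, 3 ≤ N → 1 ≤ k → ∀ u v : VN N, (GN N).Adj u v →
  ∃ w : (GN (k * N)).Walk (upv N k u) (upv N k v), w.IsPath ∧ cls (kN (k * N)) w = kN N u v ∧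
    eds w = sub N k {s(u, v)} ∧
    ∀ z ∈ w.support, z = upv N k u ∨ z = upv N k v ∨
      ∃ (p q : ℤ × ℤ) (i : ℕ), q - p ∈ stp ∧ s(red N p, red N q) = s(u, v) ∧ 0 < i ∧ i < k ∧
        z = red (k * N) ((k : ℤ) • p + (i : ℤ) • (q - p))

/-- Module SubW (150 lines).  Uses: SubZ, SubI, SubE.
`f (cons h p) = (w_h).append (f p)` with the walk `w_h` of SubE (choice), `f nil = nil`; `f` of an append by induction; edges and classes by induction (`sub` of a union is the union).  Essential: let `p` be a closed walk with nodup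
`support.tail` and class `≠ 0`.  Its edges are pairwise different (nodup tail and length `≥ 3`; length two is `u, v, u`, whose class is `0`: `Walk.IsCycle` / or directly).  Lemma by induction: if `p` is any walk with `p.support.tail` nodup and `p.edges` nodup then
`(f p).support.tail` is nodup, and every vertex of `(f p).support.tail` is `upv z` with `z ∈ p.support.tail` or an inner vertex of an edge of `p`.  Step: `(w_h.append (f p)).support.tail = w_h.support.tail ++ (f p).support.tail`; `w_h` is a path;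
a common vertex: `upv v` with `v ∈ p.support.tail` (contradiction, `upv` is injective), or an inner vertex of `h` which is an inner vertex of an edge of `p` (SubI: the same edge, contradiction to nodup edges), or mixed (SubI (1)). -/
def S_SubW : Prop := ∀ N k : ℕ, 3 ≤ N → 1 ≤ k → ∃ f : ∀ u v : VN N, (GN N).Walk u v →
    (GN (k * N)).Walk (upv N k u) (upv N k v),
  (∀ (u v w : VN N) (p : (GN N).Walk u v) (q : (GN N).Walk v w),
    f u w (p.append q) = (f u v p).append (f v w q)) ∧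
  (∀ (u v : VN N) (p : (GN N).Walk u v), eds (f u v p) = sub N k (eds p) ∧
    cls (kN (k * N)) (f u v p) = cls (kN N) p) ∧
  ∀ (u : VN N) (p : (GN N).Walk u u), Ess (kN N) p → Ess (kN (k * N)) (f u u p)

/-- Module SubB (30 lines).  Uses: SubW.  `sub` is monotone. -/
def S_SubB : Prop := ∀ N k : ℕ, 3 ≤ N → 1 ≤ k → ∀ A B C : Set (Sym2 (VN N)),
  (EC (GN N) (kN N) A → EC (GN (k * N)) (kN (k * N)) (sub N k A)) ∧
  (Bic (GN N) (kN N) A B C →
    Bic (GN (k * N)) (kN (k * N)) (sub N k A) (sub N k B) (sub N k C))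

/-- Module SubG (50 lines).  Uses: GeoE.
By definition of `geo` and `sub` and GeoE for `k N` a point of the left side is `pr` of a point of the segment from `gp (k N) (k p + i e)` to `gp (k N) (k p + (i+1) e)`, `e = q - p`, and `gp (k N) (k p + i e) = gp N p + (i/k) (gp N q - gp N p)` is in the
segment from `gp N p` to `gp N q` (convex). -/
def S_SubG : Prop := ∀ N k : ℕ, 3 ≤ N → 1 ≤ k → ∀ C : Set (Sym2 (VN N)),
  geo (k * N) (sub N k C) ⊆ geo N C

end Pool.Agent.MPe54d61.TC
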