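import Pool.Agent.Lib.MP_e54d61_gt.TC.SpecK
import Pool.Agent.Lib.MP_e54d61_gt.TC.SpecP

/-!
# MP_e54d61_gt, torus case, part S: chains of walks (definitions, basic facts); `dz`, `cel` are in `DefsP`
-/

set_option autoImplicit false

namespace Pool.Agent.MPe54d61.TC

open SimpleGraph

/-- signed indicator of the step `u → v`, for the pair `(a, b)` -/
def chi {V : Type*} [DecidableEq V] (a b u v : V) : ℤ :=
  (if u = a ∧ v = b then 1 else 0) - (if u = b ∧ v = a then 1 else 0)

/-- number of steps `a → b` minus number of steps `b → a` of a walk -/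
def cc {V : Type*} [DecidableEq V] {Γ : SimpleGraph V} {u v : V} (w : Γ.Walk u v) (a b : V) : ℤ :=
  cls (chi a b) w

/-- the chain of a walk of the grid -/
def ch {N : ℕ} {u v : VN N} (w : (GN N).Walk u v) (k : Fin 3) (p : VN N) : ℤ := cc w p (p + ed N k)

/-- the representative with coordinates in `[0, N)` -/
def rep {N : ℕ} (z : VN N) : ℤ × ℤ := ((z.1.val : ℤ), (z.2.val : ℤ))

/-- the difference along `u → v` of the multivalued function with period `det (κ, ·)` and the values `φ` -/
def tw {N : ℕ} (κ : ℤ × ℤ) (φ : VN N → ℤ) (u v : VN N) : ℤ := φ v - φ u + dz κ (kN N u v)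

/-! ## determinants -/

theorem dz_add_left (a b c : ℤ × ℤ) : dz (a + b) c = dz a c + dz b c := by
  simp only [dz, Prod.fst_add, Prod.snd_add]; ring

theorem dz_add_right (a b c : ℤ × ℤ) : dz a (b + c) = dz a b + dz a c := by
  simp only [dz, Prod.fst_add, Prod.snd_add]; ring

theorem dz_sub_right (a b c : ℤ × ℤ) : dz a (b - c) = dz a b - dz a c := by
  simp only [dz, Prod.fst_sub, Prod.snd_sub]; ring

theorem dz_smul_left (n : ℤ) (a b : ℤ × ℤ) : dz (n • a) b = n * dz a b := by
  simp only [dz, Prod.smul_fst, Prod.smul_snd, smul_eq_mul]; ring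

theorem dz_smul_right (n : ℤ) (a b : ℤ × ℤ) : dz a (n • b) = n * dz a b := by
  simp only [dz, Prod.smul_fst, Prod.smul_snd, smul_eq_mul]; ring

@[simp] theorem dz_self (a : ℤ × ℤ) : dz a a = 0 := by
  simp only [dz]; ring

@[simp] theorem dz_zero_right (a : ℤ × ℤ) : dz a 0 = 0 := by
  simp [dz]

@[simp] theorem dz_zero_left (a : ℤ × ℤ) : dz 0 a = 0 := by
  simp [dz]

theorem dz_neg_right (a b : ℤ × ℤ) : dz a (-b) = -dz a b := by
  simp only [dz, Prod.fst_neg, Prod.snd_neg]; ring

theorem dz_neg_left (a b : ℤ × ℤ) : dz (-a) b = -dz a b := by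
  simp only [dz, Prod.fst_neg, Prod.snd_neg]; ring

theorem dz_swap (a b : ℤ × ℤ) : dz b a = -dz a b := by
  simp only [dz]; ring

theorem dt_iv (a b : ℤ × ℤ) : dt (iv a) (iv b) = (dz a b : ℝ) := by
  simp [dt, iv, dz]

theorem iv_add (a b : ℤ × ℤ) : iv (a + b) = iv a + iv b := by
  ext <;> simp [iv]

theorem iv_sub (a b : ℤ × ℤ) : iv (a - b) = iv a - iv b := by
  ext <;> simp [iv]

theorem iv_smul (n : ℤ) (a : ℤ × ℤ) : iv (n • a) = (n : ℝ) • iv a := by
  ext <;> simp [iv]

theorem EE_iv (N : ℕ) (k : Fin 3) : EE N k = ((N : ℝ)⁻¹) • iv (ei k) := by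
  ext <;> simp [EE, iv, div_eq_inv_mul]

/-! ## classes -/

section

variable {V M M' : Type*} [AddCommGroup M] [AddCommGroup M'] {Γ : SimpleGraph V}

/-- additive maps -/
theorem cls_map (f : M →+ M') (κ : V → V → M) {u v : V} (w : Γ.Walk u v) :
    cls (fun a b => f (κ a b)) w = f (cls κ w) := by
  induction w with
  | nil => simp
  | cons h p ih => simp [ih]

/-- sums -/
theorem cls_add (κ κ' : V → V → M) {u v : V} (w : Γ.Walk u v) :
    cls (fun a b => κ a b + κ' a b) w = cls κ w + cls κ' w := by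
  induction w with
  | nil => simp
  | cons h p ih => simp only [cls_cons, ih]; abel

/-- differences -/
theorem cls_sub (κ κ' : V → V → M) {u v : V} (w : Γ.Walk u v) :
    cls (fun a b => κ a b - κ' a b) w = cls κ w - cls κ' w := by
  induction w with
  | nil => simp
  | cons h p ih => simp only [cls_cons, ih]; abel

/-- differences of a function on the vertices -/
theorem cls_pot (φ : V → M) {u v : V} (w : Γ.Walk u v) :
    cls (fun a b => φ b - φ a) w = φ v - φ u := by
  induction w with
  | nil => simp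
  | cons h p ih => simp only [cls_cons, ih]; abel

/-- the class depends only on the steps along edges of the walk -/
theorem cls_congr {κ κ' : V → V → M} {u v : V} (w : Γ.Walk u v)
    (h : ∀ a b, s(a, b) ∈ eds w → κ a b = κ' a b) : cls κ w = cls κ' w := by
  induction w with
  | nil => simp
  | cons hab p ih =>
    rw [cls_cons, cls_cons, h _ _ ((mem_eds_cons hab p _).2 (Or.inl rfl)),
      ih fun a b hb => h a b ((mem_eds_cons hab p _).2 (Or.inr hb))]

/-- the class is zero if all steps have class zero -/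
theorem cls_eq_zero {κ : V → V → M} {u v : V} (w : Γ.Walk u v)
    (h : ∀ a b, Γ.Adj a b → s(a, b) ∈ eds w → κ a b = 0) : cls κ w = 0 := by
  induction w with
  | nil => simp
  | cons hab p ih =>
    rw [cls_cons, h _ _ hab ((mem_eds_cons hab p _).2 (Or.inl rfl)), zero_add]
    exact ih fun a b h1 h2 => h a b h1 ((mem_eds_cons hab p _).2 (Or.inr h2))

variable [DecidableEq V]

theorem chi_anti (a b : V) : Anti (chi a b) := by
  intro u v
  simp only [chi]
  rw [neg_sub]
  congr 2 <;> simp [and_comm]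

theorem chi_swap (a b u v : V) : chi b a u v = -chi a b u v := by
  simp only [chi]
  rw [neg_sub]

@[simp] theorem cc_nil (a b u : V) : cc (Walk.nil : Γ.Walk u u) a b = 0 := rfl

@[simp] theorem cc_cons {u v w : V} (h : Γ.Adj u v) (p : Γ.Walk v w) (a b : V) :
    cc (Walk.cons h p) a b = chi a b u v + cc p a b := rfl

@[simp] theorem cc_append {u v w : V} (p : Γ.Walk u v) (q : Γ.Walk v w) (a b : V) :
    cc (p.append q) a b = cc p a b + cc q a b := cls_append p q

theorem cc_swap {u v : V} (w : Γ.Walk u v) (a b : V) : cc w b a = -cc w a b := by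
  induction w with
  | nil => simp
  | cons h p ih => rw [cc_cons, cc_cons, ih, chi_swap]; ring

theorem cc_reverse {u v : V} (w : Γ.Walk u v) (a b : V) : cc w.reverse a b = -cc w a b :=
  cls_reverse (chi_anti a b) w

/-- the chain is zero outside of the edges of the walk -/
theorem cc_eq_zero {u v : V} (w : Γ.Walk u v) (a b : V) (h : s(a, b) ∉ eds w) : cc w a b = 0 := by
  refine cls_eq_zero w fun c d _ hcd => ?_
  have h1 : ¬ (c = a ∧ d = b) := fun h' => h (by rw [← h'.1, ← h'.2]; exact hcd)
  have h2 : ¬ (c = b ∧ d = a) := fun h' => h (by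
    rw [← h'.1, ← h'.2, Sym2.eq_swap]; exact hcd)
  simp [chi, h1, h2]

end

theorem ch_append {N : ℕ} {u v w : VN N} (p : (GN N).Walk u v) (q : (GN N).Walk v w) (k : Fin 3)
    (z : VN N) : ch (p.append q) k z = ch p k z + ch q k z := cc_append p q _ _

theorem cls_tw {N : ℕ} (κ : ℤ × ℤ) (φ : VN N → ℤ) {u v : VN N} (w : (GN N).Walk u v) :
    cls (tw κ φ) w = φ v - φ u + dz κ (cls (kN N) w) := by
  induction w with
  | nil => simp
  | cons h p ih => rw [cls_cons, cls_cons, ih, dz_add_right]; simp only [tw]; ring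

theorem tw_anti {N : ℕ} (hκ : Anti (kN N)) (κ : ℤ × ℤ) (φ : VN N → ℤ) : Anti (tw κ φ) := by
  intro u v
  simp only [tw, hκ u v, dz_neg_right]
  ring

theorem UK.mono {N : ℕ} {K K' : Set (Sym2 (VN N))} (h : UK N K') (hK : K ⊆ K') : UK N K := by
  obtain ⟨A, u, h⟩ := h
  exact ⟨A, u, fun k p hp => h k p (hK hp)⟩

end Pool.Agent.MPe54d61.TC
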