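import Pool.Agent.Lib.MP_e54d61_gt.Abs.Graph

/-!
# MP_e54d61_gt, torus case: spaces, flows, lengths, lifts (definitions)
-/

set_option autoImplicit false

namespace Pool.Agent.MPe54d61.TC

open Topology MatrixGroups

/-- the circle `ℝ / ℤ` -/
abbrev Ci := AddCircle (1 : ℝ)
/-- the torus -/
abbrev T := Ci × Ci
/-- the annulus `ℝ × ℝ/ℤ` (infinite cyclic cover of the torus) -/
abbrev Y := ℝ × Ci
/-- the plane -/
abbrev P := ℝ × ℝ

/-- projection of the plane to the torus -/
def pr (z : P) : T := ((z.1 : Ci), (z.2 : Ci))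
/-- projection of the annulus to the torus -/
def prY (z : Y) : T := ((z.1 : Ci), z.2)

/-- The time-one maps of all flows (continuous one-parameter groups of homeomorphisms) of `X`. -/
def timeOneMaps (X : Type) [TopologicalSpace X] : Set (X ≃ₜ X) :=
  {h | ∃ φ : Flow ℝ X, h = φ.toHomeomorph 1}

/-- `h` is a product of `n` time-one maps -/
def FL {X : Type} [TopologicalSpace X] (n : ℕ) (h : X ≃ₜ X) : Prop :=
  ∃ l : List (X ≃ₜ X), l.length = n ∧ (∀ s ∈ l, s ∈ timeOneMaps X) ∧ l.prod = h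

/-- the group generated by the time-one maps of flows of the torus -/
def GT : Subgroup (T ≃ₜ T) := Subgroup.closure (timeOneMaps T)

/-- `s` is the identity outside of an open ball of radius `r` -/
def Small (r : ℝ) (s : T ≃ₜ T) : Prop := ∃ z0 : T, ∀ z, r ≤ dist z z0 → s z = z

/-- translation of the annulus by one -/
def tau : Y ≃ₜ Y := (Homeomorph.addRight (1 : ℝ)).prodCongr (Homeomorph.refl Ci)

/-- product of a homeomorphism of the line with the identity of the circle -/
def xh (ξ : ℝ ≃ₜ ℝ) : Y ≃ₜ Y := ξ.prodCongr (Homeomorph.refl Ci)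

/-- bounded support (in the first coordinate), for maps of the annulus -/
def BS (h : Y ≃ₜ Y) : Prop := ∃ M : ℝ, ∀ z : Y, M ≤ |z.1| → h z = z

/-- time-one maps of flows of the annulus with bounded support -/
def CFlow (t : Y ≃ₜ Y) : Prop :=
  ∃ φ : Flow ℝ Y, (∃ M : ℝ, ∀ (s : ℝ) (z : Y), M ≤ |z.1| → φ s z = z) ∧ t = φ.toHomeomorph 1

/-- product of `n` time-one maps of flows of the annulus with bounded support -/
def FLY (n : ℕ) (h : Y ≃ₜ Y) : Prop :=
  ∃ l : List (Y ≃ₜ Y), l.length = n ∧ (∀ s ∈ l, CFlow s) ∧ l.prod = h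

/-- the standard open embedding of the plane into the annulus around `(0, 0)`: `(x, θ y)`,
`θ y = y / (2 (1 + |y|))` -/
noncomputable def jE (z : P) : Y := (z.1, ((z.2 / (2 * (1 + |z.2|)) : ℝ) : Ci))

/-- the standard disc `{|x - 3| ≤ 1, |y| ≤ 3}` of the plane (in the ring `2 ≤ ‖z‖ ≤ 4`) -/
def B0 : Set P := {z | |z.1 - 3| ≤ 1 ∧ |z.2| ≤ 3}

/-- the standard disc of the annulus (the image of `B0` under `jE`) -/
def BY : Set Y := {z | |z.1 - 3| ≤ 1 ∧ ‖z.2‖ ≤ 3 / 8}

/-- `h` is supported in `K` -/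
def SuppIn {X : Type} [TopologicalSpace X] (K : Set X) (h : X ≃ₜ X) : Prop := ∀ z, z ∉ K → h z = z

/-- the normal subgroup of `Homeo(Y)` generated by the homeomorphisms supported in the standard disc -/
def HY : Subgroup (Y ≃ₜ Y) := Subgroup.normalClosure {d | SuppIn BY d}

/-- `e` is the transport of `h` by `j`, extended by the identity -/
def Tr {U X : Type} [TopologicalSpace U] [TopologicalSpace X] (j : U → X) (h : U ≃ₜ U)
    (e : X ≃ₜ X) : Prop := (∀ u, e (j u) = j (h u)) ∧ ∀ x, x ∉ Set.range j → e x = x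

/-- the open embedding `(x, y) ↦ (q x, y)` of the annulus into the torus -/
def jq (q : ℝ → ℝ) (z : Y) : T := ((q z.1 : Ci), z.2)

/-- lift of a homeomorphism of the torus to the annulus -/
def LiftY (g : T ≃ₜ T) (g' : Y ≃ₜ Y) : Prop :=
  (∀ z, prY (g' z) = g (prY z)) ∧ (∀ z, g' (tau z) = tau (g' z)) ∧
    ∃ C : ℝ, ∀ z, |(g' z).1 - z.1| ≤ C

theorem mat_aux1 {C : Type*} [AddCommGroup C] {a b c d : ℤ} (h : a * d - b * c = 1) (x y : C) :
    d • (a • x + b • y) - b • (c • x + d • y) = x := by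
  have e : d • (a • x + b • y) - b • (c • x + d • y) = (a * d - b * c) • x := by module
  rw [e, h, one_smul]

theorem mat_aux2 {C : Type*} [AddCommGroup C] {a b c d : ℤ} (h : a * d - b * c = 1) (x y : C) :
    -(c • (a • x + b • y)) + a • (c • x + d • y) = y := by
  have e : -(c • (a • x + b • y)) + a • (c • x + d • y) = (a * d - b * c) • y := by module
  rw [e, h, one_smul]

theorem mat_aux3 {C : Type*} [AddCommGroup C] {a b c d : ℤ} (h : a * d - b * c = 1) (x y : C) :
    a • (d • x - b • y) + b • (-(c • x) + a • y) = x := by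
  have e : a • (d • x - b • y) + b • (-(c • x) + a • y) = (a * d - b * c) • x := by module
  rw [e, h, one_smul]

theorem mat_aux4 {C : Type*} [AddCommGroup C] {a b c d : ℤ} (h : a * d - b * c = 1) (x y : C) :
    c • (d • x - b • y) + d • (-(c • x) + a • y) = y := by
  have e : c • (d • x - b • y) + d • (-(c • x) + a • y) = (a * d - b * c) • y := by module
  rw [e, h, one_smul]

theorem det_SL (A : SL(2, ℤ)) : A 0 0 * A 1 1 - A 0 1 * A 1 0 = 1 := by
  have := A.det_coe
  rwa [Matrix.det_fin_two] at this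

/-- the linear homeomorphism of the torus given by an integer matrix -/
def mat (A : SL(2, ℤ)) : T ≃ₜ T where
  toFun z := (A 0 0 • z.1 + A 0 1 • z.2, A 1 0 • z.1 + A 1 1 • z.2)
  invFun z := (A 1 1 • z.1 - A 0 1 • z.2, -(A 1 0 • z.1) + A 0 0 • z.2)
  left_inv z := Prod.ext (mat_aux1 (det_SL A) z.1 z.2) (mat_aux2 (det_SL A) z.1 z.2)
  right_inv z := Prod.ext (mat_aux3 (det_SL A) z.1 z.2) (mat_aux4 (det_SL A) z.1 z.2)
  continuous_toFun := by
    refine Continuous.prodMk ?_ ?_
    · exact (continuous_fst.zsmul _).add (continuous_snd.zsmul _)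
    · exact (continuous_fst.zsmul _).add (continuous_snd.zsmul _)
  continuous_invFun := by
    refine Continuous.prodMk ?_ ?_
    · exact (continuous_fst.zsmul _).sub (continuous_snd.zsmul _)
    · exact (continuous_fst.zsmul _).neg.add (continuous_snd.zsmul _)

/-- the matrix acting on the plane -/
def matP (A : SL(2, ℤ)) (z : P) : P :=
  ((A 0 0 : ℝ) * z.1 + (A 0 1 : ℝ) * z.2, (A 1 0 : ℝ) * z.1 + (A 1 1 : ℝ) * z.2)

/-- an integer vector as a point of the plane -/
def iv (v : ℤ × ℤ) : P := ((v.1 : ℝ), (v.2 : ℝ))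

/-- `F` is a lift of `m` to the plane with linear part `A` -/
def LiftP (m : T ≃ₜ T) (F : P ≃ₜ P) (A : SL(2, ℤ)) : Prop :=
  (∀ z, pr (F z) = m (pr z)) ∧ ∀ (z : P) (v : ℤ × ℤ), F (z + iv v) = F z + matP A (iv v)

/-- the vertices of the graph: `(g, A)` stands for the curve `g (A ({0} × ℝ/ℤ))` -/
abbrev X := GT × SL(2, ℤ)

/-- the curve of a vertex -/
def cur (x : X) : Set T := {z | ∃ y : Ci, z = (x.1 : T ≃ₜ T) (mat x.2 ((0 : Ci), y))}

/-- rotation by 90 degrees: `J e₂ = - e₁`, `J e₁ = e₂` -/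
def Jm : SL(2, ℤ) := ⟨!![0, -1; 1, 0], by simp [Matrix.det_fin_two]⟩

/-- the graph -/
def Gr : SimpleGraph X where
  Adj x y := x ≠ y ∧ (Disjoint (cur x) (cur y) ∨ (x.1 = y.1 ∧ (y.2 = x.2 * Jm ∨ x.2 = y.2 * Jm)))
  symm := ⟨by
    rintro x y ⟨h1, h2⟩
    refine ⟨h1.symm, ?_⟩
    rcases h2 with h | ⟨h, h'⟩
    · exact Or.inl h.symm
    · exact Or.inr ⟨h.symm, h'.symm⟩⟩
  loopless := ⟨fun x h => h.1 rfl⟩

instance : MulAction GT X where
  smul g x := (g * x.1, x.2)
  one_smul x := by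
    show (1 * x.1, x.2) = x
    rw [one_mul]
  mul_smul g h x := by
    show (g * h * x.1, x.2) = (g * (h * x.1), x.2)
    rw [mul_assoc]

end Pool.Agent.MPe54d61.TC
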