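import Pool.Agent.Lib.MP_e54d61_gt.TC.SpecH

/-!
# MP_e54d61_gt, torus case: changing the weight of one edge
-/

set_option autoImplicit false

namespace Pool.Agent.MPe54d61.TC

namespace EdgeAux

theorem affine {J : Type} [Finite J] (a b : J → ℝ) (ha : ∀ j, 0 < a j) (R : ℝ) (hR : 0 ≤ R)
    (H : ∀ τ : ℝ, 0 ≤ τ → τ * R < 1 → (∀ j, a j + τ * b j ≠ 0) → ∀ j, 0 < a j + τ * b j)
    (τ : ℝ) (hτ : 0 ≤ τ) (hτR : τ * R < 1) (j : J) : 0 < a j + τ * b j := by
  by_contra hneg
  have h0 : a j + τ * b j ≤ 0 := not_lt.1 hneg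
  have hbj : b j < 0 := by
    by_contra hb
    have := mul_nonneg hτ (not_lt.1 hb)
    linarith [ha j]
  have hR1 : 0 < R + 1 := by linarith
  have hq : 0 < (1 - τ * R) / (R + 1) := div_pos (by linarith) hR1
  have hfin : (Set.range fun i => -a i / b i).Finite := Set.finite_range _
  obtain ⟨σ, ⟨hσ1, hσ2⟩, hσ3⟩ :=
    ((Set.Ioo_infinite (show τ < τ + (1 - τ * R) / (R + 1) by linarith)).diff hfin).nonempty
  have hσR : σ * R < 1 := by
    rcases eq_or_lt_of_le hR with h | h
    · rw [← h]; simp
    · have e : (1 - τ * R) / (R + 1) * (R + 1) = 1 - τ * R := div_mul_cancel₀ _ hR1.ne'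
      have h1 : σ * R < (τ + (1 - τ * R) / (R + 1)) * R := mul_lt_mul_of_pos_right hσ2 h
      nlinarith
  have hne : ∀ i, a i + σ * b i ≠ 0 := by
    intro i hi
    apply hσ3
    refine ⟨i, ?_⟩
    have hb : b i ≠ 0 := by
      intro hb
      rw [hb] at hi
      have := ha i
      linarith
    show -a i / b i = σ
    rw [div_eq_iff hb]
    linarith
  have := H σ (by linarith) hσR hne j
  have h2 : σ * b j < τ * b j := mul_lt_mul_of_neg_right hσ1 hbj
  linarith

variable {N : ℕ}

theorem low_add (f : VN N → P) (h : VN N → ℝ) (D : P) (τ : ℝ) (p : VN N) :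
    low (fun p => f p + (τ * h p) • D) p =
      low f p + τ * (DD h 2 p * dt (XX f 0 p) D + DD h 0 p * dt D (XX f 2 p)) := by
  simp only [low, XX_add, dt_add_left, dt_add_right, dt_smul_left, dt_smul_right, dt_self, DD]
  ring

theorem upp_add (f : VN N → P) (h : VN N → ℝ) (D : P) (τ : ℝ) (p : VN N) :
    upp (fun p => f p + (τ * h p) • D) p =
      upp f p + τ * (DD h 1 p * dt (XX f 2 p) D + DD h 2 p * dt D (XX f 1 p)) := by
  simp only [upp, XX_add, dt_add_left, dt_add_right, dt_smul_left, dt_smul_right, dt_self, DD]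
  ring

theorem dv_add (w : Fin 3 → VN N → ℝ) (f : VN N → P) (h : VN N → ℝ) (D : P) (τ : ℝ) (p : VN N) :
    dv w (XX (fun p => f p + (τ * h p) • D)) p = dv w (XX f) p + (τ * dv w (DD h) p) • D := by
  simp only [dv, Fin.sum_univ_three, XX_add, DD, smul_eq_mul]
  module

theorem dv_extra (w : Fin 3 → VN N → ℝ) (X : Fin 3 → VN N → P) (k0 : Fin 3) (p0 : VN N) (s : ℝ)
    (p : VN N) :
    dv (fun k p => w k p + if k = k0 ∧ p = p0 then s else 0) X p =
      dv w X p - (s * ((if p = p0 + ed N k0 then 1 else 0) - (if p = p0 then 1 else 0))) •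
        X k0 p0 := by
  have h1 : ∑ k, (if k = k0 ∧ p = p0 then s else 0) • X k p =
      (if p = p0 then s else 0) • X k0 p0 := by
    rw [Finset.sum_eq_single k0]
    · by_cases hp : p = p0
      · subst hp; simp
      · simp [hp]
    · intro k _ hk; simp [hk]
    · intro h; exact absurd (Finset.mem_univ _) h
  have h2 : ∑ k, (if k = k0 ∧ p - ed N k = p0 then s else 0) • X k (p - ed N k) =
      (if p = p0 + ed N k0 then s else 0) • X k0 p0 := by
    rw [Finset.sum_eq_single k0]
    · by_cases hp : p - ed N k0 = p0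
      · have e : p = p0 + ed N k0 := by rw [← hp, sub_add_cancel]
        rw [if_pos ⟨rfl, hp⟩, if_pos e, hp]
      · have e : p ≠ p0 + ed N k0 := by
          rintro rfl
          exact hp (add_sub_cancel_right _ _)
        rw [if_neg (fun h => hp h.2), if_neg e, zero_smul, zero_smul]
    · intro k _ hk; simp [hk]
    · intro h; exact absurd (Finset.mem_univ _) h
  have h3 : dv (fun k p => w k p + if k = k0 ∧ p = p0 then s else 0) X p =
      dv w X p + ∑ k, (if k = k0 ∧ p = p0 then s else 0) • X k p -
        ∑ k, (if k = k0 ∧ p - ed N k = p0 then s else 0) • X k (p - ed N k) := by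
    simp only [dv]
    rw [← Finset.sum_add_distrib, ← Finset.sum_sub_distrib]
    refine Finset.sum_congr rfl fun k _ => ?_
    module
  rw [h3, h1, h2]
  have e1 : (if p = p0 then s else 0 : ℝ) = s * (if p = p0 then 1 else 0) := by simp
  have e2 : (if p = p0 + ed N k0 then s else 0 : ℝ) = s * (if p = p0 + ed N k0 then 1 else 0) := by
    simp
  rw [e1, e2]
  module

end EdgeAux

open EdgeAux

/-- Changing the weight of one edge: the positions move in the direction of the edge. -/
theorem tEdge (hGreen : S_Green) (hPoisson : S_Poisson) (hSign : S_Sign) : S_Edge := by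
  intro N hN _ w hw f hf hpos k0 p0 t ht
  have hsum : ∑ p : VN N, (((if p = p0 + ed N k0 then 1 else 0) -
      (if p = p0 then 1 else 0) : ℝ)) = 0 := by
    simp
  obtain ⟨h, hh⟩ := hPoisson N hN w hw _ hsum
  have hR0 : h (p0 + ed N k0) - h p0 = -∑ k, ∑ p, w k p * (DD h k p * DD h k p) := by
    rw [← hGreen N hN w (DD h) h]
    simp only [hh]
    simp [mul_sub, Finset.sum_sub_distrib]
  obtain ⟨R, hR⟩ : ∃ R : ℝ, R = h p0 - h (p0 + ed N k0) := ⟨_, rfl⟩
  have hRn : 0 ≤ R := by
    have : 0 ≤ ∑ k, ∑ p, w k p * (DD h k p * DD h k p) :=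
      Finset.sum_nonneg fun k _ => Finset.sum_nonneg fun p _ =>
        mul_nonneg (hw k p).le (mul_self_nonneg _)
    linarith
  obtain ⟨D, hD⟩ : ∃ D : P, D = XX f k0 p0 := ⟨_, rfl⟩
  have hharm : ∀ τ s : ℝ, τ = s * (1 - τ * R) →
      Harm (fun k p => w k p + if k = k0 ∧ p = p0 then s else 0)
        (fun p => f p + (τ * h p) • D) := by
    intro τ s hτ p
    rw [dv_extra, dv_add, hf p, XX_add, ← hD, hh p]
    have e : DD (fun p => τ * h p) k0 p0 = -(τ * R) := by
      simp only [DD, hR]; ring
    rw [e]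
    obtain ⟨g, hg⟩ : ∃ g : ℝ, g = (if p = p0 + ed N k0 then 1 else 0) -
      (if p = p0 then 1 else 0) := ⟨_, rfl⟩
    rw [← hg]
    have e2 : (0 : P) + (τ * g) • D - (s * g) • (D + -(τ * R) • D) =
        ((τ - s * (1 - τ * R)) * g) • D := by module
    rw [e2, ← hτ, sub_self, zero_mul, zero_smul]
  have hP : ∀ τ : ℝ, 0 ≤ τ → τ * R < 1 → Pos (fun p => f p + (τ * h p) • D) := by
    intro τ hτ hτR
    have key := affine (J := VN N ⊕ VN N)
      (Sum.elim (fun p => low f p) (fun p => upp f p))
      (Sum.elim (fun p => DD h 2 p * dt (XX f 0 p) D + DD h 0 p * dt D (XX f 2 p))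
        (fun p => DD h 1 p * dt (XX f 2 p) D + DD h 2 p * dt D (XX f 1 p)))
      (by
        rintro (p | p)
        · exact hpos.1 p
        · exact hpos.2 p) R hRn
      (by
        intro σ hσ hσR hne
        have hs : 0 < 1 - σ * R := by linarith
        have hsσ : 0 ≤ σ / (1 - σ * R) := div_nonneg hσ hs.le
        have h1 := hharm σ (σ / (1 - σ * R)) (div_mul_cancel₀ _ hs.ne').symm
        have h2 : Pos (fun p => f p + (σ * h p) • D) := by
          refine hSign N hN _ ?_ _ h1 ?_ ?_
          · intro k p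
            have := hw k p
            show 0 < w k p + if k = k0 ∧ p = p0 then σ / (1 - σ * R) else 0
            split_ifs
            · linarith
            · linarith
          · intro p
            rw [low_add]
            exact hne (Sum.inl p)
          · intro p
            rw [upp_add]
            exact hne (Sum.inr p)
        rintro (p | p)
        · have := h2.1 p
          rw [low_add] at this
          exact this
        · have := h2.2 p
          rw [upp_add] at this
          exact this) τ hτ hτR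
    constructor
    · intro p
      rw [low_add]
      exact key (Sum.inl p)
    · intro p
      rw [upp_add]
      exact key (Sum.inr p)
  have h1 : 0 < 1 + t * R := by
    have := mul_nonneg ht hRn
    linarith
  refine ⟨fun p => t / (1 + t * R) * h p, D, hP _ (div_nonneg ht h1.le) ?_, hharm _ t ?_⟩
  · rw [div_mul_eq_mul_div, div_lt_one h1]
    linarith
  · field_simp
    ring

end Pool.Agent.MPe54d61.TC
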