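import Pool.Agent.Lib.MP_e54d61_gt.TC.SpecA

/-!
# MP_e54d61_gt, torus case: the end

From the connectedness of the graph `Gr`, the sets for the criterion of hyperbolicity and the bound of the flow
length (`S_Nu`): every `f` in `GT` with `scl f = 0` has stable flow length zero.
-/

set_option autoImplicit false

namespace Pool.Agent.MPe54d61.TC

open Filter Topology MatrixGroups Abs

/-- the length with respect to the time-one maps of flows of the torus -/
noncomputable def nu (g : GT) : ℕ := sInf {k | FL k (g : T ≃ₜ T)}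

theorem nu_spec (g : GT) : FL (nu g) (g : T ≃ₜ T) := by
  obtain ⟨n, hn⟩ := mem_fl g.2
  exact Nat.sInf_mem (s := {k | FL k (g : T ≃ₜ T)}) ⟨n, hn⟩

theorem nu_le {g : GT} {n : ℕ} (h : FL n (g : T ≃ₜ T)) : nu g ≤ n := Nat.sInf_le h

theorem len_nu : Len nu where
  one := Nat.le_zero.1 (nu_le (fl_one 0))
  mul g h := nu_le (fl_mul (nu_spec g) (nu_spec h))
  inv g := by
    have key : ∀ g : GT, nu g⁻¹ ≤ nu g := fun g => nu_le (fl_inv (nu_spec g))
    refine le_antisymm (key g) ?_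
    have := key g⁻¹
    rwa [inv_inv] at this
  conj g h := by
    have key : ∀ g h : GT, nu (h * g * h⁻¹) ≤ nu g := fun g h => nu_le (fl_conj (nu_spec g) _)
    refine le_antisymm (key g h) ?_
    have := key (h * g * h⁻¹) h⁻¹
    have e : h⁻¹ * (h * g * h⁻¹) * h⁻¹⁻¹ = g := by group
    rwa [e] at this

theorem cur_smul (g : GT) (x : X) : cur (g • x) = (g : T ≃ₜ T) '' cur x := by
  ext z
  constructor
  · rintro ⟨y, rfl⟩
    exact ⟨(x.1 : T ≃ₜ T) (mat x.2 ((0 : Ci), y)), ⟨y, rfl⟩, rfl⟩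
  · rintro ⟨_, ⟨y, rfl⟩, rfl⟩
    exact ⟨y, rfl⟩

theorem gr_smul (g : GT) (x y : X) (h : Gr.Adj x y) : Gr.Adj (g • x) (g • y) := by
  obtain ⟨h1, h2⟩ := h
  refine ⟨fun h3 => h1 (MulAction.injective g h3), ?_⟩
  rcases h2 with h2 | ⟨h2, h3⟩
  · left
    rw [cur_smul, cur_smul]
    exact Set.disjoint_image_of_injective (g : T ≃ₜ T).injective h2
  · right
    refine ⟨?_, h3⟩
    show g * x.1 = g * y.1
    rw [h2]

/-- **The torus case.** -/
theorem fin (hNu : S_Nu) (hc : Gr.Connected) (L : X → X → Set X) (h : ℕ)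
    (hL : GG (fun x y => Gr.dist x y) L h) (f : GT) (hs : SclZ f) :
    Tendsto (fun n : ℕ => (nu (f ^ n) : ℝ) / n) atTop (𝓝 0) := by
  refine main_graph Gr hc gr_smul L h hL len_nu ((1 : GT), (1 : SL(2, ℤ))) 12 ?_ hs
  intro g
  obtain ⟨w, hw⟩ := hc.exists_walk_length_eq_dist ((1 : GT), (1 : SL(2, ℤ)))
    (g • ((1 : GT), (1 : SL(2, ℤ))))
  have h1 := hNu _ _ w
  have e : (((1 : GT) : T ≃ₜ T)⁻¹ * ((g • ((1 : GT), (1 : SL(2, ℤ))) : X).1 : T ≃ₜ T)) =
      (g : T ≃ₜ T) := by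
    show ((1 : GT) : T ≃ₜ T)⁻¹ * ((g * 1 : GT) : T ≃ₜ T) = _
    rw [mul_one]
    simp
  have h2 : FL (12 * w.length) (g : T ≃ₜ T) := by
    rw [← e]
    exact h1
  refine (nu_le h2).trans ?_
  rw [hw]
  exact Nat.mul_le_mul_left _ (by omega)

end Pool.Agent.MPe54d61.TC
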