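import Pool.Agent.Lib.MP_e54d61_gt.TC.SpecE
import Pool.Agent.Lib.MP_e54d61_gt.Abs.UGraph

/-!
# MP_e54d61_gt, torus case: the gap theorem for the group `GT` (helper66)
-/

set_option autoImplicit false

namespace Pool.Agent.MPe54d61.TC

open SimpleGraph Filter Topology

namespace FinGapAux

theorem cur_smul (g : GT) (x : X) : cur (g • x) = (g : T ≃ₜ T) '' cur x := by
  ext z
  constructor
  · rintro ⟨y, rfl⟩
    exact ⟨_, ⟨y, rfl⟩, rfl⟩
  · rintro ⟨_, ⟨y, rfl⟩, rfl⟩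
    exact ⟨y, rfl⟩

theorem smul_adj (g : GT) (x y : X) (h : Gr.Adj x y) : Gr.Adj (g • x) (g • y) := by
  obtain ⟨hne, h⟩ := h
  refine ⟨fun h1 => hne (MulAction.injective g h1), ?_⟩
  rcases h with h | ⟨h, h'⟩
  · left
    rw [cur_smul, cur_smul]
    exact Set.disjoint_image_of_injective (g : T ≃ₜ T).injective h
  · right
    refine ⟨?_, h'⟩
    show g * x.1 = g * y.1
    rw [h]

/-- the flow length is bounded by the displacement of every vertex -/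
theorem nu_disp (hNu : S_Nu) (hc : Gr.Connected) (x : X) (g : GT) :
    nuT g ≤ 12 * (1 + Gr.dist x (g • x)) := by
  obtain ⟨w, hw⟩ := hc.exists_walk_length_eq_dist x (g • x)
  have h1 := hNu _ _ w
  rw [hw] at h1
  have h2 : ((x.1 : GT) : T ≃ₜ T)⁻¹ * (((g • x).1 : GT) : T ≃ₜ T) =
      (x.1 : T ≃ₜ T)⁻¹ * (g : T ≃ₜ T) * (x.1 : T ≃ₜ T) := by
    show (x.1 : T ≃ₜ T)⁻¹ * ((g : T ≃ₜ T) * (x.1 : T ≃ₜ T)) = _
    rw [mul_assoc]
  rw [h2] at h1
  have h3 := fl_conj h1 (x.1 : T ≃ₜ T)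
  have h4 : (x.1 : T ≃ₜ T) * ((x.1 : T ≃ₜ T)⁻¹ * (g : T ≃ₜ T) * (x.1 : T ≃ₜ T)) *
      (x.1 : T ≃ₜ T)⁻¹ = (g : T ≃ₜ T) := by group
  rw [h4] at h3
  have h5 : nuT g ≤ 12 * Gr.dist x (g • x) := Nat.sInf_le (s := {n | FL n (g : T ≃ₜ T)}) h3
  omega

end FinGapAux

open FinGapAux in
/-- **The gap theorem for the torus.** There are constants `K`, `E`: if a power `f ^ n` of `f` is a product of
`k` commutators with `E * k < n`, then `f` is a product of at most `K` time-one maps of flows. -/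
theorem tFinGap (hNu : S_Nu) (hAdj5 : S_Adj5) (hGGE : S_GGE) (hNuLen : S_NuLen) :
    ∃ K E : ℕ, ∀ (f : GT) (n k : ℕ), Abs.PrC k (f ^ n) → E * k < n → nuT f ≤ K := by
  obtain ⟨N1, hN1⟩ := hAdj5
  obtain ⟨hc, hGG⟩ := hGGE N1 hN1
  exact Abs.gap_graph Gr hc smul_adj (LL N1) 100 hGG hNuLen 12 (nu_disp hNu hc)

end Pool.Agent.MPe54d61.TC
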