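import Pool.Agent.Lib.MP_e54d61_gt.TC.SpecF

/-!
# MP_e54d61_gt, torus case, module Gen: generation by small maps
-/

set_option autoImplicit false

namespace Pool.Agent.MPe54d61.TC

open Topology MatrixGroups

private lemma Gen_mono {r r' : ℝ} (h : r' ≤ r) {s : T ≃ₜ T} (hs : Small r' s) : Small r s := by
  obtain ⟨z0, hz⟩ := hs
  exact ⟨z0, fun z h1 => hz z (h.trans h1)⟩

private lemma Gen_inv {r : ℝ} {s : T ≃ₜ T} (hs : Small r s) : Small r s⁻¹ := by
  obtain ⟨z0, hz⟩ := hs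
  refine ⟨z0, fun z h1 => ?_⟩
  show s.symm z = z
  rw [Homeomorph.symm_apply_eq, hz z h1]

private lemma Gen_cover {r : ℝ} (hr : 0 < r) :
    ∃ (n : ℕ) (c : Fin n → T), (⋃ i, Metric.ball (c i) r) = Set.univ := by
  obtain ⟨t, -, ht, hc⟩ := finite_cover_balls_of_compact (isCompact_univ (X := T)) hr
  let t' := ht.toFinset
  refine ⟨t'.card, fun i => (t'.equivFin.symm i : T), ?_⟩
  rw [Set.eq_univ_iff_forall]
  intro z
  have h1 := hc (Set.mem_univ z)
  simp only [Set.mem_iUnion] at h1 ⊢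
  obtain ⟨x, hx, hz⟩ := h1
  refine ⟨t'.equivFin ⟨x, by simpa [t'] using hx⟩, ?_⟩
  simpa using hz

/-- the time-one maps -/
private lemma Gen_tom (hFrag : S_Frag) (hSmF : S_SmF) (r : ℝ) (hr : 0 < r) {g : T ≃ₜ T}
    (hg : g ∈ timeOneMaps T) : ∃ l : List (T ≃ₜ T),
      (∀ s ∈ l, Small r s ∧ s ∈ GT) ∧ l.prod = g := by
  obtain ⟨φ, rfl⟩ := hg
  have hr' : 0 < min r (1 / 4) := lt_min hr (by norm_num)
  obtain ⟨n, c, hc⟩ := Gen_cover hr'
  obtain ⟨l, hl, hp⟩ := hFrag T inferInstance inferInstance inferInstance φ n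
    (fun i => Metric.ball (c i) (min r (1 / 4))) (fun i => Metric.isOpen_ball) hc
  refine ⟨l, fun s hs => ?_, hp⟩
  obtain ⟨i, K, -, hK, hsupp⟩ := hl s hs
  have hsm : Small (min r (1 / 4)) s := by
    refine ⟨c i, fun z hz => hsupp z fun hzK => ?_⟩
    have h1 : dist z (c i) < min r (1 / 4) := hK hzK
    exact absurd h1 (not_lt.mpr hz)
  exact ⟨Gen_mono (min_le_left _ _) hsm, fl_mem (hSmF s (Gen_mono (min_le_right _ _) hsm))⟩

/-- generation of `GT` by small maps -/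
theorem tGen (hFrag : S_Frag) (hSmF : S_SmF) : S_Gen := by
  intro r hr g hg
  refine Subgroup.closure_induction
    (p := fun x _ => ∃ l : List (T ≃ₜ T), (∀ s ∈ l, Small r s ∧ s ∈ GT) ∧ l.prod = x)
    (fun x hx => Gen_tom hFrag hSmF r hr hx) ⟨[], by simp, rfl⟩ ?_ ?_ hg
  · rintro x y - - ⟨l, hl, hp⟩ ⟨l', hl', hp'⟩
    refine ⟨l ++ l', fun s h1 => ?_, by simp [hp, hp']⟩
    rcases List.mem_append.1 h1 with h2 | h2
    · exact hl s h2
    · exact hl' s h2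
  · rintro x - ⟨l, hl, hp⟩
    refine ⟨(l.map fun x => x⁻¹).reverse, fun s h1 => ?_, ?_⟩
    · rw [List.mem_reverse] at h1
      obtain ⟨t, ht, rfl⟩ := List.mem_map.1 h1
      exact ⟨Gen_inv (hl t ht).1, inv_mem (hl t ht).2⟩
    · rw [← List.prod_inv_reverse, hp]

end Pool.Agent.MPe54d61.TC
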