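import Pool.Agent.Lib.MP_e54d61_gt.TC.SpecP

set_option autoImplicit false

namespace Pool.Agent.MPe54d61.TC

open SimpleGraph

section

variable {V M : Type} [AddCommGroup M] {Γ : SimpleGraph V} {κ : V → V → M} {u v w x y : V}

private theorem Hit_cls_of_nil {c : Γ.Walk u v} (h : c.Nil) : u = v ∧ cls κ c = 0 := by
  cases c with
  | nil => exact ⟨rfl, rfl⟩
  | cons h' p => exact absurd h Walk.not_nil_cons

private theorem Hit_ess_ne {c : Γ.Walk x x} (h : Ess κ c) : ¬ c.Nil :=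
  fun hn => h.2 (Hit_cls_of_nil hn).2

private theorem Hit_path_of_ess {a : Γ.Walk u v} {b : Γ.Walk v u} (h : Ess κ (a.append b))
    (hb : ¬ b.Nil) : a.IsPath := by
  rw [ess_append_iff] at h
  rw [Walk.isPath_def, ← Walk.cons_tail_support, List.nodup_cons]
  refine ⟨fun h' => h.2.2.1 h' ?_, h.1⟩
  exact Walk.end_mem_tail_support hb

private theorem Hit_split_inner {δ : Γ.Walk u v} {z : V} (hz : z ∈ δ.support) (h1 : z ≠ u)
    (h2 : z ≠ v) :
    ∃ (δ1 : Γ.Walk u z) (δ2 : Γ.Walk z v), δ = δ1.append δ2 ∧ ¬ δ1.Nil ∧ ¬ δ2.Nil := by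
  classical
  exact ⟨δ.takeUntil z hz, δ.dropUntil z hz, (Walk.take_spec δ hz).symm,
    Walk.not_nil_of_ne (Ne.symm h1), Walk.not_nil_of_ne h2⟩

private theorem Hit_mem_supp {a : Γ.Walk u u} {b : Γ.Walk v v} (h : eds a = eds b) (ha : ¬ a.Nil)
    (hb : ¬ b.Nil) {z : V} (hz : z ∈ a.support) : z ∈ b.support := by
  have h1 : z ∈ vts (eds a) := by
    rw [vts_eds_of_ne ha]
    exact hz
  rw [h, vts_eds_of_ne hb] at h1
  exact h1

end

theorem tHit (hPot : S_Pot) (hGood : S_Good) (hArc : S_Arc) (hSplitP : S_SplitP)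
    (hEssGlue : S_EssGlue) (hPotCls : S_PotCls) : S_Hit := by
  intro V M _ Γ κ hκ D hD x y p q hxy hpq hDq hDp
  have hqn : ¬ q.Nil := Walk.not_nil_of_ne hxy.symm
  have hpn : ¬ p.Nil := Walk.not_nil_of_ne hxy
  have hpp : p.IsPath := Hit_path_of_ess hpq hqn
  have hqp : q.IsPath := Hit_path_of_ess (ess_comm hpq) hpn
  obtain ⟨φ, hφ⟩ := hPot V M _ Γ κ hκ x y p hpp
  obtain ⟨ψ, hψ⟩ := hPot V M _ Γ κ hκ y x q hqp
  have hsub : ∀ {s t : V} (δ : Γ.Walk s t), ¬ δ.Nil → eds δ ⊆ D → ∀ z ∈ δ.support, z ∈ vts D := by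
    intro s t δ hn hδD z hz
    have h1 : z ∈ vts (eds δ) := by
      rw [vts_eds_of_ne hn]
      exact hz
    obtain ⟨e, he, hze⟩ := h1
    exact ⟨e, hδD he, hze⟩
  rcases hGood V M _ Γ κ D hD x y p q φ ψ
    (by obtain ⟨v, h1, h2⟩ := hDp; exact ⟨v, h1, Or.inl h2⟩) with hGA | hGA
  · obtain ⟨u, v, δ, hδ, hup, hvp, hcl, h5, -⟩ := hGA
    obtain ⟨hδn, hδD⟩ := (hArc V M _ Γ κ D hD).2.2 u v δ hδ
    have hnil : ¬ δ.Nil := fun hn => by
      obtain ⟨e, h0⟩ := Hit_cls_of_nil (κ := κ) hn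
      apply hcl
      rw [h0, e, sub_self]
    have hu : u ∈ δ.support.tail → u = v := by
      intro hu
      obtain ⟨δ', hδ', -⟩ := hδ
      rw [ess_append_iff] at hδ'
      by_contra hne
      exact hδ'.2.2.1 hu (Walk.end_mem_tail_support (Walk.not_nil_of_ne (Ne.symm hne)))
    have hin : ∀ z ∈ δ.support, z ∈ p.support → z = u ∨ z = v := by
      intro z hz hzp
      by_contra hne
      rw [not_or] at hne
      obtain ⟨δ1, δ2, e, n1, n2⟩ := Hit_split_inner hz hne.1 hne.2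
      exact h5 z δ1 δ2 e n1 n2 hzp
    obtain ⟨a, a', h1, h2, h3, h4, h7⟩ := hSplitP V M _ Γ κ hκ x y p q hxy hpq u hup v hvp
    have hE : Ess κ (δ.append a) := by
      refine hEssGlue V M _ Γ κ u v δ a hδn h7 hu (fun z hz hz' => hin z hz (h4 hz')) ?_
      rw [hPotCls V M _ Γ κ (eds p) φ hφ v u a h3]
      intro h0
      apply hcl
      rw [← sub_eq_zero, ← h0]
      abel
    have hE' := ess_comm hE
    refine ⟨eds (a.append δ), ⟨v, _, hE', rfl⟩, ?_, v, u, a, δ, a', hE', h1, rfl, h2, ?_⟩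
    · rw [eds_append]
      exact Set.union_subset (fun e he => Or.inr (h3 he)) (fun e he => Or.inl (hδD he))
    · intro z hz hz'
      have h8 : z ∈ (p.append q).support := Hit_mem_supp h2 (Hit_ess_ne h1) (Hit_ess_ne hpq)
        (by rw [Walk.mem_support_append_iff]; exact Or.inr hz')
      rw [Walk.mem_support_append_iff] at h8
      rcases h8 with h8 | h8
      · exact (hin z hz h8).symm
      · exact absurd h8 (hDq z (hsub δ hnil hδD z hz))
  · obtain ⟨u, v, δ, hδ, huq, hvq, hcl, -, -⟩ := hGA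
    obtain ⟨hδn, hδD⟩ := (hArc V M _ Γ κ D hD).2.2 u v δ hδ
    have hnil : ¬ δ.Nil := fun hn => by
      obtain ⟨e, h0⟩ := Hit_cls_of_nil (κ := κ) hn
      apply hcl
      rw [h0, e, sub_self]
    exact absurd huq (hDq u (hsub δ hnil hδD u (Walk.start_mem_support _)))

end Pool.Agent.MPe54d61.TC
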