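import Pool.Agent.Lib.MP_e54d61_gt.TC.SpecH

/-!
# MP_e54d61_gt, torus case, part H: leafwise monotone maps
-/

set_option autoImplicit false

namespace Pool.Agent.MPe54d61.TC

open Topology MatrixGroups

namespace LeafAux

theorem key {X Y D : P} {δ ε α β τ : ℝ} (hA : 0 < dt X Y) (hA' : 0 < dt (X + δ • D) (Y + ε • D))
    (hτ : 0 < τ) (he : τ • D = α • X + β • Y) : 0 < τ + (α * δ + β * ε) := by
  have h1 : τ * dt X D = β * dt X Y := by
    rw [← dt_smul_right, he, dt_add_right, dt_smul_right, dt_smul_right, dt_self]; ring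
  have h2 : τ * dt D Y = α * dt X Y := by
    rw [← dt_smul_left, he, dt_add_left, dt_smul_left, dt_smul_left, dt_self]; ring
  have h3 : dt (X + δ • D) (Y + ε • D) = dt X Y + ε * dt X D + δ * dt D Y := by
    rw [dt_add_left, dt_add_right, dt_add_right, dt_smul_left, dt_smul_right, dt_smul_right,
      dt_smul_left, dt_self]; ring
  have h4 : dt X Y * (τ + (α * δ + β * ε)) = τ * dt (X + δ • D) (Y + ε • D) := by
    rw [h3]; linear_combination (-ε) * h1 - δ * h2
  have h5 : 0 < dt X Y * (τ + (α * δ + β * ε)) := by rw [h4]; exact mul_pos hτ hA'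
  exact (mul_pos_iff_of_pos_left hA).1 h5

theorem strict_piece {Φ : P ≃ₜ P} {u : P → ℝ} {Δ : Set P} {σ τ : P → ℝ} {c X Y D : P}
    {c' δ ε : ℝ} (hΦ : ∀ z ∈ Δ, Φ z = c + (σ z • X + τ z • Y))
    (hu : ∀ z ∈ Δ, u z = c' + (σ z * δ + τ z * ε)) (hA : 0 < dt X Y)
    (hA' : 0 < dt (X + δ • D) (Y + ε • D)) (y : P) :
    StrictMonoOn (fun t : ℝ => t + u (Φ.symm (y + t • D))) {t | Φ.symm (y + t • D) ∈ Δ} := by
  intro t1 h1 t2 h2 h12
  have e1 := hΦ _ h1
  have e2 := hΦ _ h2
  rw [Homeomorph.apply_symm_apply] at e1 e2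
  show t1 + u (Φ.symm (y + t1 • D)) < t2 + u (Φ.symm (y + t2 • D))
  rw [hu _ h1, hu _ h2]
  set z1 := Φ.symm (y + t1 • D)
  set z2 := Φ.symm (y + t2 • D)
  have he : (t2 - t1) • D = (σ z2 - σ z1) • X + (τ z2 - τ z1) • Y := by
    have : (t2 - t1) • D = (y + t2 • D) - (y + t1 • D) := by module
    rw [this, e1, e2]; module
  have := key hA hA' (sub_pos.2 h12) he
  linarith

theorem convex_piece {Φ : P ≃ₜ P} {Δ : Set P} {σ τ : P → ℝ} {c X Y D : P}
    (hΦ : ∀ z ∈ Δ, Φ z = c + (σ z • X + τ z • Y)) (hΔ : Convex ℝ Δ)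
    (hσ : ∀ (z z' : P) (a b : ℝ), a + b = 1 → σ (a • z + b • z') = a * σ z + b * σ z')
    (hτ : ∀ (z z' : P) (a b : ℝ), a + b = 1 → τ (a • z + b • z') = a * τ z + b * τ z') (y : P) :
    Convex ℝ {t : ℝ | Φ.symm (y + t • D) ∈ Δ} := by
  intro t1 h1 t2 h2 a b ha hb hab
  have e1 := hΦ _ h1
  have e2 := hΦ _ h2
  rw [Homeomorph.apply_symm_apply] at e1 e2
  have h3 : a • Φ.symm (y + t1 • D) + b • Φ.symm (y + t2 • D) ∈ Δ := hΔ h1 h2 ha hb hab
  have e3 : Φ.symm (y + (a • t1 + b • t2) • D) =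
      a • Φ.symm (y + t1 • D) + b • Φ.symm (y + t2 • D) := by
    rw [Homeomorph.symm_apply_eq, hΦ _ h3, hσ _ _ _ _ hab, hτ _ _ _ _ hab]
    generalize σ (Φ.symm (y + t1 • D)) = s1 at e1 ⊢
    generalize σ (Φ.symm (y + t2 • D)) = s2 at e2 ⊢
    generalize τ (Φ.symm (y + t1 • D)) = r1 at e1 ⊢
    generalize τ (Φ.symm (y + t2 • D)) = r2 at e2 ⊢
    calc y + (a • t1 + b • t2) • D = (a + b) • y + (a • t1 + b • t2) • D := by rw [hab, one_smul]
      _ = a • (y + t1 • D) + b • (y + t2 • D) := by simp only [smul_eq_mul]; module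
      _ = a • (c + (s1 • X + r1 • Y)) + b • (c + (s2 • X + r2 • Y)) := by rw [e1, e2]
      _ = (a + b) • c + ((a * s1 + b * s2) • X + (a * r1 + b * r2) • Y) := by module
      _ = _ := by rw [hab, one_smul]
  show Φ.symm (y + (a • t1 + b • t2) • D) ∈ Δ
  rw [e3]; exact h3

/-- first coordinate in the square `a` -/
def cs (N : ℕ) (a : ℤ × ℤ) (z : P) : ℝ := N * z.1 - a.1

/-- second coordinate in the square `a` -/
def ct (N : ℕ) (a : ℤ × ℤ) (z : P) : ℝ := N * z.2 - a.2

theorem cs_aff (N : ℕ) (a : ℤ × ℤ) (z z' : P) (r q : ℝ) (h : r + q = 1) :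
    cs N a (r • z + q • z') = r * cs N a z + q * cs N a z' := by
  simp only [cs, Prod.fst_add, Prod.smul_fst, smul_eq_mul]
  linear_combination (-(a.1 : ℝ)) * (-h)

theorem ct_aff (N : ℕ) (a : ℤ × ℤ) (z z' : P) (r q : ℝ) (h : r + q = 1) :
    ct N a (r • z + q • z') = r * ct N a z + q * ct N a z' := by
  simp only [ct, Prod.snd_add, Prod.smul_snd, smul_eq_mul]
  linear_combination (-(a.2 : ℝ)) * (-h)

theorem cs_cont (N : ℕ) (a : ℤ × ℤ) : Continuous (cs N a) :=
  (continuous_const.mul continuous_fst).sub continuous_const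

theorem ct_cont (N : ℕ) (a : ℤ × ℤ) : Continuous (ct N a) :=
  (continuous_const.mul continuous_snd).sub continuous_const

theorem pt_c (N : ℕ) [NeZero N] (a : ℤ × ℤ) (z : P) : pt N a (cs N a z) (ct N a z) = z := by
  have hN : (N : ℝ) ≠ 0 := Nat.cast_ne_zero.2 (NeZero.ne N)
  ext
  · simp only [pt, cs]; field_simp; ring
  · simp only [pt, ct]; field_simp; ring

/-- the triangles in the plane: `false` = lower, `true` = upper -/
def tri (N : ℕ) (i : (ℤ × ℤ) × Bool) : Set P :=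
  if i.2 then {z | 0 ≤ cs N i.1 z ∧ cs N i.1 z ≤ ct N i.1 z ∧ ct N i.1 z ≤ 1}
  else {z | 0 ≤ ct N i.1 z ∧ ct N i.1 z ≤ cs N i.1 z ∧ cs N i.1 z ≤ 1}

theorem mem_low {N : ℕ} {a : ℤ × ℤ} {z : P} :
    z ∈ tri N (a, false) ↔ 0 ≤ ct N a z ∧ ct N a z ≤ cs N a z ∧ cs N a z ≤ 1 := by
  simp [tri]

theorem mem_upp {N : ℕ} {a : ℤ × ℤ} {z : P} :
    z ∈ tri N (a, true) ↔ 0 ≤ cs N a z ∧ cs N a z ≤ ct N a z ∧ ct N a z ≤ 1 := by
  simp [tri]

theorem closed_tri (N : ℕ) (i : (ℤ × ℤ) × Bool) : IsClosed (tri N i) := by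
  obtain ⟨a, b⟩ := i
  cases b
  · have : tri N (a, false) = {z | 0 ≤ ct N a z} ∩ ({z | ct N a z ≤ cs N a z} ∩ {z | cs N a z ≤ 1}) := by
      ext z; exact mem_low
    rw [this]
    exact (isClosed_le continuous_const (ct_cont N a)).inter
      ((isClosed_le (ct_cont N a) (cs_cont N a)).inter (isClosed_le (cs_cont N a) continuous_const))
  · have : tri N (a, true) = {z | 0 ≤ cs N a z} ∩ ({z | cs N a z ≤ ct N a z} ∩ {z | ct N a z ≤ 1}) := by
      ext z; exact mem_upp
    rw [this]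
    exact (isClosed_le continuous_const (cs_cont N a)).inter
      ((isClosed_le (cs_cont N a) (ct_cont N a)).inter (isClosed_le (ct_cont N a) continuous_const))

theorem convex_tri (N : ℕ) (i : (ℤ × ℤ) × Bool) : Convex ℝ (tri N i) := by
  obtain ⟨a, b⟩ := i
  cases b
  · intro z hz z' hz' r q hr hq h
    rw [mem_low] at *
    rw [cs_aff N a z z' r q h, ct_aff N a z z' r q h]
    refine ⟨?_, ?_, ?_⟩
    · exact add_nonneg (mul_nonneg hr hz.1) (mul_nonneg hq hz'.1)
    · exact add_le_add (mul_le_mul_of_nonneg_left hz.2.1 hr) (mul_le_mul_of_nonneg_left hz'.2.1 hq)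
    · have := add_le_add (mul_le_mul_of_nonneg_left hz.2.2 hr) (mul_le_mul_of_nonneg_left hz'.2.2 hq)
      linarith
  · intro z hz z' hz' r q hr hq h
    rw [mem_upp] at *
    rw [cs_aff N a z z' r q h, ct_aff N a z z' r q h]
    refine ⟨?_, ?_, ?_⟩
    · exact add_nonneg (mul_nonneg hr hz.1) (mul_nonneg hq hz'.1)
    · exact add_le_add (mul_le_mul_of_nonneg_left hz.2.1 hr) (mul_le_mul_of_nonneg_left hz'.2.1 hq)
    · have := add_le_add (mul_le_mul_of_nonneg_left hz.2.2 hr) (mul_le_mul_of_nonneg_left hz'.2.2 hq)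
      linarith

/-- the square which contains `z` -/
noncomputable def sq (N : ℕ) (z : P) : ℤ × ℤ := (⌊(N : ℝ) * z.1⌋, ⌊(N : ℝ) * z.2⌋)

theorem cover (N : ℕ) (z : P) : z ∈ tri N (sq N z, false) ∨ z ∈ tri N (sq N z, true) := by
  rw [mem_low, mem_upp]
  have h1 : cs N (sq N z) z = Int.fract ((N : ℝ) * z.1) := rfl
  have h2 : ct N (sq N z) z = Int.fract ((N : ℝ) * z.2) := rfl
  rw [h1, h2]
  rcases le_total (Int.fract ((N : ℝ) * z.2)) (Int.fract ((N : ℝ) * z.1)) with h | h
  · exact Or.inl ⟨Int.fract_nonneg _, h, (Int.fract_lt_one _).le⟩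
  · exact Or.inr ⟨Int.fract_nonneg _, h, (Int.fract_lt_one _).le⟩

end LeafAux

open LeafAux in
theorem tLeaf (hTri : S_Tri) (hPLc : S_PLc) (hMonoCov : S_MonoCov) (hBdd : S_Bdd) : S_Leaf := by
  intro N inst f h D hf hf' hΦ
  obtain ⟨Φ, hΦ⟩ := hΦ
  by_cases hD : D = 0
  · refine ⟨Φ, ?_⟩
    rw [hΦ]
    congr 1
    funext p
    rw [hD, smul_zero, add_zero]
  set f' : VN N → P := fun p => f p + h p • D with hf'def
  obtain ⟨hc, -, C, hC⟩ := hPLc N inst f
  obtain ⟨hc', -, C', hC'⟩ := hPLc N inst f'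
  -- the formulas on the triangles
  have flow : ∀ (a : ℤ × ℤ), ∀ z ∈ tri N (a, false), Φ z = (pt N a 0 0 + f (zc N a)) +
      ((cs N a z - ct N a z) • XX f 0 (zc N a) + ct N a z • XX f 2 (zc N a)) := by
    intro a z hz
    rw [mem_low] at hz
    have := (hTri N inst f a (cs N a z) (ct N a z)).1 hz.1 hz.2.1 hz.2.2
    rw [pt_c] at this
    rw [hΦ, this]
  have fupp : ∀ (a : ℤ × ℤ), ∀ z ∈ tri N (a, true), Φ z = (pt N a 0 0 + f (zc N a)) +
      (cs N a z • XX f 2 (zc N a) + (ct N a z - cs N a z) • XX f 1 (zc N a)) := by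
    intro a z hz
    rw [mem_upp] at hz
    have := (hTri N inst f a (cs N a z) (ct N a z)).2 hz.1 hz.2.1 hz.2.2
    rw [pt_c] at this
    rw [hΦ, this, add_comm (cs N a z • XX f 2 (zc N a))]
  have hQ : D.1 ^ 2 + D.2 ^ 2 ≠ 0 := by
    intro h0
    apply hD
    have h1 : D.1 = 0 := by nlinarith [sq_nonneg D.1, sq_nonneg D.2]
    have h2 : D.2 = 0 := by nlinarith [sq_nonneg D.1, sq_nonneg D.2]
    exact Prod.ext h1 h2
  set u : P → ℝ := fun z => ((PLm f' z - PLm f z).1 * D.1 + (PLm f' z - PLm f z).2 * D.2) /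
    (D.1 ^ 2 + D.2 ^ 2) with hu
  have hur : ∀ (z : P) (r : ℝ), PLm f' z - PLm f z = r • D → u z = r := by
    intro z r hr
    simp only [hu, hr, Prod.smul_fst, Prod.smul_snd, smul_eq_mul]
    field_simp
  have dlow : ∀ (a : ℤ × ℤ), ∀ z ∈ tri N (a, false), PLm f' z - PLm f z =
      (h (zc N a) + ((cs N a z - ct N a z) * DD h 0 (zc N a) + ct N a z * DD h 2 (zc N a))) • D := by
    intro a z hz
    rw [mem_low] at hz
    have e1 := (hTri N inst f a (cs N a z) (ct N a z)).1 hz.1 hz.2.1 hz.2.2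
    have e2 := (hTri N inst f' a (cs N a z) (ct N a z)).1 hz.1 hz.2.1 hz.2.2
    rw [pt_c] at e1 e2
    rw [e1, e2, hf'def, XX_add, XX_add]
    module
  have dupp : ∀ (a : ℤ × ℤ), ∀ z ∈ tri N (a, true), PLm f' z - PLm f z =
      (h (zc N a) + (cs N a z * DD h 2 (zc N a) + (ct N a z - cs N a z) * DD h 1 (zc N a))) • D := by
    intro a z hz
    rw [mem_upp] at hz
    have e1 := (hTri N inst f a (cs N a z) (ct N a z)).2 hz.1 hz.2.1 hz.2.2
    have e2 := (hTri N inst f' a (cs N a z) (ct N a z)).2 hz.1 hz.2.1 hz.2.2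
    rw [pt_c] at e1 e2
    rw [e1, e2, hf'def, XX_add, XX_add]
    module
  have hw : ∀ z, PLm f' z = PLm f z + u z • D := by
    intro z
    have : PLm f' z - PLm f z = u z • D := by
      rcases cover N z with hz | hz
      · have e := dlow _ z hz
        rw [hur z _ e]; exact e
      · have e := dupp _ z hz
        rw [hur z _ e]; exact e
    rw [← this]; abel
  have huc : Continuous u := by
    refine Continuous.div_const ?_ _
    have := hc'.sub hc
    exact (((continuous_fst.comp this).mul continuous_const).add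
      ((continuous_snd.comp this).mul continuous_const))
  -- bounded
  have hub : ∃ B : ℝ, ∀ z, |u z| ≤ B := by
    have hDn : 0 < ‖D‖ := norm_pos_iff.2 hD
    refine ⟨(C + C') / ‖D‖, fun z => ?_⟩
    rw [le_div_iff₀ hDn, ← Real.norm_eq_abs, ← norm_smul]
    have e : u z • D = PLm f' z - PLm f z := by rw [hw z]; abel
    rw [e, ← dist_eq_norm]
    calc dist (PLm f' z) (PLm f z) ≤ dist (PLm f' z) z + dist z (PLm f z) := dist_triangle _ _ _
      _ ≤ C' + C := add_le_add (hC' z) (by rw [dist_comm]; exact hC z)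
      _ = C + C' := add_comm _ _
  obtain ⟨B, hB⟩ := hub
  -- the function on a line
  have gcont : ∀ y : P, Continuous fun t : ℝ => t + u (Φ.symm (y + t • D)) := by
    intro y
    refine continuous_id.add (huc.comp (Φ.symm.continuous.comp ?_))
    exact continuous_const.add (continuous_id.smul continuous_const)
  have lcont : ∀ y : P, Continuous fun t : ℝ => Φ.symm (y + t • D) := by
    intro y
    exact Φ.symm.continuous.comp (continuous_const.add (continuous_id.smul continuous_const))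
  have gmono : ∀ y : P, StrictMono fun t : ℝ => t + u (Φ.symm (y + t • D)) := by
    intro y t1 t2 h12
    -- compactness
    have hcomp : IsCompact ((fun t : ℝ => Φ.symm (y + t • D)) '' Set.Icc t1 t2) :=
      isCompact_Icc.image (lcont y)
    obtain ⟨M, hM⟩ := hcomp.isBounded.exists_norm_le
    set K : ℤ := ⌈(N : ℝ) * M⌉ + 1 with hK
    refine hMonoCov (fun t : ℝ => t + u (Φ.symm (y + t • D))) t1 t2 h12 (gcont y).continuousOn
      ((ℤ × ℤ) × Bool) ((Finset.Icc (-K) K ×ˢ Finset.Icc (-K) K) ×ˢ Finset.univ)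
      (fun i => {t | Φ.symm (y + t • D) ∈ tri N i}) ?_ ?_ ?_ ?_
    · intro i
      exact (closed_tri N i).preimage (lcont y)
    · rintro ⟨a, b⟩
      cases b
      · refine convex_piece (flow a) (convex_tri N _) ?_ (ct_aff N a) y
        intro z z' r q hrq
        rw [cs_aff N a z z' r q hrq, ct_aff N a z z' r q hrq]; ring
      · refine convex_piece (fupp a) (convex_tri N _) (cs_aff N a) ?_ y
        intro z z' r q hrq
        rw [cs_aff N a z z' r q hrq, ct_aff N a z z' r q hrq]; ring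
    · intro t ht
      have hz := hM _ (Set.mem_image_of_mem (fun t : ℝ => Φ.symm (y + t • D)) ht)
      set z := Φ.symm (y + t • D) with hzdef
      have hz1 : |z.1| ≤ M := le_trans (norm_fst_le z) hz
      have hz2 : |z.2| ≤ M := le_trans (norm_snd_le z) hz
      have hN0 : (0 : ℝ) ≤ N := Nat.cast_nonneg N
      have hfl : ∀ x : ℝ, |x| ≤ M → ⌊(N : ℝ) * x⌋ ∈ Finset.Icc (-K) K := by
        intro x hx
        rw [Finset.mem_Icc]
        have h1 : (N : ℝ) * x ≤ N * M := mul_le_mul_of_nonneg_left (le_trans (le_abs_self x) hx) hN0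
        have h2 : -((N : ℝ) * M) ≤ N * x := by
          have := mul_le_mul_of_nonneg_left (le_trans (neg_le_abs x) hx) hN0
          linarith
        have h3 : ((N : ℝ) * M) ≤ ⌈(N : ℝ) * M⌉ := Int.le_ceil _
        constructor
        · rw [Int.le_floor, hK]; push_cast; linarith
        · have h4 : (⌊(N : ℝ) * x⌋ : ℝ) ≤ N * x := Int.floor_le _
          have h5 : (⌊(N : ℝ) * x⌋ : ℝ) ≤ (K : ℝ) := by rw [hK]; push_cast; linarith
          exact_mod_cast h5
      rcases cover N z with hc0 | hc0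
      · refine ⟨(sq N z, false), ?_, hc0⟩
        exact Finset.mem_product.2 ⟨Finset.mem_product.2 ⟨hfl _ hz1, hfl _ hz2⟩, Finset.mem_univ _⟩
      · refine ⟨(sq N z, true), ?_, hc0⟩
        exact Finset.mem_product.2 ⟨Finset.mem_product.2 ⟨hfl _ hz1, hfl _ hz2⟩, Finset.mem_univ _⟩
    · rintro ⟨a, b⟩ -
      cases b
      · refine StrictMonoOn.mono ?_ Set.inter_subset_left
        refine strict_piece (c' := h (zc N a)) (δ := DD h 0 (zc N a)) (ε := DD h 2 (zc N a)) (flow a)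
          (fun z hz => hur z _ (dlow a z hz)) (hf.1 (zc N a)) ?_ y
        have := hf'.1 (zc N a)
        rwa [low, hf'def, XX_add, XX_add] at this
      · refine StrictMonoOn.mono ?_ Set.inter_subset_left
        refine strict_piece (c' := h (zc N a)) (δ := DD h 2 (zc N a)) (ε := DD h 1 (zc N a)) (fupp a)
          (fun z hz => hur z _ (dupp a z hz)) (hf.2 (zc N a)) ?_ y
        have := hf'.2 (zc N a)
        rwa [upp, hf'def, XX_add, XX_add] at this
  -- the map `Ψ`
  set Ψ : P → P := fun y => y + u (Φ.symm y) • D with hΨ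
  have hΨc : Continuous Ψ := continuous_id.add ((huc.comp Φ.symm.continuous).smul continuous_const)
  have hline : ∀ (y : P) (t : ℝ), Ψ (y + t • D) = y + (t + u (Φ.symm (y + t • D))) • D := by
    intro y t
    simp only [hΨ]
    module
  have hinj : Function.Injective Ψ := by
    intro y1 y2 h12
    have e1 : y2 = y1 + (u (Φ.symm y1) - u (Φ.symm y2)) • D := by
      have h12' : y1 + u (Φ.symm y1) • D = y2 + u (Φ.symm y2) • D := h12
      generalize u (Φ.symm y1) = a1 at h12' ⊢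
      generalize u (Φ.symm y2) = a2 at h12' ⊢
      have e0 : y2 = (y2 + a2 • D) - a2 • D := by abel
      rw [e0, ← h12']; module
    set t0 := u (Φ.symm y1) - u (Φ.symm y2) with ht0
    have e2 : (fun t : ℝ => t + u (Φ.symm (y1 + t • D))) 0 =
        (fun t : ℝ => t + u (Φ.symm (y1 + t • D))) t0 := by
      show 0 + u (Φ.symm (y1 + (0 : ℝ) • D)) = t0 + u (Φ.symm (y1 + t0 • D))
      rw [← e1, zero_smul, add_zero, ht0]; ring
    have e3 := (gmono y1).injective e2
    rw [e1, ← e3, zero_smul, add_zero]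
  have hsurj : Function.Surjective Ψ := by
    intro y
    have h1 : -B + u (Φ.symm (y + (-B) • D)) ≤ 0 := by
      have := (abs_le.1 (hB (Φ.symm (y + (-B) • D)))).2
      linarith
    have h2 : 0 ≤ B + u (Φ.symm (y + B • D)) := by
      have := (abs_le.1 (hB (Φ.symm (y + B • D)))).1
      linarith
    have hB0 : 0 ≤ B := le_trans (abs_nonneg _) (hB 0)
    have := intermediate_value_Icc (by linarith : -B ≤ B) (gcont y).continuousOn
    obtain ⟨t, -, ht⟩ := this ⟨h1, h2⟩
    refine ⟨y + t • D, ?_⟩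
    rw [hline]
    have ht' : t + u (Φ.symm (y + t • D)) = 0 := ht
    rw [ht', zero_smul, add_zero]
  obtain ⟨Ψh, hΨh⟩ := hBdd Ψ hΨc ⟨hinj, hsurj⟩ ⟨B * ‖D‖, fun z => by
    have e : Ψ z - z = u (Φ.symm z) • D := by simp only [hΨ]; abel
    rw [dist_eq_norm, e, norm_smul, Real.norm_eq_abs]
    exact mul_le_mul_of_nonneg_right (hB _) (norm_nonneg _)⟩
  refine ⟨Φ.trans Ψh, ?_⟩
  funext z
  show Ψh (Φ z) = PLm f' z
  rw [hΨh, hw z]
  simp only [hΨ]
  rw [Homeomorph.symm_apply_apply, hΦ]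

end Pool.Agent.MPe54d61.TC
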