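import Pool.Agent.Lib.MP_e54d61_gt.TC.SpecE

/-!
# MP_e54d61_gt, torus case, part E: chains for the second kind of edges of the graph
-/

set_option autoImplicit false

namespace Pool.Agent.MPe54d61.TC

open SimpleGraph Filter Topology MatrixGroups

private theorem LnkR_nil {V M : Type} [AddCommGroup M] {Γ : SimpleGraph V} {κ : V → V → M}
    {A : Set (Sym2 V)} (hA : EC Γ κ A) : Lk Γ κ 0 A A :=
  ⟨fun _ => A, rfl, rfl, fun _ _ => hA, fun i hi => absurd hi (Nat.not_lt_zero i)⟩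

private theorem LnkR_cons {V M : Type} [AddCommGroup M] {Γ : SimpleGraph V} {κ : V → V → M}
    {A B C : Set (Sym2 V)} {n : ℕ} (hA : EC Γ κ A) (hAB : RR Γ κ A B) (h : Lk Γ κ n B C) :
    Lk Γ κ (n + 1) A C := by
  obtain ⟨c, h0, hn, hE, hR⟩ := h
  refine ⟨fun i => Nat.casesOn i A c, rfl, hn, fun i hi => ?_, fun i hi => ?_⟩
  · cases i with
    | zero => exact hA
    | succ i => exact hE i (Nat.le_of_succ_le_succ hi)
  · cases i with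
    | zero =>
      show RR Γ κ A (c 0)
      rw [h0]
      exact hAB
    | succ i => exact hR i (Nat.lt_of_succ_lt_succ hi)

private theorem LnkR_pr_open : IsOpenMap pr := by
  have h1 : IsOpenMap ((↑) : ℝ → Ci) := QuotientAddGroup.isOpenMap_coe
  exact h1.prodMap h1

private theorem LnkR_an_open (x : X) (a w : ℝ) : IsOpen (mm x '' an a w) := by
  have h1 : an a w = pr '' {z : P | |z.1 - a| < w} := by
    ext z
    constructor
    · rintro ⟨s, t, h, rfl⟩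
      exact ⟨(s, t), h, rfl⟩
    · rintro ⟨⟨s, t⟩, h, rfl⟩
      exact ⟨s, t, h, rfl⟩
  rw [h1]
  refine (mm x).isOpenMap _ (LnkR_pr_open _ ?_)
  exact isOpen_lt ((continuous_fst.sub continuous_const).abs) continuous_const

private theorem LnkR_bn_open (x : X) (a w : ℝ) : IsOpen (mm x '' bn a w) := by
  have h1 : bn a w = pr '' {z : P | |z.2 - a| < w} := by
    ext z
    constructor
    · rintro ⟨s, t, h, rfl⟩
      exact ⟨(s, t), h, rfl⟩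
    · rintro ⟨⟨s, t⟩, h, rfl⟩
      exact ⟨s, t, h, rfl⟩
  rw [h1]
  refine (mm x).isOpenMap _ (LnkR_pr_open _ ?_)
  exact isOpen_lt ((continuous_snd.sub continuous_const).abs) continuous_const

private theorem LnkR_coe {s s' : ℝ} (h : (s : Ci) = (s' : Ci)) : ∃ n : ℤ, s' = s + n := by
  rw [QuotientAddGroup.eq, AddSubgroup.mem_zmultiples_iff] at h
  obtain ⟨n, hn⟩ := h
  refine ⟨n, ?_⟩
  rw [zsmul_one] at hn
  rw [hn]
  ring

private theorem LnkR_int {s s' u v : ℝ} (h : (s : Ci) = (s' : Ci)) (h1 : |s| < u)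
    (h2 : |s' - 1 / 2| < v) (huv : u + v ≤ 1 / 2) : False := by
  obtain ⟨n, rfl⟩ := LnkR_coe h
  rw [abs_lt] at h1 h2
  have h3 : (0 : ℝ) < n := by linarith [h1.1, h1.2, h2.1, h2.2]
  have h4 : (n : ℝ) < 1 := by linarith [h1.1, h1.2, h2.1, h2.2]
  have h5 : (0 : ℤ) < n := by exact_mod_cast h3
  have h6 : n < (1 : ℤ) := by exact_mod_cast h4
  omega

private theorem LnkR_dis_an (x : X) :
    Disjoint (mm x '' an 0 (3 / 8)) (mm x '' an (1 / 2) (1 / 8)) := by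
  rw [Set.disjoint_image_iff (mm x).injective, Set.disjoint_left]
  rintro z ⟨s, t, h, rfl⟩ ⟨s', t', h', he⟩
  have h1 : (s : Ci) = (s' : Ci) := congrArg Prod.fst he
  rw [sub_zero] at h
  exact LnkR_int h1 h h' (by norm_num)

private theorem LnkR_dis_bn (x : X) :
    Disjoint (mm x '' bn 0 (1 / 4)) (mm x '' bn (1 / 2) (1 / 4)) := by
  rw [Set.disjoint_image_iff (mm x).injective, Set.disjoint_left]
  rintro z ⟨s, t, h, rfl⟩ ⟨s', t', h', he⟩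
  have h1 : (t : Ci) = (t' : Ci) := congrArg Prod.snd he
  rw [sub_zero] at h
  exact LnkR_int h1 h h' (by norm_num)

private theorem LnkR_cur (x : X) (t : ℝ) : mm x (pr (0, t)) ∈ cur x :=
  ⟨(t : Ci), by show (x.1 : T ≃ₜ T) (mat x.2 (((0 : ℝ) : Ci), (t : Ci))) = _; norm_num⟩

private theorem LnkR_Jm {x y : X} (h1 : x.1 = y.1) (h2 : y.2 = x.2 * Jm) (t : ℝ) :
    mm y (pr (0, t)) = mm x (pr (-t, 0)) := by
  show (y.1 : T ≃ₜ T) (mat y.2 (((0 : ℝ) : Ci), (t : Ci))) =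
    (x.1 : T ≃ₜ T) (mat x.2 (((-t : ℝ) : Ci), ((0 : ℝ) : Ci)))
  rw [h1, h2]
  congr 1
  have e0 : ((x.2 * Jm : SL(2, ℤ)) 0 1) = - x.2 0 0 := by
    simp [Matrix.SpecialLinearGroup.coe_mul, Matrix.mul_apply, Fin.sum_univ_two, Jm]
  have e1 : ((x.2 * Jm : SL(2, ℤ)) 1 1) = - x.2 1 0 := by
    simp [Matrix.SpecialLinearGroup.coe_mul, Matrix.mul_apply, Fin.sum_univ_two, Jm]
  show (_ • ((0 : ℝ) : Ci) + ((x.2 * Jm : SL(2, ℤ)) 0 1) • (t : Ci),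
    _ • ((0 : ℝ) : Ci) + ((x.2 * Jm : SL(2, ℤ)) 1 1) • (t : Ci)) =
    (x.2 0 0 • ((-t : ℝ) : Ci) + _ • ((0 : ℝ) : Ci), x.2 1 0 • ((-t : ℝ) : Ci) + _ • ((0 : ℝ) : Ci))
  rw [e0, e1]
  simp

private theorem LnkR_ge {N k : ℕ} (hN : 3 ≤ N) (M : ℕ) (hk : M ≤ k) : M ≤ k * N :=
  hk.trans (Nat.le_mul_of_pos_right k (by omega))

theorem tLnkR (hGeoC : S_GeoC) (hGeoV : S_GeoV) (hPixX : S_PixX) (hSubB : S_SubB)
    (hSubG : S_SubG) (hCross : S_Cross) : S_LnkR := by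
  intro x y hxy hyx N hN A B hA hB hxA hyB
  obtain ⟨n1, h1⟩ := hPixX x 0 ((geo N A)ᶜ ∩ mm x '' an 0 (3 / 8))
    ((hGeoC N (by omega) A).isOpen_compl.inter (LnkR_an_open x _ _))
    fun t => ⟨Set.disjoint_left.1 hxA (LnkR_cur x t), ⟨_, ⟨0, t, by norm_num, rfl⟩, rfl⟩⟩
  obtain ⟨n2, h2⟩ := hPixX y 0 ((geo N B)ᶜ ∩ mm x '' bn 0 (1 / 4))
    ((hGeoC N (by omega) B).isOpen_compl.inter (LnkR_bn_open x _ _))
    fun t => ⟨Set.disjoint_left.1 hyB (LnkR_cur y t), ⟨_, ⟨-t, 0, by norm_num, rfl⟩,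
      (LnkR_Jm hxy hyx t).symm⟩⟩
  obtain ⟨n3, h3⟩ := hCross x
  have hk : 1 ≤ n1 + n2 + n3 + 1 := by omega
  have hkN : 3 ≤ (n1 + n2 + n3 + 1) * N := hN.trans (Nat.le_mul_of_pos_left N (by omega))
  obtain ⟨Q, hQ, hQW⟩ := h1 _ (LnkR_ge hN n1 (by omega : n1 ≤ n1 + n2 + n3 + 1))
  obtain ⟨Q', hQ', hQW'⟩ := h2 _ (LnkR_ge hN n2 (by omega : n2 ≤ n1 + n2 + n3 + 1))
  obtain ⟨C, C1, C', hC, hC1, hC', hCW, hCW', hCC1, hCC'⟩ :=
    h3 _ (LnkR_ge hN n3 (by omega : n3 ≤ n1 + n2 + n3 + 1))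
  have hsA := (hSubB N (n1 + n2 + n3 + 1) hN hk A A A).1 hA
  have hsB := (hSubB N (n1 + n2 + n3 + 1) hN hk B B B).1 hB
  have hgA := hSubG N (n1 + n2 + n3 + 1) hN hk A
  have hgB := hSubG N (n1 + n2 + n3 + 1) hN hk B
  refine ⟨n1 + n2 + n3 + 1, hk, 6, le_rfl, ?_⟩
  refine LnkR_cons hsA (Or.inr (Or.inl (hGeoV _ hkN _ _ hsA hQ ?_))) ?_
  · rw [Set.disjoint_left]
    exact fun z hz hz' => (hQW hz').1 (hgA hz)
  refine LnkR_cons hQ (Or.inr (Or.inl (hGeoV _ hkN _ _ hQ hC ?_))) ?_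
  · exact (LnkR_dis_an x).mono (fun z hz => (hQW hz).2) hCW
  refine LnkR_cons hC hCC1 (LnkR_cons hC1 hCC' ?_)
  refine LnkR_cons hC' (Or.inr (Or.inl (hGeoV _ hkN _ _ hC' hQ' ?_))) ?_
  · exact (LnkR_dis_bn x).symm.mono hCW' (fun z hz => (hQW' hz).2)
  refine LnkR_cons hQ' (Or.inr (Or.inl (hGeoV _ hkN _ _ hQ' hsB ?_))) (LnkR_nil hsB)
  rw [Set.disjoint_left]
  exact fun z hz hz' => (hQW' hz).1 (hgB hz')

end Pool.Agent.MPe54d61.TC
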