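import Pool.Agent.Lib.MP_e54d61_gt.TC.Fin

/-!
# MP_e54d61_gt, torus case: the flow length is bounded by the displacement at every vertex
-/

set_option autoImplicit false

namespace Pool.Agent.MPe54d61.TC

open Filter Topology MatrixGroups Abs

/-- For every vertex `x` of `Gr`: `nu g ≤ 12 * (1 + dist x (g x))`. -/
theorem nu_all (hNu : S_Nu) (hc : Gr.Connected) (x : X) (g : GT) :
    nu g ≤ 12 * (1 + Gr.dist x (g • x)) := by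
  obtain ⟨w, hw⟩ := hc.exists_walk_length_eq_dist x (g • x)
  have h1 := hNu _ _ w
  have e : ((x.1 : T ≃ₜ T)⁻¹ * ((g • x : X).1 : T ≃ₜ T)) =
      (x.1 : T ≃ₜ T)⁻¹ * (g : T ≃ₜ T) * ((x.1 : T ≃ₜ T)⁻¹)⁻¹ := by
    show (x.1 : T ≃ₜ T)⁻¹ * ((g * x.1 : GT) : T ≃ₜ T) = _
    rw [inv_inv]
    rfl
  have h2 : FL (12 * w.length) ((x.1 : T ≃ₜ T)⁻¹ * (g : T ≃ₜ T) * ((x.1 : T ≃ₜ T)⁻¹)⁻¹) := by
    rw [← e]
    exact h1
  have h3 := fl_conj h2 (x.1 : T ≃ₜ T)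
  have e2 : (x.1 : T ≃ₜ T) * ((x.1 : T ≃ₜ T)⁻¹ * (g : T ≃ₜ T) * ((x.1 : T ≃ₜ T)⁻¹)⁻¹) *
      (x.1 : T ≃ₜ T)⁻¹ = (g : T ≃ₜ T) := by group
  rw [e2] at h3
  refine (nu_le h3).trans ?_
  rw [hw]
  exact Nat.mul_le_mul_left _ (by omega)

end Pool.Agent.MPe54d61.TC
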