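import Pool.Agent.Lib.MP_e54d61_gt.TC.SpecH

/-!
# MP_e54d61_gt, torus case: the energy estimate for pairs of cycles
-/

set_option autoImplicit false

namespace Pool.Agent.MPe54d61.TC

namespace PairEAux

variable {N : ℕ}

theorem int_cases {s : ℤ} (h : |s| ≤ 1) : s = -1 ∨ s = 0 ∨ s = 1 := by
  have := abs_le.1 h
  omega

theorem cs [NeZero N] (s : Fin 3 → VN N → ℤ) (hs : ∀ k p, |s k p| ≤ 1) (x : Fin 3 → VN N → ℝ) :
    (∑ k, ∑ p, (s k p : ℝ) * x k p) ^ 2 ≤
      (∑ k, ∑ p, |(s k p : ℝ)|) * ∑ k, ∑ p, |(s k p : ℝ)| * x k p ^ 2 := by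
  have h := Finset.sum_mul_sq_le_sq_mul_sq (Finset.univ : Finset (Fin 3 × VN N))
    (fun e => (s e.1 e.2 : ℝ)) (fun e => |(s e.1 e.2 : ℝ)| * x e.1 e.2)
  have e1 : ∀ e : Fin 3 × VN N, (s e.1 e.2 : ℝ) * (|(s e.1 e.2 : ℝ)| * x e.1 e.2) =
      (s e.1 e.2 : ℝ) * x e.1 e.2 := fun e => by
    rcases int_cases (hs e.1 e.2) with h | h | h <;> simp [h]
  have e2 : ∀ e : Fin 3 × VN N, (s e.1 e.2 : ℝ) ^ 2 = |(s e.1 e.2 : ℝ)| := fun e => by
    rcases int_cases (hs e.1 e.2) with h | h | h <;> simp [h]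
  have e3 : ∀ e : Fin 3 × VN N, (|(s e.1 e.2 : ℝ)| * x e.1 e.2) ^ 2 =
      |(s e.1 e.2 : ℝ)| * x e.1 e.2 ^ 2 := fun e => by
    rcases int_cases (hs e.1 e.2) with h | h | h <;> simp [h]
  simp only [e1, e2, e3] at h
  rw [Fintype.sum_prod_type, Fintype.sum_prod_type, Fintype.sum_prod_type] at h
  exact h

theorem single [NeZero N] (F : Fin 3 → VN N → ℝ) (hF : ∀ k p, 0 ≤ F k p) (k : Fin 3) (p : VN N) :
    F k p ≤ ∑ k, ∑ p, F k p := by
  refine le_trans ?_ (Finset.single_le_sum (f := fun k => ∑ p, F k p)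
    (fun k _ => Finset.sum_nonneg fun p _ => hF k p) (Finset.mem_univ k))
  exact Finset.single_le_sum (f := fun p => F k p) (fun p _ => hF k p) (Finset.mem_univ p)

theorem sum_nn (F : Fin 3 → VN N → ℝ) [NeZero N] (hF : ∀ k p, 0 ≤ F k p) :
    0 ≤ ∑ k, ∑ p, F k p :=
  Finset.sum_nonneg fun k _ => Finset.sum_nonneg fun p _ => hF k p

theorem dt_XX (l : ℤ × ℤ) (f : VN N → P) (k : Fin 3) (p : VN N) :
    dt (iv l) (XX f k p) = DU l (fun q => dt (iv l) (f q)) k p := by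
  simp only [XX, DU, dt_add_right, dt_sub_right]

/-- the final real estimate -/
theorem fin_est {M η n C D S A B t ns ε δ : ℝ} (hM : 1 ≤ M) (hn : 1 ≤ n) (hC : 0 ≤ C)
    (hS : 0 ≤ S) (hns : 0 ≤ ns) (hε : 0 < ε) (hδ : 0 < δ)
    (hD : D = η ^ 2 / n + C) (hδ2 : δ = ε ^ 2 / (4 * (|η| + 1)))
    (h1 : M ^ 2 * S + M * A + M * B ≤ M * (η ^ 2 / n) + C)
    (ht : t ^ 2 ≤ ns * S) (hB : (η - t) ^ 2 ≤ n * B) (hA : 0 ≤ A)
    (m1 : D / ε ^ 2 ≤ M) (m2 : 2 * C / ε ^ 2 ≤ M) (m3 : ns * D / δ ^ 2 ≤ M) :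
    S ≤ ε ^ 2 ∧ A ≤ ε ^ 2 := by
  have hM0 : 0 < M := by linarith
  have hn0 : 0 < n := by linarith
  have hε2 : 0 < ε ^ 2 := by positivity
  have hδ22 : 0 < δ ^ 2 := by positivity
  have hB0 : 0 ≤ B := by
    by_contra hcon
    push Not at hcon
    nlinarith [sq_nonneg (η - t)]
  have hMS : M * S ≤ D := by
    have h2 : M ^ 2 * S ≤ M * D := by
      rw [hD]
      nlinarith [mul_nonneg hM0.le hA, mul_nonneg hM0.le hB0]
    have h3 : M * (M * S) ≤ M * D := by nlinarith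
    exact le_of_mul_le_mul_left h3 hM0
  have hS1 : S ≤ ε ^ 2 := by
    rw [div_le_iff₀ hε2] at m1
    have : M * S ≤ M * ε ^ 2 := by linarith
    exact le_of_mul_le_mul_left this hM0
  refine ⟨hS1, ?_⟩
  have ht2 : t ^ 2 ≤ δ ^ 2 := by
    rw [div_le_iff₀ hδ22] at m3
    have h2 : M * t ^ 2 ≤ M * δ ^ 2 := by
      calc M * t ^ 2 ≤ M * (ns * S) := mul_le_mul_of_nonneg_left ht hM0.le
        _ = ns * (M * S) := by ring
        _ ≤ ns * D := mul_le_mul_of_nonneg_left hMS hns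
        _ ≤ M * δ ^ 2 := m3
    exact le_of_mul_le_mul_left h2 hM0
  have ht3 : |t| ≤ δ := abs_le_of_sq_le_sq ht2 hδ.le
  have hη : 2 * |η| * |t| ≤ ε ^ 2 / 2 := by
    have h4 : 2 * |η| * |t| ≤ 2 * |η| * δ := mul_le_mul_of_nonneg_left ht3 (by positivity)
    have h5 : 2 * |η| * δ ≤ ε ^ 2 / 2 := by
      have h6 : 4 * (|η| + 1) * δ = ε ^ 2 := by
        rw [hδ2]; field_simp
      nlinarith [abs_nonneg η]
    linarith
  have hB2 : η ^ 2 / n - 2 * |η| * |t| ≤ B := by
    have h7 : η ^ 2 - 2 * |η| * |t| ≤ n * B := by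
      have h8 : η * t ≤ |η| * |t| := by rw [← abs_mul]; exact le_abs_self _
      nlinarith [sq_nonneg t]
    have h9 : (η ^ 2 - 2 * |η| * |t|) / n ≤ B := by
      rw [div_le_iff₀ hn0]; linarith
    have h10 : 2 * |η| * |t| / n ≤ 2 * |η| * |t| := by
      apply div_le_self (by positivity) hn
    rw [sub_div] at h9
    linarith
  have h11 : M * A ≤ C + M * (ε ^ 2 / 2) := by
    have h12 : M * (η ^ 2 / n - 2 * |η| * |t|) ≤ M * B := mul_le_mul_of_nonneg_left hB2 hM0.le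
    have h13 : M * (2 * |η| * |t|) ≤ M * (ε ^ 2 / 2) := mul_le_mul_of_nonneg_left hη hM0.le
    have h14 : 0 ≤ M ^ 2 * S := by positivity
    have h15 : M * (η ^ 2 / n - 2 * |η| * |t|) = M * (η ^ 2 / n) - M * (2 * |η| * |t|) := by ring
    linarith
  have h16 : C ≤ M * (ε ^ 2 / 2) := by
    rw [div_le_iff₀ hε2] at m2
    linarith
  have h17 : M * A ≤ M * ε ^ 2 := by
    have : M * (ε ^ 2 / 2) + M * (ε ^ 2 / 2) = M * ε ^ 2 := by ring
    linarith
  exact le_of_mul_le_mul_left h17 hM0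

end PairEAux

open PairEAux

theorem tPairE (hEnergy : S_Energy) (hCycSum : S_CycSum) : S_PairE := by
  intro N _ σ α β κ l u h1 h2 h3 h4 h5 ε hε
  set η : ℝ := dt (iv l) (iv κ) with hη
  set n : ℝ := ∑ k, ∑ p, |(β k p : ℝ)| with hn
  set ns : ℝ := ∑ k, ∑ p, |(σ k p : ℝ)| with hns
  set C : ℝ := ∑ k, ∑ p, DU l u k p ^ 2 with hC
  have hs1 : ∀ k p, |σ k p| ≤ 1 := fun k p => by
    have := h1 k p; have := abs_nonneg (α k p); have := abs_nonneg (β k p); linarith
  have hb1 : ∀ k p, |β k p| ≤ 1 := fun k p => by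
    have := h1 k p; have := abs_nonneg (α k p); have := abs_nonneg (σ k p); linarith
  have ha1 : ∀ k p, |α k p| ≤ 1 := fun k p => by
    have := h1 k p; have := abs_nonneg (β k p); have := abs_nonneg (σ k p); linarith
  have hn1 : 1 ≤ n := by
    obtain ⟨k, p, hkp⟩ := h2
    refine le_trans ?_ (single (fun k p => |(β k p : ℝ)|) (fun _ _ => abs_nonneg _) k p)
    rcases int_cases (hb1 k p) with h | h | h
    · simp [h]
    · exact absurd h hkp
    · simp [h]
  have hn0 : n ≠ 0 := by positivity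
  have hns0 : 0 ≤ ns := sum_nn _ fun _ _ => abs_nonneg _
  have hC0 : 0 ≤ C := sum_nn _ fun _ _ => sq_nonneg _
  set D : ℝ := η ^ 2 / n + C with hD
  have hD0 : 0 ≤ D := by positivity
  set δ : ℝ := ε ^ 2 / (4 * (|η| + 1)) with hδ
  have hδ0 : 0 < δ := by positivity
  have q1 : 0 ≤ D / ε ^ 2 := by positivity
  have q2 : 0 ≤ 2 * C / ε ^ 2 := by positivity
  have q3 : 0 ≤ ns * D / δ ^ 2 := by positivity
  refine ⟨1 + D / ε ^ 2 + 2 * C / ε ^ 2 + ns * D / δ ^ 2, by linarith, ?_⟩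
  intro M hM f hf
  have hM1 : 1 ≤ M := by linarith
  have hM0 : 0 < M := by linarith
  set x : Fin 3 → VN N → ℝ := fun k p => dt (iv l) (XX f k p) with hx
  have hwpos : ∀ k p, 0 < wt M σ α β k p := fun k p => by
    unfold wt; split_ifs <;> positivity
  have hE := hEnergy N inferInstance (wt M σ α β) hwpos f hf l u
  -- upper bound of the energy of the multivalued function
  have hup : ∑ k, ∑ p, wt M σ α β k p * DU l u k p ^ 2 ≤ M * (η ^ 2 / n) + C := by
    have hpt : ∀ k p, wt M σ α β k p * DU l u k p ^ 2 ≤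
        M * (η ^ 2 / n ^ 2) * |(β k p : ℝ)| + DU l u k p ^ 2 := fun k p => by
      by_cases hsa : σ k p ≠ 0 ∨ α k p ≠ 0
      · rw [h4 k p hsa]
        have : 0 ≤ M * (η ^ 2 / n ^ 2) * |(β k p : ℝ)| := by positivity
        simpa using this
      · push Not at hsa
        obtain ⟨hsa1, hsa2⟩ := hsa
        by_cases hb : β k p = 0
        · have hw : wt M σ α β k p = 1 := by simp [wt, hsa1, hsa2, hb]
          rw [hw, hb]; simp
        · have hw : wt M σ α β k p = M := by simp [wt, hsa1, hb]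
          have hDU : DU l u k p = η * (β k p : ℝ) / n := by
            have := h5 k p hb
            rw [eq_div_iff hn0]; linarith
          have hbb : (β k p : ℝ) ^ 2 = |(β k p : ℝ)| := by
            rcases int_cases (hb1 k p) with h | h | h <;> simp [h]
          have h6 : wt M σ α β k p * DU l u k p ^ 2 = M * (η ^ 2 / n ^ 2) * |(β k p : ℝ)| := by
            rw [hw, hDU, div_pow, mul_pow, hbb]; ring
          rw [h6]
          have := sq_nonneg (DU l u k p)
          linarith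
    calc ∑ k, ∑ p, wt M σ α β k p * DU l u k p ^ 2
        ≤ ∑ k, ∑ p, (M * (η ^ 2 / n ^ 2) * |(β k p : ℝ)| + DU l u k p ^ 2) :=
          Finset.sum_le_sum fun k _ => Finset.sum_le_sum fun p _ => hpt k p
      _ = M * (η ^ 2 / n ^ 2) * n + C := by
          simp only [Finset.sum_add_distrib, ← Finset.mul_sum]
          rw [hn, hC]
      _ = M * (η ^ 2 / n) + C := by
          field_simp
  -- lower bound of the energy of the harmonic map
  have hlow : M ^ 2 * (∑ k, ∑ p, |(σ k p : ℝ)| * x k p ^ 2) +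
      M * (∑ k, ∑ p, |(α k p : ℝ)| * x k p ^ 2) +
      M * (∑ k, ∑ p, |(β k p : ℝ)| * x k p ^ 2) ≤
      ∑ k, ∑ p, wt M σ α β k p * x k p ^ 2 := by
    simp only [Finset.mul_sum, ← Finset.sum_add_distrib]
    refine Finset.sum_le_sum fun k _ => Finset.sum_le_sum fun p _ => ?_
    have hxx := sq_nonneg (x k p)
    have h11 := h1 k p
    have hMM : 0 ≤ M ^ 2 * x k p ^ 2 := by positivity
    have hM' : 0 ≤ M * x k p ^ 2 := by positivity
    rcases int_cases (hs1 k p) with hs | hs | hs <;>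
    rcases int_cases (ha1 k p) with ha | ha | ha <;>
    rcases int_cases (hb1 k p) with hb | hb | hb <;>
    rw [hs, ha, hb] at h11 <;>
    first
    | (exfalso; revert h11; decide)
    | (simp [wt, hs, ha, hb]; done)
    | (simp [wt, hs, ha, hb]; positivity)
  have hcyc : ∑ k, ∑ p, ((σ k p : ℝ) + (β k p : ℝ)) * x k p = η := by
    have := hCycSum N inferInstance (fun k p => σ k p + β k p) κ h3 l (fun q => dt (iv l) (f q))
    rw [← hη] at this
    rw [← this]
    refine Finset.sum_congr rfl fun k _ => Finset.sum_congr rfl fun p _ => ?_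
    rw [hx]
    simp only [dt_XX]
    push_cast
    ring
  have hB : (η - ∑ k, ∑ p, (σ k p : ℝ) * x k p) ^ 2 ≤
      n * ∑ k, ∑ p, |(β k p : ℝ)| * x k p ^ 2 := by
    have h6 : η - ∑ k, ∑ p, (σ k p : ℝ) * x k p = ∑ k, ∑ p, (β k p : ℝ) * x k p := by
      rw [← hcyc]
      simp only [add_mul, Finset.sum_add_distrib]
      ring
    rw [h6]
    exact cs β hb1 x
  have hfin := fin_est (M := M) (η := η) (n := n) (C := C) (D := D)
    (S := ∑ k, ∑ p, |(σ k p : ℝ)| * x k p ^ 2) (A := ∑ k, ∑ p, |(α k p : ℝ)| * x k p ^ 2)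
    (B := ∑ k, ∑ p, |(β k p : ℝ)| * x k p ^ 2) (t := ∑ k, ∑ p, (σ k p : ℝ) * x k p)
    (ns := ns) (ε := ε) (δ := δ) hM1 hn1 hC0
    (sum_nn _ fun _ _ => mul_nonneg (abs_nonneg _) (sq_nonneg _)) hns0 hε hδ0 hD hδ
    (le_trans hlow (le_trans hE hup)) (cs σ hs1 x) hB
    (sum_nn _ fun _ _ => mul_nonneg (abs_nonneg _) (sq_nonneg _))
    (by linarith) (by linarith) (by linarith)
  intro k p hkp
  have hsq : x k p ^ 2 ≤ ε ^ 2 := by
    rcases hkp with hs | ha
    · have h6 := single (fun k p => |(σ k p : ℝ)| * x k p ^ 2)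
        (fun _ _ => mul_nonneg (abs_nonneg _) (sq_nonneg _)) k p
      have h7 : |(σ k p : ℝ)| = 1 := by
        rcases int_cases (hs1 k p) with h | h | h
        · simp [h]
        · exact absurd h hs
        · simp [h]
      simp only [h7, one_mul] at h6
      exact le_trans h6 hfin.1
    · have h6 := single (fun k p => |(α k p : ℝ)| * x k p ^ 2)
        (fun _ _ => mul_nonneg (abs_nonneg _) (sq_nonneg _)) k p
      have h7 : |(α k p : ℝ)| = 1 := by
        rcases int_cases (ha1 k p) with h | h | h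
        · simp [h]
        · exact absurd h ha
        · simp [h]
      simp only [h7, one_mul] at h6
      exact le_trans h6 hfin.2
  exact abs_le_of_sq_le_sq hsq hε.le

end Pool.Agent.MPe54d61.TC
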