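import Pool.Agent.Lib.MP_e54d61_gt.TC.SpecP

/-!
# MP_e54d61_gt, torus case: potentials on a vertical annulus
-/

set_option autoImplicit false

namespace Pool.Agent.MPe54d61.TC

open SimpleGraph

theorem tPotA (hLft : S_Lft) : S_PotA := by
  intro x a N hN
  let Λ : AddSubgroup (ℤ × ℤ) :=
    { carrier := {v | v.1 = 0}
      zero_mem' := rfl
      add_mem' := by
        intro v w hv hw
        simp only [Set.mem_setOf_eq] at hv hw ⊢
        rw [Prod.fst_add, hv, hw, add_zero]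
      neg_mem' := by
        intro v hv
        simp only [Set.mem_setOf_eq] at hv ⊢
        rw [Prod.fst_neg, hv, neg_zero] }
  have hΛ : ∀ v : ℤ × ℤ, v ∈ Λ ↔ v.1 = 0 := fun v => Iff.rfl
  have hiv : ∀ v : ℤ × ℤ, (iv v).1 = (v.1 : ℝ) := fun v => rfl
  have hS : IsOpen {z : P | |z.1 - a| < 1 / 2} :=
    isOpen_lt ((continuous_fst.sub continuous_const).abs) continuous_const
  obtain ⟨φ, hφ⟩ := hLft x {z : P | |z.1 - a| < 1 / 2} Λ hS
    (by
      intro v hv z hz
      have h0 : v.1 = 0 := hv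
      simp only [Set.mem_setOf_eq] at hz ⊢
      rw [Prod.fst_add, hiv, h0, Int.cast_zero, add_zero]
      exact hz)
    (by
      intro v z hz hz'
      simp only [Set.mem_setOf_eq] at hz hz'
      rw [Prod.fst_add, hiv] at hz'
      rw [abs_lt] at hz hz'
      have h1 : ((v.1 : ℤ) : ℝ) < 1 := by linarith [hz.1, hz'.2]
      have h2 : (-1 : ℝ) < ((v.1 : ℤ) : ℝ) := by linarith [hz.2, hz'.1]
      have h3 : v.1 < 1 := by exact_mod_cast h1
      have h4 : -1 < v.1 := by exact_mod_cast h2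
      show v.1 = 0
      omega) N hN
  refine ⟨φ, fun u v huv hg => ?_⟩
  have himg : an a (1 / 2) = pr '' {z : P | |z.1 - a| < 1 / 2} := by
    ext z
    constructor
    · rintro ⟨s, t, hs, rfl⟩
      exact ⟨(s, t), hs, rfl⟩
    · rintro ⟨⟨s, t⟩, hs, rfl⟩
      exact ⟨s, t, hs, rfl⟩
  rw [himg] at hg
  obtain ⟨l, hl, he⟩ := hφ u v huv hg
  have h0 : l.1 = 0 := hl
  rw [he, h0, zero_smul, zero_add]
  exact AddSubgroup.zsmul_mem_zmultiples _ _

end Pool.Agent.MPe54d61.TC
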