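import Pool.Agent.Lib.MP_e54d61_gt.TC.SpecH

/-!
# MP_e54d61_gt, torus case, part H: energy estimate for one class
-/

set_option autoImplicit false

namespace Pool.Agent.MPe54d61.TC

open Topology MatrixGroups

theorem tRealE (hEnergy : S_Energy) (hHarmE : S_HarmE) : S_RealE := by
  classical
  intro N hN0 hN K l u hK ε hε
  set C : ℝ := ∑ k, ∑ p, (DU l u k p) ^ 2 with hC
  set M : ℝ := max 1 (C / ε ^ 2) with hM
  have hM1 : 1 ≤ M := le_max_left _ _
  have hM0 : 0 < M := lt_of_lt_of_le one_pos hM1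
  have hCM : C ≤ M * ε ^ 2 := by
    have h1 : C / ε ^ 2 ≤ M := le_max_right _ _
    have h2 : 0 < ε ^ 2 := by positivity
    rwa [div_le_iff₀ h2] at h1
  set w : Fin 3 → VN N → ℝ := fun k p => if K k p then M else 1 with hw
  have hw1 : ∀ k p, 1 ≤ w k p := by
    intro k p
    simp only [hw]
    split_ifs
    · exact hM1
    · exact le_refl _
  obtain ⟨f, hf, hR⟩ := hHarmE N hN0 hN w hw1
  refine ⟨f, hR, fun k p hkp => ?_⟩
  have hE := hEnergy N hN0 w (fun k p => lt_of_lt_of_le one_pos (hw1 k p)) f hf l u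
  have h1 : ∑ k, ∑ p, w k p * DU l u k p ^ 2 ≤ C := by
    rw [hC]
    refine Finset.sum_le_sum fun k _ => Finset.sum_le_sum fun p _ => ?_
    by_cases h : K k p
    · rw [hK k p h]; simp
    · simp only [hw, if_neg h, one_mul]
      exact le_refl _
  have hnn : ∀ k p, 0 ≤ w k p * dt (iv l) (XX f k p) ^ 2 := fun k p =>
    mul_nonneg (le_trans zero_le_one (hw1 k p)) (sq_nonneg _)
  have h2 : w k p * dt (iv l) (XX f k p) ^ 2 ≤ ∑ k, ∑ p, w k p * dt (iv l) (XX f k p) ^ 2 :=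
    calc w k p * dt (iv l) (XX f k p) ^ 2
        ≤ ∑ p, w k p * dt (iv l) (XX f k p) ^ 2 :=
          Finset.single_le_sum (f := fun p => w k p * dt (iv l) (XX f k p) ^ 2)
            (fun p _ => hnn k p) (Finset.mem_univ p)
      _ ≤ ∑ k, ∑ p, w k p * dt (iv l) (XX f k p) ^ 2 :=
          Finset.single_le_sum (f := fun k => ∑ p, w k p * dt (iv l) (XX f k p) ^ 2)
            (fun k _ => Finset.sum_nonneg fun p _ => hnn k p) (Finset.mem_univ k)
  have h3 : w k p = M := by simp only [hw, if_pos hkp]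
  rw [h3] at h2
  have h4 : M * dt (iv l) (XX f k p) ^ 2 ≤ M * ε ^ 2 := h2.trans (hE.trans (h1.trans hCM))
  have h5 : dt (iv l) (XX f k p) ^ 2 ≤ ε ^ 2 := le_of_mul_le_mul_left h4 hM0
  exact abs_le_of_sq_le_sq h5 hε.le

end Pool.Agent.MPe54d61.TC
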