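import Pool.Agent.Lib.MP_e54d61_gt.TC.DefsA

/-!
# MP_e54d61_gt, torus case, part A (the annulus), statements with complete proofs

Every statement `S_X` is proved as `theorem tX : S_X` in the file `TC/X.lean` (first line
`import Pool.Agent.Lib.MP_e54d61_gt.TC.SpecA`, namespace `Pool.Agent.MPe54d61.TC`, auxiliary lemmas private or
with prefix `X_`); the statements named after `Uses` are hypotheses of the theorem, in this order, e.g.
`theorem tY (hX : S_X) : S_Y`. Definitions: `TC/DefsT.lean`, `TC/DefsA.lean` (with the basic facts on `SuppIn`,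
`FL`, `Tr`, `tau`, `GT`). Multiplication of homeomorphisms is composition: `(g * h) z = g (h z)` is `rfl`,
`g⁻¹ z = g.symm z` is `rfl`. `Ci = AddCircle (1 : ℝ)`, `‖(x : Ci)‖ = |x - round x|` (`AddCircle.norm_eq`),
products have the sup norm. `θ y = y / (2 (1 + |y|))` is the homeomorphism of `ℝ` onto `(-1/2, 1/2)` of `jE`;
`|θ y| ≤ 3/8 ↔ |y| ≤ 3`, and `‖(x : Ci)‖ = |x|` for `|x| ≤ 1/2`.
-/

set_option autoImplicit false

namespace Pool.Agent.MPe54d61.TC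

open Topology MatrixGroups

/-! ### Transport -/

/-- **TrEx** (60 lines). Transport of a map with compact support. PROOF. `e (j u) = j (h u)`, `e x = x` for
`x ∉ range j` (`j` is injective). The open sets `range j` and `(j '' K)ᶜ` (`j '' K` is compact, hence closed)
cover `X`; on the first `e` is `j ∘ h ∘ j⁻¹` (`j` is a homeomorphism onto its open range), on the second the
identity. The inverse is the same map for `h⁻¹` (`SuppIn.inv`). -/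
def S_TrEx : Prop := ∀ (U X : Type) (_ : TopologicalSpace U) (_ : TopologicalSpace X) (_ : T2Space X)
  (j : U → X), IsOpenEmbedding j → ∀ K : Set U, IsCompact K → ∀ h : U ≃ₜ U, SuppIn K h →
    ∃ e : X ≃ₜ X, Tr j h e

/-- **TrFl** (80 lines). Transport of a flow with compact support. PROOF. As `TrEx`, on `ℝ × X`, covered by the open
sets `ℝ × range j` and `ℝ × (j '' K)ᶜ`; the group law is checked on `range j` and outside. -/
def S_TrFl : Prop := ∀ (U X : Type) (_ : TopologicalSpace U) (_ : TopologicalSpace X) (_ : T2Space X)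
  (j : U → X), IsOpenEmbedding j → ∀ K : Set U, IsCompact K → ∀ φ : Flow ℝ U,
    (∀ (s : ℝ) (z : U), z ∉ K → φ s z = z) →
    ∃ Φ : Flow ℝ X, (∀ (s : ℝ) (u : U), Φ s (j u) = j (φ s u)) ∧
      ∀ (s : ℝ) (x : X), x ∉ j '' K → Φ s x = x

/-- **TrPu** (60 lines). Pull back. PROOF. `e` maps `j '' K` to itself (`SuppIn.mapsTo`) and is the identity outside,
so it maps `range j` to itself, and so does `e⁻¹`; `h = j⁻¹ ∘ e ∘ j`. -/
def S_TrPu : Prop := ∀ (U X : Type) (_ : TopologicalSpace U) (_ : TopologicalSpace X) (j : U → X),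
  IsOpenEmbedding j → ∀ (K : Set U) (e : X ≃ₜ X), SuppIn (j '' K) e →
    ∃ h : U ≃ₜ U, SuppIn K h ∧ Tr j h e

/-- **jE** (70 lines). PROOF. `y ↦ (θ y : Ci)` is continuous, injective (`|θ y| < 1/2`, so the difference of two
values is an integer only if it is `0`, and `θ` is strictly increasing) and open (`θ` maps the open interval
`(y1, y2)` onto `(θ y1, θ y2)`, and `ℝ → Ci` is an open map); product with the identity of `ℝ`.
`‖(θ y : Ci)‖ = |θ y|`. -/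
def S_jE : Prop := IsOpenEmbedding jE ∧ jE '' B0 = BY

/-- **jq** (60 lines). PROOF. `x ↦ (q x : Ci)` is continuous, injective (`|q x - q x'| < 1`) and open (`q` maps an open
interval onto an open interval, by the intermediate value theorem; `ℝ → Ci` is an open map); product with the
identity of the circle (`IsOpenEmbedding.prodMap`). -/
def S_jq : Prop := ∀ (α : ℝ) (q : ℝ → ℝ), Continuous q → StrictMono q →
  (∀ x, α < q x ∧ q x < α + 1) → IsOpenEmbedding (jq q)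

/-- **Q** (60 lines). PROOF. `q x = x` on `[a, b]`, `q x = c + (a - c) / (1 + (a - x) / (a - c))` for `x ≤ a`,
`q x = d - (d - b) / (1 + (x - b) / (d - b))` for `x ≥ b`. -/
def S_Q : Prop := ∀ a b c d : ℝ, c < a → a ≤ b → b < d → ∃ q : ℝ → ℝ, Continuous q ∧ StrictMono q ∧
  (∀ x, c < q x ∧ q x < d) ∧ (∀ x, a ≤ x → x ≤ b → q x = x) ∧ ∀ t, c < t → t < d → ∃ x, q x = t

/-! ### The swindle -/

/-- **Rad** (130 lines). A radial flow. PROOF. `φ s z = c(s, min ‖z‖ 8) • z`, `c(s, r) = 8 E / (8 - r + r E)`,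
`E = exp (-2 s)`; `c(s, 8) = 1`, the denominator is `> 0` for `0 ≤ r ≤ 8`; for `‖z‖ = r ≤ 8` the new norm is
`r' = 8 r E / (8 - r + r E) ≤ 8`, and `8 - r' = 8 (8 - r) / (8 - r + r E)`, so `c(s', r') c(s, r) = c(s + s', r)`.
For `r ≤ 4` and `s ≥ 0`: `r' ≤ 8 r E / (8 - r) ≤ 2 r E ≤ 8 E`. -/
def S_Rad : Prop := ∃ φ : Flow ℝ P, (∀ (s : ℝ) (z : P), 8 ≤ ‖z‖ → φ s z = z) ∧
  ∀ (s : ℝ) (z : P), 0 ≤ s → ‖z‖ ≤ 4 → ‖φ s z‖ ≤ 8 * Real.exp (-2 * s)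

/-- **Swn** (200 lines). Uses: Rad. PROOF. `t = φ.toHomeomorph 1`; `B0 ⊆ {2 ≤ ‖z‖ ≤ 4}`; `t ^ n` maps `{‖z‖ ≤ 4}` into
`{‖z‖ ≤ 8 exp (-2 n)}`, which is in `{‖z‖ < 2}` for `n ≥ 1`. So the sets `t ^ n B0` (`n ∈ ℕ`) are pairwise disjoint
(apply `t ^ (-n)` to `t ^ n B0 ∩ t ^ m B0`, `n < m`). For `d` supported in `B0` let `Γ d z = t ^ n (d (t ^ (-n) z))` if
`z ∈ t ^ n B0`, `Γ d z = z` if there is no such `n`. `Γ d` maps `t ^ n B0` to itself (`SuppIn.mapsTo`), so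
`Γ d ∘ Γ d' = Γ (d * d')`, `Γ 1 = id`. CONTINUITY: the homeomorphism `g_n = ∏_{k < n} t ^ k d t ^ (-k)` satisfies
`g_n z = Γ d z` unless `z ∈ t ^ k B0` with `k ≥ n`, and then `g_n z = z`; so `‖g_n z - Γ d z‖ ≤ 16 exp (-2 n)` and `Γ d` is
a uniform limit of continuous maps (`TendstoUniformly.continuous`). So `g = Γ d` is a homeomorphism with
inverse `Γ d⁻¹`, supported in `{‖z‖ ≤ 4}`. `t g t⁻¹` acts on `t ^ n B0`, `n ≥ 1`, as `g`, and is the identity elsewhere; so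
`g = d * (t g t⁻¹)` and `g t g⁻¹ t⁻¹ = g (t g t⁻¹)⁻¹ = d`. -/
def S_Swn : Prop := ∀ d : P ≃ₜ P, SuppIn B0 d → ∃ (g : P ≃ₜ P) (φ : Flow ℝ P),
  SuppIn {z | ‖z‖ ≤ 8} g ∧ (∀ (s : ℝ) (z : P), 8 ≤ ‖z‖ → φ s z = z) ∧ d = cm g (φ.toHomeomorph 1)

/-- **SwY** (80 lines). Uses: TrEx, TrFl, TrPu, Swn, jE. PROOF. Pull `d` back to `d'` on the plane, supported in `B0`
(`TrPu`), `d' = cm g' (φ 1)` (`Swn`), transport `g'` and `φ` (`K = closedBall 0 8`, compact); `Tr.mul`, `Tr.inv`,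
`Tr.unique`. The supports are in `jE '' {‖z‖ ≤ 8} ⊆ {|z.1| ≤ 8}`. -/
def S_SwY : Prop := ∀ d : Y ≃ₜ Y, SuppIn BY d → ∃ g t : Y ≃ₜ Y, BS g ∧ CFlow t ∧ d = cm g t

/-- **BxF** (110 lines). Uses: TrEx, TrFl, TrPu, Swn. PROOF. As `SwY` with the open embedding
`j z = (a + θ (3 (z.1 - 3)), b + θ z.2)` of the plane into the torus (see `jE`), `j '' B0 = Bx a b`. The transport of the
flow gives a flow of the torus, `s = g T g⁻¹ T⁻¹` with a time-one map `T`: a conjugate of `T` times `T⁻¹`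
(`tom_conj`, `tom_inv`). -/
def S_BxF : Prop := ∀ (a b : Ci) (s : T ≃ₜ T), SuppIn (Bx a b) s → FL 2 s

/-- **SmF** (20 lines). Uses: BxF. PROOF. If `dist z z0 < 1/4` then `z ∈ Bx z0.1 z0.2` (sup metric). -/
def S_SmF : Prop := ∀ s : T ≃ₜ T, Small (1 / 4) s → FL 2 s

/-! ### Elements of `HY` -/

/-- **Box** (70 lines). PROOF. Let `M' = max M 1` and `k z = ((z.1 - a) / M' + 3, z.2 - b)`, a homeomorphism of `Y` which maps the
box into `BY`; `k d k⁻¹` is supported in `BY` (`SuppIn.conj`, `SuppIn.mono`), so in `HY` (`Subgroup.subset_normalClosure`),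
and `d = k⁻¹ (k d k⁻¹) k`. -/
def S_Box : Prop := ∀ (a M : ℝ) (b : Ci) (d : Y ≃ₜ Y),
  SuppIn {z : Y | |z.1 - a| ≤ M ∧ ‖z.2 - b‖ ≤ 3 / 8} d → d ∈ HY

/-- **Fib** (70 lines). PROOF. Bijective. Continuity of the inverse at `(w, y)`, `w = f (x, y)`: for `ε > 0`,
`f (x - ε, y) < w < f (x + ε, y)`; for `(w', y')` near `(w, y)` one has `f (x - ε, y') < w' < f (x + ε, y')`, so the
preimage is in `(x - ε, x + ε)`. -/
def S_Fib : Prop := ∀ (B : Type) (_ : TopologicalSpace B) (f : ℝ × B → ℝ), Continuous f →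
  (∀ y, StrictMono fun x => f (x, y)) → (∀ y, Function.Surjective fun x => f (x, y)) →
  ∃ H : (ℝ × B) ≃ₜ (ℝ × B), ∀ z, H z = (f z, z.2)

/-- **Xi** (110 lines). Uses: Box, Fib. PROOF. `χ y = min 1 (max 0 (3/2 - 4 ‖y‖))` for `y : Ci`: `χ y = 0` if `‖y‖ ≥ 3/8`, `χ y = 1` if
`‖y‖ ≤ 1/8`. `h1 (x, y) = ((1 - χ y) x + χ y ξ x, y)` is a homeomorphism (`Fib`; a convex combination of two strictly
increasing maps which are the identity for large `|x|`), supported in `{|x| ≤ M, ‖y‖ ≤ 3/8}`, so in `HY` (`Box`, `b = 0`).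
`h2 = h1⁻¹ * xh ξ` is the identity where `χ y = 1` or `|x| ≥ M`, so it is supported in `{|x| ≤ M, ‖y - 1/2‖ ≤ 3/8}`
(`‖y‖ + ‖y - 1/2‖ = 1/2`): in `HY`. -/
def S_Xi : Prop := ∀ ξ : ℝ ≃ₜ ℝ, StrictMono ξ → (∃ M : ℝ, ∀ x, M ≤ |x| → ξ x = x) → xh ξ ∈ HY

/-- **Shift** (70 lines). Uses: Xi. PROOF. We may assume `M ≥ 0`. `R = 2 (|k| + 1)`, `c x = max 0 (min 1 ((M + R - |x|) / R))` is
`1` for `|x| ≤ M`, `0` for `|x| ≥ M + R` and Lipschitz with constant `1 / R`; `ξ x = x + k c x` is strictly increasing,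
continuous and surjective (a homeomorphism: `StrictMono.orderIsoOfSurjective`, `OrderIso.toHomeomorph`). -/
def S_Shift : Prop := ∀ (k : ℤ) (M : ℝ), ∃ t ∈ HY, ∀ z : Y, |z.1| ≤ M → t z = (z.1 + k, z.2)

/-! ### Six flows (Burago, Ivanov, Polterovich) -/

/-- **BipG** (70 lines). Group theory. PROOF. Induction on `l`; `l = []`: everything `1`. `l = (a, b) :: l'`: let `w` be the
product for `l'`; `w ∈ S` and `w = cm A' B' * cm Φ' t` by induction. Take `A = a (t A' t⁻¹)`, `B = b (t B' t⁻¹)`,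
`Φ = w (t Φ' t⁻¹)`. As `a`, `b`, `w` commute with `t y t⁻¹`, `y ∈ S'`: `cm A B = cm a b * (t (cm A' B') t⁻¹)` and
`cm Φ t = w * t (cm Φ' t * w⁻¹) t⁻¹ ...`: precisely `cm Φ t = w (t Φ' t⁻¹) t (t Φ'⁻¹ t⁻¹) w⁻¹ t⁻¹ = w * (t (cm Φ' t) t⁻¹) * (t w⁻¹ t⁻¹)
= w * (t (cm Φ' t * w⁻¹) t⁻¹) = (t (cm Φ' t * w⁻¹) t⁻¹) * w = (t (cm A' B')⁻¹ t⁻¹) * w` (for the fourth equality: `w ∈ S`, and
`cm Φ' t * w⁻¹ = (cm A' B')⁻¹ ∈ S'`). So `cm A B * cm Φ t = cm a b * w`. -/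
def S_BipG : Prop := ∀ (N : Type) (_ : Group N) (t : N) (S S' : Subgroup N), S ≤ S' →
  (∀ x ∈ S', t * x * t⁻¹ ∈ S') → (∀ x ∈ S, ∀ y ∈ S', Commute x (t * y * t⁻¹)) →
  ∀ l : List (N × N), (∀ p ∈ l, p.1 ∈ S ∧ p.2 ∈ S) →
    ∃ A ∈ S', ∃ B ∈ S', ∃ Φ ∈ S', (l.map fun p => cm p.1 p.2).prod = cm A B * cm Φ t

/-- **Dsp** (130 lines). A displacing flow. PROOF. `M1 = |M| + 1`, `R = 2 M1`. On `[-R, R]` the flow
`F s x = R ((R + x) E - (R - x)) / ((R + x) E + (R - x))`, `E = exp (3 s)` (`(R + F) / (R - F) = E (R + x) / (R - x)`; the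
denominator is `> 0`; `F s (± R) = ± R`); on `ℝ`: `x ↦ x - x' + F s x'`, `x' = max (-R) (min x R)`; on `Y`: times the identity.
`F s` is increasing in `x` and in `s`, and `F 1 (-M1) > M1`, because `(R - M1) / (R + M1) = 1/3`, `(R + M1) / (R - M1) = 3` and
`exp 3 > 9`. So for `n ≥ 1`, `|x| ≤ M`: `F n x ≥ F 1 (-M1) > M1 > M`. -/
def S_Dsp : Prop := ∀ M : ℝ, ∃ φ : Flow ℝ Y,
  (∃ M' : ℝ, ∀ (s : ℝ) (z : Y), M' ≤ |z.1| → φ s z = z) ∧
  ∀ (n : ℕ) (z : Y), 1 ≤ n → |z.1| ≤ M → M < (φ (n : ℝ) z).1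

/-- **CFc** (60 lines). PROOF. The image under `k` of the compact set `[-M, M] × Ci` is bounded (continuous first
coordinate on a compact set); conjugate of a flow `cjFlow`, inverse `rvFlow`. -/
def S_CFc : Prop := ∀ k t : Y ≃ₜ Y, (CFlow t → CFlow (k * t * k⁻¹)) ∧ (CFlow t → CFlow t⁻¹) ∧
  (BS t → BS (k * t * k⁻¹))

/-- **Cmt** (90 lines). Uses: SwY, CFc. PROOF. `HY` is the closure of the conjugates of the maps supported in `BY`
(`Subgroup.normalClosure`, `Group.conjugatesOfSet`, `Subgroup.closure_induction`). Conjugates: `d = cm g t` (`SwY`),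
`k d k⁻¹ = cm (k g k⁻¹) (k t k⁻¹)`, both with bounded support (`CFc`; a `CFlow` has bounded support). Unit: empty list.
Product: append, maximum of the two `M`. Inverse: reversed list, `(cm a b)⁻¹ = cm b a`. (`BS` with the bound `M` implies
`SuppIn {|z.1| ≤ M}`.) -/
def S_Cmt : Prop := ∀ h ∈ HY, ∃ (M : ℝ) (l : List ((Y ≃ₜ Y) × (Y ≃ₜ Y))),
  (∀ p ∈ l, SuppIn {z : Y | |z.1| ≤ M} p.1 ∧ SuppIn {z : Y | |z.1| ≤ M} p.2) ∧
    (l.map fun p => cm p.1 p.2).prod = h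

/-- **Bip** (160 lines). Uses: BipG, Dsp, Cmt, CFc. PROOF. `M`, `l` from `Cmt`, `φ` from `Dsp` for `M`, `t = φ 1`,
`K = {|z.1| ≤ M}`, `K' = ⋃_{n : ℕ} (φ n) '' K`. `S` = the maps supported in `K`, `S'` = the maps supported in `K'` with bounded
support (`BS`). `t S' t⁻¹ ⊆ S'`, and the elements of `t S' t⁻¹` are supported in `t '' K' = ⋃_{n ≥ 1} (φ n) '' K`, which is
disjoint from `K` by `Dsp` (`SuppIn.commute`). `BipG`: `h = cm A B * cm Φ t` with `A`, `B` of bounded support, say in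
`{|z.1| ≤ M2}`; `s` = the time-one map of `Dsp` for `M2`: `s A⁻¹ s⁻¹` is supported in `s '' {|z.1| ≤ M2}`, so it commutes with `B`,
and `cm A B = cm (A (s A⁻¹ s⁻¹)) B = cm (cm A s) B = (A s A⁻¹) (s⁻¹) (B s B⁻¹) (B A s⁻¹ A⁻¹ B⁻¹)`, `cm Φ t = (Φ t Φ⁻¹) (t⁻¹)`:
six factors, all `CFlow` by `CFc`. -/
def S_Bip : Prop := ∀ h ∈ HY, FLY 6 h

/-- **TrLen** (90 lines). Uses: TrFl, jq. PROOF. Induction on the list. A factor `t = φ 1` with `φ` supported in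
`K = {|z.1| ≤ M}` (compact: closed ball times the compact circle): `TrFl` gives `Φ`, and `Φ 1` is the transport of `t`
(`x ∉ range j` is not in `j '' K`). `Tr.mul`; the unit is the transport of the unit. -/
def S_TrLen : Prop := ∀ (α : ℝ) (q : ℝ → ℝ), Continuous q → StrictMono q →
  (∀ x, α < q x ∧ q x < α + 1) → ∀ (n : ℕ) (h : Y ≃ₜ Y), FLY n h →
    ∃ e : T ≃ₜ T, Tr (jq q) h e ∧ FL n e

/-! ### Half lifts -/

/-- **Cut** (130 lines). Cutting along a circle which is fixed pointwise. PROOF. `{z.1 < c}` is connected, its image under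
`w` is connected and does not meet `{z.1 = c}` (if `(w z).1 = c` then `w (w z) = w z`, so `w z = z`); it contains
`w (c - D - 1, 0)`, whose first coordinate is `< c`. So `w {z.1 < c} ⊆ {z.1 < c}`; in the same way for `>` and for
`w⁻¹`. `u` is glued from `w` on `{z.1 ≤ c}` and the identity on `{c ≤ z.1}` (two closed sets, equal on the intersection),
its inverse from `w⁻¹` and the identity. -/
def S_Cut : Prop := ∀ (w : Y ≃ₜ Y) (c D : ℝ), (∀ z, |(w z).1 - z.1| ≤ D) → (∀ z, z.1 = c → w z = z) →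
  ∃ u : Y ≃ₜ Y, (∀ z, z.1 ≤ c → u z = w z) ∧ (∀ z, c ≤ z.1 → u z = z) ∧
    (∀ z, z.1 ≤ c → (w z).1 ≤ c) ∧ ∀ z, c ≤ z.1 → c ≤ (w z).1

/-- **LfB** (110 lines). The lift of a map supported in a box. PROOF. `δ : Ci → ℝ` = the representative in
`[-1/2, 1/2)` (`AddCircle.equivIco`), `(δ w : Ci) = w`, `|δ w| = ‖w‖`, continuous at `w` if `‖w‖ < 1/2`
(`AddCircle.continuousAt_equivIco`). With `p = prY z`: `G z = (z.1 + δ ((h p).1 - a) - δ (p.1 - a), (h p).2)`. Then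
`prY (G z) = h p`, `G (tau z) = tau (G z)`, the displacement is `≤ 1`. `G z = z` if `p ∉ Bx a b`. Continuity: if
`‖p.1 - a‖ > 3/8` then `G` is the identity near `z`; if `‖p.1 - a‖ < 1/2` then `‖(h p).1 - a‖ < 1/2` too (`SuppIn.mapsTo`
or `h p = p`) and `δ` is continuous at both points. The map of `h⁻¹` is the inverse of `G`. -/
def S_LfB : Prop := ∀ (a b : Ci) (h : T ≃ₜ T), SuppIn (Bx a b) h →
  ∃ G : Y ≃ₜ Y, LiftY h G ∧ ∀ z, prY z ∉ Bx a b → G z = z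

/-- **El** (110 lines). Uses: LfB, Cut, Box. PROOF. `G` from `LfB`, `a = (a₀ : Ci)`, `κ = a₀ + 1/2`; `G z = z` for `z.1 = κ`
(`‖κ - a‖ = 1/2`). `Cut` at `κ`: `u`. For `τ = tau`, `x = τ u τ⁻¹ u⁻¹`: if `z.1 ≤ κ`, `u⁻¹ z = w` with `w.1 ≤ κ`, `G w = z`
(the last two clauses of `Cut`; if `w.1 > κ` then `z = u w = w`), and `τ u τ⁻¹ w = τ (G (τ⁻¹ w)) = G w = z`. If `κ ≤ z.1`:
`u⁻¹ z = z`, and `τ u τ⁻¹ z = G z` for `z.1 ≤ κ + 1`, `= z` for `z.1 ≥ κ + 1`. So `x` is supported in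
`{κ ≤ z.1 ≤ κ + 1, prY z ∈ Bx a b} ⊆ {|z.1 - (a₀ + 1)| ≤ 3/8, ‖z.2 - b‖ ≤ 3/8}`: in `HY` by `Box`. `C = |κ|`. -/
def S_El : Prop := ∀ (a b : Ci) (h : T ≃ₜ T), SuppIn (Bx a b) h → Lf h

/-- **LfM** (70 lines). PROOF. Unit: `G = a = 1`. Product: `G G'`, `a a'`, with `C + C' + D + D'` in absolute values (`D`, `D'` the
bounds of the displacements); `a = G` far left, `a = 1` far right, so far to the left `a' z = G' z` is still far to the left.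
`τ a a' τ⁻¹ (a a')⁻¹ = (τ a τ⁻¹ a⁻¹) * (a (τ a' τ⁻¹ a'⁻¹) a⁻¹)`, and `HY` is normal. -/
def S_LfM : Prop := Lf 1 ∧ ∀ g g' : T ≃ₜ T, Lf g → Lf g' → Lf (g * g')

/-- Output of part F (proved there): generation by maps supported in boxes. -/
def S_GenB : Prop := ∀ g ∈ GT, ∃ l : List (T ≃ₜ T),
  (∀ s ∈ l, ∃ a b : Ci, SuppIn (Bx a b) s) ∧ l.prod = g

/-- **LfG** (20 lines). Uses: GenB, El, LfM. PROOF. Induction on the list. -/
def S_LfG : Prop := ∀ g ∈ GT, Lf g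

/-- **Win** (80 lines). PROOF. `n ≥ |M| + |C|`, `u = (τ ^ n a τ ^ (-n)) * (τ ^ (-n) a τ ^ n)⁻¹`. In the quotient by `HY` the
elements `τ` and `a` commute, so `u ∈ HY`. For `|z.1| ≤ M`: `(τ ^ (-n) a τ ^ n) z = z` as `z.1 + n ≥ C`, so its inverse
fixes `z`; `τ ^ n a τ ^ (-n) z = τ ^ n (G (τ ^ (-n) z)) = G z` as `z.1 - n ≤ -C`. (`tau_zpow_apply`.) -/
def S_Win : Prop := ∀ (G a : Y ≃ₜ Y) (C : ℝ), (∀ z, G (tau z) = tau (G z)) →
  (∀ z, z.1 ≤ -C → a z = G z) → (∀ z, C ≤ z.1 → a z = z) → tau * a * tau⁻¹ * a⁻¹ ∈ HY →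
  ∀ M : ℝ, ∃ u ∈ HY, ∀ z : Y, |z.1| ≤ M → u z = G z

/-! ### Lemma V -/

/-- **V1** (70 lines). PROOF. For `|z.1| < ε`: `‖(prY z).1‖ ≤ |z.1| < ε`, so `prY (G z) = v (prY z) = prY z`: `(G z).2 = z.2` and
`(G z).1 - z.1` is an integer; it is a continuous function on the connected set `{|z.1| < ε}`, so constant. -/
def S_V1 : Prop := ∀ (v : T ≃ₜ T) (G : Y ≃ₜ Y) (ε : ℝ), 0 < ε → LiftY v G →
  (∀ z : T, ‖z.1‖ < ε → v z = z) → ∃ m : ℤ, ∀ z : Y, |z.1| < ε → G z = (z.1 + m, z.2)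

/-- **V0** (180 lines). Uses: Cut, Xi, Shift. PROOF. `τ = tau`, `v' = τ ^ (-m) G`: it commutes with `τ`, is the identity for
`|z.1| < ε` and for `|z.1 - 1| < ε`, and has bounded displacement. `Cut` at `0`: `Ψ = v'` on `{z.1 ≤ 0}`, `1` on `{0 ≤ z.1}`.
`σ x = x + m c x`, `c x = max 0 (min 1 (-x / R))`, `R = 2 (|m| + 1)`: an increasing homeomorphism of `ℝ`, `x + m` for
`x ≤ -R`, `x` for `x ≥ 0`; `S = xh σ`. `E = Ψ⁻¹ S⁻¹ a` has bounded support: far left `a z = G z = τ ^ m (v' z)`,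
`S⁻¹ (τ ^ m w) = w` for `w.1 ≤ -R`, `Ψ⁻¹ (v' z) = z`; far right all is `1`.
(1) `τ E τ⁻¹ = t E t⁻¹` where `t ∈ HY` is equal to `τ` on `{|z.1| ≤ M}`, `E` supported in this set (`Shift` with `k = 1`): for
`z = τ w`, `|w.1| ≤ M`, `t⁻¹ z = w` and `E w` is in the set; for the other `z` both sides are `z`. So `τ E τ⁻¹ E⁻¹ ∈ HY`.
(2) `τ S τ⁻¹ S⁻¹ = xh (σ' σ⁻¹)`, `σ' x = σ (x - 1) + 1`, is the identity for large `|x|`, so in `HY` (`Xi`).
(3) In the quotient by `HY`: `a = S Ψ E`, `τ a τ⁻¹ = a`, `τ S τ⁻¹ = S`, `τ E τ⁻¹ = E`, so `τ Ψ τ⁻¹ = Ψ`, i.e.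
`v0 = Ψ⁻¹ (τ Ψ τ⁻¹) ∈ HY`. Values: `z.1 ≤ 0`: `τ Ψ τ⁻¹ z = v' z`, `(v' z).1 ≤ 0`, `v0 z = z`; `0 ≤ z.1 ≤ 1`: `τ Ψ τ⁻¹ z = v' z`, whose first
coordinate is `≥ 0`, so `v0 z = v' z`; `z.1 ≥ 1`: `z`. -/
def S_V0 : Prop := ∀ (G a : Y ≃ₜ Y) (C D ε : ℝ) (m : ℤ), 0 < ε → ε < 1 / 2 →
  (∀ z, G (tau z) = tau (G z)) → (∀ z, |(G z).1 - z.1| ≤ D) →
  (∀ z : Y, |z.1| < ε → G z = (z.1 + m, z.2)) →
  (∀ z, z.1 ≤ -C → a z = G z) → (∀ z, C ≤ z.1 → a z = z) → tau * a * tau⁻¹ * a⁻¹ ∈ HY →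
  ∃ v0 ∈ HY, SuppIn {z : Y | ε ≤ z.1 ∧ z.1 ≤ 1 - ε} v0 ∧
    ∀ z : Y, 0 ≤ z.1 → z.1 ≤ 1 → v0 z = ((G z).1 - m, (G z).2)

/-- **V** (110 lines; Lemma V, replaces the annulus theorem). Uses: LfG, V1, V0, Bip, TrLen, Q. PROOF. We may assume
`ε < 1/2` (decrease it). `G`, `a`, `C`, `D` from `LfG`, `m` from `V1`, `v0` from `V0`, `FLY 6 v0` (`Bip`); `q` from `Q` for
`c = 0 < ε ≤ 1 - ε < d = 1`; `e` from `TrLen` (`α = 0`). Claim `e = v`. Let `w : T`. If `w.1 = 0` then `w ∉ range (jq q)` (`0 < q x < 1`),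
`e w = w = v w`. Otherwise `w.1 = (t : Ci)`, `0 < t < 1`, `t = q x`, `w = jq q (x, y)`. If `ε ≤ x ≤ 1 - ε`: `q x = x`,
`v0 (x, y)` has its first coordinate in `[ε, 1 - ε]` (`SuppIn.mapsTo`), so `e w = jq q (v0 (x, y)) = prY (v0 (x, y)) = prY (G (x, y)) =
v (prY (x, y)) = v w`. If not, `v0 (x, y) = (x, y)`, `e w = w`, and `t = q x` is in `(0, ε)` or in `(1 - ε, 1)`, so
`‖w.1‖ < ε` and `v w = w`. -/
def S_V : Prop := ∀ v ∈ GT, (∃ ε : ℝ, 0 < ε ∧ ∀ z : T, ‖z.1‖ < ε → v z = z) → FL 6 v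

/-! ### Lemma U and the graph -/

/-- **U** (160 lines). Uses: LfG, Win, Shift, Bip, TrLen, Q, V. PROOF. `G`, `a`, `C` from `LfG`. `prY (G (0, y)) = s (0, y)`, so
`(G (0, y)).1` is never an integer; continuous on the connected compact circle: there are `k : ℤ` and
`0 < a' ≤ b' < 1` with `k + a' ≤ (G (0, y)).1 ≤ k + b'` for all `y`. Let `b1 = (1 + b') / 2`, `e1 = 1 - b1 > 0`. By compactness
there is `η > 0`, `η ≤ e1 / 3`, `η ≤ 1`, with `0 < (G z).1 - k < b1` for `|z.1| < η` (tube lemma). `u ∈ HY` equal to `G` on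
`{|z.1| ≤ 1}` (`Win`), `t ∈ HY` with `t z = (z.1 - k, z.2)` for `|z.1| ≤ |k| + 2` (`Shift`), `û = t u ∈ HY`, `FLY 6 û` (`Bip`). `q` from `Q` for
`a = -e1/3`, `b = b1`, `c = -2 e1/3`, `d = c + 1 > b1`; `e` from `TrLen` (`α = c`), `FL 6 e`. If `w : T`, `‖w.1‖ < η`, then `w = prY z` with
`|z.1| < η`, `w = jq q z` (`q z.1 = z.1`), `e w = jq q (û z)`, `û z = ((G z).1 - k, (G z).2)`, where `q` is the identity, so
`e w = prY (G z) = s w`. So `v = e⁻¹ s ∈ GT` (`fl_mem`) is the identity for `‖w.1‖ < η`: `FL 6 v`, `s = e v`. -/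
def S_U : Prop := ∀ s ∈ GT, (∀ y : Ci, (s ((0 : Ci), y)).1 ≠ 0) → FL 12 s

/-- **Hor** (90 lines). Uses: LfG. PROOF. Let `c = A 0 1`, `d = A 1 1` and suppose `c ≠ 0`. `f t = (G (c t, (d t : Ci))).1`;
`prY (c t, (d t : Ci)) = mat A (0, (t : Ci))`, so `f t` is never an integer. `f (t + 1) = f t + c` (`G` commutes with `tau ^ c`,
`tau_zpow_apply`), `f` is continuous; between `f 0` and `f 0 + c` there is an integer: contradiction to the
intermediate value theorem. -/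
def S_Hor : Prop := ∀ s ∈ GT, ∀ A : SL(2, ℤ), (∀ y : Ci, (s (mat A ((0 : Ci), y))).1 ≠ 0) → A 0 1 = 0

/-- **Nu** (110 lines). Uses: U, Hor. PROOF. Induction on the walk (`nil`: `fl_one`; `cons`:
`x⁻¹ z = (x⁻¹ y) (y⁻¹ z)`, `fl_mul`). For one edge, `x = (g, A)`, `y = (g', A')`: if `g = g'` the element is `1`. Otherwise the
curves are disjoint. `mat (A * B) = mat A * mat B` and `mat A⁻¹ = (mat A)⁻¹` (direct computation). `s = (mat A)⁻¹ (g⁻¹ g') (mat A) ∈ GT`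
(`GT_conj`), `B = A⁻¹ A'`. If `(s (mat B (0, y))).1 = 0`, say `s (mat B (0, y)) = (0, y')`, then `g' (mat A' (0, y)) = g (mat A (0, y'))` is in
both curves. So `B 0 1 = 0` (`Hor`), `B 0 0 * B 1 1 = 1`, `B 1 1 = ± 1`, and `(0, y) = mat B (0, B 1 1 • y)` for all `y`, so
`(s (0, y)).1 ≠ 0` for all `y`: `FL 12 s` (`U`), and `g⁻¹ g' = (mat A) s (mat A)⁻¹` (`fl_conj`). -/
def S_Nu : Prop := ∀ (x y : TC.X) (w : Gr.Walk x y),
  FL (12 * w.length) ((x.1 : T ≃ₜ T)⁻¹ * (y.1 : T ≃ₜ T))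

end Pool.Agent.MPe54d61.TC
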