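import Pool.Agent.Lib.MP_e54d61_gt.TC.SpecH
import Pool.Agent.Lib.MP_e54d61_gt.TC.SpecA

/-!
# MP_e54d61_gt, torus case: homeomorphisms with small support are in the group
-/

set_option autoImplicit false

namespace Pool.Agent.MPe54d61.TC

theorem tSmGT (hSmF : S_SmF) : S_SmGT :=
  ⟨1 / 4, by norm_num, fun s hs => fl_mem (hSmF s hs)⟩

end Pool.Agent.MPe54d61.TC
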