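import Pool.Agent.Lib.MP_e54d61_gt.TC.SpecP

/-!
# MP_e54d61_gt, torus case, part E (assembly), statements with complete proofs (helper88)

RULES.  Statement `S_Xyz`: file `Pool/Agent/Lib/MP_e54d61_gt/TC/Xyz.lean`, first line
`import Pool.Agent.Lib.MP_e54d61_gt.TC.SpecE`, namespace `Pool.Agent.MPe54d61.TC`, final theorem
`theorem tXyz (h1 : S_A) ... : S_Xyz`; the statements listed under Uses are hypotheses of the theorem, in this
order (statements of `SpecB`, `SpecK`, `SpecF`, `SpecA`, `SpecP` occur).  Auxiliary lemmas private.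

Notation: `Av N x C`: the curve of `x` is disjoint from the edges in `C`; `NR n x y`: distance at most `n` in `Gr`
(monotone in `n`, symmetric, additive: `Walk.append`, `Walk.reverse`).  `cur x` is compact and not empty (image of the circle under
`y ↦ g (mat A (0, y))`); if `cur x` and `cur y` are disjoint then `x ≠ y`, so `Gr.Adj x y`.  `geo` is monotone.
-/

set_option autoImplicit false

namespace Pool.Agent.MPe54d61.TC

open SimpleGraph Filter Topology

/-! ### curves near a cycle -/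

/-- Module GeoP (30 lines).  Uses: Grid.
`zc N b` is on an edge of `C`, which is an edge `s(zc N b, v)` of the graph; by Grid there is `q` with `q - b ∈ stp`, `red q = v`, and `gp N b` is the first point of the segment. -/
def S_GeoP : Prop := ∀ N : ℕ, 3 ≤ N → ∀ C : Set (Sym2 (VN N)), EC (GN N) (kN N) C →
  ∀ b : ℤ × ℤ, zc N b ∈ vts C → pr (gp N b) ∈ geo N C

/-- Module NrC (100 lines).  Uses: Grid, GeoP.
`z = pr Z`, `a = (⌊N Z.1⌋, ⌊N Z.2⌋)`, `s = N Z.1 - a.1`, `t = N Z.2 - a.2` in `[0, 1)`, `Z = pt N a s t`, `p = zc N a`.  If `t ≤ s` then `z ∈ ltr N p`, so one of the edges `s(p, p + ed N 0)`, `s(p, p + ed N 2)` is not in `offE N C`; both are edges of the graph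
(Grid: `a`, `a + ei k`), so one of `p`, `p + ed N 0`, `p + ed N 2` is in `vts C`: it is `zc N b`, `b ∈ {a, a + ei 0, a + ei 2}`, and `w = pr (gp N b)` (GeoP), `dist Z (gp N b) ≤ 1/N` (sup distance, `s, t ∈ [0,1]`).  If `s ≤ t` the same with `utr` and `ei 1`, `ei 2`. -/
def S_NrC : Prop := ∀ (N : ℕ) (_ : NeZero N), 3 ≤ N → ∀ C : Set (Sym2 (VN N)), EC (GN N) (kN N) C →
  ∀ z : T, (∀ p, s(p, p + ed N 0) ∈ offE N C → s(p, p + ed N 2) ∈ offE N C → z ∉ ltr N p) →
  (∀ p, s(p, p + ed N 1) ∈ offE N C → s(p, p + ed N 2) ∈ offE N C → z ∉ utr N p) →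
  ∃ w ∈ geo N C, dist z w ≤ 1 / (N : ℝ)

/-- Module Same (120 lines).  Uses: GeoC, SubB, SubG, KReal, KO, NrC.
`N1 = max 3 N0` with the `N0` of KReal.  `geo N C` is closed, so compact, `cur z ∪ cur z'` is compact, and they are disjoint: there is `ρ > 0` with `dist w c ≥ ρ` for `w ∈ geo N C`, `c ∈ cur z ∪ cur z'` (`Metric.exists_pos_forall_lt_edist`, or `IsCompact.exists_infDist_eq_dist`).  Let `k ≥ 1`,
`1/(k N) < ρ`, `C' = sub N k C`, essential in the grid `k N ≥ N1` (SubB).  KO and KReal (`NeZero (k * N)`) give `x` whose curve misses the triangles; NrC: every point of `cur x` is at distance `≤ 1/(k N) < ρ` from a point of `geo (k N) C' ⊆ geo N C` (SubG).  So `cur x` is disjoint from `cur z` and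
`cur z'`: the walk `z, x, z'`. -/
def S_Same : Prop := ∃ N1 : ℕ, 3 ≤ N1 ∧ ∀ N ≥ N1, ∀ C : Set (Sym2 (VN N)), EC (GN N) (kN N) C →
  ∀ z z' : X, Av N z C → Av N z' C → NR 2 z z'

/-- Module AdjSS (40 lines; pure graph theory).  Uses: Pot, PotCls (of SpecB).
`C = eds c`, `c = cons h p`, `h : x ~ v` (`c` is not nil), `p : v → x` is a path (`p.support = c.support.tail` is nodup).  Pot gives `φ` with `κ a b = φ b - φ a` on the edges of `p`, `[p] = φ x - φ v` (PotCls).  `l = [c] = κ x v + [p] = κ x v - (φ v - φ x)`; for the other orientation of the first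
edge: `κ v x - (φ x - φ v) = - l`. -/
def S_AdjSS : Prop := ∀ (V M : Type) (_ : AddCommGroup M) (Γ : SimpleGraph V) (κ : V → V → M), Anti κ →
  ∀ C : Set (Sym2 V), EC Γ κ C → AdjS κ C C

/-- Module Adj5 (100 lines).  Uses: Grid, Same, AdjSS, KReal, KS, KD, KI.
`N1` = the maximum of `3`, the `N1` of Same and the `N0` of KReal and KI.  First part: AdjSS, KS with `C' = C`, KReal (`geo` is monotone).  Second part: `C = C'`: Same.  (D), (S): KD, KS, KReal give `x` with `Av x C`, `Av x C'`; Same twice: `4`.  (I): KI; either as before, or `x = (g, A)`, `x' = (g, A * Jm)` with `Av x C`,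
`Av x' C'`, adjacent (`A ≠ A * Jm` because `Jm ≠ 1`, entry `0 0`): `2 + 1 + 2`. -/
def S_Adj5 : Prop := ∃ N1 : ℕ, BigN N1

/-- Module AvEx (40 lines).  Uses: PixX.
`W = (cur x)ᶜ` is open (`cur x` is compact), `mm x (pr (1/2, t)) ∉ cur x` since `mm x` is injective and `((1/2 : ℝ) : Ci) ≠ 0`.  PixX with `a = 1/2`. -/
def S_AvEx : Prop := ∀ x : X, ∃ N0 : ℕ, ∀ N ≥ N0, ∃ A : Set (Sym2 (VN N)), EC (GN N) (kN N) A ∧ Av N x A

/-! ### chains -/

/-- Module RRs (40 lines; pure graph theory).  Uses: nothing.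
`RR` is symmetric: (D), (S) clear, (I): exchange `α` and `β`.  Reverse the chain: `c' i = c (n - i)`. -/
def S_RRs : Prop := ∀ (V M : Type) (_ : AddCommGroup M) (Γ : SimpleGraph V) (κ : V → V → M),
  (∀ C C' : Set (Sym2 V), RR Γ κ C C' → RR Γ κ C' C) ∧
  ∀ (n : ℕ) (C C' : Set (Sym2 V)), Lk Γ κ n C C' → Lk Γ κ n C' C

/-- Module ChB (100 lines; pure graph theory).  Uses: EcSub, Thin, Near (of SpecB), RRs.
Induction on `n`.  `n = 0`: `C ⊆ c 0 ∪ c 0`, so `C = c 0` (EcSub), `m = 0`.  `n + 1`: Thin with `A = c 0`, `B = c (n+1)`, `D = c n` gives `C3`, `Cs`, `C1` with `RR C C3`, `RR C3 Cs`, `RR Cs C1`.  If `C1` is a bicorn of `c 0`, `c n`: the induction hypothesis gives a chain of length `m ≤ 3 n + 1` from `c 0` to `C1`; prolong it by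
`Cs`, `C3`, `C` (RRs): `m + 3`.  If `C1` is a bicorn of `c n`, `c (n+1)`: Near gives `RR (c n) C1`, and the chain `c 0, .., c n, C1, Cs, C3, C` has length `n + 4 ≤ 3 (n + 1) + 1`. -/
def S_ChB : Prop := ∀ (V M : Type) (_ : AddCommGroup M) (Γ : SimpleGraph V) (κ : V → V → M), Anti κ →
  ∀ (n : ℕ) (A B C : Set (Sym2 V)), Lk Γ κ n A B → EC Γ κ C → Bic Γ κ A B C →
  ∃ m ≤ 3 * n + 1, Lk Γ κ m A C

/-- Module LkNR (50 lines).  Uses: nothing.
`m = 0`: `C = C'`, `RR C C`.  Induction on `m`: choose `z1` avoiding `c 1` (BigN), `NR 5 z z1`, and the rest of the chain from `c 1` to `c m`. -/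
def S_LkNR : Prop := ∀ N1 : ℕ, BigN N1 → ∀ N ≥ N1, ∀ (m : ℕ) (C C' : Set (Sym2 (VN N))),
  Lk (GN N) (kN N) m C C' → ∀ z z' : X, Av N z C → Av N z' C' → NR (5 * m + 5) z z'

/-! ### paths and thin triangles -/

/-- Module PathE (100 lines).  Uses: Grid, AvEx, Chain (of SpecB).
`N` large, `A` avoids `x`, `B` avoids `y` (AvEx).  Chain: `c 0 = A, .., c n = B`, all of them essential bicorns of `A`, `B`.  For `i ≤ n` let `z_i` avoid `c i` (BigN), `p 0 = x`, `p i = z_i` for `1 ≤ i ≤ n`, `p i = y` for `i > n`; the path has length `n + 1`.  `p i` avoids `c i` for `i ≤ n` (`x` avoids `c 0`), and `y` avoids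
`c n = B`; the last step has `RR B B`. -/
def S_PathE : Prop := ∀ N1 : ℕ, BigN N1 → ∀ x y : X, ∃ (n : ℕ) (p : ℕ → X), p 0 = x ∧ p n = y ∧
  (∀ i ≤ n, p i ∈ LL N1 x y) ∧ ∀ i < n, NR 5 (p i) (p (i + 1))

/-- Module ThinE (100 lines).  Uses: Grid, AvEx, SubB, SubG, Thin (of SpecB).
`w ∈ LL x y` with `N`, `A`, `B`, `C`.  `k ≥ 1` so large that `k N ≥` the `N0` of AvEx for `z`; `D` essential in the grid `k N`, avoiding `z`.  `sub A`, `sub B`, `sub C` are essential, `sub C` is a bicorn of `sub A`, `sub B` (SubB), and they avoid `x`, `y`, `w` (SubG).  Thin: `C3`, `Cs`, `C1`.  Choose `z3`, `zs`, `w'` avoiding them (BigN):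
`NR 5 w z3`, `NR 5 z3 zs`, `NR 5 zs w'`.  `Bic (sub A) D C1`: `w' ∈ LL x z`; `Bic D (sub B) C1`: `w' ∈ LL z y`. -/
def S_ThinE : Prop := ∀ N1 : ℕ, BigN N1 → ∀ x y z : X, ∀ w ∈ LL N1 x y,
  ∃ w', (w' ∈ LL N1 x z ∨ w' ∈ LL N1 z y) ∧ NR 15 w w'

/-! ### small sets -/

/-- Module LnkE (70 lines).  Uses: GeoC, GeoV, PixX, SubB, SubG.
`W = (geo N A ∪ geo N B)ᶜ` is open and contains `cur x`; PixX with `a = 0` gives `Q` in the grid `k N`, `k` large, with `geo Q ⊆ W`.  `geo (sub A) ⊆ geo A` (SubG) is disjoint from `geo Q`, so `AdjD (sub A) Q` (GeoV), `AdjD Q (sub B)`: chain `sub A, Q, sub B`, `m = 2`. -/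
def S_LnkE : Prop := ∀ x : X, ∀ N : ℕ, 3 ≤ N → ∀ A B : Set (Sym2 (VN N)), EC (GN N) (kN N) A →
  EC (GN N) (kN N) B → Av N x A → Av N x B → ∃ k ≥ 1, ∃ m ≤ 6,
  Lk (GN (k * N)) (kN (k * N)) m (sub N k A) (sub N k B)

/-- Module LnkD (80 lines).  Uses: GeoC, GeoV, PixX, SubB, SubG.
`cur x`, `cur y` are compact and disjoint: disjoint open sets `U ⊇ cur x`, `U' ⊇ cur y`.  PixX for `x`, `a = 0`, `U ∩ (geo N A)ᶜ` and for `y`, `a = 0`, `U' ∩ (geo N B)ᶜ`, the same `k`: `Q`, `Q'`.  Chain `sub A, Q, Q', sub B` of disjoint cycles (GeoV, SubG), `m = 3`. -/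
def S_LnkD : Prop := ∀ x y : X, Disjoint (cur x) (cur y) → ∀ N : ℕ, 3 ≤ N →
  ∀ A B : Set (Sym2 (VN N)), EC (GN N) (kN N) A →
  EC (GN N) (kN N) B → Av N x A → Av N y B → ∃ k ≥ 1, ∃ m ≤ 6,
  Lk (GN (k * N)) (kN (k * N)) m (sub N k A) (sub N k B)

/-- Module LnkR (140 lines).  Uses: GeoC, GeoV, PixX, SubB, SubG, Cross.
`mat Jm (0, y) = (-y, 0)` and `mat (A * Jm) = mat A ∘ mat Jm`, so `mm y (pr (0, t)) = mm x (pr (-t, 0))`.  Let `k` be large.  `Q`: PixX for `x`, `a = 0`, `W = (geo N A)ᶜ ∩ mm x '' an 0 (3/8)`.  `Q'`: PixX for `y`, `a = 0`, `W' = (geo N B)ᶜ ∩ mm x '' bn 0 (1/4)`.  `C`, `C1`, `C'` from Cross for `x`.  (`an`, `bn` are open: `pr` is an open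
map.)  `an 0 (3/8)` and `an (1/2) (1/8)` are disjoint: `|s| < 3/8`, `|s + n - 1/2| < 1/8` would give `|n - 1/2| < 1/2`; `bn 0 (1/4)` and `bn (1/2) (1/4)` as well.  Chain `sub A, Q, C, C1, C', Q', sub B`, `m = 6`: disjoint (GeoV, SubG), disjoint, Cross, Cross, disjoint, disjoint. -/
def S_LnkR : Prop := ∀ x y : X, x.1 = y.1 → y.2 = x.2 * Jm → ∀ N : ℕ, 3 ≤ N →
  ∀ A B : Set (Sym2 (VN N)), EC (GN N) (kN N) A →
  EC (GN N) (kN N) B → Av N x A → Av N y B → ∃ k ≥ 1, ∃ m ≤ 6,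
  Lk (GN (k * N)) (kN (k * N)) m (sub N k A) (sub N k B)

/-- Module SmE (80 lines).  Uses: Grid, SubB, SubG, LnkE, LnkD, LnkR, RRs, ChB, LkNR.
`w ∈ LL x y` with `N`, `A`, `B`, `C`.  `x = y`: LnkE; adjacent: LnkD or LnkR, or LnkR for `(y, x)`, `(B, A)` and RRs.  So there are `k`, `m ≤ 6` with `Lk m (sub A) (sub B)`; `Bic (sub A) (sub B) (sub C)` (SubB); ChB: `Lk m' (sub A) (sub C)`, `m' ≤ 19`; `x` avoids `sub A`, `w` avoids `sub C` (SubG); LkNR: `5 m' + 5 ≤ 100`. -/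
def S_SmE : Prop := ∀ N1 : ℕ, BigN N1 → ∀ x y : X, (x = y ∨ Gr.Adj x y) → ∀ w ∈ LL N1 x y, NR 100 x w

/-- Module GGE (80 lines).  Uses: PathE, ThinE, SmE.
Connected: PathE (all `NR 5` steps are walks; `X` is not empty).  `NR n x y` implies `Gr.dist x y ≤ n` (`SimpleGraph.dist_le`).  `dist x y ≤ 1` implies `x = y` or adjacent (`Connected.dist_eq_zero_iff`, `dist_eq_one_iff_adj`). -/
def S_GGE : Prop := ∀ N1 : ℕ, BigN N1 → Gr.Connected ∧
  Abs.GG (fun x y => Gr.dist x y) (LL N1) 100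

/-! ### the end -/

/-- the flow length of an element of the group -/
noncomputable def nuT (g : GT) : ℕ := sInf {n | FL n (g : T ≃ₜ T)}

/-- Module NuLen (80 lines).  Uses: nothing (use the lemmas on `FL` in `DefsA`: `fl_one`, `fl_mul`, `fl_conj`, ...).
Every element of `GT` has `FL n` for some `n` (closure induction: `timeOneMaps` is closed under inverses, `rvFlow`).  `nuT 1 = 0`: empty list.  Products: concatenate; inverse: reversed list of the inverses; conjugation: conjugate all factors (`cjFlow`). -/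
def S_NuLen : Prop := Abs.Len nuT

/-- Module FinE (60 lines).  Uses: Nu (of SpecA), Adj5, GGE, NuLen.
`Abs.main_graph` for `Gr`, `LL N1`, `h = 100`, `ν = nuT`, `x0 = (1, 1)`, `C = 12`: `g • x0 = (g * 1, 1)`, a walk of length `Gr.dist x0 (g • x0)` from `x0` to `g • x0` gives `FL (12 * length) (1⁻¹ * g)`.  `G` acts by automorphisms: `cur (g • x) = g '' cur x`, and the second kind of edges is clear. -/
def S_FinE : Prop := ∀ f : GT, Abs.SclZ f →
  Tendsto (fun n : ℕ => (nuT (f ^ n) : ℝ) / n) atTop (𝓝 0)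

end Pool.Agent.MPe54d61.TC
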