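import Pool.Agent.Lib.MP_e54d61_gt.TC.DefsH

/-!
# MP_e54d61_gt, torus case, part H (realisation of curves by harmonic maps), statements with complete proofs

Every statement `S_X` is proved as `theorem tX : S_X` in the file `TC/X.lean` (namespace
`Pool.Agent.MPe54d61.TC`); the statements named after `Uses` are hypotheses of the theorem, in this order, e.g.
`theorem tY (hX : S_X) : S_Y`.

Reindexing: `∑ p, F (p + ed N k) = ∑ p, F p` (`Equiv.sum_comp (Equiv.addRight _)`).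
-/

set_option autoImplicit false

namespace Pool.Agent.MPe54d61.TC

open Topology MatrixGroups

/-! ## harmonic positions -/

/-- Summation by parts: `dv w x p = ∑ k, (w k p * x k p - w k (p - e_k) * x k (p - e_k))`, and
`∑ p, u p * (w k (p - e_k) * x k (p - e_k)) = ∑ p, u (p + e_k) * (w k p * x k p)`. -/
def S_Green : Prop := ∀ (N : ℕ) (_ : NeZero N) (w x : Fin 3 → VN N → ℝ) (u : VN N → ℝ),
  ∑ p, u p * dv w x p = -∑ k, ∑ p, w k p * (DD u k p * x k p)

/-- Poisson equation.  `L u = dv w (DD u)` is a linear map of `VN N → ℝ`.  `L u = 0` implies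
`0 = ∑ p, u p * L u p = - ∑ ∑ w (DD u)^2` (`S_Green`), so `DD u = 0`, `u` is invariant under `+ ed N 0` and `+ ed N 1`,
so constant.  So the kernel has dimension one.  The range is contained in the space `∑ p, g p = 0` (`S_Green` with
`u = 1`), which has codimension one; by dimensions they are equal.  Uses `S_Green`. -/
def S_Poisson : Prop := ∀ (N : ℕ) (_ : NeZero N) (w : Fin 3 → VN N → ℝ), (∀ k p, 0 < w k p) →
  ∀ g : VN N → ℝ, ∑ p, g p = 0 → ∃ u : VN N → ℝ, ∀ p, dv w (DD u) p = g p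

/-- Harmonic functions minimise the energy.  Let `x k p = dt (iv l) (XX f k p)` and `v p = u p - dt (iv l) (f p)`; then
`DU l u k p = x k p + DD v k p` and `dv w x p = dt (iv l) (dv w (XX f) p) = 0`.  So
`∑∑ w (DU)^2 = ∑∑ w x^2 + 2 ∑∑ w x DD v + ∑∑ w (DD v)^2` and the middle term is zero by `S_Green`.
Uses `S_Green`. -/
def S_Energy : Prop := ∀ (N : ℕ) (_ : NeZero N) (w : Fin 3 → VN N → ℝ), (∀ k p, 0 < w k p) →
  ∀ f : VN N → P, Harm w f → ∀ (l : ℤ × ℤ) (u : VN N → ℝ),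
  ∑ k, ∑ p, w k p * dt (iv l) (XX f k p) ^ 2 ≤ ∑ k, ∑ p, w k p * DU l u k p ^ 2

/-- The sum of the areas.  `XX f k p = EE N k + DD f k p`.  With `a = f p`, `b = f (p + e_0)`, `c = f (p + e_2)`,
`d = f (p + e_1)`: `low = dt (EE 0 + b - a) (EE 1 + c - b)` (`low_eq`), `upp = dt (EE 0 + c - d) (EE 1 + d - a)`.
The constant terms give `2 N^2 / N^2`, the linear terms are sums of differences, zero by reindexing, and
`dt (b - a) (c - b) + dt (c - d) (d - a) = dt b c + dt a b + dt c d + dt d a`, where the sums over `p` of `dt b c` and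
`dt d a`, and of `dt a b` and `dt c d`, cancel by reindexing. -/
def S_Area : Prop := ∀ (N : ℕ) (_ : NeZero N) (f : VN N → P), ∑ p, (low f p + upp f p) = 2

/-- Sign changes around the vertices.  Let `c i p` be `1` if `l (out f p i) * l (out f p (i + 1)) < 0`, else `0`.
The corners of the lower triangle at `p` are `i = 0` at `p`, `i = 2` at `p + e_0`, `i = 4` at `p + e_2`; the corners
of the upper triangle at `p` are `i = 1` at `p`, `i = 3` at `p + e_2`, `i = 5` at `p + e_1`.  For the lower triangle,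
with `x = l (XX f 0 p)`, `y = l (XX f 1 (p + e_0))`, `x + y = l (XX f 2 p)`, the three products are
`x (x + y)`, `y (- x)`, `(- (x + y)) (- y)`; if `x, y, x + y ≠ 0` exactly one of them is negative.  The same for the
upper triangle.  So `∑ p, ∑ i, c i p = ∑ p, (1 + 1)` by reindexing. -/
def S_Count : Prop := ∀ (N : ℕ) (_ : NeZero N) (f : VN N → P) (l : P →ₗ[ℝ] ℝ),
  (∀ k p, l (XX f k p) ≠ 0) →
  ∑ p, (Finset.univ.filter fun i : Fin 6 => l (out f p i) * l (out f p (i + 1)) < 0).card =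
    ∑ _p : VN N, 2

/-- Exactly two sign changes at every vertex.  `dv w (XX f) p = 0` says that a combination of the six vectors
`out f p i` with positive coefficients is zero (`w 0 p`, `w 2 p`, `w 1 p`, `w 0 (p - e_0)`, `w 2 (p - e_2)`,
`w 1 (p - e_1)`), so both signs occur among the numbers `l (out f p i)`, which are not zero; so there are at least two
sign changes in the cyclic sequence (finite check: for `s : Fin 6 → Bool` not constant, `2 ≤ #{i | s i ≠ s (i+1)}`,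
`decide`).  By `S_Count` the sum is `∑ p, 2`, so all are equal to two (`Finset.sum_eq_sum_iff_of_le`).
Uses `S_Count`. -/
def S_Two : Prop := ∀ (N : ℕ) (_ : NeZero N) (w : Fin 3 → VN N → ℝ), (∀ k p, 0 < w k p) →
  ∀ f : VN N → P, Harm w f → ∀ l : P →ₗ[ℝ] ℝ, (∀ k p, l (XX f k p) ≠ 0) → ∀ p : VN N,
  (Finset.univ.filter fun i : Fin 6 => l (out f p i) * l (out f p (i + 1)) < 0).card = 2

/-- **Signs.**  The six numbers `dt (out f p i) (out f p (i + 1))` are `low f p`, `upp f p`, `low f (p - e_0)`,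
`upp f (p - e_2)`, `low f (p - e_2)`, `upp f (p - e_1)`.  Claim: consecutive ones have the same sign.  Otherwise let
`x = out f p i`, `y = out f p (i+1)`, `z = out f p (i+2)` with `dt x y`, `dt y z` of opposite sign.  `y ≠ 0`.  Let
`l0 v = ± dt y v` with the sign such that `l0 x < 0`, `l0 z < 0`.  The positive combination of the six vectors which is
zero (see `S_Two`) gives `k` with `l0 (out f p k) > 0`, so `k ≠ i, i+1, i+2`.  Let `m v = y.1 v.1 + y.2 v.2`, so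
`m y > 0`, and `l0 v = m v = 0` only for `v = 0`.  For `e > 0` small `l = l0 + e m` is negative at `x`, `z` and positive
at `y`, `out f p k`; for all but finitely many `e` it is not zero at any `XX f k q` (these vectors are not zero,
because all areas are not zero).  Then there are four sign changes (finite check: `s i = s (i+2) = false`,
`s (i+1) = s k = true`, `k ≠ i+1` implies `4 ≤ #{i | s i ≠ s (i+1)}`), contradiction to `S_Two`.
So `low p`, `upp p`, `low (p - e_0)`, `upp (p - e_1)`, .. have the same sign, for all `p`, so all areas have the same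
sign (`e_0`, `e_1` generate), which is positive by `S_Area`.  Uses `S_Two`, `S_Area`. -/
def S_Sign : Prop := ∀ (N : ℕ) (_ : NeZero N) (w : Fin 3 → VN N → ℝ), (∀ k p, 0 < w k p) →
  ∀ f : VN N → P, Harm w f → (∀ p, low f p ≠ 0) → (∀ p, upp f p ≠ 0) → Pos f

/-- **One edge.**  Let `x = p0`, `y = p0 + e_{k0}` (`x ≠ y` as `N ≥ 2`), `D = XX f k0 p0`, `h` with
`dv w (DD h) = δ_y - δ_x` (`S_Poisson`), `R = h x - h y = ∑∑ w (DD h)^2 ≥ 0` (`S_Green` with `u = h`).  For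
`τ ∈ [0, 1/R)` (or all `τ ≥ 0` if `R = 0`) let `f_τ = f + τ h D`.  For `s ≥ 0` and `τ = s / (1 + s R)` it is harmonic for
`w + s δ_(k0,p0)`: the divergence for `w` is `τ (δ_y - δ_x) D` and the additional term is
`s (1 + τ (h y - h x)) D (δ_x - δ_y) = s (1 - τ R) D (δ_x - δ_y) = τ D (δ_x - δ_y)`.  All `τ ∈ [0, 1/R)` are of this
form (`s = τ / (1 - τ R)`).  The areas of `f_τ` are affine in `τ` (`dt D D = 0`) and positive at `0`.  If one of them is
`≤ 0` at `τ_0 < 1/R`, then it is negative on `(τ_0, 1/R)`; for all but finitely many `τ` in this interval all areas are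
not zero, so `S_Sign` says that they are all positive, contradiction.  Take `τ = t / (1 + t R)`, `h' = τ h`.
Uses `S_Green`, `S_Poisson`, `S_Sign`. -/
def S_Edge : Prop := ∀ (N : ℕ) (_ : NeZero N), 2 ≤ N → ∀ w : Fin 3 → VN N → ℝ, (∀ k p, 0 < w k p) →
  ∀ f : VN N → P, Harm w f → Pos f → ∀ (k0 : Fin 3) (p0 : VN N) (t : ℝ), 0 ≤ t →
  ∃ (h : VN N → ℝ) (D : P), Pos (fun p => f p + h p • D) ∧
    Harm (fun k p => w k p + if k = k0 ∧ p = p0 then t else 0) (fun p => f p + h p • D)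

/-- **Harmonic positions exist for all weights `≥ 1` and are reached from the standard ones.**  For `w = 1` the
function `f = 0` is harmonic.  Induction over a finset `s` of edges: weights `w` on `s`, `1` elsewhere; `S_Edge`.
Uses `S_Edge`. -/
def S_HarmE : Prop := ∀ (N : ℕ) (_ : NeZero N), 2 ≤ N → ∀ w : Fin 3 → VN N → ℝ, (∀ k p, 1 ≤ w k p) →
  ∃ f : VN N → P, Harm w f ∧ Reach f

/-! ## piecewise linear maps -/

/-- The formula on the triangles.  If `0 ≤ t ≤ s ≤ 1`, `Lam (s - i) (t - j)` is `1 - s`, `s - t`, `t` for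
`(i, j) = (0, 0), (1, 0), (1, 1)` and `0` for all other integer points (`|s - i| < 1` and `|t - j| < 1` and
`|(s - t) - (i - j)| < 1` imply `i, j, i - j ∈ {0, 1}`, or the value is zero).  The same for `s ≤ t` with
`(0, 0), (0, 1), (1, 1)` and `1 - t`, `t - s`, `s`.  `finsum_eq_sum_of_support_subset`. -/
def S_Tri : Prop := ∀ (N : ℕ) (_ : NeZero N) (f : VN N → P) (a : ℤ × ℤ) (s t : ℝ),
  (0 ≤ t → t ≤ s → s ≤ 1 → PLm f (pt N a s t) =
    pt N a 0 0 + f (zc N a) + ((s - t) • XX f 0 (zc N a) + t • XX f 2 (zc N a))) ∧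
  (0 ≤ s → s ≤ t → t ≤ 1 → PLm f (pt N a s t) =
    pt N a 0 0 + f (zc N a) + ((t - s) • XX f 1 (zc N a) + s • XX f 2 (zc N a)))

/-- Continuity (`continuous_finsum`, the supports are locally finite), equivariance (reindex the sum by
`a ↦ a + N v`), bounded displacement (`S_Tri`, every point is `pt N a s t` with `s, t ∈ [0, 1)`).  Uses `S_Tri`. -/
def S_PLc : Prop := ∀ (N : ℕ) (_ : NeZero N) (f : VN N → P), Continuous (PLm f) ∧
  (∀ (z : P) (v : ℤ × ℤ), PLm f (z + iv v) = PLm f z + iv v) ∧ ∃ C : ℝ, ∀ z, dist (PLm f z) z ≤ C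

/-- Strictly increasing on the pieces.  `s` is finite, so for every `x ∈ [a, b)` one of the closed sets `I i` contains
points of `(x, b]` arbitrarily near to `x`, so it contains `x` and (convexity) an interval `[x, y]`, `y > x`, on which
`g` is strictly increasing.  `IsClosed.Icc_subset_of_forall_exists_gt` for `{x | g a ≤ g x}` gives `g a ≤ g x` for all
`x ∈ [a, b]`; the same for every `[a', b]`; so `g a < g a' ≤ g b` for `a' > a` near `a`. -/
def S_MonoCov : Prop := ∀ (g : ℝ → ℝ) (a b : ℝ), a < b → ContinuousOn g (Set.Icc a b) →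
  ∀ (ι : Type) (s : Finset ι) (I : ι → Set ℝ), (∀ i, IsClosed (I i)) → (∀ i, Convex ℝ (I i)) →
  (∀ x ∈ Set.Icc a b, ∃ i ∈ s, x ∈ I i) → (∀ i ∈ s, StrictMonoOn g (I i ∩ Set.Icc a b)) → g a < g b

/-- Continuous bijections of the plane with bounded displacement are homeomorphisms: proper
(`isProperMap_iff_tendsto_cocompact`), so closed. -/
def S_Bdd : Prop := ∀ Ψ : P → P, Continuous Ψ → Function.Bijective Ψ → (∃ C : ℝ, ∀ z, dist (Ψ z) z ≤ C) →
  ∃ Φ : P ≃ₜ P, ⇑Φ = Ψ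

/-- **Leafwise monotone maps.**  Let `u z = ∑ᶠ a, Lam (N z - a) * h (zc a)`, `Φ = PLm f`, `f' = f + h D`; then
`PLm f' z = Φ z + u z • D`, and `Ψ = PLm f' ∘ Φ⁻¹` is `Ψ y = y + u (Φ⁻¹ y) • D`, continuous, with bounded displacement.
`D = 0` is trivial.  Claim: `g t = t + u (Φ⁻¹ (y + t D))` is strictly increasing.  On `[t1, t2]` use `S_MonoCov`
with the sets `I Δ = {t | Φ⁻¹ (y + t D) ∈ Δ}`, `Δ` a closed triangle `{pt N a s t | 0 ≤ t ≤ s ≤ 1}` or
`{0 ≤ s ≤ t ≤ 1}` of the plane; finitely many of them cover (a compact set is bounded).  `I Δ` is closed; convex,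
because `Φ` is affine on `Δ` (`S_Tri`).  On a lower `Δ` (vertex `a`, `p = zc a`): if `y + t_i D = Φ ζ_i` (`i = 1, 2`),
`ζ_2 - ζ_1 = (α + β, β) / N`, then `(t_2 - t_1) D = α X_0 + β X_2` (`X_k = XX f k p`), and
`u ζ_2 - u ζ_1 = α δ_0 + β δ_2` with `δ_k = DD h k p`.  With `A = low f p = dt X_0 X_2 > 0`, `A' = low f' p =
A + δ_2 dt X_0 D + δ_0 dt D X_2` and `(t_2 - t_1) dt X_0 D = β A`, `(t_2 - t_1) dt D X_2 = α A`:
`A (g t_2 - g t_1) = A ((t_2 - t_1) + α δ_0 + β δ_2) = (t_2 - t_1) A' > 0`.  The same for upper triangles.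
So `Ψ` is injective (`Ψ y = Ψ y'` implies that `y' - y` is a multiple of `D`) and surjective (intermediate value theorem
on the line, `u` is bounded), and `PLm f' = Ψ ∘ Φ`; `S_Bdd`.  Uses `S_Tri`, `S_PLc`, `S_MonoCov`, `S_Bdd`. -/
def S_Leaf : Prop := ∀ (N : ℕ) (_ : NeZero N) (f : VN N → P) (h : VN N → ℝ) (D : P), Pos f →
  Pos (fun p => f p + h p • D) → (∃ Φ : P ≃ₜ P, ⇑Φ = PLm f) →
  ∃ Φ : P ≃ₜ P, ⇑Φ = PLm (fun p => f p + h p • D)

/-- Moves of single vertices.  The areas of `f_τ = f + τ h D` are affine in `τ` and positive at `0` and `1`, so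
`f_τ` is positive for `τ ∈ [0, 1]`.  The set of positive `f` is open in `VN N → P` and `{f_τ}` is compact, so there is
`δ > 0` such that all `g` with distance `< δ` from some `f_τ` are positive.  Take `n` with `‖h p • D‖ < n δ` for all
`p`; between `f_{i/n}` and `f_{(i+1)/n}` move the vertices one after the other (induction over a finset of vertices;
`f_{i/n} + (1_S h / n) D`). -/
def S_Moves : Prop := ∀ (N : ℕ) (_ : NeZero N) (f : VN N → P) (h : VN N → ℝ) (D : P), Pos f →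
  Pos (fun p => f p + h p • D) → Relation.ReflTransGen Mv f (fun p => f p + h p • D)

/-- Descent to the torus: `pr z = pr z'` iff `z' = z + iv v` for some `v`; `pr` is an open quotient map; `Φ⁻¹` commutes
with the translations too. -/
def S_Desc : Prop := ∀ Φ : P ≃ₜ P, (∀ (z : P) (v : ℤ × ℤ), Φ (z + iv v) = Φ z + iv v) →
  ∃ m : T ≃ₜ T, ∀ z, pr (Φ z) = m (pr z)

/-- The support of a move.  Let `zc N b = v`, `z0 = pr (pt N b 0 0)`.  If `dist (pr z) z0 ≥ 1/N` then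
`PLm f z = PLm f' z`: the difference is a sum of the terms `Lam (N z - a) • D` with `zc N a = v`, and
`Lam (N z - a) ≠ 0` implies `|z.1 - a.1 / N| < 1/N`, `|z.2 - a.2 / N| < 1/N`, so `dist (pr z) (pr (pt N a 0 0)) < 1/N`
(the distance in `AddCircle 1` of the images of two reals is at most their distance), and
`pr (pt N a 0 0) = z0` because `a - b ∈ N ℤ²`.  So `m (pr z) = m' (pr z)`. -/
def S_Star : Prop := ∀ (N : ℕ) (_ : NeZero N) (f : VN N → P) (v : VN N) (D : P) (m m' : T ≃ₜ T),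
  (∀ z, pr (PLm f z) = m (pr z)) → (∀ z, pr (PLm (Function.update f v (f v + D)) z) = m' (pr z)) →
  Small (1 / N) (m⁻¹ * m')

/-- Homeomorphisms with small support are in the group (this is proved in part A) -/
def S_SmGT : Prop := ∃ r : ℝ, 0 < r ∧ ∀ s : T ≃ₜ T, Small r s → s ∈ GT

/-- **Reachable positions give elements of the group.**  `N0 ≥ 1 / r`.  Induction on `Reach f`: `PLm 0 = id`; in a step
write `f → f + h D` as a chain of moves of single vertices (`S_Moves`, `Reach.pos`), and for a move `f → f'`,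
`f' = fun p => f p + (if p = v then 1 else 0) • D`: `S_Leaf` gives the homeomorphism, `S_PLc` and `S_Desc` the map `m'` of
the torus, `S_Star` and `S_SmGT` give `m⁻¹ m' ∈ GT`.
Uses `S_PLc`, `S_Leaf`, `S_Moves`, `S_Desc`, `S_Star`, `S_SmGT`. -/
def S_ReachGT : Prop := ∃ N0 : ℕ, ∀ (N : ℕ) (_ : NeZero N), N0 ≤ N → ∀ f : VN N → P, Reach f →
  ∃ g : GT, ∀ z, pr (PLm f z) = (g : T ≃ₜ T) (pr z)

/-! ## curves -/

/-- Translations are in the group: `trans c` is the time-one map of the flow `z ↦ z + s c'`, `pr c' = c`. -/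
def S_Transl : Prop := ∀ c : T, ∃ t : GT, ∀ z, (t : T ≃ₜ T) z = z + c

/-- The curves as level sets.  Let `α = -θ1`, `β = θ2`, `t` the translation by `pr (matP A (α, β))`, `x = g⁻¹ * t`.  For
`w = pr ζ`: `w ∈ mat A (0 × Ci)` iff the first coordinate of `A⁻¹ ζ`, which is `dt (iv (c2 A)) ζ`, up to sign, is an
integer; `w ∈ mat (A * Jm) (0 × Ci) = mat A (Ci × 0)` iff the second coordinate `dt (iv (c1 A)) ζ` is an integer.  Apply
this to `ζ = Φ z - matP A (α, β)`, `Φ z = PLm f z`.  (`dt (iv (c2 A)) (matP A (α, β)) = -α`, `dt (iv (c1 A)) (..) = β`.)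
Uses `S_Transl`. -/
def S_Line : Prop := ∀ (Φ : P → P) (g : GT), (∀ z, pr (Φ z) = (g : T ≃ₜ T) (pr z)) →
  ∀ (A : SL(2, ℤ)) (θ1 θ2 : ℝ), ∃ x : GT,
  (∀ z, pr z ∈ cur (x, A) ↔ ∃ n : ℤ, dt (iv (c2 A)) (Φ z) = θ1 + n) ∧
  ∀ z, pr z ∈ cur (x, A * Jm) ↔ ∃ n : ℤ, dt (iv (c1 A)) (Φ z) = θ2 + n

/-- A level far from the vertices.  Let `n` be the number of vertices, `θ_j = j / (n + 1)`, `j ≤ n`.  Every number is at
distance `< 1 / (2 (n + 1))` from at most one of the sets `θ_j + ℤ`; the numbers `U a` take only `n` values modulo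
one (`hU`).  Pigeonhole. -/
def S_Theta : Prop := ∀ (N : ℕ) (_ : NeZero N) (U : ℤ × ℤ → ℝ),
  (∀ a v : ℤ × ℤ, ∃ n : ℤ, U (a + (N : ℤ) • v) = U a + n) →
  ∃ θ : ℝ, ∀ (a : ℤ × ℤ) (n : ℤ), 1 / (2 * ((N : ℝ) ^ 2 + 1)) ≤ |U a - (θ + n)|

/-- Levels avoid edges and triangles.  `U a = dt (iv l) (pt N a 0 0 + f (zc N a))`, `S_Theta` with `ε = 1/(4(N^2+1))`,
`2ε = 1/(2(N^2+1))`.  On the edges of `K` the function `dt (iv l) (PLm f z)` differs from its value at the first vertex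
by at most `ε` (`S_Tri`: `PLm f (pt N a (s ei k)) = pt N a 0 0 + f (zc N a) + s XX f k (zc N a)`), on the triangles by
at most `(s - t) ε + t ε ≤ ε`.  Uses `S_Tri`, `S_Theta`. -/
def S_Avoid : Prop := ∀ (N : ℕ) (_ : NeZero N) (f : VN N → P) (l : ℤ × ℤ) (K : Fin 3 → VN N → Prop),
  (∀ k p, K k p → |dt (iv l) (XX f k p)| ≤ 1 / (4 * ((N : ℝ) ^ 2 + 1))) →
  ∃ θ : ℝ,
    (∀ k p, K k p → ∀ z, pr z ∈ seg N k p → ¬ ∃ n : ℤ, dt (iv l) (PLm f z) = θ + n) ∧
    (∀ p, K 0 p → K 2 p → ∀ z, pr z ∈ ltr N p → ¬ ∃ n : ℤ, dt (iv l) (PLm f z) = θ + n) ∧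
    (∀ p, K 1 p → K 2 p → ∀ z, pr z ∈ utr N p → ¬ ∃ n : ℤ, dt (iv l) (PLm f z) = θ + n)

/-- Energy estimate for one class.  Weights `M` on `K`, `1` elsewhere; `f` from `S_HarmE`.  By `S_Energy`
`M * dt (iv l) (XX f k p) ^ 2 ≤ ∑∑ w (DU l u)^2 ≤ ∑∑ (DU l u)^2 =: C` for `(k, p) ∈ K`.  `M = max 1 (C / ε^2)`.
Uses `S_Energy`, `S_HarmE`. -/
def S_RealE : Prop := ∀ (N : ℕ) (_ : NeZero N), 2 ≤ N → ∀ (K : Fin 3 → VN N → Prop) (l : ℤ × ℤ)
  (u : VN N → ℝ), (∀ k p, K k p → DU l u k p = 0) → ∀ ε : ℝ, 0 < ε →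
  ∃ f : VN N → P, Reach f ∧ ∀ k p, K k p → |dt (iv l) (XX f k p)| ≤ ε

/-- **Realisation of one curve.**  `S_RealE` with `l = c2 A`, `S_ReachGT`, `S_Avoid`, `S_Line` (`Φ = PLm f`).
Uses `S_ReachGT`, `S_Line`, `S_Avoid`, `S_RealE`. -/
def S_Real : Prop := ∃ N0 : ℕ, ∀ (N : ℕ) (_ : NeZero N), N0 ≤ N → ∀ (K : Fin 3 → VN N → Prop)
  (A : SL(2, ℤ)) (u : VN N → ℝ), (∀ k p, K k p → DU (c2 A) u k p = 0) →
  ∃ x : GT, (∀ k p, K k p → Disjoint (cur (x, A)) (seg N k p)) ∧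
    (∀ p, K 0 p → K 2 p → Disjoint (cur (x, A)) (ltr N p)) ∧
    (∀ p, K 1 p → K 2 p → Disjoint (cur (x, A)) (utr N p))

/-- The sum of the differences of a multivalued function along a closed chain.  `∑ k, ∑ p, c k p * dt (iv l) (EE N k) =
dt (iv l) (iv κ)` and `∑ k, ∑ p, c k p * (u (p + e_k) - u p) = - ∑ p, u p * ∑ k, (c k p - c k (p - e_k)) = 0`. -/
def S_CycSum : Prop := ∀ (N : ℕ) (_ : NeZero N) (c : Fin 3 → VN N → ℤ) (κ : ℤ × ℤ), Cyc c κ →
  ∀ (l : ℤ × ℤ) (u : VN N → ℝ), ∑ k, ∑ p, (c k p : ℝ) * DU l u k p = dt (iv l) (iv κ)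

/-- the weights for a pair of cycles: `M ^ 2` on `σ`, `M` on `α` and `β`, `1` elsewhere -/
noncomputable def wt (M : ℝ) {N : ℕ} (σ α β : Fin 3 → VN N → ℤ) (k : Fin 3) (p : VN N) : ℝ :=
  if σ k p ≠ 0 then M ^ 2 else if α k p ≠ 0 ∨ β k p ≠ 0 then M else 1

/-- Energy estimate for pairs.  `S`, `A`, `B`: the supports of `σ`, `α`, `β` (disjoint), `n = #B ≥ 1`, `η = dt (iv l)
(iv κ)`, `x k p = dt (iv l) (XX f k p) = DU l (dt (iv l) ∘ f) k p`, `C` the sum of `(DU l u)^2` over all edges outside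
`S ∪ A ∪ B`.  `S_Energy`: `M² ∑_S x² + M ∑_A x² + M ∑_B x² ≤ M η²/n + C` (on `B`: `(DU l u)^2 = η²/n²`).
So `∑_S x² ≤ (M η²/n + C) / M²`, and `|∑ σ x| ≤ δ_M`, `δ_M² = #S (M η²/n + C) / M² → 0` (Cauchy-Schwarz,
`|σ| ≤ 1`).  `S_CycSum` for `σ + β`: `∑ β x = η - ∑ σ x`, so `∑_B x² ≥ (∑ β x)²/n ≥ (η² - 2 |η| δ_M)/n`.  Hence
`∑_A x² ≤ C/M + 2 |η| δ_M / n → 0` and `∑_S x² → 0`.  Uses `S_Energy`, `S_CycSum`. -/
def S_PairE : Prop := ∀ (N : ℕ) (_ : NeZero N) (σ α β : Fin 3 → VN N → ℤ) (κ l : ℤ × ℤ) (u : VN N → ℝ),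
  (∀ k p, |σ k p| + |α k p| + |β k p| ≤ 1) → (∃ k p, β k p ≠ 0) → Cyc (fun k p => σ k p + β k p) κ →
  (∀ k p, σ k p ≠ 0 ∨ α k p ≠ 0 → DU l u k p = 0) →
  (∀ k p, β k p ≠ 0 → (∑ k, ∑ p, |(β k p : ℝ)|) * DU l u k p = dt (iv l) (iv κ) * β k p) →
  ∀ ε : ℝ, 0 < ε → ∃ M0 : ℝ, 1 ≤ M0 ∧ ∀ M : ℝ, M0 ≤ M → ∀ f : VN N → P, Harm (wt M σ α β) f →
    ∀ k p, σ k p ≠ 0 ∨ α k p ≠ 0 → |dt (iv l) (XX f k p)| ≤ ε

/-- **Realisation of a pair of curves.**  `S_PairE` for `l = c2 A` (with `κ = e • c1 A`) and for `l = c1 A` with `α`, `β`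
exchanged (`wt` is symmetric), the same `M`; `S_HarmE`, `S_ReachGT`, `S_Avoid` (twice), `S_Line`.
Uses `S_HarmE`, `S_ReachGT`, `S_Line`, `S_Avoid`, `S_PairE`. -/
def S_Pair : Prop := ∃ N0 : ℕ, ∀ (N : ℕ) (_ : NeZero N), N0 ≤ N → ∀ (σ α β : Fin 3 → VN N → ℤ)
  (A : SL(2, ℤ)) (κ κ' : ℤ × ℤ) (u u' : VN N → ℝ),
  (∀ k p, |σ k p| + |α k p| + |β k p| ≤ 1) → (∃ k p, α k p ≠ 0) → (∃ k p, β k p ≠ 0) →
  Cyc (fun k p => σ k p + α k p) κ → Cyc (fun k p => σ k p + β k p) κ' →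
  (∀ k p, σ k p ≠ 0 ∨ α k p ≠ 0 → DU (c2 A) u k p = 0) →
  (∀ k p, β k p ≠ 0 → (∑ k, ∑ p, |(β k p : ℝ)|) * DU (c2 A) u k p = dt (iv (c2 A)) (iv κ') * β k p) →
  (∀ k p, σ k p ≠ 0 ∨ β k p ≠ 0 → DU (c1 A) u' k p = 0) →
  (∀ k p, α k p ≠ 0 → (∑ k, ∑ p, |(α k p : ℝ)|) * DU (c1 A) u' k p = dt (iv (c1 A)) (iv κ) * α k p) →
  ∃ x : GT, (∀ k p, σ k p ≠ 0 ∨ α k p ≠ 0 → Disjoint (cur (x, A)) (seg N k p)) ∧
    ∀ k p, σ k p ≠ 0 ∨ β k p ≠ 0 → Disjoint (cur (x, A * Jm)) (seg N k p)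

end Pool.Agent.MPe54d61.TC
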