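import Pool.Agent.Lib.MP_e54d61_gt.TC.DefsG
import Pool.Agent.Lib.MP_e54d61_gt.TC.SpecH

/-!
# MP_e54d61_gt, torus case: interface between the realisation (part H), the stream functions (part S) and the
assembly (part E)

`UK N K`: there are a primitive class `c2 A` and a function `u` on the vertices such that the multivalued function
`det (c2 A, z) + u z` is constant along all edges in `K`.
-/

set_option autoImplicit false

namespace Pool.Agent.MPe54d61.TC

open Topology MatrixGroups

/-- there is a multivalued function with primitive period which is constant along the edges of `K` -/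
def UK (N : ℕ) (K : Set (Sym2 (VN N))) : Prop :=
  ∃ (A : SL(2, ℤ)) (u : VN N → ℝ), ∀ k p, s(p, p + ed N k) ∈ K → DU (c2 A) u k p = 0

/-- all edges of the grid with both ends outside of `C` -/
def offE (N : ℕ) (C : Set (Sym2 (VN N))) : Set (Sym2 (VN N)) :=
  {e | e ∈ (GN N).edgeSet ∧ ∀ v ∈ e, v ∉ vts C}

/-- **Realisation** (from `S_Real` with `K k p = (s(p, p + ed N k) ∈ K)`; every pair `p, q` of integer points with
`q - p ∈ stp` is `p, p + ei k` or `q + ei k, q`, and the segment from `gp N p` to `gp N (p + ei k)` is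
`{pt N p (s * (ei k).1) (s * (ei k).2)}`).  Uses `S_Real`. -/
def S_KReal : Prop := ∃ N0 : ℕ, ∀ (N : ℕ) (_ : NeZero N), N0 ≤ N → ∀ K : Set (Sym2 (VN N)), UK N K →
  ∃ x : X, Disjoint (cur x) (geo N K) ∧
    (∀ p, s(p, p + ed N 0) ∈ K → s(p, p + ed N 2) ∈ K → Disjoint (cur x) (ltr N p)) ∧
    (∀ p, s(p, p + ed N 1) ∈ K → s(p, p + ed N 2) ∈ K → Disjoint (cur x) (utr N p))

/-- type (S): from the definition; the class of `C` is in `ℤ l` and not zero, so `l ≠ 0`, `l = n • c2 A`; with
`rep : VN N → ℤ × ℤ` (representatives in `[0, N)`), `N • kN u v = (q - p) - (rep v - rep u)` for `u = red p`, `v = red q`,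
`q - p ∈ stp`; `u v = dt (c2 A) (φ v) - dt (c2 A) (rep v) / N` up to sign.  -/
def S_KS : Prop := ∀ (N : ℕ) (_ : NeZero N), 3 ≤ N → ∀ C C' : Set (Sym2 (VN N)), EC (GN N) (kN N) C →
  EC (GN N) (kN N) C' → AdjS (kN N) C C' → UK N (C ∪ C')

/-- type (D), disjoint essential cycles (part S) -/
def S_KD : Prop := ∀ (N : ℕ) (_ : NeZero N), 3 ≤ N → ∀ C C' : Set (Sym2 (VN N)), EC (GN N) (kN N) C →
  EC (GN N) (kN N) C' → AdjD C C' → UK N (C ∪ C')

/-- edges off an essential cycle (part S) -/
def S_KO : Prop := ∀ (N : ℕ) (_ : NeZero N), 3 ≤ N → ∀ C : Set (Sym2 (VN N)), EC (GN N) (kN N) C →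
  UK N (offE N C)

/-- type (I), essential cycles which meet in a common path (parts S and H): the classes have determinant `0`, then
there is the function `u`, or `± 1`, then there is a pair of curves -/
def S_KI : Prop := ∃ N0 : ℕ, ∀ (N : ℕ) (_ : NeZero N), N0 ≤ N → ∀ C C' : Set (Sym2 (VN N)),
  EC (GN N) (kN N) C → EC (GN N) (kN N) C' → AdjI (GN N) (kN N) C C' →
  UK N (C ∪ C') ∨ ∃ (g : GT) (A : SL(2, ℤ)), Disjoint (cur (g, A)) (geo N C) ∧
    Disjoint (cur (g, A * Jm)) (geo N C')

end Pool.Agent.MPe54d61.TC
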