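import Pool.Agent.Lib.MP_e54d61_gt.TC.DefsS

/-!
# MP_e54d61_gt, torus case, part S (stream functions), statements with complete proofs (helper31)

RULES.  Statement `S_Xyz`: file `Pool/Agent/Lib/MP_e54d61_gt/TC/Xyz.lean`, first line
`import Pool.Agent.Lib.MP_e54d61_gt.TC.SpecS`, namespace `Pool.Agent.MPe54d61.TC`, final theorem
`theorem tXyz (h1 : S_A) ... : S_Xyz`; the statements listed under Uses are hypotheses of the theorem, in this
order (some of them are statements of `SpecB`, `SpecP`, `SpecH`).  Auxiliary lemmas private.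

NOTATION (`DefsS`).  `dz a b` (DefsP) is the determinant of two integer vectors.  `cc w a b` is the number of steps `a → b` minus
the number of steps `b → a` of the walk `w` (`cc_cons`, `cc_append`, `cc_swap`, `cc_eq_zero`), `ch w k p = cc w p (p + ed N k)`
is the chain of a walk of the grid.  `rep z` is the representative of `z : VN N` in `[0, N)²`, `cel N x` (DefsP) is the
floor of `x / N`.  `tw κ φ u v = φ v - φ u + dz κ (kN N u v)` is the difference along the edge `u → v` of the multivalued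
function on the vertices with values `φ` and periods `dz κ`; `cls_tw`: the sum along a closed walk `w` is
`dz κ (cls (kN N) w)`.  Further basic facts in `DefsS`: `cls_map`, `cls_add`, `cls_sub`, `cls_pot`, `cls_congr`, `cls_eq_zero`,
`dt_iv`, `EE_iv`, `UK.mono`.

IDEA.  For an essential closed walk `c` of class `κ` there are stream functions `a`, `b` (integers on the lower and upper
triangles of the plane grid), which jump by the number of passages of `c` across every edge.  Around a vertex which is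
not on `c` the six faces have the same value, around a vertex of `c` exactly two values `m`, `m + 1`.  This gives
a function `φ` on the vertices such that `tw κ φ` is `0` along the edges of `c` and between vertices off `c`, and `0` or `1`
when we leave `c` (module Mn).
-/

set_option autoImplicit false

namespace Pool.Agent.MPe54d61.TC

open SimpleGraph MatrixGroups

/-! ## the grid -/

/-- Module Ed (60 lines).  Uses: nothing.
An integer `n` with `0 < |n| < 3` is not zero in `ZMod N` (`(ZMod.intCast_zmod_eq_zero_iff_dvd n N)`, `Int.le_of_dvd`).  (1) For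
`j ≠ k` one coordinate of `ei j - ei k` is `± 1`.  (2) One coordinate of `ei j + ei k` is `1` or `2`.  (3) `p ≠ p + ed N k`,
since `ed N k = 0` contradicts (2); take the integer points `rep p` (`zc N (rep p) = p`), `rep p + ei k`.  (4) From the definition:
`u = zc p`, `v = zc q`, `q - p ∈ stp`; the elements of `stp` are `ei k` and `- ei k` (`k = 0, 1, 2`). -/
def S_Ed : Prop := ∀ N : ℕ, 3 ≤ N →
  (∀ j k : Fin 3, ed N j = ed N k → j = k) ∧ (∀ j k : Fin 3, ed N j + ed N k ≠ 0) ∧
  (∀ (k : Fin 3) (p : VN N), (GN N).Adj p (p + ed N k)) ∧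
  ∀ u v : VN N, (GN N).Adj u v → ∃ k : Fin 3, v = u + ed N k ∨ u = v + ed N k

/-- Module Rep (50 lines).  Uses: Grid.
(1) `ZMod.natCast_zmod_val`.  (2) `ZMod.val_intCast : ((a : ZMod N).val : ℤ) = a % N`, `Int.emod_add_mul_ediv`.  (3) By (2)
`q - p = rep (zc q) - rep (zc p) + N (cel q - cel p)`, and `cel q - cel p = kN (zc p) (zc q)` by Grid (2).  (4) From (3) with `p = rep z`,
`q = rep z + ei k` (`ei k ∈ stp`), and (1), `zc_add`. -/
def S_Rep : Prop := ∀ N : ℕ, 3 ≤ N → (∀ z : VN N, zc N (rep z) = z) ∧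
  (∀ x : ℤ × ℤ, x = rep (zc N x) + (N : ℤ) • cel N x) ∧
  (∀ p q : ℤ × ℤ, q - p ∈ stp →
    q - p = (N : ℤ) • kN N (zc N p) (zc N q) + rep (zc N q) - rep (zc N p)) ∧
  ∀ (z : VN N) (k : Fin 3), ei k = (N : ℤ) • kN N z (z + ed N k) + rep (z + ed N k) - rep z

/-- Module GeoSeg (50 lines).  Uses: nothing.
`z = pr w` with `w ∈ segment ℝ (gp N p) (gp N q)`, `q - p ∈ stp`, `s(zc p, zc q) ∈ C`.  Either `q = p + ei k`: then
`w = gp N p + t • (gp N q - gp N p) = pt N p (t * (ei k).1) (t * (ei k).2)`, `0 ≤ t ≤ 1`, so `z ∈ seg N k (zc p)` and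
`zc q = zc p + ed N k`.  Or `p = q + ei k`: the same with `p`, `q` exchanged (`segment_symm`, `Sym2.eq_swap`). -/
def S_GeoSeg : Prop := ∀ (N : ℕ) (_ : NeZero N) (C : Set (Sym2 (VN N))) (z : T), z ∈ geo N C →
  ∃ (k : Fin 3) (p : VN N), s(p, p + ed N k) ∈ C ∧ z ∈ seg N k p

/-! ## walks in a graph -/

/-- Module Loc (90 lines): an essential cycle at a vertex.  Uses: EssAt.
If `z ∉ c.support` all steps of `c` avoid `z` and `cc c z b = 0` (`cc_eq_zero`, `s(z, b) ∈ eds c` implies `z ∈ c.support`).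
Let `z ∈ c.support`.  Apply `EssAt` to the classes `κ' a b = (κ a b, fun p q => chi p q a b)` in `M × (V → V → ℤ)` (`Ess κ c`
implies `Ess κ' c`; the components of `cls κ'` are `cls κ` and `cc`): there is `c' : Walk z z` with nodup tail,
`eds c' = eds c`, `cls κ c' = cls κ c ≠ 0` and `cc c' = cc c`.  So we may assume `c = c'`, `x = z`.  `c` is not nil, `c = cons (z → y) p`,
`p.support` is nodup, `p` is not nil (`y ≠ z`), so `p = q.append (cons (w → z) nil)` (reverse `p`), `z ∉ q.support`, `q : y → w`.  `y ≠ w`: otherwise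
`q` is a closed path, so nil, and the class is `κ z y + κ y z = 0`.  The edges of `c` are `s(z, y)`, `s(w, z)` and the edges of `q`,
which do not contain `z`; and `cc c z b = chi z b z y + cc q z b + chi z b w z = (if b = y ..) + 0 - (if b = w ..)`. -/
def S_Loc : Prop := ∀ (V M : Type) (_ : DecidableEq V) (_ : AddCommGroup M) (Γ : SimpleGraph V)
  (κ : V → V → M), Anti κ → ∀ (x : V) (c : Γ.Walk x x), Ess κ c →
  (∀ z b : V, z ∉ c.support → cc c z b = 0) ∧
  ∀ z ∈ c.support, ∃ y w : V, y ≠ w ∧ Γ.Adj z y ∧ Γ.Adj z w ∧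
    ∀ b : V, (s(z, b) ∈ eds c ↔ b = y ∨ b = w) ∧
      cc c z b = (if b = y then 1 else 0) - (if b = w then 1 else 0)

/-- Module Trl (70 lines).  Uses: nothing.
(1) `c = cons (x → y) p` (`c` is not nil), `p` is a path (`c.support.tail = p.support`), so `p.edges` is nodup.  If `s(x, y) ∈ p.edges`:
`p : y → x` is not nil, `p = cons (y → y') p'`, `y ∉ p'.support`, so `s(x, y) ∉ p'.edges`, `s(x, y) = s(y, y')`, `y' = x`, `p'` is a closed path, so
nil, and the class of `c` is `κ x y + κ y x = 0`, contradiction.  (2) Induction: `w = cons (u → u') p`, `s(u, u') ∉ p.edges`,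
`u ≠ u'`.  If `s(a, b) = s(u, u')` then `cc p a b = 0` (`cc_eq_zero`) and `chi a b u u' = ± 1`; otherwise `chi a b u u' = 0`. -/
def S_Trl : Prop := ∀ (V M : Type) (_ : DecidableEq V) (_ : AddCommGroup M) (Γ : SimpleGraph V)
  (κ : V → V → M), Anti κ → (∀ (x : V) (c : Γ.Walk x x), Ess κ c → c.edges.Nodup) ∧
  ∀ (u v : V) (w : Γ.Walk u v), w.edges.Nodup → ∀ a b : V,
    |cc w a b| ≤ 1 ∧ (s(a, b) ∈ eds w ↔ cc w a b ≠ 0)

/-- Module Dis3 (90 lines): the three paths of a theta graph have disjoint edges.  Uses: Trl.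
By Trl the edges of `s.α` and `s.β` are nodup, so `eds s` is disjoint from `eds α` and from `eds β`.
Claim: `eds α`, `eds β` are disjoint.  Let `s(a, b)` be in both.  `a`, `b` are in both supports, so in `{x, y}`, and `a ≠ b`
(adjacent), so `x ≠ y` and `s(a, b) = s(x, y)`.  `s` is not nil, so its end `y` is in `s.support.tail`, not in `α.support.tail`
(`ess_append_iff`), so `α : y → x` is a path; as it contains the edge `s(x, y)` it is `cons (y → x) nil` (see Trl), with class
`κ y x`.  The same for `β`.  So the classes of `s.α`, `s.β` are equal, contradiction.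
Not nil: if `α` is nil then `x = y` and `s` is a closed walk which is not nil (class `≠ 0`), so `x ∈ s.support.tail`; if `β` is not
nil then `x ∈ β.support.tail`, contradiction (`ess_append_iff`); so `β` is nil and the classes are equal, contradiction.
Symmetric for `β`.  The rest: Trl (2) for `s`, `α`, `β` (their edges are nodup), and at most one of the three numbers is `≠ 0`. -/
def S_Dis3 : Prop := ∀ (V M : Type) (_ : DecidableEq V) (_ : AddCommGroup M) (Γ : SimpleGraph V)
  (κ : V → V → M), Anti κ → ∀ (x y : V) (s : Γ.Walk x y) (α β : Γ.Walk y x),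
  Ess κ (s.append α) → Ess κ (s.append β) →
  (∀ z, z ∈ α.support → z ∈ β.support → z = x ∨ z = y) →
  cls κ (s.append α) ≠ cls κ (s.append β) →
  ¬ α.Nil ∧ ¬ β.Nil ∧ ∀ a b : V, |cc s a b| + |cc α a b| + |cc β a b| ≤ 1 ∧
    (s(a, b) ∈ eds s ↔ cc s a b ≠ 0) ∧ (s(a, b) ∈ eds α ↔ cc α a b ≠ 0) ∧
    (s(a, b) ∈ eds β ↔ cc β a b ≠ 0)

/-- Module ThPot (100 lines): potentials on theta graphs.  Uses: Pot, PotCls.
(A) Let `c` be a closed walk with `c.support.tail.Nodup` and `cls ρ c = 0`.  Then there is a potential `φ` of `ρ` on `eds c`: `c` nil is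
trivial; `c = cons (z → z') p`, `p` is a path, `φ` from Pot for `p`, and `ρ z z' = - cls ρ p = - (φ z - φ z')` by PotCls (and `Anti ρ`).
(B) Let `φ` be a potential on `eds (s.append α)` by (A).  If `β` is nil we are done.  Otherwise there is a potential `ψ0` on `eds β`: if
`x = y` then `s` is nil (otherwise `x` is in `s.support.tail` and in `β.support.tail`), so `cls ρ β = 0` and (A); if
`x ≠ y` then `s` is not nil, `y ∈ s.support.tail`, so `y ∉ β.support.tail` and `β` is a path, Pot.  Add a constant, so that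
`ψ0 y = φ y`; then `ψ0 x = ψ0 y + cls ρ β = φ y - cls ρ s = φ x` (PotCls twice).
(C) `ψ z = φ z` if `z ∈ (s.append α).support`, `ψ z = ψ0 z` otherwise.  On the edges of `s`, `α` clear.  For `z ∈ β.support` we have `ψ z = ψ0 z`: if
`z ∈ α.support` then `z = x` or `z = y`; if `z ∈ s.support` then `z = x` or `z ∈ s.support.tail`, then `z ∉ β.support.tail`, so `z = y`. -/
def S_ThPot : Prop := ∀ (V M : Type) (_ : AddCommGroup M) (Γ : SimpleGraph V) (κ : V → V → M)
  (ρ : V → V → ℝ), Anti ρ → ∀ (x y : V) (s : Γ.Walk x y) (α β : Γ.Walk y x),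
  Ess κ (s.append α) → Ess κ (s.append β) →
  (∀ z, z ∈ α.support → z ∈ β.support → z = x ∨ z = y) →
  cls ρ (s.append α) = 0 → cls ρ (s.append β) = 0 →
  ∃ ψ : V → ℝ, ∀ a b, s(a, b) ∈ eds s ∪ eds α ∪ eds β → ρ a b = ψ b - ψ a

/-! ## chains -/

/-- Module ChSum (70 lines).  Uses: Ed.
Induction on `w`: it is enough that for adjacent `u`, `v`: `r u v = ∑ k, ∑ p, chi p (p + ed N k) u v • r p (p + ed N k)`.  By Ed (4)
`v = u + ed N j` or `u = v + ed N j`.  In the first case `chi p (p + ed k) u v = 1` if `p = u`, `k = j` (Ed (1)), and `0` otherwise, because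
`u = p + ed k`, `v = p` gives `ed j + ed k = 0`, which is impossible (Ed (2)).  In the second case it is `-1` for `p = v`, `k = j`,
and `0` otherwise; `- r v u = r u v`. -/
def S_ChSum : Prop := ∀ (N : ℕ) (_ : NeZero N), 3 ≤ N → ∀ (M : Type) (_ : AddCommGroup M)
  (r : VN N → VN N → M), Anti r → ∀ (u v : VN N) (w : (GN N).Walk u v),
  cls r w = ∑ k, ∑ p, ch w k p • r p (p + ed N k)

/-- Module ChCyc (60 lines).  Uses: Grid, Rep, ChSum.
(1) For fixed `q` take `r a b = (if a = q then 1 else 0) - (if b = q then 1 else 0)` (in `ℤ`) in ChSum: `cls r w = 0` (`cls_pot`, closed) and the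
sum is `∑ k, (ch w k q - ch w k (q - ed k))`.  (2) Take `r a b = N • kN a b + rep b - rep a`, `Anti` by Grid (1): `cls r w = N • cls kN w` (`cls_add`,
`cls_map`, `cls_pot`), and `r p (p + ed k) = ei k` by Rep (4). -/
def S_ChCyc : Prop := ∀ (N : ℕ) (_ : NeZero N), 3 ≤ N → ∀ (x : VN N) (w : (GN N).Walk x x),
  Cyc (ch w) (cls (kN N) w)

/-! ## stream functions -/

/-- Module Poin (50 lines).  Uses: nothing.
For every `f : ℤ → ℤ` there is `F : ℤ → ℤ` with `F 0 = 0`, `F n - F (n - 1) = f n` (e.g. `F n = ∑ i ∈ Finset.Ioc 0 n, f i - ∑ i ∈ Finset.Ioc n 0, f i`, or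
recursion on `Int`).  For every `y` let `G y` be this function for `i ↦ g (i, y)`, and `H` the one for `j ↦ h (0, j)`;
`a (x, y) = H y + G y x`.  The first equation is clear.  `D x = a (x, y) - a (x, y - 1) - h (x, y)` is `0` for `x = 0` and
`D x - D (x - 1) = 0` by the assumption, so `D = 0` (`Int.induction_on`). -/
def S_Poin : Prop := ∀ g h : ℤ × ℤ → ℤ, (∀ x, g x - g (x - ei 1) = h x - h (x - ei 0)) →
  ∃ a : ℤ × ℤ → ℤ, ∀ x, a x - a (x - ei 0) = g x ∧ a x - a (x - ei 1) = h x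

/-- Module Per (80 lines).  Uses: nothing.
`D v x = a (x + N v) - a x` satisfies `D v x = D v (x - ei 0) = D v (x - ei 1)` because `zc (x + N v) = zc x`; so `D v x = D v 0 =: Q v` (integer
induction in both coordinates).  `Q (v + w) = (a (N v + N w) - a (N v)) + (a (N v) - a 0) = Q w + Q v`, so
`Q v = v.1 * Q (1, 0) + v.2 * Q (0, 1)` (`AddMonoidHom`, `map_zsmul`).  `s = Q (1, 0)`: for every `j`, `s = a (N, j) - a (0, j) = ∑ i < N, g (zc (i + 1, j))`
(telescoping), and the sum over `j < N` is `N s = ∑ p, g p` (sum over `ZMod N` as sum over `range N`, and a shift by one).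
The same for `t`. -/
def S_Per : Prop := ∀ (N : ℕ) (_ : NeZero N) (a : ℤ × ℤ → ℤ) (g h : VN N → ℤ),
  (∀ x, a x - a (x - ei 0) = g (zc N x) ∧ a x - a (x - ei 1) = h (zc N x)) →
  ∃ s t : ℤ, (N : ℤ) * s = ∑ p, g p ∧ (N : ℤ) * t = ∑ p, h p ∧
    ∀ x v : ℤ × ℤ, a (x + (N : ℤ) • v) = a x + v.1 * s + v.2 * t

/-- Module Strm (70 lines).  Uses: Poin, Per.
`g p = -(c 1 p + c 2 p)`, `h p = c 0 p + c 2 (p - ed N 1)`; `zc (x - ei k) = zc x - ed N k`.  The compatibility in Poin for `g ∘ zc`, `h ∘ zc` is the condition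
`∑ k, (c k p - c k (p - ed k)) = 0` (`ed_two`).  `a` from Poin, `b x = a x + c 2 (zc x)`.  The three equations are clear.  Periods: the
coordinates of `∑∑ c k p • ei k = N • κ` are `∑ c 0 + ∑ c 2 = N κ.1`, `∑ c 1 + ∑ c 2 = N κ.2`, so in Per `N s = - N κ.2`, `N t = N κ.1` (reindexing),
`s = - κ.2`, `t = κ.1`. -/
def S_Strm : Prop := ∀ (N : ℕ) (_ : NeZero N) (c : Fin 3 → VN N → ℤ) (κ : ℤ × ℤ), Cyc c κ →
  ∃ a b : ℤ × ℤ → ℤ, (∀ x, b x - a x = c 2 (zc N x)) ∧ (∀ x, a x - b (x - ei 1) = c 0 (zc N x)) ∧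
    (∀ x, a (x - ei 0) - b x = c 1 (zc N x)) ∧
    ∀ x v : ℤ × ℤ, a (x + (N : ℤ) • v) = a x + dz κ v ∧ b (x + (N : ℤ) • v) = b x + dz κ v

/-- Module Six (20 lines).  Uses: nothing.
Going round, the values are `F 0` and at most one other value, `F 0 + 1` or `F 0 - 1`.  (36 cases, `fin_cases j`, `fin_cases l`, and
`omega` for `(∀ i, F i = F 0 ∨ F i = F 0 + 1) ∨ ∀ i, F i = F 0 ∨ F i = F 0 - 1`.) -/
def S_Six : Prop := ∀ (F : Fin 6 → ℤ) (j l : Fin 6),
  (∀ i, F (i + 1) - F i = (if i + 1 = j then 1 else 0) - (if i + 1 = l then 1 else 0)) →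
  ∃ m : ℤ, ∀ i, F i = m ∨ F i = m + 1

/-- Module Ring (130 lines): the faces around the vertices.  Uses: Grid, Ed, Loc, ChCyc, Strm, Six.
`a`, `b` from Strm for `ch c` (ChCyc), `κ = cls (kN N) c`.  Let `F x = ![a x, b x, a (x - ei 0), b (x - ei 2), a (x - ei 2), b (x - ei 1)]` (the six
faces around `x`, counterclockwise) and `dd = ![ed 0, ed 2, ed 1, -ed 0, -ed 2, -ed 1]`, which is injective (Ed (1), (2)).  For all `i : Fin 6`
`F x (i + 1) - F x i = cc c (zc x) (zc x + dd (i + 1))`: six checks, the three equations of Strm at `x`, `x - ei 2`, `x - ei 1`, `x - ei 0`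
(`ei 2 = ei 0 + ei 1`, `zc (x - ei k) = zc x - ed k`, `cc_swap`).
Let `m x` be the minimum of the six values (`Finset.univ.inf'`, or `min`).  Claim: all six values are `m x` or `m x + 1`, and all are
`m x` if `zc x ∉ c.support`.  If `zc x ∉ c.support` all differences are `0` (Loc (1)).  If `zc x ∈ c.support`: by Loc (2) and Ed (4)
`y = zc x + dd j`, `w = zc x + dd l`, so the differences are as in Six, which gives the claim.  `m (x + N v) = m x + dz κ v` from the periods of
`a`, `b`.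
The faces on the left and on the right of the edge from `x` to `x + ei k`: `L = ![a x, a (x - ei 0), b x]`,
`R = ![b (x - ei 1), b x, a x]`; `L - R = ch c k (zc x)` by Strm.  They are faces around `x` and around `x + ei k`:
`L 0 x = F x 0 = F (x + ei 0) 2`, `R 0 x = F x 5 = F (x + ei 0) 3`, `L 1 x = F x 2 = F (x + ei 1) 4`, `R 1 x = F x 1 = F (x + ei 1) 5`,
`L 2 x = F x 1 = F (x + ei 2) 3`, `R 2 x = F x 0 = F (x + ei 2) 4`. -/
def S_Ring : Prop := ∀ (N : ℕ) (_ : NeZero N), 3 ≤ N → ∀ (x0 : VN N) (c : (GN N).Walk x0 x0),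
  Ess (kN N) c → ∃ (m : ℤ × ℤ → ℤ) (L R : Fin 3 → ℤ × ℤ → ℤ),
    (∀ x v : ℤ × ℤ, m (x + (N : ℤ) • v) = m x + dz (cls (kN N) c) v) ∧
    ∀ k x, L k x - R k x = ch c k (zc N x) ∧
      (L k x = m x ∨ L k x = m x + 1) ∧ (R k x = m x ∨ R k x = m x + 1) ∧
      (L k x = m (x + ei k) ∨ L k x = m (x + ei k) + 1) ∧
      (R k x = m (x + ei k) ∨ R k x = m (x + ei k) + 1) ∧
      (zc N x ∉ c.support → L k x = m x) ∧ (zc N (x + ei k) ∉ c.support → L k x = m (x + ei k))

/-- Module Mn (80 lines): **the multivalued function of an essential cycle.**  Uses: Grid, Rep, Loc, Ring.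
`m`, `L`, `R` from Ring, `φ z = m (rep z)`.  Let `u`, `v` be adjacent, `p = rep u`.  Grid (3): `q` with `q - p ∈ stp`, `zc q = v`.  By Rep (3)
`q = rep v + N • kN u v`, so `m q = φ v + dz κ (kN u v)`, and `tw κ φ u v = m q - m p`.  The elements of `stp` are `± ei k`.  If `q = p + ei k` let
`L = L k p`, `R = R k p`, `L - R = cc c u v`; if `p = q + ei k` let `L = L k q`, `R = R k q`, `L - R = cc c v u = - cc c u v`.  In both cases
`L, R ∈ {m p, m p + 1} ∩ {m q, m q + 1}`, so `|m q - m p| ≤ 1`; if `s(u, v) ∈ eds c` then `u ∈ c.support` and `cc c u v ≠ 0` (Loc (2)), `L ≠ R`, so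
`m p = m q`; if `v ∉ c.support` then `m q = L ∈ {m p, m p + 1}`; if `u ∉ c.support` then `m p = L ∈ {m q, m q + 1}` (`omega`). -/
def S_Mn : Prop := ∀ (N : ℕ) (_ : NeZero N), 3 ≤ N → ∀ (x0 : VN N) (c : (GN N).Walk x0 x0),
  Ess (kN N) c → ∃ φ : VN N → ℤ, ∀ u v : VN N, (GN N).Adj u v →
    (s(u, v) ∈ eds c → tw (cls (kN N) c) φ u v = 0) ∧
    (v ∉ c.support → tw (cls (kN N) c) φ u v = 0 ∨ tw (cls (kN N) c) φ u v = 1) ∧
    (u ∉ c.support → tw (cls (kN N) c) φ u v = 0 ∨ tw (cls (kN N) c) φ u v = -1) ∧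
    |tw (cls (kN N) c) φ u v| ≤ 1

/-! ## the functions `u` -/

/-- Module Prim (40 lines).  Uses: nothing.
`n = gcd`, `κ = n • (a, b)` with `a`, `b` coprime, `x * b - a * y = 1` (`Int.isCoprime_iff_gcd_eq_one`, `IsCoprime`), `A = !![x, a; y, b]`. -/
def S_Prim : Prop := ∀ κ : ℤ × ℤ, κ ≠ 0 → ∃ (n : ℤ) (A : SL(2, ℤ)), n ≠ 0 ∧ κ = n • c2 A

/-- Module UKof (40 lines).  Uses: Rep.
`u z = ψ z - dt (iv l) (iv (rep z)) / N`.  By Rep (4) and `EE_iv`: `dt (iv l) (EE N k) = dz l (kN p (p + ed k)) +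
(dt (iv l) (iv (rep (p + ed k))) - dt (iv l) (iv (rep p))) / N`. -/
def S_UKof : Prop := ∀ (N : ℕ) (_ : NeZero N), 3 ≤ N → ∀ (l : ℤ × ℤ) (ψ : VN N → ℝ),
  ∃ u : VN N → ℝ, ∀ k p,
    DU l u k p = (dz l (kN N p (p + ed N k)) : ℝ) + ψ (p + ed N k) - ψ p

/-- Module KDO (60 lines): edges of an essential cycle and edges off it.  Uses: Ed, Prim, UKof, Mn.
`C = eds c`, `κ = cls (kN N) c ≠ 0`, `φ` from Mn, `κ = n • c2 A` (Prim), `u` from UKof for `c2 A` and `ψ = φ / n`.  Then
`n * DU (c2 A) u k p = tw κ φ p (p + ed k)` (`dz_smul_left`).  `p`, `p + ed k` are adjacent (Ed (3)).  If the edge is in `C` then `tw = 0`.  If it is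
in `offE N C`, both ends are not in `vts C`, which is the support of `c` (`vts_eds_of_ne`, `c` is not nil because the class is `≠ 0`), so `tw` is in
`{0, 1}` and in `{0, -1}`. -/
def S_KDO : Prop := ∀ (N : ℕ) (_ : NeZero N), 3 ≤ N → ∀ C : Set (Sym2 (VN N)),
  EC (GN N) (kN N) C → UK N (C ∪ offE N C)

/-
Module KD (25 lines), statement `S_KD` of `SpecK`.  Uses: KDO.  `C ∪ C' ⊆ C ∪ offE N C` and `UK.mono`: an edge `e ∈ C' = eds c'` is an edge of
the graph (`Walk.edges_subset_edgeSet`), and its ends are in `vts C'`, so not in `vts C`.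

Module KO (10 lines), statement `S_KO` of `SpecK`.  Uses: KDO.

Module Det (30 lines), statement `S_Det` of `SpecP`.  Uses: Mn.  `φ` from Mn for `c`, `κ = cls (kN N) c`; `dz κ (cls (kN N) d) = cls (tw κ φ) d`
(`cls_tw`, `d` closed) `= 0` (`cls_eq_zero`: the ends of a step of `d` are in `d.support`, so not in `c.support`, and `tw` is in `{0, 1}` and
in `{0, -1}`).

Module KS (50 lines), statement `S_KS` of `SpecK`.  Uses: Prim, UKof.  `AdjS` gives `φ : VN N → ℤ × ℤ` and `l`.  `C = eds c`; `cls (kN N) c =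
cls (fun a b => kN a b - (φ b - φ a)) c` (`cls_sub`, `cls_pot`) is in `zmultiples l` (induction) and `≠ 0`, so `l ≠ 0`, `l = n • c2 A` (Prim).  `u` from UKof
for `c2 A` and `ψ z = - dz (c2 A) (φ z)`.  On the edges of `C ∪ C'`: `kN a b - (φ b - φ a) = i • l = (i * n) • c2 A`, so `dz (c2 A)` of it is `0`,
which is `DU = 0`.

Module KReal (50 lines), statement `S_KReal` of `SpecK`.  Uses: Real, GeoSeg.  `K k p := s(p, p + ed N k) ∈ K`.
-/

/-! ## type (I) -/

/-- Module KIb (90 lines): **the determinant is at most one.**  Uses: Mn.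
`φ` from Mn for `c = s.append α`, `κ` its class, `t = tw κ φ`.  `dz κ (cls (kN N) (s.append β)) = cls t (s.append β) = cls t s + cls t β` and `cls t s = 0`
(`cls_eq_zero`, Mn (1)), so we have to show `|cls t β| ≤ 1`.  A vertex `z ∉ {x, y}` of `β` is not in `c.support`: it is not in `α.support` by
assumption, and if `z ∈ s.support` then `z` is in `s.support.tail` and in `β.support.tail`, contradiction (`ess_append_iff`).
`β` nil: `0`.  `β = cons h nil`: Mn (4).  Otherwise `β = cons (y → z) p`, `p : z → x` not nil, `p.support = β.support.tail` is nodup.  No vertex of `p`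
except for its last one `x` is `x` or `y` (`x` is the last vertex of `p` and `p.support` is nodup; if `x ≠ y` then `s` is not nil, `y ∈ s.support.tail`, so
`y ∉ β.support.tail`).  So all vertices of `p` except for the last one are off `c`.  `t y z ∈ {0, 1}` by Mn (2).  `cls t p ∈ {0, -1}`: induction on `p` (all
steps except for the last one have both ends off `c`, so `t = 0`; the last step has `t ∈ {0, -1}` by Mn (3)). -/
def S_KIb : Prop := ∀ (N : ℕ) (_ : NeZero N), 3 ≤ N → ∀ (x y : VN N) (s : (GN N).Walk x y)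
  (α β : (GN N).Walk y x), Ess (kN N) (s.append α) → Ess (kN N) (s.append β) →
  (∀ z, z ∈ α.support → z ∈ β.support → z = x ∨ z = y) →
  |dz (cls (kN N) (s.append α)) (cls (kN N) (s.append β))| ≤ 1

/-- Module KI0 (50 lines): determinant zero.  Uses: Grid, ThPot, Prim, UKof.
`κ1 = cls (kN N) (s.append α) = n • c2 A` (Prim).  `ρ a b = - dz (c2 A) (kN a b)` (a real number), `Anti ρ` by Grid (1);
`cls ρ (s.append α) = - dz (c2 A) κ1 = 0`, `cls ρ (s.append β) = - dz (c2 A) κ2 = 0` because `n * dz (c2 A) κ2 = dz κ1 κ2 = 0` (`cls_map`).  `ψ` from ThPot,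
`u` from UKof for `c2 A` and `ψ`: on the edges `DU (c2 A) u = dz (c2 A) (kN a b) + ρ a b = 0`. -/
def S_KI0 : Prop := ∀ (N : ℕ) (_ : NeZero N), 3 ≤ N → ∀ (x y : VN N) (s : (GN N).Walk x y)
  (α β : (GN N).Walk y x), Ess (kN N) (s.append α) → Ess (kN N) (s.append β) →
  (∀ z, z ∈ α.support → z ∈ β.support → z = x ∨ z = y) →
  dz (cls (kN N) (s.append α)) (cls (kN N) (s.append β)) = 0 →
  UK N (eds (s.append α) ∪ eds (s.append β))

/-- Module PairU (110 lines): the function which is constant on `s`, `α` and linear on `β`.  Uses: Grid, Ed, ChSum, UKof,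
Dis3, ThPot.
Dis3 applies.  `n = ∑∑ |ch β k p|` (real), `n > 0`: `β` is not nil, so it has an edge, which is `s(p, p + ed N k)` for some `k`, `p` (Ed (4)), and
`ch β k p ≠ 0` there (Dis3).  `κ2 = cls (kN N) (s.append β)`, `η = dt (iv l) (iv κ2) = dz l κ2`.  Let
`ρ a b = (η / n) * cc β a b - dz l (kN a b)` (real), `Anti ρ` (`cc_swap`, Grid (1)).  By ChSum with `r a b = (cc β a b : ℝ)`:
`cls r w = ∑∑ ch w k p * ch β k p`; for `w = s.append α` this is `0` (disjoint supports, Dis3), for `w = s.append β` it is `∑∑ (ch β k p)^2 = n`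
(`|ch β| ≤ 1`).  So `cls ρ (s.append α) = 0 - dz l κ1 = 0`, `cls ρ (s.append β) = η - η = 0` (`cls_sub`, `cls_map`).  `ψ` from ThPot, `u` from UKof
for `l`, `ψ`: on the edges `DU l u k p = dz l (kN ..) + ρ p (p + ed k) = (η / n) * ch β k p`. -/
def S_PairU : Prop := ∀ (N : ℕ) (_ : NeZero N), 3 ≤ N → ∀ (x y : VN N) (s : (GN N).Walk x y)
  (α β : (GN N).Walk y x), Ess (kN N) (s.append α) → Ess (kN N) (s.append β) →
  (∀ z, z ∈ α.support → z ∈ β.support → z = x ∨ z = y) →
  cls (kN N) (s.append α) ≠ cls (kN N) (s.append β) →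
  ∀ l : ℤ × ℤ, dz l (cls (kN N) (s.append α)) = 0 →
  (∃ k p, ch β k p ≠ 0) ∧ 0 < ∑ k, ∑ p, |(ch β k p : ℝ)| ∧
  ∃ u : VN N → ℝ, ∀ k p, s(p, p + ed N k) ∈ eds s ∪ eds α ∪ eds β →
    (∑ k, ∑ p, |(ch β k p : ℝ)|) * DU l u k p =
      dt (iv l) (iv (cls (kN N) (s.append β))) * ch β k p

/-- Module PairG (110 lines): determinant `± 1`.  Uses: Grid, ChCyc, Dis3, PairU, GeoSeg, Pair.
`κ1`, `κ2` the classes of `s.append α`, `s.append β`, `ε = dz κ1 κ2 = ± 1`, so `κ1 ≠ κ2`.  `A = !![-ε * κ2.1, κ1.1; -ε * κ2.2, κ1.2]`, `det A = ε * dz κ1 κ2 = 1`,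
`c2 A = κ1`, `c1 A = (-ε) • κ2`.  `N0 = max 3 N0'`, `N0'` from Pair.  Apply Pair to `ch s`, `ch α`, `ch β`, `A`, `κ1`, `κ2`, `u`, `u'` where `u` is from PairU for
`l = c2 A` (`dz κ1 κ1 = 0`) and `u'` is from PairU for `s`, `β`, `α` and `l = c1 A` (`dz (c1 A) κ2 = 0`).  The hypotheses: the first one is Dis3; the
chains are closed by ChCyc for `s.append α`, `s.append β` (`ch_append`); if `ch s k p ≠ 0` or `ch α k p ≠ 0` the edge is in `eds s ∪ eds α` (Dis3), `ch β k p = 0`
and `DU (c2 A) u k p = 0` because `∑∑ |ch β| > 0`; the others are similar.  Result `x : GT`, `g = x`.  If `z ∈ cur (x, A)` and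
`z ∈ geo N (eds (s.append α))`, GeoSeg gives `k`, `p` with `s(p, p + ed N k) ∈ eds s ∪ eds α`, so `ch s k p ≠ 0` or `ch α k p ≠ 0`, and `z ∈ seg N k p`,
contradiction; the same for `β`. -/
def S_PairG : Prop := ∃ N0 : ℕ, ∀ (N : ℕ) (_ : NeZero N), N0 ≤ N → ∀ (x y : VN N)
  (s : (GN N).Walk x y) (α β : (GN N).Walk y x), Ess (kN N) (s.append α) → Ess (kN N) (s.append β) →
  (∀ z, z ∈ α.support → z ∈ β.support → z = x ∨ z = y) →
  |dz (cls (kN N) (s.append α)) (cls (kN N) (s.append β))| = 1 →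
  ∃ (g : GT) (A : SL(2, ℤ)), Disjoint (cur (g, A)) (geo N (eds (s.append α))) ∧
    Disjoint (cur (g, A * Jm)) (geo N (eds (s.append β)))

/-
Module KI (30 lines), statement `S_KI` of `SpecK`.  Uses: KIb, KI0, PairG.  `N0 = max 3 N0'`.  `AdjI` gives `x, y, s, α, β`; the determinant is `0` (KI0) or
`± 1` (PairG) by KIb.
-/

end Pool.Agent.MPe54d61.TC
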