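import Pool.Agent.Lib.MP_e54d61_gt.TC.SpecP

set_option autoImplicit false

namespace Pool.Agent.MPe54d61.TC

open SimpleGraph

theorem tSurg (hPotCls : S_PotCls) (hEssGlue : S_EssGlue) : S_Surg := by
  classical
  intro V M _ Γ κ hκ u v π0 τ φ ψ hπ hφ hψ hcls
  have hφc : ∀ (a b : V) (w : Γ.Walk a b), eds w ⊆ eds π0 → cls κ w = φ b - φ a :=
    fun a b w hw => hPotCls V M _ Γ κ (eds π0) φ hφ a b w hw
  have hψc : ∀ (a b : V) (w : Γ.Walk a b), eds w ⊆ eds τ → cls κ w = ψ b - ψ a :=
    fun a b w hw => hPotCls V M _ Γ κ (eds τ) ψ hψ a b w hw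
  let G : ℕ → Prop := fun n => ∃ (a b : V) (ρ : Γ.Walk a b), a ∈ π0.support ∧ b ∈ π0.support ∧
    eds ρ ⊆ eds τ ∧ cls κ ρ ≠ φ b - φ a ∧ ρ.length = n
  have hG : ∃ n, G n := by
    refine ⟨τ.length, v, u, τ, π0.end_mem_support, π0.start_mem_support, subset_rfl, ?_, rfl⟩
    intro h
    apply hcls
    rw [h, hφc u v π0 subset_rfl]
    abel
  obtain ⟨a, b, ρ0, ha, hb, hρe0, hρc0, hρl0⟩ := Nat.find_spec hG
  have hmin : ∀ (a' b' : V) (ρ' : Γ.Walk a' b'), a' ∈ π0.support → b' ∈ π0.support →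
      eds ρ' ⊆ eds τ → ρ'.length < ρ0.length → cls κ ρ' = φ b' - φ a' := by
    intro a' b' ρ' h1 h2 h3 h4
    by_contra h5
    rw [hρl0] at h4
    exact Nat.find_min hG h4 ⟨a', b', ρ', h1, h2, h3, h5, rfl⟩
  have hab : a ≠ b := by
    rintro rfl
    apply hρc0
    rw [hψc a a ρ0 hρe0]
    abel
  -- the bypass
  obtain ⟨ρ, hρp, hρe, hρl, hρc⟩ : ∃ ρ : Γ.Walk a b, ρ.IsPath ∧ eds ρ ⊆ eds τ ∧
      ρ.length ≤ ρ0.length ∧ cls κ ρ ≠ φ b - φ a := by
    have he : eds ρ0.bypass ⊆ eds τ :=
      fun e he => hρe0 (Walk.edges_bypass_subset_edges ρ0 he)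
    refine ⟨ρ0.bypass, Walk.bypass_isPath ρ0, he, Walk.length_bypass_le_length ρ0, ?_⟩
    rw [hψc a b _ he, ← hψc a b ρ0 hρe0]
    exact hρc0
  have hinner : ∀ z ∈ ρ.support, z ∈ π0.support → z = a ∨ z = b := by
    intro z hz hzπ
    by_contra hcon
    push Not at hcon
    have hsp := Walk.take_spec ρ hz
    have h1 : (ρ.takeUntil z hz).length < ρ0.length :=
      lt_of_lt_of_le (Walk.length_takeUntil_lt_length hz hcon.2) hρl
    have h2 : (ρ.dropUntil z hz).length < ρ0.length := by
      have hl : (ρ.takeUntil z hz).length + (ρ.dropUntil z hz).length = ρ.length := by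
        rw [← Walk.length_append, hsp]
      have h0 : (ρ.takeUntil z hz).length ≠ 0 := by
        intro h0
        exact hcon.1 (Walk.eq_of_length_eq_zero h0).symm
      omega
    have e1 : eds (ρ.takeUntil z hz) ⊆ eds τ :=
      fun e he => hρe (Walk.edges_takeUntil_subset_edges ρ hz he)
    have e2 : eds (ρ.dropUntil z hz) ⊆ eds τ :=
      fun e he => hρe (Walk.edges_dropUntil_subset_edges ρ hz he)
    have c1 := hmin a z _ ha hzπ e1 h1
    have c2 := hmin z b _ hzπ hb e2 h2
    apply hρc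
    rw [← hsp, cls_append, c1, c2]
    abel
  -- the path in `π0`
  let p0 : Γ.Walk b a := (π0.takeUntil b hb).reverse.append (π0.takeUntil a ha)
  have hp0e : eds p0 ⊆ eds π0 := by
    intro e he
    simp only [p0, eds_append, eds_reverse] at he
    rcases he with he | he
    · exact Walk.edges_takeUntil_subset_edges π0 hb he
    · exact Walk.edges_takeUntil_subset_edges π0 ha he
  have hp0s : p0.support ⊆ π0.support := by
    intro z hz
    simp only [p0, Walk.mem_support_append_iff, Walk.support_reverse, List.mem_reverse] at hz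
    rcases hz with hz | hz
    · exact Walk.support_takeUntil_subset_support π0 hb hz
    · exact Walk.support_takeUntil_subset_support π0 ha hz
  have hpe : eds p0.bypass ⊆ eds π0 := fun e he => hp0e (Walk.edges_bypass_subset_edges p0 he)
  have hps : p0.bypass.support ⊆ π0.support :=
    fun z hz => hp0s (Walk.support_bypass_subset_support p0 hz)
  refine ⟨b, a, p0.bypass, ρ, hab.symm, ?_, hpe, hρe⟩
  apply ess_comm
  apply hEssGlue V M _ Γ κ a b ρ p0.bypass
  · exact hρp.support_nodup.sublist (List.tail_sublist _)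
  · exact Walk.bypass_isPath p0
  · intro h
    exfalso
    have hnd := hρp.support_nodup
    rw [← Walk.cons_tail_support, List.nodup_cons] at hnd
    exact hnd.1 h
  · intro z hz hz'
    exact hinner z hz (hps hz')
  · intro h
    apply hρc
    rw [hφc b a _ hpe] at h
    rw [eq_sub_iff_add_eq]
    rw [← sub_eq_zero]
    rw [← h]
    abel

end Pool.Agent.MPe54d61.TC
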