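import Pool.Agent.Lib.MP_e54d61_gt.TC.SpecA

/-!
# MP_e54d61_gt, torus case, part A: transport of a flow with compact support
-/

set_option autoImplicit false

namespace Pool.Agent.MPe54d61.TC

open Topology

private theorem TrFl_out {U X : Type} (j : U → X) (h : U → U) (x : X) (hx : x ∉ Set.range j) :
    Function.extend j (fun u => j (h u)) id x = x := by
  rw [Function.extend_apply' _ _ _ (fun ⟨a, ha⟩ => hx ⟨a, ha⟩)]
  rfl

private theorem TrFl_outK {U X : Type} {j : U → X} (hj : Function.Injective j) {K : Set U}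
    {h : U → U} (hh : ∀ u, u ∉ K → h u = u) (x : X) (hx : x ∉ j '' K) :
    Function.extend j (fun u => j (h u)) id x = x := by
  by_cases hy : x ∈ Set.range j
  · obtain ⟨u, rfl⟩ := hy
    rw [hj.extend_apply, hh u fun hu => hx ⟨u, hu, rfl⟩]
  · exact TrFl_out j h x hy

private theorem TrFl_cont {U X : Type} [TopologicalSpace U] [TopologicalSpace X] [T2Space X]
    {j : U → X} (hj : IsOpenEmbedding j) {K : Set U} (hK : IsCompact K) (φ : Flow ℝ U)
    (hh : ∀ (s : ℝ) (z : U), z ∉ K → φ s z = z) :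
    Continuous (Function.uncurry fun (s : ℝ) (x : X) =>
      Function.extend j (fun u => j (φ s u)) id x) := by
  rw [continuous_iff_continuousAt]
  rintro ⟨s, x⟩
  by_cases hx : x ∈ Set.range j
  · obtain ⟨u, rfl⟩ := hx
    have hJ : IsOpenEmbedding (Prod.map (id : ℝ → ℝ) j) := IsOpenEmbedding.id.prodMap hj
    have h0 : ((s, j u) : ℝ × X) = Prod.map (id : ℝ → ℝ) j (s, u) := rfl
    rw [h0, ← hJ.continuousAt_iff]
    have h1 : (Function.uncurry fun (s : ℝ) (x : X) =>
        Function.extend j (fun u => j (φ s u)) id x) ∘ (Prod.map (id : ℝ → ℝ) j) =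
        fun p : ℝ × U => j (φ p.1 p.2) := by
      funext p
      exact hj.injective.extend_apply (fun u => j (φ p.1 u)) id p.2
    rw [h1]
    exact (hj.continuous.comp (φ.continuous continuous_fst continuous_snd)).continuousAt
  · have h1 : IsOpen ((Set.univ : Set ℝ) ×ˢ (j '' K)ᶜ) :=
      isOpen_univ.prod (hK.image hj.continuous).isClosed.isOpen_compl
    have h2 : (s, x) ∈ (Set.univ : Set ℝ) ×ˢ (j '' K)ᶜ :=
      ⟨Set.mem_univ _, fun ⟨u, _, hu⟩ => hx ⟨u, hu⟩⟩
    refine ContinuousAt.congr (f := Prod.snd) continuousAt_snd ?_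
    filter_upwards [h1.mem_nhds h2] with y hy
    exact (TrFl_outK hj.injective (hh y.1) y.2 hy.2).symm

theorem tTrFl : S_TrFl := by
  intro U X _ _ _ j hj K hK φ hh
  refine ⟨⟨fun s x => Function.extend j (fun u => j (φ s u)) id x, TrFl_cont hj hK φ hh, ?_, ?_⟩,
    fun s u => ?_, fun s x hx => ?_⟩
  · intro t₁ t₂ x
    by_cases hx : x ∈ Set.range j
    · obtain ⟨u, rfl⟩ := hx
      simp only [hj.injective.extend_apply, φ.map_add]
    · rw [TrFl_out j _ x hx, TrFl_out j _ x hx, TrFl_out j _ x hx]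
  · intro x
    by_cases hx : x ∈ Set.range j
    · obtain ⟨u, rfl⟩ := hx
      simp only [hj.injective.extend_apply, φ.map_zero_apply]
    · rw [TrFl_out j _ x hx]
  · exact hj.injective.extend_apply (fun u => j (φ s u)) id u
  · exact TrFl_outK hj.injective (hh s) x hx

end Pool.Agent.MPe54d61.TC
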