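import Pool.Agent.Lib.MP_e54d61_gt.TC.SpecA

/-!
# MP_e54d61_gt, torus case: V0
-/

set_option autoImplicit false

namespace Pool.Agent.MPe54d61.TC

open Topology MatrixGroups

/-- the cut off -/
noncomputable def V0_c (R x : ℝ) : ℝ := max 0 (min 1 (-x / R))

theorem V0_c_left {R x : ℝ} (hR : 0 < R) (hx : x ≤ -R) : V0_c R x = 1 := by
  unfold V0_c
  have h1 : 1 ≤ -x / R := by
    rw [le_div_iff₀ hR]
    linarith
  rw [min_eq_left h1, max_eq_right zero_le_one]

theorem V0_c_right {R x : ℝ} (hR : 0 < R) (hx : 0 ≤ x) : V0_c R x = 0 := by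
  unfold V0_c
  have h1 : -x / R ≤ 0 := div_nonpos_of_nonpos_of_nonneg (by linarith) hR.le
  rw [min_eq_right (h1.trans zero_le_one), max_eq_left h1]

theorem V0_c_nonneg (R x : ℝ) : 0 ≤ V0_c R x := le_max_left _ _

theorem V0_c_le (R x : ℝ) : V0_c R x ≤ 1 := max_le zero_le_one (min_le_left _ _)

theorem V0_c_lip {R x y : ℝ} (hR : 0 < R) (hxy : x ≤ y) :
    V0_c R y ≤ V0_c R x ∧ V0_c R x - V0_c R y ≤ (y - x) / R := by
  have h1 : -y / R ≤ -x / R := by
    apply div_le_div_of_nonneg_right _ hR.le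
    linarith
  have h2 : -x / R - -y / R = (y - x) / R := by ring
  constructor
  · exact max_le_max le_rfl (min_le_min le_rfl h1)
  · unfold V0_c
    rw [← h2]
    rcases le_total 1 (-x / R) with ha | ha <;> rcases le_total 1 (-y / R) with hb | hb <;>
      rcases le_total 0 (-x / R) with hc | hc <;> rcases le_total 0 (-y / R) with hd | hd <;>
      simp only [ha, hb, hc, hd, min_eq_left, min_eq_right, max_eq_left, max_eq_right, zero_le_one] <;>
      linarith

theorem V0_c_cont (R : ℝ) : Continuous (V0_c R) := by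
  unfold V0_c
  exact continuous_const.max (continuous_const.min (continuous_neg.div_const R))

/-- the homeomorphism `σ` -/
theorem V0_sigma (m : ℤ) : ∃ (σ : ℝ ≃ₜ ℝ) (R : ℝ), 0 < R ∧ StrictMono σ ∧
    (∀ x, x ≤ -R → σ x = x + m) ∧ ∀ x, 0 ≤ x → σ x = x := by
  set R : ℝ := 2 * (|(m : ℝ)| + 1) with hRdef
  have hR : 0 < R := by positivity
  have habs : |(m : ℝ)| * 2 < R := by
    rw [hRdef]
    linarith
  have hmono : StrictMono fun x => x + m * V0_c R x := by
    intro x y hxy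
    show x + m * V0_c R x < y + m * V0_c R y
    obtain ⟨h1, h2⟩ := V0_c_lip (R := R) hR hxy.le
    have h3 : (m : ℝ) * (V0_c R x - V0_c R y) ≤ |(m : ℝ)| * ((y - x) / R) :=
      mul_le_mul (le_abs_self _) h2 (by linarith) (abs_nonneg _)
    have h4 : |(m : ℝ)| * ((y - x) / R) ≤ (y - x) / 2 := by
      rw [mul_div_assoc', div_le_div_iff₀ hR two_pos]
      have h5 : 0 < y - x := by linarith
      nlinarith
    have h5 : (m : ℝ) * (V0_c R x - V0_c R y) = m * V0_c R x - m * V0_c R y := by ring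
    linarith
  have hcont : Continuous fun x => x + m * V0_c R x :=
    continuous_id.add (continuous_const.mul (V0_c_cont R))
  have hbd : ∀ x, |(m : ℝ) * V0_c R x| ≤ |(m : ℝ)| := by
    intro x
    rw [abs_mul, abs_of_nonneg (V0_c_nonneg R x)]
    exact mul_le_of_le_one_right (abs_nonneg _) (V0_c_le R x)
  have hsurj : Function.Surjective fun x => x + m * V0_c R x := by
    refine hcont.surjective ?_ ?_
    · refine Filter.tendsto_atTop_mono (f := fun x => x - |(m : ℝ)|) (fun x => ?_) ?_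
      · have := (abs_le.1 (hbd x)).1
        linarith
      · exact Filter.tendsto_atTop_add_const_right _ _ Filter.tendsto_id
    · refine Filter.tendsto_atBot_mono (g := fun x => x + m * V0_c R x)
        (f := fun x => x + |(m : ℝ)|) (fun x => ?_) ?_
      · have := (abs_le.1 (hbd x)).2
        linarith
      · exact Filter.tendsto_atBot_add_const_right _ _ Filter.tendsto_id
  refine ⟨(hmono.orderIsoOfSurjective _ hsurj).toHomeomorph, R, hR, ?_, ?_, ?_⟩
  · exact hmono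
  · intro x hx
    show x + m * V0_c R x = x + m
    rw [V0_c_left hR hx, mul_one]
  · intro x hx
    show x + m * V0_c R x = x
    rw [V0_c_right hR hx, mul_zero, add_zero]

theorem V0_inv_eq {h : Y ≃ₜ Y} {z w : Y} (e : h w = z) : (h⁻¹ : Y ≃ₜ Y) z = w := by
  show h.symm z = w
  rw [← e, h.symm_apply_apply]

theorem tV0 (hCut : S_Cut) (hXi : S_Xi) (hShift : S_Shift) : S_V0 := by
  intro G a C D ε m hε hε2 hGt hGD hG0 haL haR haH
  -- v'
  set v' : Y ≃ₜ Y := tau ^ (-m) * G with hv'def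
  have hv'ap : ∀ z, v' z = ((G z).1 - m, (G z).2) := by
    intro z
    show (tau ^ (-m) : Y ≃ₜ Y) (G z) = _
    rw [tau_zpow_apply]
    push_cast
    rfl
  have hGv' : ∀ z, G z = ((v' z).1 + m, (v' z).2) := by
    intro z
    rw [hv'ap]
    refine Prod.ext ?_ rfl
    show (G z).1 = (G z).1 - m + m
    ring
  have hv't : ∀ z, v' (tau z) = tau (v' z) := by
    intro z
    rw [hv'ap, hv'ap, hGt, tau_apply, tau_apply]
    refine Prod.ext ?_ rfl
    show (G z).1 + 1 - m = (G z).1 - m + 1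
    ring
  have hv'D : ∀ z, |(v' z).1 - z.1| ≤ D + |(m : ℝ)| := by
    intro z
    rw [hv'ap]
    have h1 := abs_sub_abs_le_abs_sub ((G z).1 - z.1 - m) ((G z).1 - z.1)
    have h2 : (G z).1 - z.1 - m - ((G z).1 - z.1) = -(m : ℝ) := by ring
    rw [h2, abs_neg] at h1
    have h3 := hGD z
    have h4 : ((G z).1 - m, (G z).2).1 - z.1 = (G z).1 - z.1 - m := by
      show (G z).1 - m - z.1 = _
      ring
    rw [h4]
    linarith
  have hv'0 : ∀ z : Y, |z.1| < ε → v' z = z := by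
    intro z hz
    rw [hv'ap, hG0 z hz]
    refine Prod.ext ?_ rfl
    show z.1 + m - m = z.1
    ring
  have hv'1 : ∀ z : Y, |z.1 - 1| < ε → v' z = z := by
    intro z hz
    have h1 : tau ((z.1 - 1, z.2) : Y) = z := by
      rw [tau_apply]
      refine Prod.ext ?_ rfl
      show z.1 - 1 + 1 = z.1
      ring
    rw [← h1, hv't, hv'0 _ hz]
  obtain ⟨Ψ, hΨL, hΨR, hvL, hvR⟩ := hCut v' 0 (D + |(m : ℝ)|) hv'D fun z hz =>
    hv'0 z (by rw [hz, abs_zero]; exact hε)
  obtain ⟨σ, R, hR, hσm, hσL, hσR⟩ := V0_sigma m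
  set S : Y ≃ₜ Y := xh σ with hSdef
  have hSap : ∀ z, S z = (σ z.1, z.2) := fun z => rfl
  set E : Y ≃ₜ Y := Ψ⁻¹ * S⁻¹ * a with hEdef
  have hEap : ∀ z, E z = (Ψ⁻¹ : Y ≃ₜ Y) ((S⁻¹ : Y ≃ₜ Y) (a z)) := fun z => rfl
  -- bounded support of `E`
  obtain ⟨M, hM0, hEM⟩ : ∃ M : ℝ, 0 ≤ M ∧ ∀ z : Y, M ≤ |z.1| → E z = z := by
    refine ⟨|C| + |D| + |(m : ℝ)| + R, by positivity, fun z hz => ?_⟩
    rcases le_total 0 z.1 with h0 | h0
    · rw [abs_of_nonneg h0] at hz
      have h1 : C ≤ z.1 := by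
        have := le_abs_self C
        have := abs_nonneg D
        have := abs_nonneg (m : ℝ)
        linarith
      rw [hEap, haR z h1]
      have h2 : S z = z := by
        rw [hSap, hσR _ h0]
      rw [V0_inv_eq h2]
      exact V0_inv_eq (hΨR z h0)
    · rw [abs_of_nonpos h0] at hz
      have h1 : z.1 ≤ -C := by
        have := le_abs_self C
        have := abs_nonneg D
        have := abs_nonneg (m : ℝ)
        linarith
      rw [hEap, haL z h1]
      have h3 : (v' z).1 ≤ -R := by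
        have h4 := (abs_le.1 (hv'D z)).2
        have := le_abs_self D
        have := abs_nonneg C
        linarith
      have h2 : S (v' z) = G z := by
        rw [hSap, hσL _ h3, hGv' z]
      rw [V0_inv_eq h2]
      exact V0_inv_eq (hΨL z h0)
  have hES : SuppIn {z : Y | |z.1| ≤ M} E := by
    intro z hz
    have h1 : ¬ |z.1| ≤ M := hz
    exact hEM z (not_le.1 h1).le
  obtain ⟨t, htH, ht⟩ := hShift 1 M
  have htau : ∀ z : Y, |z.1| ≤ M → t z = tau z := by
    intro z hz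
    rw [ht z hz, tau_apply]
    push_cast
    rfl
  have hN := HY_normal
  -- (1)
  have hE1 : tau * E * tau⁻¹ = t * E * t⁻¹ := by
    ext z : 1
    show tau (E ((tau⁻¹ : Y ≃ₜ Y) z)) = t (E ((t⁻¹ : Y ≃ₜ Y) z))
    by_cases hw : |((tau⁻¹ : Y ≃ₜ Y) z).1| ≤ M
    · have h1 : tau ((tau⁻¹ : Y ≃ₜ Y) z) = z := tau.apply_symm_apply z
      have h2 : t ((tau⁻¹ : Y ≃ₜ Y) z) = z := by rw [htau _ hw, h1]
      rw [V0_inv_eq h2]
      exact (htau _ (hES.mapsTo hw)).symm
    · have h1 : ¬ |((t⁻¹ : Y ≃ₜ Y) z).1| ≤ M := by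
        intro h2
        have h3 : t ((t⁻¹ : Y ≃ₜ Y) z) = z := t.apply_symm_apply z
        rw [htau _ h2] at h3
        rw [V0_inv_eq h3] at hw
        exact hw h2
      rw [hES _ hw, hES _ h1]
      exact (tau.apply_symm_apply z).trans (t.apply_symm_apply z).symm
  have hE2 : tau * E * tau⁻¹ * E⁻¹ ∈ HY := by
    rw [hE1]
    have h1 : t * E * t⁻¹ * E⁻¹ = t * (E * t⁻¹ * E⁻¹) := by group
    rw [h1]
    exact HY.mul_mem htH (hN.conj_mem _ (HY.inv_mem htH) E)
  -- (2)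
  have hS2 : tau * S * tau⁻¹ * S⁻¹ ∈ HY := by
    let s1 : ℝ ≃ₜ ℝ := Homeomorph.addRight (1 : ℝ)
    let ξ : ℝ ≃ₜ ℝ := s1 * σ * s1⁻¹ * σ⁻¹
    have hξap : ∀ x, ξ x = σ (σ.symm x - 1) + 1 := fun x => by
      show σ (σ.symm x + -1) + 1 = _
      rw [← sub_eq_add_neg]
    have hsm : StrictMono σ.symm := by
      intro x y hxy
      by_contra hle
      push Not at hle
      have h1 := hσm.monotone hle
      rw [σ.apply_symm_apply, σ.apply_symm_apply] at h1
      linarith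
    have h1 : tau * S * tau⁻¹ * S⁻¹ = xh ξ := by
      ext z : 1
      rfl
    rw [h1]
    refine hXi ξ ?_ ⟨R + |(m : ℝ)| + 1, fun x hx => ?_⟩
    · intro x y hxy
      rw [hξap, hξap]
      have h2 : σ.symm x - 1 < σ.symm y - 1 := by
        have := hsm hxy
        linarith
      have := hσm h2
      linarith
    · rw [hξap]
      rcases le_total 0 x with h0 | h0
      · rw [abs_of_nonneg h0] at hx
        have h2 : σ.symm x = x := by
          rw [Homeomorph.symm_apply_eq, hσR x h0]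
        have h3 : 0 ≤ x - 1 := by
          have := abs_nonneg (m : ℝ)
          linarith
        rw [h2, hσR _ h3]
        ring
      · rw [abs_of_nonpos h0] at hx
        have h4 : x - m ≤ -R := by
          have := neg_abs_le (m : ℝ)
          linarith
        have h2 : σ.symm x = x - m := by
          rw [Homeomorph.symm_apply_eq, hσL _ h4]
          ring
        rw [h2, hσL _ (by linarith)]
        ring
  -- (3)
  have hΨ2 : Ψ⁻¹ * (tau * Ψ * tau⁻¹) ∈ HY := by
    let π : (Y ≃ₜ Y) →* (Y ≃ₜ Y) ⧸ HY := QuotientGroup.mk' HY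
    have hπ : ∀ y : Y ≃ₜ Y, π y = 1 ↔ y ∈ HY := fun y => QuotientGroup.eq_one_iff y
    rw [← hπ]
    have hq : ∀ y : Y ≃ₜ Y, tau * y * tau⁻¹ * y⁻¹ ∈ HY → π tau * π y * (π tau)⁻¹ = π y := by
      intro y hy
      rw [← hπ, map_mul, map_mul, map_mul, map_inv, map_inv] at hy
      exact mul_inv_eq_one.1 hy
    have hqa := hq a haH
    have hqS := hq S hS2
    have hqE := hq E hE2
    have hΨa : Ψ = S⁻¹ * a * E⁻¹ := by
      rw [hEdef]
      group
    have hqΨ : π tau * π Ψ * (π tau)⁻¹ = π Ψ := by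
      have e1 : π Ψ = (π S)⁻¹ * π a * (π E)⁻¹ := by
        rw [hΨa, map_mul, map_mul, map_inv, map_inv]
      rw [e1]
      calc π tau * ((π S)⁻¹ * π a * (π E)⁻¹) * (π tau)⁻¹
          = (π tau * π S * (π tau)⁻¹)⁻¹ * (π tau * π a * (π tau)⁻¹) *
            (π tau * π E * (π tau)⁻¹)⁻¹ := by group
        _ = _ := by rw [hqa, hqS, hqE]
    rw [map_mul, map_mul, map_mul, map_inv, map_inv, hqΨ, inv_mul_cancel]
  refine ⟨Ψ⁻¹ * (tau * Ψ * tau⁻¹), hΨ2, ?_⟩
  have hap : ∀ z : Y, (Ψ⁻¹ * (tau * Ψ * tau⁻¹) : Y ≃ₜ Y) z =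
      (Ψ⁻¹ : Y ≃ₜ Y) (tau (Ψ ((tau⁻¹ : Y ≃ₜ Y) z))) := fun z => rfl
  have hcase1 : ∀ z : Y, z.1 ≤ 1 → tau (Ψ ((tau⁻¹ : Y ≃ₜ Y) z)) = v' z := by
    intro z hz
    have h1 : ((tau⁻¹ : Y ≃ₜ Y) z).1 ≤ 0 := by
      rw [tau_inv_apply]
      show z.1 - 1 ≤ 0
      linarith
    rw [hΨL _ h1, ← hv't]
    exact congrArg v' (tau.apply_symm_apply z)
  have hv0a : ∀ z : Y, z.1 ≤ 0 → (Ψ⁻¹ * (tau * Ψ * tau⁻¹) : Y ≃ₜ Y) z = z := by
    intro z hz
    rw [hap, hcase1 z (by linarith)]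
    exact V0_inv_eq (hΨL z hz)
  have hv0b : ∀ z : Y, 0 ≤ z.1 → z.1 ≤ 1 → (Ψ⁻¹ * (tau * Ψ * tau⁻¹) : Y ≃ₜ Y) z = v' z := by
    intro z hz hz1
    rw [hap, hcase1 z hz1]
    exact V0_inv_eq (hΨR _ (hvR z hz))
  have hv0c : ∀ z : Y, 1 ≤ z.1 → (Ψ⁻¹ * (tau * Ψ * tau⁻¹) : Y ≃ₜ Y) z = z := by
    intro z hz
    have h1 : 0 ≤ ((tau⁻¹ : Y ≃ₜ Y) z).1 := by
      rw [tau_inv_apply]
      show 0 ≤ z.1 - 1
      linarith
    rw [hap, hΨR _ h1]
    have h2 : tau ((tau⁻¹ : Y ≃ₜ Y) z) = z := tau.apply_symm_apply z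
    rw [h2]
    exact V0_inv_eq (hΨR z (by linarith))
  constructor
  · intro z hz
    have hz' : ¬ (ε ≤ z.1 ∧ z.1 ≤ 1 - ε) := hz
    rcases le_total z.1 0 with h0 | h0
    · exact hv0a z h0
    rcases le_total 1 z.1 with h1 | h1
    · exact hv0c z h1
    rw [hv0b z h0 h1]
    by_cases h2 : z.1 < ε
    · exact hv'0 z (by rw [abs_of_nonneg h0]; exact h2)
    · push Not at h2
      have h3 : 1 - ε < z.1 := by
        by_contra h4
        exact hz' ⟨h2, not_lt.1 h4⟩
      refine hv'1 z ?_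
      rw [abs_lt]
      constructor <;> linarith
  · intro z h0 h1
    rw [hv0b z h0 h1, hv'ap]

end Pool.Agent.MPe54d61.TC
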